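import Pool.Agent.W_7d29a1_F.GrB
import Pool.Agent.W_7d29a1_F.CoreD3
import Pool.Agent.W_7d29a1_F.CoreA4

/-!
Track G: the crossing inequality in the mean with both boundary terms kept (message 48431 of the board,
part (1)). A polymer `a → a + (T, z)` which stays in a set `R` crosses `K + 1` free polymers; the
crossings give `K` longer polymers and two end pieces.

Also: `Sub` (linear growth, all moments) for `log WR` whenever `R` contains an admissible path.
-/

namespace Pool.Agent.W_7d29a1_g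

open MeasureTheory ProbabilityTheory Filter Topology
open Pool.Agent.W_7d29a1_F

variable {μ : Measure ℝ} {s : ℝ}

/-- `R` contains the sites of an admissible path from `a` to `a + (n, y)` except the first one. -/
def HasPath (R : Set Pt) (a : Pt) (n : ℕ) (y : ℤ) : Prop :=
  ∃ p : ℕ → ℤ, p 0 = 0 ∧ p n = y ∧ (∀ k < n, p (k + 1) = p k ∨ p (k + 1) = p k + 1) ∧
    ∀ k, 1 ≤ k → k ≤ n → ((a.1 + k, a.2 + p k) : Pt) ∈ R

private theorem sum_step (η : Env) (a : Pt) (n : ℕ) {y : ℤ} (h0 : 0 ≤ y) (h1 : y ≤ (n : ℤ) + 1) :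
    (∑ p ∈ Finset.Icc a.1 (a.1 + n) ×ˢ Finset.Icc a.2 (a.2 + n), |η p|) +
      |η (a.1 + ((n : ℤ) + 1), a.2 + y)| ≤
      ∑ p ∈ Finset.Icc a.1 (a.1 + (n + 1 : ℕ)) ×ˢ Finset.Icc a.2 (a.2 + (n + 1 : ℕ)), |η p| := by
  have hnm : ((a.1 + ((n : ℤ) + 1), a.2 + y) : Pt) ∉
      Finset.Icc a.1 (a.1 + n) ×ˢ Finset.Icc a.2 (a.2 + n) := by
    rw [Finset.mem_product, Finset.mem_Icc]
    rintro ⟨⟨-, h2⟩, -⟩
    simp only at h2
    omega
  rw [add_comm, ← Finset.sum_insert (f := fun p : Pt => |η p|) hnm]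
  refine Finset.sum_le_sum_of_subset_of_nonneg ?_ fun _ _ _ => abs_nonneg _
  intro p hp
  rw [Finset.mem_insert, Finset.mem_product, Finset.mem_Icc, Finset.mem_Icc] at hp
  rw [Finset.mem_product, Finset.mem_Icc, Finset.mem_Icc]
  push_cast
  rcases hp with hp | hp
  · subst hp
    simp only
    omega
  · omega

/-- The lower bound for one path. -/
theorem HasPath.zr_ge {R : Set Pt} {a : Pt} {n : ℕ} {y : ℤ} (h : HasPath R a n y) (η : Env) :
    Real.exp (-∑ p ∈ Finset.Icc a.1 (a.1 + n) ×ˢ Finset.Icc a.2 (a.2 + n), |η p|) ≤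
      Zr R η a n y := by
  induction n generalizing y with
  | zero =>
    obtain ⟨p, hp0, hpy, -, -⟩ := h
    have hy : y = 0 := by rw [← hpy, hp0]
    have h2 : (0 : ℝ) ≤ ∑ p ∈ Finset.Icc a.1 (a.1 + (0 : ℕ)) ×ˢ Finset.Icc a.2 (a.2 + (0 : ℕ)), |η p| :=
      Finset.sum_nonneg fun _ _ => abs_nonneg _
    simp only [Zr]
    rw [if_pos hy]
    exact Real.exp_le_one_iff.2 (neg_nonpos.2 h2)
  | succ n ih =>
    obtain ⟨p, hp0, hpy, hst, hR⟩ := h
    have hb : ∀ k ≤ n + 1, 0 ≤ p k ∧ p k ≤ k := by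
      intro k
      induction k with
      | zero =>
        intro _
        rw [hp0]
        simp
      | succ k ihk =>
        intro hk
        have h1 := ihk (by omega)
        rcases hst k (by omega) with h2 | h2 <;> rw [h2] <;> push_cast <;> omega
    have h0 : 0 ≤ y := by rw [← hpy]; exact (hb (n + 1) le_rfl).1
    have h1' : y ≤ (n : ℤ) + 1 := by
      have h2 := (hb (n + 1) le_rfl).2
      rw [hpy] at h2
      push_cast at h2
      exact h2
    have hs := sum_step η a n h0 h1'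
    obtain ⟨S, hS⟩ : ∃ S : ℝ, S = ∑ p ∈ Finset.Icc a.1 (a.1 + n) ×ˢ Finset.Icc a.2 (a.2 + n), |η p| :=
      ⟨_, rfl⟩
    rw [← hS] at hs
    have hmem : ((a.1 + ((n : ℤ) + 1), a.2 + y) : Pt) ∈ R := by
      have h2 := hR (n + 1) (by omega) le_rfl
      rw [hpy] at h2
      push_cast at h2
      exact h2
    obtain ⟨q, hq⟩ : ∃ q : Pt, q = (a.1 + ((n : ℤ) + 1), a.2 + y) := ⟨_, rfl⟩
    rw [← hq] at hs hmem
    simp only [Zr]
    rw [← hq, Set.indicator_of_mem hmem]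
    have n1 := Zr_nonneg R η a n y
    have n2 := Zr_nonneg R η a n (y - 1)
    have hpath : HasPath R a n (p n) :=
      ⟨p, hp0, rfl, fun k hk => hst k (by omega), fun k hk hk' => hR k hk (by omega)⟩
    have h5 := ih hpath
    rw [← hS] at h5
    have h4 : Real.exp (-S) ≤ Zr R η a n y + Zr R η a n (y - 1) := by
      rcases hst n (by omega) with h6 | h6
      · have h7 : p n = y := by rw [← hpy, h6]
        rw [h7] at h5
        linarith
      · have h7 : p n = y - 1 := by rw [← hpy, h6]; ring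
        rw [h7] at h5
        linarith
    have h6 : Real.exp (-|η q|) ≤ Real.exp (η q) := Real.exp_le_exp.2 (neg_abs_le _)
    calc Real.exp (-∑ p ∈ Finset.Icc a.1 (a.1 + (n + 1 : ℕ)) ×ˢ Finset.Icc a.2 (a.2 + (n + 1 : ℕ)), |η p|)
        ≤ Real.exp (-|η q| + -S) := Real.exp_le_exp.2 (by linarith)
      _ = Real.exp (-|η q|) * Real.exp (-S) := Real.exp_add _ _
      _ ≤ _ := mul_le_mul h6 h4 (Real.exp_pos _).le (Real.exp_pos _).le

theorem HasPath.zr_pos {R : Set Pt} {a : Pt} {n : ℕ} {y : ℤ} (h : HasPath R a n y) (η : Env) :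
    0 < Zr R η a n y :=
  lt_of_lt_of_le (Real.exp_pos _) (h.zr_ge η)

theorem HasPath.wr_pos {R : Set Pt} {a : Pt} {n : ℕ} {y : ℤ} (h : HasPath R a n y) (η : Env) :
    0 < WR μ s R η a n y := by
  unfold WR
  exact mul_pos (Real.exp_pos _) (h.zr_pos η)

theorem HasPath.mono {R R' : Set Pt} {a : Pt} {n : ℕ} {y : ℤ} (h : HasPath R a n y) (hR : R ⊆ R') :
    HasPath R' a n y := by
  obtain ⟨p, h1, h2, h3, h4⟩ := h
  exact ⟨p, h1, h2, h3, fun k hk hk' => hR (h4 k hk hk')⟩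

/-- `log WR` has linear growth (hence all exponential moments, `Sub.exp_int`). -/
theorem HasPath.sub {R : Set Pt} {a : Pt} {n : ℕ} {y : ℤ} (h : HasPath R a n y) :
    Sub fun η => Real.log (WR μ s R η a n y) := by
  set Q : Finset Pt := Finset.Icc a.1 (a.1 + n) ×ˢ Finset.Icc a.2 (a.2 + n) with hQ
  obtain ⟨k, hk⟩ : ∃ k : ℝ, k = Real.exp (s * y - n * lam μ s) := ⟨_, rfl⟩
  have hk0 : 0 < k := by
    rw [hk]
    exact Real.exp_pos _
  have hW : ∀ η : Env, WR μ s R η a n y = k * Zr R η a n y := fun η => by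
    rw [hk]
    rfl
  have hS : Sub fun η : Env => ∑ p ∈ Q, |η p| :=
    Sub.sum Q fun p _ => (Sub.coord p).abs
  have hpos : ∀ η : Env, 0 < WR μ s R η a n y := fun η => h.wr_pos η
  refine Sub.of_le ?_ ((Sub.const (Real.log k)).sub hS)
    ((Sub.const (Real.log (k * 2 ^ n))).add hS) (fun η => ?_) (fun η => ?_)
  · refine Real.measurable_log.comp ?_
    simp only [hW]
    exact (measurable_Zr R a n y).const_mul k
  · have h1 : k * Real.exp (-∑ p ∈ Q, |η p|) ≤ WR μ s R η a n y := by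
      rw [hW]
      exact mul_le_mul_of_nonneg_left (h.zr_ge η) hk0.le
    have h2 := Real.log_le_log (mul_pos hk0 (Real.exp_pos _)) h1
    rw [Real.log_mul hk0.ne' (Real.exp_pos _).ne', Real.log_exp] at h2
    simpa [sub_eq_add_neg] using h2
  · have h1 : WR μ s R η a n y ≤ k * 2 ^ n * Real.exp (∑ p ∈ Q, |η p|) := by
      rw [hW, mul_assoc]
      exact mul_le_mul_of_nonneg_left (Zr_le R η a n y) hk0.le
    have h2 := Real.log_le_log (hpos η) h1
    rw [Real.log_mul (mul_pos hk0 (by positivity)).ne' (Real.exp_pos _).ne', Real.log_exp] at h2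
    exact h2

/-- The mean cost of the displacement `(n, y)` for the polymer which stays in `R`, started at `a`. -/
noncomputable def eR (μ : Measure ℝ) (s : ℝ) (R : Set Pt) (a : Pt) (n : ℕ) (y : ℤ) : ℝ :=
  ∫ η, -Real.log (WR μ s R η a n y) ∂(law μ)

section cross

variable (R : Set Pt) (a : Pt) (T : ℕ) (z : ℤ) (K ρ n : ℕ) (xs ys : ℕ → ℤ)

/-- The crossing inequality for the costs, for every environment. -/
theorem cross_cost (η : Env) (ha : a ∈ R) (hpath : HasPath R a T z) (hn : n ≤ ρ)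
    (hT : K * ρ + n ≤ T)
    (hx : ∀ k ≤ K, ∀ q : ℤ, ((a.1 + k * ρ, q) : Pt) ∈ R → q ≤ xs k)
    (hy : ∀ k ≤ K, ∀ q : ℤ, ((a.1 + (k * ρ + n), q) : Pt) ∈ R → ys k ≤ q)
    (h1 : ∀ k ≤ K, 0 ≤ ys k - xs k ∧ ys k - xs k ≤ n) :
    (0 ≤ ys 0 - a.2 ∧ ys 0 - a.2 ≤ n) ∧
    (∀ k < K, 0 ≤ ys (k + 1) - xs k ∧ ys (k + 1) - xs k ≤ (ρ + n : ℕ)) ∧
    (0 ≤ a.2 + z - xs K ∧ a.2 + z - xs K ≤ (T - K * ρ : ℕ)) ∧
    X μ s η a n (ys 0 - a.2) +
        ∑ k ∈ Finset.range K, X μ s η (a.1 + k * ρ, xs k) (ρ + n) (ys (k + 1) - xs k) +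
        X μ s η (a.1 + K * ρ, xs K) (T - K * ρ) (a.2 + z - xs K) ≤
      -Real.log (WR μ s R η a T z) +
        ∑ k ∈ Finset.range (K + 1), X μ s η (a.1 + k * ρ, xs k) n (ys k - xs k) := by
  have hcr := cross_model (μ := μ) (s := s) η R a ha T z K ρ n hn hT xs ys hx hy
  have hl : ∀ k ∈ Finset.range (K + 1), 0 < W μ s η (a.1 + k * ρ, xs k) n (ys k - xs k) := by
    intro k hk
    have h2 := h1 k (by
      have := Finset.mem_range.1 hk
      omega)
    exact W_pos η _ h2.1 h2.2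
  have hP1 : 0 < ∏ k ∈ Finset.range (K + 1), W μ s η (a.1 + k * ρ, xs k) n (ys k - xs k) :=
    Finset.prod_pos hl
  have hR := hpath.wr_pos (μ := μ) (s := s) η
  have hL : 0 < WR μ s R η a T z *
      ∏ k ∈ Finset.range (K + 1), W μ s η (a.1 + k * ρ, xs k) n (ys k - xs k) := mul_pos hR hP1
  have hpos := hL.trans_le hcr
  have hA : 0 ≤ ys 0 - a.2 ∧ ys 0 - a.2 ≤ n := by
    by_contra hcon
    rw [W_eq_zero η a hcon, zero_mul, zero_mul] at hpos
    exact lt_irrefl _ hpos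
  have hB : 0 ≤ a.2 + z - xs K ∧ a.2 + z - xs K ≤ ((T - K * ρ : ℕ) : ℤ) := by
    by_contra hcon
    rw [W_eq_zero η _ hcon, mul_zero] at hpos
    exact lt_irrefl _ hpos
  have hM : ∀ k < K, 0 ≤ ys (k + 1) - xs k ∧ ys (k + 1) - xs k ≤ (ρ + n : ℕ) := by
    intro k hk
    by_contra hcon
    have h2 : ∏ k ∈ Finset.range K, W μ s η (a.1 + k * ρ, xs k) (ρ + n) (ys (k + 1) - xs k) = 0 :=
      Finset.prod_eq_zero (Finset.mem_range.2 hk) (W_eq_zero η _ hcon)
    rw [h2, mul_zero, zero_mul] at hpos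
    exact lt_irrefl _ hpos
  refine ⟨hA, hM, hB, ?_⟩
  have hA' := W_pos (μ := μ) (s := s) η a hA.1 hA.2
  have hB' := W_pos (μ := μ) (s := s) η (a.1 + K * ρ, xs K) hB.1 hB.2
  have hm : ∀ k ∈ Finset.range K,
      0 < W μ s η (a.1 + k * ρ, xs k) (ρ + n) (ys (k + 1) - xs k) := fun k hk => by
    have h2 := hM k (Finset.mem_range.1 hk)
    exact W_pos η _ h2.1 h2.2
  have hP2 := Finset.prod_pos hm
  have hlog := Real.log_le_log hL hcr
  rw [Real.log_mul hR.ne' hP1.ne', Real.log_mul (mul_pos hA' hP2).ne' hB'.ne',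
    Real.log_mul hA'.ne' hP2.ne', Real.log_prod (fun k hk => (hl k hk).ne'),
    Real.log_prod (fun k hk => (hm k hk).ne')] at hlog
  have hS1 : ∑ k ∈ Finset.range K, X μ s η (a.1 + k * ρ, xs k) (ρ + n) (ys (k + 1) - xs k) =
      -∑ k ∈ Finset.range K, Real.log (W μ s η (a.1 + k * ρ, xs k) (ρ + n) (ys (k + 1) - xs k)) := by
    rw [← Finset.sum_neg_distrib]
    rfl
  have hS2 : ∑ k ∈ Finset.range (K + 1), X μ s η (a.1 + k * ρ, xs k) n (ys k - xs k) =
      -∑ k ∈ Finset.range (K + 1), Real.log (W μ s η (a.1 + k * ρ, xs k) n (ys k - xs k)) := by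
    rw [← Finset.sum_neg_distrib]
    rfl
  have hXA : X μ s η a n (ys 0 - a.2) = -Real.log (W μ s η a n (ys 0 - a.2)) := rfl
  have hXB : X μ s η (a.1 + K * ρ, xs K) (T - K * ρ) (a.2 + z - xs K) =
      -Real.log (W μ s η (a.1 + K * ρ, xs K) (T - K * ρ) (a.2 + z - xs K)) := rfl
  rw [hS1, hS2, hXA, hXB]
  linarith

/-- The crossing inequality in the mean, both boundary terms kept. -/
theorem cross_mean [IsProbabilityMeasure μ] (hμ : Pool.Agent.W_7d29a1_h47.EM μ) (ha : a ∈ R)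
    (hpath : HasPath R a T z) (hn : n ≤ ρ) (hT : K * ρ + n ≤ T)
    (hx : ∀ k ≤ K, ∀ q : ℤ, ((a.1 + k * ρ, q) : Pt) ∈ R → q ≤ xs k)
    (hy : ∀ k ≤ K, ∀ q : ℤ, ((a.1 + (k * ρ + n), q) : Pt) ∈ R → ys k ≤ q)
    (h1 : ∀ k ≤ K, 0 ≤ ys k - xs k ∧ ys k - xs k ≤ n) :
    e μ s n (ys 0 - a.2) + ∑ k ∈ Finset.range K, e μ s (ρ + n) (ys (k + 1) - xs k) +
        e μ s (T - K * ρ) (a.2 + z - xs K) ≤
      eR μ s R a T z + ∑ k ∈ Finset.range (K + 1), e μ s n (ys k - xs k) := by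
  obtain ⟨hA, hM, hB, -⟩ := cross_cost (μ := μ) (s := s) R a T z K ρ n xs ys 0 ha hpath hn hT hx hy h1
  have hc := fun η => (cross_cost (μ := μ) (s := s) R a T z K ρ n xs ys η ha hpath hn hT hx hy h1).2.2.2
  have sA : Sub fun η => X μ s η a n (ys 0 - a.2) := Sub_X a hA.1 hA.2
  have sM : ∀ k ∈ Finset.range K,
      Sub fun η => X μ s η (a.1 + k * ρ, xs k) (ρ + n) (ys (k + 1) - xs k) := fun k hk =>
    Sub_X _ (hM k (Finset.mem_range.1 hk)).1 (hM k (Finset.mem_range.1 hk)).2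
  have sB : Sub fun η => X μ s η (a.1 + K * ρ, xs K) (T - K * ρ) (a.2 + z - xs K) :=
    Sub_X _ hB.1 hB.2
  have sL : ∀ k ∈ Finset.range (K + 1),
      Sub fun η => X μ s η (a.1 + k * ρ, xs k) n (ys k - xs k) := fun k hk => by
    have h2 := h1 k (by
      have := Finset.mem_range.1 hk
      omega)
    exact Sub_X _ h2.1 h2.2
  have sR : Sub fun η => -Real.log (WR μ s R η a T z) := hpath.sub.neg
  have iA := sA.integrable hμ
  have iB := sB.integrable hμ
  have iR := sR.integrable hμ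
  have iM : ∀ k ∈ Finset.range K, Integrable
      (fun η => X μ s η (a.1 + k * ρ, xs k) (ρ + n) (ys (k + 1) - xs k)) (law μ) :=
    fun k hk => (sM k hk).integrable hμ
  have iL : ∀ k ∈ Finset.range (K + 1), Integrable
      (fun η => X μ s η (a.1 + k * ρ, xs k) n (ys k - xs k)) (law μ) :=
    fun k hk => (sL k hk).integrable hμ
  have iMs := integrable_finset_sum _ iM
  have iLs := integrable_finset_sum _ iL
  have iAM : Integrable (fun η => X μ s η a n (ys 0 - a.2) +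
      ∑ k ∈ Finset.range K, X μ s η (a.1 + k * ρ, xs k) (ρ + n) (ys (k + 1) - xs k)) (law μ) :=
    iA.add iMs
  have iL' : Integrable (fun η => X μ s η a n (ys 0 - a.2) +
      ∑ k ∈ Finset.range K, X μ s η (a.1 + k * ρ, xs k) (ρ + n) (ys (k + 1) - xs k) +
      X μ s η (a.1 + K * ρ, xs K) (T - K * ρ) (a.2 + z - xs K)) (law μ) := iAM.add iB
  have iR' : Integrable (fun η => -Real.log (WR μ s R η a T z) +
      ∑ k ∈ Finset.range (K + 1), X μ s η (a.1 + k * ρ, xs k) n (ys k - xs k)) (law μ) :=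
    iR.add iLs
  have h2 := integral_mono iL' iR' hc
  rw [integral_add iAM iB, integral_add iR iLs, integral_add iA iMs, integral_finset_sum _ iM,
    integral_finset_sum _ iL] at h2
  simp only [integral_X] at h2
  exact h2

end cross

end Pool.Agent.W_7d29a1_g
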