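import Pool.Agent.W_7d29a1_F.CoreD
import Pool.Agent.W_7d29a1_f21.Exit
import Pool.Agent.W_7d29a1_h47.Path

/-!
Track G, section 5 of proofs row 619 (soft tube), deterministic part: the paths which miss a gate
`|x - σ j p| ≤ w` at one of the times `j p` have a violated dyadic increment, one end of which is in the tube.
-/

namespace Pool.Agent.W_7d29a1_g

open MeasureTheory ProbabilityTheory Filter Topology
open Pool.Agent.W_7d29a1_F Pool.Agent.W_7d29a1_f21

noncomputable section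

/-- The gates at the times `j p`, `1 ≤ j ≤ 2 ^ k`: `|x - σ j p| ≤ w`; one step later `- w ≤ x - σ j p ≤ w + 1`
(this is no restriction). -/
def Gates (p k : ℕ) (σ w : ℝ) : Set Pt :=
  {q | ∀ j : ℕ, 1 ≤ j → j ≤ 2 ^ k →
    (q.1 = ((j * p : ℕ) : ℤ) → |(q.2 : ℝ) - σ * ((j * p : ℕ) : ℝ)| ≤ w) ∧
    (q.1 = ((j * p : ℕ) : ℤ) + 1 → -w ≤ (q.2 : ℝ) - σ * ((j * p : ℕ) : ℝ) ∧
      (q.2 : ℝ) - σ * ((j * p : ℕ) : ℝ) ≤ w + 1)}

/-- A violated increment, one end of which is in the tube. -/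
def Vb (σ w wm : ℝ) (t t' : ℕ) (x x' : ℤ) : Prop :=
  wm < ((x' : ℝ) - σ * t') - ((x : ℝ) - σ * t) ∧ (|(x : ℝ) - σ * t| ≤ w ∨ |(x' : ℝ) - σ * t'| ≤ w)

open Classical in
/-- The weight of the paths from `0` to `(T, z)` with a violated increment between the times `t` and `t'`. -/
def Pb (μ : Measure ℝ) (s : ℝ) (η : Env) (T : ℕ) (z : ℤ) (σ w wm : ℝ) (t t' : ℕ) : ℝ :=
  ∑ x ∈ Finset.Icc (0 : ℤ) t, ∑ x' ∈ Finset.Icc (0 : ℤ) t', if Vb σ w wm t t' x x' then
    W μ s η 0 t x * W μ s η ((t : ℤ), x) (t' - t) (x' - x) *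
      W μ s η ((t' : ℤ), x') (T - t') (z - x') else 0

/-- The position of the path `s` at time `i`. -/
def TA_q (s : ℕ → Bool) (i : ℕ) : ℤ := ∑ j ∈ Finset.range i, if s j then 1 else 0

/-- The weight of a path. -/
def TA_pw (R : Set Pt) (η : Env) (a : Pt) (n : ℕ) (s : ℕ → Bool) : ℝ :=
  ∏ i ∈ Finset.range n,
    R.indicator (fun p => Real.exp (η p)) (a.1 + ((i : ℤ) + 1), a.2 + TA_q s (i + 1))

theorem TA_q_zero (s : ℕ → Bool) : TA_q s 0 = 0 := by simp [TA_q]

theorem TA_q_succ (s : ℕ → Bool) (i : ℕ) :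
    TA_q s (i + 1) = TA_q s i + if s i then 1 else 0 := by
  unfold TA_q
  rw [Finset.sum_range_succ]

theorem TA_q_nonneg (s : ℕ → Bool) (i : ℕ) : 0 ≤ TA_q s i := by
  unfold TA_q
  refine Finset.sum_nonneg fun j _ => ?_
  split_ifs <;> norm_num

theorem TA_q_le (s : ℕ → Bool) (i : ℕ) : TA_q s i ≤ i := by
  induction i with
  | zero => rw [TA_q_zero]; simp
  | succ i ih =>
    rw [TA_q_succ]
    push_cast
    split_ifs <;> omega

theorem TA_q_congr {s r : ℕ → Bool} {i : ℕ} (h : ∀ j < i, s j = r j) :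
    TA_q s i = TA_q r i := by
  unfold TA_q
  exact Finset.sum_congr rfl fun j hj => by rw [h j (Finset.mem_range.1 hj)]

theorem TA_q_add (s : ℕ → Bool) (i j : ℕ) :
    TA_q s (i + j) = TA_q s i + TA_q (Pool.Agent.W_7d29a1_h47.shf i s) j := by
  unfold TA_q
  rw [Finset.sum_range_add]
  rfl

theorem TA_q_glue_le {a i : ℕ} (h : i ≤ a) (s r : ℕ → Bool) :
    TA_q (Pool.Agent.W_7d29a1_h47.glue a s r) i = TA_q s i :=
  TA_q_congr fun _ hj => Pool.Agent.W_7d29a1_h47.glue_lt (hj.trans_le h) s r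

theorem TA_q_glue_add (a i : ℕ) (s r : ℕ → Bool) :
    TA_q (Pool.Agent.W_7d29a1_h47.glue a s r) (a + i) = TA_q s a + TA_q r i := by
  rw [TA_q_add, Pool.Agent.W_7d29a1_h47.shf_glue, TA_q_glue_le le_rfl]

theorem TA_pw_nonneg (R : Set Pt) (η : Env) (a : Pt) (n : ℕ) (s : ℕ → Bool) :
    0 ≤ TA_pw R η a n s :=
  Finset.prod_nonneg fun _ _ => Set.indicator_nonneg (fun _ _ => (Real.exp_pos _).le) _

theorem TA_pw_glue (R : Set Pt) (η : Env) (a : Pt) (m n : ℕ) (s r : ℕ → Bool) :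
    TA_pw R η a (m + n) (Pool.Agent.W_7d29a1_h47.glue m s r) =
      TA_pw R η a m s * TA_pw R η (a.1 + m, a.2 + TA_q s m) n r := by
  unfold TA_pw
  rw [Finset.prod_range_add]
  congr 1
  · refine Finset.prod_congr rfl fun i hi => ?_
    rw [TA_q_glue_le (by have := Finset.mem_range.1 hi; omega)]
  · refine Finset.prod_congr rfl fun i _ => ?_
    rw [add_assoc m i 1, TA_q_glue_add]
    congr 2
    · push_cast
      ring
    · ring

/-- The two paths with one step. -/
theorem TA_T1 (F : (ℕ → Bool) → ℝ) :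
    ∑ r ∈ Pool.Agent.W_7d29a1_h47.T 1, F r = F (fun _ => false) + F (fun i => decide (i = 0)) := by
  classical
  have h1 : Pool.Agent.W_7d29a1_h47.T 1 =
      {(fun _ => false : ℕ → Bool), (fun i => decide (i = 0) : ℕ → Bool)} := by
    ext s
    rw [Pool.Agent.W_7d29a1_h47.mem_T, Finset.mem_insert, Finset.mem_singleton]
    constructor
    · intro h
      cases h0 : s 0
      · left
        funext i
        rcases Nat.eq_zero_or_pos i with hi | hi
        · rw [hi, h0]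
        · exact h i hi
      · right
        funext i
        rcases Nat.eq_zero_or_pos i with hi | hi
        · rw [hi, h0]
          simp
        · rw [h i hi]
          simp [hi.ne']
    · rintro (h | h) i hi
      · rw [h]
      · rw [h]
        simp only [decide_eq_false_iff_not]
        omega
  have h2 : (fun _ => false : ℕ → Bool) ≠ fun i => decide (i = 0) := by
    intro h
    have := congrFun h 0
    simp at this
  rw [h1, Finset.sum_pair h2]

theorem TA_Zr (R : Set Pt) (η : Env) (a : Pt) (n : ℕ) (y : ℤ) :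
    Zr R η a n y = ∑ s ∈ Pool.Agent.W_7d29a1_h47.T n,
      if TA_q s n = y then TA_pw R η a n s else 0 := by
  induction n generalizing y with
  | zero =>
    rw [Pool.Agent.W_7d29a1_h47.T_zero, Finset.sum_singleton, TA_q_zero]
    show (if y = 0 then (1 : ℝ) else 0) = _
    by_cases hy : y = 0
    · rw [if_pos hy, if_pos hy.symm]
      simp [TA_pw]
    · rw [if_neg hy, if_neg (Ne.symm hy)]
  | succ n ih =>
    show R.indicator (fun p => Real.exp (η p)) (a.1 + ((n : ℤ) + 1), a.2 + y) *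
      (Zr R η a n y + Zr R η a n (y - 1)) = _
    rw [ih y, ih (y - 1), Pool.Agent.W_7d29a1_h47.sum_split, ← Finset.sum_add_distrib,
      Finset.mul_sum]
    refine Finset.sum_congr rfl fun s _ => ?_
    rw [TA_T1]
    have h1 : ∀ r : ℕ → Bool, TA_q (Pool.Agent.W_7d29a1_h47.glue n s r) (n + 1) =
        TA_q s n + if r 0 then 1 else 0 := by
      intro r
      rw [TA_q_glue_add]
      congr 1
      unfold TA_q
      rw [Finset.sum_range_one]
    have h2 : ∀ r : ℕ → Bool, TA_pw R η a (n + 1) (Pool.Agent.W_7d29a1_h47.glue n s r) =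
        TA_pw R η a n s * R.indicator (fun p => Real.exp (η p))
          (a.1 + ((n : ℤ) + 1), a.2 + (TA_q s n + if r 0 then 1 else 0)) := by
      intro r
      rw [TA_pw_glue]
      congr 1
      unfold TA_pw
      rw [Finset.prod_range_one]
      congr 2
      · push_cast
        ring
      · rw [add_assoc]
        congr 1
        congr 1
        unfold TA_q
        rw [zero_add, Finset.sum_range_one]
    rw [h1, h1, h2, h2]
    simp only [decide_true, if_true, Bool.false_eq_true, if_false, add_zero]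
    rw [mul_add]
    congr 1
    · by_cases h : TA_q s n = y
      · rw [if_pos h, if_pos h, h, mul_comm]
      · rw [if_neg h, if_neg h, mul_zero]
    · by_cases h : TA_q s n = y - 1
      · have h3 : TA_q s n + 1 = y := by omega
        rw [if_pos h, if_pos h3, h3, mul_comm]
      · have h3 : ¬ TA_q s n + 1 = y := by omega
        rw [if_neg h, if_neg h3, mul_zero]

/-- Splitting at time `m`, with a function of the position at time `m` and of the future. -/
theorem TA_split (R : Set Pt) (η : Env) (a : Pt) (m n : ℕ) (K : ℤ → (ℕ → Bool) → ℝ) :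
    ∑ s ∈ Pool.Agent.W_7d29a1_h47.T (m + n), TA_pw R η a (m + n) s *
        K (TA_q s m) (Pool.Agent.W_7d29a1_h47.shf m s) =
      ∑ k ∈ Finset.Icc (0 : ℤ) m, Zr R η a m k * ∑ r ∈ Pool.Agent.W_7d29a1_h47.T n,
        TA_pw R η (a.1 + m, a.2 + k) n r * K k r := by
  rw [Pool.Agent.W_7d29a1_h47.sum_split]
  have h1 : ∀ k ∈ Finset.Icc (0 : ℤ) m, (Zr R η a m k * ∑ r ∈ Pool.Agent.W_7d29a1_h47.T n,
        TA_pw R η (a.1 + m, a.2 + k) n r * K k r) =
      ∑ s ∈ Pool.Agent.W_7d29a1_h47.T m, if TA_q s m = k then TA_pw R η a m s *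
        ∑ r ∈ Pool.Agent.W_7d29a1_h47.T n, TA_pw R η (a.1 + m, a.2 + k) n r * K k r else 0 := by
    intro k _
    rw [TA_Zr, Finset.sum_mul]
    refine Finset.sum_congr rfl fun s _ => ?_
    by_cases h : TA_q s m = k
    · rw [if_pos h, if_pos h]
    · rw [if_neg h, if_neg h, zero_mul]
  rw [Finset.sum_congr rfl h1]
  conv_rhs => rw [Finset.sum_comm]
  refine Finset.sum_congr rfl fun s _ => ?_
  have h2 : (∑ k ∈ Finset.Icc (0 : ℤ) m, if TA_q s m = k then TA_pw R η a m s *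
        ∑ r ∈ Pool.Agent.W_7d29a1_h47.T n, TA_pw R η (a.1 + m, a.2 + k) n r * K k r else 0) =
      TA_pw R η a m s * ∑ r ∈ Pool.Agent.W_7d29a1_h47.T n,
        TA_pw R η (a.1 + m, a.2 + TA_q s m) n r * K (TA_q s m) r := by
    rw [Finset.sum_ite_eq (Finset.Icc (0 : ℤ) m) (TA_q s m) fun k => TA_pw R η a m s *
        ∑ r ∈ Pool.Agent.W_7d29a1_h47.T n, TA_pw R η (a.1 + m, a.2 + k) n r * K k r,
      if_pos (Finset.mem_Icc.2 ⟨TA_q_nonneg s m, TA_q_le s m⟩)]
  rw [h2, Finset.mul_sum]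
  refine Finset.sum_congr rfl fun r _ => ?_
  rw [TA_pw_glue, TA_q_glue_le le_rfl, Pool.Agent.W_7d29a1_h47.shf_glue, mul_assoc]

open Classical in
/-- The weight of the paths with marked positions at two times. -/
theorem TA_two (η : Env) (t n2 n3 : ℕ) (z : ℤ) (P : ℤ → ℤ → Prop) :
    (∑ s ∈ Pool.Agent.W_7d29a1_h47.T (t + (n2 + n3)), TA_pw Set.univ η 0 (t + (n2 + n3)) s *
        (if TA_q s (t + (n2 + n3)) = z ∧ P (TA_q s t) (TA_q s (t + n2)) then 1 else 0)) ≤
      ∑ x ∈ Finset.Icc (0 : ℤ) t, ∑ x' ∈ Finset.Icc (0 : ℤ) (t + n2 : ℕ), if P x x' then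
        Zr Set.univ η 0 t x * Zr Set.univ η ((t : ℤ), x) n2 (x' - x) *
          Zr Set.univ η (((t + n2 : ℕ) : ℤ), x') n3 (z - x') else 0 := by
  have h1 := TA_split Set.univ η 0 t (n2 + n3) fun x r =>
    if x + TA_q r (n2 + n3) = z ∧ P x (x + TA_q r n2) then (1 : ℝ) else 0
  simp only [← TA_q_add] at h1
  rw [h1]
  refine Finset.sum_le_sum fun x hx => ?_
  rw [Finset.mem_Icc] at hx
  have e0 : (((0 : Pt).1 + (t : ℤ), (0 : Pt).2 + x) : Pt) = ((t : ℤ), x) := by
    refine Prod.ext ?_ ?_ <;> simp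
  rw [e0]
  have h2 := TA_split Set.univ η ((t : ℤ), x) n2 n3 fun k r =>
    if x + (k + TA_q r n3) = z ∧ P x (x + k) then (1 : ℝ) else 0
  simp only [← TA_q_add] at h2
  rw [h2]
  have h3 : ∀ k ∈ Finset.Icc (0 : ℤ) n2, (Zr Set.univ η ((t : ℤ), x) n2 k *
      ∑ r ∈ Pool.Agent.W_7d29a1_h47.T n3,
        TA_pw Set.univ η ((t : ℤ) + (n2 : ℤ), x + k) n3 r *
          (if x + (k + TA_q r n3) = z ∧ P x (x + k) then (1 : ℝ) else 0)) =
      if P x (x + k) then Zr Set.univ η ((t : ℤ), x) n2 ((x + k) - x) *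
        Zr Set.univ η (((t + n2 : ℕ) : ℤ), x + k) n3 (z - (x + k)) else 0 := by
    intro k _
    by_cases hP : P x (x + k)
    · rw [if_pos hP, TA_Zr Set.univ η (((t + n2 : ℕ) : ℤ), x + k)]
      rw [show x + k - x = k from by ring]
      congr 1
      refine Finset.sum_congr rfl fun r _ => ?_
      by_cases hr : TA_q r n3 = z - (x + k)
      · rw [if_pos hr, if_pos ⟨by omega, hP⟩, mul_one]
        push_cast
        rfl
      · rw [if_neg hr, if_neg fun h => hr (by omega), mul_zero]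
    · rw [if_neg hP]
      rw [Finset.sum_eq_zero, mul_zero]
      intro r _
      rw [if_neg fun h => hP h.2, mul_zero]
  rw [Finset.sum_congr rfl h3, Finset.mul_sum]
  have h4 : ∀ k ∈ Finset.Icc (0 : ℤ) n2, (Zr Set.univ η 0 t x *
      if P x (x + k) then Zr Set.univ η ((t : ℤ), x) n2 ((x + k) - x) *
        Zr Set.univ η (((t + n2 : ℕ) : ℤ), x + k) n3 (z - (x + k)) else 0) =
      (fun x' : ℤ => if P x x' then Zr Set.univ η 0 t x * Zr Set.univ η ((t : ℤ), x) n2 (x' - x) *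
          Zr Set.univ η (((t + n2 : ℕ) : ℤ), x') n3 (z - x') else 0) (x + k) := by
    intro k _
    by_cases hP : P x (x + k)
    · simp only [if_pos hP]
      ring
    · simp only [if_neg hP]
      ring
  have h5 := Finset.sum_image (s := Finset.Icc (0 : ℤ) n2) (g := fun k : ℤ => x + k)
    (f := fun x' : ℤ => if P x x' then Zr Set.univ η 0 t x * Zr Set.univ η ((t : ℤ), x) n2 (x' - x) *
          Zr Set.univ η (((t + n2 : ℕ) : ℤ), x') n3 (z - x') else 0)
    (fun a _ b _ h => by simpa using h)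
  rw [Finset.sum_congr rfl h4, ← h5]
  refine Finset.sum_le_sum_of_subset_of_nonneg ?_ ?_
  · intro x' hx'
    obtain ⟨k, hk, rfl⟩ := Finset.mem_image.1 hx'
    rw [Finset.mem_Icc] at hk ⊢
    push_cast
    constructor <;> omega
  · intro x' _ _
    split_ifs
    · exact mul_nonneg (mul_nonneg (Zr_nonneg _ _ _ _ _) (Zr_nonneg _ _ _ _ _))
        (Zr_nonneg _ _ _ _ _)
    · exact le_rfl

/-- The path weight of a path whose sites are all in `R`. -/
theorem TA_pw_eq {R : Set Pt} {η : Env} {a : Pt} {n : ℕ} {s : ℕ → Bool}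
    (h : ∀ i < n, (a.1 + ((i : ℤ) + 1), a.2 + TA_q s (i + 1)) ∈ R) :
    TA_pw R η a n s = TA_pw Set.univ η a n s := by
  unfold TA_pw
  refine Finset.prod_congr rfl fun i hi => ?_
  rw [Set.indicator_of_mem (h i (Finset.mem_range.1 hi)), Set.indicator_of_mem (Set.mem_univ _)]


open Classical in
/-- The weight of the paths with a violation. -/
theorem TA_Pb {μ : Measure ℝ} {s : ℝ} {T : ℕ} {z : ℤ} (η : Env) (σ w wm : ℝ) {t t' : ℕ}
    (h1 : t ≤ t') (h2 : t' ≤ T) :
    Real.exp (s * z - T * lam μ s) *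
      (∑ r ∈ Pool.Agent.W_7d29a1_h47.T T, TA_pw Set.univ η 0 T r *
        (if TA_q r T = z ∧ Vb σ w wm t t' (TA_q r t) (TA_q r t') then 1 else 0)) ≤
      Pb μ s η T z σ w wm t t' := by
  obtain ⟨n2, rfl⟩ := Nat.exists_eq_add_of_le h1
  obtain ⟨n3, hn3⟩ := Nat.exists_eq_add_of_le h2
  have hT : T = t + (n2 + n3) := by omega
  have h := TA_two η t n2 n3 z fun x x' => Vb σ w wm t (t + n2) x x'
  rw [← hT] at h
  refine (mul_le_mul_of_nonneg_left h (Real.exp_pos _).le).trans (le_of_eq ?_)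
  unfold Pb
  rw [Finset.mul_sum]
  refine Finset.sum_congr rfl fun x _ => ?_
  rw [Finset.mul_sum]
  refine Finset.sum_congr rfl fun x' _ => ?_
  by_cases hV : Vb σ w wm t (t + n2) x x'
  · rw [if_pos hV, if_pos hV]
    have e1 : t + n2 - t = n2 := by omega
    have e2 : T - (t + n2) = n3 := by omega
    rw [e1, e2]
    unfold W WR
    have e3 : Real.exp (s * z - T * lam μ s) = Real.exp (s * x - t * lam μ s) *
        Real.exp (s * ((x' - x : ℤ) : ℝ) - n2 * lam μ s) *
        Real.exp (s * ((z - x' : ℤ) : ℝ) - n3 * lam μ s) := by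
      rw [← Real.exp_add, ← Real.exp_add, hT]
      congr 1
      push_cast
      ring
    rw [e3]
    ring
  · rw [if_neg hV, if_neg hV, mul_zero]

/-- The dyadic exit for the gates, for one sequence of positions. -/
theorem gates_viol {k : ℕ} {u : ℕ → ℝ} {w e1 : ℝ} {wm : ℕ → ℝ} (hwm : ∀ m, 0 ≤ wm m)
    (hsum : ∑ m ∈ Finset.Icc 1 k, wm m ≤ w - e1) (h0 : u 0 = 0) (h1 : |u (2 ^ k)| ≤ e1) {j : ℕ}
    (hj : j ≤ 2 ^ k) (hex : w < |u j|) :
    ∃ m, 1 ≤ m ∧ m ≤ k ∧ ∃ i < 2 ^ m, wm m - e1 < u (dy (2 ^ k) m (i + 1)) - u (dy (2 ^ k) m i) ∧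
      (|u (dy (2 ^ k) m i)| ≤ w ∨ |u (dy (2 ^ k) m (i + 1))| ≤ w) := by
  have he1 : 0 ≤ e1 := (abs_nonneg _).trans h1
  have hP : (0 : ℝ) < 2 ^ k := by positivity
  have hfr : ∀ i : ℕ, i ≤ 2 ^ k → |(i : ℝ) / 2 ^ k * u (2 ^ k)| ≤ e1 := by
    intro i hi
    rw [abs_mul, abs_of_nonneg (by positivity)]
    have h2 : (i : ℝ) / 2 ^ k ≤ 1 := by
      rw [div_le_one hP]
      exact_mod_cast hi
    calc (i : ℝ) / 2 ^ k * |u (2 ^ k)| ≤ 1 * |u (2 ^ k)| :=
          mul_le_mul_of_nonneg_right h2 (abs_nonneg _)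
      _ ≤ e1 := by rw [one_mul]; exact h1
  obtain ⟨m, hm1, hm2, i, hi, hv1, hv2⟩ := exit (T := 2 ^ k) (M := k) le_rfl
    (y := fun i => u i - (i : ℝ) / 2 ^ k * u (2 ^ k)) (w := wm) (W := w - e1) hwm hsum
    (by simp [h0])
    (by
      push_cast
      rw [div_self hP.ne', one_mul, sub_self])
    (t := j) hj
    (by
      have h3 := hfr j hj
      have h4 := abs_sub_abs_le_abs_sub (u j) ((j : ℝ) / 2 ^ k * u (2 ^ k))
      linarith)
  refine ⟨m, hm1, hm2, i, hi, ?_, ?_⟩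
  · unfold Viol at hv1
    simp only [] at hv1
    have h5 : dy (2 ^ k) m i ≤ dy (2 ^ k) m (i + 1) := dy_mono _ _ (Nat.le_succ i)
    have h6 : dy (2 ^ k) m (i + 1) ≤ 2 ^ k := dy_le _ _ (by omega)
    obtain ⟨d, hd⟩ := Nat.exists_eq_add_of_le h5
    have h7 := hfr d (by omega)
    have h8 := abs_le.1 h7
    rw [hd] at hv1 ⊢
    push_cast at hv1
    have h9 : ((dy (2 ^ k) m i : ℝ) + d) / 2 ^ k * u (2 ^ k) =
        (dy (2 ^ k) m i : ℝ) / 2 ^ k * u (2 ^ k) + (d : ℝ) / 2 ^ k * u (2 ^ k) := by ring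
    rw [h9] at hv1
    linarith [h8.1]
  · rcases hv2 with h | h
    · left
      have h3 := hfr (dy (2 ^ k) m i) (dy_le _ _ hi.le)
      have h4 := abs_sub_abs_le_abs_sub (u (dy (2 ^ k) m i))
        ((dy (2 ^ k) m i : ℝ) / 2 ^ k * u (2 ^ k))
      linarith
    · right
      have h3 := hfr (dy (2 ^ k) m (i + 1)) (dy_le _ _ (by omega))
      have h4 := abs_sub_abs_le_abs_sub (u (dy (2 ^ k) m (i + 1)))
        ((dy (2 ^ k) m (i + 1) : ℝ) / 2 ^ k * u (2 ^ k))
      linarith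

/-- SOFT TUBE, deterministic part. -/
theorem gates_exit {μ : Measure ℝ} {s : ℝ} {p k δ : ℕ} (hδ : δ ≤ 1) {z : ℤ} {σ w e0 : ℝ}
    {wm : ℕ → ℝ} (hwm : ∀ m, 0 ≤ wm m) (hz : |(z : ℝ) - σ * ((2 ^ k * p : ℕ) : ℝ)| ≤ e0)
    (hsum : ∑ m ∈ Finset.Icc 1 k, wm m ≤ w - (e0 + 1)) (η : Env) :
    W μ s η 0 (2 ^ k * p + δ) z ≤ WR μ s (Gates p k σ w) η 0 (2 ^ k * p + δ) z +
      ∑ m ∈ Finset.Icc 1 k, ∑ i ∈ Finset.range (2 ^ m),
        Pb μ s η (2 ^ k * p + δ) z σ w (wm m - (e0 + 1)) (dy (2 ^ k) m i * p)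
          (dy (2 ^ k) m (i + 1) * p) := by
  classical
  obtain ⟨T, hT⟩ : ∃ T, T = 2 ^ k * p + δ := ⟨_, rfl⟩
  rw [← hT]
  -- the weights of the single paths
  have key : ∀ r ∈ Pool.Agent.W_7d29a1_h47.T T,
      (if TA_q r T = z then TA_pw Set.univ η 0 T r else 0) ≤
      (if TA_q r T = z then TA_pw (Gates p k σ w) η 0 T r else 0) +
        ∑ m ∈ Finset.Icc 1 k, ∑ i ∈ Finset.range (2 ^ m), TA_pw Set.univ η 0 T r *
          (if TA_q r T = z ∧ Vb σ w (wm m - (e0 + 1)) (dy (2 ^ k) m i * p) (dy (2 ^ k) m (i + 1) * p)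
            (TA_q r (dy (2 ^ k) m i * p)) (TA_q r (dy (2 ^ k) m (i + 1) * p)) then 1 else 0) := by
    intro r _
    have hnn : ∀ m ∈ Finset.Icc 1 k, 0 ≤ ∑ i ∈ Finset.range (2 ^ m), TA_pw Set.univ η 0 T r *
          (if TA_q r T = z ∧ Vb σ w (wm m - (e0 + 1)) (dy (2 ^ k) m i * p) (dy (2 ^ k) m (i + 1) * p)
            (TA_q r (dy (2 ^ k) m i * p)) (TA_q r (dy (2 ^ k) m (i + 1) * p)) then (1 : ℝ) else 0) := by
      intro m _
      refine Finset.sum_nonneg fun j _ => mul_nonneg (TA_pw_nonneg _ _ _ _ _) ?_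
      split_ifs <;> norm_num
    by_cases hz' : TA_q r T = z
    · rw [if_pos hz', if_pos hz']
      by_cases hin : ∀ i < T, ((0 : Pt).1 + ((i : ℤ) + 1), (0 : Pt).2 + TA_q r (i + 1)) ∈
          Gates p k σ w
      · rw [TA_pw_eq hin]
        linarith [Finset.sum_nonneg hnn]
      · -- the positions at the times of the gates
        have hu1 : |(TA_q r (2 ^ k * p) : ℝ) - σ * ((2 ^ k * p : ℕ) : ℝ)| ≤ e0 + 1 := by
          have h1 : z = TA_q r (2 ^ k * p) + TA_q (Pool.Agent.W_7d29a1_h47.shf (2 ^ k * p) r) δ := by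
            rw [← TA_q_add, ← hT, hz']
          have h2 := TA_q_nonneg (Pool.Agent.W_7d29a1_h47.shf (2 ^ k * p) r) δ
          have h3 := TA_q_le (Pool.Agent.W_7d29a1_h47.shf (2 ^ k * p) r) δ
          have h4 : (0 : ℝ) ≤ (TA_q (Pool.Agent.W_7d29a1_h47.shf (2 ^ k * p) r) δ : ℝ) := by
            exact_mod_cast h2
          have h5 : (TA_q (Pool.Agent.W_7d29a1_h47.shf (2 ^ k * p) r) δ : ℝ) ≤ 1 := by
            have h6 : (TA_q (Pool.Agent.W_7d29a1_h47.shf (2 ^ k * p) r) δ : ℤ) ≤ 1 := by omega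
            exact_mod_cast h6
          have h7 : (TA_q r (2 ^ k * p) : ℝ) =
              z - TA_q (Pool.Agent.W_7d29a1_h47.shf (2 ^ k * p) r) δ := by
            rw [h1]
            push_cast
            ring
          rw [h7]
          have h8 := abs_le.1 hz
          rw [abs_le]
          constructor <;> linarith [h8.1, h8.2]
        have hgate : ∃ j : ℕ, 1 ≤ j ∧ j ≤ 2 ^ k ∧ w < |(TA_q r (j * p) : ℝ) - σ * ((j * p : ℕ) : ℝ)| := by
          push Not at hin
          obtain ⟨i, hi, hi2⟩ := hin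
          unfold Gates at hi2
          simp only [Set.mem_ofPred_eq, not_forall] at hi2
          obtain ⟨j, hj1, hj2, hj3⟩ := hi2
          refine ⟨j, hj1, hj2, ?_⟩
          by_contra hcon
          push Not at hcon
          apply hj3
          constructor
          · intro h4
            simp only [Prod.fst_zero, zero_add] at h4
            have h5 : i + 1 = j * p := by exact_mod_cast h4
            simp only [Prod.snd_zero, zero_add]
            rw [h5]
            exact hcon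
          · intro h4
            simp only [Prod.fst_zero, zero_add] at h4
            have h5 : i + 1 = j * p + 1 := by exact_mod_cast h4
            simp only [Prod.snd_zero, zero_add]
            rw [h5, TA_q_succ]
            have h6 := abs_le.1 hcon
            split_ifs
            · push_cast
              push_cast at h6
              constructor <;> linarith [h6.1, h6.2]
            · push_cast
              push_cast at h6
              constructor <;> linarith [h6.1, h6.2]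
        obtain ⟨j, hj1, hj2, hj3⟩ := hgate
        obtain ⟨m, hm1, hm2, i, hi, hv1, hv2⟩ := gates_viol (k := k)
          (u := fun j => (TA_q r (j * p) : ℝ) - σ * ((j * p : ℕ) : ℝ)) (w := w) (e1 := e0 + 1) hwm hsum
          (by simp [TA_q_zero]) hu1 hj2 hj3
        have hone : TA_pw Set.univ η 0 T r ≤ ∑ m ∈ Finset.Icc 1 k,
            ∑ i ∈ Finset.range (2 ^ m), TA_pw Set.univ η 0 T r *
            (if TA_q r T = z ∧ Vb σ w (wm m - (e0 + 1)) (dy (2 ^ k) m i * p) (dy (2 ^ k) m (i + 1) * p)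
            (TA_q r (dy (2 ^ k) m i * p)) (TA_q r (dy (2 ^ k) m (i + 1) * p)) then (1 : ℝ) else 0) := by
          refine le_trans ?_ (Finset.single_le_sum hnn (Finset.mem_Icc.2 ⟨hm1, hm2⟩))
          refine le_trans ?_ (Finset.single_le_sum (f := fun i => TA_pw Set.univ η 0 T r *
            (if TA_q r T = z ∧ Vb σ w (wm m - (e0 + 1)) (dy (2 ^ k) m i * p) (dy (2 ^ k) m (i + 1) * p)
            (TA_q r (dy (2 ^ k) m i * p)) (TA_q r (dy (2 ^ k) m (i + 1) * p)) then (1 : ℝ) else 0))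
            (fun i _ => ?_) (Finset.mem_range.2 hi))
          · have hV : TA_q r T = z ∧ Vb σ w (wm m - (e0 + 1)) (dy (2 ^ k) m i * p)
                (dy (2 ^ k) m (i + 1) * p) (TA_q r (dy (2 ^ k) m i * p))
                (TA_q r (dy (2 ^ k) m (i + 1) * p)) := ⟨hz', hv1, hv2⟩
            simp only [if_pos hV, mul_one]
            exact le_rfl
          · refine mul_nonneg (TA_pw_nonneg _ _ _ _ _) ?_
            split_ifs <;> norm_num
        linarith [TA_pw_nonneg (Gates p k σ w) η 0 T r]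
    · rw [if_neg hz', if_neg hz']
      linarith [Finset.sum_nonneg hnn]
  have hsum2 := Finset.sum_le_sum key
  rw [Finset.sum_add_distrib, ← TA_Zr, ← TA_Zr, Finset.sum_comm] at hsum2
  have hmul := mul_le_mul_of_nonneg_left hsum2 (Real.exp_pos (s * z - T * lam μ s)).le
  rw [mul_add] at hmul
  refine le_trans (le_of_eq ?_) (hmul.trans (add_le_add (le_of_eq ?_) ?_))
  · rfl
  · rfl
  · rw [Finset.mul_sum]
    refine Finset.sum_le_sum fun m _ => ?_
    rw [Finset.sum_comm, Finset.mul_sum]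
    refine Finset.sum_le_sum fun i hi => ?_
    refine TA_Pb η σ w (wm m - (e0 + 1)) (Nat.mul_le_mul_right p (dy_mono _ m (Nat.le_succ i))) ?_
    rw [hT]
    refine le_trans (Nat.mul_le_mul_right p (dy_le _ m ?_)) (Nat.le_add_right _ _)
    have := Finset.mem_range.1 hi
    omega

/-- A bound for the weight of the paths with a violated increment. -/
theorem Pb_le {μ : Measure ℝ} {s : ℝ} (η : Env) (T : ℕ) (z : ℤ) (σ w wm : ℝ) (t t' : ℕ) {B : ℝ}
    (hB : ∀ x x' : ℤ, Vb σ w wm t t' x x' → W μ s η ((t : ℤ), x) (t' - t) (x' - x) ≤ B) (hB0 : 0 ≤ B) :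
    Pb μ s η T z σ w wm t t' ≤ Real.exp (V μ s η 0 t) * B *
      ∑ x' ∈ Finset.Icc (0 : ℤ) t', W μ s η ((t' : ℤ), x') (T - t') (z - x') := by
  classical
  rw [exp_V]
  unfold Pb WS
  rw [Finset.sum_mul, Finset.sum_mul]
  refine Finset.sum_le_sum fun x _ => ?_
  rw [Finset.mul_sum]
  refine Finset.sum_le_sum fun x' _ => ?_
  split_ifs with h
  · refine mul_le_mul_of_nonneg_right ?_ (W_nonneg _ _ _ _)
    exact mul_le_mul_of_nonneg_left (hB x x' h) (W_nonneg _ _ _ _)
  · exact mul_nonneg (mul_nonneg (W_nonneg _ _ _ _) hB0) (W_nonneg _ _ _ _)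

end

end Pool.Agent.W_7d29a1_g
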