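import Pool.Agent.W_7d29a1_g.ChainS

/-!
MP_7d29a1_pr (G+, track G): the last step of the chain, second version. `g x = log₂ E (2 ^ x)`, `f x = - log₂ v (2 ^ x)`.
At a record `x` of `g x - 3 / 4 x` (no later value is larger) the growth after `x` is at most `3 / 4` per octave; there the cone
closes by a fixed amount in a bounded number of octaves (`hF2`). The records are frequent because `g x ≤ x / 2 + C`.
-/

set_option autoImplicit false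

open Finset Filter

namespace Pool.Agent.W_7d29a1_g

/-- **The last step of the chain**, second version. -/
theorem finish2 {g f : ℕ → ℝ} {Cg C₇ : ℝ} (hCg : 0 ≤ Cg) (hf : Monotone f)
    (hg : ∀ y x, y ≤ x → g y ≤ g x + Cg)
    (h2 : ∀ x : ℕ, g x ≤ (x : ℝ) / 2 + C₇)
    (hF2 : ∃ (L x₁ : ℕ) (δ : ℝ), 0 < δ ∧ ∀ x, x₁ ≤ x →
      (∀ j : ℕ, j ≤ L → g (x + j) ≤ g x + 3 / 4 * j) → f x + δ ≤ f (x + L)) :
    ∃ c C : ℝ, 0 < c ∧ ∀ x : ℕ, c * x - C ≤ f x := by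
  obtain ⟨L, x₁, δ, hδ, hF1⟩ := hF2
  set h : ℕ → ℝ := fun x => g x - 3 / 4 * x with hh
  have hh2 : ∀ x : ℕ, h x ≤ -(x : ℝ) / 4 + C₇ := by
    intro x
    have := h2 x
    simp only [hh]
    linarith
  -- a step from a peak
  have hstep : ∀ x, x₁ ≤ x → (∀ y, x ≤ y → h y ≤ h x) → f x + δ ≤ f (x + L) := by
    intro x hx1 hpk
    refine hF1 x hx1 fun j _ => ?_
    have h5 := hpk (x + j) (by omega)
    simp only [hh] at h5
    push_cast at h5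
    linarith
  -- the sequence of peaks
  obtain ⟨p, hp0, -, hpk⟩ := exists_peak hh2 x₁
  set D : ℝ := Cg + 3 / 4 * L + 1 with hD
  have hD0 : 0 < D := by positivity
  have hseq : ∀ k : ℕ, ∃ x, x₁ ≤ x ∧ (∀ y, x ≤ y → h y ≤ h x) ∧ h p - k * D ≤ h x ∧ f p + k * δ ≤ f x := by
    intro k
    induction k with
    | zero => exact ⟨p, hp0, hpk, by simp, by simp⟩
    | succ k ih =>
      obtain ⟨x, hx1, hx2, hx3, hx4⟩ := ih
      obtain ⟨x', hx', hx'2, hx'3⟩ := exists_peak hh2 (x + L)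
      refine ⟨x', by omega, hx'3, ?_, ?_⟩
      · have h3 := hg x (x + L) (by omega)
        have h4 : h x - (Cg + 3 / 4 * L) ≤ h (x + L) := by
          simp only [hh]
          push_cast
          linarith
        push_cast
        rw [hD]
        rw [hD] at hx3
        linarith
      · have h3 := hstep x hx1 hx2
        have h4 : f (x + L) ≤ f x' := hf hx'
        push_cast
        linarith
  -- the conclusion
  refine ⟨δ / (4 * D), |f p - f 0| + |f 0| + δ * (|C₇ - h p| / D + 2), by positivity, fun x => ?_⟩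
  rcases lt_or_ge ((x : ℝ)) (4 * (C₇ - h p)) with hx | hx
  · -- small `x`
    have h3 : f 0 ≤ f x := hf (Nat.zero_le x)
    have h4 : δ / (4 * D) * x ≤ δ * (|C₇ - h p| / D) := by
      have h5 : (x : ℝ) ≤ 4 * |C₇ - h p| := hx.le.trans (by linarith [le_abs_self (C₇ - h p)])
      calc δ / (4 * D) * x ≤ δ / (4 * D) * (4 * |C₇ - h p|) := by gcongr
        _ = δ * (|C₇ - h p| / D) := by field_simp
    have h6 := neg_abs_le (f 0)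
    have h7 := abs_nonneg (f p - f 0)
    nlinarith
  · -- number of steps
    set r : ℝ := (x / 4 - (C₇ - h p)) / D with hr
    have hr0 : 0 ≤ r := div_nonneg (by linarith) hD0.le
    obtain ⟨x', hx'1, hx'2, hx'3, hx'4⟩ := hseq ⌊r⌋₊
    have h3 : (⌊r⌋₊ : ℝ) ≤ r := Nat.floor_le hr0
    have h4 : r < ⌊r⌋₊ + 1 := Nat.lt_floor_add_one r
    have h5 := hh2 x'
    have h6 : (x' : ℝ) ≤ x := by
      have h7 : (⌊r⌋₊ : ℝ) * D ≤ x / 4 - (C₇ - h p) := by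
        calc (⌊r⌋₊ : ℝ) * D ≤ r * D := by gcongr
          _ = x / 4 - (C₇ - h p) := by rw [hr]; field_simp
      linarith
    have h7 : f x' ≤ f x := hf (by exact_mod_cast h6)
    have h8 : δ / (4 * D) * x = δ * r + δ * ((C₇ - h p) / D) := by
      rw [hr]
      field_simp
      ring
    have h9 : δ * ((C₇ - h p) / D) ≤ δ * (|C₇ - h p| / D) := by
      have := le_abs_self (C₇ - h p)
      gcongr
    have h10 : δ * r ≤ δ * (⌊r⌋₊ + 1) := by nlinarith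
    have h11 := neg_abs_le (f 0)
    have h12 := neg_abs_le (f p - f 0)
    nlinarith

/-- From bounded levels to the closing of the cone, second version. Everything which is known at this point may be used in `hF2`. -/
theorem closeS2 {g f : ℕ → ℝ} {S : ℕ → ℝ → Prop} {Cg : ℝ} (hmono : ∀ x α β, α ≤ β → S x α → S x β) (hf : Monotone f)
    (hg : ∀ y x, y ≤ x → g y ≤ g x + Cg)
    (hbd : ∃ (β : ℝ) (x₁ : ℕ), ∀ x, x₁ ≤ x → S x β)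
    (hG : ∀ a₁ : ℝ, ∃ T x₀ : ℕ, ∀ x, x₀ ≤ x → S x a₁ → g x + 1 ≤ g (x + T))
    (hV : ∀ a₁ : ℝ, ∃ C : ℝ, ∀ x : ℕ, S x a₁ → g x ≤ x / 2 + C)
    (hF2 : ∀ (T x₀ : ℕ) (b : ℝ), (∀ y, x₀ ≤ y → g y + 1 ≤ g (y + T)) → (∀ y, x₀ ≤ y → S y b) →
      (∀ y : ℕ, g y ≤ (y : ℝ) / 2 + b) → ∃ (L x₁ : ℕ) (δ : ℝ), 0 < δ ∧ ∀ x, x₁ ≤ x →
        (∀ j : ℕ, j ≤ L → g (x + j) ≤ g x + 3 / 4 * j) → f x + δ ≤ f (x + L)) :
    ∃ c C : ℝ, 0 < c ∧ ∀ x : ℕ, c * x - C ≤ f x := by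
  obtain ⟨β, x₀, hbd⟩ := hbd
  obtain ⟨T, x₁, hT⟩ := hG β
  obtain ⟨CV, hV⟩ := hV β
  have hCg : 0 ≤ Cg := by linarith [hg 0 0 le_rfl]
  set b : ℝ := max β (((max x₀ x₁ : ℕ) : ℝ) / 2 + |CV| + Cg) with hb
  have hb2 : ((max x₀ x₁ : ℕ) : ℝ) / 2 + |CV| + Cg ≤ b := le_max_right _ _
  have h2 : ∀ x : ℕ, g x ≤ (x : ℝ) / 2 + b := by
    intro x
    have habs := le_abs_self CV
    rcases le_total x₀ x with h | h
    · have h1 := hV x (hbd x h)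
      have h2 : (0 : ℝ) ≤ ((max x₀ x₁ : ℕ) : ℝ) / 2 := by positivity
      linarith
    · have h1 := hV (max x₀ x₁) (hbd _ (le_max_left x₀ x₁))
      have h2 := hg x (max x₀ x₁) (h.trans (le_max_left x₀ x₁))
      have h3 : (0 : ℝ) ≤ (x : ℝ) / 2 := by positivity
      linarith
  refine finish2 hCg hf hg h2 (hF2 T (max x₀ x₁) b (fun y hy => ?_) (fun y hy => ?_) h2)
  · exact hT y ((le_max_right x₀ x₁).trans hy) (hbd y ((le_max_left x₀ x₁).trans hy))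
  · exact hmono _ _ _ (le_max_left _ _) (hbd y ((le_max_left x₀ x₁).trans hy))

/-- **The chain**, without errors, second version. -/
theorem chainS2 {g f : ℕ → ℝ} {S : ℕ → ℝ → Prop} {α₀ C₀ D Cg : ℝ}
    (hmono : ∀ x α β, α ≤ β → S x α → S x β)
    (hg : ∀ y x, y ≤ x → g y ≤ g x + Cg) (hg1 : ∀ x, g (x + 1) ≤ g x + D) (hf : Monotone f)
    (hf2 : Tendsto f atTop atTop)
    (hS : ∃ (P : ℕ → Prop) (α C : ℝ) (k x₀ : ℕ),
      (∀ y x, x₀ ≤ y → y ≤ x → (∀ z, y ≤ z → z < x → P z) → g x - g y ≤ (f x - f y) / 4 + C) ∧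
      ∀ x, x₀ ≤ x → ¬ P x → ∃ y, x ≤ y + k ∧ y ≤ x + k ∧ S y α)
    (hB0 : ∀ x, S x (max (g x - f x / 2 + C₀) α₀))
    (hB : ∀ a₁ : ℝ, ∃ C : ℝ, ∀ T : ℕ, ∃ y₀ : ℕ, ∀ y x, y₀ ≤ y → y ≤ x → x ≤ y + T → S y a₁ →
      S x (max (g x - g y - (f x - f y) / 2 + C) α₀))
    (hG : ∀ a₁ : ℝ, ∃ T x₀ : ℕ, ∀ x, x₀ ≤ x → S x a₁ → g x + 1 ≤ g (x + T))
    (hV : ∀ a₁ : ℝ, ∃ C : ℝ, ∀ x : ℕ, S x a₁ → g x ≤ x / 2 + C)
    (hF2 : ∀ (T x₀ : ℕ) (b : ℝ), (∀ y, x₀ ≤ y → g y + 1 ≤ g (y + T)) → (∀ y, x₀ ≤ y → S y b) →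
      (∀ y : ℕ, g y ≤ (y : ℝ) / 2 + b) → ∃ (L x₁ : ℕ) (δ : ℝ), 0 < δ ∧ ∀ x, x₁ ≤ x →
        (∀ j : ℕ, j ≤ L → g (x + j) ≤ g x + 3 / 4 * j) → f x + δ ≤ f (x + L)) :
    ∃ c C : ℝ, 0 < c ∧ ∀ x : ℕ, c * x - C ≤ f x := by
  obtain ⟨P, α, C, k, x₀, hslow, hres⟩ := hS
  have hoften := often_tendsto hmono hf2 hslow hres hB0
  have hbd := boundedS (err := fun _ => 0) (C' := C) (Cf := 0) hmono hg hg1 (fun y x h => by linarith [hf h])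
    (fun _ => le_rfl) (fun _ => ⟨0, fun _ _ _ _ _ _ => by simp⟩)
    (fun y x h1 h2 h3 => by
      have := hslow y x h1 h2 h3
      simp only [sum_const_zero, add_zero, mul_one]
      exact this) hres hoften hB hG
  exact closeS2 hmono hf hg hbd hG hV hF2

/-- **The chain**, with errors of the size of a constant cost in every octave, second version. -/
theorem chainS2_err {g f : ℕ → ℝ} {S : ℕ → ℝ → Prop} {α₀ C₀ D Cg : ℝ}
    (hmono : ∀ x α β, α ≤ β → S x α → S x β)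
    (hg : ∀ y x, y ≤ x → g y ≤ g x + Cg) (hg1 : ∀ x, g (x + 1) ≤ g x + D) (hf : Monotone f)
    (hE : ∀ K : ℝ, ∃ x₀ : ℕ, ∀ x, x₀ ≤ x → K * x ≤ (2 : ℝ) ^ g x)
    (hS : ∃ (P : ℕ → Prop) (α C : ℝ) (k x₀ : ℕ),
      (∀ y x, x₀ ≤ y → y ≤ x → (∀ z, y ≤ z → z < x → P z) →
        g x - g y ≤ (f x - f y) / 4 + C * (1 + ∑ z ∈ Ico y x, (2 : ℝ) ^ (-g z))) ∧
      ∀ x, x₀ ≤ x → ¬ P x → ∃ y, x ≤ y + k ∧ y ≤ x + k ∧ S y α)
    (hB0 : ∀ x, S x (max (g x - f x / 2 + C₀) α₀))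
    (hB : ∀ a₁ : ℝ, ∃ C : ℝ, ∀ T : ℕ, ∃ y₀ : ℕ, ∀ y x, y₀ ≤ y → y ≤ x → x ≤ y + T → S y a₁ →
      S x (max (g x - g y - (f x - f y) / 2 + C) α₀))
    (hG : ∀ a₁ : ℝ, ∃ T x₀ : ℕ, ∀ x, x₀ ≤ x → S x a₁ → g x + 1 ≤ g (x + T))
    (hV : ∀ a₁ : ℝ, ∃ C : ℝ, ∀ x : ℕ, S x a₁ → g x ≤ x / 2 + C)
    (hF2 : ∀ (T x₀ : ℕ) (b : ℝ), (∀ y, x₀ ≤ y → g y + 1 ≤ g (y + T)) → (∀ y, x₀ ≤ y → S y b) →
      (∀ y : ℕ, g y ≤ (y : ℝ) / 2 + b) → ∃ (L x₁ : ℕ) (δ : ℝ), 0 < δ ∧ ∀ x, x₁ ≤ x →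
        (∀ j : ℕ, j ≤ L → g (x + j) ≤ g x + 3 / 4 * j) → f x + δ ≤ f (x + L)) :
    ∃ c C : ℝ, 0 < c ∧ ∀ x : ℕ, c * x - C ≤ f x := by
  obtain ⟨P, α, C, k, x₀, hslow, hres⟩ := hS
  have hoften := often_log hmono hE hslow hres hB0
  have hbd := boundedS (err := fun z => (2 : ℝ) ^ (-g z)) (C' := C) (Cf := 0) hmono hg hg1
    (fun y x h => by linarith [hf h]) (fun z => by positivity) (err_window hE) hslow hres hoften hB hG
  exact closeS2 hmono hf hg hbd hG hV hF2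

end Pool.Agent.W_7d29a1_g
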