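import Pool.Agent.W_7d29a1_F.CoreD
import Pool.Agent.W_7d29a1_F.CoreB1

/-!
Track G: reversed lucks. The weight `∑ b, W (b, Z)` of the paths from level `t` to the point `Z` is the luck of the
reversed environment, up to the factor of the site `Z`.
-/

namespace Pool.Agent.W_7d29a1_g

open MeasureTheory ProbabilityTheory Filter Topology
open Pool.Agent.W_7d29a1_F

noncomputable section

variable {μ : Measure ℝ} {s : ℝ}

/-- The reversed environment seen from `Z`. -/
def rv (Z : Pt) (η : Env) : Env := fun p => η (Z - p)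

theorem TR_zero (R : Set Pt) (η : Env) (a : Pt) (y : ℤ) : Zr R η a 0 y = if y = 0 then 1 else 0 := rfl

theorem TR_succ (R : Set Pt) (η : Env) (a : Pt) (n : ℕ) (y : ℤ) :
    Zr R η a (n + 1) y = R.indicator (fun p => Real.exp (η p)) (a.1 + (n + 1), a.2 + y) *
      (Zr R η a n y + Zr R η a n (y - 1)) := rfl

theorem TR_succ_univ (η : Env) (a : Pt) (n : ℕ) (y : ℤ) :
    Zr Set.univ η a (n + 1) y = Real.exp (η (a.1 + (n + 1), a.2 + y)) *
      (Zr Set.univ η a n y + Zr Set.univ η a n (y - 1)) := by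
  rw [TR_succ, Set.indicator_of_mem (Set.mem_univ _)]

theorem TR_one (η : Env) (a : Pt) (k : ℤ) :
    Zr Set.univ η a 1 k = if k = 0 ∨ k = 1 then Real.exp (η (a.1 + 1, a.2 + k)) else 0 := by
  have h := TR_succ_univ η a 0 k
  rw [zero_add] at h
  rw [h, TR_zero, TR_zero]
  push_cast
  by_cases h0 : k = 0
  · subst h0
    norm_num
  · by_cases h1 : k = 1
    · subst h1
      norm_num
    · rw [if_neg h0, if_neg (by omega), if_neg (by omega)]
      ring

/-- The first step. -/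
theorem TR_first (η : Env) (b : Pt) (n : ℕ) (y : ℤ) :
    Zr Set.univ η b (n + 1) y =
      Real.exp (η (b.1 + 1, b.2)) * Zr Set.univ η (b.1 + 1, b.2) n y +
      Real.exp (η (b.1 + 1, b.2 + 1)) * Zr Set.univ η (b.1 + 1, b.2 + 1) n (y - 1) := by
  have h := Zr_add Set.univ η b 1 n y
  rw [add_comm 1 n] at h
  rw [h]
  have e : Finset.Icc (0 : ℤ) ((1 : ℕ) : ℤ) = {0, 1} := by decide
  rw [e, Finset.sum_pair (by norm_num), TR_one, TR_one]
  simp

/-- Time reversal. -/
theorem Zr_rev (η : Env) (Z : Pt) (n : ℕ) (y : ℤ) :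
    Real.exp (η (Z.1 - n, Z.2 - y)) * Zr Set.univ η (Z.1 - n, Z.2 - y) n y =
      Real.exp (η Z) * Zr Set.univ (rv Z η) 0 n y := by
  induction n generalizing y with
  | zero =>
    rw [TR_zero, TR_zero]
    by_cases hy : y = 0
    · subst hy
      simp
    · rw [if_neg hy]
      simp
  | succ n ih =>
    rw [TR_first, TR_succ_univ]
    have h1 := ih y
    have h2 := ih (y - 1)
    have e1 : ((Z.1 - ((n + 1 : ℕ) : ℤ), Z.2 - y) : Pt).1 + 1 = Z.1 - n := by
      simp only
      push_cast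
      ring
    have e2 : ((Z.1 - ((n + 1 : ℕ) : ℤ), Z.2 - y) : Pt).2 + 1 = Z.2 - (y - 1) := by
      simp only
      ring
    rw [e1, e2]
    have e3 : rv Z η ((0 : Pt).1 + ((n : ℤ) + 1), (0 : Pt).2 + y) = η (Z.1 - ((n + 1 : ℕ) : ℤ), Z.2 - y) := by
      unfold rv
      congr 1
      refine Prod.ext ?_ ?_
      · simp
      · simp
    rw [e3]
    simp only
    rw [h1, h2]
    ring

/-- The weight of the paths from the level `T - n` to `Z`. -/
theorem rev_sum (η : Env) (Z : Pt) (n : ℕ) (S : Finset ℤ) :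
    ∑ y ∈ S, W μ s η (Z.1 - ((n + 1 : ℕ) : ℤ), Z.2 - y) (n + 1) y ≤
      Real.exp (η Z) * (Real.exp (-lam μ s) + Real.exp (s - lam μ s)) *
        Real.exp (V μ s (rv Z η) 0 n) := by
  have h1 : ∀ y : ℤ, W μ s η (Z.1 - ((n + 1 : ℕ) : ℤ), Z.2 - y) (n + 1) y =
      Real.exp (η Z) * (Real.exp (-lam μ s) * W μ s (rv Z η) 0 n y +
        Real.exp (s - lam μ s) * W μ s (rv Z η) 0 n (y - 1)) := by
    intro y
    have h2 := Zr_rev η Z (n + 1) y
    rw [TR_succ_univ (rv Z η) 0 n y] at h2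
    have e3 : rv Z η ((0 : Pt).1 + ((n : ℤ) + 1), (0 : Pt).2 + y) = η (Z.1 - ((n + 1 : ℕ) : ℤ), Z.2 - y) := by
      unfold rv
      congr 1
      refine Prod.ext ?_ ?_
      · simp
      · simp
    rw [e3] at h2
    have h3 : Zr Set.univ η (Z.1 - ((n + 1 : ℕ) : ℤ), Z.2 - y) (n + 1) y =
        Real.exp (η Z) * (Zr Set.univ (rv Z η) 0 n y + Zr Set.univ (rv Z η) 0 n (y - 1)) := by
      have h4 : (0 : ℝ) < Real.exp (η (Z.1 - ((n + 1 : ℕ) : ℤ), Z.2 - y)) := Real.exp_pos _
      apply mul_left_cancel₀ h4.ne'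
      rw [h2]
      ring
    unfold W WR
    rw [h3]
    have e4 : Real.exp (s * (y : ℝ) - ((n + 1 : ℕ) : ℝ) * lam μ s) =
        Real.exp (-lam μ s) * Real.exp (s * (y : ℝ) - (n : ℝ) * lam μ s) := by
      rw [← Real.exp_add]
      congr 1
      push_cast
      ring
    have e5 : Real.exp (s - lam μ s) * Real.exp (s * ((y - 1 : ℤ) : ℝ) - (n : ℝ) * lam μ s) =
        Real.exp (-lam μ s) * Real.exp (s * (y : ℝ) - (n : ℝ) * lam μ s) := by
      rw [← Real.exp_add, ← Real.exp_add]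
      congr 1
      push_cast
      ring
    rw [e4, ← mul_assoc (Real.exp (s - lam μ s)), e5]
    ring
  rw [Finset.sum_congr rfl fun y _ => h1 y, ← Finset.mul_sum, Finset.sum_add_distrib, ← Finset.mul_sum,
    ← Finset.mul_sum, mul_assoc]
  refine mul_le_mul_of_nonneg_left ?_ (Real.exp_pos _).le
  have h5 : ∑ y ∈ S, W μ s (rv Z η) 0 n y ≤ Real.exp (V μ s (rv Z η) 0 n) := WS_le_exp_V _ _ _ _
  have h6 : ∑ y ∈ S, W μ s (rv Z η) 0 n (y - 1) ≤ Real.exp (V μ s (rv Z η) 0 n) := by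
    have h7 := WS_le_exp_V (μ := μ) (s := s) (rv Z η) 0 n (S.image fun y => y - 1)
    unfold WS at h7
    rw [Finset.sum_image (fun a _ b _ h => by simpa using h)] at h7
    exact h7
  rw [add_mul]
  exact add_le_add (mul_le_mul_of_nonneg_left h5 (Real.exp_pos _).le)
    (mul_le_mul_of_nonneg_left h6 (Real.exp_pos _).le)

/-- The weight of the paths from level `t` to the point `(T, z)`. -/
def Rv (μ : Measure ℝ) (s : ℝ) (η : Env) (T : ℕ) (z : ℤ) (t : ℕ) : ℝ :=
  ∑ x ∈ Finset.Icc (0 : ℤ) t, W μ s η ((t : ℤ), x) (T - t) (z - x)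

theorem Rv_nonneg (η : Env) (T : ℕ) (z : ℤ) (t : ℕ) : 0 ≤ Rv μ s η T z t :=
  Finset.sum_nonneg fun _ _ => W_nonneg _ _ _ _

theorem Rv_top (η : Env) (T : ℕ) (z : ℤ) : Rv μ s η T z T ≤ 1 := by
  unfold Rv
  have h : ∀ x ∈ Finset.Icc (0 : ℤ) T, W μ s η ((T : ℤ), x) (T - T) (z - x) = if z = x then 1 else 0 := by
    intro x _
    rw [Nat.sub_self]
    unfold W WR
    rw [TR_zero]
    by_cases h : z = x
    · rw [if_pos h, if_pos (by omega), h]
      simp
    · rw [if_neg h, if_neg (by omega), mul_zero]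
  rw [Finset.sum_congr rfl h, Finset.sum_ite_eq]
  split_ifs <;> norm_num

theorem Rv_le (η : Env) {T : ℕ} (z : ℤ) {t : ℕ} (ht : t < T) :
    Rv μ s η T z t ≤ Real.exp (η ((T : ℤ), z)) * (Real.exp (-lam μ s) + Real.exp (s - lam μ s)) *
        Real.exp (V μ s (rv ((T : ℤ), z) η) 0 (T - t - 1)) := by
  obtain ⟨n, rfl⟩ : ∃ n, T = t + (n + 1) := ⟨T - t - 1, by omega⟩
  have h := rev_sum (μ := μ) (s := s) η (((t + (n + 1) : ℕ) : ℤ), z) n
    ((Finset.Icc (0 : ℤ) t).image fun x => z - x)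
  rw [Finset.sum_image (fun a _ b _ h => by simpa using h)] at h
  have e1 : t + (n + 1) - t - 1 = n := by omega
  rw [e1]
  refine le_trans (le_of_eq ?_) h
  unfold Rv
  refine Finset.sum_congr rfl fun x _ => ?_
  have e2 : t + (n + 1) - t = n + 1 := by omega
  rw [e2]
  have e3 : (((((t + (n + 1) : ℕ) : ℤ), z) : Pt).1 - ((n + 1 : ℕ) : ℤ),
      ((((t + (n + 1) : ℕ) : ℤ), z) : Pt).2 - (z - x)) = (((t : ℤ), x) : Pt) := by
    refine Prod.ext ?_ ?_
    · simp only
      push_cast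
      ring
    · simp
  rw [e3]

/-- The reversed lucks are as rare as the lucks. -/
theorem Rv_rare [IsProbabilityMeasure μ] {T : ℕ} {z : ℤ} {Λ : ℝ} (hΛ : 0 ≤ Λ) :
    (law μ).real {η | ∃ t ≤ T, Real.exp Λ < Rv μ s η T z t} ≤
      (law μ).real {η | ∃ t ≤ T, Λ / 2 < V μ s η 0 t} +
      (law μ).real {η | Λ / 2 < η 0 + Real.log (Real.exp (-lam μ s) + Real.exp (s - lam μ s))} := by
  set c : ℝ := Real.exp (-lam μ s) + Real.exp (s - lam μ s) with hc
  have hc0 : 0 < c := by positivity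
  set Z : Pt := ((T : ℤ), z) with hZ
  have hsub : {η : Env | ∃ t ≤ T, Real.exp Λ < Rv μ s η T z t} ⊆
      (rv Z) ⁻¹' ({η | ∃ t ≤ T, Λ / 2 < V μ s η 0 t} ∪ {η | Λ / 2 < η 0 + Real.log c}) := by
    rintro η ⟨t, ht, h⟩
    rcases Nat.lt_or_ge t T with h1 | h1
    · have h2 := Rv_le (μ := μ) (s := s) η z h1
      rw [← hc, ← hZ] at h2
      by_contra hcon
      simp only [Set.mem_preimage, Set.mem_union, Set.mem_ofPred_eq, not_or, not_exists, not_and, not_lt] at hcon
      obtain ⟨h3, h4⟩ := hcon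
      have h5 := h3 (T - t - 1) (by omega)
      have h6 : rv Z η 0 = η Z := by
        unfold rv
        rw [sub_zero]
      rw [h6] at h4
      have h7 : Real.exp (η Z) * c * Real.exp (V μ s (rv Z η) 0 (T - t - 1)) ≤ Real.exp Λ := by
        have h8 : Real.exp (η Z) * c = Real.exp (η Z + Real.log c) := by
          rw [Real.exp_add, Real.exp_log hc0]
        rw [h8, ← Real.exp_add]
        exact Real.exp_le_exp.2 (by linarith)
      linarith
    · have h2 : t = T := by omega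
      subst h2
      have h3 := Rv_top (μ := μ) (s := s) η t z
      have h4 : (1 : ℝ) ≤ Real.exp Λ := Real.one_le_exp hΛ
      linarith
  have hmp : MeasurePreserving (rv Z) (law μ) (law μ) := mp_neg (μ := μ) Z
  have hmeas : MeasurableSet ({η : Env | ∃ t ≤ T, Λ / 2 < V μ s η 0 t} ∪ {η | Λ / 2 < η 0 + Real.log c}) := by
    refine MeasurableSet.union ?_ ?_
    · have e : {η : Env | ∃ t ≤ T, Λ / 2 < V μ s η 0 t} =
          ⋃ t ∈ Finset.range (T + 1), {η : Env | Λ / 2 < V μ s η 0 t} := by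
        ext η
        simp only [Set.mem_ofPred_eq, Set.mem_iUnion, Finset.mem_range]
        constructor
        · rintro ⟨t, h1, h2⟩
          exact ⟨t, by omega, h2⟩
        · rintro ⟨t, h1, h2⟩
          exact ⟨t, by omega, h2⟩
      rw [e]
      exact Finset.measurableSet_biUnion _ fun t _ => measurableSet_lt measurable_const (Sub_V 0 t).1
    · exact measurableSet_lt measurable_const ((measurable_pi_apply 0).add_const _)
  refine (measureReal_mono hsub (measure_ne_top _ _)).trans ?_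
  rw [Measure.real, hmp.measure_preimage hmeas.nullMeasurableSet]
  exact measureReal_union_le _ _

end

end Pool.Agent.W_7d29a1_g
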