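import Pool.Agent.W_7d29a1_g.CrossMean
import Pool.Agent.W_7d29a1_F.CoreD5
import Pool.Agent.W_7d29a1_F.Bridge2

/-!
Track G: the record form of the crossing inequality at tilt `0`. `e0 n` is the mean cost of the
displacement `(n, n / 2)` (direction `0` of the symmetric walk), `Em n` its maximum over the times `≤ n`.
A polymer which stays in a tube of slope `v > 1 / 2` and of width `w ≤ (v - 1 / 2) ρ / 4` for the time
`T ≈ K ρ` costs at least `K (Em (2 ρ) - Em ρ) + Em (2 ρ)` in the mean.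
-/

namespace Pool.Agent.W_7d29a1_g

open MeasureTheory ProbabilityTheory Filter Topology
open Pool.Agent.W_7d29a1_F

variable {μ : Measure ℝ}

/-- The mean cost of the displacement `(n, n / 2)` at tilt `0`. -/
noncomputable def e0 (μ : Measure ℝ) (n : ℕ) : ℝ := e μ 0 n ((n / 2 : ℕ) : ℤ)

/-- The largest cost `e0 m`, `m ≤ n`. -/
noncomputable def Em (μ : Measure ℝ) (n : ℕ) : ℝ :=
  (Finset.range (n + 1)).sup' ⟨0, by simp⟩ (e0 μ)

theorem e0_le_Em {m n : ℕ} (h : m ≤ n) : e0 μ m ≤ Em μ n :=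
  Finset.le_sup' (e0 μ) (Finset.mem_range.2 (by omega))

theorem exists_Em (n : ℕ) : ∃ m ≤ n, Em μ n = e0 μ m := by
  obtain ⟨m, hm, h⟩ := Finset.exists_mem_eq_sup' (s := Finset.range (n + 1)) ⟨0, by simp⟩ (e0 μ)
  exact ⟨m, by have := Finset.mem_range.1 hm; omega, h⟩

theorem Em_mono : Monotone (Em μ) := by
  intro a b hab
  obtain ⟨m, hm, h⟩ := exists_Em (μ := μ) a
  rw [h]
  exact e0_le_Em (hm.trans hab)

theorem e_mirror0 [IsProbabilityMeasure μ] (n : ℕ) (y : ℤ) : e μ 0 n (n - y) = e μ 0 n y := by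
  have h := e_mirror (μ := μ) (s := 0) (by rw [neg_zero, sub_zero]) n y
  rw [neg_zero] at h
  exact h

/-- The middle displacement is the cheapest one. -/
theorem e0_le [IsProbabilityMeasure μ] (hμ : Pool.Agent.W_7d29a1_h47.EM μ) {n : ℕ} {y : ℤ}
    (h0 : 0 ≤ y) (h1 : y ≤ n) : e0 μ n ≤ e μ 0 n y := by
  unfold e0
  have hm := e_mirror0 (μ := μ) n y
  rcases le_total y ((n / 2 : ℕ) : ℤ) with h | h
  · have h2 := e_le_max (μ := μ) (s := 0) (n := n) (y1 := y) (y := ((n / 2 : ℕ) : ℤ))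
      (y2 := n - y) hμ h0 h (by omega) (by omega)
    rw [hm, max_self] at h2
    exact h2
  · by_cases h3 : (n : ℤ) - y ≤ ((n / 2 : ℕ) : ℤ)
    · have h2 := e_le_max (μ := μ) (s := 0) (n := n) (y1 := n - y) (y := ((n / 2 : ℕ) : ℤ))
        (y2 := y) hμ (by omega) h3 h h1
      rw [hm, max_self] at h2
      exact h2
    · have h4 : y = ((n / 2 : ℕ) : ℤ) := by omega
      rw [h4]

theorem e0_nonneg [IsProbabilityMeasure μ] (hμ : Pool.Agent.W_7d29a1_h47.EM μ) (n : ℕ) :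
    0 ≤ e0 μ n :=
  e_nonneg hμ 0 (by positivity) (by omega)

theorem Em_nonneg [IsProbabilityMeasure μ] (hμ : Pool.Agent.W_7d29a1_h47.EM μ) (n : ℕ) :
    0 ≤ Em μ n :=
  (e0_nonneg hμ 0).trans (e0_le_Em (Nat.zero_le n))

/-- The crossing inequality with pieces of duration `m` and references of duration `m / 2`. -/
theorem cross_rec [IsProbabilityMeasure μ] (hμ : Pool.Agent.W_7d29a1_h47.EM μ) (R : Set Pt) (a : Pt)
    (ha : a ∈ R) (K m : ℕ) (z : ℤ) (hpath : HasPath R a (K * (m - m / 2) + m) z) (xs : ℕ → ℤ)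
    (hx : ∀ k ≤ K, ∀ q : ℤ, ((a.1 + k * (m - m / 2 : ℕ), q) : Pt) ∈ R → q ≤ xs k)
    (hy : ∀ k ≤ K, ∀ q : ℤ, ((a.1 + (k * (m - m / 2 : ℕ) + (m / 2 : ℕ)), q) : Pt) ∈ R →
      xs k + (m / 2 / 2 : ℕ) ≤ q) :
    (K + 1) * e0 μ m ≤ eR μ 0 R a (K * (m - m / 2) + m) z + K * e0 μ (m / 2) := by
  obtain ⟨n, hn⟩ : ∃ n : ℕ, n = m / 2 := ⟨_, rfl⟩
  obtain ⟨σ, hσ⟩ : ∃ σ : ℕ, σ = m - m / 2 := ⟨_, rfl⟩
  rw [← hσ] at hx
  rw [← hσ, ← hn] at hy
  rw [← hσ] at hpath ⊢
  rw [← hn]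
  have hmn : σ + n = m := by omega
  have hns : n ≤ σ := by omega
  have hr : ((n / 2 : ℕ) : ℤ) ≤ n := by omega
  have hdis : ∀ k ≤ K, 0 ≤ (xs k + (n / 2 : ℕ)) - xs k ∧ (xs k + (n / 2 : ℕ)) - xs k ≤ n := by
    intro k _
    constructor <;> omega
  have hT : K * σ + n ≤ K * σ + m := by omega
  have hcs := cross_cost (μ := μ) (s := 0) R a (K * σ + m) z K σ n xs
    (fun k => xs k + (n / 2 : ℕ)) 0 ha hpath hns hT hx hy hdis
  have hcm := cross_mean (s := 0) R a (K * σ + m) z K σ n xs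
    (fun k => xs k + (n / 2 : ℕ)) hμ ha hpath hns hT hx hy hdis
  obtain ⟨hA, hM, hB, -⟩ := hcs
  rw [hmn] at hcm hM
  rw [Nat.add_sub_cancel_left] at hcm hB
  have hA' := e0_le hμ hA.1 hA.2
  have hB' := e0_le hμ hB.1 hB.2
  have hM' : (K : ℝ) * e0 μ m ≤
      ∑ k ∈ Finset.range K, e μ 0 m ((xs (k + 1) + ((n / 2 : ℕ) : ℤ)) - xs k) := by
    have h2 : ∑ k ∈ Finset.range K, e0 μ m ≤
        ∑ k ∈ Finset.range K, e μ 0 m ((xs (k + 1) + ((n / 2 : ℕ) : ℤ)) - xs k) :=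
      Finset.sum_le_sum fun k hk => e0_le hμ (hM k (Finset.mem_range.1 hk)).1
        (hM k (Finset.mem_range.1 hk)).2
    rw [Finset.sum_const, Finset.card_range, nsmul_eq_mul] at h2
    exact h2
  have hR : ∑ k ∈ Finset.range (K + 1), e μ 0 n ((xs k + ((n / 2 : ℕ) : ℤ)) - xs k) =
      (K + 1) * e0 μ n := by
    have h2 : ∀ k ∈ Finset.range (K + 1), e μ 0 n ((xs k + ((n / 2 : ℕ) : ℤ)) - xs k) = e0 μ n := by
      intro k _
      rw [add_sub_cancel_left]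
      rfl
    rw [Finset.sum_congr rfl h2, Finset.sum_const, Finset.card_range, nsmul_eq_mul]
    push_cast
    ring
  rw [hR] at hcm
  linarith

/-- The tube of half width `w` around the line of slope `v` through `a`. -/
def Tube (a : Pt) (v w : ℝ) : Set Pt :=
  {p | |((p.2 - a.2 : ℤ) : ℝ) - v * ((p.1 - a.1 : ℤ) : ℝ)| ≤ w}

theorem mem_Tube_self (a : Pt) (v : ℝ) {w : ℝ} (hw : 0 ≤ w) : a ∈ Tube a v w := by
  unfold Tube
  simp [hw]

/-- A tube contains a path to every end point in the tube of half width `w - 1`. -/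
theorem hasPath_Tube (a : Pt) (v w : ℝ) {T : ℕ} {z : ℤ} (h0 : 0 ≤ z) (h1 : z ≤ T)
    (hz : |(z : ℝ) - v * T| + 1 ≤ w) : HasPath (Tube a v w) a T z := by
  rcases Nat.eq_zero_or_pos T with hT | hT
  · subst hT
    have hz0 : z = 0 := by
      simp only [Nat.cast_zero] at h1
      omega
    exact ⟨fun _ => 0, rfl, hz0.symm, fun k hk => absurd hk (Nat.not_lt_zero k),
      fun k hk hk' => absurd hk (by omega)⟩
  · have hT' : (0 : ℤ) < T := by exact_mod_cast hT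
    refine ⟨fun k => (k : ℤ) * z / T, by simp, ?_, ?_, ?_⟩
    · exact Int.mul_ediv_cancel_left z hT'.ne'
    · intro k _
      have e1 : ((k + 1 : ℕ) : ℤ) * z = k * z + z := by push_cast; ring
      simp only
      rw [e1]
      have l1 : (k : ℤ) * z / T ≤ (k * z + z) / T := Int.ediv_le_ediv hT' (by omega)
      have l2 : ((k : ℤ) * z + z) / T ≤ (k * z + 1 * T) / T := Int.ediv_le_ediv hT' (by omega)
      rw [Int.add_mul_ediv_right _ _ hT'.ne'] at l2
      omega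
    · intro k hk hk'
      obtain ⟨p, hp⟩ : ∃ p : ℤ, p = (k : ℤ) * z / T := ⟨_, rfl⟩
      have q1 : p * T ≤ (k : ℤ) * z := by
        rw [hp]
        exact Int.ediv_mul_le _ hT'.ne'
      have q2 : (k : ℤ) * z < (p + 1) * T := by
        rw [hp]
        exact Int.lt_ediv_add_one_mul_self _ hT'
      simp only [Tube, Set.mem_setOf_eq]
      rw [← hp, add_sub_cancel_left, add_sub_cancel_left]
      have hTr : (0 : ℝ) < T := by exact_mod_cast hT
      have q1' : (p : ℝ) * T ≤ k * z := by exact_mod_cast q1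
      have q2' : (k : ℝ) * z < (p + 1) * T := by exact_mod_cast q2
      have hkT : (k : ℝ) ≤ T := by exact_mod_cast hk'
      have hk0 : (0 : ℝ) ≤ k := Nat.cast_nonneg k
      have hd : |(k : ℝ) * z - v * k * T| ≤ T * |(z : ℝ) - v * T| := by
        have e1 : (k : ℝ) * z - v * k * T = k * (z - v * T) := by ring
        rw [e1, abs_mul, abs_of_nonneg hk0]
        exact mul_le_mul_of_nonneg_right hkT (abs_nonneg _)
      rw [abs_le] at hd
      have hA : ∃ A : ℝ, A = |(z : ℝ) - v * T| := ⟨_, rfl⟩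
      obtain ⟨A, hA⟩ := hA
      rw [← hA] at hd hz
      rw [Int.cast_natCast, abs_le]
      constructor
      · by_contra hcon
        push_neg at hcon
        have h3 : ((p : ℝ) - v * k) * T < -w * T := mul_lt_mul_of_pos_right hcon hTr
        nlinarith
      · by_contra hcon
        push_neg at hcon
        have h3 : w * T < ((p : ℝ) - v * k) * T := mul_lt_mul_of_pos_right hcon hTr
        nlinarith

/-- The record form of the crossing inequality in a tube. -/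
theorem tube_growth [IsProbabilityMeasure μ] (hμ : Pool.Agent.W_7d29a1_h47.EM μ) (v w : ℝ) (ρ : ℕ)
    (hw : 4 * w ≤ (v - 1 / 2) * ρ) :
    Em μ (2 * ρ) = Em μ ρ ∨ ∃ m : ℕ, ρ < m ∧ m ≤ 2 * ρ ∧ Em μ (2 * ρ) = e0 μ m ∧
      ∀ (a : Pt) (K : ℕ) (z : ℤ), 0 ≤ z → z ≤ (K * (m - m / 2) + m : ℕ) →
        |(z : ℝ) - v * (K * (m - m / 2) + m : ℕ)| + 1 ≤ w →
        K * (Em μ (2 * ρ) - Em μ ρ) + Em μ (2 * ρ) ≤
          eR μ 0 (Tube a v w) a (K * (m - m / 2) + m) z := by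
  obtain ⟨m, hm, hE⟩ := exists_Em (μ := μ) (2 * ρ)
  by_cases h : m ≤ ρ
  · left
    refine le_antisymm ?_ (Em_mono (by omega))
    rw [hE]
    exact e0_le_Em h
  right
  push_neg at h
  refine ⟨m, h, hm, hE, fun a K z h0 h1 hz => ?_⟩
  have hw1 : 1 ≤ w := by
    have := abs_nonneg ((z : ℝ) - v * (K * (m - m / 2) + m : ℕ))
    linarith
  obtain ⟨n, hn⟩ : ∃ n : ℕ, n = m / 2 := ⟨_, rfl⟩
  obtain ⟨σ, hσ⟩ : ∃ σ : ℕ, σ = m - m / 2 := ⟨_, rfl⟩
  have hρn : (ρ : ℝ) ≤ 2 * n := by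
    have h2 : ρ ≤ 2 * n := by omega
    exact_mod_cast h2
  have hn2 : (((n / 2 : ℕ) : ℤ) : ℝ) ≤ n / 2 := by
    have h2 : 2 * (n / 2) ≤ n := by omega
    have h3 : (2 : ℝ) * ((n / 2 : ℕ) : ℝ) ≤ n := by exact_mod_cast h2
    rw [Int.cast_natCast]
    linarith
  have hv : 0 ≤ v - 1 / 2 := by
    by_contra hcon
    push_neg at hcon
    have h2 : (v - 1 / 2) * ρ ≤ 0 := mul_nonpos_of_nonpos_of_nonneg hcon.le (Nat.cast_nonneg ρ)
    linarith
  have hvn : 2 * w ≤ (v - 1 / 2) * n := by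
    have h2 := mul_le_mul_of_nonneg_left hρn hv
    linarith
  have hcr := cross_rec hμ (Tube a v w) a (mem_Tube_self a v (by linarith)) K m z
    (hasPath_Tube a v w h0 h1 hz)
    (fun k => a.2 + ⌊v * (k * σ : ℕ) + w⌋) ?_ ?_
  · rw [← hE] at hcr
    have h2 : e0 μ (m / 2) ≤ Em μ ρ := e0_le_Em (by omega)
    have h3 : (K : ℝ) * e0 μ (m / 2) ≤ K * Em μ ρ :=
      mul_le_mul_of_nonneg_left h2 (Nat.cast_nonneg K)
    linarith
  · intro k _ q hq
    rw [← hσ] at hq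
    simp only [Tube, Set.mem_setOf_eq] at hq
    rw [add_sub_cancel_left] at hq
    have h2 := (abs_le.1 hq).2
    push_cast at h2
    have h3 : q - a.2 ≤ ⌊v * (k * σ : ℕ) + w⌋ := by
      rw [Int.le_floor]
      push_cast
      linarith
    show q ≤ a.2 + ⌊v * (k * σ : ℕ) + w⌋
    linarith
  · intro k _ q hq
    rw [← hσ, ← hn] at hq
    rw [← hn]
    simp only [Tube, Set.mem_setOf_eq] at hq
    rw [add_sub_cancel_left] at hq
    have h2 := (abs_le.1 hq).1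
    push_cast at h2
    have h3 := Int.floor_le (v * (k * σ : ℕ) + w)
    push_cast at h3
    show a.2 + ⌊v * (k * σ : ℕ) + w⌋ + ((n / 2 : ℕ) : ℤ) ≤ q
    have h4 : ((a.2 + ⌊v * (k * σ : ℕ) + w⌋ + ((n / 2 : ℕ) : ℤ) : ℤ) : ℝ) ≤ (q : ℝ) := by
      push_cast
      push_cast at hn2
      nlinarith
    exact_mod_cast h4

end Pool.Agent.W_7d29a1_g
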