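import Pool.Agent.W_7d29a1_g.CrossRec
import Pool.Agent.W_7d29a1_h4g.LAinst

/-!
Track G: upper bounds for the mean cost of a restricted polymer from a bound with positive probability, and the crude
growth bound (record form of the crossing inequality in a tube + cheap with probability `p` implies cheap in the mean).
-/

namespace Pool.Agent.W_7d29a1_g

open MeasureTheory ProbabilityTheory
open Pool.Agent.W_7d29a1_F Pool.Agent.W_7d29a1_h4g

variable {μ : Measure ℝ} {s : ℝ}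

theorem log_WR_le_V (R : Set Pt) (a : Pt) {n : ℕ} {y : ℤ} (h0 : 0 ≤ y) (h1 : y ≤ n)
    (hpos : ∀ η : Env, 0 < WR μ s R η a n y) (η : Env) :
    Real.log (WR μ s R η a n y) ≤ V μ s η a n := by
  have h2 := Real.log_le_log (hpos η) (WR_le_W R η a n y)
  have h3 := neg_X_le_V (μ := μ) (s := s) η a h0 h1
  unfold X at h3
  rw [neg_neg] at h3
  exact h2.trans h3

theorem HasPath.bounds {R : Set Pt} {a : Pt} {n : ℕ} {y : ℤ} (h : HasPath R a n y) : 0 ≤ y ∧ y ≤ n := by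
  obtain ⟨p, hp0, hpn, hst, -⟩ := h
  have hb : ∀ k ≤ n, 0 ≤ p k ∧ p k ≤ k := by
    intro k
    induction k with
    | zero =>
      intro _
      rw [hp0]
      simp
    | succ k ih =>
      intro hk
      have h1 := ih (by omega)
      rcases hst k (by omega) with h2 | h2 <;> rw [h2] <;> push_cast <;> omega
  have h1 := hb n le_rfl
  rw [hpn] at h1
  exact h1

/-- Centring at the mean: at a scale where nothing fluctuates, cheap with probability `c` implies cheap in the mean. -/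
theorem mean_of_not_soft {z : ℕ → ℤ} {c C₀ : ℝ} {n : ℕ} (hs : ¬ Soft μ s z c C₀ n) {G : Env → ℝ}
    (hP : Poly (rows 0 n) G) (hG : ∀ η, 0 < G η) (hGV : ∀ η, Real.log (G η) ≤ V μ s η 0 n)
    [IsProbabilityMeasure μ] (hm : -(C₀ * EU μ s z n) ≤ ∫ η, Real.log (G η) ∂(law μ)) {y : ℝ}
    (hy : c ≤ (law μ).real {η | -y ≤ Real.log (G η)}) :
    -∫ η, Real.log (G η) ∂(law μ) ≤ y + c * EU μ s z n := by
  by_contra hcon
  push Not at hcon
  refine hs ⟨G, hP, hG, hGV, hm, hy.trans (measureReal_mono (fun η hη => ?_) (measure_ne_top _ _))⟩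
  rw [Set.mem_ofPred_eq] at hη ⊢
  have h1 := le_abs_self (Real.log (G η) - ∫ ξ, Real.log (G ξ) ∂(law μ))
  linarith

/-- Cheap with probability `p` inside the region `R` implies cheap in the mean inside `R`. -/
theorem eR_le [IsProbabilityMeasure μ] (hEM : Pool.Agent.W_7d29a1_h47.EM μ)
    (hnd : Pool.Agent.W_7d29a1_h47.Nondeg μ) {p : ℝ} (hp : 0 < p) : ∃ (T : ℕ) (C : ℝ),
    ∀ (s : ℝ) (z : ℕ → ℤ), (∀ m, 0 ≤ z m ∧ z m ≤ m) → ∀ (R : Set Pt) (n : ℕ) (x : ℤ),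
      HasPath R 0 n x → ∀ y : ℝ, p ≤ (law μ).real {η | -Real.log (WR μ s R η 0 n x) ≤ y} →
      eR μ s R 0 n x ≤ max (max (2 * y) C) (6 * EU μ s z (2 ^ T * n)) := by
  obtain ⟨T, C, h⟩ := mean_le_EU_all hEM hnd hp
  refine ⟨T, C, fun s z hz R n x hpath y hy => ?_⟩
  have hb := hpath.bounds
  have h1 := h s z hz n (fun η => WR μ s R η 0 n x) ?_ (fun η => hpath.wr_pos η)
    (log_WR_le_V R 0 hb.1 hb.2 fun η => hpath.wr_pos η) y ?_
  · unfold eR
    rw [integral_neg]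
    exact h1
  · refine (poly_WR (μ := μ) (s := s) R 0 n x).mono ?_
    rintro q ⟨q1, q2, _, _⟩
    refine ⟨q1, ?_⟩
    simpa using q2
  · refine hy.trans (measureReal_mono (fun η hη => ?_) (measure_ne_top _ _))
    rw [Set.mem_ofPred_eq] at hη ⊢
    linarith

/-- The crude growth bound. -/
theorem tube_growth_prob [IsProbabilityMeasure μ] (hEM : Pool.Agent.W_7d29a1_h47.EM μ)
    (hnd : Pool.Agent.W_7d29a1_h47.Nondeg μ) {p : ℝ} (hp : 0 < p) : ∃ (S : ℕ) (C : ℝ),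
    ∀ (z : ℕ → ℤ), (∀ m, 0 ≤ z m ∧ z m ≤ m) → ∀ (v w : ℝ) (ρ : ℕ), 4 * w ≤ (v - 1 / 2) * ρ →
      Em μ (2 * ρ) = Em μ ρ ∨ ∃ m : ℕ, ρ < m ∧ m ≤ 2 * ρ ∧ Em μ (2 * ρ) = e0 μ m ∧
        ∀ (K : ℕ) (x : ℤ), 0 ≤ x → x ≤ (K * (m - m / 2) + m : ℕ) →
          |(x : ℝ) - v * (K * (m - m / 2) + m : ℕ)| + 1 ≤ w → ∀ y : ℝ,
          p ≤ (law μ).real {η | -Real.log (WR μ 0 (Tube 0 v w) η 0 (K * (m - m / 2) + m) x) ≤ y} →
          K * (Em μ (2 * ρ) - Em μ ρ) + Em μ (2 * ρ) ≤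
            max (max (2 * y) C) (6 * EU μ 0 z (2 ^ S * (K * (m - m / 2) + m))) := by
  obtain ⟨S, C, h⟩ := eR_le (μ := μ) hEM hnd hp
  refine ⟨S, C, fun z hz v w ρ hw => ?_⟩
  rcases tube_growth hEM v w ρ hw with h1 | ⟨m, h1, h2, h3, h4⟩
  · exact Or.inl h1
  · refine Or.inr ⟨m, h1, h2, h3, fun K x hx0 hx1 hxw y hy => ?_⟩
    refine (h4 0 K x hx0 hx1 hxw).trans ?_
    exact h 0 z hz (Tube 0 v w) _ x (hasPath_Tube 0 v w hx0 hx1 hxw) y hy

end Pool.Agent.W_7d29a1_g
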