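import Pool.Agent.W_7d29a1_g.CrossRec

/-!
Track G, row 619 section 2: the record form of the crossing inequality for paths which pass gates at the times
`j p` only (`1 ≤ j ≤ N`). Positions are relative to the centre `time / 2`; the gate at the time `j p` is
`|x - v j p| ≤ w`.
-/

namespace Pool.Agent.W_7d29a1_g

open MeasureTheory ProbabilityTheory Filter Topology
open Pool.Agent.W_7d29a1_F

variable {μ : Measure ℝ} {s : ℝ}

/-- The weights only see the sites of the region after the start. -/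
theorem Zr_congr_region (R R' : Set Pt) (η : Env) (a : Pt) (h : ∀ q : Pt, a.1 < q.1 → (q ∈ R ↔ q ∈ R'))
    (n : ℕ) (y : ℤ) : Zr R η a n y = Zr R' η a n y := by
  induction n generalizing y with
  | zero => rfl
  | succ n ih =>
    simp only [Zr]
    rw [ih, ih]
    have h1 := h (a.1 + ((n : ℤ) + 1), a.2 + y) (by simp only; omega)
    by_cases hm : ((a.1 + ((n : ℤ) + 1), a.2 + y) : Pt) ∈ R
    · rw [Set.indicator_of_mem hm, Set.indicator_of_mem (h1.1 hm)]
    · rw [Set.indicator_of_notMem hm, Set.indicator_of_notMem (fun h' => hm (h1.2 h'))]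

private theorem Zr_notMem (R : Set Pt) (η : Env) (a : Pt) {n : ℕ} (hn : n ≠ 0) {y : ℤ}
    (h : ((a.1 + n, a.2 + y) : Pt) ∉ R) : Zr R η a n y = 0 := by
  obtain ⟨m, rfl⟩ := Nat.exists_eq_succ_of_ne_zero hn
  simp only [Zr]
  push_cast at h
  rw [Set.indicator_of_notMem h, zero_mul]

/-- Sites without successors in the region can be removed. -/
theorem Zr_remove {R R' : Set Pt} (hsub : R' ⊆ R)
    (hsucc : ∀ q ∈ R, q ∉ R' → ((q.1 + 1, q.2) : Pt) ∉ R ∧ ((q.1 + 1, q.2 + 1) : Pt) ∉ R) (η : Env) (a : Pt)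
    (n : ℕ) (y : ℤ) (hq : ((a.1 + n, a.2 + y) : Pt) ∈ R') : Zr R η a n y = Zr R' η a n y := by
  induction n generalizing y with
  | zero => rfl
  | succ n ih =>
    have hmem' : ((a.1 + ((n : ℤ) + 1), a.2 + y) : Pt) ∈ R' := by
      push_cast at hq
      exact hq
    have hmem := hsub hmem'
    simp only [Zr]
    rw [Set.indicator_of_mem hmem, Set.indicator_of_mem hmem']
    have key : ∀ y' : ℤ, (y' = y ∨ y' = y - 1) → Zr R η a n y' = Zr R' η a n y' := by
      intro y' hy'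
      by_cases h1 : ((a.1 + n, a.2 + y') : Pt) ∈ R'
      · exact ih y' h1
      · by_cases h2 : ((a.1 + n, a.2 + y') : Pt) ∈ R
        · exfalso
          obtain ⟨s1, s2⟩ := hsucc _ h2 h1
          rcases hy' with h3 | h3
          · apply s1
            rw [h3]
            simp only
            rw [add_assoc]
            exact hmem
          · apply s2
            rw [h3]
            simp only
            have e1 : a.2 + (y - 1) + 1 = a.2 + y := by ring
            rw [add_assoc, e1]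
            exact hmem
        · rcases Nat.eq_zero_or_pos n with h0 | h0
          · subst h0
            rfl
          · rw [Zr_notMem R η a h0.ne' h2, Zr_notMem R' η a h0.ne' h1]
    rw [key y (Or.inl rfl), key (y - 1) (Or.inr rfl)]

theorem HasPath.remove {R R' : Set Pt}
    (hsucc : ∀ q ∈ R, q ∉ R' → ((q.1 + 1, q.2) : Pt) ∉ R ∧ ((q.1 + 1, q.2 + 1) : Pt) ∉ R) {a : Pt} {n : ℕ}
    {y : ℤ} (h : HasPath R a n y) (hq : ((a.1 + n, a.2 + y) : Pt) ∈ R') : HasPath R' a n y := by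
  obtain ⟨p, hp0, hpn, hst, hR⟩ := h
  refine ⟨p, hp0, hpn, hst, fun k hk hk' => ?_⟩
  rcases Nat.lt_or_ge k n with hkn | hkn
  · by_contra hcon
    obtain ⟨s1, s2⟩ := hsucc _ (hR k hk hk') hcon
    have h1 := hR (k + 1) (by omega) (by omega)
    rcases hst k hkn with h2 | h2
    · apply s1
      rw [h2] at h1
      push_cast at h1
      simp only
      rw [add_assoc]
      exact h1
    · apply s2
      rw [h2] at h1
      push_cast at h1
      simp only
      rw [add_assoc, add_assoc]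
      exact h1
  · have hk2 : k = n := by omega
    rw [hk2, hpn]
    exact hq

/-- The gates at the times `j p`, `1 ≤ j ≤ N`. -/
def Gate (v w : ℝ) (p N : ℕ) : Set Pt :=
  {q | ∀ j : ℕ, 1 ≤ j → j ≤ N → q.1 = ((j * p : ℕ) : ℤ) →
    |(q.2 : ℝ) - ((j * p : ℕ) : ℝ) / 2 - v * ((j * p : ℕ) : ℝ)| ≤ w}

theorem Tube_sub_Gate (v w : ℝ) (p N : ℕ) : Tube 0 (1 / 2 + v) w ⊆ Gate v w p N := by
  intro q hq j _ _ hqj
  simp only [Tube, Set.mem_setOf_eq, Prod.fst_zero, Prod.snd_zero, sub_zero] at hq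
  rw [hqj] at hq
  have e1 : (q.2 : ℝ) - ((j * p : ℕ) : ℝ) / 2 - v * ((j * p : ℕ) : ℝ) =
      (q.2 : ℝ) - (1 / 2 + v) * (((j * p : ℕ) : ℤ) : ℝ) := by
    push_cast
    ring
  rw [e1]
  exact hq

/-- The record form of the crossing inequality for gated paths: pieces of duration `m`, spacing
`p = m - m / 2` of the gates, references of duration `m / 2`. -/
theorem gate_rec [IsProbabilityMeasure μ] (hμ : Pool.Agent.W_7d29a1_h47.EM μ) (v w : ℝ) (m K : ℕ) (z : ℤ)
    (hm : 2 ≤ m) (hw0 : 0 ≤ w) (hw : 2 * w + 1 ≤ v * ((m - m / 2 : ℕ) : ℝ))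
    (hpath : HasPath (Gate v w (m - m / 2) (K + 1)) 0 (K * (m - m / 2) + m) z) :
    (K + 1) * e0 μ m ≤ eR μ 0 (Gate v w (m - m / 2) (K + 1)) 0 (K * (m - m / 2) + m) z +
      K * e0 μ (m / 2) := by
  obtain ⟨t, ht⟩ : ∃ t : ℕ, t = m / 2 := ⟨_, rfl⟩
  obtain ⟨p, hp⟩ : ∃ p : ℕ, p = m - m / 2 := ⟨_, rfl⟩
  obtain ⟨T, hT⟩ : ∃ T : ℕ, T = K * (m - m / 2) + m := ⟨_, rfl⟩
  have hpt : p = t ∨ p = t + 1 := by omega
  have htp : m = p + t := by omega
  have ht1 : 1 ≤ t := by omega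
  have hT2 : T = (K + 1) * p + t := by
    rw [hT, ← hp, htp]
    ring
  -- the regions
  obtain ⟨R1, hR1⟩ : ∃ R1 : Set Pt, R1 = Gate v w p (K + 1) := ⟨_, rfl⟩
  obtain ⟨R2, hR2⟩ : ∃ R2 : Set Pt, R2 = {q | q ∈ R1 ∧ ∀ j : ℕ, 1 ≤ j → j ≤ K + 1 →
    q.1 + 1 = ((j * p : ℕ) : ℤ) → |(q.2 : ℝ) - ((j * p : ℕ) : ℝ) / 2 - v * ((j * p : ℕ) : ℝ)| ≤ w + 1} :=
    ⟨_, rfl⟩
  obtain ⟨R3, hR3⟩ : ∃ R3 : Set Pt, R3 = {q | q ∈ R2 ∧ (q.1 ≤ 0 → q = 0)} ∪ {0} := ⟨_, rfl⟩
  have hsub : R2 ⊆ R1 := by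
    rw [hR2]
    exact fun q hq => hq.1
  have hsucc : ∀ q ∈ R1, q ∉ R2 → ((q.1 + 1, q.2) : Pt) ∉ R1 ∧ ((q.1 + 1, q.2 + 1) : Pt) ∉ R1 := by
    intro q hq hq2
    rw [hR2] at hq2
    have h1 : ¬ ∀ j : ℕ, 1 ≤ j → j ≤ K + 1 → q.1 + 1 = ((j * p : ℕ) : ℤ) →
        |(q.2 : ℝ) - ((j * p : ℕ) : ℝ) / 2 - v * ((j * p : ℕ) : ℝ)| ≤ w + 1 := fun h => hq2 ⟨hq, h⟩
    push Not at h1
    obtain ⟨j, hj1, hj2, hj3, hj4⟩ := h1
    constructor
    · intro hcon
      rw [hR1] at hcon
      have h2 := hcon j hj1 hj2 hj3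
      simp only at h2
      linarith
    · intro hcon
      rw [hR1] at hcon
      have h2 := hcon j hj1 hj2 hj3
      simp only at h2
      push_cast at h2 hj4
      rw [abs_le] at h2
      rcases lt_abs.1 hj4 with h3 | h3
      · linarith [h2.1, h2.2]
      · linarith [h2.1, h2.2]
  have hend : (((0 : Pt).1 + T, (0 : Pt).2 + z) : Pt) ∈ R2 := by
    rw [hR2]
    have hTj : ∀ j : ℕ, j ≤ K + 1 → j * p < T := by
      intro j hj
      have h1 := Nat.mul_le_mul_right p hj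
      omega
    refine ⟨?_, ?_⟩
    · rw [hR1]
      intro j _ hj2 hj3
      exfalso
      have h1 := hTj j hj2
      simp only [Prod.fst_zero] at hj3
      omega
    · intro j _ hj2 hj3
      exfalso
      have h1 := hTj j hj2
      simp only [Prod.fst_zero] at hj3
      omega
  have hcongr : ∀ q : Pt, (0 : Pt).1 < q.1 → (q ∈ R2 ↔ q ∈ R3) := by
    intro q hq
    rw [Prod.fst_zero] at hq
    rw [hR3]
    constructor
    · intro h
      exact Or.inl ⟨h, fun h2 => absurd h2 (by omega)⟩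
    · rintro (h | h)
      · exact h.1
      · rw [Set.mem_singleton_iff] at h
        rw [h] at hq
        exact absurd hq (lt_irrefl _)
  have hZ : ∀ η : Env, WR μ 0 R1 η 0 T z = WR μ 0 R3 η 0 T z := by
    intro η
    unfold WR
    rw [Zr_remove hsub hsucc η 0 T z hend, Zr_congr_region R2 R3 η 0 hcongr T z]
  have heR : eR μ 0 R1 0 T z = eR μ 0 R3 0 T z := by
    unfold eR
    simp only [hZ]
  have hpath3 : HasPath R3 0 T z := by
    have h1 : HasPath R1 0 T z := by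
      rw [hR1, hT, hp]
      exact hpath
    obtain ⟨r, r0, rn, rst, rR⟩ := h1.remove hsucc hend
    refine ⟨r, r0, rn, rst, fun k hk hk' => (hcongr _ ?_).1 (rR k hk hk')⟩
    simp only [Prod.fst_zero]
    omega
  have hcr := cross_rec hμ R3 0 (by rw [hR3]; exact Or.inr rfl) K m z (by rw [← hT]; exact hpath3)
    (fun k => ⌊((k * p : ℕ) : ℝ) / 2 + v * ((k * p : ℕ) : ℝ) + w⌋) ?_ ?_
  · rw [← hT, ← heR, hR1, hp] at hcr
    rw [← hT]
    exact hcr
  · -- the upper ends
    intro k hk q hq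
    rw [← hp, Prod.fst_zero, zero_add] at hq
    rw [Int.le_floor]
    rcases Nat.eq_zero_or_pos k with h0 | h0
    · subst h0
      rw [hR3] at hq
      have hq0 : q = 0 := by
        rcases hq with h | h
        · have h2 := h.2 (by simp)
          exact congrArg Prod.snd h2
        · rw [Set.mem_singleton_iff] at h
          exact congrArg Prod.snd h
      rw [hq0]
      simp only [Nat.zero_mul, Nat.cast_zero, Int.cast_zero, zero_div, mul_zero, add_zero, zero_add]
      exact hw0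
    · have hk0 : 0 < ((k : ℤ) * (p : ℤ)) := by
        have h1 : 0 < k * p := Nat.mul_pos h0 (by omega)
        exact_mod_cast h1
      have hq2 := (hcongr _ (by simp only [Prod.fst_zero]; exact hk0)).2 hq
      have hq1 := hsub hq2
      rw [hR1] at hq1
      have h2 := (abs_le.1 (hq1 k h0 (by omega) (by push_cast; rfl))).2
      simp only at h2
      linarith
  · -- the lower ends
    intro k hk q hq
    rw [← hp, ← ht, Prod.fst_zero, zero_add] at hq
    rw [← ht]
    have hpos : 0 < ((k : ℤ) * (p : ℤ) + (t : ℤ)) := by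
      have h1 : 0 < k * p + t := by omega
      exact_mod_cast h1
    have hq2 := (hcongr _ (by simp only [Prod.fst_zero]; exact hpos)).2 hq
    have hlow : ((((k + 1) * p : ℕ) : ℝ) / 2 + v * (((k + 1) * p : ℕ) : ℝ)) - w - 1 ≤ (q : ℝ) := by
      rcases hpt with h1 | h1
      · have hq1 := hsub hq2
        rw [hR1] at hq1
        have h2 := (abs_le.1 (hq1 (k + 1) (by omega) (by omega) (by
          simp only
          rw [h1]
          push_cast
          ring))).1
        simp only at h2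
        linarith
      · rw [hR2] at hq2
        have h2 := (abs_le.1 (hq2.2 (k + 1) (by omega) (by omega) (by
          simp only
          rw [h1]
          push_cast
          ring))).1
        simp only at h2
        linarith
    have hfl := Int.floor_le (((k * p : ℕ) : ℝ) / 2 + v * ((k * p : ℕ) : ℝ) + w)
    have ht2 : (((t / 2 : ℕ) : ℤ) : ℝ) ≤ (t : ℝ) / 2 := by
      have h2 : 2 * (t / 2) ≤ t := by omega
      have h3 : (2 : ℝ) * ((t / 2 : ℕ) : ℝ) ≤ t := by exact_mod_cast h2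
      rw [Int.cast_natCast]
      linarith
    have htp' : (t : ℝ) ≤ p := by
      have h2 : t ≤ p := by omega
      exact_mod_cast h2
    rw [← hp] at hw
    have h4 : ((⌊((k * p : ℕ) : ℝ) / 2 + v * ((k * p : ℕ) : ℝ) + w⌋ + ((t / 2 : ℕ) : ℤ) : ℤ) : ℝ) ≤
        (q : ℝ) := by
      rw [Int.cast_add]
      have e1 : (((k + 1) * p : ℕ) : ℝ) = ((k * p : ℕ) : ℝ) + p := by push_cast; ring
      rw [e1] at hlow
      linarith [mul_add v ((k * p : ℕ) : ℝ) (p : ℝ)]
    exact_mod_cast h4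

/-- Row 619, (2.1). -/
theorem gate_growth [IsProbabilityMeasure μ] (hμ : Pool.Agent.W_7d29a1_h47.EM μ) (ρ : ℕ) (hρ : 1 ≤ ρ) :
    Em μ (2 * ρ) = Em μ ρ ∨ ∃ m : ℕ, ρ < m ∧ m ≤ 2 * ρ ∧ Em μ (2 * ρ) = e0 μ m ∧
      ∀ (v w : ℝ) (K : ℕ) (z : ℤ), 0 ≤ w → 2 * w + 1 ≤ v * ((m - m / 2 : ℕ) : ℝ) →
        HasPath (Gate v w (m - m / 2) (K + 1)) 0 (K * (m - m / 2) + m) z →
        K * (Em μ (2 * ρ) - Em μ ρ) + Em μ (2 * ρ) ≤
          eR μ 0 (Gate v w (m - m / 2) (K + 1)) 0 (K * (m - m / 2) + m) z := by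
  obtain ⟨m, hm, hE⟩ := exists_Em (μ := μ) (2 * ρ)
  by_cases h : m ≤ ρ
  · left
    refine le_antisymm ?_ (Em_mono (by omega))
    rw [hE]
    exact e0_le_Em h
  right
  push Not at h
  refine ⟨m, h, hm, hE, fun v w K z hw0 hw hpath => ?_⟩
  have h1 := gate_rec hμ v w m K z (by omega) hw0 hw hpath
  rw [← hE] at h1
  have h2 : e0 μ (m / 2) ≤ Em μ ρ := e0_le_Em (by omega)
  have h3 : (K : ℝ) * e0 μ (m / 2) ≤ K * Em μ ρ := mul_le_mul_of_nonneg_left h2 (Nat.cast_nonneg K)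
  linarith

end Pool.Agent.W_7d29a1_g
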