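import Mathlib

/-!
The frame with the unit of the worst direction (helper20 48674, helper72 49083, helper85 49206, helper80 49295),
abstract form: `A n v` is the largest mean positive cost of a displacement of slope at most `v` in time `n`
(nondecreasing in `v`, subadditive in `n`), `J v` the rate function, or `v ↦ J (ρ v)` with `1 ≤ ρ ≤ 2`.
`vs n` is the largest slope `v ≤ 1/4` with `2 n J v ≤ A n v`, `Es n = A n (vs n)`,
`Eb n = 1 + max_{m ≤ n} Es m`, and `vb n` is the slope with `n J (vb n) = Eb n / 2`.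
-/

namespace Pool.Agent.W_7d29a1_g

open Filter Topology Set

noncomputable section

/-- The assumptions: monotone in the slope, subadditive in time. -/
structure FrA (A : ℕ → ℝ → ℝ) (J : ℝ → ℝ) : Prop where
  mono : ∀ (n : ℕ) (u v : ℝ), 0 ≤ u → u ≤ v → v ≤ 1 / 4 → A n u ≤ A n v
  nonneg : ∀ (n : ℕ) (v : ℝ), 0 ≤ v → v ≤ 1 / 4 → 0 ≤ A n v
  sub : ∀ (m n : ℕ) (v : ℝ), 0 ≤ v → v ≤ 1 / 4 → A (m + n) v ≤ A m v + A n v
  Jconv : ConvexOn ℝ (Icc 0 (1 / 4)) J
  Jcont : ContinuousOn J (Icc 0 (1 / 4))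
  J0 : J 0 = 0
  Jpos : ∀ v : ℝ, 0 < v → v ≤ 1 / 4 → 0 < J v

/-- The asymptotic upper bound (used for the limits only). -/
def Up (A : ℕ → ℝ → ℝ) (J : ℝ → ℝ) : Prop :=
  ∀ v : ℝ, 0 ≤ v → v ≤ 1 / 4 → ∀ ε : ℝ, 0 < ε → ∀ᶠ n : ℕ in atTop, A n v ≤ (J v + ε) * n

/-- The slope of the worst direction. -/
def avs (A : ℕ → ℝ → ℝ) (J : ℝ → ℝ) (n : ℕ) : ℝ :=
  sSup {v : ℝ | 0 ≤ v ∧ v ≤ 1 / 4 ∧ 2 * n * J v ≤ A n v}

/-- The cost of the worst direction. -/
def aEs (A : ℕ → ℝ → ℝ) (J : ℝ → ℝ) (n : ℕ) : ℝ := 2 * n * J (avs A J n)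

/-- The unit. -/
def aEb (A : ℕ → ℝ → ℝ) (J : ℝ → ℝ) (n : ℕ) : ℝ :=
  1 + sSup {r | ∃ m : ℕ, m ≤ n ∧ r = aEs A J m}

/-- The natural slope. -/
def avb (A : ℕ → ℝ → ℝ) (J : ℝ → ℝ) (n : ℕ) : ℝ :=
  sSup {v : ℝ | 0 ≤ v ∧ v ≤ 1 / 4 ∧ 2 * n * J v ≤ aEb A J n}

namespace FrA

variable {A : ℕ → ℝ → ℝ} {J : ℝ → ℝ}

theorem vs_bdd (n : ℕ) : BddAbove {v : ℝ | 0 ≤ v ∧ v ≤ 1 / 4 ∧ 2 * n * J v ≤ A n v} :=
  ⟨1 / 4, fun _ hv => hv.2.1⟩

variable (F : FrA A J)

include F

/-- `J` grows at least linearly along rays. -/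
theorem J_mul {v t : ℝ} (hv : 0 ≤ v) (ht : 1 ≤ t) (htv : t * v ≤ 1 / 4) : t * J v ≤ J (t * v) := by
  have ht0 : 0 < t := by linarith
  have h := F.Jconv.2 (show t * v ∈ Icc (0 : ℝ) (1 / 4) from ⟨by positivity, htv⟩)
    (show (0 : ℝ) ∈ Icc (0 : ℝ) (1 / 4) from ⟨le_rfl, by norm_num⟩)
    (show (0 : ℝ) ≤ 1 / t by positivity) (show 0 ≤ 1 - 1 / t by
      rw [sub_nonneg, div_le_one ht0]; exact ht) (by ring)
  simp only [smul_eq_mul, mul_zero, add_zero, F.J0] at h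
  have e1 : 1 / t * (t * v) = v := by field_simp
  rw [e1] at h
  have := mul_le_mul_of_nonneg_left h ht0.le
  have e2 : t * (1 / t * J (t * v)) = J (t * v) := by field_simp
  linarith

theorem J_strict {u v : ℝ} (hu : 0 ≤ u) (huv : u < v) (hv : v ≤ 1 / 4) : J u < J v := by
  rcases hu.eq_or_lt with rfl | hu0
  · rw [F.J0]
    exact F.Jpos v huv hv
  · have h1 : 1 < v / u := by rwa [one_lt_div hu0]
    have h2 := F.J_mul (v := u) (t := v / u) hu h1.le (by rw [div_mul_cancel₀ _ hu0.ne']; exact hv)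
    rw [div_mul_cancel₀ _ hu0.ne'] at h2
    have h3 := F.Jpos u hu0 (by linarith)
    nlinarith

theorem J_mono {u v : ℝ} (hu : 0 ≤ u) (huv : u ≤ v) (hv : v ≤ 1 / 4) : J u ≤ J v := by
  rcases huv.eq_or_lt with rfl | h
  · exact le_rfl
  · exact (F.J_strict hu h hv).le

theorem J_nonneg {v : ℝ} (h0 : 0 ≤ v) (h1 : v ≤ 1 / 4) : 0 ≤ J v := by
  have := F.J_mono le_rfl h0 h1
  rwa [F.J0] at this

/-! ### The worst slope -/

theorem zero_mem (n : ℕ) : (0 : ℝ) ∈ {v : ℝ | 0 ≤ v ∧ v ≤ 1 / 4 ∧ 2 * n * J v ≤ A n v} := by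
  refine ⟨le_rfl, by norm_num, ?_⟩
  rw [F.J0, mul_zero]
  exact F.nonneg n 0 le_rfl (by norm_num)

theorem vs_nonneg (n : ℕ) : 0 ≤ avs A J n := le_csSup (vs_bdd n) (F.zero_mem n)

theorem vs_le (n : ℕ) : avs A J n ≤ 1 / 4 := csSup_le ⟨0, F.zero_mem n⟩ fun _ hv => hv.2.1

theorem vs_mem (n : ℕ) : 2 * n * J (avs A J n) ≤ A n (avs A J n) := by
  -- approximate from the left inside the set
  have hlub := isLUB_csSup ⟨0, F.zero_mem n⟩ (vs_bdd (A := A) (J := J) n)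
  obtain ⟨u, _, hu3, hu4, hu5⟩ := hlub.exists_seq_monotone_tendsto ⟨0, F.zero_mem n⟩
  have hin : ∀ k, u k ∈ Icc (0 : ℝ) (1 / 4) := fun k => ⟨(hu5 k).1, (hu5 k).2.1⟩
  have hc : Tendsto (fun k => J (u k)) atTop (𝓝 (J (avs A J n))) := by
    have h1 := F.Jcont (avs A J n) ⟨F.vs_nonneg n, F.vs_le n⟩
    refine h1.tendsto.comp ?_
    rw [tendsto_nhdsWithin_iff]
    exact ⟨hu4, Eventually.of_forall hin⟩
  refine le_of_tendsto (hc.const_mul (2 * (n : ℝ))) (Eventually.of_forall fun k => ?_)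
  refine (hu5 k).2.2.trans ?_
  exact F.mono n _ _ (hin k).1 (hu3 k) (F.vs_le n)

/-- Beyond `vs n` the mean cost is at most twice the asymptotic cost. -/
theorem e_lt {n : ℕ} {v : ℝ} (h0 : avs A J n < v) (h1 : v ≤ 1 / 4) : A n v < 2 * n * J v := by
  by_contra h
  rw [not_lt] at h
  have := le_csSup (vs_bdd n) (show v ∈ {v : ℝ | 0 ≤ v ∧ v ≤ 1 / 4 ∧ 2 * n * J v ≤ A n v} from
    ⟨(F.vs_nonneg n).trans h0.le, h1, h⟩)
  exact absurd this (not_le.2 h0)

/-- From `vs n` on. -/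
theorem e_le {n : ℕ} {v : ℝ} (h0 : avs A J n ≤ v) (h1 : v ≤ 1 / 4) (hlt : avs A J n < 1 / 4) :
    A n v ≤ 2 * n * J v := by
  rcases h0.lt_or_eq with h | h
  · exact (F.e_lt h h1).le
  · subst h
    have h2 : Tendsto (fun v : ℝ => 2 * n * J v) (𝓝[Ioc (avs A J n) (1 / 4)] (avs A J n))
        (𝓝 (2 * n * J (avs A J n))) := by
      refine ((F.Jcont (avs A J n) ⟨F.vs_nonneg n, F.vs_le n⟩).const_mul (2 * (n : ℝ))).mono_left
        (nhdsWithin_mono _ ?_)
      intro v hv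
      exact ⟨(F.vs_nonneg n).trans hv.1.le, hv.2⟩
    have hne : (𝓝[Ioc (avs A J n) (1 / 4)] (avs A J n)).NeBot := by
      rw [nhdsWithin_Ioc_eq_nhdsGT hlt]
      infer_instance
    refine ge_of_tendsto h2 (eventually_nhdsWithin_of_forall fun v hv => ?_)
    exact (F.mono n _ _ (F.vs_nonneg n) hv.1.le hv.2).trans (F.e_lt hv.1 hv.2).le

theorem Es_le (n : ℕ) : aEs A J n ≤ A n (avs A J n) := F.vs_mem n

theorem Es_eq {n : ℕ} (hlt : avs A J n < 1 / 4) : aEs A J n = A n (avs A J n) :=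
  le_antisymm (F.Es_le n) (F.e_le le_rfl (F.vs_le n) hlt)

/-- (F1) in the general form. -/
theorem vs_add (m n : ℕ) : avs A J (m + n) ≤ max (avs A J m) (avs A J n) := by
  refine csSup_le ⟨0, F.zero_mem _⟩ ?_
  rintro v ⟨hv0, hv1, hv2⟩
  by_contra h
  rw [not_le, max_lt_iff] at h
  have h1 := F.e_lt h.1 hv1
  have h2 := F.e_lt h.2 hv1
  have h3 := F.sub m n v hv0 hv1
  have e2 : 2 * ((m + n : ℕ) : ℝ) * J v = 2 * m * J v + 2 * n * J v := by push_cast; ring
  rw [e2] at hv2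
  linarith

theorem A_zero_le_Es {n : ℕ} (h : avs A J n < 1 / 4) : A n 0 ≤ aEs A J n := by
  rw [F.Es_eq h]
  exact F.mono n _ _ le_rfl (F.vs_nonneg n) (F.vs_le n)

theorem Es_nonneg (n : ℕ) : 0 ≤ aEs A J n := by
  have := F.J_nonneg (F.vs_nonneg n) (F.vs_le n)
  unfold aEs
  positivity

/-- (F1): doubling. -/
theorem Es_two (n : ℕ) : aEs A J (2 * n) ≤ 2 * aEs A J n := by
  have h1 := F.vs_add n n
  rw [max_self, ← two_mul] at h1
  have h2 := F.J_mono (F.vs_nonneg _) h1 (F.vs_le n)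
  unfold aEs
  push_cast
  have : (0 : ℝ) ≤ n := Nat.cast_nonneg n
  nlinarith

theorem vs_two (n : ℕ) : avs A J (2 * n) ≤ avs A J n := by
  have h1 := F.vs_add n n
  rwa [max_self, ← two_mul] at h1

omit F in
theorem Es_fin (n : ℕ) : {r | ∃ m : ℕ, m ≤ n ∧ r = aEs A J m}.Finite := by
  refine ((Finset.range (n + 1)).finite_toSet.image (aEs A J)).subset ?_
  rintro r ⟨m, hm, rfl⟩
  exact ⟨m, by simpa using (by omega : m < n + 1), rfl⟩

omit F in
theorem Es_le_Eb {m n : ℕ} (h : m ≤ n) : 1 + aEs A J m ≤ aEb A J n := by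
  unfold aEb
  have := le_csSup (Es_fin (A := A) (J := J) n).bddAbove (show aEs A J m ∈ {r | ∃ m : ℕ, m ≤ n ∧ r = aEs A J m} from ⟨m, h, rfl⟩)
  linarith

theorem one_le_Eb (n : ℕ) : 1 ≤ aEb A J n := by
  have h1 : 1 + aEs A J n ≤ aEb A J n := Es_le_Eb (le_refl n)
  have h2 := F.Es_nonneg n
  linarith

omit F in
theorem Eb_le {n : ℕ} {c : ℝ} (h : ∀ m ≤ n, 1 + aEs A J m ≤ c) : aEb A J n ≤ c := by
  unfold aEb
  have : sSup {r | ∃ m : ℕ, m ≤ n ∧ r = aEs A J m} ≤ c - 1 := by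
    refine csSup_le ⟨aEs A J 0, 0, Nat.zero_le _, rfl⟩ ?_
    rintro r ⟨m, hm, rfl⟩
    linarith [h m hm]
  linarith

omit F in
theorem Eb_mono : Monotone (aEb A J) := by
  intro m n h
  exact Eb_le fun k hk => Es_le_Eb (hk.trans h)

theorem A_zero_le_Eb {m n : ℕ} (h : m ≤ n) (hm : avs A J m < 1 / 4) : A m 0 + 1 ≤ aEb A J n := by
  have h1 := F.A_zero_le_Es hm
  have h2 : 1 + aEs A J m ≤ aEb A J n := Es_le_Eb h
  linarith

/-! ### The natural slope -/

theorem vb_ne (n : ℕ) : (0 : ℝ) ∈ {v : ℝ | 0 ≤ v ∧ v ≤ 1 / 4 ∧ 2 * n * J v ≤ aEb A J n} := by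
  refine ⟨le_rfl, by norm_num, ?_⟩
  rw [F.J0, mul_zero]
  linarith [F.one_le_Eb n]

omit F in
theorem vb_bdd (n : ℕ) : BddAbove {v : ℝ | 0 ≤ v ∧ v ≤ 1 / 4 ∧ 2 * n * J v ≤ aEb A J n} :=
  ⟨1 / 4, fun _ hv => hv.2.1⟩

theorem vb_nonneg (n : ℕ) : 0 ≤ avb A J n := le_csSup (vb_bdd n) (F.vb_ne n)

theorem vb_le (n : ℕ) : avb A J n ≤ 1 / 4 := csSup_le ⟨0, F.vb_ne n⟩ fun _ hv => hv.2.1

theorem vb_mem (n : ℕ) : 2 * n * J (avb A J n) ≤ aEb A J n := by
  have h1 : IsClosed {v : ℝ | 0 ≤ v ∧ v ≤ 1 / 4 ∧ 2 * n * J v ≤ aEb A J n} := by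
    have h1 : {v : ℝ | 0 ≤ v ∧ v ≤ 1 / 4 ∧ 2 * n * J v ≤ aEb A J n} =
        {v : ℝ | v ∈ Icc (0 : ℝ) (1 / 4) ∧ 2 * n * J v ≤ aEb A J n} := by
      ext v
      simp only [mem_ofPred_eq, mem_Icc, and_assoc]
    rw [h1]
    exact isClosed_Icc.isClosed_le (ContinuousOn.mul continuousOn_const F.Jcont) continuousOn_const
  exact (h1.csSup_mem ⟨0, F.vb_ne n⟩ (vb_bdd n)).2.2

theorem lt_J_of_vb_lt {n : ℕ} {v : ℝ} (h0 : avb A J n < v) (h1 : v ≤ 1 / 4) :
    aEb A J n < 2 * n * J v := by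
  by_contra h
  rw [not_lt] at h
  have := le_csSup (a := v) (vb_bdd n) ⟨(F.vb_nonneg n).trans h0.le, h1, h⟩
  exact absurd this (not_le.2 h0)

theorem vb_eq {n : ℕ} (h : avb A J n < 1 / 4) : n * J (avb A J n) = aEb A J n / 2 := by
  have h1 := F.vb_mem n
  have h2 : Tendsto (fun v : ℝ => 2 * n * J v) (𝓝[Ioc (avb A J n) (1 / 4)] (avb A J n))
      (𝓝 (2 * n * J (avb A J n))) := by
    refine ((F.Jcont (avb A J n) ⟨F.vb_nonneg n, F.vb_le n⟩).const_mul (2 * (n : ℝ))).mono_left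
      (nhdsWithin_mono _ ?_)
    intro v hv
    exact ⟨(F.vb_nonneg n).trans hv.1.le, hv.2⟩
  have hne : (𝓝[Ioc (avb A J n) (1 / 4)] (avb A J n)).NeBot := by
    rw [nhdsWithin_Ioc_eq_nhdsGT h]
    infer_instance
  have h3 := ge_of_tendsto h2 (b := aEb A J n) (eventually_nhdsWithin_of_forall fun v hv =>
    (F.lt_J_of_vb_lt hv.1 hv.2).le)
  linarith

/-- (H1): the moves inside the natural cone cost at most one unit. -/
theorem H1 {m n : ℕ} (hmn : m ≤ n) (hlt : avs A J m < 1 / 4) {v : ℝ} (h0 : 0 ≤ v)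
    (hv : v ≤ avb A J n) : A m v ≤ aEb A J n := by
  have hv1 := F.vb_le n
  have hE : 1 + aEs A J m ≤ aEb A J n := Es_le_Eb hmn
  rcases le_total v (avs A J m) with h | h
  · have h1 : A m v ≤ A m (avs A J m) := F.mono m _ _ h0 h (F.vs_le m)
    rw [← F.Es_eq hlt] at h1
    linarith
  · have h2 := F.e_le h (hv.trans hv1) hlt
    have h3 := F.J_mono h0 hv hv1
    have h4 := F.vb_mem n
    have h5 : (m : ℝ) ≤ n := by exact_mod_cast hmn
    have h6 := F.J_nonneg (h0.trans hv) hv1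
    have h7 : 2 * (m : ℝ) * J v ≤ 2 * m * J (avb A J n) := mul_le_mul_of_nonneg_left h3 (by positivity)
    have h8 : 2 * (m : ℝ) * J (avb A J n) ≤ 2 * n * J (avb A J n) :=
      mul_le_mul_of_nonneg_right (by linarith) h6
    linarith

/-- (H2): displacements of slope `k vb n` cost at least `k / 2` units. -/
theorem H2 {n : ℕ} (h : avb A J n < 1 / 4) {k : ℝ} (hk : 1 ≤ k) (hk1 : k * avb A J n ≤ 1 / 4) :
    k * (aEb A J n / 2) ≤ n * J (k * avb A J n) := by
  have h1 := F.J_mul (F.vb_nonneg n) hk hk1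
  rw [← F.vb_eq h]
  have : (0 : ℝ) ≤ n := Nat.cast_nonneg n
  nlinarith [mul_le_mul_of_nonneg_left h1 this]

/-- (H2) in the tilted form: `h v - J v ≤ Eb / (2 n)` for `h = Eb / (2 vb n)` and all `0 ≤ v ≤ 1/4`. -/
theorem H2' {n : ℕ} (hn : 1 ≤ n) (h : avb A J n < 1 / 4) (hb : 0 < avb A J n) {v : ℝ} (h0 : 0 ≤ v)
    (hv : v ≤ 1 / 4) : aEb A J n / (2 * avb A J n * n) * v - J v ≤ aEb A J n / (2 * n) := by
  have hn0 : (0 : ℝ) < n := by exact_mod_cast hn
  have hE := F.one_le_Eb n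
  rcases le_total v (avb A J n) with h1 | h1
  · have h2 := F.J_nonneg h0 hv
    have h3 : aEb A J n / (2 * avb A J n * n) * v ≤ aEb A J n / (2 * avb A J n * n) * avb A J n :=
      mul_le_mul_of_nonneg_left h1 (by positivity)
    have h4 : aEb A J n / (2 * avb A J n * n) * avb A J n = aEb A J n / (2 * n) := by field_simp
    linarith
  · have h2 := F.J_mul hb.le (t := v / avb A J n) (by rw [le_div_iff₀ hb]; linarith)
      (by rw [div_mul_cancel₀ _ hb.ne']; exact hv)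
    rw [div_mul_cancel₀ _ hb.ne'] at h2
    have h3 := F.vb_eq h
    have h4 : J (avb A J n) = aEb A J n / (2 * n) := by
      field_simp
      linarith
    rw [h4] at h2
    have h5 : v / avb A J n * (aEb A J n / (2 * n)) = aEb A J n / (2 * avb A J n * n) * v := by
      field_simp
    have h6 : 0 ≤ aEb A J n / (2 * n) := by positivity
    linarith

/-- (F2). -/
theorem vs_le_vb (n : ℕ) : avs A J n ≤ avb A J n := by
  refine le_csSup (vb_bdd n) ⟨F.vs_nonneg n, F.vs_le n, ?_⟩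
  have h2 : 1 + aEs A J n ≤ aEb A J n := Es_le_Eb (le_refl n)
  unfold aEs at h2
  linarith

/-! ### Growth and limits -/

theorem Es_add {m n : ℕ} (hm : 1 ≤ m) (hn : 1 ≤ n) :
    aEs A J (m + n) ≤ (m + n : ℝ) * max (aEs A J m / m) (aEs A J n / n) := by
  have hm0 : (0 : ℝ) < m := by exact_mod_cast hm
  have hn0 : (0 : ℝ) < n := by exact_mod_cast hn
  have h1 := F.vs_add m n
  have e1 : aEs A J m / m = 2 * J (avs A J m) := by
    unfold aEs
    field_simp
  have e2 : aEs A J n / n = 2 * J (avs A J n) := by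
    unfold aEs
    field_simp
  rw [e1, e2]
  have h7 : 2 * J (avs A J (m + n)) ≤ max (2 * J (avs A J m)) (2 * J (avs A J n)) := by
    rcases le_max_iff.1 h1 with h4 | h4
    · exact le_max_of_le_left (by linarith [F.J_mono (F.vs_nonneg _) h4 (F.vs_le m)])
    · exact le_max_of_le_right (by linarith [F.J_mono (F.vs_nonneg _) h4 (F.vs_le n)])
  unfold aEs
  push_cast
  nlinarith

/-- `vs n` tends to `0`. -/
theorem vs_tendsto (U : Up A J) : Tendsto (avs A J) atTop (𝓝 0) := by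
  rw [Metric.tendsto_atTop]
  intro ε hε
  obtain ⟨a, ha0, ha1, ha2⟩ : ∃ a : ℝ, 0 < a ∧ a ≤ 1 / 8 ∧ a < ε := by
    refine ⟨min (1 / 8) (ε / 2), by positivity, min_le_left _ _, ?_⟩
    exact lt_of_le_of_lt (min_le_right _ _) (by linarith)
  have hJa := F.Jpos a ha0 (by linarith)
  have huc : UniformContinuousOn J (Icc (0 : ℝ) (1 / 4)) :=
    isCompact_Icc.uniformContinuousOn_of_continuous F.Jcont
  rw [Metric.uniformContinuousOn_iff] at huc
  obtain ⟨δ, hδ, hδ2⟩ := huc (J a / 2) (by linarith)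
  obtain ⟨N, hN⟩ : ∃ N : ℕ, 1 / (4 * δ) < N := exists_nat_gt _
  have hN0 : (0 : ℝ) < N := lt_trans (by positivity) hN
  -- the grid points `k / (4 N)`, `k ≤ N`
  have hgrid : ∀ᶠ n : ℕ in atTop, ∀ k ∈ Finset.range (N + 1),
      A n (k / (4 * N) : ℝ) ≤ (J (k / (4 * N)) + J a / 2) * n := by
    rw [Finset.eventually_all]
    intro k hk
    have hk1 : (k : ℝ) ≤ N := by
      rw [Finset.mem_range] at hk
      exact_mod_cast (show k ≤ N by omega)
    have hkk : (k / (4 * N) : ℝ) ≤ 1 / 4 := by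
      rw [div_le_iff₀ (by positivity)]
      linarith
    exact U _ (by positivity) hkk _ (by linarith)
  obtain ⟨n0, hn0⟩ := eventually_atTop.1 hgrid
  refine ⟨max n0 1, fun n hn => ?_⟩
  have hn1 : n0 ≤ n := (le_max_left _ _).trans hn
  have hn2 : 1 ≤ n := (le_max_right _ _).trans hn
  have hnn : (0 : ℝ) < n := by exact_mod_cast hn2
  rw [Real.dist_eq, sub_zero, abs_of_nonneg (F.vs_nonneg n)]
  refine lt_of_le_of_lt ?_ ha2
  refine csSup_le ⟨0, F.zero_mem n⟩ ?_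
  rintro v ⟨hv0, hv1, hv2⟩
  by_contra hva
  rw [not_le] at hva
  set k : ℕ := ⌈v * (4 * N)⌉₊ with hk
  have hkN : k ≤ N := by
    rw [hk, Nat.ceil_le]
    nlinarith
  have hkv : v ≤ k / (4 * N) := by
    rw [le_div_iff₀ (by positivity)]
    exact Nat.le_ceil _
  have hkv2 : (k / (4 * N) : ℝ) < v + δ := by
    have h1 : (k : ℝ) < v * (4 * N) + 1 := Nat.ceil_lt_add_one (by positivity)
    rw [div_lt_iff₀ (by positivity)]
    have h2 : 1 < δ * (4 * N) := by
      rw [div_lt_iff₀ (by positivity)] at hN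
      linarith
    nlinarith
  have hkh : (k / (4 * N) : ℝ) ≤ 1 / 4 := by
    rw [div_le_iff₀ (by positivity)]
    have : (k : ℝ) ≤ N := by exact_mod_cast hkN
    linarith
  have h1 := hn0 n hn1 k (Finset.mem_range.2 (by omega))
  have h2 : A n v ≤ A n (k / (4 * N) : ℝ) := F.mono n _ _ hv0 hkv hkh
  have h3 : J (k / (4 * N)) < J v + J a / 2 := by
    have := hδ2 (k / (4 * N)) ⟨by positivity, hkh⟩ v ⟨hv0, hv1⟩ (by
      rw [Real.dist_eq, abs_of_nonneg (by linarith)]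
      linarith)
    rw [Real.dist_eq] at this
    linarith [(abs_lt.1 this).2]
  have h4 : J a < J v := F.J_strict ha0.le hva (by linarith)
  have h5 : A n v < 2 * n * J v := by
    calc A n v ≤ (J (k / (4 * N)) + J a / 2) * n := h2.trans h1
      _ < (2 * J v) * n := mul_lt_mul_of_pos_right (by linarith) hnn
      _ = 2 * n * J v := by ring
  linarith

theorem vs_lt_quarter (U : Up A J) : ∀ᶠ n : ℕ in atTop, avs A J n < 1 / 4 :=
  (F.vs_tendsto U).eventually (eventually_lt_nhds (by norm_num))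

theorem Es_div_tendsto (U : Up A J) : Tendsto (fun n : ℕ => aEs A J n / n) atTop (𝓝 0) := by
  have hJ : Tendsto (fun n : ℕ => 2 * J (avs A J n)) atTop (𝓝 0) := by
    have h1 : ContinuousWithinAt J (Icc 0 (1 / 4)) 0 := F.Jcont 0 ⟨le_rfl, by norm_num⟩
    have h0 : Tendsto (avs A J) atTop (𝓝[Icc 0 (1 / 4)] 0) := by
      rw [tendsto_nhdsWithin_iff]
      exact ⟨F.vs_tendsto U, Eventually.of_forall fun n => ⟨F.vs_nonneg n, F.vs_le n⟩⟩
    have h2 := (h1.tendsto.comp h0).const_mul 2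
    rw [F.J0, mul_zero] at h2
    exact h2
  refine hJ.congr' ?_
  filter_upwards [eventually_ge_atTop 1] with n hn1
  have hn0 : (0 : ℝ) < n := by exact_mod_cast hn1
  unfold aEs
  field_simp

theorem Eb_div_tendsto (U : Up A J) : Tendsto (fun n : ℕ => aEb A J n / n) atTop (𝓝 0) := by
  rw [Metric.tendsto_atTop]
  intro ε hε
  obtain ⟨n0, hn0⟩ := eventually_atTop.1 ((F.Es_div_tendsto U).eventually
    (eventually_lt_nhds (show (0 : ℝ) < ε / 4 by linarith)))
  obtain ⟨N, hN⟩ : ∃ N : ℕ, (4 / ε) * aEb A J (max n0 1) < N := exists_nat_gt _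
  refine ⟨max N (max n0 1), fun n hn => ?_⟩
  have hn1 : N ≤ n := (le_max_left _ _).trans hn
  have hn2 : max n0 1 ≤ n := (le_max_right _ _).trans hn
  have hn3 : 1 ≤ n := (le_max_right _ _).trans hn2
  have hnn : (0 : ℝ) < n := by exact_mod_cast hn3
  have hE1 := F.one_le_Eb (max n0 1)
  have hb : aEb A J (max n0 1) < ε / 4 * n := by
    have : (N : ℝ) ≤ n := by exact_mod_cast hn1
    have h2 : (4 / ε) * aEb A J (max n0 1) < n := lt_of_lt_of_le hN this
    rw [div_mul_eq_mul_div, div_lt_iff₀ hε] at h2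
    linarith
  have h1 : aEb A J n ≤ ε / 2 * n := by
    refine Eb_le fun m hm => ?_
    rcases le_or_gt m (max n0 1) with h | h
    · have : 1 + aEs A J m ≤ aEb A J (max n0 1) := Es_le_Eb h
      nlinarith
    · have h2 := hn0 m (by omega)
      have hm0 : (0 : ℝ) < m := by exact_mod_cast (show 0 < m by omega)
      rw [div_lt_iff₀ hm0] at h2
      have h3 : (m : ℝ) ≤ n := by exact_mod_cast hm
      nlinarith
  rw [Real.dist_eq, sub_zero, abs_of_nonneg (by have := F.one_le_Eb n; positivity), div_lt_iff₀ hnn]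
  nlinarith

/-- (F3): the natural slope tends to `0`. -/
theorem vb_tendsto (U : Up A J) : Tendsto (avb A J) atTop (𝓝 0) := by
  rw [Metric.tendsto_atTop]
  intro ε hε
  obtain ⟨a, ha0, ha1, ha2⟩ : ∃ a : ℝ, 0 < a ∧ a ≤ 1 / 8 ∧ a < ε := by
    refine ⟨min (1 / 8) (ε / 2), by positivity, min_le_left _ _, ?_⟩
    exact lt_of_le_of_lt (min_le_right _ _) (by linarith)
  have hJa := F.Jpos a ha0 (by linarith)
  obtain ⟨n0, hn0⟩ := eventually_atTop.1 ((F.Eb_div_tendsto U).eventually (eventually_lt_nhds hJa))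
  refine ⟨max n0 1, fun n hn => ?_⟩
  have hn3 : 1 ≤ n := (le_max_right _ _).trans hn
  have hnn : (0 : ℝ) < n := by exact_mod_cast hn3
  have h1 := hn0 n ((le_max_left _ _).trans hn)
  rw [div_lt_iff₀ hnn] at h1
  rw [Real.dist_eq, sub_zero, abs_of_nonneg (F.vb_nonneg n)]
  refine lt_of_le_of_lt ?_ ha2
  by_contra h
  rw [not_le] at h
  have h2 := F.vb_mem n
  have h3 := F.J_mono ha0.le h.le (by linarith [F.vb_le n])
  nlinarith

theorem vb_lt_quarter (U : Up A J) : ∀ᶠ n : ℕ in atTop, avb A J n < 1 / 4 :=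
  (F.vb_tendsto U).eventually (eventually_lt_nhds (by norm_num))

theorem vb_pos {n : ℕ} (h : avb A J n < 1 / 4) : 0 < avb A J n := by
  rcases (F.vb_nonneg n).eq_or_lt with h0 | h0
  · exfalso
    have h1 := F.vb_eq h
    rw [← h0, F.J0, mul_zero] at h1
    linarith [F.one_le_Eb n]
  · exact h0

/-- Growth of the unit: `Eb (2 n) ≤ (2 + 2 / n) Eb n` (up to the constant `1`). -/
theorem Eb_two' {n : ℕ} (hn : 2 ≤ n) : aEb A J (2 * n) - 1 ≤ (2 + 2 / n) * (aEb A J n - 1) := by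
  have hnn : (0 : ℝ) < n := by exact_mod_cast (show 0 < n by omega)
  have hE := F.one_le_Eb n
  have key : aEb A J (2 * n) ≤ 1 + (2 + 2 / n) * (aEb A J n - 1) := by
    refine Eb_le fun m hm => ?_
    have hc : (2 : ℝ) ≤ 2 + 2 / n := by
      have : (0 : ℝ) ≤ 2 / n := by positivity
      linarith
    rcases le_or_gt m n with h | h
    · have : 1 + aEs A J m ≤ aEb A J n := Es_le_Eb h
      nlinarith
    · obtain ⟨a, b, hab, ha, hb, hna, hnb, hbn⟩ : ∃ a b : ℕ,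
          m = a + b ∧ 1 ≤ a ∧ a ≤ b ∧ n ≤ 2 * a ∧ b ≤ a + 1 ∧ b ≤ n :=
        ⟨m / 2, m - m / 2, by omega, by omega, by omega, by omega, by omega, by omega⟩
      have h1 := F.Es_add (m := a) (n := b) ha (by omega)
      rw [← hab] at h1
      have ha0 : (0 : ℝ) < a := by exact_mod_cast ha
      have hb0 : (0 : ℝ) < b := by exact_mod_cast (show 0 < b by omega)
      have ha1 : 1 + aEs A J a ≤ aEb A J n := Es_le_Eb (show a ≤ n by omega)
      have hb1 : 1 + aEs A J b ≤ aEb A J n := Es_le_Eb hbn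
      have hmx : max (aEs A J a / a) (aEs A J b / b) ≤ (aEb A J n - 1) / a := by
        refine max_le ?_ ?_
        · exact div_le_div_of_nonneg_right (by linarith) ha0.le
        · have hab' : (a : ℝ) ≤ b := by exact_mod_cast hb
          calc aEs A J b / b ≤ aEs A J b / a := by
                exact div_le_div_of_nonneg_left (F.Es_nonneg b) ha0 hab'
            _ ≤ (aEb A J n - 1) / a := div_le_div_of_nonneg_right (by linarith) ha0.le
      have hab2 : (a : ℝ) + b ≤ 2 * a + 1 := by exact_mod_cast (show a + b ≤ 2 * a + 1 by omega)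
      have h2 : aEs A J m ≤ (2 * a + 1) * ((aEb A J n - 1) / a) := by
        refine h1.trans ?_
        have h3 : 0 ≤ (aEb A J n - 1) / a := div_nonneg (by linarith) ha0.le
        calc ((a : ℝ) + b) * max (aEs A J a / a) (aEs A J b / b) ≤ (a + b) * ((aEb A J n - 1) / a) :=
              mul_le_mul_of_nonneg_left hmx (by positivity)
          _ ≤ (2 * a + 1) * ((aEb A J n - 1) / a) := mul_le_mul_of_nonneg_right hab2 h3
      have h3 : (2 * a + 1) * ((aEb A J n - 1) / a) = 2 * (aEb A J n - 1) + (aEb A J n - 1) / a := by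
        field_simp
      have h4 : (aEb A J n - 1) / a ≤ 2 / n * (aEb A J n - 1) := by
        rw [div_mul_eq_mul_div, div_le_div_iff₀ ha0 hnn]
        have : (n : ℝ) ≤ 2 * a := by exact_mod_cast hna
        nlinarith
      nlinarith
  linarith

/-- Growth of the unit, all `n ≥ 2`. -/
theorem Eb_two3 {n : ℕ} (hn : 2 ≤ n) : aEb A J (2 * n) ≤ 3 * aEb A J n := by
  have h1 := F.Eb_two' hn
  have hE := F.one_le_Eb n
  have h2 : (2 : ℝ) / n ≤ 1 := by
    rw [div_le_one (by exact_mod_cast (show 0 < n by omega))]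
    exact_mod_cast hn
  nlinarith

/-- Growth of the unit: `Eb (2 n) ≤ 2 Eb n` for large `n`. -/
theorem Eb_two (U : Up A J) : ∀ᶠ n : ℕ in atTop, aEb A J (2 * n) ≤ 2 * aEb A J n := by
  filter_upwards [eventually_ge_atTop 2,
    (F.Eb_div_tendsto U).eventually (eventually_lt_nhds (show (0 : ℝ) < 1 / 2 by norm_num))] with n hn h2
  have h1 := F.Eb_two' hn
  have hnn : (0 : ℝ) < n := by exact_mod_cast (show 0 < n by omega)
  have h3 : (2 + 2 / (n : ℝ)) * (aEb A J n - 1) = 2 * aEb A J n - 2 + 2 * (aEb A J n / n) - 2 / n := by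
    field_simp
    ring
  have h4 : (0 : ℝ) < 2 / n := by positivity
  rw [h3] at h1
  linarith

/-- The natural slope does not grow when the time is doubled. -/
theorem vb_two (U : Up A J) : ∀ᶠ n : ℕ in atTop, avb A J (2 * n) ≤ avb A J n := by
  filter_upwards [F.Eb_two U] with n h1
  refine csSup_le ⟨0, F.vb_ne _⟩ ?_
  rintro v ⟨hv0, hv1, hv2⟩
  refine le_csSup (vb_bdd n) ⟨hv0, hv1, ?_⟩
  push_cast at hv2
  linarith

/-- The width grows at least like a square root (more precisely `wb` does not decrease by doubling). -/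
theorem wb_two (n : ℕ) : avb A J n ≤ 2 * avb A J (2 * n) := by
  have h1 := F.vb_mem n
  have h2 : avb A J n / 2 ≤ avb A J (2 * n) := by
    refine le_csSup (vb_bdd _) ⟨by linarith [F.vb_nonneg n], by linarith [F.vb_le n, F.vb_nonneg n], ?_⟩
    have h3 : aEb A J n ≤ aEb A J (2 * n) := Eb_mono (by omega)
    rcases (F.vb_nonneg n).eq_or_lt with h0 | h0
    · rw [← h0, zero_div, F.J0, mul_zero]
      linarith [F.one_le_Eb (2 * n)]
    · have h4 := F.J_mul (v := avb A J n / 2) (t := 2) (by linarith) (by norm_num)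
        (by linarith [F.vb_le n])
      have e : 2 * (avb A J n / 2) = avb A J n := by ring
      rw [e] at h4
      push_cast
      have : (0 : ℝ) ≤ n := Nat.cast_nonneg n
      nlinarith
  linarith

end FrA

end

end Pool.Agent.W_7d29a1_g
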