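import Mathlib

/-!
MP_7d29a1_pr (G+, track G): growth along a stretch of slow octaves. `E x` is the cost unit at the octave `x`, `U x` the width of the edge.
The crossing inequality with both boundary terms bounds the growth at the octave `x` by `2 ^ (x - y)` times (growth between `x` and `y`
plus `ε`), as long as the tube of the octave `y` fits. The sum over a stretch is at most a small multiple of the sum of the widths.
-/

set_option autoImplicit false

open Finset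

namespace Pool.Agent.W_7d29a1_g

/-- A geometric sum up to its last term. -/
theorem geom_last (z : ℕ) : ∀ n : ℕ, n ≤ z → ∑ x ∈ range (n + 1), (1 / 2 : ℝ) ^ (z - x) ≤ 2 * (1 / 2 : ℝ) ^ (z - n) := by
  intro n
  induction n with
  | zero =>
    intro _
    simp only [zero_add, range_one, sum_singleton, Nat.sub_zero]
    have : (0 : ℝ) < (1 / 2 : ℝ) ^ z := by positivity
    linarith
  | succ n ih =>
    intro h
    rw [sum_range_succ]
    have h1 := ih (by omega)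
    obtain ⟨k, hk⟩ : ∃ k, z - n = k + 1 := ⟨z - n - 1, by omega⟩
    have h2 : z - (n + 1) = k := by omega
    rw [hk, pow_succ] at h1
    rw [h2]
    linarith

/-- A geometric sum over a set of places. -/
theorem geom_set {z : ℕ} {c : ℝ} (hc : 0 ≤ c) (S : Finset ℕ) (hS : ∀ x ∈ S, x ≤ z)
    (hS' : ∀ x ∈ S, (1 / 2 : ℝ) ^ (z - x) ≤ c) : ∑ x ∈ S, (1 / 2 : ℝ) ^ (z - x) ≤ 2 * c := by
  rcases S.eq_empty_or_nonempty with h | h
  · rw [h, sum_empty]
    positivity
  · have h1 : S ⊆ range (S.max' h + 1) := fun x hx => by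
      rw [mem_range]
      exact Nat.lt_succ_of_le (S.le_max' x hx)
    calc ∑ x ∈ S, (1 / 2 : ℝ) ^ (z - x) ≤ ∑ x ∈ range (S.max' h + 1), (1 / 2 : ℝ) ^ (z - x) :=
          sum_le_sum_of_subset_of_nonneg h1 fun x _ _ => by positivity
      _ ≤ 2 * (1 / 2 : ℝ) ^ (z - S.max' h) := geom_last z _ (hS _ (S.max'_mem h))
      _ ≤ 2 * c := by
        have := hS' _ (S.max'_mem h)
        linarith

/-- Every octave is charged to the first later place where the width is large. -/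
theorem charge_sum {C₀ : ℝ} {U : ℕ → ℝ} {a b : ℕ} (hC₀ : 0 ≤ C₀) (hU : ∀ x, 0 ≤ U x) (L : ℕ → ℕ)
    (hL : ∀ x, a ≤ x → x < b → x + L x ≤ b ∧ (x + L x = b ∨ (1 / 2 : ℝ) ^ L x < C₀ * U (x + L x))) :
    ∑ x ∈ Ico a b, (1 / 2 : ℝ) ^ L x ≤ 2 * C₀ * ∑ z ∈ Ico a b, U z + 1 := by
  classical
  have hmaps : ∀ x ∈ Ico a b, x + L x ∈ Ico a b ∪ {b} := by
    intro x hx
    rw [mem_Ico] at hx
    have := (hL x hx.1 hx.2).1
    rw [mem_union, mem_Ico, mem_singleton]
    omega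
  rw [← sum_fiberwise_of_maps_to hmaps, sum_union (by simp), sum_singleton]
  have h1 : ∑ z ∈ Ico a b, ∑ x ∈ (Ico a b).filter (fun x => x + L x = z), (1 / 2 : ℝ) ^ L x
      ≤ ∑ z ∈ Ico a b, 2 * (C₀ * U z) := by
    refine sum_le_sum fun z hz => ?_
    rw [mem_Ico] at hz
    have h2 : ∑ x ∈ (Ico a b).filter (fun x => x + L x = z), (1 / 2 : ℝ) ^ L x
        = ∑ x ∈ (Ico a b).filter (fun x => x + L x = z), (1 / 2 : ℝ) ^ (z - x) :=
      sum_congr rfl fun x hx => by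
        have := (mem_filter.1 hx).2
        rw [show z - x = L x by omega]
    rw [h2]
    refine geom_set (mul_nonneg hC₀ (hU z)) _ (fun x hx => ?_) fun x hx => ?_
    · have := (mem_filter.1 hx).2
      omega
    · obtain ⟨h3, h4⟩ := mem_filter.1 hx
      rw [mem_Ico] at h3
      rcases (hL x h3.1 h3.2).2 with h5 | h5
      · omega
      · rw [h4] at h5
        rw [show z - x = L x by omega]
        exact h5.le
  have h2 : ∑ x ∈ (Ico a b).filter (fun x => x + L x = b), (1 / 2 : ℝ) ^ L x ≤ 1 := by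
    have h3 : ∑ x ∈ (Ico a b).filter (fun x => x + L x = b), (1 / 2 : ℝ) ^ L x
        = ∑ x ∈ (Ico a b).filter (fun x => x + L x = b), (1 / 2 : ℝ) ^ (b - x) :=
      sum_congr rfl fun x hx => by
        have := (mem_filter.1 hx).2
        rw [show b - x = L x by omega]
    rw [h3]
    refine (geom_set (c := 1 / 2) (by norm_num) _ (fun x hx => ?_) fun x hx => ?_).trans (by norm_num)
    · have := (mem_filter.1 hx).2
      omega
    · have h4 := (mem_filter.1 hx).1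
      rw [mem_Ico] at h4
      obtain ⟨k, hk⟩ : ∃ k, b - x = k + 1 := ⟨b - x - 1, by omega⟩
      rw [hk, pow_succ]
      have : (1 / 2 : ℝ) ^ k ≤ 1 := pow_le_one₀ (by norm_num) (by norm_num)
      linarith
  have h3 : ∑ z ∈ Ico a b, 2 * (C₀ * U z) = 2 * C₀ * ∑ z ∈ Ico a b, U z := by
    rw [mul_sum]
    exact sum_congr rfl fun z _ => by ring
  linarith

/-- Growth from the relative increments. -/
theorem growth_rel {E : ℕ → ℝ} {s₀ : ℝ} (hE : ∀ x, 0 < E x) (hs : 0 ≤ s₀) {x : ℕ} : ∀ n : ℕ,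
    (∀ j, j < n → E (x + j + 1) ≤ (1 + s₀) * E (x + j)) → (∀ j, j < n → E (x + j) ≤ E (x + j + 1)) →
    E (x + n) ≤ (1 + s₀) ^ n * E x ∧
      E (x + n) - E x ≤ (1 + s₀) ^ n * E x * ∑ j ∈ range n, (E (x + j + 1) / E (x + j) - 1) := by
  intro n
  induction n with
  | zero => intro _ _; simp
  | succ n ih =>
    intro h h'
    obtain ⟨h1, h2⟩ := ih (fun j hj => h j (by omega)) fun j hj => h' j (by omega)
    have h3 := h n (by omega)
    have h4 := h' n (by omega)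
    have hEx := hE x
    have hEn := hE (x + n)
    have hp : (0 : ℝ) < (1 + s₀) ^ n := by positivity
    have h5 : E (x + (n + 1)) = E (x + n + 1) := rfl
    refine ⟨?_, ?_⟩
    · rw [h5, pow_succ]
      calc E (x + n + 1) ≤ (1 + s₀) * E (x + n) := h3
        _ ≤ (1 + s₀) * ((1 + s₀) ^ n * E x) := mul_le_mul_of_nonneg_left h1 (by positivity)
        _ = (1 + s₀) ^ n * (1 + s₀) * E x := by ring
    · rw [h5, sum_range_succ]
      have h6 : E (x + n + 1) - E (x + n) = E (x + n) * (E (x + n + 1) / E (x + n) - 1) := by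
        field_simp
      have h7 : 0 ≤ E (x + n + 1) / E (x + n) - 1 := by
        rw [sub_nonneg, le_div_iff₀ hEn, one_mul]
        exact h4
      have h8 : 0 ≤ ∑ j ∈ range n, (E (x + j + 1) / E (x + j) - 1) := sum_nonneg fun j hj => by
        rw [sub_nonneg, le_div_iff₀ (hE _), one_mul]
        exact h' j (by have := mem_range.1 hj; omega)
      have h9 : E (x + n) * (E (x + n + 1) / E (x + n) - 1) ≤ (1 + s₀) ^ n * E x * (E (x + n + 1) / E (x + n) - 1) :=
        mul_le_mul_of_nonneg_right h1 h7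
      have h10 : (1 + s₀) ^ n * E x ≤ (1 + s₀) ^ (n + 1) * E x := by
        rw [pow_succ]
        nlinarith [mul_pos hp hEx]
      calc E (x + n + 1) - E x = (E (x + n + 1) - E (x + n)) + (E (x + n) - E x) := by ring
        _ ≤ (1 + s₀) ^ n * E x * (E (x + n + 1) / E (x + n) - 1)
            + (1 + s₀) ^ n * E x * ∑ j ∈ range n, (E (x + j + 1) / E (x + j) - 1) := by
          rw [h6]
          exact add_le_add h9 h2
        _ = (1 + s₀) ^ n * E x * (∑ j ∈ range n, (E (x + j + 1) / E (x + j) - 1) + (E (x + n + 1) / E (x + n) - 1)) := by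
          ring
        _ ≤ _ := mul_le_mul_of_nonneg_right h10 (by positivity)

/-- Growth along a stretch of slow octaves. -/
theorem growth_stretch {C₁ : ℝ} (hC₁ : 0 ≤ C₁) : ∃ K₁ : ℝ, 0 < K₁ ∧ ∀ l₁ m : ℕ,
    ∃ K₂ : ℝ, 0 < K₂ ∧ ∀ (C₀ ε s₀ : ℝ) (E U : ℕ → ℝ) (a b : ℕ), 0 ≤ C₀ → 0 ≤ ε → ε ≤ 1 → 0 ≤ s₀ → s₀ ≤ 1 / 4 → a ≤ b →
      (∀ x, 0 < E x) → Monotone E → (∀ x, 0 ≤ U x) → (∀ x, a ≤ x → x < b → E (x + 1) ≤ (1 + s₀) * E x) →
      (∀ x y, a ≤ x → x + l₁ ≤ y → y + m < b → (∀ z, x ≤ z → z ≤ y → C₀ * U z ≤ (1 / 2 : ℝ) ^ (z - x)) →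
        E (x + 1) - E x ≤ C₁ * (1 / 2 : ℝ) ^ (y - x) * (E (y + m) - E x + ε * E (y + m))) →
      Real.logb 2 (E b) - Real.logb 2 (E a) ≤ (K₁ * ε + K₂ * s₀) * (C₀ * ∑ z ∈ Ico a b, U z + 1) := by
  classical
  refine ⟨16 * (C₁ + 1), by positivity, fun l₁ m => ?_⟩
  -- the constant `l₀`
  obtain ⟨l₀, hl₀1, hl₀⟩ : ∃ l₀ : ℕ, l₁ ≤ l₀ ∧ 20 * C₁ * (5 / 4 : ℝ) ^ (2 * m) * (4 / 5 : ℝ) ^ l₀ ≤ 1 := by
    obtain ⟨n, hn⟩ := exists_pow_lt_of_lt_one (show (0 : ℝ) < 1 / (20 * C₁ * (5 / 4 : ℝ) ^ (2 * m) + 1) by positivity)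
      (show (4 / 5 : ℝ) < 1 by norm_num)
    refine ⟨l₁ + n, by omega, ?_⟩
    have h1 : (4 / 5 : ℝ) ^ (l₁ + n) ≤ (4 / 5 : ℝ) ^ n :=
      pow_le_pow_of_le_one (by norm_num) (by norm_num) (by omega)
    rw [lt_div_iff₀ (by positivity)] at hn
    have h2 : (0 : ℝ) ≤ 20 * C₁ * (5 / 4 : ℝ) ^ (2 * m) := by positivity
    have h3 : (0 : ℝ) < (4 / 5 : ℝ) ^ n := by positivity
    nlinarith
  set B : ℝ := 2 ^ (l₀ + 1) + m + 1 with hB
  have hB0 : 0 < B := by positivity
  refine ⟨8 * B, by positivity, ?_⟩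
  intro C₀ ε s₀ E U a b hC₀ hε hε1 hs hs1 hab hE hmono hU hD hX
  set d : ℕ → ℝ := fun x => E (x + 1) / E x - 1 with hd
  have hd0 : ∀ x, 0 ≤ d x := fun x => by
    rw [hd]
    show 0 ≤ E (x + 1) / E x - 1
    rw [sub_nonneg, le_div_iff₀ (hE _), one_mul]
    exact hmono (Nat.le_succ x)
  have hds : ∀ x, a ≤ x → x < b → d x ≤ s₀ := fun x h1 h2 => by
    show E (x + 1) / E x - 1 ≤ s₀
    have := hD x h1 h2
    rw [sub_le_iff_le_add, div_le_iff₀ (hE x)]
    linarith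
  set D : ℝ := ∑ x ∈ Ico a b, d x with hDdef
  -- the last `m + 1` octaves are set apart
  set b' : ℕ := b - (m + 1) with hb'
  -- the first place where the width is large
  have hex : ∀ x : ℕ, ∃ l : ℕ, b' ≤ x + l ∨ (1 / 2 : ℝ) ^ l < C₀ * U (x + l) := fun x => ⟨b', Or.inl (by omega)⟩
  set L : ℕ → ℕ := fun x => Nat.find (hex x) with hL
  have hLspec : ∀ x, b' ≤ x + L x ∨ (1 / 2 : ℝ) ^ L x < C₀ * U (x + L x) := fun x => Nat.find_spec (hex x)
  have hLmin : ∀ x j, j < L x → x + j < b' ∧ C₀ * U (x + j) ≤ (1 / 2 : ℝ) ^ j := by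
    intro x j hj
    have := Nat.find_min (hex x) hj
    rw [not_or, not_le, not_lt] at this
    exact this
  have hLb : ∀ x, x < b' → x + L x ≤ b' := by
    intro x hx
    rcases Nat.eq_zero_or_pos (L x) with h | h
    · omega
    · have := (hLmin x (L x - 1) (by omega)).1
      omega
  have hW : ∑ x ∈ Ico a b', (1 / 2 : ℝ) ^ L x ≤ 2 * C₀ * ∑ z ∈ Ico a b', U z + 1 := by
    refine charge_sum hC₀ hU L fun x h1 h2 => ⟨hLb x h2, ?_⟩
    rcases hLspec x with h | h
    · left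
      have := hLb x h2
      omega
    · exact Or.inr h
  -- the bound at one octave
  have hone : ∀ x, a ≤ x → x < b' → d x ≤ (s₀ * 2 ^ (l₀ + 1) + 2 * (ε * C₁)) * (1 / 2 : ℝ) ^ L x
      + ∑ j ∈ range (b - x), (if x + j < b then (4 / 5 : ℝ) ^ j * d (x + j) else 0)
        * (2 * C₁ * (5 / 4 : ℝ) ^ (2 * m) * (4 / 5 : ℝ) ^ l₀) := by
    intro x h1 h2
    have hsum0 : 0 ≤ ∑ j ∈ range (b - x), (if x + j < b then (4 / 5 : ℝ) ^ j * d (x + j) else 0)
        * (2 * C₁ * (5 / 4 : ℝ) ^ (2 * m) * (4 / 5 : ℝ) ^ l₀) := by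
      refine sum_nonneg fun j _ => mul_nonneg ?_ (by positivity)
      split_ifs
      · exact mul_nonneg (by positivity) (hd0 _)
      · exact le_rfl
    have hw0 : (0 : ℝ) < (1 / 2 : ℝ) ^ L x := by positivity
    rcases Nat.lt_or_ge l₀ (L x - 1) with hlt | hge
    · -- long tubes
      obtain ⟨l, hl⟩ : ∃ l, L x = l + 1 := ⟨L x - 1, by omega⟩
      have hll : l₀ < l := by omega
      have hxl := (hLmin x l (by omega)).1
      have h3 := hX x (x + l) h1 (by omega) (by omega) (fun z hz1 hz2 => by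
        have h4 := (hLmin x (z - x) (by omega)).2
        rwa [show x + (z - x) = z by omega] at h4)
      rw [show x + l - x = l by omega] at h3
      have h5 := growth_rel hE hs (x := x) (l + m) (fun j hj => hD (x + j) (by omega) (by omega))
        fun j _ => hmono (Nat.le_succ _)
      rw [show x + (l + m) = x + l + m by omega] at h5
      obtain ⟨h6, h7⟩ := h5
      have hEx := hE x
      set S : ℝ := ∑ j ∈ range (l + m), d (x + j) with hSdef
      have hS0 : 0 ≤ S := sum_nonneg fun j _ => hd0 _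
      have h8 : E (x + l + m) - E x ≤ (5 / 4 : ℝ) ^ (l + m) * E x * S := by
        refine h7.trans ?_
        refine mul_le_mul_of_nonneg_right (mul_le_mul_of_nonneg_right ?_ hEx.le) hS0
        exact pow_le_pow_left₀ (by positivity) (by linarith) _
      have h9 : E (x + 1) - E x ≤ C₁ * (1 / 2 : ℝ) ^ l * (2 * ((5 / 4 : ℝ) ^ (l + m) * E x * S) + ε * E x) := by
        refine h3.trans (mul_le_mul_of_nonneg_left ?_ (by positivity))
        have h10 : ε * (E (x + l + m) - E x) ≤ 1 * ((5 / 4 : ℝ) ^ (l + m) * E x * S) := by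
          have h11 : 0 ≤ E (x + l + m) - E x := sub_nonneg.2 (hmono (by omega))
          exact mul_le_mul hε1 h8 h11 (by norm_num)
        nlinarith
      have h10 : d x ≤ C₁ * (1 / 2 : ℝ) ^ l * (2 * ((5 / 4 : ℝ) ^ (l + m) * S) + ε) := by
        have h11 : d x * E x = E (x + 1) - E x := by
          show (E (x + 1) / E x - 1) * E x = _
          field_simp
        have h12 : d x * E x ≤ (C₁ * (1 / 2 : ℝ) ^ l * (2 * ((5 / 4 : ℝ) ^ (l + m) * S) + ε)) * E x := by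
          rw [h11]
          refine h9.trans (le_of_eq ?_)
          ring
        exact le_of_mul_le_mul_right h12 hEx
      have h13 : (1 / 2 : ℝ) ^ L x = (1 / 2 : ℝ) ^ l * (1 / 2) := by rw [hl, pow_succ]
      -- the sum of the increments
      have h14 : C₁ * (1 / 2 : ℝ) ^ l * (2 * ((5 / 4 : ℝ) ^ (l + m) * S))
          ≤ ∑ j ∈ range (b - x), (if x + j < b then (4 / 5 : ℝ) ^ j * d (x + j) else 0)
            * (2 * C₁ * (5 / 4 : ℝ) ^ (2 * m) * (4 / 5 : ℝ) ^ l₀) := by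
        have h15 : C₁ * (1 / 2 : ℝ) ^ l * (2 * ((5 / 4 : ℝ) ^ (l + m) * S))
            = ∑ j ∈ range (l + m), d (x + j) * (2 * C₁ * ((1 / 2 : ℝ) ^ l * (5 / 4 : ℝ) ^ (l + m))) := by
          rw [← sum_mul, ← hSdef]
          ring
        rw [h15]
        have hsub : range (l + m) ⊆ range (b - x) := by
          intro j hj
          rw [mem_range] at hj ⊢
          omega
        refine le_trans (sum_le_sum fun j hj => ?_) (sum_le_sum_of_subset_of_nonneg hsub fun j _ _ => ?_)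
        · rw [mem_range] at hj
          rw [if_pos (by omega)]
          have h16 : (1 / 2 : ℝ) ^ l * (5 / 4 : ℝ) ^ (l + m) ≤ (5 / 4 : ℝ) ^ (2 * m) * (4 / 5 : ℝ) ^ l₀ * (4 / 5 : ℝ) ^ j := by
            have h17 : (1 / 2 : ℝ) ^ l * (5 / 4 : ℝ) ^ (l + m) = (5 / 8 : ℝ) ^ l * (5 / 4 : ℝ) ^ m := by
              rw [pow_add, ← mul_assoc, ← mul_pow]
              norm_num
            have h18 : (5 / 8 : ℝ) ^ l ≤ (4 / 5 : ℝ) ^ l * (4 / 5 : ℝ) ^ l := by
              rw [← mul_pow]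
              exact pow_le_pow_left₀ (by norm_num) (by norm_num) l
            have h19 : (4 / 5 : ℝ) ^ l ≤ (4 / 5 : ℝ) ^ l₀ := pow_le_pow_of_le_one (by norm_num) (by norm_num) hll.le
            have h20 : (4 / 5 : ℝ) ^ l ≤ (5 / 4 : ℝ) ^ m * (4 / 5 : ℝ) ^ j := by
              have h21 : (4 / 5 : ℝ) ^ (l + m) ≤ (4 / 5 : ℝ) ^ j := pow_le_pow_of_le_one (by norm_num) (by norm_num) hj.le
              have h22 : (4 / 5 : ℝ) ^ l = (5 / 4 : ℝ) ^ m * (4 / 5 : ℝ) ^ (l + m) := by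
                rw [pow_add]
                have h23 : (5 / 4 : ℝ) ^ m * (4 / 5 : ℝ) ^ m = 1 := by
                  rw [← mul_pow]
                  norm_num
                linear_combination (-(4 / 5 : ℝ) ^ l) * h23
              rw [h22]
              exact mul_le_mul_of_nonneg_left h21 (by positivity)
            rw [h17]
            calc (5 / 8 : ℝ) ^ l * (5 / 4 : ℝ) ^ m ≤ ((4 / 5 : ℝ) ^ l * (4 / 5 : ℝ) ^ l) * (5 / 4 : ℝ) ^ m :=
                  mul_le_mul_of_nonneg_right h18 (by positivity)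
              _ ≤ ((4 / 5 : ℝ) ^ l₀ * ((5 / 4 : ℝ) ^ m * (4 / 5 : ℝ) ^ j)) * (5 / 4 : ℝ) ^ m := by
                  refine mul_le_mul_of_nonneg_right ?_ (by positivity)
                  exact mul_le_mul h19 h20 (by positivity) (by positivity)
              _ = (5 / 4 : ℝ) ^ (2 * m) * (4 / 5 : ℝ) ^ l₀ * (4 / 5 : ℝ) ^ j := by
                  rw [two_mul, pow_add]
                  ring
          have h24 : d (x + j) * (2 * C₁ * ((1 / 2 : ℝ) ^ l * (5 / 4 : ℝ) ^ (l + m)))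
              ≤ d (x + j) * (2 * C₁ * ((5 / 4 : ℝ) ^ (2 * m) * (4 / 5 : ℝ) ^ l₀ * (4 / 5 : ℝ) ^ j)) :=
            mul_le_mul_of_nonneg_left (mul_le_mul_of_nonneg_left h16 (by positivity)) (hd0 _)
          refine h24.trans (le_of_eq ?_)
          ring
        · refine mul_nonneg ?_ (by positivity)
          split_ifs
          · exact mul_nonneg (by positivity) (hd0 _)
          · exact le_rfl
      have h25 : C₁ * (1 / 2 : ℝ) ^ l * ε ≤ (s₀ * 2 ^ (l₀ + 1) + 2 * (ε * C₁)) * (1 / 2 : ℝ) ^ L x := by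
        rw [h13]
        have h26 : 0 ≤ s₀ * 2 ^ (l₀ + 1) * ((1 / 2 : ℝ) ^ l * (1 / 2)) := by positivity
        nlinarith
      calc d x ≤ C₁ * (1 / 2 : ℝ) ^ l * (2 * ((5 / 4 : ℝ) ^ (l + m) * S) + ε) := h10
        _ = C₁ * (1 / 2 : ℝ) ^ l * ε + C₁ * (1 / 2 : ℝ) ^ l * (2 * ((5 / 4 : ℝ) ^ (l + m) * S)) := by ring
        _ ≤ _ := add_le_add h25 h14
    · -- short tubes
      have h3 : d x ≤ s₀ := hds x h1 (by omega)
      have h4 : (1 : ℝ) ≤ 2 ^ (l₀ + 1) * (1 / 2 : ℝ) ^ L x := by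
        have h5 : (1 / 2 : ℝ) ^ (l₀ + 1) ≤ (1 / 2 : ℝ) ^ L x :=
          pow_le_pow_of_le_one (by norm_num) (by norm_num) (by omega)
        have h6 : (2 : ℝ) ^ (l₀ + 1) * (1 / 2 : ℝ) ^ (l₀ + 1) = 1 := by
          rw [← mul_pow]
          norm_num
        calc (1 : ℝ) = (2 : ℝ) ^ (l₀ + 1) * (1 / 2 : ℝ) ^ (l₀ + 1) := h6.symm
          _ ≤ _ := mul_le_mul_of_nonneg_left h5 (by positivity)
      have h5 : s₀ * 1 ≤ s₀ * (2 ^ (l₀ + 1) * (1 / 2 : ℝ) ^ L x) := mul_le_mul_of_nonneg_left h4 hs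
      have h6 : 0 ≤ 2 * (ε * C₁) * (1 / 2 : ℝ) ^ L x := by positivity
      nlinarith
  -- the double sum
  have hdouble : ∑ x ∈ Ico a b', ∑ j ∈ range (b - x), (if x + j < b then (4 / 5 : ℝ) ^ j * d (x + j) else 0)
      * (2 * C₁ * (5 / 4 : ℝ) ^ (2 * m) * (4 / 5 : ℝ) ^ l₀) ≤ D / 2 := by
    set q : ℝ := 2 * C₁ * (5 / 4 : ℝ) ^ (2 * m) * (4 / 5 : ℝ) ^ l₀ with hq
    have hq0 : 0 ≤ q := by positivity
    have h1 : ∀ x ∈ Ico a b', ∑ j ∈ range (b - x), (if x + j < b then (4 / 5 : ℝ) ^ j * d (x + j) else 0) * q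
        ≤ ∑ z ∈ Ico a b, (if x ≤ z then (4 / 5 : ℝ) ^ (z - x) * d z else 0) * q := by
      intro x hx
      rw [mem_Ico] at hx
      have h2 : ∑ j ∈ range (b - x), (if x + j < b then (4 / 5 : ℝ) ^ j * d (x + j) else 0) * q
          = ∑ z ∈ Ico x b, (4 / 5 : ℝ) ^ (z - x) * d z * q := by
        rw [sum_Ico_eq_sum_range]
        refine sum_congr rfl fun j hj => ?_
        rw [mem_range] at hj
        rw [if_pos (by omega), show x + j - x = j by omega]
      rw [h2]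
      have hsub : Ico x b ⊆ Ico a b := Ico_subset_Ico_left hx.1
      refine le_trans (sum_le_sum fun z hz => ?_) (sum_le_sum_of_subset_of_nonneg hsub fun z _ _ => ?_)
      · rw [mem_Ico] at hz
        rw [if_pos hz.1]
      · refine mul_nonneg ?_ hq0
        split_ifs
        · exact mul_nonneg (by positivity) (hd0 _)
        · exact le_rfl
    refine (sum_le_sum h1).trans ?_
    rw [sum_comm]
    have h3 : ∀ z ∈ Ico a b, ∑ x ∈ Ico a b', (if x ≤ z then (4 / 5 : ℝ) ^ (z - x) * d z else 0) * q ≤ d z * (5 * q) := by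
      intro z _
      -- geometric sum
      have h4 : ∑ x ∈ Ico a b', (if x ≤ z then (4 / 5 : ℝ) ^ (z - x) else 0) ≤ 5 := by
        have h5 : ∑ x ∈ Ico a b', (if x ≤ z then (4 / 5 : ℝ) ^ (z - x) else 0)
            ≤ ∑ x ∈ range (z + 1), (4 / 5 : ℝ) ^ (z - x) := by
          rw [← sum_filter]
          refine sum_le_sum_of_subset_of_nonneg (fun x hx => ?_) fun x _ _ => by positivity
          have := (mem_filter.1 hx).2
          rw [mem_range]
          omega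
        refine h5.trans ?_
        have h6 : ∑ x ∈ range (z + 1), (4 / 5 : ℝ) ^ (z - x) = ∑ x ∈ range (z + 1), (4 / 5 : ℝ) ^ x := by
          rw [← sum_range_reflect]
          refine sum_congr rfl fun x hx => ?_
          rw [mem_range] at hx
          congr 1
          omega
        rw [h6, geom_sum_eq (by norm_num)]
        have h7 : (0 : ℝ) < (4 / 5 : ℝ) ^ (z + 1) := by positivity
        rw [div_le_iff_of_neg (by norm_num)]
        linarith
      have h5 : ∑ x ∈ Ico a b', (if x ≤ z then (4 / 5 : ℝ) ^ (z - x) * d z else 0) * q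
          = (∑ x ∈ Ico a b', (if x ≤ z then (4 / 5 : ℝ) ^ (z - x) else 0)) * (d z * q) := by
        rw [sum_mul]
        refine sum_congr rfl fun x _ => ?_
        split_ifs
        · ring
        · ring
      rw [h5]
      have h6 : 0 ≤ d z * q := mul_nonneg (hd0 z) hq0
      have h7 := mul_le_mul_of_nonneg_right h4 h6
      refine h7.trans (le_of_eq ?_)
      ring
    refine (sum_le_sum h3).trans ?_
    rw [← sum_mul, ← hDdef]
    have hD0 : 0 ≤ D := sum_nonneg fun x _ => hd0 x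
    have h8 : 5 * q ≤ 1 / 2 := by
      have h9 : 5 * q = 20 * C₁ * (5 / 4 : ℝ) ^ (2 * m) * (4 / 5 : ℝ) ^ l₀ / 2 := by
        rw [hq]
        ring
      rw [h9]
      linarith
    have h10 := mul_le_mul_of_nonneg_left h8 hD0
    linarith
  -- the last octaves
  have hlast : ∑ x ∈ Ico (max a b') b, d x ≤ (m + 1) * s₀ := by
    refine (sum_le_card_nsmul _ _ s₀ fun x hx => ?_).trans ?_
    · rw [mem_Ico] at hx
      exact hds x (le_trans (le_max_left _ _) hx.1) hx.2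
    · rw [nsmul_eq_mul, Nat.card_Ico]
      refine mul_le_mul_of_nonneg_right ?_ hs
      have h1 : b - max a b' ≤ m + 1 := by
        have := le_max_right a b'
        omega
      exact_mod_cast h1
  have hsplit : D = ∑ x ∈ Ico a (max a b'), d x + ∑ x ∈ Ico (max a b') b, d x := by
    rw [hDdef]
    exact (sum_Ico_consecutive d (le_max_left a b') (max_le hab (by omega))).symm
  have hfirst : ∑ x ∈ Ico a (max a b'), d x = ∑ x ∈ Ico a b', d x := by
    rcases le_total a b' with h | h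
    · rw [max_eq_right h]
    · rw [max_eq_left h, Ico_self, Ico_eq_empty_of_le h]
  have hUsum : ∑ z ∈ Ico a b', U z ≤ ∑ z ∈ Ico a b, U z :=
    sum_le_sum_of_subset_of_nonneg (Ico_subset_Ico_right (by omega)) fun z _ _ => hU z
  have hUs0 : 0 ≤ ∑ z ∈ Ico a b, U z := sum_nonneg fun z _ => hU z
  have hD1 : D ≤ (s₀ * 2 ^ (l₀ + 1) + 2 * (ε * C₁)) * (2 * C₀ * ∑ z ∈ Ico a b, U z + 1) + D / 2 + (m + 1) * s₀ := by
    have h1 : ∑ x ∈ Ico a b', d x ≤ (s₀ * 2 ^ (l₀ + 1) + 2 * (ε * C₁)) * ∑ x ∈ Ico a b', (1 / 2 : ℝ) ^ L x + D / 2 := by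
      calc ∑ x ∈ Ico a b', d x ≤ ∑ x ∈ Ico a b', ((s₀ * 2 ^ (l₀ + 1) + 2 * (ε * C₁)) * (1 / 2 : ℝ) ^ L x
            + ∑ j ∈ range (b - x), (if x + j < b then (4 / 5 : ℝ) ^ j * d (x + j) else 0)
              * (2 * C₁ * (5 / 4 : ℝ) ^ (2 * m) * (4 / 5 : ℝ) ^ l₀)) :=
            sum_le_sum fun x hx => hone x (mem_Ico.1 hx).1 (mem_Ico.1 hx).2
        _ = (s₀ * 2 ^ (l₀ + 1) + 2 * (ε * C₁)) * ∑ x ∈ Ico a b', (1 / 2 : ℝ) ^ L x
            + ∑ x ∈ Ico a b', ∑ j ∈ range (b - x), (if x + j < b then (4 / 5 : ℝ) ^ j * d (x + j) else 0)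
              * (2 * C₁ * (5 / 4 : ℝ) ^ (2 * m) * (4 / 5 : ℝ) ^ l₀) := by
            rw [sum_add_distrib, mul_sum]
        _ ≤ _ := by linarith
    have h2 : (s₀ * 2 ^ (l₀ + 1) + 2 * (ε * C₁)) * ∑ x ∈ Ico a b', (1 / 2 : ℝ) ^ L x
        ≤ (s₀ * 2 ^ (l₀ + 1) + 2 * (ε * C₁)) * (2 * C₀ * ∑ z ∈ Ico a b, U z + 1) := by
      refine mul_le_mul_of_nonneg_left (hW.trans ?_) (by positivity)
      have := mul_le_mul_of_nonneg_left hUsum (by positivity : (0 : ℝ) ≤ 2 * C₀)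
      linarith
    linarith
  -- from the relative increments to the logarithm
  have hlog : Real.logb 2 (E b) - Real.logb 2 (E a) ≤ 2 * D := by
    have h1 : ∀ x, a ≤ x → Real.logb 2 (E x) - Real.logb 2 (E a) ≤ 2 * ∑ z ∈ Ico a x, d z := by
      intro x hx
      induction x, hx using Nat.le_induction with
      | base => simp
      | succ x hx ih =>
        rw [sum_Ico_succ_top hx]
        have h2 : Real.logb 2 (E (x + 1)) - Real.logb 2 (E x) ≤ 2 * d x := by
          rw [← Real.logb_div (hE _).ne' (hE _).ne', Real.logb, div_le_iff₀ (Real.log_pos (by norm_num))]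
          have h3 : 0 < E (x + 1) / E x := div_pos (hE _) (hE _)
          have h4 := Real.log_le_sub_one_of_pos h3
          have h5 : (1 / 2 : ℝ) ≤ Real.log 2 := by
            have := Real.log_two_gt_d9
            linarith
          have h6 : d x = E (x + 1) / E x - 1 := rfl
          have h7 := hd0 x
          nlinarith
        linarith
    exact h1 b hab
  have hfin : D ≤ 2 * ((s₀ * 2 ^ (l₀ + 1) + 2 * (ε * C₁)) * (2 * C₀ * ∑ z ∈ Ico a b, U z + 1) + (m + 1) * s₀) := by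
    linarith
  have hP0 : 0 ≤ C₀ * ∑ z ∈ Ico a b, U z := mul_nonneg hC₀ hUs0
  have hB1 : s₀ * 2 ^ (l₀ + 1) + 2 * (ε * C₁) + (m + 1) * s₀ ≤ 2 * (C₁ + 1) * ε + B * s₀ := by
    rw [hB]
    nlinarith
  have hm0 : 0 ≤ (m + 1) * s₀ := by positivity
  calc Real.logb 2 (E b) - Real.logb 2 (E a) ≤ 2 * D := hlog
    _ ≤ 4 * ((s₀ * 2 ^ (l₀ + 1) + 2 * (ε * C₁)) * (2 * C₀ * ∑ z ∈ Ico a b, U z + 1) + (m + 1) * s₀) := by linarith
    _ ≤ 4 * ((s₀ * 2 ^ (l₀ + 1) + 2 * (ε * C₁)) * (2 * (C₀ * ∑ z ∈ Ico a b, U z + 1))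
        + (m + 1) * s₀ * (2 * (C₀ * ∑ z ∈ Ico a b, U z + 1))) := by
        have h1 : 0 ≤ s₀ * 2 ^ (l₀ + 1) + 2 * (ε * C₁) := by positivity
        have h2 : 2 * C₀ * ∑ z ∈ Ico a b, U z + 1 ≤ 2 * (C₀ * ∑ z ∈ Ico a b, U z + 1) := by linarith
        have h3 := mul_le_mul_of_nonneg_left h2 h1
        have h4 : (m + 1) * s₀ * 1 ≤ (m + 1) * s₀ * (2 * (C₀ * ∑ z ∈ Ico a b, U z + 1)) :=
          mul_le_mul_of_nonneg_left (by linarith) hm0
        linarith
    _ = 8 * ((s₀ * 2 ^ (l₀ + 1) + 2 * (ε * C₁) + (m + 1) * s₀) * (C₀ * ∑ z ∈ Ico a b, U z + 1)) := by ring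
    _ ≤ 8 * ((2 * (C₁ + 1) * ε + B * s₀) * (C₀ * ∑ z ∈ Ico a b, U z + 1)) := by
        have h1 : 0 ≤ C₀ * ∑ z ∈ Ico a b, U z + 1 := by linarith
        have := mul_le_mul_of_nonneg_right hB1 h1
        linarith
    _ = (16 * (C₁ + 1) * ε + 8 * B * s₀) * (C₀ * ∑ z ∈ Ico a b, U z + 1) := by ring

end Pool.Agent.W_7d29a1_g
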