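import Pool.Agent.W_7d29a1_g.ChainFin
import Pool.Agent.W_7d29a1_g.Stretch

/-!
MP_7d29a1_pr (G+, track G): section 8 of row 619 (growth on a stretch without soft scale). `f` is the closing of the cone. The width of the
edge is built from `f` alone: `Ust`, `U8`. The sum of the widths over a stretch is at most a constant times `(m + 1)` times the closing
(`sum_U8`). `stretch_of_octave` is THEOREM D4 from the inequality for one octave (section 7) and the sum (`growth_stretch`).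
-/

set_option autoImplicit false

open Finset

namespace Pool.Agent.W_7d29a1_g

/-- The width at one octave (row 619, section 7). -/
noncomputable def Ust (f : ℕ → ℝ) (a k₀ z : ℕ) : ℝ :=
  ∑ j ∈ range (z - a - k₀ + 1), (2 : ℝ) ^ (-(j : ℝ) / 8) * (f (z + 3) - f (z - j - k₀))

/-- The width used at the octave `z` (row 619, section 7, with a sum instead of a maximum). -/
noncomputable def U8 (f : ℕ → ℝ) (a k₀ m z : ℕ) : ℝ :=
  ∑ z' ∈ Icc z (z + m), Ust f a k₀ z' + (f (z + m + 3) - f (z - k₀))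

theorem Ust_nonneg {f : ℕ → ℝ} (hf : Monotone f) (a k₀ z : ℕ) : 0 ≤ Ust f a k₀ z :=
  sum_nonneg fun j _ => mul_nonneg (by positivity) (by linarith [hf (by omega : z - j - k₀ ≤ z + 3)])

theorem U8_nonneg {f : ℕ → ℝ} (hf : Monotone f) (a k₀ m z : ℕ) : 0 ≤ U8 f a k₀ m z :=
  add_nonneg (sum_nonneg fun z' _ => Ust_nonneg hf a k₀ z') (by linarith [hf (by omega : z - k₀ ≤ z + m + 3)])

theorem Ust_le_U8 {f : ℕ → ℝ} (hf : Monotone f) {a k₀ m z z' : ℕ} (h : z ≤ z') (h' : z' ≤ z + m) :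
    Ust f a k₀ z' ≤ U8 f a k₀ m z := by
  have h1 : Ust f a k₀ z' ≤ ∑ z' ∈ Icc z (z + m), Ust f a k₀ z' :=
    single_le_sum (f := fun z' => Ust f a k₀ z') (fun i _ => Ust_nonneg hf a k₀ i) (mem_Icc.2 ⟨h, h'⟩)
  have h2 := hf (by omega : z - k₀ ≤ z + m + 3)
  unfold U8
  linarith

theorem closing_le_U8 {f : ℕ → ℝ} (hf : Monotone f) (a k₀ m z : ℕ) : f (z + m + 3) - f (z - k₀) ≤ U8 f a k₀ m z := by
  have h1 : 0 ≤ ∑ z' ∈ Icc z (z + m), Ust f a k₀ z' := sum_nonneg fun i _ => Ust_nonneg hf a k₀ i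
  unfold U8
  linarith

/-- The weights of the past are summable. -/
theorem exists_sum_weights (k₀ : ℕ) : ∃ C : ℝ, 0 ≤ C ∧ ∀ N : ℕ,
    ∑ j ∈ range N, (2 : ℝ) ^ (-(j : ℝ) / 8) * ((j + k₀ + 3 : ℕ) : ℝ) ≤ C := by
  set q : ℝ := (2 : ℝ) ^ (-(1 / 8 : ℝ)) with hq
  have hq0 : 0 < q := by positivity
  have hq1 : q < 1 := Real.rpow_lt_one_of_one_lt_of_neg (by norm_num) (by norm_num)
  have hqn : ‖q‖ < 1 := by rwa [Real.norm_of_nonneg hq0.le]
  have hpow : ∀ j : ℕ, (2 : ℝ) ^ (-(j : ℝ) / 8) = q ^ j := by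
    intro j
    rw [hq, ← Real.rpow_natCast, ← Real.rpow_mul (by norm_num)]
    congr 1
    ring
  have hs1 : Summable fun j : ℕ => (j : ℝ) ^ 1 * q ^ j := summable_pow_mul_geometric_of_norm_lt_one 1 hqn
  have hs2 : Summable fun j : ℕ => q ^ j := summable_geometric_of_lt_one hq0.le hq1
  have hs : Summable fun j : ℕ => (2 : ℝ) ^ (-(j : ℝ) / 8) * ((j + k₀ + 3 : ℕ) : ℝ) := by
    have h := hs1.add (hs2.mul_left ((k₀ : ℝ) + 3))
    refine h.congr fun j => ?_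
    rw [hpow]
    push_cast
    ring
  refine ⟨∑' j : ℕ, (2 : ℝ) ^ (-(j : ℝ) / 8) * ((j + k₀ + 3 : ℕ) : ℝ), tsum_nonneg fun j => by positivity, fun N => ?_⟩
  exact hs.sum_le_tsum _ fun j _ => by positivity

/-- The sum of the widths `Ust`. -/
theorem sum_Ust {f : ℕ → ℝ} (hf : Monotone f) {C : ℝ} {k₀ : ℕ}
    (hC : ∀ N : ℕ, ∑ j ∈ range N, (2 : ℝ) ^ (-(j : ℝ) / 8) * ((j + k₀ + 3 : ℕ) : ℝ) ≤ C) {a B : ℕ} (hB : a + k₀ ≤ B) :
    ∑ z ∈ Ico (a + k₀) B, Ust f a k₀ z ≤ C * (f (B + 3) - f a) := by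
  set N := B - (a + k₀) with hN
  have h1 : ∀ z ∈ Ico (a + k₀) B, Ust f a k₀ z =
      ∑ j ∈ range N, if a + k₀ + j ≤ z then (2 : ℝ) ^ (-(j : ℝ) / 8) * (f (z + 3) - f (z - j - k₀)) else 0 := by
    intro z hz
    rw [mem_Ico] at hz
    unfold Ust
    rw [← sum_filter]
    apply sum_congr _ fun _ _ => rfl
    ext j
    rw [mem_range, mem_filter, mem_range]
    omega
  rw [sum_congr rfl h1, sum_comm]
  have h2 : ∀ j ∈ range N, (∑ z ∈ Ico (a + k₀) B,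
      if a + k₀ + j ≤ z then (2 : ℝ) ^ (-(j : ℝ) / 8) * (f (z + 3) - f (z - j - k₀)) else 0) ≤
      (2 : ℝ) ^ (-(j : ℝ) / 8) * ((j + k₀ + 3 : ℕ) : ℝ) * (f (B + 3) - f a) := by
    intro j hj
    rw [mem_range] at hj
    rw [← sum_filter, ← mul_sum, mul_assoc]
    apply mul_le_mul_of_nonneg_left _ (by positivity)
    have h3 : (Ico (a + k₀) B).filter (fun z => a + k₀ + j ≤ z) = (Ico a (B - (j + k₀))).map (addRightEmbedding (j + k₀)) := by
      ext z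
      rw [mem_filter, mem_Ico, mem_map]
      constructor
      · rintro ⟨⟨h3, h4⟩, h5⟩
        refine ⟨z - (j + k₀), mem_Ico.2 ⟨by omega, by omega⟩, ?_⟩
        show z - (j + k₀) + (j + k₀) = z
        omega
      · rintro ⟨w, hw, rfl⟩
        rw [mem_Ico] at hw
        show (a + k₀ ≤ w + (j + k₀) ∧ w + (j + k₀) < B) ∧ a + k₀ + j ≤ w + (j + k₀)
        omega
    rw [h3, sum_map]
    have h4 := sum_window hf a (B - (j + k₀)) (by omega) (j + k₀ + 3)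
    have h5 : B - (j + k₀) + (j + k₀ + 3) = B + 3 := by omega
    rw [h5] at h4
    refine le_trans (le_of_eq ?_) h4
    apply sum_congr rfl
    intro w _
    show f (w + (j + k₀) + 3) - f (w + (j + k₀) - j - k₀) = f (w + (j + k₀ + 3)) - f w
    have h6 : w + (j + k₀) - j - k₀ = w := by omega
    have h7 : w + (j + k₀) + 3 = w + (j + k₀ + 3) := by omega
    rw [h6, h7]
  refine (sum_le_sum h2).trans ?_
  rw [← sum_mul]
  exact mul_le_mul_of_nonneg_right (hC N) (by linarith [hf (by omega : a ≤ B + 3)])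

/-- The sum of the widths `U8` over a stretch (row 619, (8b)). -/
theorem sum_U8 {f : ℕ → ℝ} (hf : Monotone f) {C : ℝ} {k₀ : ℕ}
    (hC : ∀ N : ℕ, ∑ j ∈ range N, (2 : ℝ) ^ (-(j : ℝ) / 8) * ((j + k₀ + 3 : ℕ) : ℝ) ≤ C) {a b m : ℕ}
    (hab : a + k₀ + m + 4 ≤ b) :
    ∑ z ∈ Ico (a + k₀) (b - m - 4), U8 f a k₀ m z ≤ (C + k₀ + 3) * (m + 1) * (f b - f a) := by
  have hC0 : 0 ≤ C := by simpa using hC 0
  unfold U8
  rw [sum_add_distrib]
  have hfab : 0 ≤ f b - f a := by linarith [hf (by omega : a ≤ b)]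
  have h1 : ∑ z ∈ Ico (a + k₀) (b - m - 4), ∑ z' ∈ Icc z (z + m), Ust f a k₀ z' ≤ (m + 1) * (C * (f b - f a)) := by
    have h2 : ∀ z ∈ Ico (a + k₀) (b - m - 4), ∑ z' ∈ Icc z (z + m), Ust f a k₀ z' = ∑ i ∈ range (m + 1), Ust f a k₀ (z + i) := by
      intro z _
      have h3 : Icc z (z + m) = Ico z (z + (m + 1)) := by
        ext x
        rw [mem_Icc, mem_Ico]
        omega
      rw [h3, sum_Ico_eq_sum_range, show z + (m + 1) - z = m + 1 by omega]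
    rw [sum_congr rfl h2, sum_comm]
    have h3 : ∀ i ∈ range (m + 1), ∑ z ∈ Ico (a + k₀) (b - m - 4), Ust f a k₀ (z + i) ≤ C * (f b - f a) := by
      intro i hi
      rw [mem_range] at hi
      have h4 : ∑ z ∈ Ico (a + k₀) (b - m - 4), Ust f a k₀ (z + i) ≤ ∑ z ∈ Ico (a + k₀) (b - 4), Ust f a k₀ z := by
        have h5 : ∑ z ∈ Ico (a + k₀) (b - m - 4), Ust f a k₀ (z + i) =
            ∑ z ∈ (Ico (a + k₀) (b - m - 4)).map (addRightEmbedding i), Ust f a k₀ z := by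
          rw [sum_map]
          rfl
        rw [h5]
        apply sum_le_sum_of_subset_of_nonneg
        · intro z hz
          rw [mem_map] at hz
          obtain ⟨w, hw, rfl⟩ := hz
          rw [mem_Ico] at hw
          show w + i ∈ _
          rw [mem_Ico]
          omega
        · intro z _ _
          exact Ust_nonneg hf a k₀ z
      have h5 := sum_Ust hf hC (a := a) (B := b - 4) (by omega)
      have h6 : f (b - 4 + 3) ≤ f b := hf (by omega)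
      have h7 : C * (f (b - 4 + 3) - f a) ≤ C * (f b - f a) := mul_le_mul_of_nonneg_left (by linarith) hC0
      linarith
    refine (sum_le_sum h3).trans ?_
    rw [sum_const, card_range, nsmul_eq_mul]
    push_cast
    exact le_rfl
  have h2 : ∑ z ∈ Ico (a + k₀) (b - m - 4), (f (z + m + 3) - f (z - k₀)) ≤ ((m + 3 + k₀ : ℕ) : ℝ) * (f b - f a) := by
    have h3 : Ico (a + k₀) (b - m - 4) = (Ico a (b - m - 4 - k₀)).map (addRightEmbedding k₀) := by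
      ext z
      rw [mem_Ico, mem_map]
      constructor
      · rintro ⟨h3, h4⟩
        refine ⟨z - k₀, mem_Ico.2 ⟨by omega, by omega⟩, ?_⟩
        show z - k₀ + k₀ = z
        omega
      · rintro ⟨w, hw, rfl⟩
        rw [mem_Ico] at hw
        show a + k₀ ≤ w + k₀ ∧ w + k₀ < b - m - 4
        omega
    rw [h3, sum_map]
    have h4 := sum_window hf a (b - m - 4 - k₀) (by omega) (m + 3 + k₀)
    have h5 : f (b - m - 4 - k₀ + (m + 3 + k₀)) ≤ f b := hf (by omega)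
    have h6 : ((m + 3 + k₀ : ℕ) : ℝ) * (f (b - m - 4 - k₀ + (m + 3 + k₀)) - f a) ≤ ((m + 3 + k₀ : ℕ) : ℝ) * (f b - f a) :=
      mul_le_mul_of_nonneg_left (by linarith) (by positivity)
    refine le_trans (le_of_eq ?_) (h4.trans h6)
    apply sum_congr rfl
    intro w _
    show f (w + k₀ + m + 3) - f (w + k₀ - k₀) = f (w + (m + 3 + k₀)) - f w
    have h7 : w + k₀ - k₀ = w := by omega
    have h8 : w + k₀ + m + 3 = w + (m + 3 + k₀) := by omega
    rw [h7, h8]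
  have h3 : ((m + 3 + k₀ : ℕ) : ℝ) * (f b - f a) ≤ (k₀ + 3) * (m + 1) * (f b - f a) := by
    apply mul_le_mul_of_nonneg_right _ hfab
    push_cast
    have : (0 : ℝ) ≤ m := Nat.cast_nonneg m
    have : (0 : ℝ) ≤ k₀ := Nat.cast_nonneg k₀
    nlinarith
  have h4 : (C + k₀ + 3) * (m + 1) * (f b - f a) = (m + 1) * (C * (f b - f a)) + (k₀ + 3) * (m + 1) * (f b - f a) := by ring
  linarith

/-- **Row 619, section 8**: THEOREM D4 from the inequality for one octave. `E`, `Em` are the units with positive parts and with means at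
the octaves, `NS i z` says that nothing fluctuates at the octave `z` (level `i`). The widths `U` are arbitrary, their sum is at most
`CU (m + 1)` times the closing of the cone. -/
theorem stretch_gen {ι : Type*} {E Em f : ℕ → ℝ} {NS : ι → ℕ → Prop} {C₀ CU : ℝ} {k₀ k₁ : ℕ} (hf : Monotone f)
    (hEm : Monotone Em)
    (hEm1 : ∀ x, 1 ≤ Em x) (hEmE : ∀ x, Em x ≤ E x) (hE2 : ∀ x, E (x + 1) ≤ 2 * E x) (hC₀ : 0 ≤ C₀) (hCU1 : 1 ≤ CU)
    (hOct : ∀ κ : ℝ, 0 < κ → ∃ (ε : ℝ) (m l₁ : ℕ), 0 < ε ∧ ε ≤ 1 / 8 ∧ ε * (m + 1) ≤ κ ∧ ∀ s₀ : ℝ, 0 < s₀ →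
      ∃ (i : ι) (x₀ : ℕ), ∀ a b, x₀ ≤ a → a ≤ b → (∀ z, a ≤ z → z < b → NS i z) →
        (∀ x, a ≤ x → x < b → Em (x + 1) ≤ (1 + s₀) * Em x) ∧ (∀ z, a ≤ z → z < b → E z ≤ 2 * Em z + 2) ∧
        ∃ U : ℕ → ℝ, (∀ z, 0 ≤ U z) ∧
        (a + k₀ + m + k₁ ≤ b → ∑ z ∈ Ico (a + k₀) (b - m - k₁), U z ≤ CU * (m + 1) * (f b - f a)) ∧
        ∀ x y, a + k₀ ≤ x → x + l₁ ≤ y → y + m + k₁ < b →
          (∀ z, x ≤ z → z ≤ y → C₀ * U z ≤ (1 / 2 : ℝ) ^ (z - x)) →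
          Em (x + 1) - Em x ≤ 2 * (1 / 2 : ℝ) ^ (y - x) * (Em (y + m) - Em x + 8 * ε * Em (y + m))) :
    ∃ (i : ι) (x₀ : ℕ) (C : ℝ), ∀ a b, x₀ ≤ a → a ≤ b → (∀ z, a ≤ z → z < b → NS i z) →
      Real.logb 2 (E b) - Real.logb 2 (E a) ≤ (f b - f a) / 4 + C := by
  obtain ⟨K₁, hK₁, hst⟩ := growth_stretch (C₁ := 2) (by norm_num)
  have hCU0 : 0 < CU := by linarith
  obtain ⟨ε, m, l₁, hε, hε8, hεm, hrest⟩ := hOct (1 / (64 * K₁ * (C₀ + 1) * CU)) (by positivity)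
  obtain ⟨K₂, hK₂, hst2⟩ := hst l₁ m
  set s₀ : ℝ := min (1 / 4) (1 / (8 * K₂ * (C₀ + 1) * CU * (m + 1))) with hs₀
  have hs0 : 0 < s₀ := lt_min (by norm_num) (by positivity)
  have hs1 : s₀ ≤ 1 / 4 := min_le_left _ _
  have hs2 : s₀ ≤ 1 / (8 * K₂ * (C₀ + 1) * CU * (m + 1)) := min_le_right _ _
  obtain ⟨i, x₀, hmain⟩ := hrest s₀ hs0
  have hE0 : ∀ x, 0 < E x := fun x => by linarith [hEm1 x, hEmE x]
  have hEm0 : ∀ x, 0 < Em x := fun x => by linarith [hEm1 x]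
  -- growth of the logarithm over several octaves
  have hgE : ∀ x n : ℕ, Real.logb 2 (E (x + n)) ≤ Real.logb 2 (E x) + n := by
    intro x n
    induction n with
    | zero => simp
    | succ n ih =>
      have h1 : Real.logb 2 (E (x + n + 1)) ≤ Real.logb 2 (2 * E (x + n)) :=
        Real.logb_le_logb_of_le (by norm_num) (hE0 _) (hE2 _)
      rw [Real.logb_mul (by norm_num) (hE0 _).ne', Real.logb_self_eq_one (by norm_num)] at h1
      rw [← add_assoc]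
      push_cast
      linarith
  refine ⟨i, x₀, K₁ + 1 + k₀ + m + k₁ + 16, fun a b ha hab hNS => ?_⟩
  obtain ⟨hD7, hI1, U₁, hU₁, hUsum, hX⟩ := hmain a b ha hab hNS
  have hfab : 0 ≤ f b - f a := by linarith [hf hab]
  have hk0 : (0 : ℝ) ≤ k₀ := Nat.cast_nonneg k₀
  have hm0 : (0 : ℝ) ≤ m := Nat.cast_nonneg m
  have hk1 : (0 : ℝ) ≤ k₁ := Nat.cast_nonneg k₁
  rcases Nat.lt_or_ge b (a + k₀ + m + k₁ + 6) with hb | hb
  · have h1 := hgE a (b - a)
    have h2 : a + (b - a) = b := by omega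
    rw [h2] at h1
    have h3 : ((b - a : ℕ) : ℝ) ≤ k₀ + m + k₁ + 6 := by exact_mod_cast (by omega : b - a ≤ k₀ + m + k₁ + 6)
    linarith
  · -- growth of `Em` over several octaves
    have hgEm : ∀ x n : ℕ, a ≤ x → x + n ≤ b → Real.logb 2 (Em (x + n)) ≤ Real.logb 2 (Em x) + n := by
      intro x n hx
      induction n with
      | zero => simp
      | succ n ih =>
        intro hn
        have h0 := ih (by omega)
        have h1 : Real.logb 2 (Em (x + n + 1)) ≤ Real.logb 2 (2 * Em (x + n)) := by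
          apply Real.logb_le_logb_of_le (by norm_num) (hEm0 _)
          have := hD7 (x + n) (by omega) (by omega)
          have := hEm0 (x + n)
          nlinarith
        rw [Real.logb_mul (by norm_num) (hEm0 _).ne', Real.logb_self_eq_one (by norm_num)] at h1
        rw [← add_assoc]
        push_cast
        linarith
    set a' := a + k₀ with ha'
    set b' := b - k₁ with hb'
    set U : ℕ → ℝ := fun z => if z < b - m - k₁ then U₁ z else 0 with hU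
    have hU0 : ∀ z, 0 ≤ U z := fun z => by
      simp only [hU]
      split_ifs
      · exact hU₁ z
      · exact le_rfl
    have h1 := hst2 C₀ (8 * ε) s₀ Em U a' b' hC₀ (by linarith) (by linarith) hs0.le hs1 (by omega) hEm0 hEm hU0
      (fun x hx1 hx2 => hD7 x (by omega) (by omega))
      (fun x y hx hxy hyb hUz => by
        apply hX x y (by omega) hxy (by omega)
        intro z hz1 hz2
        have h2 := hUz z hz1 hz2
        simp only [hU] at h2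
        rwa [if_pos (by omega)] at h2)
    have h2 : ∑ z ∈ Ico a' b', U z ≤ CU * (m + 1) * (f b - f a) := by
      have h3 : ∑ z ∈ Ico a' b', U z ≤ ∑ z ∈ Ico (a + k₀) (b - m - k₁), U₁ z := by
        have h4 : ∑ z ∈ Ico a' b', U z = ∑ z ∈ (Ico a' b').filter (fun z => z < b - m - k₁), U₁ z := by
          rw [sum_filter]
        rw [h4]
        apply sum_le_sum_of_subset_of_nonneg
        · intro z hz
          rw [mem_filter, mem_Ico] at hz
          rw [mem_Ico]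
          omega
        · intro z _ _
          exact hU₁ z
      exact h3.trans (hUsum (by omega))
    have h3 : (K₁ * (8 * ε) + K₂ * s₀) * (C₀ * ∑ z ∈ Ico a' b', U z + 1) ≤ (f b - f a) / 4 + (K₁ + 1) := by
      have hA : 0 ≤ K₁ * (8 * ε) + K₂ * s₀ := by positivity
      have h4 : (K₁ * (8 * ε) + K₂ * s₀) * (C₀ * ∑ z ∈ Ico a' b', U z + 1) ≤
          (K₁ * (8 * ε) + K₂ * s₀) * ((C₀ + 1) * (CU * (m + 1) * (f b - f a)) + 1) := by
        apply mul_le_mul_of_nonneg_left _ hA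
        have h5 : C₀ * ∑ z ∈ Ico a' b', U z ≤ C₀ * (CU * (m + 1) * (f b - f a)) := mul_le_mul_of_nonneg_left h2 hC₀
        have h6 : 0 ≤ CU * (m + 1) * (f b - f a) := by positivity
        linarith
      have h5 : K₁ * (8 * ε) * ((C₀ + 1) * (CU * (m + 1))) ≤ 1 / 8 := by
        have h6 := mul_le_mul_of_nonneg_left hεm (by positivity : (0 : ℝ) ≤ 8 * K₁ * (C₀ + 1) * CU)
        have h7 : 8 * K₁ * (C₀ + 1) * CU * (1 / (64 * K₁ * (C₀ + 1) * CU)) = 1 / 8 := by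
          field_simp
          norm_num
        linarith
      have h6 : K₂ * s₀ * ((C₀ + 1) * (CU * (m + 1))) ≤ 1 / 8 := by
        have h7 := mul_le_mul_of_nonneg_left hs2 (by positivity : (0 : ℝ) ≤ K₂ * (C₀ + 1) * CU * (m + 1))
        have h8 : K₂ * (C₀ + 1) * CU * (m + 1) * (1 / (8 * K₂ * (C₀ + 1) * CU * (m + 1))) = 1 / 8 := by
          field_simp
        linarith
      have h7 : K₁ * (8 * ε) ≤ K₁ := by nlinarith
      have h8 : K₂ * s₀ ≤ 1 := by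
        have h9 : (1 : ℝ) ≤ (C₀ + 1) * (CU * (m + 1)) := by
          have h10 : (1 : ℝ) ≤ CU * (m + 1) := by nlinarith
          nlinarith
        have h10 : 0 ≤ K₂ * s₀ := by positivity
        nlinarith
      have h9 : (K₁ * (8 * ε) + K₂ * s₀) * ((C₀ + 1) * (CU * (m + 1) * (f b - f a)) + 1) =
          (K₁ * (8 * ε) * ((C₀ + 1) * (CU * (m + 1))) + K₂ * s₀ * ((C₀ + 1) * (CU * (m + 1)))) * (f b - f a)
            + (K₁ * (8 * ε) + K₂ * s₀) := by ring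
      rw [h9] at h4
      have h10 : (K₁ * (8 * ε) * ((C₀ + 1) * (CU * (m + 1))) + K₂ * s₀ * ((C₀ + 1) * (CU * (m + 1)))) * (f b - f a) ≤
          (1 / 8 + 1 / 8) * (f b - f a) := mul_le_mul_of_nonneg_right (by linarith) hfab
      linarith
    -- the ends
    have h4 := hgEm a k₀ le_rfl (by omega)
    have h6 : Real.logb 2 (Em (b - 1)) ≤ Real.logb 2 (Em b') + k₁ := by
      rcases Nat.eq_zero_or_pos k₁ with h | h
      · have h7 : Real.logb 2 (Em (b - 1)) ≤ Real.logb 2 (Em b') :=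
          Real.logb_le_logb_of_le (by norm_num) (hEm0 _) (hEm (by omega))
        rw [h]
        push_cast
        linarith
      · have h7 := hgEm b' (k₁ - 1) (by omega) (by omega)
        have h8 : b' + (k₁ - 1) = b - 1 := by omega
        rw [h8] at h7
        have h9 : ((k₁ - 1 : ℕ) : ℝ) ≤ k₁ := by exact_mod_cast Nat.sub_le _ _
        linarith
    have h8 : Real.logb 2 (E b) ≤ Real.logb 2 (Em (b - 1)) + 3 := by
      have h9 : E b ≤ 8 * Em (b - 1) := by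
        have h10 := hI1 (b - 1) (by omega) (by omega)
        have h11 := hE2 (b - 1)
        have h12 : b - 1 + 1 = b := by omega
        rw [h12] at h11
        have h13 := hEm1 (b - 1)
        linarith
      have h10 : Real.logb 2 (E b) ≤ Real.logb 2 (8 * Em (b - 1)) := Real.logb_le_logb_of_le (by norm_num) (hE0 _) h9
      rw [Real.logb_mul (by norm_num) (hEm0 _).ne'] at h10
      have h11 : Real.logb 2 8 = 3 := by
        rw [show (8 : ℝ) = 2 ^ (3 : ℝ) by norm_num, Real.logb_rpow (by norm_num) (by norm_num)]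
      linarith
    have h9 : Real.logb 2 (Em a) ≤ Real.logb 2 (E a) := Real.logb_le_logb_of_le (by norm_num) (hEm0 _) (hEmE a)
    linarith

/-- A telescoping sum of widths. -/
theorem sum_tel {f : ℕ → ℝ} (hf : Monotone f) {k₀ k₁ a b m : ℕ} (hab : a + k₀ + m + k₁ ≤ b) :
    ∑ z ∈ Ico (a + k₀) (b - m - k₁), (f (z + m + k₁) - f (z - k₀)) ≤ (k₀ + k₁ + 1) * (m + 1) * (f b - f a) := by
  have hfab : 0 ≤ f b - f a := by linarith [hf (by omega : a ≤ b)]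
  have h3 : Ico (a + k₀) (b - m - k₁) = (Ico a (b - m - k₁ - k₀)).map (addRightEmbedding k₀) := by
    ext z
    rw [mem_Ico, mem_map]
    constructor
    · rintro ⟨h3, h4⟩
      refine ⟨z - k₀, mem_Ico.2 ⟨by omega, by omega⟩, ?_⟩
      show z - k₀ + k₀ = z
      omega
    · rintro ⟨w, hw, rfl⟩
      rw [mem_Ico] at hw
      show a + k₀ ≤ w + k₀ ∧ w + k₀ < b - m - k₁
      omega
  rw [h3, sum_map]
  have h4 := sum_window hf a (b - m - k₁ - k₀) (by omega) (m + k₁ + k₀)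
  have h5 : f (b - m - k₁ - k₀ + (m + k₁ + k₀)) ≤ f b := hf (by omega)
  have h6 : ((m + k₁ + k₀ : ℕ) : ℝ) * (f (b - m - k₁ - k₀ + (m + k₁ + k₀)) - f a) ≤ ((m + k₁ + k₀ : ℕ) : ℝ) * (f b - f a) :=
    mul_le_mul_of_nonneg_left (by linarith) (by positivity)
  have h7 : ((m + k₁ + k₀ : ℕ) : ℝ) * (f b - f a) ≤ (k₀ + k₁ + 1) * (m + 1) * (f b - f a) := by
    apply mul_le_mul_of_nonneg_right _ hfab
    push_cast
    have : (0 : ℝ) ≤ m := Nat.cast_nonneg m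
    have : (0 : ℝ) ≤ k₀ := Nat.cast_nonneg k₀
    have : (0 : ℝ) ≤ k₁ := Nat.cast_nonneg k₁
    nlinarith [mul_nonneg (Nat.cast_nonneg (α := ℝ) k₀) (Nat.cast_nonneg (α := ℝ) m),
      mul_nonneg (Nat.cast_nonneg (α := ℝ) k₁) (Nat.cast_nonneg (α := ℝ) m)]
  refine le_trans (le_of_eq ?_) ((h4.trans h6).trans h7)
  apply sum_congr rfl
  intro w _
  show f (w + k₀ + m + k₁) - f (w + k₀ - k₀) = f (w + (m + k₁ + k₀)) - f w
  have h8 : w + k₀ - k₀ = w := by omega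
  have h9 : w + k₀ + m + k₁ = w + (m + k₁ + k₀) := by omega
  rw [h8, h9]

/-- THEOREM D4 from the inequality for one octave, the width at the octave `z` is the closing of the cone between `z - k₀` and
`z + m + k₁`. -/
theorem stretch_tel {ι : Type*} {E Em f : ℕ → ℝ} {NS : ι → ℕ → Prop} {C₀ : ℝ} {k₀ k₁ : ℕ} (hf : Monotone f)
    (hEm : Monotone Em)
    (hEm1 : ∀ x, 1 ≤ Em x) (hEmE : ∀ x, Em x ≤ E x) (hE2 : ∀ x, E (x + 1) ≤ 2 * E x) (hC₀ : 0 ≤ C₀)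
    (hOct : ∀ κ : ℝ, 0 < κ → ∃ (ε : ℝ) (m l₁ : ℕ), 0 < ε ∧ ε ≤ 1 / 8 ∧ ε * (m + 1) ≤ κ ∧ ∀ s₀ : ℝ, 0 < s₀ →
      ∃ (i : ι) (x₀ : ℕ), ∀ a b, x₀ ≤ a → a ≤ b → (∀ z, a ≤ z → z < b → NS i z) →
        (∀ x, a ≤ x → x < b → Em (x + 1) ≤ (1 + s₀) * Em x) ∧ (∀ z, a ≤ z → z < b → E z ≤ 2 * Em z + 2) ∧
        ∀ x y, a + k₀ ≤ x → x + l₁ ≤ y → y + m + k₁ < b →
          (∀ z, x ≤ z → z ≤ y → C₀ * (f (z + m + k₁) - f (z - k₀)) ≤ (1 / 2 : ℝ) ^ (z - x)) →
          Em (x + 1) - Em x ≤ 2 * (1 / 2 : ℝ) ^ (y - x) * (Em (y + m) - Em x + 8 * ε * Em (y + m))) :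
    ∃ (i : ι) (x₀ : ℕ) (C : ℝ), ∀ a b, x₀ ≤ a → a ≤ b → (∀ z, a ≤ z → z < b → NS i z) →
      Real.logb 2 (E b) - Real.logb 2 (E a) ≤ (f b - f a) / 4 + C := by
  refine stretch_gen (CU := k₀ + k₁ + 1) (k₀ := k₀) (k₁ := k₁) (C₀ := C₀) hf hEm hEm1 hEmE hE2 hC₀ ?_ fun κ hκ => ?_
  · have : (0 : ℝ) ≤ k₀ := Nat.cast_nonneg k₀
    have : (0 : ℝ) ≤ k₁ := Nat.cast_nonneg k₁
    linarith
  · obtain ⟨ε, m, l₁, h1, h2, h3, h4⟩ := hOct κ hκ
    refine ⟨ε, m, l₁, h1, h2, h3, fun s₀ hs₀ => ?_⟩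
    obtain ⟨i, x₀, h5⟩ := h4 s₀ hs₀
    refine ⟨i, x₀, fun a b ha hab hNS => ?_⟩
    obtain ⟨h6, h7, h8⟩ := h5 a b ha hab hNS
    exact ⟨h6, h7, fun z => f (z + m + k₁) - f (z - k₀), fun z => by linarith [hf (by omega : z - k₀ ≤ z + m + k₁)],
      fun hb => sum_tel hf hb, h8⟩

/-- THEOREM D4 from the inequality for one octave with the widths `U8` of row 619. -/
theorem stretch_of_octave {ι : Type*} {E Em f : ℕ → ℝ} {NS : ι → ℕ → Prop} {C₀ : ℝ} {k₀ : ℕ} (hf : Monotone f)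
    (hEm : Monotone Em)
    (hEm1 : ∀ x, 1 ≤ Em x) (hEmE : ∀ x, Em x ≤ E x) (hE2 : ∀ x, E (x + 1) ≤ 2 * E x) (hC₀ : 0 ≤ C₀)
    (hOct : ∀ κ : ℝ, 0 < κ → ∃ (ε : ℝ) (m l₁ : ℕ), 0 < ε ∧ ε ≤ 1 / 8 ∧ ε * (m + 1) ≤ κ ∧ ∀ s₀ : ℝ, 0 < s₀ →
      ∃ (i : ι) (x₀ : ℕ), ∀ a b, x₀ ≤ a → a ≤ b → (∀ z, a ≤ z → z < b → NS i z) →
        (∀ x, a ≤ x → x < b → Em (x + 1) ≤ (1 + s₀) * Em x) ∧ (∀ z, a ≤ z → z < b → E z ≤ 2 * Em z + 2) ∧
        ∀ x y, a + k₀ ≤ x → x + l₁ ≤ y → y + m + 4 < b →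
          (∀ z, x ≤ z → z ≤ y → C₀ * U8 f a k₀ m z ≤ (1 / 2 : ℝ) ^ (z - x)) →
          Em (x + 1) - Em x ≤ 2 * (1 / 2 : ℝ) ^ (y - x) * (Em (y + m) - Em x + 8 * ε * Em (y + m))) :
    ∃ (i : ι) (x₀ : ℕ) (C : ℝ), ∀ a b, x₀ ≤ a → a ≤ b → (∀ z, a ≤ z → z < b → NS i z) →
      Real.logb 2 (E b) - Real.logb 2 (E a) ≤ (f b - f a) / 4 + C := by
  obtain ⟨C, hC0, hC⟩ := exists_sum_weights k₀
  refine stretch_gen (CU := C + k₀ + 3) (k₀ := k₀) (k₁ := 4) (C₀ := C₀) hf hEm hEm1 hEmE hE2 hC₀ ?_ fun κ hκ => ?_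
  · have : (0 : ℝ) ≤ k₀ := Nat.cast_nonneg k₀
    linarith
  · obtain ⟨ε, m, l₁, h1, h2, h3, h4⟩ := hOct κ hκ
    refine ⟨ε, m, l₁, h1, h2, h3, fun s₀ hs₀ => ?_⟩
    obtain ⟨i, x₀, h5⟩ := h4 s₀ hs₀
    refine ⟨i, x₀, fun a b ha hab hNS => ?_⟩
    obtain ⟨h6, h7, h8⟩ := h5 a b ha hab hNS
    exact ⟨h6, h7, U8 f a k₀ m, U8_nonneg hf a k₀ m, fun hb => sum_U8 hf hC hb, h8⟩

end Pool.Agent.W_7d29a1_g
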