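import Pool.Agent.W_7d29a1_g.HookMean
import Pool.Agent.W_7d29a1_h4g.LAinst
import Pool.Agent.W_7d29a1_F.CoreD2
import Pool.Agent.W_7d29a1_F.Bridge2

/-!
Track G (MP_7d29a1_pr), row 619, section 3: confinement at one time, exact and in the mean, for any tilt. `Gt S p q` is the weight
of the paths from `p` to `q` which pass through the finite set `S` of sites of one time. If all the sites of `S` are on the far
side of a reference path which starts at the time of `p` (or ends at the time of `q`), then one swap gives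
`Gt * W(reference) ≤ W(p, end) * W(start, q)`; in the mean `- E log Gt ≥ e(far displacement) - e(reference)`.
With (MC) this becomes a bound in probability.
-/

namespace Pool.Agent.W_7d29a1_g

open MeasureTheory ProbabilityTheory
open Pool.Agent.W_7d29a1_F Pool.Agent.W_7d29a1_h4g

variable {μ : Measure ℝ} {s : ℝ}

/-- The weight of the paths from `p` to `q` through the finite set `S` of sites of one time. -/
noncomputable def Gt (μ : Measure ℝ) (s : ℝ) (S : Finset Pt) (p q : Pt) (η : Env) : ℝ :=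
  ∑ v ∈ S, wt μ s Set.univ η p v * wt μ s Set.univ η v q

theorem Gt_nonneg (S : Finset Pt) (p q : Pt) (η : Env) : 0 ≤ Gt μ s S p q η :=
  Finset.sum_nonneg fun _ _ => mul_nonneg (wt_nonneg _ _ _ _) (wt_nonneg _ _ _ _)

/-- The paths through `S` are a part of all the paths. -/
theorem Gt_le (S : Finset Pt) (p q : Pt) {τ : ℤ} (hS : ∀ v ∈ S, v.1 = τ) (hτ : τ ≤ q.1) (η : Env) :
    Gt μ s S p q η ≤ wt μ s Set.univ η p q := wt_ck η S τ hS p q hτ

theorem Gt_mono {S S' : Finset Pt} (h : S ⊆ S') (p q : Pt) (η : Env) : Gt μ s S p q η ≤ Gt μ s S' p q η :=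
  Finset.sum_le_sum_of_subset_of_nonneg h fun _ _ _ => mul_nonneg (wt_nonneg _ _ _ _) (wt_nonneg _ _ _ _)

/-- `Gt` is a sum of path weights. -/
theorem poly_Gt (S : Finset Pt) (p q : Pt) {τ : ℤ} (hS : ∀ v ∈ S, v.1 = τ) (h1 : p.1 ≤ τ) (h2 : τ ≤ q.1) :
    Poly (rows p.1 q.1) fun η => Gt μ s S p q η := by
  refine Poly.sum S fun v hv => ?_
  have hv1 := hS v hv
  have k1 := poly_wt (μ := μ) (s := s) Set.univ p v
  have k2 := poly_wt (μ := μ) (s := s) Set.univ v q
  have d1 : Disjoint (rows p.1 v.1) (rows v.1 q.1) := by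
    rw [Set.disjoint_left]
    rintro x ⟨_, x2⟩ ⟨x3, _⟩
    omega
  refine (k1.mul k2 d1).mono ?_
  rintro x (⟨x1, x2⟩ | ⟨x1, x2⟩)
  · exact ⟨x1, by omega⟩
  · exact ⟨by omega, x2⟩

/-- Either some path passes through `S`, and then `Gt` is positive, or `Gt` vanishes. -/
theorem Gt_pos_or (S : Finset Pt) (p q : Pt) :
    (∀ η : Env, 0 < Gt μ s S p q η) ∨ ∀ η : Env, Gt μ s S p q η = 0 := by
  by_cases h : ∃ v ∈ S, Adm p v ∧ Adm v q
  · left
    obtain ⟨v, hv, h1, h2⟩ := h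
    intro η
    refine lt_of_lt_of_le (mul_pos (wt_pos (μ := μ) (s := s) h1 η) (wt_pos (μ := μ) (s := s) h2 η)) ?_
    exact Finset.single_le_sum (f := fun v => wt μ s Set.univ η p v * wt μ s Set.univ η v q)
      (fun v _ => mul_nonneg (wt_nonneg _ _ _ _) (wt_nonneg _ _ _ _)) hv
  · right
    intro η
    refine Finset.sum_eq_zero fun v hv => ?_
    by_contra hne
    have h1 : wt μ s Set.univ η p v ≠ 0 := left_ne_zero_of_mul hne
    have h2 : wt μ s Set.univ η v q ≠ 0 := right_ne_zero_of_mul hne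
    exact h ⟨v, hv, adm_of_pos (lt_of_le_of_ne (wt_nonneg _ _ _ _) h1.symm),
      adm_of_pos (lt_of_le_of_ne (wt_nonneg _ _ _ _) h2.symm)⟩

theorem wt_self (η : Env) (p : Pt) : wt μ s Set.univ η p p = 1 := by
  have h := wt_eq (μ := μ) (s := s) Set.univ η (b := p) (c := p) (n := 0) (by simp)
  rw [h]
  simp [WR, Zr]

/-- The junction of the first confinement inequality. -/
def JR (S : Finset Pt) (p x y : Pt) : Junc := ⟨{p}, S, x, y⟩

/-- The junction of the second confinement inequality. -/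
def JL (S : Finset Pt) (q x y : Pt) : Junc := ⟨S, {q}, x, y⟩

theorem Pat_JR (S : Finset Pt) (p q x y : Pt) (η : Env) :
    Pat (wt μ s Set.univ η) p [JR S p x y] q = Gt μ s S p q η := by
  show ∑ a ∈ ({p} : Finset Pt), ∑ b ∈ S, wt μ s Set.univ η p a * wt μ s Set.univ η a b * wt μ s Set.univ η b q = _
  rw [Finset.sum_singleton]
  unfold Gt
  refine Finset.sum_congr rfl fun b _ => ?_
  rw [wt_self, one_mul]

theorem Pat_JL (S : Finset Pt) (p q x y : Pt) (η : Env) :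
    Pat (wt μ s Set.univ η) p [JL S q x y] q = Gt μ s S p q η := by
  show ∑ a ∈ S, ∑ b ∈ ({q} : Finset Pt), wt μ s Set.univ η p a * wt μ s Set.univ η a b * wt μ s Set.univ η b q = _
  unfold Gt
  refine Finset.sum_congr rfl fun a _ => ?_
  rw [Finset.sum_singleton, wt_self, mul_one]

/-- The reference starts at the time of `p` and ends at the time of `S`. -/
theorem confine_first (η : Env) (S : Finset Pt) (p q x y : Pt) (hx : x.1 = p.1) (h1 : p.1 ≤ y.1) (h2 : y.1 ≤ q.1)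
    (hS : ∀ v ∈ S, v.1 = y.1)
    (hc : (p.2 ≤ x.2 ∧ ∀ v ∈ S, y.2 ≤ v.2) ∨ (x.2 ≤ p.2 ∧ ∀ v ∈ S, v.2 ≤ y.2)) :
    Gt μ s S p q η * wt μ s Set.univ η x y ≤ wt μ s Set.univ η p y * wt μ s Set.univ η x q := by
  have hOk : Ok p.1 [JR S p x y] q.1 := by
    refine ⟨hx.ge, by simp only [JR]; omega, fun a ha => ?_, fun b hb => hS b hb, ?_, h2⟩
    · rw [Finset.mem_singleton.1 ha]
      exact hx.symm
    · rcases hc with ⟨c1, c2⟩ | ⟨c1, c2⟩
      · left
        exact ⟨fun a ha => by rw [Finset.mem_singleton.1 ha]; exact c1, c2⟩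
      · right
        exact ⟨fun a ha => by rw [Finset.mem_singleton.1 ha]; exact c1, c2⟩
  have h := hook_wt (μ := μ) (s := s) η Set.univ [JR S p x y] p q hOk
  rw [Pat_JR] at h
  simpa [Ref, Hk, JR] using h

/-- The reference starts at the time of `S` and ends at the time of `q`. -/
theorem confine_last (η : Env) (S : Finset Pt) (p q x y : Pt) (hy : y.1 = q.1) (h1 : p.1 ≤ x.1) (h2 : x.1 ≤ q.1)
    (hS : ∀ v ∈ S, v.1 = x.1)
    (hc : ((∀ v ∈ S, v.2 ≤ x.2) ∧ y.2 ≤ q.2) ∨ ((∀ v ∈ S, x.2 ≤ v.2) ∧ q.2 ≤ y.2)) :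
    Gt μ s S p q η * wt μ s Set.univ η x y ≤ wt μ s Set.univ η p y * wt μ s Set.univ η x q := by
  have hOk : Ok p.1 [JL S q x y] q.1 := by
    refine ⟨h1, by simp only [JL]; omega, fun a ha => hS a ha, fun b hb => ?_, ?_, hy.le⟩
    · rw [Finset.mem_singleton.1 hb]
      exact hy.symm
    · rcases hc with ⟨c1, c2⟩ | ⟨c1, c2⟩
      · left
        exact ⟨c1, fun b hb => by rw [Finset.mem_singleton.1 hb]; exact c2⟩
      · right
        exact ⟨c1, fun b hb => by rw [Finset.mem_singleton.1 hb]; exact c2⟩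
  have h := hook_wt (μ := μ) (s := s) η Set.univ [JL S q x y] p q hOk
  rw [Pat_JL] at h
  simpa [Ref, Hk, JL] using h

/-- An inequality `G * W(x, y) ≤ W(p, y) * W(x, q)` in the mean. -/
theorem mean_of_swap [IsProbabilityMeasure μ] (hμ : Pool.Agent.W_7d29a1_h47.EM μ) {G : Env → ℝ} {U : Set Pt}
    (hP : Poly U G) (hG : ∀ η, 0 < G η) {p q x y : Pt} (hxy : Adm x y)
    (h : ∀ η : Env, G η * wt μ s Set.univ η x y ≤ wt μ s Set.univ η p y * wt μ s Set.univ η x q) :
    Adm p y ∧ Adm x q ∧ ee μ s p y + ee μ s x q ≤ (∫ η, -Real.log (G η) ∂(law μ)) + ee μ s x y := by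
  have hpos : ∀ η : Env, 0 < wt μ s Set.univ η p y * wt μ s Set.univ η x q := fun η =>
    (mul_pos (hG η) (wt_pos hxy η)).trans_le (h η)
  have a1 : Adm p y := adm_of_pos (pos_of_mul_pos_left (hpos 0) (wt_nonneg _ _ _ _))
  have a2 : Adm x q := adm_of_pos (pos_of_mul_pos_right (hpos 0) (wt_nonneg _ _ _ _))
  refine ⟨a1, a2, ?_⟩
  have i1 := (wt_sub (μ := μ) (s := s) a1).integrable hμ
  have i2 := (wt_sub (μ := μ) (s := s) a2).integrable hμ
  have i3 := (wt_sub (μ := μ) (s := s) hxy).integrable hμ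
  have i4 := (hP.sub_log hG).integrable hμ
  have h1 : ∀ η : Env, Real.log (G η) + Real.log (wt μ s Set.univ η x y) ≤
      Real.log (wt μ s Set.univ η p y) + Real.log (wt μ s Set.univ η x q) := by
    intro η
    rw [← Real.log_mul (hG η).ne' (wt_pos hxy η).ne', ← Real.log_mul (wt_pos a1 η).ne' (wt_pos a2 η).ne']
    exact Real.log_le_log (mul_pos (hG η) (wt_pos hxy η)) (h η)
  have h2 := integral_mono (i4.add i3) (i1.add i2) h1
  have e1 : ∫ η, (Real.log (G η) + Real.log (wt μ s Set.univ η x y)) ∂(law μ) =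
      ∫ η, Real.log (G η) ∂(law μ) + ∫ η, Real.log (wt μ s Set.univ η x y) ∂(law μ) := integral_add i4 i3
  have e2 : ∫ η, (Real.log (wt μ s Set.univ η p y) + Real.log (wt μ s Set.univ η x q)) ∂(law μ) =
      ∫ η, Real.log (wt μ s Set.univ η p y) ∂(law μ) + ∫ η, Real.log (wt μ s Set.univ η x q) ∂(law μ) :=
    integral_add i1 i2
  have h3 : ∫ η, (Real.log (G η) + Real.log (wt μ s Set.univ η x y)) ∂(law μ) ≤
      ∫ η, (Real.log (wt μ s Set.univ η p y) + Real.log (wt μ s Set.univ η x q)) ∂(law μ) := h2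
  rw [e1, e2, int_wt a1, int_wt a2, int_wt hxy] at h3
  rw [integral_neg]
  linarith

theorem ee_nonneg [IsProbabilityMeasure μ] (hμ : Pool.Agent.W_7d29a1_h47.EM μ) {p q : Pt} (h : Adm p q) :
    0 ≤ ee μ s p q := by
  obtain ⟨h1, h2, h3⟩ := h
  exact e_nonneg hμ s h2 (by omega)

/-- Confinement in the mean, first half: all the sites of `S` (time `T`) are at least at the height `Y + c`. -/
theorem conf_right [IsProbabilityMeasure μ] (hμ : Pool.Agent.W_7d29a1_h47.EM μ) {T N : ℕ} (hTN : T ≤ N) {z Y c : ℤ}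
    (hc0 : 0 ≤ c) (hc1 : c ≤ T) (hY : 0 ≤ Y) (S : Finset Pt) (hS : ∀ v ∈ S, v.1 = T ∧ Y + c ≤ v.2)
    (hpos : ∀ η, 0 < Gt μ s S (0, 0) (N, z) η) :
    Y + c ≤ T ∧ e μ s T (Y + c) - e μ s T c ≤ ∫ η, -Real.log (Gt μ s S (0, 0) (N, z) η) ∂(law μ) := by
  have hxy : Adm ((0, Y) : Pt) ((T, Y + c) : Pt) := ⟨by simp, by simp only; omega, by simp only; omega⟩
  have hP := poly_Gt (μ := μ) (s := s) S (0, 0) ((N : ℤ), z) (τ := T) (fun v hv => (hS v hv).1) (by simp)
    (by simpa using hTN)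
  obtain ⟨a1, a2, a3⟩ := mean_of_swap hμ hP hpos hxy fun η =>
    confine_first (μ := μ) (s := s) η S (0, 0) ((N : ℤ), z) ((0, Y) : Pt) ((T, Y + c) : Pt) rfl (by simp)
      (by simpa using hTN) (fun v hv => (hS v hv).1) (Or.inl ⟨hY, fun v hv => (hS v hv).2⟩)
  have n1 := ee_nonneg (s := s) hμ a2
  have e1 : ee μ s ((0, 0) : Pt) ((T, Y + c) : Pt) = e μ s T (Y + c) := by
    unfold ee
    simp
  have e2 : ee μ s ((0, Y) : Pt) ((T, Y + c) : Pt) = e μ s T c := by
    unfold ee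
    simp
  rw [e1, e2] at a3
  refine ⟨?_, by linarith⟩
  have := a1.2.2
  simp only at this
  omega

/-- Confinement in the mean, second half: all the sites of `S` (time `T`) are at most at the height `Y`, and the end point is
at least at the height `Y + c`. -/
theorem conf_left [IsProbabilityMeasure μ] (hμ : Pool.Agent.W_7d29a1_h47.EM μ) {T N : ℕ} (hTN : T ≤ N) {z Y c : ℤ}
    (hc0 : 0 ≤ c) (hc1 : c ≤ (N - T : ℕ)) (hz : Y + c ≤ z) (S : Finset Pt) (hS : ∀ v ∈ S, v.1 = T ∧ v.2 ≤ Y)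
    (hpos : ∀ η, 0 < Gt μ s S (0, 0) (N, z) η) :
    z - Y ≤ (N - T : ℕ) ∧
      e μ s (N - T) (z - Y) - e μ s (N - T) c ≤ ∫ η, -Real.log (Gt μ s S (0, 0) (N, z) η) ∂(law μ) := by
  have hNT : ((N - T : ℕ) : ℤ) = (N : ℤ) - T := by omega
  have hxy : Adm (((T : ℤ), Y) : Pt) (((N : ℤ), Y + c) : Pt) := ⟨by simpa using hTN, by simp only; omega, by simp only; omega⟩
  have hP := poly_Gt (μ := μ) (s := s) S (0, 0) ((N : ℤ), z) (τ := T) (fun v hv => (hS v hv).1) (by simp)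
    (by simpa using hTN)
  obtain ⟨a1, a2, a3⟩ := mean_of_swap hμ hP hpos hxy fun η =>
    confine_last (μ := μ) (s := s) η S (0, 0) ((N : ℤ), z) (((T : ℤ), Y) : Pt) (((N : ℤ), Y + c) : Pt) rfl (by simp)
      (by simpa using hTN) (fun v hv => (hS v hv).1) (Or.inl ⟨fun v hv => (hS v hv).2, hz⟩)
  have n1 := ee_nonneg (s := s) hμ a1
  have e1 : ee μ s (((T : ℤ), Y) : Pt) (((N : ℤ), z) : Pt) = e μ s (N - T) (z - Y) := by
    unfold ee
    simp only
    rw [← hNT, Int.toNat_natCast]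
  have e2 : ee μ s (((T : ℤ), Y) : Pt) (((N : ℤ), Y + c) : Pt) = e μ s (N - T) c := by
    unfold ee
    simp only
    rw [← hNT, Int.toNat_natCast, add_sub_cancel_left]
  rw [e1, e2] at a3
  refine ⟨?_, by linarith⟩
  have := a2.2.2
  simp only at this
  omega

/-- `Gt` from the origin is at most `exp V`. -/
theorem Gt_le_exp_V {T N : ℕ} (hTN : T ≤ N) {z : ℤ} (S : Finset Pt) (hS : ∀ v ∈ S, v.1 = T) (η : Env) :
    Gt μ s S (0, 0) (N, z) η ≤ Real.exp (V μ s η 0 N) := by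
  have h1 := Gt_le (μ := μ) (s := s) S (0, 0) ((N : ℤ), z) (τ := T) hS (by simpa using hTN) η
  have h2 : wt μ s Set.univ η (0, 0) ((N : ℤ), z) = W μ s η 0 N z := by
    rw [wt_univ (by simp)]
    simp
    rfl
  rw [h2] at h1
  have h3 := WS_le_exp_V (μ := μ) (s := s) η 0 N {z}
  unfold WS at h3
  rw [Finset.sum_singleton] at h3
  exact h1.trans h3

theorem log_Gt_le_V {T N : ℕ} (hTN : T ≤ N) {z : ℤ} (S : Finset Pt) (hS : ∀ v ∈ S, v.1 = T)
    (hpos : ∀ η, 0 < Gt μ s S (0, 0) (N, z) η) (η : Env) :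
    Real.log (Gt μ s S (0, 0) (N, z) η) ≤ V μ s η 0 N := by
  rw [Real.log_le_iff_le_exp (hpos η)]
  exact Gt_le_exp_V hTN S hS η

/-- CONFINEMENT IN PROBABILITY, both halves. For every `p > 0` there are `T₀`, `C` such that the paths which are at the time `T`
right of the height `Y + c`, `Y ≥ 0` (left of the height `Y`, where `Y + c ≤ z`), weigh at least `exp (- y)` with probability
less than `p`, as soon as the mean cost of the displacement `(T, Y + c)` (of `(N - T, z - Y)`) exceeds the mean cost of the reference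
`(T, c)` (`(N - T, c)`) by more than `max (2 y) C` and `6 EU (2 ^ T₀ N)`. -/
theorem conf_prob [IsProbabilityMeasure μ] (hμ : Pool.Agent.W_7d29a1_h47.EM μ) (hnd : Pool.Agent.W_7d29a1_h47.Nondeg μ)
    {p : ℝ} (hp : 0 < p) : ∃ (T₀ : ℕ) (C : ℝ), ∀ (s : ℝ) (zr : ℕ → ℤ), (∀ m, 0 ≤ zr m ∧ zr m ≤ m) →
    ∀ (T N : ℕ) (z Y c : ℤ) (S : Finset Pt) (y D : ℝ), T ≤ N → 0 ≤ c →
    (∀ v ∈ S, v.1 = T) →
    ((c ≤ T ∧ 0 ≤ Y ∧ (∀ v ∈ S, Y + c ≤ v.2) ∧ D = e μ s T (Y + c) - e μ s T c) ∨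
      (c ≤ (N - T : ℕ) ∧ Y + c ≤ z ∧ (∀ v ∈ S, v.2 ≤ Y) ∧ D = e μ s (N - T) (z - Y) - e μ s (N - T) c)) →
    max (max (2 * y) C) (6 * EU μ s zr (2 ^ T₀ * N)) < D →
    (law μ).real {η | Real.exp (-y) ≤ Gt μ s S (0, 0) (N, z) η} < p := by
  obtain ⟨T₀, C, h⟩ := mean_le_EU_all hμ hnd hp
  refine ⟨T₀, C, fun s zr hzr T N z Y c S y D hTN hc hS hcase hD => ?_⟩
  rcases Gt_pos_or (μ := μ) (s := s) S (0, 0) ((N : ℤ), z) with hpos | hzero
  · by_contra hcon
    rw [not_lt] at hcon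
    have hP : Poly (rows 0 N) fun η => Gt μ s S (0, 0) ((N : ℤ), z) η :=
      poly_Gt (μ := μ) (s := s) S (0, 0) ((N : ℤ), z) (τ := T) hS (by simp) (by simpa using hTN)
    have hset : {η | Real.exp (-y) ≤ Gt μ s S (0, 0) ((N : ℤ), z) η} =
        {η | -y ≤ Real.log (Gt μ s S (0, 0) ((N : ℤ), z) η)} := by
      ext η
      exact (Real.le_log_iff_exp_le (hpos η)).symm
    rw [hset] at hcon
    have h1 := h s zr hzr N _ hP hpos (log_Gt_le_V hTN S hS hpos) y hcon
    have h2 : D ≤ ∫ η, -Real.log (Gt μ s S (0, 0) (N, z) η) ∂(law μ) := by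
      rcases hcase with ⟨k1, k2, k3, k4⟩ | ⟨k1, k2, k3, k4⟩
      · rw [k4]
        exact (conf_right hμ hTN hc k1 k2 S (fun v hv => ⟨hS v hv, k3 v hv⟩) hpos).2
      · rw [k4]
        exact (conf_left hμ hTN hc k1 k2 S (fun v hv => ⟨hS v hv, k3 v hv⟩) hpos).2
    rw [integral_neg] at h2
    linarith
  · have hset : {η | Real.exp (-y) ≤ Gt μ s S (0, 0) ((N : ℤ), z) η} = ∅ := by
      ext η
      simp only [Set.mem_setOf_eq, Set.mem_empty_iff_false, iff_false, not_le]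
      rw [hzero η]
      exact Real.exp_pos _
    rw [hset]
    simpa using hp

end Pool.Agent.W_7d29a1_g
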