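import Pool.Agent.W_7d29a1_g.InnerEdge
import Pool.Agent.W_7d29a1_g.Confine
import Pool.Agent.W_7d29a1_g.GateRec

/-!
MP_7d29a1_pr (G+, track G, D4 section 4): the inner edge. Confinement to the windows at the starts of the junctions, and the junction
inequality for the mean costs.
-/

set_option autoImplicit false

open Finset MeasureTheory

namespace Pool.Agent.W_7d29a1_g

open Pool.Agent.W_7d29a1_F Pool.Agent.W_7d29a1_h4g

variable {μ : Measure ℝ} {s : ℝ}

/-- Chapman-Kolmogorov for the weights in a region. -/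
theorem wt_ckR (R : Set Pt) (η : Env) (S : Finset Pt) (τ : ℤ) (hS : ∀ v ∈ S, v.1 = τ) (p u : Pt) (hτ : τ ≤ u.1) :
    ∑ v ∈ S, wt μ s R η p v * wt μ s R η v u ≤ wt μ s R η p u := by
  classical
  by_cases hp : p.1 ≤ τ
  · obtain ⟨m, hm⟩ : ∃ m : ℕ, τ = p.1 + m := ⟨(τ - p.1).toNat, by omega⟩
    obtain ⟨n, hn⟩ : ∃ n : ℕ, u.1 = τ + n := ⟨(u.1 - τ).toNat, by omega⟩
    have hu : u.1 = p.1 + (m + n : ℕ) := by push_cast; omega
    rw [wt_eq R η hu]
    have hadd := WR_add (μ := μ) (s := s) R η p m n (u.2 - p.2)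
    rw [hadd]
    have h1 : ∑ v ∈ S, wt μ s R η p v * wt μ s R η v u =
        ∑ v ∈ S.filter (fun v => v.2 - p.2 ∈ Finset.Icc (0 : ℤ) m), wt μ s R η p v * wt μ s R η v u := by
      rw [Finset.sum_filter_of_ne]
      intro v hv hne
      by_contra hcon
      apply hne
      have hv1 : v.1 = p.1 + m := by rw [hS v hv, hm]
      rw [wt_eq R η hv1, WR_out, zero_mul]
      intro h
      exact hcon (Finset.mem_Icc.mpr h)
    rw [h1]
    have h2 : ∑ v ∈ S.filter (fun v => v.2 - p.2 ∈ Finset.Icc (0 : ℤ) m), wt μ s R η p v * wt μ s R η v u =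
        ∑ k ∈ (S.filter (fun v => v.2 - p.2 ∈ Finset.Icc (0 : ℤ) m)).image (fun v => v.2 - p.2),
          WR μ s R η p m k * WR μ s R η (p.1 + m, p.2 + k) n (u.2 - p.2 - k) := by
      rw [Finset.sum_image]
      · apply Finset.sum_congr rfl
        intro v hv
        have hvS := (Finset.mem_filter.mp hv).1
        have hv1 : v.1 = p.1 + m := by rw [hS v hvS, hm]
        have hu1 : u.1 = v.1 + n := by rw [hS v hvS, hn]
        have e1 : ((p.1 + m, p.2 + (v.2 - p.2)) : Pt) = v := by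
          ext
          · simp [hv1]
          · simp
        rw [wt_eq R η hv1, wt_eq R η hu1, e1]
        congr 2
        ring
      · intro v hv v' hv' hvv
        have hvS := (Finset.mem_filter.mp (Finset.mem_coe.mp hv)).1
        have hvS' := (Finset.mem_filter.mp (Finset.mem_coe.mp hv')).1
        ext
        · rw [hS v hvS, hS v' hvS']
        · simpa using hvv
    rw [h2]
    apply Finset.sum_le_sum_of_subset_of_nonneg
    · intro k hk
      obtain ⟨v, hv, rfl⟩ := Finset.mem_image.mp hk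
      exact (Finset.mem_filter.mp hv).2
    · intro k _ _
      exact mul_nonneg (WR_nonneg _ _ _ _ _) (WR_nonneg _ _ _ _ _)
  · have h0 : ∑ v ∈ S, wt μ s R η p v * wt μ s R η v u = 0 := by
      apply Finset.sum_eq_zero
      intro v hv
      have : ¬ p.1 ≤ v.1 := by rw [hS v hv]; exact hp
      unfold wt
      rw [if_neg this, zero_mul]
    rw [h0]
    exact wt_nonneg _ _ _ _

/-- The weights depend on the region only through the sites before the end. -/
theorem Zr_congr_before (R R' : Set Pt) (η : Env) (a : Pt) : ∀ (n : ℕ) (y : ℤ), (∀ q : Pt, q.1 < a.1 + n → (q ∈ R ↔ q ∈ R')) →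
    (((a.1 + n, a.2 + y) : Pt) ∈ R ↔ ((a.1 + n, a.2 + y) : Pt) ∈ R') → Zr R η a n y = Zr R' η a n y := by
  intro n
  induction n with
  | zero => intro y _ _; rfl
  | succ n ih =>
    intro y h hq
    have h1 : ∀ y' : ℤ, Zr R η a n y' = Zr R' η a n y' := fun y' => by
      refine ih y' (fun q hq' => h q ?_) (h _ ?_)
      · push_cast
        linarith
      · simp only
        push_cast
        linarith
    simp only [Zr]
    rw [h1, h1]
    have h2 : ((a.1 + ((n : ℤ) + 1), a.2 + y) : Pt) ∈ R ↔ ((a.1 + ((n : ℤ) + 1), a.2 + y) : Pt) ∈ R' := by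
      push_cast at hq
      exact hq
    by_cases hm : ((a.1 + ((n : ℤ) + 1), a.2 + y) : Pt) ∈ R
    · rw [Set.indicator_of_mem hm, Set.indicator_of_mem (h2.1 hm)]
    · rw [Set.indicator_of_notMem hm, Set.indicator_of_notMem (fun h' => hm (h2.2 h'))]

/-- Removing sites of one time from the region. -/
theorem wt_remove (R : Set Pt) (η : Env) (P Q : Pt) (hP : P ∈ R) (τ : ℤ) (h1 : P.1 ≤ τ) (h2 : τ ≤ Q.1) (good : Pt → Prop)
    (B : Finset Pt) (hB : ∀ v ∈ Sites R P τ, ¬ good v → v ∈ B) :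
    wt μ s R η P Q ≤ wt μ s {q | q ∈ R ∧ (q.1 = τ → good q)} η P Q +
      ∑ v ∈ B, wt μ s R η P v * wt μ s R η v Q := by
  classical
  set R' : Set Pt := {q | q ∈ R ∧ (q.1 = τ → good q)} with hR'
  have hdec := wt_dec (μ := μ) (s := s) η R P Q hP τ h1 h2 (Sites R P τ) fun y hy1 hy2 hy3 =>
    mem_Sites.2 ⟨rfl, hy1, by simp only; omega, hy3⟩
  have hsplit : ∑ u ∈ Sites R P τ, wt μ s R η P u * wt μ s R η u Q
      = ∑ u ∈ (Sites R P τ).filter good, wt μ s R η P u * wt μ s R η u Q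
        + ∑ u ∈ (Sites R P τ).filter (fun u => ¬ good u), wt μ s R η P u * wt μ s R η u Q :=
    (sum_filter_add_sum_filter_not _ _ _).symm
  have hgood : ∑ u ∈ (Sites R P τ).filter good, wt μ s R η P u * wt μ s R η u Q ≤ wt μ s R' η P Q := by
    have e1 : ∀ u ∈ (Sites R P τ).filter good, wt μ s R η P u * wt μ s R η u Q = wt μ s R' η P u * wt μ s R' η u Q := by
      intro u hu
      obtain ⟨g1, g2⟩ := mem_filter.1 hu
      obtain ⟨g3, _, _, g4⟩ := mem_Sites.1 g1
      have huR' : u ∈ R' := ⟨g4, fun _ => g2⟩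
      have a1 : wt μ s R η P u = wt μ s R' η P u := by
        obtain ⟨n, hn⟩ : ∃ n : ℕ, u.1 = P.1 + n := ⟨(u.1 - P.1).toNat, by omega⟩
        rw [wt_eq R η hn, wt_eq R' η hn]
        have e2 : ((P.1 + n, P.2 + (u.2 - P.2)) : Pt) = u := by
          ext
          · simp only
            omega
          · simp
        have e3 : ∀ q : Pt, q.1 < P.1 + n → (q ∈ R ↔ q ∈ R') := by
          intro q hq
          constructor
          · intro hqR
            exact ⟨hqR, fun hqτ => by omega⟩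
          · intro hqR
            exact hqR.1
        have e4 : ((P.1 + n, P.2 + (u.2 - P.2)) : Pt) ∈ R ↔ ((P.1 + n, P.2 + (u.2 - P.2)) : Pt) ∈ R' := by
          rw [e2]
          exact ⟨fun _ => huR', fun _ => g4⟩
        unfold WR
        rw [Zr_congr_before R R' η P n (u.2 - P.2) e3 e4]
      have a2 : wt μ s R η u Q = wt μ s R' η u Q := by
        obtain ⟨n, hn⟩ : ∃ n : ℕ, Q.1 = u.1 + n := ⟨(Q.1 - u.1).toNat, by omega⟩
        rw [wt_eq R η hn, wt_eq R' η hn]
        unfold WR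
        rw [Zr_congr_region R R' η u (fun q hq => ?_) n (Q.2 - u.2)]
        constructor
        · intro hqR
          exact ⟨hqR, fun hqτ => by omega⟩
        · intro hqR
          exact hqR.1
      rw [a1, a2]
    rw [sum_congr rfl e1]
    exact wt_ckR R' η _ τ (fun v hv => (mem_Sites.1 (mem_filter.1 hv).1).1) P Q h2
  have hbad : ∑ u ∈ (Sites R P τ).filter (fun u => ¬ good u), wt μ s R η P u * wt μ s R η u Q
      ≤ ∑ v ∈ B, wt μ s R η P v * wt μ s R η v Q := by
    refine sum_le_sum_of_subset_of_nonneg (fun u hu => ?_) fun u _ _ => mul_nonneg (wt_nonneg _ _ _ _) (wt_nonneg _ _ _ _)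
    obtain ⟨g1, g2⟩ := mem_filter.1 hu
    exact hB u g1 g2
  linarith

/-- The supporting line of a convex function on the integers of `[0, n]`. -/
theorem line_of_convex {f : ℤ → ℝ} {n : ℤ} (hf : ∀ y, 1 ≤ y → y + 1 ≤ n → 2 * f y ≤ f (y - 1) + f (y + 1)) {x : ℤ}
    (h1 : x + 1 ≤ n) (h0 : 0 ≤ x) : ∀ d, 0 ≤ d → d ≤ n → f x + (f (x + 1) - f x) * ((d - x : ℤ) : ℝ) ≤ f d := by
  have hup : ∀ k : ℕ, x + 1 + k ≤ n → f (x + 1) - f x ≤ f (x + 1 + k) - f (x + k) ∧
      f x + (f (x + 1) - f x) * (k + 1) ≤ f (x + 1 + k) := by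
    intro k
    induction k with
    | zero =>
      intro _
      simp
    | succ k ih =>
      intro hk
      obtain ⟨g1, g2⟩ := ih (by push_cast at hk; omega)
      have g3 := hf (x + 1 + k) (by omega) (by push_cast at hk; omega)
      rw [show x + 1 + (k : ℤ) - 1 = x + k by ring, show x + 1 + (k : ℤ) + 1 = x + 1 + ((k + 1 : ℕ) : ℤ) by push_cast; ring] at g3
      rw [show x + ((k + 1 : ℕ) : ℤ) = x + 1 + k by push_cast; ring]
      refine ⟨by linarith, ?_⟩
      push_cast at g3 ⊢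
      linarith
  have hdown : ∀ k : ℕ, (k : ℤ) ≤ x → f (x + 1 - k) - f (x - k) ≤ f (x + 1) - f x ∧
      f x - (f (x + 1) - f x) * k ≤ f (x - k) := by
    intro k
    induction k with
    | zero =>
      intro _
      simp
    | succ k ih =>
      intro hk
      obtain ⟨g1, g2⟩ := ih (by push_cast at hk; omega)
      have g3 := hf (x - k) (by push_cast at hk; omega) (by omega)
      rw [show x - (k : ℤ) - 1 = x - ((k + 1 : ℕ) : ℤ) by push_cast; ring, show x - (k : ℤ) + 1 = x + 1 - k by ring] at g3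
      rw [show x + 1 - ((k + 1 : ℕ) : ℤ) = x - k by push_cast; ring]
      refine ⟨by linarith, ?_⟩
      push_cast at g3 ⊢
      linarith
  intro d hd0 hdn
  rcases le_total d x with h | h
  · obtain ⟨k, hk⟩ : ∃ k : ℕ, d = x - k := ⟨(x - d).toNat, by omega⟩
    have g := (hdown k (by omega)).2
    rw [← hk] at g
    have e1 : ((d - x : ℤ) : ℝ) = -(k : ℝ) := by
      rw [hk]
      push_cast
      ring
    rw [e1]
    linarith
  · rcases h.eq_or_lt with h2 | h2
    · rw [← h2]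
      simp
    · obtain ⟨k, hk⟩ : ∃ k : ℕ, d = x + 1 + k := ⟨(d - x - 1).toNat, by omega⟩
      have g := (hup k (by omega)).2
      rw [← hk] at g
      have e1 : ((d - x : ℤ) : ℝ) = (k : ℝ) + 1 := by
        rw [hk]
        push_cast
        ring
      rw [e1]
      exact g

namespace Geo

variable (G : Geo)

/-- The region of the paths which start the windows `1, …, M` in the cells. -/
def Win (M : ℕ) : Set Pt :=
  {q | ∀ k, 1 ≤ k → k ≤ M → q.1 = ((k * G.L' : ℕ) : ℤ) → G.lo k ≤ q.2 ∧ q.2 ≤ G.lo k + G.J * G.w}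

/-- The sites right of the cells of the window `k`. -/
noncomputable def Srt (P : Pt) (k : ℕ) : Finset Pt :=
  (Sites Set.univ P ((k * G.L' : ℕ) : ℤ)).filter fun q => G.lo k + G.J * G.w < q.2

/-- The sites left of the cells of the window `k`. -/
noncomputable def Slt (P : Pt) (k : ℕ) : Finset Pt :=
  (Sites Set.univ P ((k * G.L' : ℕ) : ℤ)).filter fun q => q.2 < G.lo k

/-- The paths outside the windows. -/
theorem win_dec (η : Env) (P Q : Pt) (hL : 1 ≤ G.L') (hP1 : P.1 = 0) {M : ℕ} (hQ : ((M * G.L' : ℕ) : ℤ) ≤ Q.1) :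
    wt μ s Set.univ η P Q ≤ wt μ s (G.Win M) η P Q +
      ∑ k ∈ Finset.Icc 1 M, (Gt μ s (G.Srt P k) P Q η + Gt μ s (G.Slt P k) P Q η) := by
  induction M with
  | zero =>
    have h0 : G.Win 0 = Set.univ := by
      ext q
      simp only [Win, Set.mem_univ, iff_true]
      intro k h1 h2
      omega
    rw [h0]
    simp
  | succ M ih =>
    have hQ' : ((M * G.L' : ℕ) : ℤ) ≤ Q.1 := by
      refine le_trans ?_ hQ
      have : M * G.L' ≤ (M + 1) * G.L' := Nat.mul_le_mul_right _ (Nat.le_succ M)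
      exact_mod_cast this
    have h1 := ih hQ'
    have hPW : P ∈ G.Win M := by
      intro k hk _ hPk
      rw [hP1] at hPk
      have : 1 ≤ k * G.L' := Nat.mul_pos hk hL
      omega
    have h2 := wt_remove (μ := μ) (s := s) (G.Win M) η P Q hPW (((M + 1) * G.L' : ℕ) : ℤ) (by rw [hP1]; positivity) hQ
      (fun q => G.lo (M + 1) ≤ q.2 ∧ q.2 ≤ G.lo (M + 1) + G.J * G.w) (G.Srt P (M + 1) ∪ G.Slt P (M + 1))
      (fun v hv hvg => by
        obtain ⟨g1, g2, g3, _⟩ := mem_Sites.1 hv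
        have g5 : v ∈ Sites Set.univ P (((M + 1) * G.L' : ℕ) : ℤ) := mem_Sites.2 ⟨g1, g2, g3, Set.mem_univ _⟩
        rw [mem_union]
        by_cases g6 : G.lo (M + 1) ≤ v.2
        · left
          refine mem_filter.2 ⟨g5, ?_⟩
          by_contra g7
          exact hvg ⟨g6, not_lt.1 g7⟩
        · right
          exact mem_filter.2 ⟨g5, not_le.1 g6⟩)
    have h3 : {q : Pt | q ∈ G.Win M ∧ (q.1 = (((M + 1) * G.L' : ℕ) : ℤ) →
        G.lo (M + 1) ≤ q.2 ∧ q.2 ≤ G.lo (M + 1) + G.J * G.w)} = G.Win (M + 1) := by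
      ext q
      constructor
      · rintro ⟨g1, g2⟩ k hk1 hk2 hq
        rcases Nat.lt_or_ge k (M + 1) with h | h
        · exact g1 k hk1 (by omega) hq
        · have : k = M + 1 := by omega
          subst this
          exact g2 hq
      · intro g
        exact ⟨fun k hk1 hk2 hq => g k hk1 (by omega) hq, fun hq => g (M + 1) (by omega) le_rfl hq⟩
    rw [h3] at h2
    have h4 : ∑ v ∈ G.Srt P (M + 1) ∪ G.Slt P (M + 1), wt μ s (G.Win M) η P v * wt μ s (G.Win M) η v Q ≤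
        Gt μ s (G.Srt P (M + 1)) P Q η + Gt μ s (G.Slt P (M + 1)) P Q η := by
      have h5 : ∑ v ∈ G.Srt P (M + 1) ∪ G.Slt P (M + 1), wt μ s (G.Win M) η P v * wt μ s (G.Win M) η v Q ≤
          ∑ v ∈ G.Srt P (M + 1) ∪ G.Slt P (M + 1), wt μ s Set.univ η P v * wt μ s Set.univ η v Q :=
        sum_le_sum fun v _ => mul_le_mul (wt_le _ _ _ _) (wt_le _ _ _ _) (wt_nonneg _ _ _ _) (wt_nonneg _ _ _ _)
      refine h5.trans ?_
      unfold Gt
      have h6 := sum_union_inter (s₁ := G.Srt P (M + 1)) (s₂ := G.Slt P (M + 1))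
        (f := fun v => wt μ s Set.univ η P v * wt μ s Set.univ η v Q)
      have h7 : 0 ≤ ∑ v ∈ G.Srt P (M + 1) ∩ G.Slt P (M + 1), wt μ s Set.univ η P v * wt μ s Set.univ η v Q :=
        sum_nonneg fun v _ => mul_nonneg (wt_nonneg _ _ _ _) (wt_nonneg _ _ _ _)
      linarith
    -- the paths in the first `M` windows
    have h8 : wt μ s Set.univ η P Q ≤ wt μ s (G.Win (M + 1)) η P Q +
        (Gt μ s (G.Srt P (M + 1)) P Q η + Gt μ s (G.Slt P (M + 1)) P Q η) +
        ∑ k ∈ Finset.Icc 1 M, (Gt μ s (G.Srt P k) P Q η + Gt μ s (G.Slt P k) P Q η) := by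
      linarith
    rw [sum_Icc_succ_top (by omega)]
    linarith

/-- THE INNER EDGE, for numbers. `M` windows; the path goes from `0` to `(N, z)`, `N = (M + 1) L' + n'`, all `M + 1` pieces have the duration
`L = L' + n'`. Walls: at the starts of the windows the displacements beyond the cells are expensive in the mean. The conclusion compares
the mean cost of the average displacement `x` of the pieces with the cost of the path and the costs of the references. -/
theorem inner4 [IsProbabilityMeasure μ] (hμ : Pool.Agent.W_7d29a1_h47.EM μ) (hnd : Pool.Agent.W_7d29a1_h47.Nondeg μ)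
    {pw : ℝ} (hpw : 0 < pw) : ∃ (T₀ : ℕ) (Cw : ℝ), ∀ (s : ℝ) (zr : ℕ → ℤ), (∀ m, 0 ≤ zr m ∧ zr m ≤ m) →
    ∀ (G : Geo) (M N : ℕ) (z x : ℤ) (r ζ β p p' C₃ y : ℝ), N = (M + 1) * G.L' + G.n' → 1 ≤ M → 1 ≤ G.L' → G.n' ≤ G.L' →
    1 ≤ G.J → 1 ≤ G.w → 0 ≤ G.h - G.w → G.h ≤ G.n' → 0 ≤ p →
    (∀ k, 1 ≤ k → k ≤ M → ∃ c : ℤ, 0 ≤ c ∧ c ≤ (k * G.L' : ℕ) ∧ c ≤ G.lo k + G.J * G.w + 1 ∧
      max (max (2 * y) Cw) (6 * EU μ s zr (2 ^ T₀ * N)) <
        e μ s (k * G.L') (G.lo k + G.J * G.w + 1) - e μ s (k * G.L') c) →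
    (∀ k, 1 ≤ k → k ≤ M → ∃ c : ℤ, 0 ≤ c ∧ c ≤ (N - k * G.L' : ℕ) ∧ G.lo k - 1 + c ≤ z ∧
      max (max (2 * y) Cw) (6 * EU μ s zr (2 ^ T₀ * N)) <
        e μ s (N - k * G.L') (z - (G.lo k - 1)) - e μ s (N - k * G.L') c) →
    (∀ d : ℤ, 0 ≤ d → d ≤ (G.L' + G.n' : ℕ) →
      (law μ).real {η | X μ s η 0 (G.L' + G.n') d < min (e μ s (G.L' + G.n') d) β - ζ} ≤ p) →
    (law μ).real {η | r + ζ < X μ s η 0 G.n' G.h} ≤ p → (law μ).real {η | r + ζ < X μ s η 0 G.n' (G.h - G.w)} ≤ p →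
    0 ≤ z → z ≤ N → (law μ).real {η | C₃ < X μ s η 0 N z} ≤ p' → 4 * M * Real.exp (-y) ≤ Real.exp (-C₃) →
    0 ≤ x → x + 1 ≤ (G.L' + G.n' : ℕ) → e μ s (G.L' + G.n') x ≤ e μ s (G.L' + G.n') (x + 1) →
    (M + 1) * x ≤ z + M * (G.h - G.w) → 0 ≤ β → 6 * (M + 1) * G.J ^ 2 * p + (2 * M * pw + p') < 1 →
    min ((M + 1) * e μ s (G.L' + G.n') x) β ≤
      C₃ + Real.log 2 + (M + 1) * ζ + M * (r + ζ) + M * Real.log (2 * G.J) := by
  obtain ⟨T₀, Cw, hconf⟩ := conf_prob hμ hnd hpw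
  refine ⟨T₀, Cw, ?_⟩
  intro s zr hzr G M N z x r ζ β p p' C₃ y hN hM hL hn hJ hw hhw hhn hp hwr hwl hpiece hr1 hr2 hz0 hzN hpath hy hx0 hx1 hxm hxz
    hβ hcount
  classical
  set P : Pt := (0, 0) with hP
  set Q : Pt := ((N : ℤ), z) with hQ
  -- the bad events of the path
  have hQ1 : Q.1 = ((M + 1) * G.L' + G.n' : ℕ) := by
    rw [hQ, hN]
  have hkN : ∀ k, k ≤ M → k * G.L' ≤ N := by
    intro k hk
    rw [hN]
    have : k * G.L' ≤ (M + 1) * G.L' := Nat.mul_le_mul_right _ (by omega)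
    omega
  have hG1 : ∀ k ∈ Finset.Icc 1 M, (law μ).real {η | Real.exp (-y) ≤ Gt μ s (G.Srt P k) P Q η} ≤ pw := by
    intro k hk
    rw [Finset.mem_Icc] at hk
    obtain ⟨c, c1, c2, c3, c4⟩ := hwr k hk.1 hk.2
    refine (hconf s zr hzr (k * G.L') N z (G.lo k + G.J * G.w + 1 - c) c (G.Srt P k) y _ (hkN k hk.2) c1
      (fun v hv => (mem_Sites.1 (mem_filter.1 hv).1).1) (Or.inl ⟨c2, by omega, fun v hv => ?_, rfl⟩) ?_).le
    · have := (mem_filter.1 hv).2
      omega
    · rw [sub_add_cancel]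
      exact c4
  have hG2 : ∀ k ∈ Finset.Icc 1 M, (law μ).real {η | Real.exp (-y) ≤ Gt μ s (G.Slt P k) P Q η} ≤ pw := by
    intro k hk
    rw [Finset.mem_Icc] at hk
    obtain ⟨c, c1, c2, c3, c4⟩ := hwl k hk.1 hk.2
    refine (hconf s zr hzr (k * G.L') N z (G.lo k - 1) c (G.Slt P k) y _ (hkN k hk.2) c1
      (fun v hv => (mem_Sites.1 (mem_filter.1 hv).1).1) (Or.inr ⟨c2, c3, fun v hv => ?_, rfl⟩) c4).le
    have := (mem_filter.1 hv).2
    omega
  have hun : ∀ B : ℕ → Set Env, (∀ q ∈ Finset.Icc 1 M, (law μ).real (B q) ≤ pw) →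
      (law μ).real (⋃ q ∈ Finset.Icc 1 M, B q) ≤ M * pw := by
    intro B hB
    refine (measureReal_biUnion_finset_le _ B).trans ?_
    have := sum_le_card_nsmul (Finset.Icc 1 M) (fun q => (law μ).real (B q)) pw hB
    rw [nsmul_eq_mul, Nat.card_Icc, Nat.add_sub_cancel] at this
    exact this
  have hWX : ∀ η : Env, wt μ s Set.univ η P Q = Real.exp (-X μ s η 0 N z) := by
    intro η
    rw [wt_univ (by rw [hP, hQ]; simp), hP, hQ]
    have hpos := W_pos (μ := μ) (s := s) η 0 hz0 hzN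
    unfold X
    rw [neg_neg, Real.exp_log hpos]
    simp
    rfl
  have hpathR : (law μ).real {η | ¬ Real.exp (-(C₃ + Real.log 2)) ≤ wt μ s (G.Win M) η P Q} ≤ 2 * M * pw + p' := by
    have hsub : {η : Env | ¬ Real.exp (-(C₃ + Real.log 2)) ≤ wt μ s (G.Win M) η P Q} ⊆
        {η | C₃ < X μ s η 0 N z} ∪ ((⋃ k ∈ Finset.Icc 1 M, {η | Real.exp (-y) ≤ Gt μ s (G.Srt P k) P Q η}) ∪
          ⋃ k ∈ Finset.Icc 1 M, {η | Real.exp (-y) ≤ Gt μ s (G.Slt P k) P Q η}) := by
      intro η hη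
      by_contra hcon
      simp only [Set.mem_union, Set.mem_iUnion, not_or, not_exists] at hcon
      obtain ⟨b1, b2, b3⟩ := hcon
      apply hη
      have b1' : X μ s η 0 N z ≤ C₃ := not_lt.1 b1
      have hdec := G.win_dec (μ := μ) (s := s) η P Q hL rfl (M := M)
        (show ((M * G.L' : ℕ) : ℤ) ≤ (N : ℤ) by exact_mod_cast hkN M le_rfl)
      have hsum : ∑ k ∈ Finset.Icc 1 M, (Gt μ s (G.Srt P k) P Q η + Gt μ s (G.Slt P k) P Q η) ≤ M * (2 * Real.exp (-y)) := by
        have := sum_le_card_nsmul (Finset.Icc 1 M)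
          (fun k => Gt μ s (G.Srt P k) P Q η + Gt μ s (G.Slt P k) P Q η) (2 * Real.exp (-y)) (fun k hk => by
            have g1 : Gt μ s (G.Srt P k) P Q η < Real.exp (-y) := not_le.1 (b2 k hk)
            have g2 : Gt μ s (G.Slt P k) P Q η < Real.exp (-y) := not_le.1 (b3 k hk)
            linarith)
        rw [nsmul_eq_mul, Nat.card_Icc, Nat.add_sub_cancel] at this
        exact this
      have hW1 : Real.exp (-C₃) ≤ wt μ s Set.univ η P Q := by
        rw [hWX]
        exact Real.exp_le_exp.2 (by linarith)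
      have e1 : Real.exp (-(C₃ + Real.log 2)) = Real.exp (-C₃) / 2 := by
        rw [neg_add, Real.exp_add, Real.exp_neg (Real.log 2), Real.exp_log (by norm_num)]
        ring
      rw [e1]
      linarith
    refine (measureReal_mono hsub (measure_ne_top _ _)).trans ?_
    have e1 := measureReal_union_le (μ := law μ) {η : Env | C₃ < X μ s η 0 N z}
      ((⋃ k ∈ Finset.Icc 1 M, {η | Real.exp (-y) ≤ Gt μ s (G.Srt P k) P Q η}) ∪
        ⋃ k ∈ Finset.Icc 1 M, {η | Real.exp (-y) ≤ Gt μ s (G.Slt P k) P Q η})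
    have e2 := measureReal_union_le (μ := law μ) (⋃ k ∈ Finset.Icc 1 M, {η : Env | Real.exp (-y) ≤ Gt μ s (G.Srt P k) P Q η})
      (⋃ k ∈ Finset.Icc 1 M, {η | Real.exp (-y) ≤ Gt μ s (G.Slt P k) P Q η})
    have e3 := hun _ hG1
    have e4 := hun _ hG2
    linarith
  -- the supporting line
  have hline := line_of_convex (f := fun d => e μ s (G.L' + G.n') d) (n := ((G.L' + G.n' : ℕ) : ℤ))
    (fun q hq1 hq2 => e_convex hμ hq1 (by exact_mod_cast hq2)) hx1 hx0
  set σ : ℝ := e μ s (G.L' + G.n') (x + 1) - e μ s (G.L' + G.n') x with hσ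
  have hσ0 : 0 ≤ σ := by
    rw [hσ]
    linarith
  set m' : ℝ := e μ s (G.L' + G.n') x - σ * x with hm'
  have hlow : ∀ d : ℤ, 0 ≤ d → d ≤ (G.L' + G.n' : ℕ) →
      (law μ).real {η | X μ s η 0 (G.L' + G.n') d < clp β (m' + σ * d) - ζ} ≤ p := by
    intro d hd0 hd1
    refine le_trans (measureReal_mono (fun η hη => ?_) (measure_ne_top _ _)) (hpiece d hd0 hd1)
    have hη' : X μ s η 0 (G.L' + G.n') d < clp β (m' + σ * d) - ζ := hη
    show X μ s η 0 (G.L' + G.n') d < min (e μ s (G.L' + G.n') d) β - ζ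
    refine lt_of_lt_of_le hη' (sub_le_sub_right ?_ ζ)
    have g1 := hline d hd0 hd1
    have g2 : m' + σ * d ≤ e μ s (G.L' + G.n') d := by
      rw [hm']
      push_cast at g1
      linarith
    have g3 : 0 ≤ e μ s (G.L' + G.n') d := e_nonneg hμ s hd0 (by exact_mod_cast hd1)
    unfold clp
    exact max_le (le_min g3 hβ) (min_le_min g2 le_rfl)
  have hfin := G.inner_mean (μ := μ) (s := s) (R := G.Win M) (P := P) (Q := Q) (M := M) hn (by
      intro k hk _ hPk
      have h1 : 1 ≤ k * G.L' := Nat.mul_pos hk hL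
      have h2 : (0 : ℤ) = ((k * G.L' : ℕ) : ℤ) := hPk
      omega) rfl hQ1
    (fun k hk1 hk2 a ha => by
      obtain ⟨g1, _, _, g4⟩ := mem_Sites.1 ha
      exact g4 k hk1 hk2 g1) hJ hw (m' := m') (σ := σ) (r := r) (ζ := ζ) (β := β) (p := p) (p' := 2 * M * pw + p')
    (C₃ := C₃ + Real.log 2) hσ0 hp hM
    (fun j hj d hd g1 g2 => hlow d g1 g2) (fun k j b j' _ _ _ _ d hd g1 g2 => hlow d g1 g2)
    (fun j b _ d hd g1 g2 => hlow d g1 g2) hhw hhn hr1 hr2 hpathR hcount
  have hlin : (M + 1) * e μ s (G.L' + G.n') x ≤ (M + 1) * m' + σ * ((Q.2 - P.2 : ℤ) + M * (G.h - G.w : ℤ)) := by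
    have g1 : (((M + 1) * x : ℤ) : ℝ) ≤ ((z + M * (G.h - G.w) : ℤ) : ℝ) := by exact_mod_cast hxz
    have g2 := mul_le_mul_of_nonneg_left g1 hσ0
    have g3 : ((Q.2 - P.2 : ℤ) : ℝ) = z := by
      rw [hP, hQ]
      simp
    rw [g3, hm']
    push_cast at g2 ⊢
    nlinarith
  have hmin : min ((M + 1) * e μ s (G.L' + G.n') x) β ≤
      clp β ((M + 1) * m' + σ * ((Q.2 - P.2 : ℤ) + M * (G.h - G.w : ℤ))) :=
    (min_le_min hlin le_rfl).trans (le_max_right _ _)
  linarith

end Geo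

end Pool.Agent.W_7d29a1_g
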