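import Pool.Agent.W_7d29a1_g.EL67L
import Pool.Agent.W_7d29a1_h66.D7oct

/-!
TRACK G, (EL)[A] as the input of D7 (row 618). helper67.
-/

namespace Pool.Agent.W_7d29a1_g.K67

open MeasureTheory

/-- **(EL)[A] at a scale which is not soft, from the inner cone.** -/
theorem elout {μ : Measure ℝ} [IsProbabilityMeasure μ] (hμ : Pool.Agent.W_7d29a1_h47.EM μ)
    (hnd : Pool.Agent.W_7d29a1_h47.Nondeg μ) (hI : Pool.Agent.W_7d29a1_G.FIn μ) : Pool.Agent.W_7d29a1_h66.ELout μ :=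
  el_out hμ hnd hI

end Pool.Agent.W_7d29a1_g.K67
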