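import Pool.Agent.W_7d29a1_F.LuckA
import Pool.Agent.W_7d29a1_F.Bridge2

/-!
Track G (MP_7d29a1_pr): the first absolute moment of every point to point cost is bounded by its mean, the mean of a
complementary displacement, and the mean positive part of the cost of the sum of the two displacements. With the unit
`E⁺` of direction `0` this gives `E |X(0,b)| ≤ C E⁺` in the whole cone of the directions which are cheap in the mean.
(helper70)
-/

namespace Pool.Agent.W_7d29a1_g

open MeasureTheory ProbabilityTheory Pool.Agent.W_7d29a1_F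

variable {μ : Measure ℝ} [IsProbabilityMeasure μ] {s : ℝ}

/-- `E |f| ≤ E |f + g| + |E g|` for independent `f`, `g`. -/
theorem abs_le_abs_add (hEM : Pool.Agent.W_7d29a1_h47.EM μ) {f g : Env → ℝ} {A B : Set Pt} (hf : Sub f) (hg : Sub g)
    (hfA : DependsOn f A) (hgB : DependsOn g B) (h : Disjoint A B) :
    ∫ η, |f η| ∂(law μ) ≤ (∫ η, |f η + g η| ∂(law μ)) + |∫ η, g η ∂(law μ)| := by
  classical
  obtain ⟨σ, hσ⟩ : ∃ σ : Env → ℝ, σ = fun η => if 0 ≤ f η then (1 : ℝ) else -1 := ⟨_, rfl⟩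
  have hσ1 : ∀ η, |σ η| ≤ 1 := by
    intro η
    rw [hσ]
    dsimp only
    split_ifs <;> simp
  have hσm : Measurable σ := by
    rw [hσ]
    exact Measurable.ite (measurableSet_le measurable_const hf.1) measurable_const measurable_const
  have hσS : Sub σ := ⟨hσm, ∅, 1, zero_le_one, fun η => by simpa using hσ1 η⟩
  have hσA : DependsOn σ A := by
    intro η η' hh
    have h1 : f η = f η' := hfA hh
    rw [hσ]
    dsimp only
    rw [h1]
  have key : ∀ η, |f η| + σ η * g η ≤ |f η + g η| := by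
    intro η
    have h1 : σ η * f η = |f η| := by
      rw [hσ]
      dsimp only
      split_ifs with h0
      · rw [one_mul, abs_of_nonneg h0]
      · rw [abs_of_neg (not_le.1 h0)]
        ring
    calc |f η| + σ η * g η = σ η * (f η + g η) := by rw [← h1]; ring
      _ ≤ |σ η * (f η + g η)| := le_abs_self _
      _ = |σ η| * |f η + g η| := abs_mul _ _
      _ ≤ 1 * |f η + g η| := mul_le_mul_of_nonneg_right (hσ1 η) (abs_nonneg _)
      _ = |f η + g η| := one_mul _
  have hi1 : Integrable (fun η => |f η|) (law μ) := (hf.abs).integrable hEM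
  have hi2 : Integrable (fun η => σ η * g η) (law μ) := Sub.mul_integrable hEM hσS hg
  have hi3 : Integrable (fun η => |f η + g η|) (law μ) := ((hf.add hg).abs).integrable hEM
  have h1 := integral_mono (hi1.add hi2) hi3 key
  have h2 : ∫ η, (|f η| + σ η * g η) ∂(law μ) = (∫ η, |f η| ∂(law μ)) +
      (∫ η, σ η ∂(law μ)) * ∫ η, g η ∂(law μ) := by
    rw [integral_add hi1 hi2, integral_indep hσm hg.1 hσA hgB h]
  have h3 : |∫ η, σ η ∂(law μ)| ≤ 1 := by
    have h4 := norm_integral_le_of_norm_le_const (μ := law μ) (f := σ) (C := 1)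
      (Filter.Eventually.of_forall fun η => by rw [Real.norm_eq_abs]; exact hσ1 η)
    simpa using h4
  have h5 : -|∫ η, g η ∂(law μ)| ≤ (∫ η, σ η ∂(law μ)) * ∫ η, g η ∂(law μ) := by
    have h6 : |(∫ η, σ η ∂(law μ)) * ∫ η, g η ∂(law μ)| ≤ |∫ η, g η ∂(law μ)| := by
      rw [abs_mul]
      exact mul_le_of_le_one_left (abs_nonneg _) h3
    have h7 := neg_abs_le ((∫ η, σ η ∂(law μ)) * ∫ η, g η ∂(law μ))
    linarith
  have h8 : ∫ η, ((fun η => |f η|) + fun η => σ η * g η) η ∂(law μ) = ∫ η, (|f η| + σ η * g η) ∂(law μ) := rfl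
  rw [h8, h2] at h1
  linarith

/-- The first absolute moment of the cost of `(m, k)`; `(n, y)` is any complementary displacement. -/
theorem abs_X_le (hEM : Pool.Agent.W_7d29a1_h47.EM μ) {m n : ℕ} {k y : ℤ} (h0 : 0 ≤ k) (h1 : k ≤ m) (h2 : 0 ≤ y)
    (h3 : y ≤ n) : ∫ η, |X μ s η 0 m k| ∂(law μ) ≤
      e μ s m k + 2 * e μ s n y + 2 * ∫ η, max (X μ s η 0 (m + n) (k + y)) 0 ∂(law μ) := by
  have hf : Sub fun η : Env => X μ s η 0 m k := Sub_X (0 : Pt) h0 h1
  have hg : Sub fun η : Env => X μ s η (((0 : Pt).1 + m, (0 : Pt).2 + k)) n y := Sub_X _ h2 h3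
  have hc : Sub fun η : Env => X μ s η 0 (m + n) (k + y) := Sub_X (0 : Pt) (by omega) (by push_cast; omega)
  have hfA := X_dep_rows (μ := μ) (s := s) (0 : Pt) m k
  have hgB := X_dep_rows (μ := μ) (s := s) (((0 : Pt).1 + m, (0 : Pt).2 + k)) n y
  have hd : Disjoint (rows (0 : Pt).1 ((0 : Pt).1 + m)) (rows ((((0 : Pt).1 + m, (0 : Pt).2 + k) : Pt)).1
      ((((0 : Pt).1 + m, (0 : Pt).2 + k) : Pt).1 + n)) := rows_disj le_rfl
  have a1 := abs_le_abs_add hEM hf hg hfA hgB hd
  have e1 : ∫ η, X μ s η 0 m k ∂(law μ) = e μ s m k := integral_X 0 m k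
  have e2 : ∫ η, X μ s η (((0 : Pt).1 + m, (0 : Pt).2 + k)) n y ∂(law μ) = e μ s n y := integral_X _ n y
  have e3 : ∫ η, X μ s η 0 (m + n) (k + y) ∂(law μ) = e μ s (m + n) (k + y) := integral_X 0 (m + n) (k + y)
  have n2 : 0 ≤ e μ s n y := e_nonneg hEM s h2 h3
  have n3 : 0 ≤ e μ s (m + n) (k + y) := e_nonneg hEM s (by omega) (by push_cast; omega)
  have hi : ∀ {u : Env → ℝ}, Sub u → Integrable u (law μ) := fun hu => hu.integrable hEM
  have key : ∀ η, |X μ s η 0 m k + X μ s η (((0 : Pt).1 + m, (0 : Pt).2 + k)) n y| ≤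
      (X μ s η 0 m k + X μ s η (((0 : Pt).1 + m, (0 : Pt).2 + k)) n y) +
        (2 * max (X μ s η 0 (m + n) (k + y)) 0 - 2 * X μ s η 0 (m + n) (k + y)) := by
    intro η
    have hle := X_add_le (μ := μ) (s := s) η (0 : Pt) h0 h1 h2 h3
    have m1 := le_max_left (X μ s η 0 (m + n) (k + y)) 0
    have m2 := le_max_right (X μ s η 0 (m + n) (k + y)) 0
    rw [abs_le]
    constructor
    · linarith
    · linarith
  have hS1 := hf.add hg
  have hS2 := (hc.max (Sub.const 0)).const_mul 2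
  have hS3 := hc.const_mul 2
  have hS4 := hS2.sub hS3
  have hmono := integral_mono (hi hS1.abs) (hi (hS1.add hS4)) key
  have hsum : ∫ η, ((X μ s η 0 m k + X μ s η (((0 : Pt).1 + m, (0 : Pt).2 + k)) n y) +
        (2 * max (X μ s η 0 (m + n) (k + y)) 0 - 2 * X μ s η 0 (m + n) (k + y))) ∂(law μ) =
      (e μ s m k + e μ s n y) + (2 * (∫ η, max (X μ s η 0 (m + n) (k + y)) 0 ∂(law μ)) -
        2 * e μ s (m + n) (k + y)) := by
    rw [integral_add (hi hS1) (hi hS4), integral_add (hi hf) (hi hg), integral_sub (hi hS2) (hi hS3),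
      integral_const_mul, integral_const_mul, e1, e2, e3]
  have hmono' : ∫ η, |X μ s η 0 m k + X μ s η (((0 : Pt).1 + m, (0 : Pt).2 + k)) n y| ∂(law μ) ≤
      (e μ s m k + e μ s n y) + (2 * (∫ η, max (X μ s η 0 (m + n) (k + y)) 0 ∂(law μ)) -
        2 * e μ s (m + n) (k + y)) := hsum ▸ hmono
  rw [e2, abs_of_nonneg n2] at a1
  linarith

/-- The positive part. -/
theorem pos_X_le (hEM : Pool.Agent.W_7d29a1_h47.EM μ) {m n : ℕ} {k y : ℤ} (h0 : 0 ≤ k) (h1 : k ≤ m) (h2 : 0 ≤ y)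
    (h3 : y ≤ n) : ∫ η, max (X μ s η 0 m k) 0 ∂(law μ) ≤
      e μ s m k + e μ s n y + ∫ η, max (X μ s η 0 (m + n) (k + y)) 0 ∂(law μ) := by
  have hf : Sub fun η : Env => X μ s η 0 m k := Sub_X (0 : Pt) h0 h1
  have a1 := abs_X_le (s := s) hEM h0 h1 h2 h3
  have e1 : ∫ η, X μ s η 0 m k ∂(law μ) = e μ s m k := integral_X 0 m k
  have key : ∀ η, max (X μ s η 0 m k) 0 = (1 / 2) * |X μ s η 0 m k| + (1 / 2) * X μ s η 0 m k := by
    intro η
    rcases le_total 0 (X μ s η 0 m k) with h | h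
    · rw [max_eq_left h, abs_of_nonneg h]
      ring
    · rw [max_eq_right h, abs_of_nonpos h]
      ring
  have h5 : ∫ η, max (X μ s η 0 m k) 0 ∂(law μ) =
      (1 / 2) * (∫ η, |X μ s η 0 m k| ∂(law μ)) + (1 / 2) * e μ s m k := by
    rw [integral_congr_ae (Filter.Eventually.of_forall key), integral_add
      ((hf.abs.integrable hEM).const_mul _) ((hf.integrable hEM).const_mul _), integral_const_mul, integral_const_mul, e1]
  rw [h5]
  linarith

end Pool.Agent.W_7d29a1_g
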