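import Mathlib

/-!
MP_7d29a1_pr (G+, track G): the bookkeeping of the chain (A), (B), (C) with Tool S. `x` is the number of an octave,
`g x = log₂ E (2 ^ x)` (cost unit), `f x = - log₂ v (2 ^ x)` (width of the nearly flat cone), `a x = log₂ (E / σ)`
(unit divided by the size of the fluctuations), `U x` the width of the edge.
`hS`: Tool S. `hU`: the widths are paid by the closing of the cone. `hA`: near an octave of growth the fluctuations are of the size of
the unit. `hB`: volume argument with blocks. `hG`: fluctuations of the size of the unit force the unit to double.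
-/

set_option autoImplicit false

open Finset

namespace Pool.Agent.W_7d29a1_g

/-- Sum of the growth over the octaves `[y, x)`. -/
theorem sum_growth (g : ℕ → ℝ) {y x : ℕ} (h : y ≤ x) : ∑ z ∈ Ico y x, (g (z + 1) - g z) = g x - g y := by
  induction x, h using Nat.le_induction with
  | base => simp
  | succ x hx ih =>
    rw [sum_Ico_succ_top hx, ih]
    ring

/-- The chain. -/
theorem chain {g f a U e : ℕ → ℝ} {C₁ C₂ C₃ C₅ δ : ℝ} (hδ : 0 < δ) (hC₁ : 0 ≤ C₁) (hC₂ : 0 ≤ C₂)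
    (hg : Monotone g) (hg1 : ∀ x, g (x + 1) ≤ g x + 1) (hf : Monotone f)
    (hU0 : ∀ x, 0 ≤ U x) (he0 : ∀ x, 0 ≤ e x) (he : ∀ y x, y ≤ x → ∑ z ∈ Ico y x, e z ≤ C₅)
    (hU : ∀ y x, y ≤ x → ∑ z ∈ Ico y x, U z ≤ C₂ * (f x - f y) + C₃)
    (hS : ∀ x, g (x + 1) - g x ≤ C₁ * U x ^ (1 + δ) + e x)
    (hA : ∀ ε : ℝ, 0 < ε → ∃ (a₁ : ℝ) (k : ℕ), ∀ x, ε ≤ g (x + 1) - g x → ∃ y, x ≤ y + k ∧ y ≤ x + k ∧ a y ≤ a₁)
    (hB : ∀ a₁ : ℝ, ∃ C : ℝ, ∀ y x, y ≤ x → a y ≤ a₁ → a x ≤ g x - g y - (f x - f y) / 2 + C)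
    (hG : ∀ a₁ : ℝ, ∃ T : ℕ, ∀ x, a x ≤ a₁ → g x + 1 ≤ g (x + T)) :
    ∃ c C : ℝ, 0 < c ∧ ∀ x : ℕ, c * x - C ≤ f x := by
  -- the threshold of the growth
  obtain ⟨u₀, hu₀, hu1⟩ : ∃ u₀ : ℝ, 0 < u₀ ∧ ∀ u : ℝ, 0 ≤ u → u ≤ u₀ → C₁ * u ^ δ * (4 * (C₂ + 1)) ≤ 1 := by
    refine ⟨(1 / (4 * (C₂ + 1) * (C₁ + 1))) ^ (1 / δ), by positivity, fun u hu hu' => ?_⟩
    have h1 : u ^ δ ≤ 1 / (4 * (C₂ + 1) * (C₁ + 1)) := by
      have h2 := Real.rpow_le_rpow hu hu' hδ.le
      rwa [← Real.rpow_mul (by positivity), one_div_mul_cancel hδ.ne', Real.rpow_one] at h2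
    have h3 : C₁ * u ^ δ ≤ (C₁ + 1) * (1 / (4 * (C₂ + 1) * (C₁ + 1))) := by
      have h4 : 0 ≤ u ^ δ := Real.rpow_nonneg hu δ
      nlinarith
    calc C₁ * u ^ δ * (4 * (C₂ + 1)) ≤ (C₁ + 1) * (1 / (4 * (C₂ + 1) * (C₁ + 1))) * (4 * (C₂ + 1)) :=
          mul_le_mul_of_nonneg_right h3 (by positivity)
      _ = 1 := by field_simp
  set ε : ℝ := u₀ / (4 * (C₂ + 1)) with hε
  have hε0 : 0 < ε := by positivity
  -- slow octaves
  have hslow : ∀ x, g (x + 1) - g x < ε → (C₂ + 1) * (g (x + 1) - g x) ≤ U x / 4 + (C₂ + 1) * e x := by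
    intro x hx
    rcases le_or_gt (U x) u₀ with h | h
    · have h1 := hu1 (U x) (hU0 x) h
      have h2 : U x ^ (1 + δ) = U x * U x ^ δ := by
        rcases (hU0 x).eq_or_lt with h0 | h0
        · rw [← h0, Real.zero_rpow (by positivity), zero_mul]
        · rw [Real.rpow_add h0, Real.rpow_one]
      have h3 := hS x
      rw [h2] at h3
      have h4 : (C₂ + 1) * (C₁ * (U x * U x ^ δ)) ≤ U x / 4 := by
        have h5 : (C₂ + 1) * (C₁ * (U x * U x ^ δ)) = (C₁ * U x ^ δ * (4 * (C₂ + 1))) * (U x / 4) := by ring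
        rw [h5]
        have := hU0 x
        exact mul_le_of_le_one_left (by positivity) h1
      nlinarith
    · have h1 : (C₂ + 1) * (g (x + 1) - g x) ≤ (C₂ + 1) * ε := by nlinarith
      have h2 : (C₂ + 1) * ε = u₀ / 4 := by rw [hε]; field_simp
      have := he0 x
      nlinarith
  obtain ⟨a₁, k, hA1⟩ := hA ε hε0
  obtain ⟨CB, hCB⟩ := hB (max a₁ (a 0))
  -- all ratios are bounded
  have hC3 : 0 ≤ C₃ := by
    have := hU 0 0 le_rfl
    simp at this
    exact this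
  have hC5 : 0 ≤ C₅ := by
    have := he 0 0 le_rfl
    simp at this
    exact this
  have hbd : ∀ x, a x ≤ (2 * k + 2) + C₃ / 4 + C₅ + |CB| := by
    intro x
    classical
    -- the last octave with a small ratio
    set S : Finset ℕ := (range (x + 1)).filter fun y => a y ≤ max a₁ (a 0) with hSdef
    have hSne : S.Nonempty := ⟨0, by simp [hSdef]⟩
    set y := S.max' hSne with hy
    have hyS : y ∈ S := S.max'_mem hSne
    have hyx : y ≤ x := by
      have := (mem_filter.1 hyS).1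
      rw [mem_range] at this
      omega
    have hya : a y ≤ max a₁ (a 0) := (mem_filter.1 hyS).2
    have hmax : ∀ z, z ≤ x → a z ≤ max a₁ (a 0) → z ≤ y := fun z hz hz' =>
      S.le_max' z (mem_filter.2 ⟨mem_range.2 (by omega), hz'⟩)
    -- the fast octaves in `[y, x)`
    have hfast : ∀ z ∈ (Ico y x).filter (fun z => ε ≤ g (z + 1) - g z), z ∈ Ico y (y + k + 1) ∪ Ico (x - k) x := by
      intro z hz
      rw [mem_filter, mem_Ico] at hz
      obtain ⟨⟨hz1, hz2⟩, hz3⟩ := hz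
      obtain ⟨y', h1, h2, h3⟩ := hA1 z hz3
      rw [mem_union, mem_Ico, mem_Ico]
      by_cases h4 : y' ≤ x
      · have := hmax y' h4 (h3.trans (le_max_left _ _))
        left
        omega
      · right
        omega
    have hcard : ((Ico y x).filter (fun z => ε ≤ g (z + 1) - g z)).card ≤ (k + 1) + k := by
      refine (card_le_card hfast).trans ((card_union_le _ _).trans ?_)
      rw [Nat.card_Ico, Nat.card_Ico]
      omega
    have h1 : g x - g y = ∑ z ∈ (Ico y x).filter (fun z => ε ≤ g (z + 1) - g z), (g (z + 1) - g z)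
        + ∑ z ∈ (Ico y x).filter (fun z => ¬ ε ≤ g (z + 1) - g z), (g (z + 1) - g z) := by
      rw [← sum_growth g hyx, sum_filter_add_sum_filter_not]
    have h2 : ∑ z ∈ (Ico y x).filter (fun z => ε ≤ g (z + 1) - g z), (g (z + 1) - g z) ≤ 2 * k + 1 := by
      refine (sum_le_card_nsmul _ _ 1 fun z _ => by linarith [hg1 z]).trans ?_
      rw [nsmul_eq_mul, mul_one]
      exact_mod_cast (by omega : _ ≤ 2 * k + 1)
    have h3 : (C₂ + 1) * ∑ z ∈ (Ico y x).filter (fun z => ¬ ε ≤ g (z + 1) - g z), (g (z + 1) - g z)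
        ≤ (C₂ * (f x - f y) + C₃) / 4 + (C₂ + 1) * C₅ := by
      calc (C₂ + 1) * ∑ z ∈ (Ico y x).filter (fun z => ¬ ε ≤ g (z + 1) - g z), (g (z + 1) - g z)
          ≤ ∑ z ∈ (Ico y x).filter (fun z => ¬ ε ≤ g (z + 1) - g z), (U z / 4 + (C₂ + 1) * e z) := by
            rw [mul_sum]
            exact sum_le_sum fun z hz => hslow z (not_le.1 (mem_filter.1 hz).2)
        _ ≤ ∑ z ∈ Ico y x, (U z / 4 + (C₂ + 1) * e z) :=
            sum_le_sum_of_subset_of_nonneg (filter_subset _ _) fun z _ _ => by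
              have := hU0 z
              have := he0 z
              positivity
        _ = (∑ z ∈ Ico y x, U z) / 4 + (C₂ + 1) * ∑ z ∈ Ico y x, e z := by
            rw [sum_add_distrib, ← sum_div, ← mul_sum]
        _ ≤ (C₂ * (f x - f y) + C₃) / 4 + (C₂ + 1) * C₅ := by
            have h4 := hU y x hyx
            have h5 := he y x hyx
            have h6 : (C₂ + 1) * ∑ z ∈ Ico y x, e z ≤ (C₂ + 1) * C₅ := mul_le_mul_of_nonneg_left h5 (by positivity)
            linarith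
    have h4 := hCB y x hyx hya
    have h5 : f y ≤ f x := hf hyx
    have h6 : ∑ z ∈ (Ico y x).filter (fun z => ¬ ε ≤ g (z + 1) - g z), (g (z + 1) - g z)
        ≤ (f x - f y) / 4 + C₃ / 4 + C₅ := by
      have h7 : (C₂ + 1) * ∑ z ∈ (Ico y x).filter (fun z => ¬ ε ≤ g (z + 1) - g z), (g (z + 1) - g z)
          ≤ (C₂ + 1) * ((f x - f y) / 4 + C₃ / 4 + C₅) := by
        have h8 : 0 ≤ C₂ * C₃ := by positivity
        nlinarith
      exact le_of_mul_le_mul_left h7 (by positivity)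
    have h7 := le_abs_self CB
    linarith
  -- the unit doubles
  obtain ⟨T, hT⟩ := hG ((2 * k + 2) + C₃ / 4 + C₅ + |CB|)
  have hT1 : ∀ i : ℕ, g 0 + i ≤ g (i * T) := by
    intro i
    induction i with
    | zero => simp
    | succ i ih =>
      have h1 := hT (i * T) (hbd _)
      have h2 : (i + 1) * T = i * T + T := by ring
      rw [h2]
      push_cast
      linarith
  have hTpos : 0 < T := by
    rcases Nat.eq_zero_or_pos T with h | h
    · have := hT 0 (hbd 0)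
      rw [h] at this
      simp at this
      linarith
    · exact h
  have hgrow : ∀ x : ℕ, g 0 + x / T - 1 ≤ g x := by
    intro x
    have h1 := hT1 (x / T)
    have h2 : g (x / T * T) ≤ g x := hg (Nat.div_mul_le_self x T)
    have h3 : (x : ℝ) / T ≤ (x / T : ℕ) + 1 := by
      rw [div_le_iff₀ (by exact_mod_cast hTpos)]
      have h4 : x < (x / T + 1) * T := by
        have := Nat.div_add_mod x T
        have := Nat.mod_lt x hTpos
        nlinarith
      exact_mod_cast h4.le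
    linarith
  -- the growth is paid by the widths
  have hlin : ∀ x, g (x + 1) - g x ≤ (C₁ + 1) * U x + e x := by
    intro x
    rcases le_or_gt (U x) 1 with h | h
    · have h1 : U x ^ (1 + δ) ≤ U x := by
        rcases (hU0 x).eq_or_lt with h0 | h0
        · rw [← h0, Real.zero_rpow (by positivity)]
        · calc U x ^ (1 + δ) ≤ U x ^ (1 : ℝ) := Real.rpow_le_rpow_of_exponent_ge h0 h (by linarith)
            _ = U x := Real.rpow_one _
      have h2 := hS x
      have h3 := hU0 x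
      nlinarith
    · have h1 := hg1 x
      have h2 := he0 x
      nlinarith
  have hfin : ∀ x : ℕ, g x - g 0 ≤ (C₁ + 1) * (C₂ * (f x - f 0) + C₃) + C₅ := by
    intro x
    rw [← sum_growth g (Nat.zero_le x)]
    calc ∑ z ∈ Ico 0 x, (g (z + 1) - g z) ≤ ∑ z ∈ Ico 0 x, ((C₁ + 1) * U z + e z) := sum_le_sum fun z _ => hlin z
      _ = (C₁ + 1) * ∑ z ∈ Ico 0 x, U z + ∑ z ∈ Ico 0 x, e z := by rw [sum_add_distrib, ← mul_sum]
      _ ≤ _ := by
        have h4 := hU 0 x (Nat.zero_le x)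
        have h5 := he 0 x (Nat.zero_le x)
        have h6 := mul_le_mul_of_nonneg_left h4 (by positivity : (0 : ℝ) ≤ C₁ + 1)
        linarith
  have hq : 0 < (C₁ + 1) * (C₂ + 1) := by positivity
  have hTr : (0 : ℝ) < T := by exact_mod_cast hTpos
  refine ⟨1 / (T * ((C₁ + 1) * (C₂ + 1))), ((C₁ + 1) * C₃ + C₅ + 1) / ((C₁ + 1) * (C₂ + 1)) - f 0, by positivity, fun x => ?_⟩
  have h1 := hgrow x
  have h2 := hfin x
  have h3 : f 0 ≤ f x := hf (Nat.zero_le x)
  have h4 : (x : ℝ) / T ≤ (C₁ + 1) * (C₂ + 1) * (f x - f 0) + ((C₁ + 1) * C₃ + C₅ + 1) := by nlinarith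
  have h5 : (x : ℝ) / T / ((C₁ + 1) * (C₂ + 1)) ≤ (f x - f 0) + ((C₁ + 1) * C₃ + C₅ + 1) / ((C₁ + 1) * (C₂ + 1)) := by
    rw [div_le_iff₀ hq, add_mul, div_mul_cancel₀ _ hq.ne']
    linarith
  have h6 : 1 / (T * ((C₁ + 1) * (C₂ + 1))) * (x : ℝ) = (x : ℝ) / T / ((C₁ + 1) * (C₂ + 1)) := by
    field_simp
  rw [h6]
  linarith

/-- The general form of the chain. For every `η` there is a notion of slow octave (`P`): in slow octaves the growth is at most `η U`, near an
octave which is not slow the fluctuations are of the size of the unit. `hL`: the growth is always at most `C₁ U`. -/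
theorem chain_slow {g f a U e : ℕ → ℝ} {C₁ C₂ C₃ C₅ : ℝ} (hC₁ : 0 ≤ C₁) (hC₂ : 0 ≤ C₂)
    (hg : Monotone g) (hg1 : ∀ x, g (x + 1) ≤ g x + 1) (hf : Monotone f)
    (hU0 : ∀ x, 0 ≤ U x) (he : ∀ x, ∑ z ∈ range x, e z ≤ C₅)
    (hU : ∀ y x, y ≤ x → ∑ z ∈ Ico y x, U z ≤ C₂ * (f x - f y) + C₃)
    (hL : ∀ x, g (x + 1) - g x ≤ C₁ * U x + e x)
    (hS : ∀ η : ℝ, 0 < η → ∃ (P : ℕ → Prop) (a₁ : ℝ) (k : ℕ) (e' : ℕ → ℝ) (C : ℝ), (∀ x, 0 ≤ e' x) ∧
      (∀ x, ∑ z ∈ range x, e' z ≤ C) ∧ (∀ x, P x → g (x + 1) - g x ≤ η * U x + e' x) ∧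
      ∀ x, ¬ P x → ∃ y, x ≤ y + k ∧ y ≤ x + k ∧ a y ≤ a₁)
    (hB : ∀ a₁ : ℝ, ∃ C : ℝ, ∀ y x, y ≤ x → a y ≤ a₁ → a x ≤ g x - g y - (f x - f y) / 2 + C)
    (hG : ∀ a₁ : ℝ, ∃ T : ℕ, ∀ x, a x ≤ a₁ → g x + 1 ≤ g (x + T)) :
    ∃ c C : ℝ, 0 < c ∧ ∀ x : ℕ, c * x - C ≤ f x := by
  obtain ⟨P, a₁, k, e', C₆, he'0, he', hslow, hA1⟩ := hS (1 / (4 * (C₂ + 1))) (by positivity)
  obtain ⟨CB, hCB⟩ := hB (max a₁ (a 0))
  have hC3 : 0 ≤ C₃ := by
    have := hU 0 0 le_rfl
    simp at this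
    exact this
  have hC6 : 0 ≤ C₆ := by
    have := he' 0
    simp at this
    exact this
  have he'2 : ∀ y x, y ≤ x → ∑ z ∈ Ico y x, e' z ≤ C₆ := fun y x _ => by
    refine le_trans (sum_le_sum_of_subset_of_nonneg ?_ fun z _ _ => he'0 z) (he' x)
    intro z hz
    rw [mem_Ico] at hz
    exact mem_range.2 hz.2
  -- all ratios are bounded
  have hbd : ∀ x, a x ≤ (2 * k + 2) + C₃ / 4 + C₆ + |CB| := by
    intro x
    classical
    set S : Finset ℕ := (range (x + 1)).filter fun y => a y ≤ max a₁ (a 0) with hSdef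
    have hSne : S.Nonempty := ⟨0, by simp [hSdef]⟩
    set y := S.max' hSne with hy
    have hyS : y ∈ S := S.max'_mem hSne
    have hyx : y ≤ x := by
      have := (mem_filter.1 hyS).1
      rw [mem_range] at this
      omega
    have hya : a y ≤ max a₁ (a 0) := (mem_filter.1 hyS).2
    have hmax : ∀ z, z ≤ x → a z ≤ max a₁ (a 0) → z ≤ y := fun z hz hz' =>
      S.le_max' z (mem_filter.2 ⟨mem_range.2 (by omega), hz'⟩)
    have hfast : ∀ z ∈ (Ico y x).filter (fun z => ¬ P z), z ∈ Ico y (y + k + 1) ∪ Ico (x - k) x := by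
      intro z hz
      rw [mem_filter, mem_Ico] at hz
      obtain ⟨⟨hz1, hz2⟩, hz3⟩ := hz
      obtain ⟨y', h1, h2, h3⟩ := hA1 z hz3
      rw [mem_union, mem_Ico, mem_Ico]
      by_cases h4 : y' ≤ x
      · have := hmax y' h4 (h3.trans (le_max_left _ _))
        left
        omega
      · right
        omega
    have hcard : ((Ico y x).filter (fun z => ¬ P z)).card ≤ (k + 1) + k := by
      refine (card_le_card hfast).trans ((card_union_le _ _).trans ?_)
      rw [Nat.card_Ico, Nat.card_Ico]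
      omega
    have h1 : g x - g y = ∑ z ∈ (Ico y x).filter (fun z => P z), (g (z + 1) - g z)
        + ∑ z ∈ (Ico y x).filter (fun z => ¬ P z), (g (z + 1) - g z) := by
      rw [← sum_growth g hyx, sum_filter_add_sum_filter_not]
    have h2 : ∑ z ∈ (Ico y x).filter (fun z => ¬ P z), (g (z + 1) - g z) ≤ 2 * k + 1 := by
      refine (sum_le_card_nsmul _ _ 1 fun z _ => by linarith [hg1 z]).trans ?_
      rw [nsmul_eq_mul, mul_one]
      exact_mod_cast (by omega : _ ≤ 2 * k + 1)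
    have h3 : ∑ z ∈ (Ico y x).filter (fun z => P z), (g (z + 1) - g z)
        ≤ 1 / (4 * (C₂ + 1)) * (C₂ * (f x - f y) + C₃) + C₆ := by
      calc ∑ z ∈ (Ico y x).filter (fun z => P z), (g (z + 1) - g z)
          ≤ ∑ z ∈ (Ico y x).filter (fun z => P z), (1 / (4 * (C₂ + 1)) * U z + e' z) :=
            sum_le_sum fun z hz => hslow z (mem_filter.1 hz).2
        _ ≤ ∑ z ∈ Ico y x, (1 / (4 * (C₂ + 1)) * U z + e' z) :=
            sum_le_sum_of_subset_of_nonneg (filter_subset _ _) fun z _ _ => by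
              have := hU0 z
              have := he'0 z
              positivity
        _ = 1 / (4 * (C₂ + 1)) * (∑ z ∈ Ico y x, U z) + ∑ z ∈ Ico y x, e' z := by
            rw [sum_add_distrib, ← mul_sum]
        _ ≤ _ := add_le_add (mul_le_mul_of_nonneg_left (hU y x hyx) (by positivity)) (he'2 y x hyx)
    have h4 := hCB y x hyx hya
    have h5 : f y ≤ f x := hf hyx
    have h6 : 1 / (4 * (C₂ + 1)) * (C₂ * (f x - f y) + C₃) ≤ (f x - f y) / 4 + C₃ / 4 := by
      rw [one_div_mul_eq_div, div_le_iff₀ (by positivity)]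
      have h8 : 0 ≤ C₂ * C₃ := by positivity
      nlinarith
    have h7 := le_abs_self CB
    linarith
  -- the unit doubles
  obtain ⟨T, hT⟩ := hG ((2 * k + 2) + C₃ / 4 + C₆ + |CB|)
  have hT1 : ∀ i : ℕ, g 0 + i ≤ g (i * T) := by
    intro i
    induction i with
    | zero => simp
    | succ i ih =>
      have h1 := hT (i * T) (hbd _)
      have h2 : (i + 1) * T = i * T + T := by ring
      rw [h2]
      push_cast
      linarith
  have hTpos : 0 < T := by
    rcases Nat.eq_zero_or_pos T with h | h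
    · have := hT 0 (hbd 0)
      rw [h] at this
      simp at this
      linarith
    · exact h
  have hgrow : ∀ x : ℕ, g 0 + x / T - 1 ≤ g x := by
    intro x
    have h1 := hT1 (x / T)
    have h2 : g (x / T * T) ≤ g x := hg (Nat.div_mul_le_self x T)
    have h3 : (x : ℝ) / T ≤ (x / T : ℕ) + 1 := by
      rw [div_le_iff₀ (by exact_mod_cast hTpos)]
      have h4 : x < (x / T + 1) * T := by
        have := Nat.div_add_mod x T
        have := Nat.mod_lt x hTpos
        nlinarith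
      exact_mod_cast h4.le
    linarith
  have hfin : ∀ x : ℕ, g x - g 0 ≤ C₁ * (C₂ * (f x - f 0) + C₃) + C₅ := by
    intro x
    rw [← sum_growth g (Nat.zero_le x)]
    calc ∑ z ∈ Ico 0 x, (g (z + 1) - g z) ≤ ∑ z ∈ Ico 0 x, (C₁ * U z + e z) := sum_le_sum fun z _ => hL z
      _ = C₁ * ∑ z ∈ Ico 0 x, U z + ∑ z ∈ Ico 0 x, e z := by rw [sum_add_distrib, ← mul_sum]
      _ ≤ _ := by
        have h4 := hU 0 x (Nat.zero_le x)
        have h5 := he x
        rw [range_eq_Ico] at h5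
        have h6 := mul_le_mul_of_nonneg_left h4 hC₁
        linarith
  have hq : 0 < (C₁ + 1) * (C₂ + 1) := by positivity
  have hTr : (0 : ℝ) < T := by exact_mod_cast hTpos
  refine ⟨1 / (T * ((C₁ + 1) * (C₂ + 1))), (C₁ * C₃ + C₅ + 1) / ((C₁ + 1) * (C₂ + 1)) - f 0, by positivity, fun x => ?_⟩
  have h1 := hgrow x
  have h2 := hfin x
  have h3 : f 0 ≤ f x := hf (Nat.zero_le x)
  have h4 : (x : ℝ) / T ≤ (C₁ + 1) * (C₂ + 1) * (f x - f 0) + (C₁ * C₃ + C₅ + 1) := by nlinarith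
  have h5 : (x : ℝ) / T / ((C₁ + 1) * (C₂ + 1)) ≤ (f x - f 0) + (C₁ * C₃ + C₅ + 1) / ((C₁ + 1) * (C₂ + 1)) := by
    rw [div_le_iff₀ hq, add_mul, div_mul_cancel₀ _ hq.ne']
    linarith
  have h6 : 1 / (T * ((C₁ + 1) * (C₂ + 1))) * (x : ℝ) = (x : ℝ) / T / ((C₁ + 1) * (C₂ + 1)) := by
    field_simp
  rw [h6]
  linarith

end Pool.Agent.W_7d29a1_g
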