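import Mathlib

/-!
MP_7d29a1_pr (G+, track G): bookkeeping of the chain, second version (no size of the fluctuations in the interface). `x` is the
number of an octave, `g x = log₂ E (2 ^ x)` (cost unit), `f x = - log₂ v (2 ^ x)` (width of the nearly flat cone), `P x`: the
scale `x` is not soft. `hS`: slow growth on stretches without soft scales, up to a constant per octave. `hBG`: at a soft scale
the blocks have lucks of the size of the unit; tilted blocks (volume argument) and the luck bound. `hB0`, `hB1`: the same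
with tilted single sites. Conclusion: the unit doubles within a bounded number of octaves.
-/

set_option autoImplicit false

open Finset Filter

namespace Pool.Agent.W_7d29a1_g

/-- Sum of the growth over the octaves `[y, x)`. -/
theorem sum_growth2 (g : ℕ → ℝ) {y x : ℕ} (h : y ≤ x) : ∑ z ∈ Ico y x, (g (z + 1) - g z) = g x - g y := by
  induction x, h using Nat.le_induction with
  | base => simp
  | succ x hx ih =>
    rw [sum_Ico_succ_top hx, ih]
    ring

/-- Harmonic sums. -/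
theorem sum_inv_le {y x : ℕ} (hy : 1 ≤ y) (h : y ≤ x) :
    ∑ z ∈ Ico y x, (1 : ℝ) / z ≤ 2 * (Real.log x - Real.log y) := by
  induction x, h using Nat.le_induction with
  | base => simp
  | succ x hx ih =>
    rw [sum_Ico_succ_top hx]
    have hx0 : (0 : ℝ) < x := by exact_mod_cast lt_of_lt_of_le hy hx
    have hx1 : (1 : ℝ) ≤ x := by exact_mod_cast hy.trans hx
    have h1 : Real.log x - Real.log ((x + 1 : ℕ) : ℝ) ≤ x / ((x + 1 : ℕ) : ℝ) - 1 := by
      rw [← Real.log_div hx0.ne' (by positivity)]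
      exact Real.log_le_sub_one_of_pos (by positivity)
    have h2 : (x : ℝ) / ((x + 1 : ℕ) : ℝ) - 1 ≤ - (1 / (2 * x)) := by
      push_cast
      rw [div_sub_one (by positivity), neg_div', div_le_div_iff₀ (by positivity) (by positivity)]
      nlinarith
    have h3 : (1 : ℝ) / x = 2 * (1 / (2 * x)) := by field_simp
    linarith

/-- Telescoping of geometrically decreasing terms. -/
theorem sum_shift_le {h : ℕ → ℝ} (h0 : ∀ z, 0 ≤ h z) (L : ℕ) {y x : ℕ} (hyx : y ≤ x) :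
    ∑ z ∈ Ico y x, (h z - h (z + L)) ≤ ∑ z ∈ Ico y (y + L), h z := by
  have key : ∑ z ∈ Ico y x, (h z - h (z + L)) = ∑ z ∈ Ico y (y + L), h z - ∑ z ∈ Ico x (x + L), h z := by
    induction x, hyx using Nat.le_induction with
    | base => simp
    | succ x hx ih =>
      rw [sum_Ico_succ_top hx, ih]
      have h1 : ∑ z ∈ Ico x (x + 1 + L), h z = ∑ z ∈ Ico x (x + L), h z + h (x + L) := by
        rw [show x + 1 + L = x + L + 1 by ring, sum_Ico_succ_top (by omega)]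
      have h2 : ∑ z ∈ Ico x (x + 1 + L), h z = h x + ∑ z ∈ Ico (x + 1) (x + 1 + L), h z :=
        sum_eq_sum_Ico_succ_bot (by omega) _
      linarith
  rw [key]
  have := sum_nonneg fun z (_ : z ∈ Ico x (x + L)) => h0 z
  linarith

section

variable {g f : ℕ → ℝ} {C₁ C₄ C₆ : ℝ}

/-- The width cannot close exponentially fast. -/
theorem no_doubling (C : ℝ) (T : ℕ) :
    ∃ L : ℕ, ∀ (F : ℕ → ℝ), F 0 = 0 → (∀ j, F (j * T) ≤ C * j) →
      ¬ ∀ j < L, 2 * F (j * T) + 4 ≤ F ((j + 1) * T) := by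
  obtain ⟨L, hL⟩ : ∃ L : ℕ, C * L < 4 * ((2 : ℝ) ^ L - 1) := by
    have h1 : Tendsto (fun n : ℕ => (n : ℝ) ^ 1 / (2 : ℝ) ^ n) atTop (nhds 0) :=
      tendsto_pow_const_div_const_pow_of_one_lt 1 (by norm_num)
    have h2 : Tendsto (fun n : ℕ => C * ((n : ℝ) ^ 1 / (2 : ℝ) ^ n) + 4 * (1 / (2 : ℝ)) ^ n) atTop (nhds 0) := by
      have h3 : Tendsto (fun n : ℕ => (1 / (2 : ℝ)) ^ n) atTop (nhds 0) :=
        tendsto_pow_atTop_nhds_zero_of_lt_one (by norm_num) (by norm_num)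
      simpa using (h1.const_mul C).add (h3.const_mul 4)
    obtain ⟨L, hL⟩ := (h2.eventually (gt_mem_nhds (by norm_num : (0 : ℝ) < 4))).exists
    refine ⟨L, ?_⟩
    have h4 : (0 : ℝ) < 2 ^ L := by positivity
    have h5 : (1 / (2 : ℝ)) ^ L * 2 ^ L = 1 := by
      rw [← mul_pow]
      norm_num
    have h6 : (L : ℝ) ^ 1 / 2 ^ L * 2 ^ L = L := by
      rw [div_mul_cancel₀ _ h4.ne', pow_one]
    have h7 := mul_lt_mul_of_pos_right hL h4
    have h8 : (C * ((L : ℝ) ^ 1 / 2 ^ L) + 4 * (1 / 2) ^ L) * 2 ^ L = C * ((L : ℝ) ^ 1 / 2 ^ L * 2 ^ L) + 4 * ((1 / 2) ^ L * 2 ^ L) := by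
      ring
    rw [h8, h5, h6] at h7
    linarith
  refine ⟨L, fun F hF0 hFC hcon => ?_⟩
  have key : ∀ j : ℕ, j ≤ L → 4 * ((2 : ℝ) ^ j - 1) ≤ F (j * T) := by
    intro j
    induction j with
    | zero => intro _; simp [hF0]
    | succ j ih =>
      intro hj
      have h1 := ih (by omega)
      have h2 := hcon j (by omega)
      rw [pow_succ]
      linarith
  have h1 := key L le_rfl
  have h2 := hFC L
  linarith

theorem step_le (hg1 : ∀ x, g (x + 1) ≤ g x + C₆) (x T : ℕ) : g (x + T) ≤ g x + C₆ * T := by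
  induction T with
  | zero => simp
  | succ T ih =>
    have h3 := hg1 (x + T)
    push_cast
    rw [← add_assoc]
    linarith

/-- STAGE 1: soft scales occur for ever. -/
theorem soft_occurs (hC₄ : 0 ≤ C₄) {P : ℕ → Prop} {x₀ m T : ℕ} {C : ℝ} (hm : 1 ≤ m)
    (hg : Monotone g) (hg1 : ∀ x, g (x + 1) ≤ g x + C₆) (hf : Monotone f) (hfT : Tendsto f atTop atTop)
    (hS : ∀ y x, x₀ ≤ y → y ≤ x → (∀ z, y ≤ z → z < x → P z) →
      g x - g y ≤ (f x - f y) / 4 + C₄ * (1 + ∑ z ∈ Ico y x, (2 : ℝ) ^ (- g z)))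
    (hB0 : ∀ x : ℕ, 1 ≤ x → Real.logb 2 x + f x / 2 - C ≤ g (m * x))
    (hB1 : ∀ x, f x / 2 - C ≤ g (x + T)) (N : ℕ) : ∃ y, N ≤ y ∧ ¬ P y := by
  by_contra hcon
  push Not at hcon
  -- the cost unit grows faster than the number of the octave
  set η : ℝ := 1 / (8 * m) / 4 with hη
  have hm0 : (0 : ℝ) < m := by exact_mod_cast (lt_of_lt_of_le one_pos hm)
  have hη0 : 0 < η := by positivity
  obtain ⟨w₀, hw₀1, hw₀⟩ : ∃ w₀ : ℕ, 1 ≤ w₀ ∧ ∀ w, w₀ ≤ w → C₄ * (2 : ℝ) ^ (C - f w / 2) ≤ η := by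
    have h1 : Tendsto (fun w : ℕ => C₄ * (2 : ℝ) ^ (C - f w / 2)) atTop (nhds (C₄ * 0)) := by
      refine Tendsto.const_mul _ ?_
      have h2 : Tendsto (fun w : ℕ => C - f w / 2) atTop atBot := by
        have h3 : Tendsto (fun w : ℕ => f w / 2) atTop atTop := hfT.atTop_div_const (by norm_num)
        simpa [sub_eq_add_neg] using tendsto_atBot_add_const_left atTop C (tendsto_neg_atTop_atBot.comp h3)
      exact (tendsto_rpow_atBot_of_base_gt_one (2 : ℝ) (by norm_num)).comp h2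
    rw [mul_zero] at h1
    obtain ⟨w₁, hw₁⟩ := eventually_atTop.1 (h1.eventually (ge_mem_nhds hη0))
    exact ⟨max 1 w₁, le_max_left _ _, fun w hw => hw₁ w ((le_max_right _ _).trans hw)⟩
  have hdiv : ∀ z : ℕ, m ≤ z → (z : ℝ) / (2 * m) ≤ ((z / m : ℕ) : ℝ) := by
    intro z hz
    have h1 : 1 ≤ z / m := (Nat.one_le_div_iff (by omega)).2 hz
    have h2 : z < m * (z / m + 1) := by
      have := Nat.div_add_mod z m
      have := Nat.mod_lt z (by omega : 0 < m)
      nlinarith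
    have h3 : (z : ℝ) < m * ((z / m : ℕ) + 1) := by exact_mod_cast h2
    have h4 : (1 : ℝ) ≤ ((z / m : ℕ) : ℝ) := by exact_mod_cast h1
    rw [div_le_iff₀ (by positivity)]
    nlinarith
  have herr : ∀ z : ℕ, m * w₀ ≤ z → C₄ * (2 : ℝ) ^ (- g z) ≤ 2 * m * η * (1 / z) := by
    intro z hz
    have hmz : m ≤ z := (Nat.le_mul_of_pos_right m (by omega)).trans hz
    have hz0 : (0 : ℝ) < z := by exact_mod_cast (by omega : 0 < z)
    have hw : w₀ ≤ z / m := by
      rw [Nat.le_div_iff_mul_le (by omega)]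
      rw [mul_comm]
      exact hz
    have hw1 : 1 ≤ z / m := hw₀1.trans hw
    have h1 := hB0 (z / m) hw1
    have h2 : g (m * (z / m)) ≤ g z := hg (Nat.mul_div_le z m)
    have h3 : (0 : ℝ) < ((z / m : ℕ) : ℝ) := by exact_mod_cast hw1
    have h4 : (2 : ℝ) ^ (- g z) ≤ (2 : ℝ) ^ (C - f (z / m) / 2) * (1 / ((z / m : ℕ) : ℝ)) := by
      calc (2 : ℝ) ^ (- g z) ≤ (2 : ℝ) ^ ((C - f (z / m) / 2) - Real.logb 2 ((z / m : ℕ) : ℝ)) :=
            Real.rpow_le_rpow_of_exponent_le (by norm_num) (by linarith)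
        _ = _ := by
            rw [Real.rpow_sub (by norm_num), Real.rpow_logb (by norm_num) (by norm_num) h3]
            ring
    have h5 : (1 : ℝ) / ((z / m : ℕ) : ℝ) ≤ 2 * m * (1 / z) := by
      have h6 := hdiv z hmz
      rw [div_le_iff₀ h3]
      rw [div_le_iff₀ (by positivity)] at h6
      have h7 : 2 * m * (1 / (z : ℝ)) * ((z / m : ℕ) : ℝ) = (((z / m : ℕ) : ℝ) * (2 * m)) / z := by
        field_simp
      rw [h7, le_div_iff₀ hz0]
      linarith
    calc C₄ * (2 : ℝ) ^ (- g z) ≤ C₄ * ((2 : ℝ) ^ (C - f (z / m) / 2) * (1 / ((z / m : ℕ) : ℝ))) :=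
          mul_le_mul_of_nonneg_left h4 hC₄
      _ = (C₄ * (2 : ℝ) ^ (C - f (z / m) / 2)) * (1 / ((z / m : ℕ) : ℝ)) := by ring
      _ ≤ η * (1 / ((z / m : ℕ) : ℝ)) := mul_le_mul_of_nonneg_right (hw₀ _ hw) (by positivity)
      _ ≤ η * (2 * m * (1 / z)) := mul_le_mul_of_nonneg_left h5 hη0.le
      _ = _ := by ring
  -- logarithms
  obtain ⟨C', hC'⟩ : ∃ C' : ℝ, ∀ x : ℕ, m ≤ x → Real.log x ≤ g x + C' := by
    refine ⟨Real.logb 2 (2 * m) + C - f 0 / 2, fun x hx => ?_⟩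
    have hx0 : (0 : ℝ) < x := by exact_mod_cast (by omega : 0 < x)
    have hw1 : 1 ≤ x / m := (Nat.one_le_div_iff (by omega)).2 hx
    have h1 := hB0 (x / m) hw1
    have h2 : g (m * (x / m)) ≤ g x := hg (Nat.mul_div_le x m)
    have h3 : Real.logb 2 ((x : ℝ) / (2 * m)) ≤ Real.logb 2 ((x / m : ℕ) : ℝ) :=
      Real.logb_le_logb_of_le (by norm_num) (by positivity) (hdiv x hx)
    rw [Real.logb_div hx0.ne' (by positivity)] at h3
    have h4 : f 0 ≤ f (x / m) := hf (Nat.zero_le _)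
    have h5 : Real.log x ≤ Real.logb 2 x := by
      rw [Real.logb, le_div_iff₀ (Real.log_pos (by norm_num))]
      have h6 : Real.log 2 ≤ 1 := by
        have := Real.log_le_sub_one_of_pos (by norm_num : (0 : ℝ) < 2)
        linarith
      have h7 : 0 ≤ Real.log (x : ℝ) := Real.log_nonneg (by exact_mod_cast (by omega : 1 ≤ x))
      nlinarith
    linarith
  -- the growth over a long stretch
  set N' : ℕ := max (max N x₀) (max (m * w₀) m) with hN'
  have hN1 : N ≤ N' := by omega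
  have hN2 : x₀ ≤ N' := by omega
  have hN3 : m * w₀ ≤ N' := by omega
  have hN4 : m ≤ N' := by omega
  have hgrow : ∀ x, N' ≤ x → g x ≤ (2 / 7) * f x + (8 / 7) * (g N' - f N' / 4 + C₄ + 1 / 8 * |C'|) := by
    intro x hx
    have h1 := hS N' x hN2 hx (fun z hz _ => hcon z (hN1.trans hz))
    have h2 : C₄ * ∑ z ∈ Ico N' x, (2 : ℝ) ^ (- g z) ≤ 2 * m * η * (2 * Real.log x) := by
      calc C₄ * ∑ z ∈ Ico N' x, (2 : ℝ) ^ (- g z) = ∑ z ∈ Ico N' x, C₄ * (2 : ℝ) ^ (- g z) := by rw [mul_sum]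
        _ ≤ ∑ z ∈ Ico N' x, 2 * m * η * (1 / (z : ℝ)) :=
            sum_le_sum fun z hz => herr z (hN3.trans (mem_Ico.1 hz).1)
        _ = 2 * m * η * ∑ z ∈ Ico N' x, 1 / (z : ℝ) := by rw [mul_sum]
        _ ≤ 2 * m * η * (2 * (Real.log x - Real.log N')) :=
            mul_le_mul_of_nonneg_left (sum_inv_le (by omega) hx) (by positivity)
        _ ≤ _ := by
            refine mul_le_mul_of_nonneg_left ?_ (by positivity)
            have : 0 ≤ Real.log (N' : ℝ) := Real.log_nonneg (by exact_mod_cast (by omega : 1 ≤ N'))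
            linarith
    have h3 := hC' x (hN4.trans hx)
    have h4 : 2 * m * η * (2 * Real.log x) ≤ 4 * m * η * (g x + |C'|) := by
      have h5 : Real.log x ≤ g x + |C'| := h3.trans (by linarith [le_abs_self C'])
      have h6 : 2 * m * η * (2 * Real.log x) = 4 * m * η * Real.log x := by ring
      rw [h6]
      exact mul_le_mul_of_nonneg_left h5 (by positivity)
    have h5 : 4 * m * η = 1 / 8 := by
      rw [hη]
      field_simp
    rw [h5] at h4
    linarith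
  -- contradiction
  set K : ℝ := (8 / 7) * (g N' - f N' / 4 + C₄ + 1 / 8 * |C'|) with hK
  have hbdd : ∀ x, N' ≤ x → f x ≤ (14 / 3) * (K + C₆ * T + C) := by
    intro x hx
    have h1 := hB1 x
    have h2 := step_le hg1 x T
    have h3 := hgrow x hx
    linarith
  obtain ⟨x, hx1, hx2⟩ := ((hfT.eventually_gt_atTop ((14 / 3) * (K + C₆ * T + C))).and (eventually_ge_atTop N')).exists
  have := hbdd x hx2
  linarith

/-- STAGE 2: the next soft scale comes soon. -/
theorem soft_soon {C₇ : ℝ} (hC₄ : 0 ≤ C₄) {P : ℕ → Prop} {x₀ : ℕ}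
    (hg1 : ∀ x, g (x + 1) ≤ g x + C₆) (hgT : Tendsto g atTop atTop) (hf : Monotone f)
    (hf1 : ∀ x, f (x + 1) ≤ f x + C₇)
    (hS : ∀ y x, x₀ ≤ y → y ≤ x → (∀ z, y ≤ z → z < x → P z) →
      g x - g y ≤ (f x - f y) / 4 + C₄ * (1 + ∑ z ∈ Ico y x, (2 : ℝ) ^ (- g z)))
    (hBG : ∀ R : ℝ, ∃ T x₁ : ℕ, ∀ y, x₁ ≤ y → ¬ P y → ∀ x, y ≤ x → g y + (f x - f y) / 2 + R ≤ g (x + T)) :
    ∃ L x₂ : ℕ, ∀ y, x₂ ≤ y → ¬ P y → ∃ z, y < z ∧ z ≤ y + L ∧ ¬ P z := by
  obtain ⟨T', x₁, hT'⟩ := hBG (2 + |C₆| + 2 * C₄)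
  -- the shift is positive
  rcases Nat.eq_zero_or_pos T' with h0 | hT0
  · refine ⟨0, x₁, fun y hy hPy => ?_⟩
    have h1 := hT' y hy hPy y le_rfl
    rw [h0] at h1
    simp at h1
    have := abs_nonneg C₆
    linarith
  obtain ⟨L, hL⟩ := no_doubling (C₇ * T') T'
  -- the errors are small
  obtain ⟨x₃, hx₃⟩ : ∃ x₃ : ℕ, ∀ z, x₃ ≤ z → (2 : ℝ) ^ (- g z) ≤ 1 / ((L + 1) * T' + 1) := by
    have h1 : Tendsto (fun w : ℕ => (2 : ℝ) ^ (- g w)) atTop (nhds 0) :=
      (tendsto_rpow_atBot_of_base_gt_one (2 : ℝ) (by norm_num)).comp (tendsto_neg_atTop_atBot.comp hgT)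
    exact eventually_atTop.1 (h1.eventually (ge_mem_nhds (by positivity)))
  refine ⟨(L + 1) * T', max x₀ (max x₁ x₃), fun y hy hyg => ?_⟩
  have hy0 : x₀ ≤ y := by omega
  have hy1 : x₁ ≤ y := by omega
  have hy3 : x₃ ≤ y := by omega
  by_contra hcon
  push Not at hcon
  refine hL (fun j => f (y + j) - f y) (by simp) (fun j => ?_) (fun j hj => ?_)
  · have h1 := step_le hf1 y (j * T')
    push_cast at h1
    show f (y + j * T') - f y ≤ C₇ * T' * j
    linarith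
  · show 2 * (f (y + j * T') - f y) + 4 ≤ f (y + (j + 1) * T') - f y
    have h1 := hT' y hy1 hyg (y + j * T') (by omega)
    have hx : y + 1 ≤ y + j * T' + T' := by omega
    have h2 := hS (y + 1) _ (by omega) hx (fun z hz hz' => hcon z (by omega) (by
        have : (j + 1) * T' ≤ (L + 1) * T' := Nat.mul_le_mul_right T' (by omega)
        nlinarith))
    have h3 : ∑ z ∈ Ico (y + 1) (y + j * T' + T'), (2 : ℝ) ^ (- g z) ≤ 1 := by
      calc ∑ z ∈ Ico (y + 1) (y + j * T' + T'), (2 : ℝ) ^ (- g z)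
          ≤ ∑ z ∈ Ico (y + 1) (y + j * T' + T'), 1 / (((L : ℝ) + 1) * T' + 1) :=
            sum_le_sum fun z hz => hx₃ z (by have := (mem_Ico.1 hz).1; omega)
        _ = ((j * T' + T' - 1 : ℕ) : ℝ) * (1 / (((L : ℝ) + 1) * T' + 1)) := by
            rw [sum_const, Nat.card_Ico, nsmul_eq_mul, show y + j * T' + T' - (y + 1) = j * T' + T' - 1 by omega]
        _ ≤ 1 := by
            have h4 : ((j * T' + T' - 1 : ℕ) : ℝ) ≤ ((L : ℝ) + 1) * T' + 1 := by
              have h5 : j * T' + T' - 1 ≤ (L + 1) * T' + 1 := by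
                have : (j + 1) * T' ≤ (L + 1) * T' := Nat.mul_le_mul_right T' (by omega)
                have : (j + 1) * T' = j * T' + T' := by ring
                omega
              exact_mod_cast h5
            rw [mul_one_div, div_le_one (by positivity)]
            exact h4
    have h4 := hg1 y
    have h5 : f y ≤ f (y + 1) := hf (Nat.le_succ y)
    have h6 : y + (j + 1) * T' = y + j * T' + T' := by ring
    have h7 : C₄ * (1 + ∑ z ∈ Ico (y + 1) (y + j * T' + T'), (2 : ℝ) ^ (- g z)) ≤ C₄ * 2 :=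
      mul_le_mul_of_nonneg_left (by linarith) hC₄
    have h8 := le_abs_self C₆
    rw [h6]
    linarith

/-- The chain, second version. -/
theorem chain2 {C₇ : ℝ} (hC₄ : 0 ≤ C₄) {P : ℕ → Prop} {x₀ m T : ℕ} {C : ℝ} (hm : 1 ≤ m)
    (hg : Monotone g) (hg1 : ∀ x, g (x + 1) ≤ g x + C₆) (hf : Monotone f) (hf1 : ∀ x, f (x + 1) ≤ f x + C₇)
    (hfT : Tendsto f atTop atTop)
    (hS : ∀ y x, x₀ ≤ y → y ≤ x → (∀ z, y ≤ z → z < x → P z) →
      g x - g y ≤ (f x - f y) / 4 + C₄ * (1 + ∑ z ∈ Ico y x, (2 : ℝ) ^ (- g z)))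
    (hBG : ∀ R : ℝ, ∃ T x₁ : ℕ, ∀ y, x₁ ≤ y → ¬ P y → ∀ x, y ≤ x → g y + (f x - f y) / 2 + R ≤ g (x + T))
    (hB0 : ∀ x : ℕ, 1 ≤ x → Real.logb 2 x + f x / 2 - C ≤ g (m * x))
    (hB1 : ∀ x, f x / 2 - C ≤ g (x + T)) :
    ∃ M y₀ : ℕ, ∀ x, y₀ ≤ x → g x + 1 ≤ g (x + M) := by
  have hgT : Tendsto g atTop atTop := by
    have h1 : Tendsto (fun x => f x / 2 - C) atTop atTop :=
      tendsto_atTop_add_const_right _ _ (hfT.atTop_div_const (by norm_num))
    have h2 : Tendsto (fun x => g (x + T)) atTop atTop := tendsto_atTop_mono hB1 h1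
    exact (tendsto_add_atTop_iff_nat T).1 h2
  obtain ⟨L, x₂, hL⟩ := soft_soon hC₄ hg1 hgT hf hf1 hS hBG
  obtain ⟨T₁, x₁, hT₁⟩ := hBG 1
  obtain ⟨y₀, hy₀, hy₀g⟩ := soft_occurs hC₄ hm hg hg1 hf hfT hS hB0 hB1 (max x₁ x₂)
  -- there is a soft scale in every window
  have hwin : ∀ x, y₀ ≤ x → ∃ z, x ≤ z ∧ z ≤ x + L ∧ ¬ P z := by
    intro x hx
    induction x, hx using Nat.le_induction with
    | base => exact ⟨y₀, le_rfl, by omega, hy₀g⟩
    | succ x hx ih =>
      obtain ⟨z, h1, h2, h3⟩ := ih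
      rcases h1.eq_or_lt with h4 | h4
      · rw [← h4] at h3
        obtain ⟨z', h5, h6, h7⟩ := hL x (by omega) h3
        exact ⟨z', by omega, by omega, h7⟩
      · exact ⟨z, h4, by omega, h3⟩
  refine ⟨L + T₁, y₀, fun x hx => ?_⟩
  obtain ⟨z, h1, h2, h3⟩ := hwin x hx
  have h4 : g x ≤ g z := hg h1
  have h5 := hT₁ z (by omega) h3 z le_rfl
  have h6 : g (z + T₁) ≤ g (x + (L + T₁)) := hg (by omega)
  linarith

end

end Pool.Agent.W_7d29a1_g
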