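import Pool.Agent.W_7d29a1_g.ChainLoc

/-!
MP_7d29a1_pr (G+, track G): the last step of the chain and the chain with two units. `g` is the unit with positive parts
(`log₂ E⁺`), `gm` the unit with means (`log₂ E_max`), `f` the closing of the cone, `a` the ratio unit / fluctuations.

`hL`: if the growth over the next `l` octaves is at most `3 l / 4` and the cone does not close in them, then the growth of
the first of these octaves is small (crossings of lanes at the scale `l` octaves higher).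
-/

set_option autoImplicit false

open Finset

namespace Pool.Agent.W_7d29a1_g

/-- A sum of increments over windows of length `L`. -/
theorem sum_window {h : ℕ → ℝ} (hh : Monotone h) (s t : ℕ) (hst : s ≤ t) (L : ℕ) :
    ∑ w ∈ Ico s t, (h (w + L) - h w) ≤ L * (h (t + L) - h s) := by
  induction L with
  | zero => simp
  | succ L ih =>
    have h1 : ∑ w ∈ Ico s t, (h (w + (L + 1)) - h w) = ∑ w ∈ Ico s t, (h (w + L) - h w)
        + ∑ w ∈ Ico s t, (h (w + L + 1) - h (w + L)) := by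
      rw [← sum_add_distrib]
      apply sum_congr rfl
      intro w _
      rw [add_assoc]
      ring
    have h2 : ∑ w ∈ Ico s t, (h (w + L + 1) - h (w + L)) = h (t + L) - h (s + L) := by
      have := sum_growth (fun w => h (w + L)) hst
      rw [← this]
      apply sum_congr rfl
      intro w _
      rw [show w + 1 + L = w + L + 1 by ring]
    rw [h1, h2]
    have h3 : h (t + L) ≤ h (t + (L + 1)) := hh (by omega)
    have h4 : h s ≤ h (s + L) := hh (by omega)
    have h5 : (L : ℝ) * (h (t + L) - h s) ≤ L * (h (t + (L + 1)) - h s) :=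
      mul_le_mul_of_nonneg_left (by linarith) (by positivity)
    push_cast
    linarith

/-- The last step: the cone closes like a power. -/
theorem closing {g f : ℕ → ℝ} {D C₅ : ℝ} (hg : Monotone g) (hg1 : ∀ x, g (x + 1) ≤ g x + D) (hf : Monotone f)
    (hV : ∀ x : ℕ, g x ≤ x / 2 + C₅)
    (hT : ∃ T x₀ : ℕ, ∀ x, x₀ ≤ x → g x + 1 ≤ g (x + T))
    (hL : ∀ δ : ℝ, 0 < δ → ∃ l₀ : ℕ, ∀ l : ℕ, l₀ ≤ l → ∃ (c : ℝ) (x₀ : ℕ), 0 < c ∧ ∀ z, x₀ ≤ z →
      g (z + l) - g z ≤ 3 / 4 * l → f (z + l) - f z ≤ c → g (z + 1) - g z ≤ δ) :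
    ∃ c C : ℝ, 0 < c ∧ ∀ x : ℕ, c * x - C ≤ f x := by
  obtain ⟨T, x₁, hT⟩ := hT
  have hTpos : 0 < T := by
    rcases Nat.eq_zero_or_pos T with h | h
    · have := hT x₁ le_rfl
      rw [h] at this
      simp at this
      linarith
    · exact h
  have hTr : (0 : ℝ) < T := by exact_mod_cast hTpos
  set E := max D 0 with hE
  have hE0 : 0 ≤ E := le_max_right _ _
  have hg2 : ∀ x, g (x + 1) ≤ g x + E := fun x => (hg1 x).trans (by linarith [le_max_left D 0])
  set δ : ℝ := 1 / (2 * T) with hδ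
  have hδ0 : 0 < δ := by positivity
  have hTδ : T * δ = 1 / 2 := by rw [hδ]; field_simp
  obtain ⟨l₀, hl₀⟩ := hL δ hδ0
  set l := max (max l₀ 1) ⌈12 * (E + 1)⌉₊ with hl
  have hll0 : l₀ ≤ l := (le_max_left _ _).trans (le_max_left _ _)
  have hl1 : 1 ≤ l := (le_max_right _ _).trans (le_max_left _ _)
  have hlE : 12 * (E + 1) ≤ l := by
    refine (Nat.le_ceil _).trans ?_
    exact_mod_cast le_max_right (max l₀ 1) ⌈12 * (E + 1)⌉₊
  have hlr : (0 : ℝ) < l := by exact_mod_cast hl1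
  obtain ⟨c, x₂, hc, hcl⟩ := hl₀ l hll0
  -- octaves with a slow window before them close the cone
  have hkey : ∀ w, max x₁ x₂ ≤ w → g (w + T + l) - g (w + T) ≤ 3 / 4 * l - (E + 1) → c < f (w + T + l) - f w := by
    intro w hw hslow
    by_contra hcon
    push Not at hcon
    have hw1 : x₁ ≤ w := (le_max_left _ _).trans hw
    have hw2 : x₂ ≤ w := (le_max_right _ _).trans hw
    have hind : ∀ i j : ℕ, i + j = T →
        g (w + j + l) - g (w + j) ≤ 3 / 4 * l - (E + 1) + i * δ ∧ g (w + T) - g (w + j) ≤ i * δ := by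
      intro i
      induction i with
      | zero =>
        intro j hj
        have : j = T := by omega
        rw [this]
        simp only [Nat.cast_zero, zero_mul, add_zero, sub_self, le_refl, and_true]
        exact hslow
      | succ i ih =>
        intro j hj
        obtain ⟨h1, h2⟩ := ih (j + 1) (by omega)
        have h3 : w + (j + 1) = w + j + 1 := by ring
        rw [h3] at h1 h2
        have h4 : g (w + j + l) ≤ g (w + j + 1 + l) := hg (by omega)
        have h5 := hg2 (w + j)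
        have hiδ : (i : ℝ) * δ ≤ 1 / 2 := by
          rw [← hTδ]
          apply mul_le_mul_of_nonneg_right _ hδ0.le
          exact_mod_cast (by omega : i ≤ T)
        have h6 : f (w + j + l) ≤ f (w + T + l) := hf (by omega)
        have h7 : f w ≤ f (w + j) := hf (by omega)
        have h8 := hcl (w + j) (by omega) (by linarith) (by linarith)
        push_cast
        constructor <;> linarith
    obtain ⟨-, h2⟩ := hind T 0 (by omega)
    have h3 := hT w hw1
    rw [add_zero] at h2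
    linarith
  -- counting
  set s := max x₁ x₂ with hs
  set C₆ : ℝ := ((s + T + l : ℕ) : ℝ) / 2 + C₅ - g (s + T) with hC₆
  have hcount : ∀ N : ℕ, c * (N / 4 - 3 / 2 * C₆) ≤ ((T + l : ℕ) : ℝ) * (f (s + N + (T + l)) - f s) := by
    intro N
    classical
    set B := (Ico s (s + N)).filter fun w => g (w + T + l) - g (w + T) ≤ 3 / 4 * l - (E + 1) with hB
    have h1 : ∑ w ∈ Ico s (s + N), (g (w + T + l) - g (w + T)) ≤ l * (N / 2 + C₆) := by
      have h2 := sum_window (h := fun w => g (w + T)) (fun x y hxy => hg (by omega)) s (s + N) (by omega) l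
      have h3 : ∑ w ∈ Ico s (s + N), (g (w + T + l) - g (w + T)) = ∑ w ∈ Ico s (s + N), (g (w + l + T) - g (w + T)) := by
        apply sum_congr rfl
        intro w _
        rw [show w + T + l = w + l + T by ring]
      rw [h3]
      refine h2.trans (mul_le_mul_of_nonneg_left ?_ hlr.le)
      have h4 := hV (s + N + l + T)
      rw [hC₆]
      push_cast at h4 ⊢
      linarith
    have h2 : ∑ w ∈ (Ico s (s + N)).filter (fun w => ¬ (g (w + T + l) - g (w + T) ≤ 3 / 4 * l - (E + 1))), (2 / 3 * (l : ℝ))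
        ≤ ∑ w ∈ Ico s (s + N), (g (w + T + l) - g (w + T)) := by
      refine le_trans (sum_le_sum fun w hw => ?_) (sum_le_sum_of_subset_of_nonneg (filter_subset _ _) fun w _ _ => ?_)
      · have h3 := (mem_filter.1 hw).2
        push Not at h3
        linarith
      · have : g (w + T) ≤ g (w + T + l) := hg (by omega)
        linarith
    have h3 : (B.card : ℝ) + ((Ico s (s + N)).filter (fun w => ¬ (g (w + T + l) - g (w + T) ≤ 3 / 4 * l - (E + 1)))).card = N := by
      have h4 := card_filter_add_card_filter_not (s := Ico s (s + N))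
        (fun w => g (w + T + l) - g (w + T) ≤ 3 / 4 * l - (E + 1))
      rw [Nat.card_Ico] at h4
      have h5 : s + N - s = N := by omega
      rw [h5] at h4
      exact_mod_cast h4
    rw [sum_const, nsmul_eq_mul] at h2
    have h4 : (N : ℝ) / 4 - 3 / 2 * C₆ ≤ B.card := by
      have h5 : (((Ico s (s + N)).filter (fun w => ¬ (g (w + T + l) - g (w + T) ≤ 3 / 4 * l - (E + 1)))).card : ℝ) * (2 / 3)
          ≤ N / 2 + C₆ := by
        have h6 := h2.trans h1
        have h7 : (((Ico s (s + N)).filter (fun w => ¬ (g (w + T + l) - g (w + T) ≤ 3 / 4 * l - (E + 1)))).card : ℝ) * (2 / 3) * l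
            ≤ (N / 2 + C₆) * l := by linarith
        exact le_of_mul_le_mul_right h7 hlr
      linarith
    have h5 : ∑ w ∈ B, c ≤ ∑ w ∈ Ico s (s + N), (f (w + (T + l)) - f w) := by
      refine le_trans (sum_le_sum fun w hw => ?_) (sum_le_sum_of_subset_of_nonneg (filter_subset _ _) fun w _ _ => ?_)
      · have h6 := mem_filter.1 hw
        rw [mem_Ico] at h6
        have h7 := hkey w h6.1.1 h6.2
        rw [← add_assoc]
        exact h7.le
      · have : f w ≤ f (w + (T + l)) := hf (by omega)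
        linarith
    rw [sum_const, nsmul_eq_mul] at h5
    have h6 := sum_window hf s (s + N) (by omega) (T + l)
    have h7 : c * (N / 4 - 3 / 2 * C₆) ≤ B.card * c := by
      rw [mul_comm]
      exact mul_le_mul_of_nonneg_right h4 hc.le
    linarith
  have hTl : (0 : ℝ) < ((T + l : ℕ) : ℝ) := by exact_mod_cast (by omega : 0 < T + l)
  set R : ℕ := s + (T + l) with hR
  refine ⟨c / (4 * ((T + l : ℕ) : ℝ)), max (c / (4 * ((T + l : ℕ) : ℝ)) * R - f 0)
    (c / (4 * ((T + l : ℕ) : ℝ)) * (R + 6 * C₆) - f s), by positivity, fun x => ?_⟩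
  rcases Nat.lt_or_ge x R with h | h
  · have h1 : c / (4 * ((T + l : ℕ) : ℝ)) * x ≤ c / (4 * ((T + l : ℕ) : ℝ)) * R := by
      apply mul_le_mul_of_nonneg_left _ (by positivity)
      exact_mod_cast h.le
    have h2 : f 0 ≤ f x := hf (Nat.zero_le x)
    have h3 := le_max_left (c / (4 * ((T + l : ℕ) : ℝ)) * R - f 0) (c / (4 * ((T + l : ℕ) : ℝ)) * (R + 6 * C₆) - f s)
    linarith
  · have h1 := hcount (x - R)
    have h2 : s + (x - R) + (T + l) = x := by omega
    rw [h2] at h1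
    have h3 := le_max_right (c / (4 * ((T + l : ℕ) : ℝ)) * R - f 0) (c / (4 * ((T + l : ℕ) : ℝ)) * (R + 6 * C₆) - f s)
    have h4 : ((x - R : ℕ) : ℝ) = x - R := by rw [Nat.cast_sub h]
    rw [h4] at h1
    have h5 : c / (4 * ((T + l : ℕ) : ℝ)) * (x - R - 6 * C₆) ≤ f x - f s := by
      rw [div_mul_eq_mul_div, div_le_iff₀ (by positivity)]
      linarith
    have h6 : c / (4 * ((T + l : ℕ) : ℝ)) * (x - R - 6 * C₆) = c / (4 * ((T + l : ℕ) : ℝ)) * x
        - c / (4 * ((T + l : ℕ) : ℝ)) * (R + 6 * C₆) := by ring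
    linarith

/-- The chain with two units. -/
theorem chain_fin {g gm f a : ℕ → ℝ} {D D' Cg CB₀ CV C₆ C₇ : ℝ} {k₆ : ℕ}
    (hg : ∀ y x, y ≤ x → g y ≤ g x + Cg) (hg1 : ∀ x, g (x + 1) ≤ g x + D) (hf : Monotone f)
    (hE : ∀ K : ℝ, ∃ x₀ : ℕ, ∀ x, x₀ ≤ x → K * x ≤ (2 : ℝ) ^ g x)
    (hS : ∃ (P : ℕ → Prop) (α C : ℝ) (k x₀ : ℕ),
      (∀ y x, x₀ ≤ y → y ≤ x → (∀ z, y ≤ z → z < x → P z) →
        g x - g y ≤ (f x - f y) / 4 + C * (1 + ∑ z ∈ Ico y x, (2 : ℝ) ^ (-g z))) ∧
      ∀ x, x₀ ≤ x → ¬ P x → ∃ y, x ≤ y + k ∧ y ≤ x + k ∧ a y ≤ α)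
    (hB0 : ∀ x, a x ≤ g x - f x / 2 + CB₀)
    (hB : ∀ a₁ : ℝ, ∃ C : ℝ, ∀ T : ℕ, ∃ y₀ : ℕ, ∀ y x, y₀ ≤ y → y ≤ x → x ≤ y + T → a y ≤ a₁ →
      a x ≤ g x - g y - (f x - f y) / 2 + C)
    (hG : ∀ a₁ : ℝ, ∃ T x₀ : ℕ, ∀ x, x₀ ≤ x → a x ≤ a₁ → g x + 1 ≤ g (x + T))
    (hV : ∀ x : ℕ, g x - a x ≤ x / 2 + CV)
    (hgm : Monotone gm) (hgm1 : ∀ x, gm (x + 1) ≤ gm x + D')
    (hgm2 : ∀ x, gm x ≤ g x + C₆) (hgm3 : ∀ x, g x ≤ gm (x + k₆) + C₇)
    (hL : ∀ δ : ℝ, 0 < δ → ∃ l₀ : ℕ, ∀ l : ℕ, l₀ ≤ l → ∃ (c : ℝ) (x₀ : ℕ), 0 < c ∧ ∀ z, x₀ ≤ z →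
      gm (z + l) - gm z ≤ 3 / 4 * l → f (z + l) - f z ≤ c → gm (z + 1) - gm z ≤ δ) :
    ∃ c C : ℝ, 0 < c ∧ ∀ x : ℕ, c * x - C ≤ f x := by
  obtain ⟨α, x₀, hbd⟩ := ratio_bounded (Cf := 0) hg hg1 (fun y x h => by linarith [hf h]) hE hS hB0 hB hG
  obtain ⟨T, x₁, hT⟩ := hG α
  have hgm4 : ∀ (m : ℕ) x, max x₀ x₁ ≤ x → g x + m ≤ g (x + m * T) := by
    intro m x hx
    induction m with
    | zero => simp
    | succ m ih =>
      have h1 := hT (x + m * T) (by have := le_max_right x₀ x₁; omega) (hbd _ (by have := le_max_left x₀ x₁; omega))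
      have h2 : x + m * T + T = x + (m + 1) * T := by ring
      rw [h2] at h1
      push_cast
      linarith
  set m := ⌈1 + C₆ + C₇⌉₊ with hm
  have hm1 : 1 + C₆ + C₇ ≤ m := Nat.le_ceil _
  refine closing (C₅ := ((max x₀ x₁ : ℕ) : ℝ) / 2 + |α + CV + C₆|) hgm hgm1 hf ?_ ⟨m * T + k₆, max x₀ x₁, ?_⟩ hL
  · have h0 : ∀ x, x₀ ≤ x → gm x ≤ x / 2 + (α + CV + C₆) := by
      intro x hx
      have h1 := hgm2 x
      have h2 := hV x
      have h3 := hbd x hx
      linarith
    intro x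
    have habs := le_abs_self (α + CV + C₆)
    rcases le_total x₀ x with h | h
    · have h1 := h0 x h
      have h2 : (0 : ℝ) ≤ ((max x₀ x₁ : ℕ) : ℝ) / 2 := by positivity
      linarith
    · have h1 := h0 (max x₀ x₁) (le_max_left _ _)
      have h2 := hgm (h.trans (le_max_left x₀ x₁))
      have h3 : (0 : ℝ) ≤ (x : ℝ) / 2 := by positivity
      linarith
  · intro x hx
    have h1 := hgm4 m x hx
    have h2 := hgm3 (x + m * T)
    have h3 := hgm2 x
    have h4 : x + m * T + k₆ = x + (m * T + k₆) := by ring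
    rw [h4] at h2
    linarith

end Pool.Agent.W_7d29a1_g
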