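import Mathlib
import Pool.Agent.W_7d29a1_g.Chain

/-!
MP_7d29a1_pr (G+, track G): the bookkeeping of the chain (A), (B), (C), local form. `x` is the number of an octave,
`g x = log₂ E (2 ^ x)` (cost unit), `f x = - log₂ v (2 ^ x)` (width of the nearly flat cone), `a x = log₂ (E / σ)`
(unit divided by the size of the fluctuations).

`hB0`: fluctuations of the weights of single sites. `hB`: the volume argument with blocks, only for boundedly many octaves and beyond a
threshold which may depend on this number. `hG`: fluctuations of the size of the unit force the unit to double.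
`hS`: on stretches of slow octaves the growth is at most `η` times the closing of the cone, with an additive error per octave of the size of
a constant cost (`2 ^ (- g z)`); near an octave which is not slow the fluctuations are of the size of the unit.
`hE`: the unit is larger than any multiple of the logarithm of the time (only used to start the chain).
All monotonicity assumptions are up to constants.
-/

set_option autoImplicit false

open Finset

namespace Pool.Agent.W_7d29a1_g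

/-- The errors on a window. -/
theorem err_window {g : ℕ → ℝ} (hE : ∀ K : ℝ, ∃ x₀ : ℕ, ∀ x, x₀ ≤ x → K * x ≤ (2 : ℝ) ^ g x) (T : ℕ) :
    ∃ y₀ : ℕ, ∀ y, y₀ ≤ y → ∀ y' x, y ≤ y' → x ≤ y + T → ∑ z ∈ Ico y' x, (2 : ℝ) ^ (-g z) ≤ 1 := by
  obtain ⟨x₀, hx₀⟩ := hE 1
  refine ⟨max x₀ (max 1 T), fun y hy y' x hy' hx => ?_⟩
  have h1 : ∀ z ∈ Ico y' x, (2 : ℝ) ^ (-g z) ≤ 1 / y := by
    intro z hz
    rw [mem_Ico] at hz
    have hyz : y ≤ z := hy'.trans hz.1
    have hz0 : x₀ ≤ z := ((le_max_left _ _).trans hy).trans hyz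
    have h2 := hx₀ z hz0
    have hy1 : (1 : ℝ) ≤ y := by
      have : 1 ≤ y := ((le_max_left _ _).trans (le_max_right _ _)).trans hy
      exact_mod_cast this
    have h3 : (y : ℝ) ≤ z := by exact_mod_cast hyz
    rw [Real.rpow_neg (by norm_num), ← one_div]
    apply one_div_le_one_div_of_le (by linarith)
    linarith
  have hy1 : (1 : ℝ) ≤ y := by
    have : 1 ≤ y := ((le_max_left _ _).trans (le_max_right _ _)).trans hy
    exact_mod_cast this
  have hyT : (T : ℝ) ≤ y := by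
    have : T ≤ y := ((le_max_right _ _).trans (le_max_right _ _)).trans hy
    exact_mod_cast this
  calc ∑ z ∈ Ico y' x, (2 : ℝ) ^ (-g z) ≤ ∑ z ∈ Ico y' x, 1 / (y : ℝ) := sum_le_sum h1
    _ = ((x - y' : ℕ) : ℝ) * (1 / y) := by rw [sum_const, Nat.card_Ico, nsmul_eq_mul]
    _ ≤ T * (1 / y) := by
        apply mul_le_mul_of_nonneg_right _ (by positivity)
        exact_mod_cast (by omega : x - y' ≤ T)
    _ ≤ 1 := by
        rw [mul_one_div, div_le_one (by linarith)]
        exact hyT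

/-- The errors on a long stretch, if the unit is larger than `K` times the logarithm of the time. -/
theorem err_log {g : ℕ → ℝ} {K : ℝ} (hK : 0 < K) {x₀ : ℕ} (hx₀ : 1 ≤ x₀) (h : ∀ x, x₀ ≤ x → K * x ≤ (2 : ℝ) ^ g x) :
    ∀ y x, x₀ ≤ y → y ≤ x → ∑ z ∈ Ico y x, (2 : ℝ) ^ (-g z) ≤ 2 / K * (Real.log x - Real.log y) := by
  intro y x hy hyx
  induction x, hyx using Nat.le_induction with
  | base => simp
  | succ x hx ih =>
    rw [sum_Ico_succ_top hx]
    have hx1 : (1 : ℝ) ≤ x := by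
      have : 1 ≤ x := (hx₀.trans hy).trans hx
      exact_mod_cast this
    have h1 : (2 : ℝ) ^ (-g x) ≤ 1 / (K * x) := by
      rw [Real.rpow_neg (by norm_num), ← one_div]
      exact one_div_le_one_div_of_le (by positivity) (h x (hy.trans hx))
    have h2 : 1 / (2 * (x : ℝ)) ≤ Real.log ((x + 1 : ℕ) : ℝ) - Real.log x := by
      rw [← Real.log_div (by positivity) (by positivity)]
      have h3 := Real.one_sub_inv_le_log_of_pos (x := ((x + 1 : ℕ) : ℝ) / x) (by positivity)
      refine le_trans ?_ h3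
      push_cast
      rw [inv_div, le_sub_iff_add_le, div_add_div _ _ (by positivity) (by positivity), div_le_one (by positivity)]
      nlinarith
    have h4 : 1 / (K * x) ≤ 2 / K * (Real.log ((x + 1 : ℕ) : ℝ) - Real.log x) := by
      have h5 : 1 / (K * (x : ℝ)) = 2 / K * (1 / (2 * (x : ℝ))) := by field_simp
      rw [h5]
      exact mul_le_mul_of_nonneg_left h2 (by positivity)
    linarith

/-- The ratio unit / fluctuations is bounded. -/
theorem ratio_bounded {g f a : ℕ → ℝ} {D Cg Cf CB₀ : ℝ}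
    (hg : ∀ y x, y ≤ x → g y ≤ g x + Cg) (hg1 : ∀ x, g (x + 1) ≤ g x + D) (hf : ∀ y x, y ≤ x → f y ≤ f x + Cf)
    (hE : ∀ K : ℝ, ∃ x₀ : ℕ, ∀ x, x₀ ≤ x → K * x ≤ (2 : ℝ) ^ g x)
    (hS : ∃ (P : ℕ → Prop) (α C : ℝ) (k x₀ : ℕ),
      (∀ y x, x₀ ≤ y → y ≤ x → (∀ z, y ≤ z → z < x → P z) →
        g x - g y ≤ (f x - f y) / 4 + C * (1 + ∑ z ∈ Ico y x, (2 : ℝ) ^ (-g z))) ∧
      ∀ x, x₀ ≤ x → ¬ P x → ∃ y, x ≤ y + k ∧ y ≤ x + k ∧ a y ≤ α)
    (hB0 : ∀ x, a x ≤ g x - f x / 2 + CB₀)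
    (hB : ∀ a₁ : ℝ, ∃ C : ℝ, ∀ T : ℕ, ∃ y₀ : ℕ, ∀ y x, y₀ ≤ y → y ≤ x → x ≤ y + T → a y ≤ a₁ →
      a x ≤ g x - g y - (f x - f y) / 2 + C)
    (hG : ∀ a₁ : ℝ, ∃ T x₀ : ℕ, ∀ x, x₀ ≤ x → a x ≤ a₁ → g x + 1 ≤ g (x + T)) :
    ∃ (α : ℝ) (x₀ : ℕ), ∀ x, x₀ ≤ x → a x ≤ α := by
  obtain ⟨P, α, C', k, x₀, hslow', hres⟩ := hS
  set C := max C' 0 with hCdef
  have hC0 : 0 ≤ C := le_max_right _ _
  have hsum0 : ∀ y x, 0 ≤ ∑ z ∈ Ico y x, (2 : ℝ) ^ (-g z) := fun y x => sum_nonneg fun z _ => by positivity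
  have hslow : ∀ y x, x₀ ≤ y → y ≤ x → (∀ z, y ≤ z → z < x → P z) →
      g x - g y ≤ (f x - f y) / 4 + C * (1 + ∑ z ∈ Ico y x, (2 : ℝ) ^ (-g z)) := by
    intro y x h1 h2 h3
    have h4 := hslow' y x h1 h2 h3
    have h5 := hsum0 y x
    have h6 : C' * (1 + ∑ z ∈ Ico y x, (2 : ℝ) ^ (-g z)) ≤ C * (1 + ∑ z ∈ Ico y x, (2 : ℝ) ^ (-g z)) :=
      mul_le_mul_of_nonneg_right (le_max_left _ _) (by linarith)
    linarith
  set E := max D 0 with hEdef
  have hE0 : 0 ≤ E := le_max_right _ _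
  have hg2 : ∀ x, g (x + 1) ≤ g x + E := fun x => (hg1 x).trans (by linarith [le_max_left D 0])
  have hg3 : ∀ x m : ℕ, g (x + m) ≤ g x + m * E := by
    intro x m
    induction m with
    | zero => simp
    | succ m ih =>
      have := hg2 (x + m)
      rw [← add_assoc]
      push_cast
      linarith
  have hCg : 0 ≤ Cg := by linarith [hg 0 0 le_rfl]
  have hCf : 0 ≤ Cf := by linarith [hf 0 0 le_rfl]
  -- step A: there are arbitrarily large octaves with a small ratio
  have hA : ∀ N : ℕ, ∃ y, N ≤ y ∧ a y ≤ α := by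
    intro N
    by_contra hcon
    push Not at hcon
    set K : ℝ := 16 * (C + 1) with hK
    have hK0 : 0 < K := by positivity
    obtain ⟨x₁, hx₁⟩ := hE K
    set y := max (N + k) (max x₀ (max x₁ 1)) with hy
    have hyN : N + k ≤ y := le_max_left _ _
    have hy0 : x₀ ≤ y := (le_max_left _ _).trans (le_max_right _ _)
    have hy1 : x₁ ≤ y := ((le_max_left _ _).trans (le_max_right _ _)).trans (le_max_right _ _)
    have hy2 : 1 ≤ y := ((le_max_right _ _).trans (le_max_right _ _)).trans (le_max_right _ _)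
    have hP : ∀ z, y ≤ z → P z := by
      intro z hz
      by_contra hnP
      obtain ⟨y', h1, h2, h3⟩ := hres z (hy0.trans hz) hnP
      have := hcon y' (by omega)
      linarith
    have hkey : ∀ x, y ≤ x → a x ≤ 2 * g y + 2 * C + CB₀ - f y / 2 - 3 / 4 * Real.log x := by
      intro x hx
      have hx1 : (1 : ℝ) ≤ x := by exact_mod_cast hy2.trans hx
      have h1 := hslow y x hy0 hx fun z hz _ => hP z hz
      have h2 := err_log hK0 hy2 (fun x' hx' => hx₁ x' (hy1.trans hx')) y x le_rfl hx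
      have hly : 0 ≤ Real.log y := Real.log_nonneg (by exact_mod_cast hy2)
      have hlx : 0 ≤ Real.log x := Real.log_nonneg hx1
      have h3 : C * ∑ z ∈ Ico y x, (2 : ℝ) ^ (-g z) ≤ 1 / 8 * Real.log x := by
        have h4 : C * ∑ z ∈ Ico y x, (2 : ℝ) ^ (-g z) ≤ C * (2 / K * Real.log x) := by
          apply mul_le_mul_of_nonneg_left _ hC0
          refine h2.trans (mul_le_mul_of_nonneg_left (by linarith) (by positivity))
        have h5 : C * (2 / K * Real.log x) = (C / (C + 1)) * (1 / 8 * Real.log x) := by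
          rw [hK]
          field_simp
          ring
        have h6 : C / (C + 1) ≤ 1 := by
          rw [div_le_one (by positivity)]
          linarith
        rw [h5] at h4
        exact h4.trans (mul_le_of_le_one_left (by positivity) h6)
      have h7 : Real.log x ≤ g x := by
        have h8 := hx₁ x (hy1.trans hx)
        have h9 : (x : ℝ) ≤ 2 ^ g x := by nlinarith
        have h10 := Real.log_le_log (by linarith) h9
        rw [Real.log_rpow (by norm_num)] at h10
        have h11 := Real.log_two_lt_d9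
        have h12 := Real.log_two_gt_d9
        by_contra h13
        push Not at h13
        rcases le_or_gt 0 (g x) with h14 | h14
        · nlinarith
        · nlinarith
      have h8 := hB0 x
      have h9 : C * (1 + ∑ z ∈ Ico y x, (2 : ℝ) ^ (-g z)) = C + C * ∑ z ∈ Ico y x, (2 : ℝ) ^ (-g z) := by ring
      rw [h9] at h1
      linarith
    obtain ⟨m, hm⟩ := exists_nat_gt (Real.exp ((2 * g y + 2 * C + CB₀ - f y / 2 - α) * (4 / 3)))
    have h1 := hkey (max y m) (le_max_left _ _)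
    have h2 := hcon (max y m) (by have := le_max_left y m; omega)
    have h3 : (2 * g y + 2 * C + CB₀ - f y / 2 - α) * (4 / 3) ≤ Real.log ((max y m : ℕ) : ℝ) := by
      have h4 : Real.exp ((2 * g y + 2 * C + CB₀ - f y / 2 - α) * (4 / 3)) ≤ ((max y m : ℕ) : ℝ) := by
        refine hm.le.trans ?_
        exact_mod_cast le_max_right y m
      have h5 := Real.log_le_log (Real.exp_pos _) h4
      rwa [Real.log_exp] at h5
    linarith
  -- step B: the ratio is small again after boundedly many octaves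
  obtain ⟨CB, hCB⟩ := hB α
  set R : ℝ := Cf / 4 + 2 * C + (k + 1) * E with hR
  have hR0 : 0 ≤ R := by positivity
  obtain ⟨T₂, x₂, hT₂⟩ := hG (Cf / 4 + R + CB)
  set M := ⌈Cg + 2 * R + CB - α⌉₊ with hM
  have hM1 : Cg + 2 * R + CB - α ≤ M := Nat.le_ceil _
  set T := (k + 1) + M * T₂ + k with hT
  obtain ⟨y₁, hy₁⟩ := hCB T
  obtain ⟨y₂, hy₂⟩ := err_window hE T
  have hreset : ∀ y, max y₁ (max y₂ (max x₀ x₂)) ≤ y → a y ≤ α → ∃ y', y < y' ∧ y' ≤ y + T ∧ a y' ≤ α := by
    intro y hy hay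
    have hyy1 : y₁ ≤ y := (le_max_left _ _).trans hy
    have hyy2 : y₂ ≤ y := ((le_max_left _ _).trans (le_max_right _ _)).trans hy
    have hyx0 : x₀ ≤ y := (((le_max_left _ _).trans (le_max_right _ _)).trans (le_max_right _ _)).trans hy
    have hyx2 : x₂ ≤ y := (((le_max_right _ _).trans (le_max_right _ _)).trans (le_max_right _ _)).trans hy
    by_contra hcon
    push Not at hcon
    set s := y + (k + 1) with hs
    have hP : ∀ z, s ≤ z → z < s + M * T₂ → P z := by
      intro z hz1 hz2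
      by_contra hnP
      obtain ⟨y', h1, h2, h3⟩ := hres z (by omega) hnP
      have := hcon y' (by omega) (by omega)
      linarith
    have hgs : g s ≤ g y + (k + 1) * E := by
      have := hg3 y (k + 1)
      push_cast at this
      exact this
    have hfs : f y ≤ f s + Cf := hf y s (by omega)
    have hgr : ∀ x, s ≤ x → x ≤ s + M * T₂ → g x - g y ≤ (f x - f y) / 4 + R := by
      intro x hx1 hx2
      have h1 := hslow s x (by omega) hx1 fun z hz1 hz2 => hP z hz1 (by omega)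
      have h2 := hy₂ y hyy2 s x (by omega) (by omega)
      have h3 : C * (1 + ∑ z ∈ Ico s x, (2 : ℝ) ^ (-g z)) ≤ 2 * C := by
        have := mul_le_mul_of_nonneg_left h2 hC0
        linarith
      rw [hR]
      linarith
    have hax : ∀ x, s ≤ x → x ≤ s + M * T₂ → a x ≤ - (g x - g y) + 2 * R + CB := by
      intro x hx1 hx2
      have h1 := hgr x hx1 hx2
      have h2 := hy₁ y x hyy1 (by omega) (by omega) hay
      linarith
    have hax2 : ∀ x, s ≤ x → x ≤ s + M * T₂ → a x ≤ Cf / 4 + R + CB := by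
      intro x hx1 hx2
      have h1 := hgr x hx1 hx2
      have h2 := hy₁ y x hyy1 (by omega) (by omega) hay
      have h3 := hf y x (by omega)
      linarith
    have hgm : ∀ m, m ≤ M → g s + m ≤ g (s + m * T₂) := by
      intro m
      induction m with
      | zero => simp
      | succ m ih =>
        intro hm
        have h1 := ih (by omega)
        have h2 : m * T₂ ≤ M * T₂ := Nat.mul_le_mul_right _ (by omega)
        have h3 := hT₂ (s + m * T₂) (by omega) (hax2 _ (by omega) (by omega))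
        have h4 : s + m * T₂ + T₂ = s + (m + 1) * T₂ := by ring
        rw [h4] at h3
        push_cast
        linarith
    have h1 := hgm M le_rfl
    have h2 := hax (s + M * T₂) (by omega) le_rfl
    have h3 := hg y s (by omega)
    have h4 := hcon (s + M * T₂) (by omega) (by omega)
    linarith
  -- step C: the ratio is bounded
  obtain ⟨y₀, hy₀, hay₀⟩ := hA (max y₁ (max y₂ (max x₀ x₂)))
  have hcover : ∀ x, y₀ ≤ x → ∃ y, y₀ ≤ y ∧ y ≤ x ∧ x ≤ y + T ∧ a y ≤ α := by
    intro x hx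
    induction x, hx using Nat.le_induction with
    | base => exact ⟨y₀, le_rfl, le_rfl, by omega, hay₀⟩
    | succ x hx ih =>
      obtain ⟨y, h1, h2, h3, h4⟩ := ih
      rcases Nat.lt_or_ge x (y + T) with h5 | h5
      · exact ⟨y, h1, by omega, by omega, h4⟩
      · obtain ⟨y', h6, h7, h8⟩ := hreset y (hy₀.trans h1) h4
        exact ⟨y', by omega, by omega, by omega, h8⟩
  have hbd : ∀ x, y₀ ≤ x → a x ≤ T * E + Cf / 2 + CB := by
    intro x hx
    obtain ⟨y, h1, h2, h3, h4⟩ := hcover x hx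
    have h5 := hy₁ y x (((le_max_left _ _).trans hy₀).trans h1) h2 h3 h4
    have h6 := hf y x h2
    have h7 := hg3 y (x - y)
    have h8 : y + (x - y) = x := by omega
    rw [h8] at h7
    have h9 : ((x - y : ℕ) : ℝ) * E ≤ T * E := by
      apply mul_le_mul_of_nonneg_right _ hE0
      exact_mod_cast (by omega : x - y ≤ T)
    linarith
  exact ⟨_, y₀, hbd⟩

/-- The chain, local form, with a crude bound of the growth of the unit. -/
theorem chain_loc {g f a : ℕ → ℝ} {C₂ C₃ C₄ D Cg Cf CB₀ : ℝ} (hC₂ : 0 ≤ C₂) (hC₄ : 0 ≤ C₄)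
    (hg : ∀ y x, y ≤ x → g y ≤ g x + Cg) (hg1 : ∀ x, g (x + 1) ≤ g x + D) (hf : ∀ y x, y ≤ x → f y ≤ f x + Cf)
    (hE : ∀ K : ℝ, ∃ x₀ : ℕ, ∀ x, x₀ ≤ x → K * x ≤ (2 : ℝ) ^ g x)
    (hL : ∀ x, g x ≤ C₂ * f x + C₃ + C₄ * ∑ z ∈ range x, (2 : ℝ) ^ (-g z))
    (hS : ∃ (P : ℕ → Prop) (α C : ℝ) (k x₀ : ℕ),
      (∀ y x, x₀ ≤ y → y ≤ x → (∀ z, y ≤ z → z < x → P z) →
        g x - g y ≤ (f x - f y) / 4 + C * (1 + ∑ z ∈ Ico y x, (2 : ℝ) ^ (-g z))) ∧
      ∀ x, x₀ ≤ x → ¬ P x → ∃ y, x ≤ y + k ∧ y ≤ x + k ∧ a y ≤ α)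
    (hB0 : ∀ x, a x ≤ g x - f x / 2 + CB₀)
    (hB : ∀ a₁ : ℝ, ∃ C : ℝ, ∀ T : ℕ, ∃ y₀ : ℕ, ∀ y x, y₀ ≤ y → y ≤ x → x ≤ y + T → a y ≤ a₁ →
      a x ≤ g x - g y - (f x - f y) / 2 + C)
    (hG : ∀ a₁ : ℝ, ∃ T x₀ : ℕ, ∀ x, x₀ ≤ x → a x ≤ a₁ → g x + 1 ≤ g (x + T)) :
    ∃ c C : ℝ, 0 < c ∧ ∀ x : ℕ, c * x - C ≤ f x := by
  obtain ⟨α, y₀, hbd⟩ := ratio_bounded hg hg1 hf hE hS hB0 hB hG
  -- step D: the unit grows like a power
  obtain ⟨T₃, x₃, hT₃⟩ := hG α
  set s := max y₀ x₃ with hs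
  have hgm : ∀ i : ℕ, g s + i ≤ g (s + i * T₃) := by
    intro i
    induction i with
    | zero => simp
    | succ i ih =>
      have h1 := hT₃ (s + i * T₃) (by have := le_max_right y₀ x₃; omega) (hbd _ (by have := le_max_left y₀ x₃; omega))
      have h2 : s + i * T₃ + T₃ = s + (i + 1) * T₃ := by ring
      rw [h2] at h1
      push_cast
      linarith
  have hTpos : 0 < T₃ := by
    rcases Nat.eq_zero_or_pos T₃ with h | h
    · have := hgm 1
      rw [h] at this
      simp at this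
      linarith
    · exact h
  have hTr : (0 : ℝ) < T₃ := by exact_mod_cast hTpos
  obtain ⟨C₅, hC₅⟩ : ∃ C₅ : ℝ, ∀ x : ℕ, x / T₃ - C₅ ≤ g x := by
    refine ⟨max (s / T₃ + 1 + Cg - g s) (s / T₃ - g 0 + Cg), fun x => ?_⟩
    rcases Nat.lt_or_ge x s with h | h
    · have h1 := hg 0 x (Nat.zero_le x)
      have h2 : (x : ℝ) / T₃ ≤ s / T₃ := by
        apply div_le_div_of_nonneg_right _ hTr.le
        exact_mod_cast h.le
      have h3 := le_max_right ((s : ℝ) / T₃ + 1 + Cg - g s) (s / T₃ - g 0 + Cg)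
      linarith
    · set i := (x - s) / T₃ with hi
      have h1 := hgm i
      have h2 : s + i * T₃ ≤ x := by
        have := Nat.div_mul_le_self (x - s) T₃
        rw [← hi] at this
        omega
      have h3 := hg _ x h2
      have h4 : ((x : ℝ) - s) / T₃ ≤ i + 1 := by
        rw [div_le_iff₀ hTr]
        have h5 : x - s < (i + 1) * T₃ := by
          have h6 := Nat.div_add_mod (x - s) T₃
          have h7 := Nat.mod_lt (x - s) hTpos
          rw [← hi] at h6
          nlinarith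
        have h6 : (x : ℝ) - s = ((x - s : ℕ) : ℝ) := by
          rw [Nat.cast_sub h]
        rw [h6]
        exact_mod_cast h5.le
      have h5 : ((x : ℝ) - s) / T₃ = x / T₃ - s / T₃ := by ring
      rw [h5] at h4
      have h6 := le_max_left ((s : ℝ) / T₃ + 1 + Cg - g s) (s / T₃ - g 0 + Cg)
      linarith
  -- step E: the errors are summable and the cone closes
  have hgeom : ∀ x, ∑ z ∈ range x, (2 : ℝ) ^ (-g z) ≤ 2 ^ C₅ * (1 - (2 : ℝ) ^ (-(1 / (T₃ : ℝ))))⁻¹ := by
    intro x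
    have hr0 : (0 : ℝ) ≤ (2 : ℝ) ^ (-(1 / (T₃ : ℝ))) := by positivity
    have hr1 : (2 : ℝ) ^ (-(1 / (T₃ : ℝ))) < 1 :=
      Real.rpow_lt_one_of_one_lt_of_neg (by norm_num) (by simp only [one_div, Left.neg_neg_iff, inv_pos]; exact hTr)
    calc ∑ z ∈ range x, (2 : ℝ) ^ (-g z) ≤ ∑ z ∈ range x, 2 ^ C₅ * ((2 : ℝ) ^ (-(1 / (T₃ : ℝ)))) ^ z := by
          apply sum_le_sum
          intro z _
          rw [← Real.rpow_natCast, ← Real.rpow_mul (by norm_num), ← Real.rpow_add (by norm_num)]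
          apply Real.rpow_le_rpow_of_exponent_le (by norm_num)
          have h1 := hC₅ z
          have h2 : -(1 / (T₃ : ℝ)) * z = - (z / T₃) := by ring
          rw [h2]
          linarith
      _ = 2 ^ C₅ * ∑ z ∈ range x, ((2 : ℝ) ^ (-(1 / (T₃ : ℝ)))) ^ z := by rw [mul_sum]
      _ ≤ _ := by
          apply mul_le_mul_of_nonneg_left _ (by positivity)
          exact (Summable.sum_le_tsum _ (fun i _ => pow_nonneg hr0 i) (summable_geometric_of_lt_one hr0 hr1)).trans
            (tsum_geometric_of_lt_one hr0 hr1).le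
  set B : ℝ := 2 ^ C₅ * (1 - (2 : ℝ) ^ (-(1 / (T₃ : ℝ))))⁻¹ with hBdef
  have hq : 0 < C₂ + 1 := by linarith
  refine ⟨1 / (T₃ * (C₂ + 1)), (C₅ + C₃ + C₄ * B + C₂ * (f 0 - Cf)) / (C₂ + 1) - (f 0 - Cf), by positivity, fun x => ?_⟩
  have h1 := hL x
  have h2 := hC₅ x
  have h3 := mul_le_mul_of_nonneg_left (hgeom x) hC₄
  have h4 := hf 0 x (Nat.zero_le x)
  have h5 : (x : ℝ) / T₃ - (C₅ + C₃ + C₄ * B + C₂ * (f 0 - Cf)) ≤ (C₂ + 1) * (f x - (f 0 - Cf)) := by nlinarith
  have h6 : 1 / (T₃ * (C₂ + 1)) * (x : ℝ) = (x : ℝ) / T₃ / (C₂ + 1) := by field_simp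
  have h7 : ((x : ℝ) / T₃ - (C₅ + C₃ + C₄ * B + C₂ * (f 0 - Cf))) / (C₂ + 1) ≤ f x - (f 0 - Cf) := by
    rw [div_le_iff₀ hq]
    linarith
  rw [sub_div] at h7
  rw [h6]
  linarith

end Pool.Agent.W_7d29a1_g
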