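import Mathlib

/-!
MP_7d29a1_pr (G+, track G): the last step of the chain. `g x = log₂ E (2 ^ x)`, `f x = - log₂ v (2 ^ x)`.
The unit doubles in boundedly many octaves (`hGr`) and grows at most like the square root of the time (`h2`). If the growth after `x` is at
most `3 / 4` per octave and the cone does not close, then the unit does not grow in the octave `x` (`hF`). Then the cone closes like a power.
No bound of the growth by the closing of the cone is assumed in windows of fast growth (where the cone need not close).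
-/

set_option autoImplicit false

open Finset

namespace Pool.Agent.W_7d29a1_g

/-- A function which tends to `-∞` linearly has points after which it is never larger. -/
theorem exists_peak {h : ℕ → ℝ} {C : ℝ} (h2 : ∀ x : ℕ, h x ≤ -(x : ℝ) / 4 + C) (a : ℕ) :
    ∃ x, a ≤ x ∧ h a ≤ h x ∧ ∀ y, x ≤ y → h y ≤ h x := by
  obtain ⟨N, hN⟩ := exists_nat_gt (4 * (C - h a))
  have hne : (Icc a (max a N)).Nonempty := ⟨a, by simp⟩
  obtain ⟨x, hx, hmax⟩ := exists_max_image (Icc a (max a N)) h hne
  rw [mem_Icc] at hx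
  have hax : h a ≤ h x := hmax a (by simp)
  refine ⟨x, hx.1, hax, fun y hy => ?_⟩
  by_cases hyN : y ≤ max a N
  · exact hmax y (mem_Icc.2 ⟨hx.1.trans hy, hyN⟩)
  · have h3 : N ≤ y := (le_max_right a N).trans (not_le.1 hyN).le
    have h4 : (N : ℝ) ≤ y := by exact_mod_cast h3
    have := h2 y
    linarith

/-- **The last step of the chain.** -/
theorem finish {g f : ℕ → ℝ} {Cg C₇ : ℝ} {T x₀ : ℕ} (hCg : 0 ≤ Cg) (hf : Monotone f)
    (hg : ∀ y x, y ≤ x → g y ≤ g x + Cg)
    (h2 : ∀ x : ℕ, g x ≤ (x : ℝ) / 2 + C₇)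
    (hGr : ∀ x, x₀ ≤ x → g x + 1 ≤ g (x + T))
    (hF : ∀ C' ε : ℝ, 0 < ε → ∃ (L x₁ : ℕ) (δ : ℝ), 0 < δ ∧ ∀ x, x₁ ≤ x →
      (∀ j : ℕ, j ≤ L → g (x + j) - g x ≤ 3 / 4 * j + C') → f (x + L) - f x ≤ δ → g (x + 1) - g x ≤ ε) :
    ∃ c C : ℝ, 0 < c ∧ ∀ x : ℕ, c * x - C ≤ f x := by
  have hT : 0 < T := by
    rcases Nat.eq_zero_or_pos T with h | h
    · have := hGr x₀ le_rfl
      rw [h] at this
      simp at this
      linarith
    · exact h
  have hTR : (0 : ℝ) < T := by exact_mod_cast hT
  obtain ⟨L, x₁, δ, hδ, hF1⟩ := hF (3 / 4 * T + Cg) (1 / (2 * T)) (by positivity)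
  set W : ℕ := T + L with hW
  set h : ℕ → ℝ := fun x => g x - 3 / 4 * x with hh
  have hh2 : ∀ x : ℕ, h x ≤ -(x : ℝ) / 4 + C₇ := by
    intro x
    have := h2 x
    simp only [hh]
    linarith
  -- a step from a peak
  have hstep : ∀ x, x₀ ≤ x → x₁ ≤ x → (∀ y, x ≤ y → h y ≤ h x) → f x + δ ≤ f (x + W) := by
    intro x hx0 hx1 hpk
    obtain ⟨i, hi, hgi⟩ : ∃ i, i < T ∧ 1 / (2 * T) < g (x + i + 1) - g (x + i) := by
      by_contra hcon
      push Not at hcon
      have h3 : g (x + T) - g x ≤ ∑ i ∈ range T, (1 / (2 * (T : ℝ))) := by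
        have h4 : g (x + T) - g x = ∑ i ∈ range T, (g (x + i + 1) - g (x + i)) := by
          have := Finset.sum_range_sub (fun i => g (x + i)) T
          simp only [add_zero] at this
          rw [← this]
          rfl
        rw [h4]
        exact sum_le_sum fun i hi => hcon i (mem_range.1 hi)
      rw [sum_const, card_range, nsmul_eq_mul] at h3
      have h5 : (T : ℝ) * (1 / (2 * T)) = 1 / 2 := by field_simp
      have h6 := hGr x hx0
      linarith
    by_contra hcon
    have h3 : f (x + i + L) - f (x + i) ≤ δ := by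
      have h4 : f (x + i + L) ≤ f (x + W) := hf (by omega)
      have h5 : f x ≤ f (x + i) := hf (by omega)
      linarith
    have h4 := hF1 (x + i) (by omega) (fun j _ => ?_) h3
    · linarith
    · have h5 := hpk (x + i + j) (by omega)
      have h6 := hg x (x + i) (by omega)
      have h7 : (i : ℝ) ≤ T := by exact_mod_cast hi.le
      simp only [hh] at h5
      push_cast at h5
      linarith
  -- the sequence of peaks
  obtain ⟨p, hp0, -, hpk⟩ := exists_peak hh2 (max x₀ x₁)
  set D : ℝ := Cg + 3 / 4 * W + 1 with hD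
  have hD0 : 0 < D := by positivity
  have hseq : ∀ k : ℕ, ∃ x, max x₀ x₁ ≤ x ∧ (∀ y, x ≤ y → h y ≤ h x) ∧ h p - k * D ≤ h x ∧ f p + k * δ ≤ f x := by
    intro k
    induction k with
    | zero => exact ⟨p, hp0, hpk, by simp, by simp⟩
    | succ k ih =>
      obtain ⟨x, hx1, hx2, hx3, hx4⟩ := ih
      obtain ⟨x', hx', hx'2, hx'3⟩ := exists_peak hh2 (x + W)
      refine ⟨x', by omega, hx'3, ?_, ?_⟩
      · have h3 := hg x (x + W) (by omega)
        have h4 : h x - (Cg + 3 / 4 * W) ≤ h (x + W) := by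
          simp only [hh]
          push_cast
          linarith
        push_cast
        rw [hD]
        rw [hD] at hx3
        linarith
      · have h3 := hstep x ((le_max_left _ _).trans hx1) ((le_max_right _ _).trans hx1) hx2
        have h4 : f (x + W) ≤ f x' := hf hx'
        push_cast
        linarith
  -- the conclusion
  refine ⟨δ / (4 * D), |f p - f 0| + |f 0| + δ * (|C₇ - h p| / D + 2), by positivity, fun x => ?_⟩
  rcases lt_or_ge ((x : ℝ)) (4 * (C₇ - h p)) with hx | hx
  · -- small `x`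
    have h3 : f 0 ≤ f x := hf (Nat.zero_le x)
    have h4 : δ / (4 * D) * x ≤ δ * (|C₇ - h p| / D) := by
      have h5 : (x : ℝ) ≤ 4 * |C₇ - h p| := hx.le.trans (by linarith [le_abs_self (C₇ - h p)])
      calc δ / (4 * D) * x ≤ δ / (4 * D) * (4 * |C₇ - h p|) := by gcongr
        _ = δ * (|C₇ - h p| / D) := by field_simp
    have h6 := neg_abs_le (f 0)
    have h7 := abs_nonneg (f p - f 0)
    nlinarith
  · -- number of steps
    set r : ℝ := (x / 4 - (C₇ - h p)) / D with hr
    have hr0 : 0 ≤ r := div_nonneg (by linarith) hD0.le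
    obtain ⟨x', hx'1, hx'2, hx'3, hx'4⟩ := hseq ⌊r⌋₊
    have h3 : (⌊r⌋₊ : ℝ) ≤ r := Nat.floor_le hr0
    have h4 : r < ⌊r⌋₊ + 1 := Nat.lt_floor_add_one r
    have h5 := hh2 x'
    have h6 : (x' : ℝ) ≤ x := by
      have h7 : (⌊r⌋₊ : ℝ) * D ≤ x / 4 - (C₇ - h p) := by
        calc (⌊r⌋₊ : ℝ) * D ≤ r * D := by gcongr
          _ = x / 4 - (C₇ - h p) := by rw [hr]; field_simp
      linarith
    have h7 : f x' ≤ f x := hf (by exact_mod_cast h6)
    have h8 : δ / (4 * D) * x = δ * r + δ * ((C₇ - h p) / D) := by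
      rw [hr]
      field_simp
      ring
    have h9 : δ * ((C₇ - h p) / D) ≤ δ * (|C₇ - h p| / D) := by
      have := le_abs_self (C₇ - h p)
      gcongr
    have h10 : δ * r ≤ δ * (⌊r⌋₊ + 1) := by nlinarith
    have h11 := neg_abs_le (f 0)
    have h12 := neg_abs_le (f p - f 0)
    nlinarith

end Pool.Agent.W_7d29a1_g
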