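import Pool.Agent.W_7d29a1_g.ChainLoc
import Pool.Agent.W_7d29a1_g.Finish25

/-!
MP_7d29a1_pr (G+, track G): the chain with a predicate. `S x α` says that some functional of the scale `2 ^ x` fluctuates by
`2 ^ (- α)` units with probability `2 ^ (- α)`; it is monotone in `α`.

`hB`: the volume argument from a scale `y` where `S y a₁` holds; `α₀` does not depend on `a₁`. `hB0`: the same for single sites.
`hG`: fluctuations force the unit to double. `hV`: the variance is at most linear. `hslow`, `hres`: slow stretches.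
Two versions: without errors (then `f → ∞` is needed) and with an error of the size of a constant cost per octave (then the
unit must be larger than any multiple of the logarithm of the time).
-/

set_option autoImplicit false

open Finset Filter

namespace Pool.Agent.W_7d29a1_g

/-- Scales with fluctuations occur for ever, version with errors. -/
theorem often_log {g f : ℕ → ℝ} {S : ℕ → ℝ → Prop} {P : ℕ → Prop} {α α₀ C' C₀ : ℝ} {k x₀ : ℕ}
    (hmono : ∀ x α β, α ≤ β → S x α → S x β)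
    (hE : ∀ K : ℝ, ∃ x₀ : ℕ, ∀ x, x₀ ≤ x → K * x ≤ (2 : ℝ) ^ g x)
    (hslow' : ∀ y x, x₀ ≤ y → y ≤ x → (∀ z, y ≤ z → z < x → P z) →
      g x - g y ≤ (f x - f y) / 4 + C' * (1 + ∑ z ∈ Ico y x, (2 : ℝ) ^ (-g z)))
    (hres : ∀ x, x₀ ≤ x → ¬ P x → ∃ y, x ≤ y + k ∧ y ≤ x + k ∧ S y α)
    (hB0 : ∀ x, S x (max (g x - f x / 2 + C₀) α₀)) :
    ∀ N : ℕ, ∃ y, N ≤ y ∧ S y (max α α₀) := by
  set C := max C' 0 with hCdef
  have hC0 : 0 ≤ C := le_max_right _ _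
  have hslow : ∀ y x, x₀ ≤ y → y ≤ x → (∀ z, y ≤ z → z < x → P z) →
      g x - g y ≤ (f x - f y) / 4 + C * (1 + ∑ z ∈ Ico y x, (2 : ℝ) ^ (-g z)) := by
    intro y x h1 h2 h3
    have h4 := hslow' y x h1 h2 h3
    have h5 : 0 ≤ ∑ z ∈ Ico y x, (2 : ℝ) ^ (-g z) := sum_nonneg fun z _ => by positivity
    have h6 : C' * (1 + ∑ z ∈ Ico y x, (2 : ℝ) ^ (-g z)) ≤ C * (1 + ∑ z ∈ Ico y x, (2 : ℝ) ^ (-g z)) :=
      mul_le_mul_of_nonneg_right (le_max_left _ _) (by linarith)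
    linarith
  intro N
  by_contra hcon
  push Not at hcon
  set K : ℝ := 16 * (C + 1) with hK
  have hK0 : 0 < K := by positivity
  obtain ⟨x₁, hx₁⟩ := hE K
  set y := max (N + k) (max x₀ (max x₁ 1)) with hy
  have hyN : N + k ≤ y := le_max_left _ _
  have hy0 : x₀ ≤ y := (le_max_left _ _).trans (le_max_right _ _)
  have hy1 : x₁ ≤ y := ((le_max_left _ _).trans (le_max_right _ _)).trans (le_max_right _ _)
  have hy2 : 1 ≤ y := ((le_max_right _ _).trans (le_max_right _ _)).trans (le_max_right _ _)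
  have hP : ∀ z, y ≤ z → P z := by
    intro z hz
    by_contra hnP
    obtain ⟨y', h1, h2, h3⟩ := hres z (hy0.trans hz) hnP
    exact hcon y' (by omega) (hmono _ _ _ (le_max_left _ _) h3)
  have hkey : ∀ x, y ≤ x → α < 2 * g y + 2 * C + C₀ - f y / 2 - 3 / 4 * Real.log x := by
    intro x hx
    have hx1 : (1 : ℝ) ≤ x := by exact_mod_cast hy2.trans hx
    have h1 := hslow y x hy0 hx fun z hz _ => hP z hz
    have h2 := err_log hK0 hy2 (fun x' hx' => hx₁ x' (hy1.trans hx')) y x le_rfl hx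
    have hly : 0 ≤ Real.log y := Real.log_nonneg (by exact_mod_cast hy2)
    have hlx : 0 ≤ Real.log x := Real.log_nonneg hx1
    have h3 : C * ∑ z ∈ Ico y x, (2 : ℝ) ^ (-g z) ≤ 1 / 8 * Real.log x := by
      have h4 : C * ∑ z ∈ Ico y x, (2 : ℝ) ^ (-g z) ≤ C * (2 / K * Real.log x) := by
        apply mul_le_mul_of_nonneg_left _ hC0
        refine h2.trans (mul_le_mul_of_nonneg_left (by linarith) (by positivity))
      have h5 : C * (2 / K * Real.log x) = (C / (C + 1)) * (1 / 8 * Real.log x) := by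
        rw [hK]
        field_simp
        ring
      have h6 : C / (C + 1) ≤ 1 := by
        rw [div_le_one (by positivity)]
        linarith
      rw [h5] at h4
      exact h4.trans (mul_le_of_le_one_left (by positivity) h6)
    have h7 : Real.log x ≤ g x := by
      have h8 := hx₁ x (hy1.trans hx)
      have h9 : (x : ℝ) ≤ 2 ^ g x := by nlinarith
      have h10 := Real.log_le_log (by linarith) h9
      rw [Real.log_rpow (by norm_num)] at h10
      have h11 := Real.log_two_lt_d9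
      have h12 := Real.log_two_gt_d9
      by_contra h13
      push Not at h13
      rcases le_or_gt 0 (g x) with h14 | h14
      · nlinarith
      · nlinarith
    have h8 : α < g x - f x / 2 + C₀ := by
      by_contra h
      push Not at h
      exact hcon x (by omega) (hmono _ _ _ (max_le_max_right _ h) (hB0 x))
    have h9 : C * (1 + ∑ z ∈ Ico y x, (2 : ℝ) ^ (-g z)) = C + C * ∑ z ∈ Ico y x, (2 : ℝ) ^ (-g z) := by ring
    rw [h9] at h1
    linarith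
  obtain ⟨m, hm⟩ := exists_nat_gt (Real.exp ((2 * g y + 2 * C + C₀ - f y / 2 - α) * (4 / 3)))
  have h1 := hkey (max y m) (le_max_left _ _)
  have h3 : (2 * g y + 2 * C + C₀ - f y / 2 - α) * (4 / 3) ≤ Real.log ((max y m : ℕ) : ℝ) := by
    have h4 : Real.exp ((2 * g y + 2 * C + C₀ - f y / 2 - α) * (4 / 3)) ≤ ((max y m : ℕ) : ℝ) := by
      refine hm.le.trans ?_
      exact_mod_cast le_max_right y m
    have h5 := Real.log_le_log (Real.exp_pos _) h4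
    rwa [Real.log_exp] at h5
  linarith

/-- Scales with fluctuations occur for ever, version without errors. -/
theorem often_tendsto {g f : ℕ → ℝ} {S : ℕ → ℝ → Prop} {P : ℕ → Prop} {α α₀ C C₀ : ℝ} {k x₀ : ℕ}
    (hmono : ∀ x α β, α ≤ β → S x α → S x β) (hf : Tendsto f atTop atTop)
    (hslow : ∀ y x, x₀ ≤ y → y ≤ x → (∀ z, y ≤ z → z < x → P z) → g x - g y ≤ (f x - f y) / 4 + C)
    (hres : ∀ x, x₀ ≤ x → ¬ P x → ∃ y, x ≤ y + k ∧ y ≤ x + k ∧ S y α)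
    (hB0 : ∀ x, S x (max (g x - f x / 2 + C₀) α₀)) :
    ∀ N : ℕ, ∃ y, N ≤ y ∧ S y (max α α₀) := by
  intro N
  by_contra hcon
  push Not at hcon
  set y := max (N + k) x₀ with hy
  have hyN : N + k ≤ y := le_max_left _ _
  have hy0 : x₀ ≤ y := le_max_right _ _
  have hP : ∀ z, y ≤ z → P z := by
    intro z hz
    by_contra hnP
    obtain ⟨y', h1, h2, h3⟩ := hres z (hy0.trans hz) hnP
    exact hcon y' (by omega) (hmono _ _ _ (le_max_left _ _) h3)
  obtain ⟨x, hx1, hx2⟩ := ((hf.eventually_ge_atTop (4 * (g y - f y / 4 + C + C₀ - α))).and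
    (eventually_ge_atTop y)).exists
  have h1 := hslow y x hy0 hx2 fun z hz _ => hP z hz
  have h8 : α < g x - f x / 2 + C₀ := by
    by_contra h
    push Not at h
    exact hcon x (by omega) (hmono _ _ _ (max_le_max_right _ h) (hB0 x))
  linarith

/-- The fluctuations are of the size of the unit at every scale. -/
theorem boundedS {g f err : ℕ → ℝ} {S : ℕ → ℝ → Prop} {P : ℕ → Prop} {α α₀ C' D Cg Cf : ℝ} {k x₀ : ℕ}
    (hmono : ∀ x α β, α ≤ β → S x α → S x β)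
    (hg : ∀ y x, y ≤ x → g y ≤ g x + Cg) (hg1 : ∀ x, g (x + 1) ≤ g x + D) (hf : ∀ y x, y ≤ x → f y ≤ f x + Cf)
    (herr0 : ∀ z, 0 ≤ err z)
    (herr : ∀ T : ℕ, ∃ y₀ : ℕ, ∀ y, y₀ ≤ y → ∀ y' x, y ≤ y' → x ≤ y + T → ∑ z ∈ Ico y' x, err z ≤ 1)
    (hslow' : ∀ y x, x₀ ≤ y → y ≤ x → (∀ z, y ≤ z → z < x → P z) →
      g x - g y ≤ (f x - f y) / 4 + C' * (1 + ∑ z ∈ Ico y x, err z))
    (hres : ∀ x, x₀ ≤ x → ¬ P x → ∃ y, x ≤ y + k ∧ y ≤ x + k ∧ S y α)
    (hoften : ∀ N : ℕ, ∃ y, N ≤ y ∧ S y (max α α₀))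
    (hB : ∀ a₁ : ℝ, ∃ C : ℝ, ∀ T : ℕ, ∃ y₀ : ℕ, ∀ y x, y₀ ≤ y → y ≤ x → x ≤ y + T → S y a₁ →
      S x (max (g x - g y - (f x - f y) / 2 + C) α₀))
    (hG : ∀ a₁ : ℝ, ∃ T x₀ : ℕ, ∀ x, x₀ ≤ x → S x a₁ → g x + 1 ≤ g (x + T)) :
    ∃ (β : ℝ) (x₁ : ℕ), ∀ x, x₁ ≤ x → S x β := by
  set C := max C' 0 with hCdef
  have hC0 : 0 ≤ C := le_max_right _ _
  have hslow : ∀ y x, x₀ ≤ y → y ≤ x → (∀ z, y ≤ z → z < x → P z) →
      g x - g y ≤ (f x - f y) / 4 + C * (1 + ∑ z ∈ Ico y x, err z) := by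
    intro y x h1 h2 h3
    have h4 := hslow' y x h1 h2 h3
    have h5 : 0 ≤ ∑ z ∈ Ico y x, err z := sum_nonneg fun z _ => herr0 z
    have h6 : C' * (1 + ∑ z ∈ Ico y x, err z) ≤ C * (1 + ∑ z ∈ Ico y x, err z) :=
      mul_le_mul_of_nonneg_right (le_max_left _ _) (by linarith)
    linarith
  set E := max D 0 with hEdef
  have hE0 : 0 ≤ E := le_max_right _ _
  have hg2 : ∀ x, g (x + 1) ≤ g x + E := fun x => (hg1 x).trans (by linarith [le_max_left D 0])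
  have hg3 : ∀ x m : ℕ, g (x + m) ≤ g x + m * E := by
    intro x m
    induction m with
    | zero => simp
    | succ m ih =>
      have := hg2 (x + m)
      rw [← add_assoc]
      push_cast
      linarith
  have hCg : 0 ≤ Cg := by linarith [hg 0 0 le_rfl]
  have hCf : 0 ≤ Cf := by linarith [hf 0 0 le_rfl]
  obtain ⟨CB, hCB⟩ := hB (max α α₀)
  set R : ℝ := Cf / 4 + 2 * C + (k + 1) * E with hR
  have hR0 : 0 ≤ R := by positivity
  obtain ⟨T₂, x₂, hT₂⟩ := hG (max (Cf / 4 + R + CB) α₀)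
  set M := ⌈Cg + 2 * R + CB - α⌉₊ with hM
  have hM1 : Cg + 2 * R + CB - α ≤ M := Nat.le_ceil _
  set T := (k + 1) + M * T₂ + k with hT
  obtain ⟨y₁, hy₁⟩ := hCB T
  obtain ⟨y₂, hy₂⟩ := herr T
  have hreset : ∀ y, max y₁ (max y₂ (max x₀ x₂)) ≤ y → S y (max α α₀) → ∃ y', y < y' ∧ y' ≤ y + T ∧ S y' (max α α₀) := by
    intro y hy hay
    have hyy1 : y₁ ≤ y := (le_max_left _ _).trans hy
    have hyy2 : y₂ ≤ y := ((le_max_left _ _).trans (le_max_right _ _)).trans hy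
    have hyx0 : x₀ ≤ y := (((le_max_left _ _).trans (le_max_right _ _)).trans (le_max_right _ _)).trans hy
    have hyx2 : x₂ ≤ y := (((le_max_right _ _).trans (le_max_right _ _)).trans (le_max_right _ _)).trans hy
    by_contra hcon
    push Not at hcon
    set s := y + (k + 1) with hs
    have hP : ∀ z, s ≤ z → z < s + M * T₂ → P z := by
      intro z hz1 hz2
      by_contra hnP
      obtain ⟨y', h1, h2, h3⟩ := hres z (by omega) hnP
      exact hcon y' (by omega) (by omega) (hmono _ _ _ (le_max_left _ _) h3)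
    have hgs : g s ≤ g y + (k + 1) * E := by
      have := hg3 y (k + 1)
      push_cast at this
      exact this
    have hfs : f y ≤ f s + Cf := hf y s (by omega)
    have hgr : ∀ x, s ≤ x → x ≤ s + M * T₂ → g x - g y ≤ (f x - f y) / 4 + R := by
      intro x hx1 hx2
      have h1 := hslow s x (by omega) hx1 fun z hz1 hz2 => hP z hz1 (by omega)
      have h2 := hy₂ y hyy2 s x (by omega) (by omega)
      have h3 : C * (1 + ∑ z ∈ Ico s x, err z) ≤ 2 * C := by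
        have := mul_le_mul_of_nonneg_left h2 hC0
        linarith
      rw [hR]
      linarith
    have hax : ∀ x, s ≤ x → x ≤ s + M * T₂ → S x (max (- (g x - g y) + 2 * R + CB) α₀) := by
      intro x hx1 hx2
      have h1 := hgr x hx1 hx2
      exact hmono _ _ _ (max_le_max_right _ (by linarith)) (hy₁ y x hyy1 (by omega) (by omega) hay)
    have hax2 : ∀ x, s ≤ x → x ≤ s + M * T₂ → S x (max (Cf / 4 + R + CB) α₀) := by
      intro x hx1 hx2
      have h1 := hgr x hx1 hx2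
      have h3 := hf y x (by omega)
      exact hmono _ _ _ (max_le_max_right _ (by linarith)) (hy₁ y x hyy1 (by omega) (by omega) hay)
    have hgm : ∀ m, m ≤ M → g s + m ≤ g (s + m * T₂) := by
      intro m
      induction m with
      | zero => simp
      | succ m ih =>
        intro hm
        have h1 := ih (by omega)
        have h2 : m * T₂ ≤ M * T₂ := Nat.mul_le_mul_right _ (by omega)
        have h3 := hT₂ (s + m * T₂) (by omega) (hax2 _ (by omega) (by omega))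
        have h4 : s + m * T₂ + T₂ = s + (m + 1) * T₂ := by ring
        rw [h4] at h3
        push_cast
        linarith
    have h1 := hgm M le_rfl
    have h2 := hax (s + M * T₂) (by omega) le_rfl
    have h3 := hg y s (by omega)
    exact hcon (s + M * T₂) (by omega) (by omega) (hmono _ _ _ (max_le_max_right _ (by linarith)) h2)
  obtain ⟨y₀, hy₀, hay₀⟩ := hoften (max y₁ (max y₂ (max x₀ x₂)))
  have hcover : ∀ x, y₀ ≤ x → ∃ y, y₀ ≤ y ∧ y ≤ x ∧ x ≤ y + T ∧ S y (max α α₀) := by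
    intro x hx
    induction x, hx using Nat.le_induction with
    | base => exact ⟨y₀, le_rfl, le_rfl, by omega, hay₀⟩
    | succ x hx ih =>
      obtain ⟨y, h1, h2, h3, h4⟩ := ih
      rcases Nat.lt_or_ge x (y + T) with h5 | h5
      · exact ⟨y, h1, by omega, by omega, h4⟩
      · obtain ⟨y', h6, h7, h8⟩ := hreset y (hy₀.trans h1) h4
        exact ⟨y', by omega, by omega, by omega, h8⟩
  refine ⟨max (T * E + Cf / 2 + CB) α₀, y₀, fun x hx => ?_⟩
  obtain ⟨y, h1, h2, h3, h4⟩ := hcover x hx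
  have h5 := hy₁ y x (((le_max_left _ _).trans hy₀).trans h1) h2 h3 h4
  have h6 := hf y x h2
  have h7 := hg3 y (x - y)
  have h8 : y + (x - y) = x := by omega
  rw [h8] at h7
  have h9 : ((x - y : ℕ) : ℝ) * E ≤ T * E := by
    apply mul_le_mul_of_nonneg_right _ hE0
    exact_mod_cast (by omega : x - y ≤ T)
  exact hmono _ _ _ (max_le_max_right _ (by linarith)) h5

/-- From bounded levels to the closing of the cone. `gm` is a second unit (one can take `gm = g`). -/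
theorem closeS {g gm f : ℕ → ℝ} {S : ℕ → ℝ → Prop} {Cm C₆ C₇ : ℝ} {k₆ : ℕ} (hf : Monotone f)
    (hbd : ∃ (β : ℝ) (x₁ : ℕ), ∀ x, x₁ ≤ x → S x β)
    (hG : ∀ a₁ : ℝ, ∃ T x₀ : ℕ, ∀ x, x₀ ≤ x → S x a₁ → g x + 1 ≤ g (x + T))
    (hV : ∀ a₁ : ℝ, ∃ C : ℝ, ∀ x : ℕ, S x a₁ → g x ≤ x / 2 + C)
    (hgm : ∀ y x, y ≤ x → gm y ≤ gm x + Cm)
    (hgm2 : ∀ x, gm x ≤ g x + C₆) (hgm3 : ∀ x, g x ≤ gm (x + k₆) + C₇)
    (hF : ∀ C' ε : ℝ, 0 < ε → ∃ (L x₁ : ℕ) (δ : ℝ), 0 < δ ∧ ∀ x, x₁ ≤ x →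
      (∀ j : ℕ, j ≤ L → gm (x + j) - gm x ≤ 3 / 4 * j + C') → f (x + L) - f x ≤ δ → gm (x + 1) - gm x ≤ ε) :
    ∃ c C : ℝ, 0 < c ∧ ∀ x : ℕ, c * x - C ≤ f x := by
  obtain ⟨β, x₀, hbd⟩ := hbd
  obtain ⟨T, x₁, hT⟩ := hG β
  obtain ⟨CV, hV⟩ := hV β
  have hCm : 0 ≤ Cm := by linarith [hgm 0 0 le_rfl]
  have hgm4 : ∀ (m : ℕ) x, max x₀ x₁ ≤ x → g x + m ≤ g (x + m * T) := by
    intro m x hx
    induction m with
    | zero => simp
    | succ m ih =>
      have h1 := hT (x + m * T) (by have := le_max_right x₀ x₁; omega) (hbd _ (by have := le_max_left x₀ x₁; omega))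
      have h2 : x + m * T + T = x + (m + 1) * T := by ring
      rw [h2] at h1
      push_cast
      linarith
  set m := ⌈1 + C₆ + C₇⌉₊ with hm
  have hm1 : 1 + C₆ + C₇ ≤ m := Nat.le_ceil _
  refine finish (C₇ := ((max x₀ x₁ : ℕ) : ℝ) / 2 + |CV + C₆| + Cm) (T := m * T + k₆) (x₀ := max x₀ x₁) hCm hf hgm ?_ ?_ hF
  · have h0 : ∀ x, x₀ ≤ x → gm x ≤ x / 2 + (CV + C₆) := by
      intro x hx
      have h1 := hgm2 x
      have h2 := hV x (hbd x hx)
      linarith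
    intro x
    have habs := le_abs_self (CV + C₆)
    rcases le_total x₀ x with h | h
    · have h1 := h0 x h
      have h2 : (0 : ℝ) ≤ ((max x₀ x₁ : ℕ) : ℝ) / 2 := by positivity
      linarith
    · have h1 := h0 (max x₀ x₁) (le_max_left _ _)
      have h2 := hgm x (max x₀ x₁) (h.trans (le_max_left x₀ x₁))
      have h3 : (0 : ℝ) ≤ (x : ℝ) / 2 := by positivity
      linarith
  · intro x hx
    have h1 := hgm4 m x hx
    have h2 := hgm3 (x + m * T)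
    have h3 := hgm2 x
    have h4 : x + m * T + k₆ = x + (m * T + k₆) := by ring
    rw [h4] at h2
    linarith

/-- **The chain**, without errors. -/
theorem chainS {g gm f : ℕ → ℝ} {S : ℕ → ℝ → Prop} {α₀ C₀ D Cg Cm C₆ C₇ : ℝ} {k₆ : ℕ}
    (hmono : ∀ x α β, α ≤ β → S x α → S x β)
    (hg : ∀ y x, y ≤ x → g y ≤ g x + Cg) (hg1 : ∀ x, g (x + 1) ≤ g x + D) (hf : Monotone f)
    (hf2 : Tendsto f atTop atTop)
    (hS : ∃ (P : ℕ → Prop) (α C : ℝ) (k x₀ : ℕ),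
      (∀ y x, x₀ ≤ y → y ≤ x → (∀ z, y ≤ z → z < x → P z) → g x - g y ≤ (f x - f y) / 4 + C) ∧
      ∀ x, x₀ ≤ x → ¬ P x → ∃ y, x ≤ y + k ∧ y ≤ x + k ∧ S y α)
    (hB0 : ∀ x, S x (max (g x - f x / 2 + C₀) α₀))
    (hB : ∀ a₁ : ℝ, ∃ C : ℝ, ∀ T : ℕ, ∃ y₀ : ℕ, ∀ y x, y₀ ≤ y → y ≤ x → x ≤ y + T → S y a₁ →
      S x (max (g x - g y - (f x - f y) / 2 + C) α₀))
    (hG : ∀ a₁ : ℝ, ∃ T x₀ : ℕ, ∀ x, x₀ ≤ x → S x a₁ → g x + 1 ≤ g (x + T))
    (hV : ∀ a₁ : ℝ, ∃ C : ℝ, ∀ x : ℕ, S x a₁ → g x ≤ x / 2 + C)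
    (hgm : ∀ y x, y ≤ x → gm y ≤ gm x + Cm)
    (hgm2 : ∀ x, gm x ≤ g x + C₆) (hgm3 : ∀ x, g x ≤ gm (x + k₆) + C₇)
    (hF : ∀ C' ε : ℝ, 0 < ε → ∃ (L x₁ : ℕ) (δ : ℝ), 0 < δ ∧ ∀ x, x₁ ≤ x →
      (∀ j : ℕ, j ≤ L → gm (x + j) - gm x ≤ 3 / 4 * j + C') → f (x + L) - f x ≤ δ → gm (x + 1) - gm x ≤ ε) :
    ∃ c C : ℝ, 0 < c ∧ ∀ x : ℕ, c * x - C ≤ f x := by
  obtain ⟨P, α, C, k, x₀, hslow, hres⟩ := hS
  have hoften := often_tendsto hmono hf2 hslow hres hB0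
  have hbd := boundedS (err := fun _ => 0) (C' := C) (Cf := 0) hmono hg hg1 (fun y x h => by linarith [hf h])
    (fun _ => le_rfl) (fun _ => ⟨0, fun _ _ _ _ _ _ => by simp⟩)
    (fun y x h1 h2 h3 => by
      have := hslow y x h1 h2 h3
      simp only [sum_const_zero, add_zero, mul_one]
      exact this) hres hoften hB hG
  exact closeS hf hbd hG hV hgm hgm2 hgm3 hF

/-- **The chain**, with errors of the size of a constant cost in every octave. -/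
theorem chainS_err {g gm f : ℕ → ℝ} {S : ℕ → ℝ → Prop} {α₀ C₀ D Cg Cm C₆ C₇ : ℝ} {k₆ : ℕ}
    (hmono : ∀ x α β, α ≤ β → S x α → S x β)
    (hg : ∀ y x, y ≤ x → g y ≤ g x + Cg) (hg1 : ∀ x, g (x + 1) ≤ g x + D) (hf : Monotone f)
    (hE : ∀ K : ℝ, ∃ x₀ : ℕ, ∀ x, x₀ ≤ x → K * x ≤ (2 : ℝ) ^ g x)
    (hS : ∃ (P : ℕ → Prop) (α C : ℝ) (k x₀ : ℕ),
      (∀ y x, x₀ ≤ y → y ≤ x → (∀ z, y ≤ z → z < x → P z) →
        g x - g y ≤ (f x - f y) / 4 + C * (1 + ∑ z ∈ Ico y x, (2 : ℝ) ^ (-g z))) ∧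
      ∀ x, x₀ ≤ x → ¬ P x → ∃ y, x ≤ y + k ∧ y ≤ x + k ∧ S y α)
    (hB0 : ∀ x, S x (max (g x - f x / 2 + C₀) α₀))
    (hB : ∀ a₁ : ℝ, ∃ C : ℝ, ∀ T : ℕ, ∃ y₀ : ℕ, ∀ y x, y₀ ≤ y → y ≤ x → x ≤ y + T → S y a₁ →
      S x (max (g x - g y - (f x - f y) / 2 + C) α₀))
    (hG : ∀ a₁ : ℝ, ∃ T x₀ : ℕ, ∀ x, x₀ ≤ x → S x a₁ → g x + 1 ≤ g (x + T))
    (hV : ∀ a₁ : ℝ, ∃ C : ℝ, ∀ x : ℕ, S x a₁ → g x ≤ x / 2 + C)
    (hgm : ∀ y x, y ≤ x → gm y ≤ gm x + Cm)
    (hgm2 : ∀ x, gm x ≤ g x + C₆) (hgm3 : ∀ x, g x ≤ gm (x + k₆) + C₇)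
    (hF : ∀ C' ε : ℝ, 0 < ε → ∃ (L x₁ : ℕ) (δ : ℝ), 0 < δ ∧ ∀ x, x₁ ≤ x →
      (∀ j : ℕ, j ≤ L → gm (x + j) - gm x ≤ 3 / 4 * j + C') → f (x + L) - f x ≤ δ → gm (x + 1) - gm x ≤ ε) :
    ∃ c C : ℝ, 0 < c ∧ ∀ x : ℕ, c * x - C ≤ f x := by
  obtain ⟨P, α, C, k, x₀, hslow, hres⟩ := hS
  have hoften := often_log hmono hE hslow hres hB0
  have hbd := boundedS (err := fun z => (2 : ℝ) ^ (-g z)) (C' := C) (Cf := 0) hmono hg hg1
    (fun y x h => by linarith [hf h]) (fun z => by positivity) (err_window hE) hslow hres hoften hB hG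
  exact closeS hf hbd hG hV hgm hgm2 hgm3 hF

end Pool.Agent.W_7d29a1_g
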