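import Pool.Agent.W_7d29a1_g.Model67
import Pool.Agent.W_7d29a1_F.LuckA

/-!
TRACK G, (EL): admissible functions, maxima, first rows. helper67.
-/

namespace Pool.Agent.W_7d29a1_g.K67

open Pool.Agent.W_7d29a1_F MeasureTheory ProbabilityTheory

/-! ### Nonnegative functions which are at most exponential in finitely many sites -/

/-- Measurable, nonnegative, at most `exp g` with `g ≥ 0` of linear growth in finitely many sites. -/
def Adm (f : Env → ℝ) : Prop :=
  Measurable f ∧ (∀ η, 0 ≤ f η) ∧ ∃ g : Env → ℝ, Sub g ∧ (∀ η, 0 ≤ g η) ∧ ∀ η, f η ≤ Real.exp (g η)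

namespace Adm

variable {f h : Env → ℝ}

theorem const {c : ℝ} (hc : 0 ≤ c) : Adm fun _ => c := by
  refine ⟨measurable_const, fun _ => hc, fun _ => c, Sub.const c, fun _ => hc, fun _ => ?_⟩
  have := Real.add_one_le_exp c
  linarith

theorem of_le (hf : Measurable f) (h0 : ∀ η, 0 ≤ f η) (hh : Adm h) (hle : ∀ η, f η ≤ h η) : Adm f := by
  obtain ⟨_, _, g, hg, hg0, hgle⟩ := hh
  exact ⟨hf, h0, g, hg, hg0, fun η => (hle η).trans (hgle η)⟩

theorem add (hf : Adm f) (hh : Adm h) : Adm fun η => f η + h η := by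
  obtain ⟨hm, h0, g, hg, hg0, hgle⟩ := hf
  obtain ⟨hm', h0', g', hg', hg0', hgle'⟩ := hh
  refine ⟨hm.add hm', fun η => add_nonneg (h0 η) (h0' η), fun η => g η + g' η + 1,
    (hg.add hg').add (Sub.const 1), fun η => ?_, fun η => ?_⟩
  · have := hg0 η
    have := hg0' η
    positivity
  · have h1 := hgle η
    have h2 := hgle' η
    have h3 : Real.exp (g η) ≤ Real.exp (g η + g' η) := Real.exp_le_exp.2 (by linarith [hg0' η])
    have h4 : Real.exp (g' η) ≤ Real.exp (g η + g' η) := Real.exp_le_exp.2 (by linarith [hg0 η])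
    have h5 : (2 : ℝ) ≤ Real.exp 1 := by
      have := Real.add_one_le_exp (1 : ℝ)
      linarith
    rw [Real.exp_add (g η + g' η) 1]
    nlinarith [Real.exp_pos (g η + g' η)]

theorem mul (hf : Adm f) (hh : Adm h) : Adm fun η => f η * h η := by
  obtain ⟨hm, h0, g, hg, hg0, hgle⟩ := hf
  obtain ⟨hm', h0', g', hg', hg0', hgle'⟩ := hh
  refine ⟨hm.mul hm', fun η => mul_nonneg (h0 η) (h0' η), fun η => g η + g' η,
    hg.add hg', fun η => add_nonneg (hg0 η) (hg0' η), fun η => ?_⟩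
  rw [Real.exp_add]
  exact mul_le_mul (hgle η) (hgle' η) (h0' η) (Real.exp_pos _).le

theorem sum {ι : Type*} (I : Finset ι) {f : ι → Env → ℝ} (hf : ∀ i ∈ I, Adm (f i)) :
    Adm fun η => ∑ i ∈ I, f i η := by
  classical
  induction I using Finset.induction_on with
  | empty => simpa using const le_rfl
  | insert a S ha ih =>
    have h1 := (hf a (Finset.mem_insert_self _ _)).add (ih fun i hi => hf i (Finset.mem_insert_of_mem hi))
    simpa only [Finset.sum_insert ha] using h1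

theorem max (hf : Adm f) (hh : Adm h) : Adm fun η => Max.max (f η) (h η) :=
  of_le (hf.1.max hh.1) (fun η => (hf.2.1 η).trans (le_max_left _ _)) (hf.add hh) fun η =>
    max_le (by linarith [hh.2.1 η]) (by linarith [hf.2.1 η])

theorem rpow (hf : Adm f) {q : ℝ} (hq : 0 ≤ q) : Adm fun η => f η ^ q := by
  obtain ⟨hm, h0, g, hg, hg0, hgle⟩ := hf
  refine ⟨hm.pow_const q, fun η => Real.rpow_nonneg (h0 η) q, fun η => q * g η, hg.const_mul q,
    fun η => mul_nonneg hq (hg0 η), fun η => ?_⟩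
  refine (Real.rpow_le_rpow (h0 η) (hgle η) hq).trans (le_of_eq ?_)
  rw [← Real.exp_mul, mul_comm]

theorem io {p : Env → Prop} (hp : MeasurableSet {η | p η}) : Adm fun η => io (p η) :=
  of_le (measurable_io hp) (fun _ => io_nonneg _) (const zero_le_one) fun _ => io_le_one _

variable {μ : Measure ℝ} {s : ℝ}

theorem integrable [IsProbabilityMeasure μ] (hμ : Pool.Agent.W_7d29a1_h47.EM μ) (hf : Adm f) :
    Integrable f (law μ) := by
  obtain ⟨hm, h0, g, hg, _, hgle⟩ := hf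
  refine (hg.exp_int hμ).mono' hm.aestronglyMeasurable (Filter.Eventually.of_forall fun η => ?_)
  rw [Real.norm_eq_abs, abs_of_nonneg (h0 η)]
  exact hgle η

theorem WR (R : Set Pt) (a : Pt) (n : ℕ) (y : ℤ) : Adm fun η => WR μ s R η a n y := by
  refine ⟨?_, fun η => WR_nonneg R η a n y, fun η => |V μ s η a n|, (Sub_V a n).abs,
    fun η => abs_nonneg _, fun η => ?_⟩
  · unfold Pool.Agent.W_7d29a1_F.WR
    exact (measurable_Zr R a n y).const_mul _
  · have h1 := WS_le_exp_V (μ := μ) (s := s) η a n {y}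
    unfold WS at h1
    rw [Finset.sum_singleton] at h1
    exact ((WR_le_W R η a n y).trans h1).trans (Real.exp_le_exp.2 (le_abs_self _))

theorem wt (b c : Pt) : Adm fun η => wt μ s η b c := by
  unfold Pool.Agent.W_7d29a1_g.K67.wt
  by_cases h : b.1 ≤ c.1
  · simp only [if_pos h]
    exact Adm.WR (μ := μ) (s := s) Set.univ b _ _
  · simp only [if_neg h]
    exact const le_rfl

end Adm

/-! ### Maxima over finite sets, with a floor `b` -/

/-- `max b (max of f over S)`. -/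
noncomputable def mx {κ : Type*} (b : ℝ) (S : Finset κ) (f : κ → ℝ) : ℝ := S.fold max b f

section Mx

variable {κ : Type*} {b c : ℝ} {S : Finset κ} {f g : κ → ℝ}

theorem mx_le : mx b S f ≤ c ↔ b ≤ c ∧ ∀ x ∈ S, f x ≤ c := Finset.fold_max_le c

theorem le_mx {x : κ} (hx : x ∈ S) : f x ≤ mx b S f := (mx_le.1 le_rfl).2 x hx

theorem floor_le_mx : b ≤ mx b S f := (mx_le.1 le_rfl).1

theorem exists_of_lt_mx (h : c < mx b S f) (hb : b ≤ c) : ∃ x ∈ S, c < f x := by
  by_contra hcon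
  push_neg at hcon
  exact absurd (mx_le.2 ⟨hb, hcon⟩) (not_le.2 h)

theorem exists_of_le_mx (h : c ≤ mx b S f) (hb : b < c) : ∃ x ∈ S, c ≤ f x := by
  rcases Finset.le_fold_max c |>.1 h with h1 | h1
  · exact absurd h1 (not_le.2 hb)
  · exact h1

theorem mx_mono {S' : Finset κ} (h : ∀ x ∈ S, x ∈ S' ∧ f x ≤ g x) : mx b S f ≤ mx b S' g :=
  mx_le.2 ⟨floor_le_mx, fun x hx => (h x hx).2.trans (le_mx (h x hx).1)⟩

theorem mx_congr (h : ∀ x ∈ S, f x = g x) : mx b S f = mx b S g := by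
  unfold mx
  exact Finset.fold_congr h

theorem Adm.mx {f : κ → Env → ℝ} (hb : 0 ≤ b) (hf : ∀ x ∈ S, Adm (f x)) :
    Adm fun η => mx b S fun x => f x η := by
  classical
  unfold Pool.Agent.W_7d29a1_g.K67.mx
  induction S using Finset.induction_on with
  | empty => simpa using Adm.const hb
  | insert a S ha ih =>
    have h1 := (hf a (Finset.mem_insert_self _ _)).max (ih fun i hi => hf i (Finset.mem_insert_of_mem hi))
    simpa only [Finset.fold_insert ha] using h1

theorem mx_dep {f : κ → Env → ℝ} {A : Set Pt} (hf : ∀ x ∈ S, DependsOn (f x) A) :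
    DependsOn (fun η => mx b S fun x => f x η) A := by
  intro η η' h
  exact mx_congr fun x hx => hf x hx h

end Mx

/-! ### The first row with a property -/

variable {μ : Measure ℝ} {s : ℝ}

/-- `τ` is the first row at which `H` happens. -/
def Fr (H : ℕ → Env → Prop) (τ : ℕ) (η : Env) : Prop := H τ η ∧ ∀ σ < τ, ¬ H σ η

theorem exists_Fr {H : ℕ → Env → Prop} {η : Env} {N : ℕ} (h : ∃ τ ≤ N, H τ η) :
    ∃ τ ≤ N, Fr H τ η := by
  classical
  have h1 : ∃ τ, H τ η := ⟨h.choose, h.choose_spec.2⟩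
  refine ⟨Nat.find h1, ?_, Nat.find_spec h1, fun σ hσ => Nat.find_min h1 hσ⟩
  obtain ⟨τ, hτ, hτH⟩ := h
  exact (Nat.find_min' h1 hτH).trans hτ

theorem Fr_unique {H : ℕ → Env → Prop} {η : Env} {τ τ' : ℕ} (h : Fr H τ η) (h' : Fr H τ' η) :
    τ = τ' := by
  rcases lt_trichotomy τ τ' with h1 | h1 | h1
  · exact absurd h.1 (h'.2 τ h1)
  · exact h1
  · exact absurd h'.1 (h.2 τ' h1)

theorem meas_Fr {H : ℕ → Env → Prop} (hH : ∀ τ, MeasurableSet {η | H τ η}) (τ : ℕ) :
    MeasurableSet {η | Fr H τ η} := by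
  have e : {η | Fr H τ η} = {η | H τ η} ∩ ⋂ σ ∈ Finset.range τ, {η | H σ η}ᶜ := by
    ext η
    simp [Fr]
  rw [e]
  exact (hH τ).inter (Finset.measurableSet_biInter _ fun σ _ => (hH σ).compl)

theorem sum_Fr_le (H : ℕ → Env → Prop) (N : ℕ) (η : Env) :
    ∑ τ ∈ Finset.range (N + 1), io (Fr H τ η) ≤ io (∃ τ ≤ N, H τ η) := by
  classical
  by_cases h : ∃ τ ≤ N, H τ η
  · obtain ⟨τ, hτ, hτF⟩ := exists_Fr h
    rw [io_of h, Finset.sum_eq_single_of_mem τ (Finset.mem_range.2 (by omega)), io_of hτF]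
    intro σ _ hσ
    exact io_not fun h1 => hσ (Fr_unique h1 hτF)
  · rw [io_not h]
    refine (Finset.sum_eq_zero fun τ hτ => io_not fun h1 => h ⟨τ, ?_, h1.1⟩).le
    have := Finset.mem_range.1 hτ
    omega

/-- Stop at the first row at which `H` happens: `U τ` depends on the rows up to `τ`, `G τ` on the rows
behind `τ`. -/
theorem stop_le [IsProbabilityMeasure μ] (hμ : Pool.Agent.W_7d29a1_h47.EM μ) {N : ℕ}
    {H : ℕ → Env → Prop} {U G : ℕ → Env → ℝ} {Um : Env → ℝ} {g : ℝ}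
    (hHm : ∀ τ, MeasurableSet {η | H τ η})
    (hHd : ∀ τ : ℕ, ∀ η η' : Env, (∀ p ∈ rows 0 τ, η p = η' p) → (H τ η ↔ H τ η'))
    (hU : ∀ τ, Adm (U τ)) (hUd : ∀ τ : ℕ, DependsOn (U τ) (rows 0 τ))
    (hG : ∀ τ, Adm (G τ)) (hGd : ∀ τ : ℕ, τ ≤ N → DependsOn (G τ) (rows τ N))
    (hUm : Adm Um) (hUle : ∀ τ ≤ N, ∀ η, U τ η ≤ Um η) (hg : ∀ τ ≤ N, ∫ η, G τ η ∂(law μ) ≤ g)
    (hg0 : 0 ≤ g) :
    ∫ η, ∑ τ ∈ Finset.range (N + 1), io (Fr H τ η) * U τ η * G τ η ∂(law μ) ≤
      g * ∫ η, io (∃ τ ≤ N, H τ η) * Um η ∂(law μ) := by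
  classical
  have hFA : ∀ τ, Adm fun η => io (Fr H τ η) := fun τ => Adm.io (meas_Fr hHm τ)
  have hFd : ∀ τ, DependsOn (fun η => io (Fr H τ η)) (rows 0 τ) := by
    intro τ η η' h
    have e : Fr H τ η ↔ Fr H τ η' := by
      unfold Fr
      refine and_congr (hHd τ η η' h) (forall_congr' fun σ => forall_congr' fun hσ => ?_)
      refine not_congr (hHd σ η η' fun p hp => h p ?_)
      exact rows_mono le_rfl (by exact_mod_cast hσ.le) hp
    show io _ = io _
    rw [propext e]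
  have h1 : ∀ τ ∈ Finset.range (N + 1), ∫ η, io (Fr H τ η) * U τ η * G τ η ∂(law μ) ≤
      g * ∫ η, io (Fr H τ η) * Um η ∂(law μ) := by
    intro τ hτ
    have hτN : τ ≤ N := by
      have := Finset.mem_range.1 hτ
      omega
    rw [integral_indep (μ := μ) (A := rows 0 τ) (B := rows τ N)
      ((hFA τ).mul (hU τ)).1 (hG τ).1 ?_ (hGd τ hτN) (rows_disj le_rfl), mul_comm]
    · refine mul_le_mul (hg τ hτN) ?_ (integral_nonneg fun η => mul_nonneg (io_nonneg _) ((hU τ).2.1 η)) hg0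
      exact integral_mono (((hFA τ).mul (hU τ)).integrable hμ) (((hFA τ).mul hUm).integrable hμ)
        fun η => mul_le_mul_of_nonneg_left (hUle τ hτN η) (io_nonneg _)
    · intro η η' h
      show io _ * _ = io _ * _
      have e1 := hFd τ h
      have e2 := hUd τ h
      simp only at e1
      rw [e1, e2]
  rw [integral_finset_sum _ fun τ _ => (((hFA τ).mul (hU τ)).mul (hG τ)).integrable hμ]
  refine (Finset.sum_le_sum h1).trans ?_
  rw [← Finset.mul_sum, ← integral_finset_sum _ fun τ _ => ((hFA τ).mul hUm).integrable hμ]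
  refine mul_le_mul_of_nonneg_left ?_ hg0
  have hm : MeasurableSet {η | ∃ τ ≤ N, H τ η} := by
    have e : {η | ∃ τ ≤ N, H τ η} = ⋃ τ ∈ Finset.range (N + 1), {η | H τ η} := by
      ext η
      simp [Nat.lt_succ_iff]
    rw [e]
    exact Finset.measurableSet_biUnion _ fun τ _ => hHm τ
  refine integral_mono ((Adm.sum _ fun τ _ => (hFA τ).mul hUm).integrable hμ)
    (((Adm.io hm).mul hUm).integrable hμ) fun η => ?_
  simp only
  rw [← Finset.sum_mul]
  exact mul_le_mul_of_nonneg_right (sum_Fr_le H N η) (hUm.2.1 η)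

end Pool.Agent.W_7d29a1_g.K67
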