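import Pool.Agent.W_7d29a1_g.EL67A

/-!
TRACK G, (EL): weights inside a vertical strip, exits through its two sides (deterministic part). helper67.
-/

namespace Pool.Agent.W_7d29a1_g.K67

open Pool.Agent.W_7d29a1_F MeasureTheory ProbabilityTheory

variable {μ : Measure ℝ} {s : ℝ}

/-- The factor of the step `(1, 0)`. -/
noncomputable def k0 (μ : Measure ℝ) (s : ℝ) : ℝ := Real.exp (-lam μ s)

/-- The factor of the step `(1, 1)`. -/
noncomputable def k1 (μ : Measure ℝ) (s : ℝ) : ℝ := Real.exp (s - lam μ s)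

theorem k0_pos : 0 < k0 μ s := Real.exp_pos _

theorem k1_pos : 0 < k1 μ s := Real.exp_pos _

/-- The weight of the paths from `a` to the site `(a.1 + n, x)` in `R`. -/
noncomputable def fw (μ : Measure ℝ) (s : ℝ) (R : Set Pt) (η : Env) (a : Pt) (n : ℕ) (x : ℤ) : ℝ :=
  WR μ s R η a n (x - a.2)

/-- The weight of the paths from `a` to the site `(a.1 + n + 1, x)`, all sites but the last one in `R`. -/
noncomputable def ex (μ : Measure ℝ) (s : ℝ) (R : Set Pt) (η : Env) (a : Pt) (n : ℕ) (x : ℤ) : ℝ :=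
  Real.exp (η (a.1 + (n + 1), x)) * (k0 μ s * fw μ s R η a n x + k1 μ s * fw μ s R η a n (x - 1))

variable {R : Set Pt}

theorem fw_nonneg (η : Env) (a : Pt) (n : ℕ) (x : ℤ) : 0 ≤ fw μ s R η a n x := WR_nonneg _ _ _ _ _

theorem ex_nonneg (η : Env) (a : Pt) (n : ℕ) (x : ℤ) : 0 ≤ ex μ s R η a n x :=
  mul_nonneg (Real.exp_pos _).le (add_nonneg (mul_nonneg k0_pos.le (fw_nonneg _ _ _ _))
    (mul_nonneg k1_pos.le (fw_nonneg _ _ _ _)))

theorem fw_zero (η : Env) (a : Pt) (x : ℤ) : fw μ s R η a 0 x = if x = a.2 then 1 else 0 := by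
  unfold fw WR
  simp only [Zr]
  by_cases h : x = a.2
  · simp [h]
  · rw [if_neg (by omega), if_neg h, mul_zero]

theorem fw_succ (η : Env) (a : Pt) (n : ℕ) (x : ℤ) :
    fw μ s R η a (n + 1) x = R.indicator (fun p => Real.exp (η p)) (a.1 + (n + 1), x) *
      (k0 μ s * fw μ s R η a n x + k1 μ s * fw μ s R η a n (x - 1)) := by
  unfold fw WR k0 k1
  rw [Zr]
  have e1 : a.2 + (x - a.2) = x := by ring
  have e2 : x - 1 - a.2 = x - a.2 - 1 := by ring
  rw [e1, e2]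
  have h1 : Real.exp (s * ((x - a.2 : ℤ) : ℝ) - ((n + 1 : ℕ) : ℝ) * lam μ s) =
      Real.exp (-lam μ s) * Real.exp (s * ((x - a.2 : ℤ) : ℝ) - (n : ℝ) * lam μ s) := by
    rw [← Real.exp_add]
    congr 1
    push_cast
    ring
  have h2 : Real.exp (s * ((x - a.2 : ℤ) : ℝ) - ((n + 1 : ℕ) : ℝ) * lam μ s) =
      Real.exp (s - lam μ s) * Real.exp (s * ((x - a.2 - 1 : ℤ) : ℝ) - (n : ℝ) * lam μ s) := by
    rw [← Real.exp_add]
    congr 1
    push_cast
    ring
  generalize R.indicator (fun p => Real.exp (η p)) (a.1 + (n + 1), x) = I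
  generalize Zr R η a n (x - a.2) = Z1
  generalize Zr R η a n (x - a.2 - 1) = Z2
  calc Real.exp (s * ((x - a.2 : ℤ) : ℝ) - ((n + 1 : ℕ) : ℝ) * lam μ s) * (I * (Z1 + Z2))
      = I * (Real.exp (s * ((x - a.2 : ℤ) : ℝ) - ((n + 1 : ℕ) : ℝ) * lam μ s) * Z1 +
          Real.exp (s * ((x - a.2 : ℤ) : ℝ) - ((n + 1 : ℕ) : ℝ) * lam μ s) * Z2) := by ring
    _ = I * ((Real.exp (-lam μ s) * Real.exp (s * ((x - a.2 : ℤ) : ℝ) - (n : ℝ) * lam μ s)) * Z1 +
          (Real.exp (s - lam μ s) * Real.exp (s * ((x - a.2 - 1 : ℤ) : ℝ) - (n : ℝ) * lam μ s)) * Z2) := by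
        rw [← h1, ← h2]
    _ = _ := by ring

theorem fw_succ_le (η : Env) (a : Pt) (n : ℕ) (x : ℤ) :
    fw μ s R η a (n + 1) x ≤ ex μ s R η a n x := by
  rw [fw_succ]
  refine mul_le_mul_of_nonneg_right ?_ (add_nonneg (mul_nonneg k0_pos.le (fw_nonneg _ _ _ _))
    (mul_nonneg k1_pos.le (fw_nonneg _ _ _ _)))
  by_cases h : ((a.1 + (n + 1), x) : Pt) ∈ R
  · rw [Set.indicator_of_mem h]
  · rw [Set.indicator_of_notMem h]
    exact (Real.exp_pos _).le

theorem fw_succ_mem (η : Env) (a : Pt) (n : ℕ) (x : ℤ) (h : ((a.1 + (n + 1), x) : Pt) ∈ R) :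
    fw μ s R η a (n + 1) x = ex μ s R η a n x := by
  rw [fw_succ, Set.indicator_of_mem h]
  rfl

theorem fw_succ_not (η : Env) (a : Pt) (n : ℕ) (x : ℤ) (h : ((a.1 + (n + 1), x) : Pt) ∉ R) :
    fw μ s R η a (n + 1) x = 0 := by
  rw [fw_succ, Set.indicator_of_notMem h, zero_mul]

theorem fw_range (η : Env) (a : Pt) (n : ℕ) (x : ℤ) (h : ¬ (a.2 ≤ x ∧ x ≤ a.2 + n)) :
    fw μ s R η a n x = 0 := by
  unfold fw WR
  rw [Zr_eq_zero R η a (by omega), mul_zero]

theorem fw_mem (η : Env) (a : Pt) (ha : a ∈ R) (n : ℕ) (x : ℤ) (h : fw μ s R η a n x ≠ 0) :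
    ((a.1 + n, x) : Pt) ∈ R := by
  rcases n with _ | n
  · rw [fw_zero] at h
    by_cases hx : x = a.2
    · subst hx
      simpa using ha
    · rw [if_neg hx] at h
      exact absurd rfl h
  · by_contra hcon
    exact h (fw_succ_not η a n x (by push_cast at hcon; exact hcon))

/-- Summation by parts in the space direction. -/
theorem sum_shift (f g : ℤ → ℝ) (a : ℤ) (n : ℕ) (hf : ∀ x, ¬ (a ≤ x ∧ x ≤ a + n) → f x = 0) (c d : ℝ) :
    ∑ x ∈ Finset.Icc a (a + n), f x * (c * g x + d * g (x + 1)) =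
      ∑ x ∈ Finset.Icc a (a + (n + 1)), (c * f x + d * f (x - 1)) * g x := by
  have h1 : ∑ x ∈ Finset.Icc a (a + (n + 1)), c * f x * g x = ∑ x ∈ Finset.Icc a (a + n), c * f x * g x := by
    symm
    refine Finset.sum_subset (Finset.Icc_subset_Icc_right (by omega)) fun x _ hx => ?_
    rw [Finset.mem_Icc] at hx
    rw [hf x hx, mul_zero, zero_mul]
  have h2 : ∑ x ∈ Finset.Icc a (a + (n + 1)), d * f (x - 1) * g x =
      ∑ x ∈ Finset.Icc a (a + n), d * f x * g (x + 1) := by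
    have e : (Finset.Icc a (a + n)).map (addRightEmbedding (1 : ℤ)) = Finset.Icc (a + 1) (a + n + 1) :=
      Finset.map_add_right_Icc _ _ _
    have e2 : ∑ x ∈ Finset.Icc a (a + n), d * f x * g (x + 1) =
        ∑ x ∈ Finset.Icc (a + 1) (a + n + 1), d * f (x - 1) * g x := by
      rw [← e, Finset.sum_map]
      refine Finset.sum_congr rfl fun x _ => ?_
      simp only [addRightEmbedding_apply, add_sub_cancel_right]
    rw [e2]
    symm
    refine Finset.sum_subset (Finset.Icc_subset_Icc (by omega) (by omega)) fun x hx hx' => ?_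
    rw [Finset.mem_Icc] at hx hx'
    rw [hf (x - 1) (by omega), mul_zero, zero_mul]
  simp only [mul_add, add_mul, Finset.sum_add_distrib]
  rw [h1, h2]
  congr 1
  · exact Finset.sum_congr rfl fun x _ => by ring
  · exact Finset.sum_congr rfl fun x _ => by ring

/-! ### Weights to a target -/

/-- The weight from `p` to the sites `(t, y)`, `y ∈ Tg`. -/
noncomputable def ph (μ : Measure ℝ) (s : ℝ) (t : ℤ) (Tg : Finset ℤ) (η : Env) (p : Pt) : ℝ :=
  ∑ y ∈ Tg, wt μ s η p (t, y)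

variable {t : ℤ} {Tg : Finset ℤ}

theorem ph_nonneg (η : Env) (p : Pt) : 0 ≤ ph μ s t Tg η p := Finset.sum_nonneg fun y _ => wt_nonneg _ _ _

theorem W_one (η : Env) (p : Pt) (k : ℤ) : W μ s η p 1 k =
    Real.exp (η (p.1 + 1, p.2 + k)) * (k0 μ s * (if k = 0 then 1 else 0) + k1 μ s * (if k = 1 then 1 else 0)) := by
  have h := fw_succ (μ := μ) (s := s) (R := Set.univ) η p 0 (p.2 + k)
  rw [fw_zero, fw_zero, Set.indicator_of_mem (Set.mem_univ _)] at h
  unfold fw at h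
  have e1 : p.2 + k - p.2 = k := by ring
  rw [e1] at h
  unfold W
  rw [zero_add] at h
  rw [h]
  have e2 : (p.1 + ((0 : ℕ) + 1 : ℤ), p.2 + k) = ((p.1 + 1, p.2 + k) : Pt) := by simp
  rw [e2]
  congr 2
  · congr 1
    by_cases hk : k = 0
    · simp [hk]
    · rw [if_neg (by omega), if_neg hk]
  · congr 1
    by_cases hk : k = 1
    · simp [hk]
    · rw [if_neg (by omega), if_neg hk]

theorem wt_step (η : Env) {p c : Pt} (h : p.1 < c.1) : wt μ s η p c =
    k0 μ s * (Real.exp (η (p.1 + 1, p.2)) * wt μ s η (p.1 + 1, p.2) c) +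
    k1 μ s * (Real.exp (η (p.1 + 1, p.2 + 1)) * wt μ s η (p.1 + 1, p.2 + 1) c) := by
  obtain ⟨n, hn⟩ : ∃ n : ℕ, c.1 = p.1 + (1 + n : ℕ) := ⟨(c.1 - p.1 - 1).toNat, by push_cast; omega⟩
  rw [wt_eq η hn, W_add η p 1 n]
  have hI : Finset.Icc (0 : ℤ) ((1 : ℕ) : ℤ) = {0, 1} := by
    ext x
    rw [Finset.mem_Icc, Finset.mem_insert, Finset.mem_singleton]
    push_cast
    omega
  rw [hI, Finset.sum_pair (by norm_num), W_one, W_one,
    wt_eq η (show c.1 = ((p.1 + 1, p.2) : Pt).1 + n by show c.1 = p.1 + 1 + n; push_cast at hn; omega),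
    wt_eq η (show c.1 = ((p.1 + 1, p.2 + 1) : Pt).1 + n by show c.1 = p.1 + 1 + n; push_cast at hn; omega)]
  have e1 : c.2 - p.2 - 0 = c.2 - p.2 := by ring
  have e2 : c.2 - p.2 - 1 = c.2 - (p.2 + 1) := by ring
  simp only [add_zero, e1, e2, Nat.cast_one]
  norm_num
  ring

theorem ph_step (η : Env) {p : Pt} (h : p.1 < t) : ph μ s t Tg η p =
    k0 μ s * (Real.exp (η (p.1 + 1, p.2)) * ph μ s t Tg η (p.1 + 1, p.2)) +
    k1 μ s * (Real.exp (η (p.1 + 1, p.2 + 1)) * ph μ s t Tg η (p.1 + 1, p.2 + 1)) := by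
  unfold ph
  rw [Finset.mul_sum, Finset.mul_sum, Finset.mul_sum, Finset.mul_sum, ← Finset.sum_add_distrib]
  exact Finset.sum_congr rfl fun y _ => wt_step η (c := (t, y)) h

/-- The weight from `a` to the target of the paths whose first `n` sites are in `R`. -/
noncomputable def An (μ : Measure ℝ) (s : ℝ) (R : Set Pt) (Ψ : Pt → ℝ) (η : Env) (a : Pt) (n : ℕ) : ℝ :=
  ∑ x ∈ Finset.Icc a.2 (a.2 + n), fw μ s R η a n x * Ψ (a.1 + n, x)

theorem An_zero (Ψ : Pt → ℝ) (η : Env) (a : Pt) : An μ s R Ψ η a 0 = Ψ a := by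
  unfold An
  have h : Finset.Icc a.2 (a.2 + ((0 : ℕ) : ℤ)) = {a.2} := by simp
  rw [h, Finset.sum_singleton, fw_zero]
  simp

/-- One step of a function `Ψ` with the one step property. -/
theorem An_step {Ψ : Pt → ℝ} (η : Env) (a : Pt) (n : ℕ)
    (hΨ : ∀ x : ℤ, Ψ (a.1 + n, x) = k0 μ s * (Real.exp (η (a.1 + n + 1, x)) * Ψ (a.1 + n + 1, x)) +
      k1 μ s * (Real.exp (η (a.1 + n + 1, x + 1)) * Ψ (a.1 + n + 1, x + 1))) :
    An μ s R Ψ η a n = ∑ x ∈ Finset.Icc a.2 (a.2 + (n + 1)), ex μ s R η a n x * Ψ (a.1 + n + 1, x) := by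
  unfold An
  simp only [hΨ]
  rw [sum_shift (fun x => fw μ s R η a n x) (fun x => Real.exp (η (a.1 + n + 1, x)) * Ψ (a.1 + n + 1, x))
    a.2 n (fun x hx => fw_range η a n x hx) (k0 μ s) (k1 μ s)]
  refine Finset.sum_congr rfl fun x _ => ?_
  unfold ex
  rw [show a.1 + ((n : ℤ) + 1) = a.1 + n + 1 by ring]
  ring

/-- The total weight of the paths from `a` with `n` steps in `R`. -/
noncomputable def sb (μ : Measure ℝ) (s : ℝ) (R : Set Pt) (η : Env) (a : Pt) (n : ℕ) : ℝ :=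
  ∑ x ∈ Finset.Icc a.2 (a.2 + n), fw μ s R η a n x

theorem sb_nonneg (η : Env) (a : Pt) (n : ℕ) : 0 ≤ sb μ s R η a n :=
  Finset.sum_nonneg fun x _ => fw_nonneg _ _ _ _

theorem sb_zero (η : Env) (a : Pt) : sb μ s R η a 0 = 1 := by
  unfold sb
  have h : Finset.Icc a.2 (a.2 + ((0 : ℕ) : ℤ)) = {a.2} := by simp
  rw [h, Finset.sum_singleton, fw_zero, if_pos rfl]

theorem fw_le_sb (η : Env) (a : Pt) (n : ℕ) (x : ℤ) : fw μ s R η a n x ≤ sb μ s R η a n := by
  by_cases h : a.2 ≤ x ∧ x ≤ a.2 + n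
  · exact Finset.single_le_sum (f := fun x => fw μ s R η a n x) (fun y _ => fw_nonneg _ _ _ _)
      (Finset.mem_Icc.2 h)
  · rw [fw_range η a n x h]
    exact sb_nonneg η a n

/-- The total step weight is at most `o` times the total weight, `o` a bound of the one step weights. -/
theorem ex_sum_le (η : Env) (a : Pt) (n : ℕ) {o : ℝ}
    (ho : ∀ x, fw μ s R η a n x ≠ 0 → k0 μ s * Real.exp (η (a.1 + n + 1, x)) +
      k1 μ s * Real.exp (η (a.1 + n + 1, x + 1)) ≤ o) :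
    ∑ x ∈ Finset.Icc a.2 (a.2 + (n + 1)), ex μ s R η a n x ≤ o * sb μ s R η a n := by
  have h1 : ∑ x ∈ Finset.Icc a.2 (a.2 + (n + 1)), ex μ s R η a n x =
      ∑ x ∈ Finset.Icc a.2 (a.2 + n), fw μ s R η a n x * (k0 μ s * Real.exp (η (a.1 + n + 1, x)) +
        k1 μ s * Real.exp (η (a.1 + n + 1, x + 1))) := by
    rw [sum_shift (fun x => fw μ s R η a n x) (fun x => Real.exp (η (a.1 + n + 1, x)))
      a.2 n (fun x hx => fw_range η a n x hx) (k0 μ s) (k1 μ s)]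
    refine Finset.sum_congr rfl fun x _ => ?_
    unfold ex
    rw [show a.1 + ((n : ℤ) + 1) = a.1 + n + 1 by ring]
    ring
  rw [h1]
  unfold sb
  rw [Finset.mul_sum]
  refine Finset.sum_le_sum fun x _ => ?_
  by_cases h : fw μ s R η a n x = 0
  · rw [h]
    simp
  · rw [mul_comm]
    exact mul_le_mul_of_nonneg_right (ho x h) (fw_nonneg _ _ _ _)

end Pool.Agent.W_7d29a1_g.K67
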