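import Pool.Agent.W_7d29a1_g.EL67B

/-!
TRACK G, (EL): the vertical strip of half width `S` with centre `x`, exits through its sides. helper67.
-/

namespace Pool.Agent.W_7d29a1_g.K67

open Pool.Agent.W_7d29a1_F MeasureTheory ProbabilityTheory

variable {μ : Measure ℝ} {s : ℝ}

/-- The strip `|p.2 - ⌊p.1 / 2⌋ - x| < S`. -/
def stp (S x : ℤ) : Set Pt := {p | p.1 / 2 + x - S < p.2 ∧ p.2 < p.1 / 2 + x + S}

theorem mem_stp {S x : ℤ} {p : Pt} : p ∈ stp S x ↔ p.1 / 2 + x - S < p.2 ∧ p.2 < p.1 / 2 + x + S := Iff.rfl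

variable {S x : ℤ}

theorem ex_sites (η : Env) {a : Pt} (ha : a ∈ stp S x) {n : ℕ} {z : ℤ}
    (h : ex μ s (stp S x) η a n z ≠ 0) :
    ((a.1 + (n + 1), z) : Pt) ∈ stp S x ∨ z = (a.1 + (n + 1)) / 2 + x - S ∨
      z = (a.1 + (n + 1)) / 2 + x + S := by
  have h1 : fw μ s (stp S x) η a n z ≠ 0 ∨ fw μ s (stp S x) η a n (z - 1) ≠ 0 := by
    by_contra hcon
    push_neg at hcon
    apply h
    unfold ex
    rw [hcon.1, hcon.2]
    simp
  rcases h1 with h1 | h1
  · have h2 := mem_stp.1 (fw_mem η a ha n z h1)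
    simp only at h2
    rw [mem_stp]
    simp only
    omega
  · have h2 := mem_stp.1 (fw_mem η a ha n (z - 1) h1)
    simp only at h2
    rw [mem_stp]
    simp only
    omega

/-- The sites behind one step from the strip are in the closed strip. -/
theorem ex_closed (η : Env) {a : Pt} (ha : a ∈ stp S x) {n : ℕ} {z : ℤ}
    (h : ex μ s (stp S x) η a n z ≠ 0) :
    (a.1 + (n + 1)) / 2 + x - S ≤ z ∧ z ≤ (a.1 + (n + 1)) / 2 + x + S := by
  rcases ex_sites η ha h with h1 | h1 | h1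
  · have h2 := mem_stp.1 h1
    simp only at h2
    omega
  · have h2 := mem_stp.1 ha
    omega
  · have h2 := mem_stp.1 ha
    omega

/-- One step: stay in the strip, or exit at one of the two sides. -/
theorem exit_step (η : Env) {a : Pt} (ha : a ∈ stp S x) (n : ℕ) {Ψ : Pt → ℝ} (hΨ : ∀ p, 0 ≤ Ψ p) :
    ∑ z ∈ Finset.Icc a.2 (a.2 + (n + 1)), ex μ s (stp S x) η a n z * Ψ (a.1 + n + 1, z) ≤
      An μ s (stp S x) Ψ η a (n + 1) +
        (ex μ s (stp S x) η a n ((a.1 + (n + 1)) / 2 + x - S) *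
          Ψ (a.1 + n + 1, (a.1 + (n + 1)) / 2 + x - S) +
        ex μ s (stp S x) η a n ((a.1 + (n + 1)) / 2 + x + S) *
          Ψ (a.1 + n + 1, (a.1 + (n + 1)) / 2 + x + S)) := by
  classical
  set l1 : ℤ := (a.1 + (n + 1)) / 2 + x - S with hl1
  set l2 : ℤ := (a.1 + (n + 1)) / 2 + x + S with hl2
  have h1 : ∀ z ∈ Finset.Icc a.2 (a.2 + (n + 1)), ex μ s (stp S x) η a n z * Ψ (a.1 + n + 1, z) ≤
      fw μ s (stp S x) η a (n + 1) z * Ψ (a.1 + n + 1, z) +
        ((if z = l1 then ex μ s (stp S x) η a n l1 * Ψ (a.1 + n + 1, l1) else 0) +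
         (if z = l2 then ex μ s (stp S x) η a n l2 * Ψ (a.1 + n + 1, l2) else 0)) := by
    intro z _
    have n1 : 0 ≤ fw μ s (stp S x) η a (n + 1) z * Ψ (a.1 + n + 1, z) :=
      mul_nonneg (fw_nonneg _ _ _ _) (hΨ _)
    have n2 : (0 : ℝ) ≤ if z = l1 then ex μ s (stp S x) η a n l1 * Ψ (a.1 + n + 1, l1) else 0 := by
      split_ifs
      · exact mul_nonneg (ex_nonneg _ _ _ _) (hΨ _)
      · exact le_rfl
    have n3 : (0 : ℝ) ≤ if z = l2 then ex μ s (stp S x) η a n l2 * Ψ (a.1 + n + 1, l2) else 0 := by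
      split_ifs
      · exact mul_nonneg (ex_nonneg _ _ _ _) (hΨ _)
      · exact le_rfl
    by_cases h : ex μ s (stp S x) η a n z = 0
    · rw [h, zero_mul]
      linarith
    · rcases ex_sites η ha h with h2 | h2 | h2
      · rw [fw_succ_mem η a n z h2] at n1 ⊢
        linarith
      · rw [← hl1] at h2
        rw [if_pos h2, ← h2]
        linarith
      · rw [← hl2] at h2
        rw [if_pos h2, ← h2]
        linarith
  refine (Finset.sum_le_sum h1).trans ?_
  rw [Finset.sum_add_distrib, Finset.sum_add_distrib]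
  refine add_le_add (le_of_eq ?_) (add_le_add ?_ ?_)
  · unfold An
    push_cast
    rw [show a.1 + ((n : ℤ) + 1) = a.1 + n + 1 by ring]
  · rw [Finset.sum_ite_eq']
    split_ifs
    · exact le_rfl
    · exact mul_nonneg (ex_nonneg _ _ _ _) (hΨ _)
  · rw [Finset.sum_ite_eq']
    split_ifs
    · exact le_rfl
    · exact mul_nonneg (ex_nonneg _ _ _ _) (hΨ _)

variable {t : ℤ} {Tg : Finset ℤ}

/-- The exit decomposition up to `m` steps. -/
theorem exit_sum (η : Env) {a : Pt} (ha : a ∈ stp S x) : ∀ m : ℕ, a.1 + m ≤ t →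
    ph μ s t Tg η a ≤ An μ s (stp S x) (ph μ s t Tg η) η a m +
      ∑ n ∈ Finset.range m, (ex μ s (stp S x) η a n ((a.1 + (n + 1)) / 2 + x - S) *
          ph μ s t Tg η (a.1 + n + 1, (a.1 + (n + 1)) / 2 + x - S) +
        ex μ s (stp S x) η a n ((a.1 + (n + 1)) / 2 + x + S) *
          ph μ s t Tg η (a.1 + n + 1, (a.1 + (n + 1)) / 2 + x + S)) := by
  intro m
  induction m with
  | zero =>
    intro _
    rw [An_zero]
    simp
  | succ m ih =>
    intro hm
    push_cast at hm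
    refine (ih (by omega)).trans ?_
    rw [Finset.sum_range_succ]
    have h1 := An_step (μ := μ) (s := s) (R := stp S x) (Ψ := ph μ s t Tg η) η a m (fun z => by
      exact ph_step η (p := (a.1 + m, z)) (show a.1 + (m : ℤ) < t by omega))
    rw [h1]
    have h2 := exit_step (μ := μ) (s := s) η ha m (Ψ := ph μ s t Tg η) (fun p => ph_nonneg η p)
    linarith

/-! ### Passing a line -/

theorem wt_last (η : Env) {p : Pt} {τ z : ℤ} (h : p.1 ≤ τ) : wt μ s η p (τ + 1, z) =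
    Real.exp (η (τ + 1, z)) * (k0 μ s * wt μ s η p (τ, z) + k1 μ s * wt μ s η p (τ, z - 1)) := by
  obtain ⟨n, hn⟩ : ∃ n : ℕ, τ = p.1 + n := ⟨(τ - p.1).toNat, by omega⟩
  rw [wt_eq η (show ((τ + 1, z) : Pt).1 = p.1 + (n + 1 : ℕ) by show τ + 1 = _; push_cast; omega),
    wt_eq η (show ((τ, z) : Pt).1 = p.1 + n from hn), wt_eq η (show ((τ, z - 1) : Pt).1 = p.1 + n from hn)]
  have h1 := fw_succ (μ := μ) (s := s) (R := Set.univ) η p n z
  rw [Set.indicator_of_mem (Set.mem_univ _)] at h1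
  have e : p.1 + ((n : ℤ) + 1) = τ + 1 := by omega
  rw [e] at h1
  exact h1

theorem wt_self (η : Env) (p : Pt) : wt μ s η p p = 1 := by
  rw [wt_eq η (n := 0) (by simp)]
  unfold W WR
  simp [Zr]

/-- Every path from `a` to a site on or beyond the line `L` passes the line. -/
theorem pass (η : Env) (R : Set Pt) (a : Pt) (L : ℤ → ℤ) (By : ℤ → ℤ → Prop)
    (h1 : ∀ r z, By (r + 1) z → z ≠ L (r + 1) → By r z ∧ By r (z - 1))
    (h2 : By a.1 a.2 → a.2 = L a.1) : ∀ (n : ℕ) (z : ℤ),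
    (By (a.1 + n) z → fw μ s R η a n z ≤
      ∑ k ∈ Finset.range (n + 1), fw μ s R η a k (L (a.1 + k)) * wt μ s η (a.1 + k, L (a.1 + k)) (a.1 + n, z)) ∧
    (By (a.1 + n + 1) z → z ≠ L (a.1 + n + 1) → ex μ s R η a n z ≤
      ∑ k ∈ Finset.range (n + 1), fw μ s R η a k (L (a.1 + k)) *
        wt μ s η (a.1 + k, L (a.1 + k)) (a.1 + n + 1, z)) := by
  have key : ∀ n : ℕ, (∀ z : ℤ, By (a.1 + n) z → fw μ s R η a n z ≤
      ∑ k ∈ Finset.range (n + 1), fw μ s R η a k (L (a.1 + k)) *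
        wt μ s η (a.1 + k, L (a.1 + k)) (a.1 + n, z)) →
      ∀ z : ℤ, By (a.1 + n + 1) z → z ≠ L (a.1 + n + 1) → ex μ s R η a n z ≤
      ∑ k ∈ Finset.range (n + 1), fw μ s R η a k (L (a.1 + k)) *
        wt μ s η (a.1 + k, L (a.1 + k)) (a.1 + n + 1, z) := by
    intro n ih z hz hzL
    obtain ⟨h3, h4⟩ := h1 _ z hz hzL
    have i1 := ih z h3
    have i2 := ih (z - 1) h4
    have e : ∑ k ∈ Finset.range (n + 1), fw μ s R η a k (L (a.1 + k)) *
        wt μ s η (a.1 + k, L (a.1 + k)) (a.1 + n + 1, z) =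
        Real.exp (η (a.1 + n + 1, z)) * (k0 μ s * ∑ k ∈ Finset.range (n + 1),
          fw μ s R η a k (L (a.1 + k)) * wt μ s η (a.1 + k, L (a.1 + k)) (a.1 + n, z) +
          k1 μ s * ∑ k ∈ Finset.range (n + 1),
          fw μ s R η a k (L (a.1 + k)) * wt μ s η (a.1 + k, L (a.1 + k)) (a.1 + n, z - 1)) := by
      rw [Finset.mul_sum, Finset.mul_sum, ← Finset.sum_add_distrib, Finset.mul_sum]
      refine Finset.sum_congr rfl fun k hk => ?_
      have hk' := Finset.mem_range.1 hk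
      rw [wt_last η (p := (a.1 + k, L (a.1 + k))) (τ := a.1 + n) (z := z)
        (show a.1 + (k : ℤ) ≤ a.1 + n by omega)]
      ring
    rw [e]
    unfold ex
    rw [show a.1 + ((n : ℤ) + 1) = a.1 + n + 1 by ring]
    exact mul_le_mul_of_nonneg_left (add_le_add (mul_le_mul_of_nonneg_left i1 k0_pos.le)
      (mul_le_mul_of_nonneg_left i2 k1_pos.le)) (Real.exp_pos _).le
  have main : ∀ n : ℕ, ∀ z : ℤ, By (a.1 + n) z → fw μ s R η a n z ≤
      ∑ k ∈ Finset.range (n + 1), fw μ s R η a k (L (a.1 + k)) *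
        wt μ s η (a.1 + k, L (a.1 + k)) (a.1 + n, z) := by
    intro n
    induction n with
    | zero =>
      intro z hz
      simp only [Nat.cast_zero, add_zero] at hz ⊢
      rw [Finset.sum_range_one]
      simp only [Nat.cast_zero, add_zero]
      by_cases hza : z = a.2
      · subst hza
        rw [← h2 hz, fw_zero, if_pos rfl]
        have : ((a.1, a.2) : Pt) = a := rfl
        rw [this, wt_self, mul_one]
      · rw [fw_zero, if_neg hza]
        exact mul_nonneg (fw_nonneg _ _ _ _) (wt_nonneg _ _ _)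
    | succ n ih =>
      intro z hz
      push_cast at hz ⊢
      rw [Finset.sum_range_succ]
      have hS0 : 0 ≤ ∑ k ∈ Finset.range (n + 1), fw μ s R η a k (L (a.1 + k)) *
        wt μ s η (a.1 + k, L (a.1 + k)) (a.1 + (n + 1), z) :=
        Finset.sum_nonneg fun k _ => mul_nonneg (fw_nonneg _ _ _ _) (wt_nonneg _ _ _)
      by_cases hzL : z = L (a.1 + (n + 1))
      · push_cast
        rw [← hzL, wt_self, mul_one]
        linarith
      · have h3 := key n ih z (by rw [add_assoc]; exact hz) (by rw [add_assoc]; exact hzL)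
        have h4 := fw_succ_le (μ := μ) (s := s) (R := R) η a n z
        have h5 : 0 ≤ fw μ s R η a (n + 1) (L (a.1 + ((n + 1 : ℕ) : ℤ))) *
          wt μ s η (a.1 + ((n + 1 : ℕ) : ℤ), L (a.1 + ((n + 1 : ℕ) : ℤ))) (a.1 + (n + 1), z) :=
          mul_nonneg (fw_nonneg _ _ _ _) (wt_nonneg _ _ _)
        rw [add_assoc a.1 (n : ℤ) 1] at h3
        linarith
  exact fun n z => ⟨main n z, key n (main n) z⟩

/-- The exit weight at the right side, from an inner start. -/
theorem ex_right (η : Env) {r0 : ℤ} (hr : r0 < S) {a : Pt} (ha : a.2 ≤ a.1 / 2 + x + r0) {n : ℕ}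
    {b c : ℝ} (hb : 0 < b) (hc : 0 < c) (h1 : ∀ k ≤ n, sb μ s (stp S x) η a k < b)
    (h2 : ∀ k ≤ n, wt μ s η (a.1 + k, (a.1 + k) / 2 + (x + r0)) (a.1 + n + 1, (a.1 + n + 1) / 2 + (x + S)) < c) :
    ex μ s (stp S x) η a n ((a.1 + (n + 1)) / 2 + x + S) < (n + 1) * (b * c) := by
  have h := (pass (μ := μ) (s := s) η (stp S x) a (fun r => r / 2 + (x + r0))
    (fun r z => r / 2 + (x + r0) ≤ z) (fun r z h3 h4 => by omega)
    (fun h3 => by omega) n ((a.1 + (n + 1)) / 2 + x + S)).2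
    (by omega) (by omega)
  refine lt_of_le_of_lt h ?_
  have h3 : ∀ k ∈ Finset.range (n + 1), fw μ s (stp S x) η a k ((a.1 + k) / 2 + (x + r0)) *
      wt μ s η (a.1 + k, (a.1 + k) / 2 + (x + r0)) (a.1 + n + 1, (a.1 + (n + 1)) / 2 + x + S) < b * c := by
    intro k hk
    have hk' : k ≤ n := by
      have := Finset.mem_range.1 hk
      omega
    have h4 := h2 k hk'
    rw [show (a.1 + n + 1) / 2 + (x + S) = (a.1 + ((n : ℤ) + 1)) / 2 + x + S by
      rw [show a.1 + (n : ℤ) + 1 = a.1 + ((n : ℤ) + 1) by ring]; ring] at h4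
    have h5 := lt_of_le_of_lt (fw_le_sb (μ := μ) (s := s) (R := stp S x) η a k
      ((a.1 + k) / 2 + (x + r0))) (h1 k hk')
    rcases (wt_nonneg (μ := μ) (s := s) η (a.1 + k, (a.1 + k) / 2 + (x + r0))
      (a.1 + n + 1, (a.1 + (n + 1)) / 2 + x + S)).eq_or_lt with h6 | h6
    · rw [← h6, mul_zero]
      positivity
    · exact mul_lt_mul'' h5 h4 (fw_nonneg _ _ _ _) h6.le
  refine lt_of_lt_of_le (Finset.sum_lt_sum_of_nonempty ⟨0, by simp⟩ h3) ?_
  rw [Finset.sum_const, Finset.card_range, nsmul_eq_mul]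
  push_cast
  exact le_rfl

/-- The exit weight at the left side, from an inner start. -/
theorem ex_left (η : Env) {r0 : ℤ} (hr : r0 < S) {a : Pt} (ha : a.1 / 2 + x - r0 ≤ a.2) {n : ℕ}
    {b c : ℝ} (hb : 0 < b) (hc : 0 < c) (h1 : ∀ k ≤ n, sb μ s (stp S x) η a k < b)
    (h2 : ∀ k ≤ n, wt μ s η (a.1 + k, (a.1 + k) / 2 + (x - r0)) (a.1 + n + 1, (a.1 + n + 1) / 2 + (x - S)) < c) :
    ex μ s (stp S x) η a n ((a.1 + (n + 1)) / 2 + x - S) < (n + 1) * (b * c) := by
  have h := (pass (μ := μ) (s := s) η (stp S x) a (fun r => r / 2 + (x - r0))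
    (fun r z => z ≤ r / 2 + (x - r0)) (fun r z h3 h4 => by omega)
    (fun h3 => by omega) n ((a.1 + (n + 1)) / 2 + x - S)).2
    (by omega) (by omega)
  refine lt_of_le_of_lt h ?_
  have h3 : ∀ k ∈ Finset.range (n + 1), fw μ s (stp S x) η a k ((a.1 + k) / 2 + (x - r0)) *
      wt μ s η (a.1 + k, (a.1 + k) / 2 + (x - r0)) (a.1 + n + 1, (a.1 + (n + 1)) / 2 + x - S) < b * c := by
    intro k hk
    have hk' : k ≤ n := by
      have := Finset.mem_range.1 hk
      omega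
    have h4 := h2 k hk'
    rw [show (a.1 + n + 1) / 2 + (x - S) = (a.1 + ((n : ℤ) + 1)) / 2 + x - S by
      rw [show a.1 + (n : ℤ) + 1 = a.1 + ((n : ℤ) + 1) by ring]; ring] at h4
    have h5 := lt_of_le_of_lt (fw_le_sb (μ := μ) (s := s) (R := stp S x) η a k
      ((a.1 + k) / 2 + (x - r0))) (h1 k hk')
    rcases (wt_nonneg (μ := μ) (s := s) η (a.1 + k, (a.1 + k) / 2 + (x - r0))
      (a.1 + n + 1, (a.1 + (n + 1)) / 2 + x - S)).eq_or_lt with h6 | h6
    · rw [← h6, mul_zero]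
      positivity
    · exact mul_lt_mul'' h5 h4 (fw_nonneg _ _ _ _) h6.le
  refine lt_of_lt_of_le (Finset.sum_lt_sum_of_nonempty ⟨0, by simp⟩ h3) ?_
  rw [Finset.sum_const, Finset.card_range, nsmul_eq_mul]
  push_cast
  exact le_rfl

end Pool.Agent.W_7d29a1_g.K67
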