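import Pool.Agent.W_7d29a1_g.EL67D

/-!
TRACK G, (EL): moments of the largest weight inside the strip. helper67.
-/

namespace Pool.Agent.W_7d29a1_g.K67

open Pool.Agent.W_7d29a1_F MeasureTheory ProbabilityTheory

variable {μ : Measure ℝ} {s : ℝ} [IsProbabilityMeasure μ]

theorem integral_io {p : Env → Prop} (hp : MeasurableSet {η | p η}) :
    ∫ η, io (p η) ∂(law μ) = (law μ).real {η | p η} := by
  classical
  have e : (fun η => io (p η)) = {η | p η}.indicator (1 : Env → ℝ) := by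
    funext η
    by_cases h : p η
    · rw [io_of h, Set.indicator_of_mem (show η ∈ {η | p η} from h)]
      rfl
    · rw [io_not h, Set.indicator_of_notMem (show η ∉ {η | p η} from h)]
  rw [e, integral_indicator_one hp]

/-- Cauchy-Schwarz. -/
theorem cs_le (hμ : Pool.Agent.W_7d29a1_h47.EM μ) {f h : Env → ℝ} (hf : Adm f) (hh : Adm h) :
    ∫ η, f η * h η ∂(law μ) ≤ (∫ η, f η ^ (2 : ℝ) ∂(law μ)) ^ (1 / 2 : ℝ) *
      (∫ η, h η ^ (2 : ℝ) ∂(law μ)) ^ (1 / 2 : ℝ) := by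
  have h2 : ∀ g : Env → ℝ, Adm g → MemLp g (ENNReal.ofReal 2) (law μ) := by
    intro g hg
    have e : ENNReal.ofReal 2 = 2 := by simp
    rw [e, memLp_two_iff_integrable_sq hg.1.aestronglyMeasurable]
    have h3 := (hg.mul hg).integrable hμ
    simpa [sq] using h3
  exact integral_mul_le_Lp_mul_Lq_of_nonneg Real.HolderConjugate.two_two
    (Filter.Eventually.of_forall hf.2.1) (Filter.Eventually.of_forall hh.2.1) (h2 f hf) (h2 h hh)

/-- Cauchy-Schwarz with an event. -/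
theorem io_cs (hμ : Pool.Agent.W_7d29a1_h47.EM μ) {p : Env → Prop} (hp : MeasurableSet {η | p η})
    {h : Env → ℝ} (hh : Adm h) {P : ℝ} (hP : (law μ).real {η | p η} ≤ P) :
    ∫ η, io (p η) * h η ∂(law μ) ≤ P ^ (1 / 2 : ℝ) * (∫ η, h η ^ (2 : ℝ) ∂(law μ)) ^ (1 / 2 : ℝ) := by
  refine (cs_le hμ (Adm.io hp) hh).trans ?_
  have e : ∀ η, io (p η) ^ (2 : ℝ) = io (p η) := by
    intro η
    by_cases h : p η
    · rw [io_of h, Real.one_rpow]
    · rw [io_not h, Real.zero_rpow (by norm_num)]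
  simp only [e]
  rw [integral_io hp]
  refine mul_le_mul_of_nonneg_right (Real.rpow_le_rpow measureReal_nonneg hP (by norm_num)) ?_
  exact Real.rpow_nonneg (integral_nonneg fun η => Real.rpow_nonneg (hh.2.1 η) _) _

variable {S x : ℤ}

theorem HB_mB (η : Env) {b : ℝ} {t : ℕ} (h : ∃ τ ≤ t, HB μ s S x b τ η) : b ≤ mB μ s S x 0 t η := by
  obtain ⟨τ, hτ, u, hu, hb⟩ := h
  have hu' := mem_bx.1 hu
  refine hb.trans ((sb_le_mB (T0 := 0) (T1 := τ) η hu ?_).trans (mB_mono η le_rfl hτ))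
  omega

theorem exHB_meas (b : ℝ) (t : ℕ) : MeasurableSet {η | ∃ τ ≤ t, HB μ s S x b τ η} := by
  have e : {η | ∃ τ ≤ t, HB μ s S x b τ η} = ⋃ τ ∈ Finset.range (t + 1), {η | HB μ s S x b τ η} := by
    ext η
    simp [Nat.lt_succ_iff]
  rw [e]
  exact Finset.measurableSet_biUnion _ fun τ _ => HB_meas b τ

/-- RESTART: the moment of the largest weight inside the strip. -/
theorem mB_int_le (hμ : Pool.Agent.W_7d29a1_h47.EM μ) {b q : ℝ} (hb : 1 < b) (hq : 0 ≤ q) (t : ℕ) :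
    ∫ η, mB μ s S x 0 t η ^ q ∂(law μ) ≤ b ^ q + (∫ η, mB μ s S x 0 t η ^ q ∂(law μ)) *
      ∫ η, io (∃ τ ≤ t, HB μ s S x b τ η) * (b * oM μ s S x t η) ^ q ∂(law μ) := by
  have hb0 : 0 < b := by linarith
  have hUA : ∀ τ, Adm fun η => (b * oR μ s S x τ η) ^ q := fun τ =>
    ((Adm.const hb0.le).mul (Adm.oR τ)).rpow hq
  have hGA : ∀ τ, Adm fun η => mB μ s S x τ t η ^ q := fun τ => Adm.mB.rpow hq
  have hFA : ∀ τ, Adm fun η => io (Fr (HB μ s S x b) τ η) := fun τ => Adm.io (meas_Fr (HB_meas b) τ)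
  have h1 : ∀ η, mB μ s S x 0 t η ^ q ≤ b ^ q + ∑ τ ∈ Finset.range (t + 1),
      io (Fr (HB μ s S x b) τ η) * (b * oR μ s S x τ η) ^ q * mB μ s S x τ t η ^ q := by
    intro η
    have hS0 : 0 ≤ ∑ τ ∈ Finset.range (t + 1),
      io (Fr (HB μ s S x b) τ η) * (b * oR μ s S x τ η) ^ q * mB μ s S x τ t η ^ q :=
      Finset.sum_nonneg fun τ _ => mul_nonneg (mul_nonneg (io_nonneg _) ((hUA τ).2.1 η)) ((hGA τ).2.1 η)
    rcases mB_restart (μ := μ) (s := s) (S := S) (x := x) η hb t with h | ⟨τ, hτ, hF, h⟩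
    · have := Real.rpow_le_rpow (zero_le_one.trans (one_le_mB η)) h hq
      linarith
    · have h2 := Real.rpow_le_rpow (zero_le_one.trans (one_le_mB η)) h hq
      rw [Real.mul_rpow (mul_nonneg hb0.le (zero_le_one.trans (one_le_oR η τ)))
        (zero_le_one.trans (one_le_mB η))] at h2
      have h3 := Finset.single_le_sum (f := fun τ => io (Fr (HB μ s S x b) τ η) *
        (b * oR μ s S x τ η) ^ q * mB μ s S x τ t η ^ q)
        (fun τ _ => mul_nonneg (mul_nonneg (io_nonneg _) ((hUA τ).2.1 η)) ((hGA τ).2.1 η))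
        (Finset.mem_range.2 (Nat.lt_succ_of_le hτ))
      simp only [io_of hF, one_mul] at h3
      have h4 : 0 ≤ b ^ q := Real.rpow_nonneg hb0.le q
      linarith
  have h2 := stop_le (μ := μ) hμ (N := t) (H := HB μ s S x b) (U := fun τ η => (b * oR μ s S x τ η) ^ q)
    (G := fun τ η => mB μ s S x τ t η ^ q) (Um := fun η => (b * oM μ s S x t η) ^ q)
    (g := ∫ η, mB μ s S x 0 t η ^ q ∂(law μ)) (HB_meas b) (fun τ η η' h => HB_dep b τ η η' h) hUA
    (fun τ η η' h => by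
      show (b * oR μ s S x τ η) ^ q = (b * oR μ s S x τ η') ^ q
      rw [show oR μ s S x τ η = oR μ s S x τ η' from oR_dep τ h]) hGA
    (fun τ _ η η' h => by
      show mB μ s S x τ t η ^ q = mB μ s S x τ t η' ^ q
      rw [show mB μ s S x τ t η = mB μ s S x τ t η' from mB_dep h])
    (((Adm.const hb0.le).mul (Adm.oM t)).rpow hq)
    (fun τ hτ η => Real.rpow_le_rpow (mul_nonneg hb0.le (zero_le_one.trans (one_le_oR η τ)))
      (mul_le_mul_of_nonneg_left (oR_le_oM η hτ) hb0.le) hq)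
    (fun τ hτ => integral_mono ((hGA τ).integrable hμ) ((hGA 0).integrable hμ) fun η =>
      Real.rpow_le_rpow (zero_le_one.trans (one_le_mB η)) (mB_mono η (Nat.zero_le τ) le_rfl) hq)
    (integral_nonneg fun η => (hGA 0).2.1 η)
  have h3 : ∫ η, mB μ s S x 0 t η ^ q ∂(law μ) ≤ ∫ η, (b ^ q + ∑ τ ∈ Finset.range (t + 1),
      io (Fr (HB μ s S x b) τ η) * (b * oR μ s S x τ η) ^ q * mB μ s S x τ t η ^ q) ∂(law μ) :=
    integral_mono ((hGA 0).integrable hμ) (((Adm.const (Real.rpow_nonneg hb0.le q)).add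
      (Adm.sum _ fun τ _ => ((hFA τ).mul (hUA τ)).mul (hGA τ))).integrable hμ) h1
  rw [integral_add (integrable_const _) ((Adm.sum _ fun τ _ =>
    ((hFA τ).mul (hUA τ)).mul (hGA τ)).integrable hμ), integral_const, probReal_univ, one_smul] at h3
  linarith

/-- The moment of the largest weight inside the strip is at most `2 b ^ q` if the level `b` is rarely
reached. -/
theorem mB_mom (hμ : Pool.Agent.W_7d29a1_h47.EM μ) {b q p : ℝ} (hb : 1 < b) (hq : 0 ≤ q) (t : ℕ)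
    (hp : (law μ).real {η | b ≤ mB μ s S x 0 t η} ≤ p)
    (h : b ^ q * (p ^ (1 / 2 : ℝ) * (∫ η, oM μ s S x t η ^ (2 * q) ∂(law μ)) ^ (1 / 2 : ℝ)) ≤ 1 / 2) :
    ∫ η, mB μ s S x 0 t η ^ q ∂(law μ) ≤ 2 * b ^ q := by
  have hb0 : 0 < b := by linarith
  have h1 := mB_int_le (μ := μ) (s := s) (S := S) (x := x) hμ hb hq t
  have hmono : (law μ).real {η | ∃ τ ≤ t, HB μ s S x b τ η} ≤ p :=
    (measureReal_mono fun η hη => HB_mB η hη).trans hp
  have h2 : ∫ η, io (∃ τ ≤ t, HB μ s S x b τ η) * (b * oM μ s S x t η) ^ q ∂(law μ) ≤ 1 / 2 := by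
    have h3 : ∀ η, io (∃ τ ≤ t, HB μ s S x b τ η) * (b * oM μ s S x t η) ^ q =
        b ^ q * (io (∃ τ ≤ t, HB μ s S x b τ η) * oM μ s S x t η ^ q) := by
      intro η
      rw [Real.mul_rpow hb0.le ((Adm.oM t).2.1 η)]
      ring
    simp only [h3]
    rw [integral_const_mul]
    have h4 := io_cs hμ (exHB_meas (μ := μ) (s := s) (S := S) (x := x) b t)
      ((Adm.oM (μ := μ) (s := s) (S := S) (x := x) t).rpow hq) hmono
    have h5 : ∀ η, (oM μ s S x t η ^ q) ^ (2 : ℝ) = oM μ s S x t η ^ (2 * q) := by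
      intro η
      rw [← Real.rpow_mul ((Adm.oM t).2.1 η), mul_comm]
    simp only [h5] at h4
    exact (mul_le_mul_of_nonneg_left h4 (Real.rpow_nonneg hb0.le q)).trans h
  have h3 : 0 ≤ ∫ η, mB μ s S x 0 t η ^ q ∂(law μ) :=
    integral_nonneg fun η => Real.rpow_nonneg (zero_le_one.trans (one_le_mB η)) q
  nlinarith

end Pool.Agent.W_7d29a1_g.K67
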