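import Pool.Agent.W_7d29a1_g.EL67E

/-!
TRACK G, (EL): the weight from an inner strip to a target, decomposition at the first row with a large exit
weight. helper67.
-/

namespace Pool.Agent.W_7d29a1_g.K67

open Pool.Agent.W_7d29a1_F MeasureTheory ProbabilityTheory

variable {μ : Measure ℝ} {s : ℝ}

open Classical in
/-- The sites of the rows `T0, …, T1` at distance at most `r0` from the line with centre `x`. -/
noncomputable def iN (r0 x : ℤ) (T0 T1 : ℕ) : Finset Pt :=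
  ((Finset.Icc (T0 : ℤ) T1) ×ˢ Finset.Icc ((T0 : ℤ) / 2 + x - r0) ((T1 : ℤ) / 2 + x + r0)).filter
    fun p => p.1 / 2 + x - r0 ≤ p.2 ∧ p.2 ≤ p.1 / 2 + x + r0

theorem mem_iN {r0 x : ℤ} {T0 T1 : ℕ} {p : Pt} :
    p ∈ iN r0 x T0 T1 ↔ (T0 : ℤ) ≤ p.1 ∧ p.1 ≤ T1 ∧ p.1 / 2 + x - r0 ≤ p.2 ∧ p.2 ≤ p.1 / 2 + x + r0 := by
  classical
  unfold iN
  rw [Finset.mem_filter, Finset.mem_product, Finset.mem_Icc, Finset.mem_Icc]
  constructor
  · rintro ⟨⟨⟨h1, h2⟩, _⟩, h3⟩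
    exact ⟨h1, h2, h3⟩
  · rintro ⟨h1, h2, h3, h4⟩
    exact ⟨⟨⟨h1, h2⟩, by omega, by omega⟩, h3, h4⟩

/-- The largest weight from a site of the inner strip (rows `T0, …, t`) to the target. -/
noncomputable def gM (μ : Measure ℝ) (s : ℝ) (r0 : ℤ) (t : ℕ) (Tg : Finset ℤ) (x : ℤ) (T0 : ℕ)
    (η : Env) : ℝ :=
  mx 0 (iN r0 x T0 t) fun u => ph μ s t Tg η u

variable {r0 x : ℤ} {t : ℕ} {Tg : Finset ℤ}

theorem ph_le_gM (η : Env) {T0 : ℕ} {u : Pt} (hu : u ∈ iN r0 x T0 t) :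
    ph μ s t Tg η u ≤ gM μ s r0 t Tg x T0 η := le_mx (f := fun u => ph μ s t Tg η u) hu

theorem gM_nonneg (η : Env) (T0 : ℕ) : 0 ≤ gM μ s r0 t Tg x T0 η := floor_le_mx

theorem gM_mono (η : Env) {T0 T0' : ℕ} (h : T0' ≤ T0) :
    gM μ s r0 t Tg x T0 η ≤ gM μ s r0 t Tg x T0' η := by
  refine mx_le.2 ⟨gM_nonneg η _, fun u hu => ?_⟩
  have h1 := mem_iN.1 hu
  exact ph_le_gM η (mem_iN.2 ⟨by omega, h1.2⟩)

theorem Adm.ph (t : ℤ) (Tg : Finset ℤ) (u : Pt) : Adm fun η => ph μ s t Tg η u :=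
  Adm.sum _ fun y _ => Adm.wt u (t, y)

theorem wt_dep (b c : Pt) : DependsOn (fun η : Env => wt μ s η b c) (rows b.1 c.1) := by
  intro η η' h
  show wt μ s η b c = wt μ s η' b c
  unfold wt
  split_ifs with h1
  · refine W_dep_rows (μ := μ) (s := s) b (c.1 - b.1).toNat (c.2 - b.2) fun p hp => h p ?_
    exact rows_mono le_rfl (by omega) hp
  · rfl

theorem ph_dep (t : ℤ) (Tg : Finset ℤ) (u : Pt) :
    DependsOn (fun η : Env => ph μ s t Tg η u) (rows u.1 t) := by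
  intro η η' h
  exact Finset.sum_congr rfl fun y _ => wt_dep (μ := μ) (s := s) u (t, y) h

theorem Adm.gM (T0 : ℕ) : Adm fun η => gM μ s r0 t Tg x T0 η :=
  Adm.mx le_rfl fun u _ => Adm.ph (t : ℤ) Tg u

theorem gM_dep (T0 : ℕ) : DependsOn (fun η : Env => gM μ s r0 t Tg x T0 η) (rows T0 t) := by
  refine mx_dep fun u hu => ?_
  intro η η' h
  exact ph_dep (μ := μ) (s := s) (t : ℤ) Tg u fun p hp => h p (rows_mono (mem_iN.1 hu).1 le_rfl hp)

/-- Some exit weight in the row `τ` is at least `b0`. -/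
def HE (μ : Measure ℝ) (s : ℝ) (S r0 : ℤ) (t : ℕ) (b0 : ℝ) (x : ℤ) (τ : ℕ) (η : Env) : Prop :=
  ∃ u ∈ iN r0 x 0 t, u.1 + 1 ≤ τ ∧
    (b0 ≤ ex μ s (stp S x) η u (τ - 1 - u.1).toNat ((τ : ℤ) / 2 + x - S) ∨
      b0 ≤ ex μ s (stp S x) η u (τ - 1 - u.1).toNat ((τ : ℤ) / 2 + x + S))

variable {S : ℤ}

theorem HE_meas (b0 : ℝ) (τ : ℕ) : MeasurableSet {η | HE μ s S r0 t b0 x τ η} := by
  classical
  have e : {η | HE μ s S r0 t b0 x τ η} = ⋃ u ∈ (iN r0 x 0 t).filter (fun u => u.1 + 1 ≤ (τ : ℤ)),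
      ({η | b0 ≤ ex μ s (stp S x) η u (τ - 1 - u.1).toNat ((τ : ℤ) / 2 + x - S)} ∪
        {η | b0 ≤ ex μ s (stp S x) η u (τ - 1 - u.1).toNat ((τ : ℤ) / 2 + x + S)}) := by
    ext η
    simp only [HE, Set.mem_setOf_eq, Set.mem_iUnion, Finset.mem_filter, Set.mem_union, exists_prop]
    constructor
    · rintro ⟨u, h1, h2, h3⟩
      exact ⟨u, ⟨h1, h2⟩, h3⟩
    · rintro ⟨u, ⟨h1, h2⟩, h3⟩
      exact ⟨u, h1, h2, h3⟩
  rw [e]
  exact Finset.measurableSet_biUnion _ fun u _ => (measurableSet_le measurable_const (Adm.ex u _ _).1).union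
    (measurableSet_le measurable_const (Adm.ex u _ _).1)

theorem HE_dep (b0 : ℝ) (τ : ℕ) (η η' : Env) (h : ∀ p ∈ rows 0 τ, η p = η' p) :
    HE μ s S r0 t b0 x τ η ↔ HE μ s S r0 t b0 x τ η' := by
  have h1 : ∀ u ∈ iN r0 x 0 t, u.1 + 1 ≤ (τ : ℤ) → ∀ z, ex μ s (stp S x) η u (τ - 1 - u.1).toNat z =
      ex μ s (stp S x) η' u (τ - 1 - u.1).toNat z := by
    intro u hu hu1 z
    have h2 := mem_iN.1 hu
    refine ex_dep (μ := μ) (s := s) (R := stp S x) u _ z fun p hp => h p (rows_mono ?_ ?_ hp)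
    · have := h2.1
      push_cast at this
      exact this
    · omega
  unfold HE
  constructor
  · rintro ⟨u, hu, hu1, hb⟩
    exact ⟨u, hu, hu1, by rw [← h1 u hu hu1, ← h1 u hu hu1]; exact hb⟩
  · rintro ⟨u, hu, hu1, hb⟩
    exact ⟨u, hu, hu1, by rw [h1 u hu hu1, h1 u hu hu1]; exact hb⟩

theorem exHE_meas (b0 : ℝ) : MeasurableSet {η | ∃ τ ≤ t, HE μ s S r0 t b0 x τ η} := by
  have e : {η | ∃ τ ≤ t, HE μ s S r0 t b0 x τ η} =
      ⋃ τ ∈ Finset.range (t + 1), {η | HE μ s S r0 t b0 x τ η} := by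
    ext η
    simp [Nat.lt_succ_iff]
  rw [e]
  exact Finset.measurableSet_biUnion _ fun τ _ => HE_meas b0 τ

/-- The exits before the row `τ` are cheap if no large exit weight occurs before it. -/
theorem exits_le (η : Env) (hr0 : 0 ≤ r0) {b0 : ℝ} (hb0 : 0 ≤ b0) {u : Pt} (hu : u ∈ iN r0 x 0 t) {m : ℕ}
    (hm : u.1 + m ≤ t) (hno : ∀ σ : ℕ, (σ : ℤ) ≤ u.1 + m → ¬ HE μ s S r0 t b0 x σ η) :
    ∑ n ∈ Finset.range m, (ex μ s (stp S x) η u n ((u.1 + (n + 1)) / 2 + x - S) *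
          ph μ s t Tg η (u.1 + n + 1, (u.1 + (n + 1)) / 2 + x - S) +
        ex μ s (stp S x) η u n ((u.1 + (n + 1)) / 2 + x + S) *
          ph μ s t Tg η (u.1 + n + 1, (u.1 + (n + 1)) / 2 + x + S)) ≤
      b0 * t * (gM μ s r0 t Tg (x - S) 0 η + gM μ s r0 t Tg (x + S) 0 η) := by
  have hu' := mem_iN.1 hu
  have hu0 : (0 : ℤ) ≤ u.1 := by
    have := hu'.1
    push_cast at this
    exact this
  have h1 : ∀ n ∈ Finset.range m, (ex μ s (stp S x) η u n ((u.1 + (n + 1)) / 2 + x - S) *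
          ph μ s t Tg η (u.1 + n + 1, (u.1 + (n + 1)) / 2 + x - S) +
        ex μ s (stp S x) η u n ((u.1 + (n + 1)) / 2 + x + S) *
          ph μ s t Tg η (u.1 + n + 1, (u.1 + (n + 1)) / 2 + x + S)) ≤
      b0 * (gM μ s r0 t Tg (x - S) 0 η + gM μ s r0 t Tg (x + S) 0 η) := by
    intro n hn
    have hn' := Finset.mem_range.1 hn
    have h2 := hno (u.1 + (n + 1)).toNat (by omega)
    have e1 : (((u.1 + (n + 1)).toNat : ℤ)) = u.1 + (n + 1) := by omega
    have h3 : ¬ (b0 ≤ ex μ s (stp S x) η u n ((u.1 + (n + 1)) / 2 + x - S) ∨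
        b0 ≤ ex μ s (stp S x) η u n ((u.1 + (n + 1)) / 2 + x + S)) := by
      intro hcon
      refine h2 ⟨u, hu, by omega, ?_⟩
      rw [e1, show (u.1 + ((n : ℤ) + 1) - 1 - u.1).toNat = n by omega]
      exact hcon
    push_neg at h3
    have h4 : ph μ s t Tg η (u.1 + n + 1, (u.1 + (n + 1)) / 2 + x - S) ≤ gM μ s r0 t Tg (x - S) 0 η := by
      refine ph_le_gM η (mem_iN.2 ⟨?_, ?_, ?_, ?_⟩)
      · show ((0 : ℕ) : ℤ) ≤ u.1 + n + 1
        push_cast
        omega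
      · show u.1 + n + 1 ≤ (t : ℤ)
        omega
      · show (u.1 + n + 1) / 2 + (x - S) - r0 ≤ (u.1 + (n + 1)) / 2 + x - S
        omega
      · show (u.1 + (n + 1)) / 2 + x - S ≤ (u.1 + n + 1) / 2 + (x - S) + r0
        omega
    have h5 : ph μ s t Tg η (u.1 + n + 1, (u.1 + (n + 1)) / 2 + x + S) ≤ gM μ s r0 t Tg (x + S) 0 η := by
      refine ph_le_gM η (mem_iN.2 ⟨?_, ?_, ?_, ?_⟩)
      · show ((0 : ℕ) : ℤ) ≤ u.1 + n + 1
        push_cast
        omega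
      · show u.1 + n + 1 ≤ (t : ℤ)
        omega
      · show (u.1 + n + 1) / 2 + (x + S) - r0 ≤ (u.1 + (n + 1)) / 2 + x + S
        omega
      · show (u.1 + (n + 1)) / 2 + x + S ≤ (u.1 + n + 1) / 2 + (x + S) + r0
        omega
    rw [mul_add]
    exact add_le_add (mul_le_mul h3.1.le h4 (ph_nonneg _ _) hb0) (mul_le_mul h3.2.le h5 (ph_nonneg _ _) hb0)
  refine (Finset.sum_le_sum h1).trans ?_
  rw [Finset.sum_const, Finset.card_range, nsmul_eq_mul]
  have h6 : (m : ℝ) ≤ t := by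
    have : (m : ℤ) ≤ t := by omega
    exact_mod_cast this
  have h7 : 0 ≤ b0 * (gM μ s r0 t Tg (x - S) 0 η + gM μ s r0 t Tg (x + S) 0 η) :=
    mul_nonneg hb0 (add_nonneg (gM_nonneg _ _) (gM_nonneg _ _))
  calc (m : ℝ) * (b0 * (gM μ s r0 t Tg (x - S) 0 η + gM μ s r0 t Tg (x + S) 0 η))
      ≤ t * (b0 * (gM μ s r0 t Tg (x - S) 0 η + gM μ s r0 t Tg (x + S) 0 η)) :=
        mul_le_mul_of_nonneg_right h6 h7
    _ = _ := by ring

theorem ph_last (η : Env) (z : ℤ) : ph μ s t Tg η ((t : ℤ), z) = if z ∈ Tg then 1 else 0 := by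
  classical
  unfold ph
  have h : ∀ y ∈ Tg, wt μ s η ((t : ℤ), z) ((t : ℤ), y) = if y = z then (1 : ℝ) else 0 := by
    intro y _
    split_ifs with h1
    · subst h1
      exact wt_self η _
    · refine wt_eq_zero η fun h2 => h1 ?_
      simp only at h2
      omega
  rw [Finset.sum_congr rfl h, Finset.sum_ite_eq' Tg z]

/-- THE POINTWISE DECOMPOSITION. `Ξ` = centres of the inner strips which cover the closed strip. -/
theorem gM_step (η : Env) (hr0 : 0 ≤ r0) (hrS : r0 < S) (Ξ : Finset ℤ)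
    (hΞ : ∀ d : ℤ, -S ≤ d → d ≤ S → ∃ ξ ∈ Ξ, ξ - r0 ≤ d ∧ d ≤ ξ + r0) {b0 : ℝ} (hb0 : 0 < b0) :
    gM μ s r0 t Tg x 0 η ≤ b0 * t * (gM μ s r0 t Tg (x - S) 0 η + gM μ s r0 t Tg (x + S) 0 η) +
        io (∃ y ∈ Tg, ((t : ℤ), y) ∈ stp S x) * mB μ s S x 0 t η ∨
    ∃ τ ≤ t, Fr (HE μ s S r0 t b0 x) τ η ∧ gM μ s r0 t Tg x 0 η ≤
      b0 * t * (gM μ s r0 t Tg (x - S) 0 η + gM μ s r0 t Tg (x + S) 0 η) +
        (oR μ s S x τ η * mB μ s S x 0 τ η) * ∑ ξ ∈ Ξ, gM μ s r0 t Tg (x + ξ) τ η := by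
  classical
  have hE0 : 0 ≤ b0 * t * (gM μ s r0 t Tg (x - S) 0 η + gM μ s r0 t Tg (x + S) 0 η) :=
    mul_nonneg (mul_nonneg hb0.le (Nat.cast_nonneg t)) (add_nonneg (gM_nonneg _ _) (gM_nonneg _ _))
  by_cases hE : ∃ τ ≤ t, HE μ s S r0 t b0 x τ η
  · right
    obtain ⟨τ, hτ, hF⟩ := exists_Fr hE
    refine ⟨τ, hτ, hF, ?_⟩
    have hO := one_le_oR (μ := μ) (s := s) (S := S) (x := x) η τ
    have hM := one_le_mB (μ := μ) (s := s) (S := S) (x := x) (T0 := 0) (T1 := τ) η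
    have hsum0 : 0 ≤ ∑ ξ ∈ Ξ, gM μ s r0 t Tg (x + ξ) τ η := Finset.sum_nonneg fun ξ _ => gM_nonneg _ _
    have hOM : 1 ≤ oR μ s S x τ η * mB μ s S x 0 τ η := one_le_mul_of_one_le_of_one_le hO hM
    refine mx_le.2 ⟨add_nonneg hE0 (mul_nonneg (by linarith) hsum0), fun u hu => ?_⟩
    have hu' := mem_iN.1 hu
    have hu0 : (0 : ℤ) ≤ u.1 := by
      have := hu'.1
      push_cast at this
      exact this
    have hus : u ∈ stp S x := mem_stp.2 ⟨by omega, by omega⟩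
    rcases lt_or_ge u.1 (τ : ℤ) with h1 | h1
    · -- the path starts before the row τ
      obtain ⟨m, hm⟩ : ∃ m : ℕ, (τ : ℤ) = u.1 + m + 1 := ⟨(τ - u.1 - 1).toNat, by omega⟩
      have hτ0 : τ ≠ 0 := by omega
      have h2 := exit_sum (μ := μ) (s := s) (t := (t : ℤ)) (Tg := Tg) η hus m (by omega)
      have h3 := exits_le (μ := μ) (s := s) (Tg := Tg) (S := S) η hr0 hb0.le hu (m := m) (by omega)
        (fun σ hσ => hF.2 σ (by omega))
      have h4 := An_step (μ := μ) (s := s) (R := stp S x) (Ψ := ph μ s t Tg η) η u m (fun z => by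
        exact ph_step η (p := (u.1 + m, z)) (show u.1 + (m : ℤ) < t by omega))
      have h5 : An μ s (stp S x) (ph μ s t Tg η) η u m ≤
          (oR μ s S x τ η * mB μ s S x 0 τ η) * ∑ ξ ∈ Ξ, gM μ s r0 t Tg (x + ξ) τ η := by
        rw [h4]
        have h6 : ∀ z ∈ Finset.Icc u.2 (u.2 + (m + 1)), ex μ s (stp S x) η u m z *
            ph μ s t Tg η (u.1 + m + 1, z) ≤ ex μ s (stp S x) η u m z *
            ∑ ξ ∈ Ξ, gM μ s r0 t Tg (x + ξ) τ η := by
          intro z _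
          by_cases hz : ex μ s (stp S x) η u m z = 0
          · rw [hz, zero_mul, zero_mul]
          · refine mul_le_mul_of_nonneg_left ?_ (ex_nonneg _ _ _ _)
            have h7 := ex_closed η hus hz
            obtain ⟨ξ, hξ, h8, h9⟩ := hΞ (z - ((τ : ℤ) / 2 + x)) (by omega) (by omega)
            refine le_trans ?_ (Finset.single_le_sum (f := fun ξ => gM μ s r0 t Tg (x + ξ) τ η)
              (fun ξ _ => gM_nonneg _ _) hξ)
            refine ph_le_gM η (mem_iN.2 ⟨?_, ?_, ?_, ?_⟩)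
            · show (τ : ℤ) ≤ u.1 + m + 1
              omega
            · show u.1 + m + 1 ≤ (t : ℤ)
              omega
            · show (u.1 + m + 1) / 2 + (x + ξ) - r0 ≤ z
              rw [← hm]
              omega
            · show z ≤ (u.1 + m + 1) / 2 + (x + ξ) + r0
              rw [← hm]
              omega
        refine (Finset.sum_le_sum h6).trans ?_
        rw [← Finset.sum_mul]
        refine mul_le_mul_of_nonneg_right ?_ hsum0
        refine (ex_sum_oR (μ := μ) (s := s) η hus m hm hτ0).trans ?_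
        refine mul_le_mul_of_nonneg_left (sb_le_mB η (mem_bx.2 ⟨?_, ?_, hus⟩) ?_) (by linarith)
        · push_cast
          omega
        · omega
        · omega
      linarith
    · -- the path starts behind the row τ
      obtain ⟨ξ, hξ, h8, h9⟩ := hΞ (u.2 - (u.1 / 2 + x)) (by omega) (by omega)
      have h2 : ph μ s t Tg η u ≤ gM μ s r0 t Tg (x + ξ) τ η :=
        ph_le_gM η (mem_iN.2 ⟨h1, hu'.2.1, by omega, by omega⟩)
      have h3 := Finset.single_le_sum (f := fun ξ => gM μ s r0 t Tg (x + ξ) τ η)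
        (fun ξ _ => gM_nonneg _ _) hξ
      have h4 : ∑ ξ ∈ Ξ, gM μ s r0 t Tg (x + ξ) τ η ≤
          (oR μ s S x τ η * mB μ s S x 0 τ η) * ∑ ξ ∈ Ξ, gM μ s r0 t Tg (x + ξ) τ η :=
        le_mul_of_one_le_left hsum0 hOM
      linarith
  · left
    have hM := one_le_mB (μ := μ) (s := s) (S := S) (x := x) (T0 := 0) (T1 := t) η
    refine mx_le.2 ⟨add_nonneg hE0 (mul_nonneg (io_nonneg _) (by linarith)), fun u hu => ?_⟩
    have hu' := mem_iN.1 hu
    have hu0 : (0 : ℤ) ≤ u.1 := by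
      have := hu'.1
      push_cast at this
      exact this
    have hus : u ∈ stp S x := mem_stp.2 ⟨by omega, by omega⟩
    obtain ⟨m, hm⟩ : ∃ m : ℕ, (t : ℤ) = u.1 + m := ⟨(t - u.1).toNat, by omega⟩
    have h2 := exit_sum (μ := μ) (s := s) (t := (t : ℤ)) (Tg := Tg) η hus m (by omega)
    have h3 := exits_le (μ := μ) (s := s) (Tg := Tg) (S := S) η hr0 hb0.le hu (m := m) (by omega)
      (fun σ hσ hcon => hE ⟨σ, by omega, hcon⟩)
    have h5 : An μ s (stp S x) (ph μ s t Tg η) η u m ≤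
        io (∃ y ∈ Tg, ((t : ℤ), y) ∈ stp S x) * mB μ s S x 0 t η := by
      unfold An
      rw [← hm]
      simp only [ph_last]
      by_cases hmt : ∃ y ∈ Tg, ((t : ℤ), y) ∈ stp S x
      · rw [io_of hmt, one_mul]
        refine le_trans (Finset.sum_le_sum fun z _ => ?_) (sb_le_mB (T0 := 0) η
          (mem_bx.2 ⟨by push_cast; omega, by omega, hus⟩) (l := m) (by omega))
        split_ifs
        · rw [mul_one]
        · rw [mul_zero]
          exact fw_nonneg _ _ _ _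
      · rw [io_not hmt, zero_mul]
        refine (Finset.sum_eq_zero fun z _ => ?_).le
        split_ifs with hz
        · rw [mul_one]
          by_contra hne
          have h7 := fw_mem η u hus m z hne
          rw [← hm] at h7
          exact hmt ⟨z, hz, h7⟩
        · rw [mul_zero]
    linarith

end Pool.Agent.W_7d29a1_g.K67
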