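import Pool.Agent.W_7d29a1_g.EL67G

/-!
TRACK G, (EL): translation invariance and the final form. helper67.
-/

namespace Pool.Agent.W_7d29a1_g.K67

open Pool.Agent.W_7d29a1_F MeasureTheory ProbabilityTheory

variable {μ : Measure ℝ} {s : ℝ}

theorem fw_sh (η : Env) (S x : ℤ) (u : Pt) (n : ℕ) (z : ℤ) :
    fw μ s (stp S x) η u n z = fw μ s (stp S 0) (sh (0, x) η) (u.1, u.2 - x) n (z - x) := by
  unfold fw
  have h := WR_sh (μ := μ) (s := s) (stp S x) η (u.1, u.2 - x) (0, x) n (z - u.2)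
  have e1 : {p : Pt | p + ((0, x) : Pt) ∈ stp S x} = stp S 0 := by
    ext p
    simp only [Set.mem_setOf_eq, mem_stp, Prod.fst_add, Prod.snd_add, add_zero]
    constructor
    · rintro ⟨h1, h2⟩
      omega
    · rintro ⟨h1, h2⟩
      omega
  have e2 : ((u.1, u.2 - x) : Pt) + ((0, x) : Pt) = u := by
    ext
    · simp
    · simp
  rw [e1, e2] at h
  rw [← h]
  show _ = WR μ s (stp S 0) (sh (0, x) η) (u.1, u.2 - x) n (z - x - (u.2 - x))
  rw [show z - x - (u.2 - x) = z - u.2 by ring]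

theorem sb_sh (η : Env) (S x : ℤ) (u : Pt) (n : ℕ) :
    sb μ s (stp S x) η u n = sb μ s (stp S 0) (sh (0, x) η) (u.1, u.2 - x) n := by
  unfold sb
  simp only [fw_sh η S x u n]
  have e : (Finset.Icc (u.2 - x) (u.2 - x + n)).map (addRightEmbedding x) = Finset.Icc u.2 (u.2 + n) := by
    rw [Finset.map_add_right_Icc]
    congr 1
    · ring
    · ring
  rw [← e, Finset.sum_map]
  refine Finset.sum_congr rfl fun z _ => ?_
  simp only [addRightEmbedding_apply, add_sub_cancel_right]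

theorem mB_sh (η : Env) (S x : ℤ) (T0 T1 : ℕ) :
    mB μ s S x T0 T1 η = mB μ s S 0 T0 T1 (sh (0, x) η) := by
  refine le_antisymm (mx_le.2 ⟨one_le_mB _, fun q hq => ?_⟩) (mx_le.2 ⟨one_le_mB _, fun q hq => ?_⟩)
  · rw [Finset.mem_product, Finset.mem_range] at hq
    have h1 := mem_bx.1 hq.1
    have h2 := mem_stp.1 h1.2.2
    split_ifs with h3
    · rw [sb_sh]
      refine sb_le_mB _ (mem_bx.2 ⟨h1.1, h1.2.1, mem_stp.2 ⟨?_, ?_⟩⟩) h3
      · show q.1.1 / 2 + 0 - S < q.1.2 - x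
        omega
      · show q.1.2 - x < q.1.1 / 2 + 0 + S
        omega
    · exact zero_le_one.trans (one_le_mB _)
  · rw [Finset.mem_product, Finset.mem_range] at hq
    have h1 := mem_bx.1 hq.1
    have h2 := mem_stp.1 h1.2.2
    split_ifs with h3
    · have h4 := sb_sh (μ := μ) (s := s) η S x (q.1.1, q.1.2 + x) q.2
      have e : ((q.1.1, q.1.2 + x - x) : Pt) = q.1 := by
        ext
        · rfl
        · simp
      simp only [e] at h4
      rw [← h4]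
      refine sb_le_mB _ (mem_bx.2 ⟨h1.1, h1.2.1, mem_stp.2 ⟨?_, ?_⟩⟩) h3
      · show q.1.1 / 2 + x - S < q.1.2 + x
        omega
      · show q.1.2 + x < q.1.1 / 2 + x + S
        omega
    · exact zero_le_one.trans (one_le_mB _)

theorem oR_sh (η : Env) (S x : ℤ) (τ : ℕ) : oR μ s S x τ η = oR μ s S 0 τ (sh (0, x) η) := by
  unfold oR
  split_ifs with h
  · rfl
  · refine le_antisymm (mx_le.2 ⟨floor_le_mx, fun z hz => ?_⟩) (mx_le.2 ⟨floor_le_mx, fun z hz => ?_⟩)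
    · rw [Finset.mem_Icc] at hz
      have h1 := le_mx (b := 1) (S := Finset.Icc ((τ : ℤ) / 2 + 0 - S) ((τ : ℤ) / 2 + 0 + S))
        (f := fun z => (k0 μ s + k1 μ s) * Real.exp (sh (0, x) η ((τ : ℤ), z))) (x := z - x)
        (Finset.mem_Icc.2 ⟨by omega, by omega⟩)
      have e : sh (0, x) η ((τ : ℤ), z - x) = η ((τ : ℤ), z) := by
        unfold sh
        congr 1
        ext
        · simp
        · simp
      simp only [e] at h1
      exact h1
    · rw [Finset.mem_Icc] at hz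
      have h1 := le_mx (b := 1) (S := Finset.Icc ((τ : ℤ) / 2 + x - S) ((τ : ℤ) / 2 + x + S))
        (f := fun z => (k0 μ s + k1 μ s) * Real.exp (η ((τ : ℤ), z))) (x := z + x)
        (Finset.mem_Icc.2 ⟨by omega, by omega⟩)
      have e : sh (0, x) η ((τ : ℤ), z) = η ((τ : ℤ), z + x) := by
        show η ((τ : ℤ) + 0, z + x) = _
        rw [add_zero]
      rw [e]
      exact h1

theorem oM_sh (η : Env) (S x : ℤ) (t : ℕ) : oM μ s S x t η = oM μ s S 0 t (sh (0, x) η) :=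
  mx_congr fun τ _ => oR_sh η S x τ

theorem wt_sh (η : Env) (a b c : Pt) : wt μ s (sh c η) a b = wt μ s η (a + c) (b + c) := by
  unfold wt
  have e1 : (a + c).1 ≤ (b + c).1 ↔ a.1 ≤ b.1 := by
    rw [Prod.fst_add, Prod.fst_add]
    omega
  by_cases h : a.1 ≤ b.1
  · rw [if_pos h, if_pos (e1.2 h), W_sh]
    congr 1
    · rw [Prod.fst_add, Prod.fst_add]
      congr 1
      ring
    · rw [Prod.snd_add, Prod.snd_add]
      ring
  · rw [if_neg h, if_neg (fun h2 => h (e1.1 h2))]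

theorem CrR_sh (η : Env) (r0 S x : ℤ) (t : ℕ) (c : ℝ) :
    CrR μ s r0 S t c x η ↔ CrR μ s r0 S t c 0 (sh (0, x) η) := by
  have e : ∀ k1 k2 : ℕ, wt μ s η ((k1 : ℤ), (k1 : ℤ) / 2 + (x + r0)) ((k2 : ℤ), (k2 : ℤ) / 2 + (x + S)) =
      wt μ s (sh (0, x) η) ((k1 : ℤ), (k1 : ℤ) / 2 + (0 + r0)) ((k2 : ℤ), (k2 : ℤ) / 2 + (0 + S)) := by
    intro k1 k2
    rw [wt_sh]
    congr 1
    · ext
      · simp
      · simp
        ring
    · ext
      · simp
      · simp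
        ring
  unfold CrR
  simp only [e]

theorem CrL_sh (η : Env) (r0 S x : ℤ) (t : ℕ) (c : ℝ) :
    CrL μ s r0 S t c x η ↔ CrL μ s r0 S t c 0 (sh (0, x) η) := by
  have e : ∀ k1 k2 : ℕ, wt μ s η ((k1 : ℤ), (k1 : ℤ) / 2 + (x - r0)) ((k2 : ℤ), (k2 : ℤ) / 2 + (x - S)) =
      wt μ s (sh (0, x) η) ((k1 : ℤ), (k1 : ℤ) / 2 + (0 - r0)) ((k2 : ℤ), (k2 : ℤ) / 2 + (0 - S)) := by
    intro k1 k2
    rw [wt_sh]
    congr 1
    · ext
      · simp
      · simp
        ring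
    · ext
      · simp
      · simp
        ring
  unfold CrL
  simp only [e]

theorem CrR_meas (r0 S x : ℤ) (t : ℕ) (c : ℝ) : MeasurableSet {η | CrR μ s r0 S t c x η} := by
  have e : {η | CrR μ s r0 S t c x η} = ⋃ k1 ∈ Finset.range (t + 1), ⋃ k2 ∈ Finset.range (t + 1),
      {η | k1 ≤ k2 ∧ c ≤ wt μ s η ((k1 : ℤ), (k1 : ℤ) / 2 + (x + r0))
        ((k2 : ℤ), (k2 : ℤ) / 2 + (x + S))} := by
    ext η
    simp only [CrR, Set.mem_setOf_eq, Set.mem_iUnion, exists_prop]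
  rw [e]
  refine Finset.measurableSet_biUnion _ fun k1 _ => Finset.measurableSet_biUnion _ fun k2 _ => ?_
  by_cases h : k1 ≤ k2
  · simp only [h, true_and]
    exact measurableSet_le measurable_const (Adm.wt _ _).1
  · simp [h]

theorem CrL_meas (r0 S x : ℤ) (t : ℕ) (c : ℝ) : MeasurableSet {η | CrL μ s r0 S t c x η} := by
  have e : {η | CrL μ s r0 S t c x η} = ⋃ k1 ∈ Finset.range (t + 1), ⋃ k2 ∈ Finset.range (t + 1),
      {η | k1 ≤ k2 ∧ c ≤ wt μ s η ((k1 : ℤ), (k1 : ℤ) / 2 + (x - r0))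
        ((k2 : ℤ), (k2 : ℤ) / 2 + (x - S))} := by
    ext η
    simp only [CrL, Set.mem_setOf_eq, Set.mem_iUnion, exists_prop]
  rw [e]
  refine Finset.measurableSet_biUnion _ fun k1 _ => Finset.measurableSet_biUnion _ fun k2 _ => ?_
  by_cases h : k1 ≤ k2
  · simp only [h, true_and]
    exact measurableSet_le measurable_const (Adm.wt _ _).1
  · simp [h]

variable [IsProbabilityMeasure μ]

theorem int_sh (a : Pt) {f : Env → ℝ} (hf : Measurable f) :
    ∫ η, f (sh a η) ∂(law μ) = ∫ η, f η ∂(law μ) := by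
  have h := (mp_sh (μ := μ) a).map_eq
  have h2 := integral_map (μ := law μ) (mp_sh (μ := μ) a).measurable.aemeasurable
    (f := f) hf.aestronglyMeasurable
  rw [h] at h2
  exact h2.symm

theorem pr_sh (a : Pt) {p : Env → Prop} (hp : MeasurableSet {η | p η}) :
    (law μ).real {η | p (sh a η)} = (law μ).real {η | p η} :=
  real_sh (μ := μ) a hp

/-- **(EL).** Weights from the inner strip to a far target: the lateral coordinate is `p.2 - ⌊p.1 / 2⌋`. -/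
theorem el (hμ : Pool.Agent.W_7d29a1_h47.EM μ) {r0 S : ℤ} {t : ℕ} (hr0 : 0 ≤ r0) (hrS : r0 < S)
    (Ξ : Finset ℤ)
    (hΞ : ∀ d : ℤ, -S ≤ d → d ≤ S → ∃ ξ ∈ Ξ, ξ - r0 ≤ d ∧ d ≤ ξ + r0) (hΞS : ∀ ξ ∈ Ξ, -S ≤ ξ ∧ ξ ≤ S)
    {b c q p X1 X2 κ : ℝ} (hb : 0 < b) (hc : 0 < c) (hq : 0 < q) (hq1 : q ≤ 1)
    (hhit : (law μ).real {η | b ≤ mB μ s S 0 0 t η} ≤ p)
    (hcrR : (law μ).real {η | CrR μ s r0 S t c 0 η} ≤ p)
    (hcrL : (law μ).real {η | CrL μ s r0 S t c 0 η} ≤ p)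
    (hX1 : ∫ η, mB μ s S 0 0 t η ^ q ∂(law μ) ≤ X1)
    (hX2 : ∫ η, (oM μ s S 0 t η * mB μ s S 0 0 t η) ^ (2 * q) ∂(law μ) ≤ X2)
    (hκ : 2 * (t * (b * c) * t) ^ q + Ξ.card * ((3 * p) ^ (1 / 2 : ℝ) * X2 ^ (1 / 2 : ℝ)) ≤ κ)
    (hκ2 : κ ≤ 1 / 2) (ht : 1 ≤ t) (Tg : Finset ℤ) (D : ℕ) (hD : ∀ y ∈ Tg, D * S ≤ |y - t / 2|) :
    ∫ η, (mx 0 (iN r0 0 0 t) fun u => ph μ s t Tg η u) ^ q ∂(law μ) ≤ 2 * X1 * κ ^ D := by
  have ht' : (0 : ℝ) < t := by exact_mod_cast ht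
  have hbm : ∀ x, MeasurableSet {η | b ≤ mB μ s S x 0 t η} := fun x =>
    measurableSet_le measurable_const Adm.mB.1
  have h1 : ∀ x, (law μ).real {η | ∃ τ ≤ t, HE μ s S r0 t (t * (b * c)) x τ η} ≤ 3 * p := by
    intro x
    have h2 : {η | ∃ τ ≤ t, HE μ s S r0 t (t * (b * c)) x τ η} ⊆
        {η | b ≤ mB μ s S x 0 t η} ∪ ({η | CrR μ s r0 S t c x η} ∪ {η | CrL μ s r0 S t c x η}) := by
      intro η hη
      rcases exHE_sub η hrS hb hc hη with h | h | h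
      · exact Or.inl h
      · exact Or.inr (Or.inl h)
      · exact Or.inr (Or.inr h)
    have e1 : (law μ).real {η | b ≤ mB μ s S x 0 t η} ≤ p := by
      have e : {η | b ≤ mB μ s S x 0 t η} = {η | b ≤ mB μ s S 0 0 t (sh (0, x) η)} := by
        ext η
        simp only [Set.mem_setOf_eq, mB_sh η S x 0 t]
      rw [e, pr_sh (0, x) (p := fun η => b ≤ mB μ s S 0 0 t η) (hbm 0)]
      exact hhit
    have e2 : (law μ).real {η | CrR μ s r0 S t c x η} ≤ p := by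
      have e : {η | CrR μ s r0 S t c x η} = {η | CrR μ s r0 S t c 0 (sh (0, x) η)} := by
        ext η
        exact CrR_sh η r0 S x t c
      rw [e, pr_sh (0, x) (p := fun η => CrR μ s r0 S t c 0 η) (CrR_meas r0 S 0 t c)]
      exact hcrR
    have e3 : (law μ).real {η | CrL μ s r0 S t c x η} ≤ p := by
      have e : {η | CrL μ s r0 S t c x η} = {η | CrL μ s r0 S t c 0 (sh (0, x) η)} := by
        ext η
        exact CrL_sh η r0 S x t c
      rw [e, pr_sh (0, x) (p := fun η => CrL μ s r0 S t c 0 η) (CrL_meas r0 S 0 t c)]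
      exact hcrL
    have h3 := (measureReal_mono (μ := law μ) h2).trans (measureReal_union_le _ _)
    have h4 := measureReal_union_le (μ := law μ) {η | CrR μ s r0 S t c x η} {η | CrL μ s r0 S t c x η}
    linarith
  have hX1' : ∀ x, ∫ η, mB μ s S x 0 t η ^ q ∂(law μ) ≤ X1 := by
    intro x
    simp only [mB_sh _ S x 0 t]
    rw [int_sh (0, x) (f := fun η => mB μ s S 0 0 t η ^ q) (Adm.mB.rpow hq.le).1]
    exact hX1
  have hX2' : ∀ x, ∫ η, (oM μ s S x t η * mB μ s S x 0 t η) ^ (2 * q) ∂(law μ) ≤ X2 := by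
    intro x
    simp only [mB_sh _ S x 0 t, oM_sh _ S x t]
    rw [int_sh (0, x) (f := fun η => (oM μ s S 0 t η * mB μ s S 0 0 t η) ^ (2 * q))
      (((Adm.oM t).mul Adm.mB).rpow (by linarith)).1]
    exact hX2
  have h := gam_main (μ := μ) (s := s) (Tg := Tg) hμ hr0 hrS Ξ hΞ hΞS (b0 := t * (b * c)) (p := 3 * p)
    (by positivity) hq hq1 h1 hX1' hX2' hκ hκ2 D 0 (fun y hy => by
      rw [sub_zero]
      exact hD y hy)
  exact h

end Pool.Agent.W_7d29a1_g.K67
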