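import Pool.Agent.W_7d29a1_g.EL67I
import Pool.Agent.W_7d29a1_L78.LineB
import Pool.Agent.W_7d29a1_h30g.Fr2
import Pool.Agent.W_7d29a1_G.FR0

/-!
TRACK G, (EL): the box luck with narrow cells and the crossing at one scale (tilt `0`). helper67.
-/

namespace Pool.Agent.W_7d29a1_g.K67

open Pool.Agent.W_7d29a1_F MeasureTheory ProbabilityTheory
open Pool.Agent.W_7d29a1_G (ep ep_add md)

variable {μ : Measure ℝ} {s : ℝ}

theorem sb_le_exp_V (R : Set Pt) (η : Env) (a : Pt) (n : ℕ) : sb μ s R η a n ≤ Real.exp (V μ s η a n) := by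
  have h1 : sb μ s R η a n ≤ WS μ s η a n (Finset.Icc (0 : ℤ) n) := by
    unfold sb fw WS
    have e : Finset.Icc a.2 (a.2 + (n : ℤ)) = (Finset.Icc (0 : ℤ) n).map (addLeftEmbedding a.2) := by
      rw [Finset.map_add_left_Icc, add_zero]
    rw [e, Finset.sum_map]
    refine Finset.sum_le_sum fun y _ => ?_
    have e2 : (addLeftEmbedding a.2) y - a.2 = y := by
      show a.2 + y - a.2 = y
      ring
    rw [e2]
    exact WR_le_W R η a n y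
  refine h1.trans ?_
  rw [exp_V]

variable [IsProbabilityMeasure μ]

theorem meas_exV (S : Finset (ℕ × ℤ)) (l : ℕ × ℤ → ℕ) (Y : ℝ) :
    MeasurableSet {η : Env | ∃ q ∈ S, Y ≤ V μ s η ((q.1 : ℤ), q.2) (l q)} := by
  have e : {η : Env | ∃ q ∈ S, Y ≤ V μ s η ((q.1 : ℤ), q.2) (l q)} =
      ⋃ q ∈ S, {η : Env | Y ≤ V μ s η ((q.1 : ℤ), q.2) (l q)} := by
    ext η
    simp
  rw [e]
  exact Finset.measurableSet_biUnion _ fun q _ => measurableSet_le measurable_const (measurable_V _ _)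

theorem meas_exjV (S : Finset (ℕ × ℤ)) (n : ℕ) (Y : ℝ) :
    MeasurableSet {η : Env | ∃ q ∈ S, ∃ j, q.1 + j ≤ n ∧ Y ≤ V μ s η ((q.1 : ℤ), q.2) j} := by
  have e : {η : Env | ∃ q ∈ S, ∃ j, q.1 + j ≤ n ∧ Y ≤ V μ s η ((q.1 : ℤ), q.2) j} =
      ⋃ q ∈ S, ⋃ j ∈ Finset.range (n + 1), {η : Env | q.1 + j ≤ n ∧ Y ≤ V μ s η ((q.1 : ℤ), q.2) j} := by
    ext η
    simp only [Set.mem_setOf_eq, Set.mem_iUnion, Finset.mem_range, exists_prop]
    constructor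
    · rintro ⟨q, hq, j, hj, h⟩
      exact ⟨q, hq, j, by omega, hj, h⟩
    · rintro ⟨q, hq, j, _, hj, h⟩
      exact ⟨q, hq, j, hj, h⟩
  rw [e]
  refine Finset.measurableSet_biUnion _ fun q _ => Finset.measurableSet_biUnion _ fun j _ => ?_
  by_cases hj : q.1 + j ≤ n
  · simp only [hj, true_and]
    exact measurableSet_le measurable_const (measurable_V _ _)
  · simp only [hj, false_and]
    exact MeasurableSet.empty

/-- The sites of the strip as pairs. -/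
noncomputable def prs (w t : ℕ) : Finset (ℕ × ℤ) := (bx (2 * w : ℤ) 0 0 t).image fun p => (p.1.toNat, p.2)

theorem mem_prs {w t : ℕ} {q : ℕ × ℤ} (h : q ∈ prs w t) :
    q.1 ≤ t ∧ -(2 * w : ℤ) < q.2 - (q.1 : ℤ) / 2 ∧ q.2 - (q.1 : ℤ) / 2 < 2 * w := by
  unfold prs at h
  rw [Finset.mem_image] at h
  obtain ⟨p, hp, rfl⟩ := h
  obtain ⟨h1, h2, h3⟩ := mem_bx.1 hp
  rw [mem_stp] at h3
  have h0 : (0 : ℤ) ≤ p.1 := by
    push_cast at h1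
    exact h1
  have e : ((p.1.toNat : ℕ) : ℤ) = p.1 := Int.toNat_of_nonneg h0
  refine ⟨by omega, ?_, ?_⟩
  · show -(2 * w : ℤ) < p.2 - ((p.1.toNat : ℕ) : ℤ) / 2
    rw [e]
    omega
  · show p.2 - ((p.1.toNat : ℕ) : ℤ) / 2 < 2 * w
    rw [e]
    omega

/-- **The box luck with narrow cells.** -/
theorem hit_le (hμ : Pool.Agent.W_7d29a1_h47.EM μ) {n t w h I : ℕ} {E B p : ℝ} (hE : 0 < E) (hB : 0 ≤ B)
    (ht : t ≤ n) (hX : ∀ m ≤ 2 * n, ep μ m (md m) ≤ E)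
    (hC : ∀ δ : ℤ, |δ| ≤ h → ep μ (4 * n) (2 * n + δ) ≤ B) (hh : h ≤ 2 * n) (hI : 2 * w ≤ I * (2 * h + 1))
    (hp : (law μ).real {η | E ≤ V μ 0 η 0 (6 * n)} ≤ p) :
    (law μ).real {η | Real.exp (5 * E + 2 * B) ≤ mB μ 0 (2 * w : ℤ) 0 0 t η} ≤ 4 * (2 * I + 1) * p := by
  classical
  obtain ⟨S, hS⟩ : ∃ S, S = prs w t := ⟨_, rfl⟩
  have hSm : ∀ q ∈ S, q.1 ≤ t ∧ -(2 * w : ℤ) < q.2 - (q.1 : ℤ) / 2 ∧ q.2 - (q.1 : ℤ) / 2 < 2 * w := fun q hq =>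
    mem_prs (by rwa [hS] at hq)
  -- a large weight needs a large luck
  have h1 : {η : Env | Real.exp (5 * E + 2 * B) ≤ mB μ 0 (2 * w : ℤ) 0 0 t η} ⊆
      {η : Env | ∃ q ∈ S, ∃ j, q.1 + j ≤ n ∧ 5 * E + 2 * B ≤ V μ 0 η ((q.1 : ℤ), q.2) j} := by
    intro η hη
    have hη' : Real.exp (5 * E + 2 * B) ≤ mB μ 0 (2 * w : ℤ) 0 0 t η := hη
    unfold mB at hη'
    obtain ⟨x, hx, h2⟩ := exists_of_le_mx hη' (Real.one_lt_exp_iff.2 (by linarith))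
    rw [Finset.mem_product, Finset.mem_range] at hx
    obtain ⟨h3, h4, h5⟩ := mem_bx.1 hx.1
    have h0 : (0 : ℤ) ≤ x.1.1 := by
      push_cast at h3
      exact h3
    split_ifs at h2 with h6
    · refine ⟨(x.1.1.toNat, x.1.2), ?_, x.2, ?_, ?_⟩
      · rw [hS]
        exact Finset.mem_image.2 ⟨x.1, hx.1, rfl⟩
      · show x.1.1.toNat + x.2 ≤ n
        omega
      · have h7 := h2.trans (sb_le_exp_V _ η x.1 x.2)
        rw [Real.exp_le_exp] at h7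
        have e : ((((x.1.1.toNat, x.1.2) : ℕ × ℤ).1 : ℤ), ((x.1.1.toNat, x.1.2) : ℕ × ℤ).2) = x.1 := by
          refine Prod.ext ?_ rfl
          exact Int.toNat_of_nonneg h0
        rw [e]
        exact h7
    · exact absurd h2 (not_le.2 (Real.exp_pos _))
  -- completion
  have h2 := Pool.Agent.W_7d29a1_L78.first_completion (μ := μ) (s := 0) hμ n S (y := fun m => md m)
    (fun m _ _ => ⟨Pool.Agent.W_7d29a1_G.md_nonneg m, Pool.Agent.W_7d29a1_G.md_le m⟩) hE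
    (fun m _ hm => hX m hm) (5 * E + 2 * B)
  rw [integral_io (meas_exjV S n _), integral_io (meas_exV S (fun q => 2 * n - q.1) _)] at h2
  -- cells
  obtain ⟨x, hx⟩ : ∃ x : ℤ → ℤ, x = fun i => i * (2 * (h : ℤ) + 1) := ⟨_, rfl⟩
  obtain ⟨Sc, hSc⟩ : ∃ Sc : ℤ → Finset (ℕ × ℤ), Sc = fun i => S.filter fun q => |q.2 - (q.1 : ℤ) / 2 - x i| ≤ h :=
    ⟨_, rfl⟩
  obtain ⟨Q, hQ⟩ : ∃ Q : ℤ → Set Env, Q = fun i =>
    {η : Env | ∃ q ∈ Sc i, 5 * E + 2 * B - 2 * E ≤ V μ 0 η ((q.1 : ℤ), q.2) (2 * n - q.1)} := ⟨_, rfl⟩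
  have h3 : {η : Env | ∃ q ∈ S, 5 * E + 2 * B - 2 * E ≤ V μ 0 η ((q.1 : ℤ), q.2) (2 * n - q.1)} ⊆
      ⋃ i ∈ Finset.Icc (-(I : ℤ)) I, Q i := by
    rintro η ⟨q, hq, hV⟩
    obtain ⟨h4, h5, h6⟩ := hSm q hq
    have hI' : (2 * w : ℤ) ≤ I * (2 * h + 1) := by exact_mod_cast hI
    obtain ⟨i, hi⟩ : ∃ i, i = (q.2 - (q.1 : ℤ) / 2 + h) / (2 * h + 1) := ⟨_, rfl⟩
    have hpos : (0 : ℤ) < 2 * h + 1 := by positivity
    have h7 := Int.emod_nonneg (q.2 - (q.1 : ℤ) / 2 + h) hpos.ne'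
    have h8 := Int.emod_lt_of_pos (q.2 - (q.1 : ℤ) / 2 + h) hpos
    have h9 := Int.emod_add_mul_ediv (q.2 - (q.1 : ℤ) / 2 + h) (2 * h + 1)
    rw [← hi] at h9
    have h10 : (2 * (h : ℤ) + 1) * i = x i := by rw [hx]; ring
    rw [h10] at h9
    simp only [Set.mem_iUnion]
    refine ⟨i, Finset.mem_Icc.2 ⟨?_, ?_⟩, ?_⟩
    · by_contra hcon
      have h11 : i + 1 ≤ -(I : ℤ) := by omega
      have h12 : (i + 1) * (2 * (h : ℤ) + 1) ≤ -(I : ℤ) * (2 * h + 1) := mul_le_mul_of_nonneg_right h11 hpos.le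
      have h13 : x i = i * (2 * h + 1) := by rw [hx]
      nlinarith
    · by_contra hcon
      have h11 : (I : ℤ) + 1 ≤ i := by omega
      have h12 : ((I : ℤ) + 1) * (2 * (h : ℤ) + 1) ≤ i * (2 * h + 1) := mul_le_mul_of_nonneg_right h11 hpos.le
      have h13 : x i = i * (2 * h + 1) := by rw [hx]
      nlinarith
    · rw [hQ]
      refine ⟨q, ?_, hV⟩
      rw [hSc]
      refine Finset.mem_filter.2 ⟨hq, ?_⟩
      show |q.2 - (q.1 : ℤ) / 2 - x i| ≤ h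
      rw [abs_le]
      omega
  have h4 : ∀ i ∈ Finset.Icc (-(I : ℤ)) I, (law μ).real (Q i) ≤ 2 * p := by
    intro i _
    have hq : ∀ q ∈ Sc i, q ∈ S ∧ |q.2 - (q.1 : ℤ) / 2 - x i| ≤ h := fun q hq => by
      rw [hSc] at hq
      exact Finset.mem_filter.1 hq
    have h5 := Pool.Agent.W_7d29a1_L78.latest_start_pt (μ := μ) (s := 0) hμ n (4 * n) (Sc i) (x i - 2 * n)
      (A := B + E) (by linarith) (fun q hqi => by
        obtain ⟨h6, h7⟩ := hq q hqi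
        have h8 := (hSm q h6).1
        rw [abs_le] at h7
        push_cast
        refine ⟨by omega, by omega, by omega⟩) (fun q hqi => by
        obtain ⟨h6, h7⟩ := hq q hqi
        have h8 := (hSm q h6).1
        have h9 := hC (q.2 - (q.1 : ℤ) / 2 - x i) h7
        have h10 := hX q.1 (by omega)
        rw [abs_le] at h7
        have h11 := ep_add (μ := μ) hμ (m := 4 * n) (n := q.1) (k := 2 * n + (q.2 - (q.1 : ℤ) / 2 - x i))
          (y := md q.1) (by omega) (by push_cast; omega) (Pool.Agent.W_7d29a1_G.md_nonneg _)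
          (Pool.Agent.W_7d29a1_G.md_le _)
        have e : 2 * (n : ℤ) + (q.2 - (q.1 : ℤ) / 2 - x i) + md q.1 = q.2 - (x i - 2 * n) := by
          unfold md
          ring
        rw [e] at h11
        have h12 : ∫ η, max (X μ 0 η 0 (4 * n + q.1) (q.2 - (x i - 2 * n))) 0 ∂(law μ) =
            ep μ (4 * n + q.1) (q.2 - (x i - 2 * n)) := rfl
        rw [h12]
        linarith) (5 * E + 2 * B - 2 * E)
    rw [integral_io (meas_exV (Sc i) (fun q => 2 * n - q.1) _),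
      integral_io (measurableSet_le measurable_const (measurable_V _ _))] at h5
    have e1 : 5 * E + 2 * B - 2 * E - 2 * (B + E) = E := by ring
    have e2 : 4 * n + 2 * n = 6 * n := by ring
    rw [e1, e2] at h5
    rw [hQ]
    linarith
  have h5 : (law μ).real (⋃ i ∈ Finset.Icc (-(I : ℤ)) I, Q i) ≤ (2 * I + 1) * (2 * p) := by
    refine (measureReal_biUnion_finset_le _ _).trans ((Finset.sum_le_card_nsmul _ _ _ h4).trans (le_of_eq ?_))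
    rw [Int.card_Icc, nsmul_eq_mul]
    congr 1
    have : ((I : ℤ) + 1 - -(I : ℤ)).toNat = 2 * I + 1 := by omega
    rw [this]
    push_cast
    ring
  have h6 := (measureReal_mono (μ := law μ) h3 (measure_ne_top _ _)).trans h5
  have h7 := measureReal_mono (μ := law μ) h1 (measure_ne_top _ _)
  linarith

/-- The crossing to the right. -/
theorem crR_le (hμ : Pool.Agent.W_7d29a1_h47.EM μ) {n t w : ℕ} {E C p : ℝ} (hE : 0 < E) (ht : t ≤ n)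
    (hw : 1 ≤ w) (hU : Pool.Agent.W_7d29a1_h30g.UG μ 0 (fun t : ℤ => t / 2) n E)
    (hp : (law μ).real {η | Real.exp (-(C + 8 * E)) ≤ W μ 0 η 0 (4 * n) (2 * n + w)} ≤ p) :
    (law μ).real {η | CrR μ 0 w (2 * w : ℤ) t (Real.exp (-C)) 0 η} ≤ 2 * p := by
  have h1 := Pool.Agent.W_7d29a1_h30g.pair_le (μ := μ) (s := 0) (g := fun t : ℤ => t / 2) (ε := 1) (w := w)
    (n := n) (c := (w : ℤ)) hμ Pool.Agent.W_7d29a1_h30g.stp_half (Or.inl rfl) hE hU C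
  have e : (fun t : ℤ => t / 2) (3 * (n : ℤ)) - (fun t : ℤ => t / 2) (-(n : ℤ)) + 1 * (w : ℤ) = 2 * n + w := by
    show (3 * (n : ℤ)) / 2 - (-(n : ℤ)) / 2 + 1 * (w : ℤ) = 2 * n + w
    rw [Pool.Agent.W_7d29a1_h30g.disp_half]
    ring
  rw [e] at h1
  refine le_trans (measureReal_mono ?_ (measure_ne_top _ _)) (h1.trans (by linarith))
  rintro η ⟨k1, hk1, k2, hk2, hle, h2⟩
  rw [Finset.mem_range] at hk1 hk2
  unfold wt at h2
  rw [if_pos (show (((k1 : ℤ), (k1 : ℤ) / 2 + (0 + w)) : Pt).1 ≤ (((k2 : ℤ), (k2 : ℤ) / 2 + (0 + (2 * w : ℤ))) : Pt).1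
    from by show (k1 : ℤ) ≤ k2; exact_mod_cast hle)] at h2
  have e0 : ((((k2 : ℤ), (k2 : ℤ) / 2 + (0 + (2 * w : ℤ))) : Pt).1 -
      (((k1 : ℤ), (k1 : ℤ) / 2 + (0 + w)) : Pt).1).toNat = k2 - k1 := by
    show ((k2 : ℤ) - k1).toNat = k2 - k1
    omega
  rw [e0] at h2
  rcases Nat.eq_or_lt_of_le hle with h3 | h3
  · exfalso
    subst h3
    have h4 : W μ 0 η ((k1 : ℤ), (k1 : ℤ) / 2 + (0 + w)) (k1 - k1)
        ((((k1 : ℤ), (k1 : ℤ) / 2 + (0 + (2 * w : ℤ))) : Pt).2 - (((k1 : ℤ), (k1 : ℤ) / 2 + (0 + w)) : Pt).2) = 0 := by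
      unfold W WR
      rw [Zr_eq_zero _ _ _ (by
        show ¬ ((0 : ℤ) ≤ (k1 : ℤ) / 2 + (0 + (2 * w : ℤ)) - ((k1 : ℤ) / 2 + (0 + w)) ∧
          (k1 : ℤ) / 2 + (0 + (2 * w : ℤ)) - ((k1 : ℤ) / 2 + (0 + w)) ≤ ((k1 - k1 : ℕ) : ℤ))
        omega), mul_zero]
    rw [h4] at h2
    exact absurd h2 (not_le.2 (Real.exp_pos _))
  · refine ⟨k1, k2 - k1 - 1, by omega, h2.trans (le_of_eq ?_)⟩
    have e1 : k2 - k1 - 1 + 1 = k2 - k1 := by omega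
    rw [e1]
    unfold Pool.Agent.W_7d29a1_h95g.dk Pool.Agent.W_7d29a1_h30g.ln
    have e2 : (0 : ℤ) + w = w := zero_add _
    rw [e2]
    congr 1
    show (k2 : ℤ) / 2 + (0 + (2 * w : ℤ)) - ((k1 : ℤ) / 2 + w) =
      ((k1 : ℤ) + (((k2 - k1 - 1 : ℕ) : ℤ) + 1)) / 2 + (w + 1 * w) - ((k1 : ℤ) / 2 + w)
    have e3 : (k1 : ℤ) + (((k2 - k1 - 1 : ℕ) : ℤ) + 1) = k2 := by omega
    rw [e3]
    ring

/-- The crossing to the left. -/
theorem crL_le (hμ : Pool.Agent.W_7d29a1_h47.EM μ) {n t w : ℕ} {E C p : ℝ} (hE : 0 < E) (ht : t ≤ n)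
    (hw : 1 ≤ w) (hU : Pool.Agent.W_7d29a1_h30g.UG μ 0 (fun t : ℤ => t / 2) n E)
    (hp : (law μ).real {η | Real.exp (-(C + 8 * E)) ≤ W μ 0 η 0 (4 * n) (2 * n - w)} ≤ p) :
    (law μ).real {η | CrL μ 0 w (2 * w : ℤ) t (Real.exp (-C)) 0 η} ≤ 2 * p := by
  have h1 := Pool.Agent.W_7d29a1_h30g.pair_le (μ := μ) (s := 0) (g := fun t : ℤ => t / 2) (ε := -1) (w := w)
    (n := n) (c := -(w : ℤ)) hμ Pool.Agent.W_7d29a1_h30g.stp_half (Or.inr rfl) hE hU C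
  have e : (fun t : ℤ => t / 2) (3 * (n : ℤ)) - (fun t : ℤ => t / 2) (-(n : ℤ)) + -1 * (w : ℤ) = 2 * n - w := by
    show (3 * (n : ℤ)) / 2 - (-(n : ℤ)) / 2 + -1 * (w : ℤ) = 2 * n - w
    rw [Pool.Agent.W_7d29a1_h30g.disp_half]
    ring
  rw [e] at h1
  refine le_trans (measureReal_mono ?_ (measure_ne_top _ _)) (h1.trans (by linarith))
  rintro η ⟨k1, hk1, k2, hk2, hle, h2⟩
  rw [Finset.mem_range] at hk1 hk2
  unfold wt at h2
  rw [if_pos (show (((k1 : ℤ), (k1 : ℤ) / 2 + (0 - w)) : Pt).1 ≤ (((k2 : ℤ), (k2 : ℤ) / 2 + (0 - (2 * w : ℤ))) : Pt).1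
    from by show (k1 : ℤ) ≤ k2; exact_mod_cast hle)] at h2
  have e0 : ((((k2 : ℤ), (k2 : ℤ) / 2 + (0 - (2 * w : ℤ))) : Pt).1 -
      (((k1 : ℤ), (k1 : ℤ) / 2 + (0 - w)) : Pt).1).toNat = k2 - k1 := by
    show ((k2 : ℤ) - k1).toNat = k2 - k1
    omega
  rw [e0] at h2
  rcases Nat.eq_or_lt_of_le hle with h3 | h3
  · exfalso
    subst h3
    have h4 : W μ 0 η ((k1 : ℤ), (k1 : ℤ) / 2 + (0 - w)) (k1 - k1)
        ((((k1 : ℤ), (k1 : ℤ) / 2 + (0 - (2 * w : ℤ))) : Pt).2 - (((k1 : ℤ), (k1 : ℤ) / 2 + (0 - w)) : Pt).2) = 0 := by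
      unfold W WR
      rw [Zr_eq_zero _ _ _ (by
        show ¬ ((0 : ℤ) ≤ (k1 : ℤ) / 2 + (0 - (2 * w : ℤ)) - ((k1 : ℤ) / 2 + (0 - w)) ∧
          (k1 : ℤ) / 2 + (0 - (2 * w : ℤ)) - ((k1 : ℤ) / 2 + (0 - w)) ≤ ((k1 - k1 : ℕ) : ℤ))
        omega), mul_zero]
    rw [h4] at h2
    exact absurd h2 (not_le.2 (Real.exp_pos _))
  · refine ⟨k1, k2 - k1 - 1, by omega, h2.trans (le_of_eq ?_)⟩
    have e1 : k2 - k1 - 1 + 1 = k2 - k1 := by omega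
    rw [e1]
    unfold Pool.Agent.W_7d29a1_h95g.dk Pool.Agent.W_7d29a1_h30g.ln
    have e2 : (0 : ℤ) - w = -w := zero_sub _
    rw [e2]
    congr 1
    show (k2 : ℤ) / 2 + (0 - (2 * w : ℤ)) - ((k1 : ℤ) / 2 + -w) =
      ((k1 : ℤ) + (((k2 - k1 - 1 : ℕ) : ℤ) + 1)) / 2 + (-w + -1 * w) - ((k1 : ℤ) / 2 + -w)
    have e3 : (k1 : ℤ) + (((k2 - k1 - 1 : ℕ) : ℤ) + 1) = k2 := by omega
    rw [e3]
    ring

end Pool.Agent.W_7d29a1_g.K67
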