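import Pool.Agent.W_7d29a1_g.EL67J
import Pool.Agent.W_7d29a1_G.Defs1
import Pool.Agent.W_7d29a1_h4g.LAinst
import Pool.Agent.W_7d29a1_h18.HE

/-!
TRACK G, (EL): consequences of a scale which is not soft (tilt `0`). helper67.
-/

namespace Pool.Agent.W_7d29a1_g.K67

open Pool.Agent.W_7d29a1_F MeasureTheory ProbabilityTheory Filter
open Pool.Agent.W_7d29a1_G (ep ep_add md EE Sf one_le_EE ep_le_EE ep_mirror EE_mul md_nonneg md_le)
open Pool.Agent.W_7d29a1_h4g (Poly EU poly_W poly_WS mean_le_EU_all)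

variable {μ : Measure ℝ} [IsProbabilityMeasure μ]

/-- The (almost) vertical displacements. -/
theorem ep_near (hμ : Pool.Agent.W_7d29a1_h47.EM μ) {M m : ℕ} {y : ℤ} (hm : m ≤ M) (h0 : 0 ≤ y) (h1 : y ≤ m)
    (h2 : |2 * y - m| ≤ 2) : ep μ m y ≤ 2 * (EE μ M - 1) := by
  rw [abs_le] at h2
  have hE := one_le_EE (μ := μ) M
  have h3 := ep_le_EE (μ := μ) hm
  rcases (by omega : 2 * y = m ∨ 2 * y = m + 1 ∨ 2 * y = m - 1 ∨ 2 * y = m + 2 ∨ 2 * y = m - 2) with h | h | h | h | h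
  · have e : y = md m := by unfold md; omega
    rw [e]
    linarith
  · have e : y = m - md m := by unfold md; omega
    rw [e, ep_mirror]
    linarith
  · have e : y = md m := by unfold md; omega
    rw [e]
    linarith
  · obtain ⟨k, rfl⟩ : ∃ k, m = k + 1 := ⟨m - 1, by omega⟩
    have e : y = (k - md k) + (((1 : ℕ) : ℤ) - md 1) := by unfold md; push_cast at *; omega
    have h4 := ep_add (μ := μ) hμ (m := k) (n := 1) (k := k - md k) (y := ((1 : ℕ) : ℤ) - md 1)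
      (by linarith [md_le k]) (by linarith [md_nonneg k]) (by linarith [md_le 1]) (by linarith [md_nonneg 1])
    rw [ep_mirror, ep_mirror, ← e] at h4
    have h5 := ep_le_EE (μ := μ) (show k ≤ M by omega)
    have h6 := ep_le_EE (μ := μ) (show 1 ≤ M by omega)
    linarith
  · obtain ⟨k, rfl⟩ : ∃ k, m = k + 1 := ⟨m - 1, by omega⟩
    have e : y = md k + md 1 := by unfold md; push_cast at *; omega
    have h4 := ep_add (μ := μ) hμ (m := k) (n := 1) (k := md k) (y := md 1)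
      (md_nonneg k) (md_le k) (md_nonneg 1) (md_le 1)
    rw [← e] at h4
    have h5 := ep_le_EE (μ := μ) (show k ≤ M by omega)
    have h6 := ep_le_EE (μ := μ) (show 1 ≤ M by omega)
    linarith

theorem ub_EE (hμ : Pool.Agent.W_7d29a1_h47.EM μ) (N : ℕ) :
    Pool.Agent.W_7d29a1_h30g.UB μ 0 (8 * N) (16 * EE μ N) := by
  intro m y hm h0 h1 h2
  have h3 := ep_near hμ hm h0 h1 h2
  have h4 := EE_mul (μ := μ) hμ 8 N (by norm_num)
  push_cast at h4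
  show ep μ m y ≤ _
  linarith

/-- At a scale which is not soft no functional fluctuates. -/
theorem not_Sf_prob {x : ℕ} {α : ℝ} (hS : ¬ Sf μ x α) {l : ℕ} (hl : (l : ℝ) ≤ (2 : ℝ) ^ ((x : ℝ) + α))
    {G : Env → ℝ} (hP : Poly (rows 0 l) G) (hG : ∀ η, 0 < G η) (hV : ∀ η, Real.log (G η) ≤ V μ 0 η 0 l)
    (hm : -((2 : ℝ) ^ α * EE μ (2 ^ x)) ≤ ∫ η, Real.log (G η) ∂(law μ)) :
    (law μ).real {η | (2 : ℝ) ^ (-α) * EE μ (2 ^ x) ≤ |Real.log (G η) - ∫ ξ, Real.log (G ξ) ∂(law μ)|} <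
      (2 : ℝ) ^ (-α) := by
  by_contra hcon
  exact hS ⟨l, G, hl, hP, hG, hV, hm, not_lt.1 hcon⟩

theorem two_rpow_neg_le {α : ℝ} (hα : 0 ≤ α) : (2 : ℝ) ^ (-α) ≤ 1 :=
  Real.rpow_le_one_of_one_le_of_nonpos (by norm_num) (by linarith)

theorem two_pow_mul_le {c α : ℝ} (x : ℕ) (hc : c ≤ (2 : ℝ) ^ α) : c * (2 : ℝ) ^ x ≤ (2 : ℝ) ^ ((x : ℝ) + α) := by
  rw [Real.rpow_add (by norm_num), Real.rpow_natCast, mul_comm]
  exact mul_le_mul_of_nonneg_left hc (by positivity)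

/-- The luck of one start at a scale which is not soft. -/
theorem luck_ns (hμ : Pool.Agent.W_7d29a1_h47.EM μ) {x : ℕ} {α : ℝ} (hα : 4 ≤ α) (hS : ¬ Sf μ x α) :
    (law μ).real {η | 16 * EE μ (2 ^ x) ≤ V μ 0 η 0 (6 * (2 * 2 ^ x))} ≤ (2 : ℝ) ^ (-α) := by
  have hE := one_le_EE (μ := μ) (2 ^ x)
  have h16 : (16 : ℝ) ≤ (2 : ℝ) ^ α := by
    calc (16 : ℝ) = (2 : ℝ) ^ (4 : ℝ) := by norm_num
      _ ≤ _ := Real.rpow_le_rpow_of_exponent_le (by norm_num) hα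
  have hVint : ∀ η, Real.log (WS μ 0 η 0 (6 * (2 * 2 ^ x)) (Finset.Icc (0 : ℤ) ((6 * (2 * 2 ^ x) : ℕ) : ℤ))) =
      V μ 0 η 0 (6 * (2 * 2 ^ x)) := fun η => rfl
  have h1 := not_Sf_prob hS (l := 6 * (2 * 2 ^ x))
    (G := fun η => WS μ 0 η 0 (6 * (2 * 2 ^ x)) (Finset.Icc (0 : ℤ) ((6 * (2 * 2 ^ x) : ℕ) : ℤ))) ?_ ?_ ?_
    (fun η => le_rfl) ?_
  · refine le_trans (measureReal_mono (fun η hη => ?_) (measure_ne_top _ _)) h1.le
    have h2 : 16 * EE μ (2 ^ x) ≤ V μ 0 η 0 (6 * (2 * 2 ^ x)) := hη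
    show (2 : ℝ) ^ (-α) * EE μ (2 ^ x) ≤ |V μ 0 η 0 (6 * (2 * 2 ^ x)) - ∫ ξ, V μ 0 ξ 0 (6 * (2 * 2 ^ x)) ∂(law μ)|
    have h3 := integral_V_nonpos hμ 0 (6 * (2 * 2 ^ x))
    refine le_trans ?_ (le_abs_self _)
    have h4 := two_rpow_neg_le (show 0 ≤ α by linarith)
    nlinarith
  · push_cast
    have := two_pow_mul_le (c := 12) x (by linarith)
    linarith
  · exact (poly_WS 0 _ _).mono fun p hp => ⟨by simpa using hp.1, by simpa using hp.2.1⟩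
  · intro η
    rw [← exp_V]
    exact Real.exp_pos _
  · simp only [hVint]
    have h2 := Pool.Agent.W_7d29a1_h18.mean_V_ge (s := 0) hμ (md_nonneg (6 * (2 * 2 ^ x))) (md_le (6 * (2 * 2 ^ x)))
      (A := EE μ (6 * (2 * 2 ^ x)) - 1) (ep_le_EE (μ := μ) le_rfl)
    have h3 := EE_mul (μ := μ) hμ 12 (2 ^ x) (by norm_num)
    have e : 12 * 2 ^ x = 6 * (2 * 2 ^ x) := by ring
    rw [e] at h3
    push_cast at h3
    nlinarith

/-- The point to point weights which are hard in the mean, at a scale which is not soft. -/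
theorem cross_ns (hμ : Pool.Agent.W_7d29a1_h47.EM μ) (hnd : Pool.Agent.W_7d29a1_h47.Nondeg μ) (Y0 : ℝ) {p0 : ℝ}
    (hp0 : 0 < p0) : ∃ α1 : ℝ, ∀ α : ℝ, α1 ≤ α → (2 : ℝ) ^ (-α) ≤ p0 ∧ ∀ x : ℕ, ¬ Sf μ x α → ∀ z : ℤ, 0 ≤ z →
      z ≤ ((4 * (2 * 2 ^ x) : ℕ) : ℤ) → ∀ Y : ℝ, Y ≤ Y0 * EE μ (2 ^ x) →
      Y + EE μ (2 ^ x) ≤ e μ 0 (4 * (2 * 2 ^ x)) z →
      (law μ).real {η | Real.exp (-Y) ≤ W μ 0 η 0 (4 * (2 * 2 ^ x)) z} ≤ p0 := by
  obtain ⟨T, C, hMC⟩ := mean_le_EU_all hμ hnd hp0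
  obtain ⟨D, hD⟩ : ∃ D : ℝ, D = max (max (2 * Y0) (max C 0)) (6 * (2 ^ T * 8)) := ⟨_, rfl⟩
  obtain ⟨a, ha⟩ := pow_unbounded_of_one_lt (max D (1 / p0)) (one_lt_two : (1 : ℝ) < 2)
  refine ⟨max 3 a, fun α hα => ?_⟩
  have hα3 : 3 ≤ α := (le_max_left _ _).trans hα
  have hαa : (a : ℝ) ≤ α := (le_max_right _ _).trans hα
  have h2a : (2 : ℝ) ^ a ≤ (2 : ℝ) ^ α := by
    rw [← Real.rpow_natCast]
    exact Real.rpow_le_rpow_of_exponent_le (by norm_num) hαa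
  have hDα : D ≤ (2 : ℝ) ^ α := ((le_max_left _ _).trans ha.le).trans h2a
  have hpα : (2 : ℝ) ^ (-α) ≤ p0 := by
    rw [Real.rpow_neg (by norm_num), inv_le_comm₀ (by positivity) hp0, ← one_div]
    exact ((le_max_right _ _).trans ha.le).trans h2a
  refine ⟨hpα, fun x hS z hz0 hz1 Y hY hmean => ?_⟩
  have hE := one_le_EE (μ := μ) (2 ^ x)
  have hWpos : ∀ η : Env, 0 < W μ 0 η 0 (4 * (2 * 2 ^ x)) z := fun η => W_pos η 0 hz0 hz1
  have hWV : ∀ η : Env, Real.log (W μ 0 η 0 (4 * (2 * 2 ^ x)) z) ≤ V μ 0 η 0 (4 * (2 * 2 ^ x)) := by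
    intro η
    refine Real.log_le_log (hWpos η) ?_
    unfold WS
    exact Finset.single_le_sum (f := fun y => W μ 0 η 0 (4 * (2 * 2 ^ x)) y) (fun y _ => W_nonneg _ _ _ _)
      (Finset.mem_Icc.2 ⟨hz0, hz1⟩)
  have hPoly : Poly (rows 0 (4 * (2 * 2 ^ x) : ℕ)) fun η : Env => W μ 0 η 0 (4 * (2 * 2 ^ x)) z :=
    (poly_W 0 _ z).mono fun p hp => ⟨by simpa using hp.1, by simpa using hp.2.1⟩
  by_contra hcon
  push Not at hcon
  have hev : {η : Env | Real.exp (-Y) ≤ W μ 0 η 0 (4 * (2 * 2 ^ x)) z} =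
      {η : Env | -Y ≤ Real.log (W μ 0 η 0 (4 * (2 * 2 ^ x)) z)} := by
    ext η
    exact (Real.le_log_iff_exp_le (hWpos η)).symm
  rw [hev] at hcon
  have h1 := hMC 0 md (fun m => ⟨md_nonneg m, md_le m⟩) (4 * (2 * 2 ^ x)) _ hPoly hWpos hWV Y hcon.le
  have h2 : EU μ 0 md (2 ^ T * (4 * (2 * 2 ^ x))) ≤ (2 ^ T * 8) * EE μ (2 ^ x) := by
    have h3 := EE_mul (μ := μ) hμ (2 ^ T * 8) (2 ^ x) (by
      have : 0 < 2 ^ T := by positivity
      omega)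
    have e : 2 ^ T * 8 * 2 ^ x = 2 ^ T * (4 * (2 * 2 ^ x)) := by ring
    rw [e] at h3
    push_cast at h3
    exact h3
  have h3 : -∫ η, Real.log (W μ 0 η 0 (4 * (2 * 2 ^ x)) z) ∂(law μ) ≤ (2 : ℝ) ^ α * EE μ (2 ^ x) := by
    refine h1.trans (max_le (max_le ?_ ?_) ?_)
    · have h4 : 2 * Y0 ≤ D := by rw [hD]; exact (le_max_left _ _).trans (le_max_left _ _)
      nlinarith
    · have h4 : C ≤ D := by
        rw [hD]
        exact (le_max_left _ _).trans ((le_max_right _ _).trans (le_max_left _ _))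
      have h5 : 0 ≤ D := by
        rw [hD]
        exact (le_max_right _ _).trans ((le_max_right _ _).trans (le_max_left _ _))
      nlinarith
    · have h4 : 6 * (2 ^ T * 8) ≤ D := by rw [hD]; exact le_max_right _ _
      nlinarith
  have h4 := not_Sf_prob hS (l := 4 * (2 * 2 ^ x)) (by
    push_cast
    have h8 : (8 : ℝ) ≤ (2 : ℝ) ^ α := by
      calc (8 : ℝ) = (2 : ℝ) ^ (3 : ℝ) := by norm_num
        _ ≤ _ := Real.rpow_le_rpow_of_exponent_le (by norm_num) hα3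
    have := two_pow_mul_le (c := 8) x h8
    linarith) hPoly hWpos hWV (by linarith)
  have h5 : (law μ).real {η | -Y ≤ Real.log (W μ 0 η 0 (4 * (2 * 2 ^ x)) z)} ≤
      (law μ).real {η | (2 : ℝ) ^ (-α) * EE μ (2 ^ x) ≤ |Real.log (W μ 0 η 0 (4 * (2 * 2 ^ x)) z) -
        ∫ ξ, Real.log (W μ 0 ξ 0 (4 * (2 * 2 ^ x)) z) ∂(law μ)|} := by
    refine measureReal_mono (fun η hη => ?_) (measure_ne_top _ _)
    have h6 : -Y ≤ Real.log (W μ 0 η 0 (4 * (2 * 2 ^ x)) z) := hη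
    have h7 : ∫ ξ, Real.log (W μ 0 ξ 0 (4 * (2 * 2 ^ x)) z) ∂(law μ) = -e μ 0 (4 * (2 * 2 ^ x)) z := by
      unfold e X
      rw [integral_neg, neg_neg]
    show (2 : ℝ) ^ (-α) * EE μ (2 ^ x) ≤ |_|
    rw [h7]
    refine le_trans ?_ (le_abs_self _)
    have h8 := two_rpow_neg_le (show 0 ≤ α by linarith)
    nlinarith
  linarith

/-! ### The mean of the largest one step weight -/

theorem mx_le_sum {κ : Type*} {b : ℝ} {S : Finset κ} {f : κ → ℝ} (hb : 0 ≤ b) (hf : ∀ x ∈ S, 0 ≤ f x) :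
    mx b S f ≤ b + ∑ x ∈ S, f x := by
  refine mx_le.2 ⟨by linarith [Finset.sum_nonneg hf], fun x hx => ?_⟩
  have := Finset.single_le_sum (f := f) hf hx
  linarith

theorem oM_mean (hμ : Pool.Agent.W_7d29a1_h47.EM μ) : ∃ M : ℝ, 0 ≤ M ∧ ∀ S t : ℕ,
    ∫ η, oM μ 0 (S : ℤ) 0 t η ∂(law μ) ≤ 1 + (t + 1) * (2 * S + 1) * M := by
  obtain ⟨M, hM⟩ : ∃ M, M = (k0 μ 0 + k1 μ 0) * ∫ η : Env, Real.exp (η (0, 0)) ∂(law μ) := ⟨_, rfl⟩
  have hk : 0 < k0 μ 0 + k1 μ 0 := add_pos k0_pos k1_pos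
  have hA : ∀ p : Pt, Adm fun η : Env => (k0 μ 0 + k1 μ 0) * Real.exp (η p) := fun p =>
    (Adm.const hk.le).mul (Adm.exp_coord p)
  have hint : ∀ p : Pt, ∫ η : Env, (k0 μ 0 + k1 μ 0) * Real.exp (η p) ∂(law μ) = M := by
    intro p
    rw [integral_const_mul, hM]
    congr 1
    have h1 := int_sh (μ := μ) p (f := fun η : Env => Real.exp (η (0, 0))) (Adm.exp_coord (0, 0)).1
    rw [← h1]
    refine integral_congr_ae (Filter.Eventually.of_forall fun η => ?_)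
    show Real.exp (η p) = Real.exp (η ((0, 0) + p))
    have e : ((0, 0) : Pt) + p = p := zero_add p
    rw [e]
  have hM0 : 0 ≤ M := by
    rw [← hint 0]
    exact integral_nonneg fun η => (hA 0).2.1 η
  refine ⟨M, hM0, fun S t => ?_⟩
  obtain ⟨Z, hZ⟩ : ∃ Z : ℕ → Finset ℤ, Z = fun (τ : ℕ) => Finset.Icc ((τ : ℤ) / 2 + 0 - S) ((τ : ℤ) / 2 + 0 + S) := ⟨_, rfl⟩
  have hcard : ∀ τ, ((Z τ).card : ℝ) = 2 * S + 1 := by
    intro τ
    rw [hZ]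
    show ((Finset.Icc ((τ : ℤ) / 2 + 0 - S) ((τ : ℤ) / 2 + 0 + S)).card : ℝ) = 2 * S + 1
    rw [Int.card_Icc]
    have : ((τ : ℤ) / 2 + 0 + S + 1 - ((τ : ℤ) / 2 + 0 - S)).toNat = 2 * S + 1 := by omega
    rw [this]
    push_cast
    ring
  have h1 : ∀ η, oM μ 0 (S : ℤ) 0 t η ≤
      1 + ∑ τ ∈ Finset.range (t + 1), ∑ z ∈ Z τ, (k0 μ 0 + k1 μ 0) * Real.exp (η ((τ : ℤ), z)) := by
    intro η
    have h0 : ∀ τ : ℕ, 0 ≤ ∑ z ∈ Z τ, (k0 μ 0 + k1 μ 0) * Real.exp (η ((τ : ℤ), z)) := fun τ =>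
      Finset.sum_nonneg fun z _ => (hA _).2.1 η
    refine mx_le.2 ⟨by linarith [Finset.sum_nonneg fun τ (_ : τ ∈ Finset.range (t + 1)) => h0 τ], fun τ hτ => ?_⟩
    have h2 := Finset.single_le_sum (f := fun τ : ℕ => ∑ z ∈ Z τ, (k0 μ 0 + k1 μ 0) * Real.exp (η ((τ : ℤ), z)))
      (fun τ _ => h0 τ) hτ
    have h3 : oR μ 0 (S : ℤ) 0 τ η ≤ 1 + ∑ z ∈ Z τ, (k0 μ 0 + k1 μ 0) * Real.exp (η ((τ : ℤ), z)) := by
      unfold oR
      split_ifs with h4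
      · linarith [h0 τ]
      · rw [hZ]
        exact mx_le_sum zero_le_one fun z _ => (hA _).2.1 η
    linarith
  have hS : Adm fun η : Env => ∑ τ ∈ Finset.range (t + 1), ∑ z ∈ Z τ, (k0 μ 0 + k1 μ 0) * Real.exp (η ((τ : ℤ), z)) :=
    Adm.sum _ fun τ _ => Adm.sum _ fun z _ => hA _
  have h2 := integral_mono ((Adm.oM (μ := μ) (s := 0) (S := (S : ℤ)) (x := 0) t).integrable hμ)
    ((integrable_const (1 : ℝ)).add (hS.integrable hμ)) h1
  simp only [Pi.add_apply] at h2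
  rw [integral_add (integrable_const _) (hS.integrable hμ), integral_const, probReal_univ, one_smul,
    integral_finset_sum _ fun τ _ => (Adm.sum (Z τ) fun z _ => hA _).integrable hμ] at h2
  refine h2.trans (le_of_eq ?_)
  congr 1
  have h3 : ∀ τ ∈ Finset.range (t + 1), ∫ η : Env, ∑ z ∈ Z τ, (k0 μ 0 + k1 μ 0) * Real.exp (η ((τ : ℤ), z)) ∂(law μ) =
      (2 * S + 1) * M := by
    intro τ _
    rw [integral_finset_sum _ fun z _ => (hA _).integrable hμ, Finset.sum_congr rfl fun z _ => hint _,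
      Finset.sum_const, nsmul_eq_mul, hcard]
  rw [Finset.sum_congr rfl h3, Finset.sum_const, Finset.card_range, nsmul_eq_mul]
  push_cast
  ring

end Pool.Agent.W_7d29a1_g.K67
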