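import Pool.Agent.W_7d29a1_g.EL67K
import Pool.Agent.W_7d29a1_G.FrDefs
import Pool.Agent.W_7d29a1_G.Width

/-!
TRACK G, (EL)[A] at a scale which is not soft, in the form of D7 (row 618). helper67.
-/

namespace Pool.Agent.W_7d29a1_g.K67

open Pool.Agent.W_7d29a1_F MeasureTheory ProbabilityTheory Filter Topology
open Pool.Agent.W_7d29a1_G (ep ep_add md EE Sf one_le_EE ep_le_EE ep_mirror EE_mul md_nonneg md_le vA wA J FIn
  vA_nonneg vA_pos vA_tendsto J_line J_le_e J_neg wA_tendsto)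
open Pool.Agent.W_7d29a1_h66 (GG)

variable {μ : Measure ℝ} [IsProbabilityMeasure μ]

/-- (EL)[A] at a scale which is not soft. -/
def ELs (μ : Measure ℝ) : Prop :=
  ∃ R C1 C : ℝ, 0 ≤ C1 ∧ 0 ≤ C ∧ ∀ A : ℝ, R ≤ A → ∀ W0 : ℕ, ∃ (α : ℝ) (x0 : ℕ), ∀ x : ℕ, x0 ≤ x → ¬ Sf μ x α →
    ∃ w : ℕ, W0 ≤ w ∧ (w : ℝ) ≤ C * (vA μ 1 (2 ^ x) * 2 ^ x) ∧ ∀ (t wc : ℕ) (k : ℤ), 1 ≤ t → t ≤ 2 ^ (x + 1) →
      w ≤ 2 * wc → wc ≤ w →
      ∫ η, GG μ 0 t wc k η ^ (4 * (A / (16 * EE μ (2 ^ x)))) ∂(law μ) ≤ Real.exp (4 * (C1 * A - |(k : ℝ)|))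

/-- The mean cost of the displacements at distance `w` from the line, over the time `8 N`. -/
theorem far_cost (hμ : Pool.Agent.W_7d29a1_h47.EM μ) {N w : ℕ} {K : ℝ} (hN : 1 ≤ N) (hv : vA μ 1 N < 1 / 2)
    (hK : 8 ≤ K) (hw : K * vA μ 1 N * N ≤ w) (hw2 : w ≤ 4 * N) :
    K * EE μ N ≤ e μ 0 (8 * N) (4 * N + w) ∧ K * EE μ N ≤ e μ 0 (8 * N) (4 * N - w) := by
  have hN0 : (0 : ℝ) < N := by exact_mod_cast (by omega : 0 < N)
  have hvp := vA_pos (μ := μ) hμ one_pos N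
  obtain ⟨u, hu⟩ : ∃ u : ℝ, u = w / (8 * N) := ⟨_, rfl⟩
  have hu1 : K / 8 * vA μ 1 N ≤ u := by
    rw [hu, le_div_iff₀ (by positivity)]
    linarith
  have hvu : vA μ 1 N ≤ u := by
    refine le_trans ?_ hu1
    nlinarith
  have hu2 : u ≤ 1 / 2 := by
    rw [hu, div_le_iff₀ (by positivity)]
    have : (w : ℝ) ≤ 4 * N := by exact_mod_cast hw2
    linarith
  have h1 := J_line (μ := μ) hμ one_pos hv hvu hu2
  have h2 : K / 8 ≤ u / vA μ 1 N := by
    rw [le_div_iff₀ hvp]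
    exact hu1
  have hE := one_le_EE (μ := μ) N
  have h3 : K * EE μ N ≤ 8 * N * J μ u := by
    have : 1 * EE μ N * (K / 8) ≤ 1 * EE μ N * (u / vA μ 1 N) := mul_le_mul_of_nonneg_left h2 (by linarith)
    nlinarith
  constructor
  · have h4 := J_le_e (μ := μ) hμ (n := 8 * N) (y := 4 * N + w) (by omega) (by omega) (by push_cast; omega)
    push_cast at h4
    have e1 : ((4 : ℝ) * N + w - 8 * N / 2) / (8 * N) = u := by
      rw [hu]
      congr 1
      ring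
    rw [e1] at h4
    linarith
  · have h4 := J_le_e (μ := μ) hμ (n := 8 * N) (y := 4 * N - w) (by omega) (by omega) (by push_cast; omega)
    push_cast at h4
    have e1 : ((4 : ℝ) * N - w - 8 * N / 2) / (8 * N) = -u := by
      rw [hu]
      field_simp
      ring
    rw [e1, J_neg hμ] at h4
    linarith

theorem el_out (hμ : Pool.Agent.W_7d29a1_h47.EM μ) (hnd : Pool.Agent.W_7d29a1_h47.Nondeg μ) (hI : FIn μ) :
    ELs μ := by
  obtain ⟨c0, hc0, hI⟩ := hI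
  obtain ⟨C0', n0, hI⟩ := hI 8
  obtain ⟨C0, hC0⟩ : ∃ C0, C0 = max C0' 0 := ⟨_, rfl⟩
  have hC00 : 0 ≤ C0 := by rw [hC0]; exact le_max_right _ _
  have hC0' : C0' ≤ C0 := by rw [hC0]; exact le_max_left _ _
  obtain ⟨K0, hK0⟩ : ∃ K0, K0 = 5 + 2 * C0 := ⟨_, rfl⟩
  have hK01 : 1 ≤ K0 := by rw [hK0]; linarith
  obtain ⟨K, hK⟩ : ∃ K, K = 16 * (K0 + 15) + 1 := ⟨_, rfl⟩
  have hK1 : 8 ≤ K := by rw [hK]; linarith
  obtain ⟨M, hM0, hM⟩ := oM_mean (μ := μ) hμ
  refine ⟨1, K0 + 6, K + 1, by linarith, by linarith, fun A hA W0 => ?_⟩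
  obtain ⟨p, hp⟩ : ∃ p, p = Real.exp (-(64 * A * (K0 + 2))) := ⟨_, rfl⟩
  have hp0 : 0 < p := by rw [hp]; exact Real.exp_pos _
  obtain ⟨I, hIdef⟩ : ∃ I : ℕ, I = ⌈2 * (K + 1) / (8 * c0)⌉₊ := ⟨_, rfl⟩
  have hI1 : 2 * (K + 1) ≤ I * (8 * c0) := by
    have h1 : 2 * (K + 1) / (8 * c0) ≤ I := by rw [hIdef]; exact Nat.le_ceil _
    rwa [div_le_iff₀ (by positivity)] at h1
  obtain ⟨p1, hp1⟩ : ∃ p1, p1 = p / (4 * (2 * I + 1)) := ⟨_, rfl⟩
  have hp10 : 0 < p1 := by rw [hp1]; positivity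
  have hp1p : 4 * (2 * I + 1) * p1 = p := by rw [hp1]; field_simp
  have hp12 : 2 * p1 ≤ p := by
    have h1 : (0 : ℝ) ≤ I := Nat.cast_nonneg _
    nlinarith
  obtain ⟨α1, hα1⟩ := cross_ns (μ := μ) hμ hnd (16 * (K0 + 15)) hp10
  -- the large scales
  obtain ⟨n1, hn1⟩ := Pool.Agent.W_7d29a1_h18.cost_log (μ := μ) (s := 0) hμ hnd (differentiable_Lam hμ hnd _) 1
  have hlogE : ∀ n, n1 ≤ n → Real.log n ≤ EE μ n := by
    intro n hn
    have h1 := hn1 n hn md (EE μ n - 1) (fun m _ => ⟨md_nonneg m, md_le m⟩) fun m hm => ep_le_EE (μ := μ) hm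
    linarith
  have hEE : Tendsto (EE μ) atTop atTop := by
    have h1 : Tendsto (fun n : ℕ => Real.log n) atTop atTop :=
      Real.tendsto_log_atTop.comp tendsto_natCast_atTop_atTop
    refine tendsto_atTop_mono' atTop ?_ h1
    filter_upwards [eventually_ge_atTop n1] with n hn using hlogE n hn
  have hev : ∀ᶠ n : ℕ in atTop, 1 ≤ n ∧ n0 ≤ n ∧ n1 ≤ n ∧ vA μ 1 n < 1 / 2 ∧ (K + 1) * vA μ 1 n ≤ 1 ∧
      c0 * vA μ 1 n ≤ 1 / 2 ∧ 2 * A ≤ EE μ n ∧ Real.log (54 * (1 + M)) ≤ EE μ n ∧ (W0 : ℝ) + 1 ≤ wA μ n := by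
    have hv := vA_tendsto (μ := μ) hμ hnd (A := 1) zero_le_one
    have hv2 : Tendsto (fun n => (K + 1) * vA μ 1 n) atTop (𝓝 0) := by
      have := hv.const_mul (K + 1)
      rwa [mul_zero] at this
    have hv3 : Tendsto (fun n => c0 * vA μ 1 n) atTop (𝓝 0) := by
      have := hv.const_mul c0
      rwa [mul_zero] at this
    filter_upwards [eventually_ge_atTop 1, eventually_ge_atTop n0, eventually_ge_atTop n1,
      hv.eventually (gt_mem_nhds (show (0 : ℝ) < 1 / 2 by norm_num)),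
      hv2.eventually (gt_mem_nhds (show (0 : ℝ) < 1 by norm_num)),
      hv3.eventually (gt_mem_nhds (show (0 : ℝ) < 1 / 2 by norm_num)),
      hEE.eventually_ge_atTop (2 * A), hEE.eventually_ge_atTop (Real.log (54 * (1 + M))),
      (wA_tendsto hμ hnd).eventually_ge_atTop ((W0 : ℝ) + 1)] with n h1 h2 h3 h4 h5 h6 h7 h8 h9
    exact ⟨h1, h2, h3, h4, h5.le, h6.le, h7, h8, h9⟩
  obtain ⟨x0, hx0⟩ := ((tendsto_pow_atTop_atTop_of_one_lt (one_lt_two : (1 : ℕ) < 2)).eventually hev).exists_forall_of_atTop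
  refine ⟨max 4 α1, x0, fun x hx hS => ?_⟩
  obtain ⟨hN1, hNn0, hNn1, hvh, hKv, hcv, hEA, hEM, hW0⟩ := hx0 x hx
  obtain ⟨N, hN⟩ : ∃ N : ℕ, N = 2 ^ x := ⟨_, rfl⟩
  rw [← hN] at hN1 hNn0 hNn1 hvh hKv hcv hEA hEM hW0
  have hNr : ((2 : ℝ) ^ x) = N := by rw [hN]; push_cast; ring
  rw [← hN, hNr]
  obtain ⟨v, hv⟩ : ∃ v, v = vA μ 1 N := ⟨_, rfl⟩
  have hvp : 0 < v := by rw [hv]; exact vA_pos hμ one_pos N
  have hN0 : (1 : ℝ) ≤ N := by exact_mod_cast hN1
  have hE1 := one_le_EE (μ := μ) N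
  have hwA : wA μ N = v * N := by rw [hv]; rfl
  rw [hwA] at hW0
  rw [← hv] at hvh hKv hcv ⊢
  have hW00 : (0 : ℝ) ≤ W0 := Nat.cast_nonneg _
  obtain ⟨w, hw⟩ : ∃ w : ℕ, w = ⌈K * v * N⌉₊ := ⟨_, rfl⟩
  have hw1 : K * v * N ≤ w := by rw [hw]; exact Nat.le_ceil _
  have hw2 : (w : ℝ) ≤ K * v * N + 1 := by
    rw [hw]
    exact (Nat.ceil_lt_add_one (by positivity)).le
  have hvN : 1 ≤ v * N := by linarith
  have hw3 : (w : ℝ) ≤ (K + 1) * (v * N) := by nlinarith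
  have hw4 : w ≤ 4 * N := by
    have h1 : (w : ℝ) ≤ 4 * N := by
      have h2 : (K + 1) * (v * N) ≤ 1 * N := by
        rw [← mul_assoc]
        exact mul_le_mul_of_nonneg_right hKv (by linarith)
      linarith
    exact_mod_cast h1
  have hw5 : W0 ≤ w := by
    have h1 : (W0 : ℝ) ≤ w := by nlinarith
    exact_mod_cast h1
  have hw6 : 1 ≤ w := by
    have h1 : (1 : ℝ) ≤ w := by nlinarith
    exact_mod_cast h1
  refine ⟨w, hw5, hw3, fun t wc k ht1 ht2 hwc1 hwc2 => ?_⟩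
  obtain ⟨E, hE⟩ : ∃ E, E = 16 * EE μ N := ⟨_, rfl⟩
  have hE0 : 0 < E := by rw [hE]; linarith
  have ht3 : t ≤ 2 * N := by
    have e1 : 2 ^ (x + 1) = 2 * N := by rw [hN]; ring
    omega
  obtain ⟨h, hh⟩ : ∃ h : ℕ, h = ⌊8 * c0 * v * N⌋₊ := ⟨_, rfl⟩
  have hh1 : (h : ℝ) ≤ 8 * c0 * v * N := by rw [hh]; exact Nat.floor_le (by positivity)
  have hh2 : 8 * c0 * v * N < h + 1 := by rw [hh]; exact Nat.lt_floor_add_one _
  have hh3 : h ≤ 2 * (2 * N) := by
    have h1 : (h : ℝ) ≤ 4 * N := by nlinarith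
    have h2 : h ≤ 4 * N := by exact_mod_cast h1
    omega
  have hα4 : 4 ≤ max 4 α1 := le_max_left _ _
  have hlk := luck_ns hμ hα4 hS
  obtain ⟨hpα, hcr⟩ := hα1 (max 4 α1) (le_max_right _ _)
  have hcr := hcr x hS
  rw [← hN] at hlk hcr
  have hlogN := hlogE N hNn1
  have hU : Pool.Agent.W_7d29a1_h30g.UG μ 0 (fun t : ℤ => t / 2) (2 * N) E := by
    refine Pool.Agent.W_7d29a1_h30g.UB.ug ?_
    have h1 := ub_EE (μ := μ) hμ N
    have e1 : 4 * (2 * N) = 8 * N := by ring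
    rw [e1, hE]
    exact h1
  -- the box luck
  have hhit : (law μ).real {η | Real.exp (K0 * E) ≤ mB μ 0 (2 * w : ℤ) 0 0 t η} ≤ p := by
    have h1 := hit_le (μ := μ) hμ (n := 2 * N) (t := t) (w := w) (h := h) (I := I) (E := E) (B := C0 * E)
      (p := p1) hE0 (by positivity) ht3 (fun m hm => by
        have h2 := ep_le_EE (μ := μ) (show m ≤ 4 * N by omega)
        have h3 := EE_mul (μ := μ) hμ 4 N (by norm_num)
        push_cast at h3
        rw [hE]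
        linarith) (fun δ hδ => by
        rw [abs_le] at hδ
        have h2 := hI N hNn0 (4 * (2 * N)) (2 * (2 * N : ℕ) + δ) (by omega) (by omega) (by omega) (by
          have h3 : |(δ : ℝ)| ≤ h := by
            rw [abs_le]
            constructor
            · exact_mod_cast hδ.1
            · exact_mod_cast hδ.2
          push_cast
          have e1 : (2 : ℝ) * (2 * N) + δ - 4 * (2 * N) / 2 = δ := by ring
          rw [e1, ← hv]
          linarith)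
        refine h2.trans ?_
        rw [hE]
        nlinarith) hh3 (by
        have h2 : ((2 * w : ℕ) : ℝ) ≤ ((I * (2 * h + 1) : ℕ) : ℝ) := by
          push_cast
          have h3 : 2 * (w : ℝ) ≤ 2 * (K + 1) * (v * N) := by linarith
          have h4 : 2 * (K + 1) * (v * N) ≤ I * (8 * c0) * (v * N) :=
            mul_le_mul_of_nonneg_right hI1 (by positivity)
          have h5 : (I : ℝ) * (8 * c0) * (v * N) ≤ I * (2 * h + 1) := by
            rw [mul_assoc]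
            refine mul_le_mul_of_nonneg_left ?_ (Nat.cast_nonneg _)
            have h6 : (0 : ℝ) ≤ h := Nat.cast_nonneg _
            nlinarith
          linarith
        exact_mod_cast h2) (by
        rw [hE]
        exact hlk.trans hpα)
    rw [hp1p] at h1
    have e1 : 5 * E + 2 * (C0 * E) = K0 * E := by rw [hK0]; ring
    rwa [e1] at h1
  -- the crossings
  have hfar := far_cost (μ := μ) hμ (N := N) (w := w) (K := K) hN1 (by rw [← hv]; exact hvh) hK1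
    (by rw [← hv]; exact hw1) hw4
  have e8 : 4 * (2 * N) = 8 * N := by ring
  have hR : (law μ).real {η | CrR μ 0 w (2 * w : ℤ) t (Real.exp (-((K0 + 7) * E))) 0 η} ≤ p := by
    refine (crR_le (μ := μ) hμ (n := 2 * N) (t := t) (w := w) (E := E) (C := (K0 + 7) * E) (p := p1) hE0 ht3 hw6 hU
      ?_).trans hp12
    have h1 := hcr (2 * (2 * N : ℕ) + w) (by omega) (by push_cast; omega) ((K0 + 7) * E + 8 * E) (by
      rw [hE]; nlinarith) (by
      have e1 : (2 * ((2 * N : ℕ) : ℤ) + w) = 4 * N + w := by push_cast; ring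
      rw [e8, e1]
      refine le_trans (le_of_eq ?_) hfar.1
      rw [hE, hK]
      ring)
    exact h1
  have hL : (law μ).real {η | CrL μ 0 w (2 * w : ℤ) t (Real.exp (-((K0 + 7) * E))) 0 η} ≤ p := by
    refine (crL_le (μ := μ) hμ (n := 2 * N) (t := t) (w := w) (E := E) (C := (K0 + 7) * E) (p := p1) hE0 ht3 hw6 hU
      ?_).trans hp12
    have h1 := hcr (2 * (2 * N : ℕ) - w) (by omega) (by push_cast; omega) ((K0 + 7) * E + 8 * E) (by
      rw [hE]; nlinarith) (by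
      have e1 : (2 * ((2 * N : ℕ) : ℤ) - w) = 4 * N - w := by push_cast; ring
      rw [e8, e1]
      refine le_trans (le_of_eq ?_) hfar.2
      rw [hE, hK]
      ring)
    exact h1
  -- the logarithms
  have htE : (t : ℝ) ≤ Real.exp E := by
    have h1 : (t : ℝ) ≤ 2 * N := by exact_mod_cast ht3
    have h2 : (N : ℝ) ≤ Real.exp (EE μ N) := by
      calc (N : ℝ) = Real.exp (Real.log N) := (Real.exp_log (by linarith)).symm
        _ ≤ _ := Real.exp_le_exp.2 hlogN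
    have h3 : (2 : ℝ) ≤ Real.exp (EE μ N) := by
      have := Real.add_one_le_exp (EE μ N)
      linarith
    calc (t : ℝ) ≤ 2 * N := h1
      _ ≤ Real.exp (EE μ N) * Real.exp (EE μ N) := mul_le_mul h3 h2 (by linarith) (Real.exp_pos _).le
      _ = Real.exp (EE μ N + EE μ N) := (Real.exp_add _ _).symm
      _ ≤ _ := Real.exp_le_exp.2 (by rw [hE]; linarith)
  have hoM : ∫ η, oM μ 0 (2 * w : ℤ) 0 t η ∂(law μ) ≤ Real.exp E := by
    have h1 := hM (2 * w) t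
    have e1 : ((2 * w : ℕ) : ℤ) = (2 * w : ℤ) := by push_cast; ring
    rw [e1] at h1
    refine h1.trans ?_
    have ht4 : (t : ℝ) ≤ 2 * N := by exact_mod_cast ht3
    have hw7 : (w : ℝ) ≤ 4 * N := by exact_mod_cast hw4
    have h2 : ((t : ℝ) + 1) * (2 * ((2 * w : ℕ) : ℝ) + 1) ≤ 3 * N * (17 * N) := by
      push_cast
      refine mul_le_mul (by linarith) (by linarith) (by positivity) (by linarith)
    have h3 : 1 + ((t : ℝ) + 1) * (2 * ((2 * w : ℕ) : ℝ) + 1) * M ≤ 54 * (1 + M) * (N * N) := by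
      have h4 : ((t : ℝ) + 1) * (2 * ((2 * w : ℕ) : ℝ) + 1) * M ≤ 3 * N * (17 * N) * M :=
        mul_le_mul_of_nonneg_right h2 hM0
      have h5 : (1 : ℝ) ≤ N * N := by nlinarith
      nlinarith [mul_nonneg hM0 (by linarith : (0 : ℝ) ≤ N * N)]
    refine h3.trans ?_
    have h4 : (N : ℝ) ≤ Real.exp (EE μ N) := by
      calc (N : ℝ) = Real.exp (Real.log N) := (Real.exp_log (by linarith)).symm
        _ ≤ _ := Real.exp_le_exp.2 hlogN
    have h5 : 54 * (1 + M) ≤ Real.exp (EE μ N) := by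
      calc 54 * (1 + M) = Real.exp (Real.log (54 * (1 + M))) := (Real.exp_log (by positivity)).symm
        _ ≤ _ := Real.exp_le_exp.2 hEM
    calc 54 * (1 + M) * (N * N) ≤ Real.exp (EE μ N) * (Real.exp (EE μ N) * Real.exp (EE μ N)) := by
          gcongr
      _ = Real.exp (EE μ N + (EE μ N + EE μ N)) := by rw [← Real.exp_add, ← Real.exp_add]
      _ ≤ _ := Real.exp_le_exp.2 (by rw [hE]; linarith)
  have hfin := el_GG (μ := μ) (s := 0) hμ (t := t) (w := w) (wc := wc) (E := E) (K0 := K0) (A := A) (p := p) hA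
    (by rw [hE]; linarith) hK01 ht1 hw6 hwc1 hwc2 hhit hR hL (by rw [hp]) htE hoM k
  rw [hE] at hfin
  exact hfin

end Pool.Agent.W_7d29a1_g.K67
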