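import Mathlib

/-!
The frame with the unit of the worst direction (helper20, board 48674).

`e n x` is the mean cost of the displacement `x ∈ [-n, n]` in time `n` (interpolated linearly between the
lattice points), `J v` is the rate function, or the rate function at `ρ v`, `1 ≤ ρ ≤ 2` (version with slack,
helper72, 49083). `vs n` is the largest slope `v ≤ 1/4` with `2 n J v ≤ e n (v n)`,
`Es n = e n (vs n * n)`, `Eb n = 1 + max_{m ≤ n} Es m`, and `vb n` is the slope with `n J (vb n) = Eb n / 2`.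
-/

namespace Pool.Agent.W_7d29a1_g

open Filter Topology Set

noncomputable section

/-- The assumptions: convexity, symmetry, subadditivity. -/
structure Fr (e : ℕ → ℝ → ℝ) (J : ℝ → ℝ) : Prop where
  conv : ∀ n : ℕ, ConvexOn ℝ (Icc (-(n : ℝ)) n) (e n)
  even : ∀ (n : ℕ) (x : ℝ), |x| ≤ n → e n (-x) = e n x
  sub : ∀ (m n : ℕ) (x y : ℝ), |x| ≤ m → |y| ≤ n → e (m + n) (x + y) ≤ e m x + e n y
  Jconv : ConvexOn ℝ (Ioo (-(1 / 2)) (1 / 2)) J
  J0 : J 0 = 0
  Jpos : ∀ v : ℝ, 0 < v → v < 1 / 2 → 0 < J v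
  nonneg : ∀ (n : ℕ) (x : ℝ), |x| ≤ n → 0 ≤ e n x
  up : ∀ v : ℝ, 0 ≤ v → v < 1 / 2 → ∀ ε : ℝ, 0 < ε → ∀ᶠ n : ℕ in atTop, e n (v * n) ≤ (J v + ε) * n

/-- The slope of the worst direction. -/
def vs (e : ℕ → ℝ → ℝ) (J : ℝ → ℝ) (n : ℕ) : ℝ :=
  sSup {v : ℝ | 0 ≤ v ∧ v ≤ 1 / 4 ∧ 2 * n * J v ≤ e n (v * n)}

/-- The cost of the worst direction. -/
def Es (e : ℕ → ℝ → ℝ) (J : ℝ → ℝ) (n : ℕ) : ℝ := e n (vs e J n * n)

/-- The unit. -/
def Eb (e : ℕ → ℝ → ℝ) (J : ℝ → ℝ) (n : ℕ) : ℝ :=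
  1 + (Finset.range (n + 1)).sup' Finset.nonempty_range_add_one (Es e J)

/-- The natural slope. -/
def vb (e : ℕ → ℝ → ℝ) (J : ℝ → ℝ) (n : ℕ) : ℝ :=
  sSup {v : ℝ | 0 ≤ v ∧ v ≤ 1 / 4 ∧ 2 * n * J v ≤ Eb e J n}

namespace Fr

variable {e : ℕ → ℝ → ℝ} {J : ℝ → ℝ} (F : Fr e J)

include F

theorem Jcont : ContinuousOn J (Ioo (-(1 / 2)) (1 / 2)) := F.Jconv.continuousOn isOpen_Ioo

theorem mem_half {v : ℝ} (h0 : 0 ≤ v) (h1 : v ≤ 1 / 4) : v ∈ Ioo (-(1 / 2) : ℝ) (1 / 2) := ⟨by linarith, by linarith⟩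

/-- `J` grows at least linearly along rays. -/
theorem J_mul {v t : ℝ} (hv : 0 ≤ v) (ht : 1 ≤ t) (htv : t * v < 1 / 2) : t * J v ≤ J (t * v) := by
  have ht0 : 0 < t := by linarith
  have hv1 : v < 1 / 2 := by nlinarith
  have h := F.Jconv.2 (show t * v ∈ Ioo (-(1 / 2) : ℝ) (1 / 2) from ⟨by nlinarith, htv⟩)
    (show (0 : ℝ) ∈ Ioo (-(1 / 2) : ℝ) (1 / 2) from ⟨by norm_num, by norm_num⟩)
    (show (0 : ℝ) ≤ 1 / t by positivity) (show 0 ≤ 1 - 1 / t by
      rw [sub_nonneg, div_le_one ht0]; exact ht) (by ring)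
  simp only [smul_eq_mul, mul_zero, add_zero, F.J0] at h
  have e1 : 1 / t * (t * v) = v := by field_simp
  rw [e1] at h
  have := mul_le_mul_of_nonneg_left h ht0.le
  have e2 : t * (1 / t * J (t * v)) = J (t * v) := by field_simp
  linarith

theorem J_strict {u v : ℝ} (hu : 0 ≤ u) (huv : u < v) (hv : v < 1 / 2) : J u < J v := by
  rcases hu.eq_or_lt with rfl | hu0
  · rw [F.J0]
    exact F.Jpos v huv hv
  · have h1 : 1 < v / u := by rwa [one_lt_div hu0]
    have h2 := F.J_mul (v := u) (t := v / u) hu h1.le (by rw [div_mul_cancel₀ _ hu0.ne']; exact hv)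
    rw [div_mul_cancel₀ _ hu0.ne'] at h2
    have h3 := F.Jpos u hu0 (by linarith)
    nlinarith

theorem J_mono {u v : ℝ} (hu : 0 ≤ u) (huv : u ≤ v) (hv : v < 1 / 2) : J u ≤ J v := by
  rcases huv.eq_or_lt with rfl | h
  · exact le_rfl
  · exact (F.J_strict hu h hv).le

theorem J_nonneg {v : ℝ} (h0 : 0 ≤ v) (h1 : v < 1 / 2) : 0 ≤ J v := by
  have := F.J_mono le_rfl h0 h1
  rwa [F.J0] at this

theorem e_mono {n : ℕ} {x y : ℝ} (hx : |x| ≤ y) (hy : y ≤ n) : e n x ≤ e n y := by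
  have hy0 : 0 ≤ y := (abs_nonneg x).trans hx
  have h := F.conv n
  have hm : x ∈ segment ℝ (-y) y := by
    rw [segment_eq_Icc (by linarith)]
    exact ⟨(abs_le.1 hx).1, (abs_le.1 hx).2⟩
  have h2 := h.le_on_segment (x := -y) (y := y) ⟨by linarith, by linarith⟩ ⟨by linarith, hy⟩ hm
  rwa [F.even n y (by rwa [abs_of_nonneg hy0]), max_self] at h2

theorem e_nonneg {n : ℕ} {v : ℝ} (hv : |v| < 1) : 0 ≤ e n (v * n) := by
  refine F.nonneg n _ ?_
  rw [abs_mul, Nat.abs_cast]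
  have : (0 : ℝ) ≤ n := Nat.cast_nonneg n
  nlinarith

/-! ### The set which defines `vs` -/

theorem econt (n : ℕ) (hn : 1 ≤ n) : ContinuousOn (fun v : ℝ => e n (v * n)) (Icc 0 (1 / 4)) := by
  have h1 : ContinuousOn (e n) (Ioo (-(n : ℝ)) n) := by
    refine ((F.conv n).subset Ioo_subset_Icc_self (convex_Ioo _ _)).continuousOn isOpen_Ioo
  refine h1.comp (by fun_prop) ?_
  intro v hv
  have hn' : (1 : ℝ) ≤ n := by exact_mod_cast hn
  exact ⟨by nlinarith [hv.1], by nlinarith [hv.2]⟩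

theorem vs_set_closed (n : ℕ) (hn : 1 ≤ n) :
    IsClosed {v : ℝ | 0 ≤ v ∧ v ≤ 1 / 4 ∧ 2 * n * J v ≤ e n (v * n)} := by
  have h1 : {v : ℝ | 0 ≤ v ∧ v ≤ 1 / 4 ∧ 2 * n * J v ≤ e n (v * n)} =
      {v : ℝ | v ∈ Icc (0 : ℝ) (1 / 4) ∧ 2 * n * J v ≤ e n (v * n)} := by
    ext v
    simp only [mem_ofPred_eq, mem_Icc, and_assoc]
  rw [h1]
  refine isClosed_Icc.isClosed_le ?_ (F.econt n hn)
  refine ContinuousOn.mul continuousOn_const (F.Jcont.mono ?_)
  intro v hv
  exact F.mem_half hv.1 hv.2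

theorem vs_bdd (n : ℕ) : BddAbove {v : ℝ | 0 ≤ v ∧ v ≤ 1 / 4 ∧ 2 * n * J v ≤ e n (v * n)} :=
  ⟨1 / 4, fun _ hv => hv.2.1⟩

theorem zero_mem (n : ℕ) : (0 : ℝ) ∈ {v : ℝ | 0 ≤ v ∧ v ≤ 1 / 4 ∧ 2 * n * J v ≤ e n (v * n)} := by
  refine ⟨le_rfl, by norm_num, ?_⟩
  rw [F.J0, mul_zero]
  exact F.e_nonneg (by simp)

theorem vs_nonneg (n : ℕ) : 0 ≤ vs e J n := le_csSup (F.vs_bdd n) (F.zero_mem n)

theorem vs_le (n : ℕ) : vs e J n ≤ 1 / 4 := csSup_le ⟨0, F.zero_mem n⟩ fun _ hv => hv.2.1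

theorem vs_mem {n : ℕ} (hn : 1 ≤ n) : 2 * n * J (vs e J n) ≤ Es e J n :=
  ((F.vs_set_closed n hn).csSup_mem ⟨0, F.zero_mem n⟩ (F.vs_bdd n)).2.2

/-- Beyond `vs n` the mean cost is at most twice the asymptotic cost. -/
theorem e_lt {n : ℕ} {v : ℝ} (h0 : vs e J n < v) (h1 : v ≤ 1 / 4) : e n (v * n) < 2 * n * J v := by
  by_contra h
  rw [not_lt] at h
  have := le_csSup (F.vs_bdd n) (show v ∈ {v : ℝ | 0 ≤ v ∧ v ≤ 1 / 4 ∧ 2 * n * J v ≤ e n (v * n)} from
    ⟨(F.vs_nonneg n).trans h0.le, h1, h⟩)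
  exact absurd this (not_le.2 h0)

/-- From `vs n` on. -/
theorem e_le {n : ℕ} (hn : 1 ≤ n) {v : ℝ} (h0 : vs e J n ≤ v) (h1 : v ≤ 1 / 4) (hlt : vs e J n < 1 / 4) :
    e n (v * n) ≤ 2 * n * J v := by
  rcases h0.lt_or_eq with h | h
  · exact (F.e_lt h h1).le
  · subst h
    -- by continuity from the right
    have hc : ContinuousOn (fun v : ℝ => 2 * n * J v - e n (v * n)) (Icc 0 (1 / 4)) := by
      refine (ContinuousOn.mul continuousOn_const (F.Jcont.mono ?_)).sub (F.econt n hn)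
      intro v hv
      exact F.mem_half hv.1 hv.2
    have h2 : Tendsto (fun v : ℝ => 2 * n * J v - e n (v * n)) (𝓝[Ioc (vs e J n) (1 / 4)] (vs e J n))
        (𝓝 (2 * n * J (vs e J n) - e n (vs e J n * n))) := by
      refine (hc (vs e J n) ⟨F.vs_nonneg n, F.vs_le n⟩).mono_left (nhdsWithin_mono _ ?_)
      intro v hv
      exact ⟨(F.vs_nonneg n).trans hv.1.le, hv.2⟩
    have hne : (𝓝[Ioc (vs e J n) (1 / 4)] (vs e J n)).NeBot := by
      rw [nhdsWithin_Ioc_eq_nhdsGT hlt]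
      infer_instance
    have h3 := ge_of_tendsto h2 (b := (0 : ℝ)) (eventually_nhdsWithin_of_forall fun v hv => by
      have := F.e_lt hv.1 hv.2
      linarith)
    linarith

theorem Es_eq {n : ℕ} (hn : 1 ≤ n) (hlt : vs e J n < 1 / 4) : Es e J n = 2 * n * J (vs e J n) :=
  le_antisymm (F.e_le hn le_rfl (F.vs_le n) hlt) (F.vs_mem hn)

/-- (F1) in the general form. -/
theorem vs_add (m n : ℕ) : vs e J (m + n) ≤ max (vs e J m) (vs e J n) := by
  refine csSup_le ⟨0, F.zero_mem _⟩ ?_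
  rintro v ⟨hv0, hv1, hv2⟩
  by_contra h
  rw [not_le, max_lt_iff] at h
  have h1 := F.e_lt h.1 hv1
  have h2 := F.e_lt h.2 hv1
  have h3 := F.sub m n (v * m) (v * n) (by rw [abs_of_nonneg (by positivity)]; nlinarith [(Nat.cast_nonneg m : (0:ℝ) ≤ m)])
    (by rw [abs_of_nonneg (by positivity)]; nlinarith [(Nat.cast_nonneg n : (0:ℝ) ≤ n)])
  have e1 : v * ((m + n : ℕ) : ℝ) = v * m + v * n := by push_cast; ring
  have e2 : 2 * ((m + n : ℕ) : ℝ) * J v = 2 * m * J v + 2 * n * J v := by push_cast; ring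
  rw [e1, e2] at hv2
  linarith

/-- The cost of the worst direction is at least the cost of the direction `0`. -/
theorem e_zero_le_Es (n : ℕ) : e n 0 ≤ Es e J n := by
  have h1 := F.vs_nonneg n
  have h2 := F.vs_le n
  have hn : (0 : ℝ) ≤ n := Nat.cast_nonneg n
  refine F.e_mono (by rw [abs_zero]; positivity) (by nlinarith)

theorem Es_nonneg (n : ℕ) : 0 ≤ Es e J n := by
  have h1 := F.e_zero_le_Es n
  have h2 := F.e_nonneg (n := n) (v := 0) (by simp)
  rw [zero_mul] at h2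
  linarith

theorem Es_le_Eb {m n : ℕ} (h : m ≤ n) : 1 + Es e J m ≤ Eb e J n := by
  unfold Eb
  have := Finset.le_sup' (Es e J) (show m ∈ Finset.range (n + 1) from Finset.mem_range.2 (by omega))
  linarith

theorem one_le_Eb (n : ℕ) : 1 ≤ Eb e J n := by
  have h1 := F.Es_le_Eb (le_refl n)
  have h2 := F.Es_nonneg n
  linarith

theorem Eb_mono : Monotone (Eb e J) := by
  intro m n h
  unfold Eb
  have := Finset.sup'_mono (Es e J) (Finset.range_mono (show m + 1 ≤ n + 1 by omega)) Finset.nonempty_range_add_one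
  linarith

theorem Eb_le {n : ℕ} {c : ℝ} (h : ∀ m ≤ n, 1 + Es e J m ≤ c) : Eb e J n ≤ c := by
  unfold Eb
  have : (Finset.range (n + 1)).sup' Finset.nonempty_range_add_one (Es e J) ≤ c - 1 := by
    refine Finset.sup'_le _ _ fun m hm => ?_
    have := h m (by rw [Finset.mem_range] at hm; omega)
    linarith
  linarith

theorem e_zero_le_Eb {m n : ℕ} (h : m ≤ n) : e m 0 ≤ Eb e J n := by
  have h1 := F.e_zero_le_Es m
  have h2 := F.Es_le_Eb h
  linarith

/-! ### The natural slope -/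

theorem vb_nonneg (n : ℕ) : 0 ≤ vb e J n := by
  refine le_csSup ⟨1 / 4, fun _ hv => hv.2.1⟩ ⟨le_rfl, by norm_num, ?_⟩
  rw [F.J0, mul_zero]
  linarith [F.one_le_Eb n]

theorem vb_ne (n : ℕ) : (0 : ℝ) ∈ {v : ℝ | 0 ≤ v ∧ v ≤ 1 / 4 ∧ 2 * n * J v ≤ Eb e J n} := by
  refine ⟨le_rfl, by norm_num, ?_⟩
  rw [F.J0, mul_zero]
  linarith [F.one_le_Eb n]

theorem vb_le (n : ℕ) : vb e J n ≤ 1 / 4 := csSup_le ⟨0, F.vb_ne n⟩ fun _ hv => hv.2.1

theorem vb_mem (n : ℕ) : 2 * n * J (vb e J n) ≤ Eb e J n := by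
  have h1 : IsClosed {v : ℝ | 0 ≤ v ∧ v ≤ 1 / 4 ∧ 2 * n * J v ≤ Eb e J n} := by
    have h1 : {v : ℝ | 0 ≤ v ∧ v ≤ 1 / 4 ∧ 2 * n * J v ≤ Eb e J n} =
        {v : ℝ | v ∈ Icc (0 : ℝ) (1 / 4) ∧ 2 * n * J v ≤ Eb e J n} := by
      ext v
      simp only [mem_ofPred_eq, mem_Icc, and_assoc]
    rw [h1]
    refine isClosed_Icc.isClosed_le (ContinuousOn.mul continuousOn_const (F.Jcont.mono ?_))
      continuousOn_const
    intro v hv
    exact F.mem_half hv.1 hv.2
  exact (h1.csSup_mem ⟨0, F.vb_ne n⟩ ⟨1 / 4, fun _ hv => hv.2.1⟩).2.2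

theorem lt_J_of_vb_lt {n : ℕ} {v : ℝ} (h0 : vb e J n < v) (h1 : v ≤ 1 / 4) : Eb e J n < 2 * n * J v := by
  by_contra h
  rw [not_lt] at h
  have := le_csSup (a := v) (show BddAbove {v : ℝ | 0 ≤ v ∧ v ≤ 1 / 4 ∧ 2 * n * J v ≤ Eb e J n} from
    ⟨1 / 4, fun _ hv => hv.2.1⟩) ⟨(F.vb_nonneg n).trans h0.le, h1, h⟩
  exact absurd this (not_le.2 h0)

theorem vb_eq {n : ℕ} (h : vb e J n < 1 / 4) : n * J (vb e J n) = Eb e J n / 2 := by
  have h1 := F.vb_mem n
  have hc : ContinuousOn (fun v : ℝ => 2 * n * J v) (Icc 0 (1 / 4)) := by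
    refine ContinuousOn.mul continuousOn_const (F.Jcont.mono ?_)
    intro v hv
    exact F.mem_half hv.1 hv.2
  have h2 : Tendsto (fun v : ℝ => 2 * n * J v) (𝓝[Ioc (vb e J n) (1 / 4)] (vb e J n))
      (𝓝 (2 * n * J (vb e J n))) := by
    refine (hc (vb e J n) ⟨F.vb_nonneg n, F.vb_le n⟩).mono_left (nhdsWithin_mono _ ?_)
    intro v hv
    exact ⟨(F.vb_nonneg n).trans hv.1.le, hv.2⟩
  have hne : (𝓝[Ioc (vb e J n) (1 / 4)] (vb e J n)).NeBot := by
    rw [nhdsWithin_Ioc_eq_nhdsGT h]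
    infer_instance
  have h3 := ge_of_tendsto h2 (b := Eb e J n) (eventually_nhdsWithin_of_forall fun v hv =>
    (F.lt_J_of_vb_lt hv.1 hv.2).le)
  linarith

/-- (H1): the moves inside the natural cone cost at most one unit. -/
theorem H1 {m n : ℕ} (hm : 1 ≤ m) (hmn : m ≤ n) {x : ℝ} (hx : |x| ≤ vb e J n * m) : e m x ≤ Eb e J n := by
  have hm0 : (0 : ℝ) < m := by exact_mod_cast hm
  have hv1 := F.vb_le n
  have hv0 := F.vb_nonneg n
  have hE := F.Es_le_Eb hmn
  rcases le_total (|x|) (vs e J m * m) with h | h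
  · have h1 : e m x ≤ Es e J m := F.e_mono h (by nlinarith [F.vs_le m])
    linarith
  · set u : ℝ := |x| / m with hu
    have hum : u * m = |x| := by rw [hu]; field_simp
    have hu1 : u ≤ vb e J n := by rw [hu, div_le_iff₀ hm0]; exact hx
    have hu2 : vs e J m ≤ u := by rw [hu, le_div_iff₀ hm0]; exact h
    have h1 : e m x ≤ e m (u * m) := F.e_mono (by rw [hum]) (by nlinarith)
    by_cases hlt : vs e J m < 1 / 4
    · have h2 := F.e_le hm hu2 (hu1.trans hv1) hlt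
      have h3 := F.J_mono ((F.vs_nonneg m).trans hu2) hu1 (by linarith)
      have h4 := F.vb_mem n
      have h5 : (m : ℝ) ≤ n := by exact_mod_cast hmn
      have h6 := F.J_nonneg hv0 (by linarith)
      have h7 : 2 * (m : ℝ) * J u ≤ 2 * m * J (vb e J n) := mul_le_mul_of_nonneg_left h3 (by positivity)
      have h8 : 2 * (m : ℝ) * J (vb e J n) ≤ 2 * n * J (vb e J n) :=
        mul_le_mul_of_nonneg_right (by linarith) h6
      linarith
    · have h2 : vs e J m = 1 / 4 := le_antisymm (F.vs_le m) (not_lt.1 hlt)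
      have h3 : u ≤ vs e J m := by rw [h2]; exact hu1.trans hv1
      have h4 : e m (u * m) ≤ Es e J m :=
        F.e_mono (by rw [abs_of_nonneg (by rw [hum]; exact abs_nonneg x)]; nlinarith)
          (by nlinarith [F.vs_le m])
      linarith

/-- (H2): displacements of slope `k vb n` cost at least `k / 2` units. -/
theorem H2 {n : ℕ} (h : vb e J n < 1 / 4) {k : ℝ} (hk : 1 ≤ k) (hk1 : k * vb e J n < 1 / 2) :
    k * (Eb e J n / 2) ≤ n * J (k * vb e J n) := by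
  have h1 := F.J_mul (F.vb_nonneg n) hk hk1
  rw [← F.vb_eq h]
  have : (0 : ℝ) ≤ n := Nat.cast_nonneg n
  nlinarith [mul_le_mul_of_nonneg_left h1 this]

/-- (F2). -/
theorem vs_le_vb {n : ℕ} (hn : 1 ≤ n) : vs e J n ≤ vb e J n := by
  refine le_csSup ⟨1 / 4, fun _ hv => hv.2.1⟩ ⟨F.vs_nonneg n, F.vs_le n, ?_⟩
  have h1 := F.vs_mem hn
  have h2 := F.Es_le_Eb (le_refl n)
  linarith

/-! ### Growth and limits -/

theorem Es_add {m n : ℕ} (hm : 1 ≤ m) (hn : 1 ≤ n) (h : vs e J (m + n) < 1 / 4) :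
    Es e J (m + n) ≤ (m + n : ℝ) * max (Es e J m / m) (Es e J n / n) := by
  have hm0 : (0 : ℝ) < m := by exact_mod_cast hm
  have hn0 : (0 : ℝ) < n := by exact_mod_cast hn
  rw [F.Es_eq (by omega) h]
  have h1 := F.vs_add m n
  have h2 := F.vs_mem hm
  have h3 := F.vs_mem hn
  rcases le_max_iff.1 h1 with h4 | h4
  · have h5 := F.J_mono (F.vs_nonneg _) h4 (by linarith [F.vs_le m])
    have h6 : 2 * J (vs e J m) ≤ Es e J m / m := by
      rw [le_div_iff₀ hm0]
      linarith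
    have h7 : 2 * J (vs e J (m + n)) ≤ max (Es e J m / m) (Es e J n / n) :=
      le_trans (by linarith) (le_max_left _ _)
    push_cast
    nlinarith
  · have h5 := F.J_mono (F.vs_nonneg _) h4 (by linarith [F.vs_le n])
    have h6 : 2 * J (vs e J n) ≤ Es e J n / n := by
      rw [le_div_iff₀ hn0]
      linarith
    have h7 : 2 * J (vs e J (m + n)) ≤ max (Es e J m / m) (Es e J n / n) :=
      le_trans (by linarith) (le_max_right _ _)
    push_cast
    nlinarith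

/-- `vs n` tends to `0`. -/
theorem vs_tendsto : Tendsto (vs e J) atTop (𝓝 0) := by
  rw [Metric.tendsto_atTop]
  intro ε hε
  -- choose a slope `a ≤ 1 / 4` and a finite grid
  obtain ⟨a, ha0, ha1, ha2⟩ : ∃ a : ℝ, 0 < a ∧ a ≤ 1 / 8 ∧ a < ε := by
    refine ⟨min (1 / 8) (ε / 2), by positivity, min_le_left _ _, ?_⟩
    exact lt_of_le_of_lt (min_le_right _ _) (by linarith)
  have hJa := F.Jpos a ha0 (by linarith)
  -- uniform continuity of J on [a, 1/2]
  have huc : UniformContinuousOn J (Icc (0 : ℝ) (1 / 4)) := by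
    refine isCompact_Icc.uniformContinuousOn_of_continuous (F.Jcont.mono ?_)
    intro v hv
    exact F.mem_half hv.1 hv.2
  rw [Metric.uniformContinuousOn_iff] at huc
  obtain ⟨δ, hδ, hδ2⟩ := huc (J a / 2) (by linarith)
  obtain ⟨N, hN⟩ : ∃ N : ℕ, 1 / (4 * δ) < N := exists_nat_gt _
  have hN0 : (0 : ℝ) < N := lt_trans (by positivity) hN
  -- the grid points `k / (2 N)`, `k ≤ N`
  have hgrid : ∀ᶠ n : ℕ in atTop, ∀ k ∈ Finset.range (N + 1),
      e n ((k / (4 * N) : ℝ) * n) ≤ (J (k / (4 * N)) + J a / 2) * n := by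
    rw [Finset.eventually_all]
    intro k hk
    have hk1 : (k : ℝ) ≤ N := by
      rw [Finset.mem_range] at hk
      exact_mod_cast (show k ≤ N by omega)
    have hkk : (k / (4 * N) : ℝ) < 1 / 2 := by
      rw [div_lt_iff₀ (by positivity)]
      linarith
    exact F.up _ (by positivity) hkk _ (by linarith)
  obtain ⟨n0, hn0⟩ := eventually_atTop.1 hgrid
  refine ⟨max n0 1, fun n hn => ?_⟩
  have hn1 : n0 ≤ n := (le_max_left _ _).trans hn
  have hn2 : 1 ≤ n := (le_max_right _ _).trans hn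
  have hnn : (0 : ℝ) < n := by exact_mod_cast hn2
  rw [Real.dist_eq, sub_zero, abs_of_nonneg (F.vs_nonneg n)]
  refine lt_of_le_of_lt ?_ ha2
  refine csSup_le ⟨0, F.zero_mem n⟩ ?_
  rintro v ⟨hv0, hv1, hv2⟩
  by_contra hva
  rw [not_le] at hva
  -- the next grid point
  set k : ℕ := ⌈v * (4 * N)⌉₊ with hk
  have hkN : k ≤ N := by
    rw [hk, Nat.ceil_le]
    nlinarith
  have hkv : v ≤ k / (4 * N) := by
    rw [le_div_iff₀ (by positivity)]
    exact Nat.le_ceil _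
  have hkv2 : (k / (4 * N) : ℝ) < v + δ := by
    have h1 : (k : ℝ) < v * (4 * N) + 1 := Nat.ceil_lt_add_one (by positivity)
    rw [div_lt_iff₀ (by positivity)]
    have h2 : 1 < δ * (4 * N) := by
      rw [div_lt_iff₀ (by positivity)] at hN
      linarith
    nlinarith
  have hkh : (k / (4 * N) : ℝ) ≤ 1 / 4 := by
    rw [div_le_iff₀ (by positivity)]
    have : (k : ℝ) ≤ N := by exact_mod_cast hkN
    linarith
  have h1 := hn0 n hn1 k (Finset.mem_range.2 (by omega))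
  have h2 : e n (v * n) ≤ e n ((k / (4 * N) : ℝ) * n) :=
    F.e_mono (by rw [abs_of_nonneg (by positivity)]; exact mul_le_mul_of_nonneg_right hkv hnn.le)
      (by nlinarith)
  have h3 : J (k / (4 * N)) < J v + J a / 2 := by
    have := hδ2 (k / (4 * N)) ⟨by positivity, hkh⟩ v ⟨hv0, hv1⟩ (by
      rw [Real.dist_eq, abs_of_nonneg (by linarith)]
      linarith)
    rw [Real.dist_eq] at this
    linarith [(abs_lt.1 this).2]
  have h4 : J a < J v := F.J_strict ha0.le hva (by linarith)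
  have h5 : e n (v * n) < 2 * n * J v := by
    calc e n (v * n) ≤ (J (k / (4 * N)) + J a / 2) * n := h2.trans h1
      _ < (2 * J v) * n := mul_lt_mul_of_pos_right (by linarith) hnn
      _ = 2 * n * J v := by ring
  linarith

/-- From some time on the worst slope is smaller than `1 / 4`. -/
theorem vs_lt_half : ∀ᶠ n : ℕ in atTop, vs e J n < 1 / 4 :=
  F.vs_tendsto.eventually (eventually_lt_nhds (by norm_num))

theorem Es_div_tendsto : Tendsto (fun n : ℕ => Es e J n / n) atTop (𝓝 0) := by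
  have hJ : Tendsto (fun n : ℕ => 2 * J (vs e J n)) atTop (𝓝 0) := by
    have h1 : ContinuousAt J 0 := F.Jcont.continuousAt (Ioo_mem_nhds (by norm_num) (by norm_num))
    have h2 := (h1.tendsto.comp F.vs_tendsto).const_mul 2
    rw [F.J0, mul_zero] at h2
    exact h2
  refine hJ.congr' ?_
  filter_upwards [F.vs_lt_half, eventually_ge_atTop 1] with n hn hn1
  have hn0 : (0 : ℝ) < n := by exact_mod_cast hn1
  rw [F.Es_eq hn1 hn]
  field_simp

theorem Eb_div_tendsto : Tendsto (fun n : ℕ => Eb e J n / n) atTop (𝓝 0) := by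
  rw [Metric.tendsto_atTop]
  intro ε hε
  obtain ⟨n0, hn0⟩ := eventually_atTop.1 (F.Es_div_tendsto.eventually (eventually_lt_nhds (show (0:ℝ) < ε / 4 by linarith)))
  obtain ⟨N, hN⟩ : ∃ N : ℕ, (4 / ε) * Eb e J (max n0 1) < N := exists_nat_gt _
  refine ⟨max N (max n0 1), fun n hn => ?_⟩
  have hn1 : N ≤ n := (le_max_left _ _).trans hn
  have hn2 : max n0 1 ≤ n := (le_max_right _ _).trans hn
  have hn3 : 1 ≤ n := (le_max_right _ _).trans hn2
  have hnn : (0 : ℝ) < n := by exact_mod_cast hn3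
  have hE1 := F.one_le_Eb (max n0 1)
  have hb : Eb e J (max n0 1) < ε / 4 * n := by
    have : (N : ℝ) ≤ n := by exact_mod_cast hn1
    have h2 : (4 / ε) * Eb e J (max n0 1) < n := lt_of_lt_of_le hN this
    rw [div_mul_eq_mul_div, div_lt_iff₀ hε] at h2
    linarith
  have h1 : Eb e J n ≤ ε / 2 * n := by
    refine F.Eb_le fun m hm => ?_
    rcases le_or_gt m (max n0 1) with h | h
    · have := F.Es_le_Eb h
      nlinarith
    · have h2 := hn0 m (by omega)
      have hm0 : (0 : ℝ) < m := by exact_mod_cast (show 0 < m by omega)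
      rw [div_lt_iff₀ hm0] at h2
      have h3 : (m : ℝ) ≤ n := by exact_mod_cast hm
      nlinarith
  rw [Real.dist_eq, sub_zero, abs_of_nonneg (by have := F.one_le_Eb n; positivity), div_lt_iff₀ hnn]
  nlinarith

/-- (F3): the natural slope tends to `0`. -/
theorem vb_tendsto : Tendsto (vb e J) atTop (𝓝 0) := by
  rw [Metric.tendsto_atTop]
  intro ε hε
  obtain ⟨a, ha0, ha1, ha2⟩ : ∃ a : ℝ, 0 < a ∧ a ≤ 1 / 8 ∧ a < ε := by
    refine ⟨min (1 / 8) (ε / 2), by positivity, min_le_left _ _, ?_⟩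
    exact lt_of_le_of_lt (min_le_right _ _) (by linarith)
  have hJa := F.Jpos a ha0 (by linarith)
  obtain ⟨n0, hn0⟩ := eventually_atTop.1 (F.Eb_div_tendsto.eventually (eventually_lt_nhds hJa))
  refine ⟨max n0 1, fun n hn => ?_⟩
  have hn3 : 1 ≤ n := (le_max_right _ _).trans hn
  have hnn : (0 : ℝ) < n := by exact_mod_cast hn3
  have h1 := hn0 n ((le_max_left _ _).trans hn)
  rw [div_lt_iff₀ hnn] at h1
  rw [Real.dist_eq, sub_zero, abs_of_nonneg (F.vb_nonneg n)]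
  refine lt_of_le_of_lt ?_ ha2
  by_contra h
  rw [not_le] at h
  have h2 := F.vb_mem n
  have h3 := F.J_mono ha0.le h.le (by linarith [F.vb_le n])
  nlinarith

theorem vb_lt_half : ∀ᶠ n : ℕ in atTop, vb e J n < 1 / 4 :=
  F.vb_tendsto.eventually (eventually_lt_nhds (by norm_num))

/-- Growth of the unit: `Eb (2 n) ≤ (2 + 2 / n) Eb n` for large `n`. -/
theorem Eb_two : ∀ᶠ n : ℕ in atTop, Eb e J (2 * n) ≤ (2 + 2 / n) * Eb e J n := by
  obtain ⟨n0, hn0⟩ := eventually_atTop.1 F.vs_lt_half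
  filter_upwards [eventually_ge_atTop (max n0 2)] with n hn
  have hn1 : n0 ≤ n := (le_max_left _ _).trans hn
  have hn2 : 2 ≤ n := (le_max_right _ _).trans hn
  have hnn : (0 : ℝ) < n := by exact_mod_cast (show 0 < n by omega)
  have hE := F.one_le_Eb n
  refine F.Eb_le fun m hm => ?_
  have hc : (2 : ℝ) ≤ 2 + 2 / n := by
    have : (0 : ℝ) ≤ 2 / n := by positivity
    linarith
  rcases le_or_gt m n with h | h
  · have := F.Es_le_Eb h
    nlinarith
  · obtain ⟨a, b, hab, ha, hb, hna, hnb, hbn⟩ : ∃ a b : ℕ, m = a + b ∧ 1 ≤ a ∧ a ≤ b ∧ n ≤ 2 * a ∧ b ≤ a + 1 ∧ b ≤ n :=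
      ⟨m / 2, m - m / 2, by omega, by omega, by omega, by omega, by omega, by omega⟩
    have h1 := F.Es_add (m := a) (n := b) ha (by omega) (by rw [← hab]; exact hn0 m (by omega))
    rw [← hab] at h1
    have ha0 : (0 : ℝ) < a := by exact_mod_cast ha
    have hb0 : (0 : ℝ) < b := by exact_mod_cast (show 0 < b by omega)
    have ha1 := F.Es_le_Eb (show a ≤ n by omega)
    have hb1 := F.Es_le_Eb hbn
    have hmx : max (Es e J a / a) (Es e J b / b) ≤ (Eb e J n - 1) / a := by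
      refine max_le ?_ ?_
      · exact div_le_div_of_nonneg_right (by linarith) ha0.le
      · have hab' : (a : ℝ) ≤ b := by exact_mod_cast hb
        calc Es e J b / b ≤ Es e J b / a := by
              exact div_le_div_of_nonneg_left (F.Es_nonneg b) ha0 hab'
          _ ≤ (Eb e J n - 1) / a := div_le_div_of_nonneg_right (by linarith) ha0.le
    have hab2 : (a : ℝ) + b ≤ 2 * a + 1 := by exact_mod_cast (show a + b ≤ 2 * a + 1 by omega)
    have h2 : Es e J m ≤ (2 * a + 1) * ((Eb e J n - 1) / a) := by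
      refine h1.trans ?_
      have h3 : 0 ≤ (Eb e J n - 1) / a := div_nonneg (by linarith) ha0.le
      calc ((a : ℝ) + b) * max (Es e J a / a) (Es e J b / b) ≤ (a + b) * ((Eb e J n - 1) / a) :=
            mul_le_mul_of_nonneg_left hmx (by positivity)
        _ ≤ (2 * a + 1) * ((Eb e J n - 1) / a) := mul_le_mul_of_nonneg_right hab2 h3
    have h3 : (2 * a + 1) * ((Eb e J n - 1) / a) = 2 * (Eb e J n - 1) + (Eb e J n - 1) / a := by
      field_simp
    have h4 : (Eb e J n - 1) / a ≤ 2 / n * (Eb e J n - 1) := by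
      rw [div_mul_eq_mul_div, div_le_div_iff₀ ha0 hnn]
      have : (n : ℝ) ≤ 2 * a := by exact_mod_cast hna
      nlinarith
    have h5 : (0 : ℝ) ≤ 2 / n := by positivity
    nlinarith

/-- The natural slope does not grow when the time is doubled (up to a factor `1 + 1 / n`). -/
theorem vb_two : ∀ᶠ n : ℕ in atTop, vb e J (2 * n) ≤ (1 + 1 / n) * vb e J n := by
  have h2n : Tendsto (fun n : ℕ => 2 * n) atTop atTop := tendsto_atTop_mono (fun n => by simp; omega) tendsto_id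
  filter_upwards [F.Eb_two, F.vb_lt_half, h2n.eventually F.vb_lt_half, eventually_ge_atTop 2,
    F.vb_tendsto.eventually (eventually_lt_nhds (show (0:ℝ) < 1 / 8 by norm_num))] with n h1 h2 h3 h4 h5
  have hnn : (0 : ℝ) < n := by exact_mod_cast (show 0 < n by omega)
  by_contra h
  rw [not_le] at h
  have hb0 := F.vb_nonneg n
  have h6 := F.vb_eq h2
  have h7 := F.vb_eq h3
  have hone : (1 : ℝ) ≤ 1 + 1 / n := by
    have : (0 : ℝ) ≤ 1 / n := by positivity
    linarith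
  have hle : (1 : ℝ) + 1 / n ≤ 2 := by
    have : (1 : ℝ) / n ≤ 1 := by
      rw [div_le_one hnn]
      exact_mod_cast (show 1 ≤ n by omega)
    linarith
  have h8 := F.J_mul hb0 hone (by nlinarith)
  have h9 := F.J_strict (u := (1 + 1 / n) * vb e J n) (by positivity) h (by linarith)
  push_cast at h7
  have h10 : (1 + 1 / n) * J (vb e J n) < J (vb e J (2 * n)) := lt_of_le_of_lt h8 h9
  have h11 : 2 * (n : ℝ) * ((1 + 1 / n) * J (vb e J n)) < 2 * n * J (vb e J (2 * n)) :=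
    mul_lt_mul_of_pos_left h10 (by positivity)
  have h12 : 2 * (n : ℝ) * ((1 + 1 / n) * J (vb e J n)) = (2 + 2 / n) * (n * J (vb e J n)) := by
    field_simp
  rw [h12, h6, h7] at h11
  nlinarith

end Fr

end

end Pool.Agent.W_7d29a1_g
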