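import Pool.Agent.W_7d29a1_F.GrB

/-!
MP_7d29a1_pr (G+, track G): the hook lemma. A path from `p` to `q` is in the set `A k` at the beginning and in the set `B k` at the end of the
`k`-th window; the reference `s k → t k` of the window is in crossing position. The product of the weights of the path and of the references
is at most the product of the weights `p → t 1`, `s k → t (k + 1)`, `s K → q`: every junction costs one reference. No sum over crossing
places, every temperature. The decomposition of a path according to patterns (cells) is `hook_cover`.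
-/

set_option autoImplicit false

open Finset MeasureTheory

namespace Pool.Agent.W_7d29a1_g

open Pool.Agent.W_7d29a1_F

/-- A junction: the positions of the path at the two ends of a window, and a reference. -/
structure Junc where
  A : Finset Pt
  B : Finset Pt
  s : Pt
  t : Pt

/-- The weight of the paths with the given junctions. -/
noncomputable def Pat (K : Pt → Pt → ℝ) : Pt → List Junc → Pt → ℝ
  | p, [], q => K p q
  | p, J :: Js, q => ∑ a ∈ J.A, ∑ b ∈ J.B, K p a * K a b * Pat K b Js q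

/-- The weight of the references. -/
noncomputable def Ref (K : Pt → Pt → ℝ) : List Junc → ℝ
  | [] => 1
  | J :: Js => K J.s J.t * Ref K Js

/-- The weight of the hooked paths. -/
noncomputable def Hk (K : Pt → Pt → ℝ) : Pt → List Junc → Pt → ℝ
  | p, [], q => K p q
  | p, J :: Js, q => K p J.t * Hk K J.s Js q

/-- The windows are ordered, and the references are in crossing position. -/
def Ok : ℤ → List Junc → ℤ → Prop
  | τ, [], τ' => τ ≤ τ'
  | τ, J :: Js, τ' => τ ≤ J.s.1 ∧ J.s.1 ≤ J.t.1 ∧ (∀ a ∈ J.A, a.1 = J.s.1) ∧ (∀ b ∈ J.B, b.1 = J.t.1) ∧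
      (((∀ a ∈ J.A, a.2 ≤ J.s.2) ∧ ∀ b ∈ J.B, J.t.2 ≤ b.2) ∨ ((∀ a ∈ J.A, J.s.2 ≤ a.2) ∧ ∀ b ∈ J.B, b.2 ≤ J.t.2)) ∧
      Ok J.t.1 Js τ'

/-- The properties of the point to point weights: Chapman-Kolmogorov and the swap of two paths in one window. -/
structure Ker (K : Pt → Pt → ℝ) : Prop where
  nn : ∀ a b, 0 ≤ K a b
  ck : ∀ (S : Finset Pt) (τ : ℤ), (∀ v ∈ S, v.1 = τ) → ∀ p u : Pt, τ ≤ u.1 → ∑ v ∈ S, K p v * K v u ≤ K p u
  swap : ∀ a b s t : Pt, a.1 = s.1 → b.1 = t.1 → s.1 ≤ t.1 → (a.2 ≤ s.2 ∧ t.2 ≤ b.2) ∨ (s.2 ≤ a.2 ∧ b.2 ≤ t.2) →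
    K a b * K s t ≤ K a t * K s b

theorem Pat_nonneg {K : Pt → Pt → ℝ} (hK : ∀ a b, 0 ≤ K a b) : ∀ (Js : List Junc) (p q : Pt), 0 ≤ Pat K p Js q := by
  intro Js
  induction Js with
  | nil => intro p q; exact hK p q
  | cons J Js ih =>
    intro p q
    exact sum_nonneg fun a _ => sum_nonneg fun b _ => mul_nonneg (mul_nonneg (hK _ _) (hK _ _)) (ih _ _)

theorem Ref_nonneg {K : Pt → Pt → ℝ} (hK : ∀ a b, 0 ≤ K a b) : ∀ Js : List Junc, 0 ≤ Ref K Js := by
  intro Js
  induction Js with
  | nil => exact zero_le_one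
  | cons J Js ih => exact mul_nonneg (hK _ _) ih

theorem Pat_mono {K K' : Pt → Pt → ℝ} (hK : ∀ a b, 0 ≤ K a b) (hle : ∀ a b, K a b ≤ K' a b) :
    ∀ (Js : List Junc) (p q : Pt), Pat K p Js q ≤ Pat K' p Js q := by
  intro Js
  induction Js with
  | nil => intro p q; exact hle p q
  | cons J Js ih =>
    intro p q
    refine sum_le_sum fun a _ => sum_le_sum fun b _ => ?_
    exact mul_le_mul (mul_le_mul (hle _ _) (hle _ _) (hK _ _) ((hK _ _).trans (hle _ _))) (ih _ _) (Pat_nonneg hK _ _ _)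
      (mul_nonneg ((hK _ _).trans (hle _ _)) ((hK _ _).trans (hle _ _)))

/-- Chapman-Kolmogorov for the weights with junctions. -/
theorem Ker.ck_pat {K : Pt → Pt → ℝ} (h : Ker K) (S : Finset Pt) (τ : ℤ) (hS : ∀ v ∈ S, v.1 = τ) (p : Pt) (Js : List Junc)
    (q : Pt) (hOk : Ok τ Js q.1) : ∑ v ∈ S, K p v * Pat K v Js q ≤ Pat K p Js q := by
  cases Js with
  | nil => exact h.ck S τ hS p q hOk
  | cons J Js =>
    obtain ⟨h1, _, h3, _⟩ := hOk
    calc ∑ v ∈ S, K p v * Pat K v (J :: Js) q
        = ∑ a ∈ J.A, ∑ b ∈ J.B, (∑ v ∈ S, K p v * K v a) * K a b * Pat K b Js q := by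
          simp only [Pat, mul_sum, sum_mul]
          rw [sum_comm]
          refine sum_congr rfl fun a _ => ?_
          rw [sum_comm]
          refine sum_congr rfl fun b _ => sum_congr rfl fun v _ => ?_
          ring
      _ ≤ ∑ a ∈ J.A, ∑ b ∈ J.B, K p a * K a b * Pat K b Js q := by
          refine sum_le_sum fun a ha => sum_le_sum fun b _ => ?_
          refine mul_le_mul_of_nonneg_right (mul_le_mul_of_nonneg_right ?_ (h.nn _ _)) (Pat_nonneg h.nn _ _ _)
          exact h.ck S τ hS p a (by rw [h3 a ha]; exact h1)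

/-- The hook lemma. -/
theorem Ker.hook {K : Pt → Pt → ℝ} (h : Ker K) : ∀ (Js : List Junc) (p q : Pt), Ok p.1 Js q.1 →
    Pat K p Js q * Ref K Js ≤ Hk K p Js q := by
  intro Js
  induction Js with
  | nil =>
    intro p q _
    simp [Pat, Ref, Hk]
  | cons J Js ih =>
    intro p q hOk
    obtain ⟨h1, h2, h3, h4, h5, h6⟩ := hOk
    have hR := Ref_nonneg h.nn Js
    calc Pat K p (J :: Js) q * Ref K (J :: Js)
        = ∑ a ∈ J.A, ∑ b ∈ J.B, K p a * (K a b * K J.s J.t) * (Pat K b Js q * Ref K Js) := by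
          simp only [Pat, Ref, sum_mul]
          refine sum_congr rfl fun a _ => sum_congr rfl fun b _ => ?_
          ring
      _ ≤ ∑ a ∈ J.A, ∑ b ∈ J.B, K p a * (K a J.t * K J.s b) * (Pat K b Js q * Ref K Js) := by
          refine sum_le_sum fun a ha => sum_le_sum fun b hb => ?_
          refine mul_le_mul_of_nonneg_right (mul_le_mul_of_nonneg_left ?_ (h.nn _ _)) (mul_nonneg (Pat_nonneg h.nn _ _ _) hR)
          refine h.swap a b J.s J.t (h3 a ha) (h4 b hb) h2 ?_
          rcases h5 with h5 | h5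
          · exact Or.inl ⟨h5.1 a ha, h5.2 b hb⟩
          · exact Or.inr ⟨h5.1 a ha, h5.2 b hb⟩
      _ = (∑ a ∈ J.A, K p a * K a J.t) * ((∑ b ∈ J.B, K J.s b * Pat K b Js q) * Ref K Js) := by
          rw [sum_mul]
          refine sum_congr rfl fun a _ => ?_
          rw [sum_mul, mul_sum]
          refine sum_congr rfl fun b _ => ?_
          ring
      _ ≤ K p J.t * (Pat K J.s Js q * Ref K Js) := by
          refine mul_le_mul (h.ck J.A J.s.1 h3 p J.t h2) (mul_le_mul_of_nonneg_right (h.ck_pat J.B J.t.1 h4 J.s Js q h6) hR)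
            (mul_nonneg (sum_nonneg fun b _ => mul_nonneg (h.nn _ _) (Pat_nonneg h.nn _ _ _)) hR) (h.nn _ _)
      _ ≤ K p J.t * Hk K J.s Js q := by
          refine mul_le_mul_of_nonneg_left (ih J.s q ?_) (h.nn _ _)
          cases Js with
          | nil => exact h2.trans h6
          | cons J' Js =>
            obtain ⟨g1, g2⟩ := h6
            exact ⟨h2.trans g1, g2⟩

/-- Sums over lists and finite sets commute. -/
theorem sum_list_comm {α : Type*} (O : List α) (S T : Finset Pt) (F : Pt → Pt → α → ℝ) :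
    ∑ a ∈ S, ∑ b ∈ T, (O.map (F a b)).sum = (O.map fun J => ∑ a ∈ S, ∑ b ∈ T, F a b J).sum := by
  induction O with
  | nil => simp
  | cons J O ih =>
    simp only [List.map_cons, List.sum_cons]
    rw [← ih]
    simp only [sum_add_distrib]

/-- The sum over the choices with one more junction. -/
theorem sum_sections {α : Type*} (O : List α) (L : List (List α)) (F : List α → ℝ) :
    ((L.flatMap fun s => O.map fun J => J :: s).map F).sum = (O.map fun J => (L.map fun s => F (J :: s)).sum).sum := by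
  induction L with
  | nil => simp
  | cons s L ih =>
    rw [List.flatMap_cons, List.map_append, List.sum_append, ih]
    simp only [List.map_cons, List.sum_cons, List.map_map]
    rw [List.sum_map_add]
    rfl

/-- The weight of the choices with one more junction. -/
theorem sum_pat {K : Pt → Pt → ℝ} (p q : Pt) (J : Junc) (L : List (List Junc)) :
    (L.map fun s => Pat K p (J :: s) q).sum =
      ∑ a ∈ J.A, ∑ b ∈ J.B, K p a * K a b * (L.map fun s => Pat K b s q).sum := by
  induction L with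
  | nil => simp
  | cons s L ih =>
    simp only [List.map_cons, List.sum_cons, ih, mul_add, sum_add_distrib]
    rfl

/-- Decomposition according to patterns: `Os k` is the list of the junctions which are allowed in the window `k`. `St τ` contains the sites at
the time `τ` which matter. -/
theorem cover_pat {K : Pt → Pt → ℝ} (hK : ∀ a b, 0 ≤ K a b) (q : Pt) (St : ℤ → Finset Pt) (hSt : ∀ τ, ∀ v ∈ St τ, v.1 = τ)
    (hdec : ∀ (p : Pt) (τ : ℤ), p ∈ St p.1 → p.1 ≤ τ → τ ≤ q.1 → K p q ≤ ∑ a ∈ St τ, K p a * K a q) :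
    ∀ (Os : List (List Junc)) (p : Pt) (τs : List (ℤ × ℤ)), p ∈ St p.1 →
      List.Forall₂ (fun (O : List Junc) (τ : ℤ × ℤ) => ∀ a ∈ St τ.1, ∀ b ∈ St τ.2, ∃ J ∈ O, a ∈ J.A ∧ b ∈ J.B) Os τs →
      (p.1 :: τs.flatMap (fun τ => [τ.1, τ.2]) ++ [q.1]).Pairwise (· ≤ ·) →
      K p q ≤ (Os.sections.map fun Js => Pat K p Js q).sum := by
  intro Os
  induction Os with
  | nil =>
    intro p τs _ _ _
    simp [Pat]
  | cons O Os ih =>
    intro p τs hp hall hpw
    cases hall with
    | cons hO hOs =>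
      rename_i τ τs
      have hle1 : p.1 ≤ τ.1 := by
        rw [List.flatMap_cons, List.cons_append, List.pairwise_cons] at hpw
        exact hpw.1 _ (by simp)
      have hpw2 := (List.pairwise_cons.1 hpw).2
      have hpw3 : (τ.1 :: τ.2 :: (τs.flatMap (fun τ => [τ.1, τ.2]) ++ [q.1])).Pairwise (· ≤ ·) := by
        simpa [List.flatMap_cons] using hpw2
      have hle2 : τ.1 ≤ τ.2 := (List.pairwise_cons.1 hpw3).1 _ (by simp)
      have hpw4 := (List.pairwise_cons.1 hpw3).2
      have hle3 : τ.2 ≤ q.1 := (List.pairwise_cons.1 hpw4).1 _ (by simp)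
      have hb : ∀ b ∈ St τ.2, K b q ≤ (Os.sections.map fun Js => Pat K b Js q).sum := by
        intro b hb
        have hb1 := hSt τ.2 b hb
        refine ih b τs (by rw [hb1]; exact hb) hOs ?_
        rw [hb1]
        simpa using hpw4
      have h1 : K p q ≤ ∑ a ∈ St τ.1, ∑ b ∈ St τ.2, K p a * K a b * K b q := by
        refine (hdec p τ.1 hp hle1 (hle2.trans hle3)).trans (sum_le_sum fun a ha => ?_)
        have ha1 := hSt τ.1 a ha
        have h2 := hdec a τ.2 (by rw [ha1]; exact ha) (by rw [ha1]; exact hle2) hle3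
        calc K p a * K a q ≤ K p a * ∑ b ∈ St τ.2, K a b * K b q := mul_le_mul_of_nonneg_left h2 (hK _ _)
          _ = ∑ b ∈ St τ.2, K p a * K a b * K b q := by
            rw [mul_sum]
            exact sum_congr rfl fun b _ => by ring
      refine h1.trans ?_
      -- every pair of sites is covered by a junction of the list
      set L : List (List Junc) := Os.sections with hL
      have hnn : ∀ b, 0 ≤ (L.map fun s => Pat K b s q).sum := fun b =>
        List.sum_nonneg fun x hx => by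
          obtain ⟨s, _, rfl⟩ := List.mem_map.1 hx
          exact Pat_nonneg hK _ _ _
      set F : Pt → Pt → Junc → ℝ := fun a b J =>
        if a ∈ J.A ∧ b ∈ J.B then K p a * K a b * (L.map fun s => Pat K b s q).sum else 0 with hF
      have hF0 : ∀ a b J, 0 ≤ F a b J := by
        intro a b J
        rw [hF]
        show 0 ≤ if a ∈ J.A ∧ b ∈ J.B then K p a * K a b * (L.map fun s => Pat K b s q).sum else 0
        split_ifs
        · exact mul_nonneg (mul_nonneg (hK _ _) (hK _ _)) (hnn b)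
        · exact le_rfl
      have h2 : ∀ a ∈ St τ.1, ∀ b ∈ St τ.2, K p a * K a b * K b q ≤ (O.map (F a b)).sum := by
        intro a ha b hb'
        obtain ⟨J, hJ, h3⟩ := hO a ha b hb'
        have h5 := List.single_le_sum (l := O.map (F a b)) (fun x hx => by
            obtain ⟨J', _, rfl⟩ := List.mem_map.1 hx
            exact hF0 a b J') _ (List.mem_map_of_mem hJ)
        refine le_trans ?_ h5
        have h6 : F a b J = K p a * K a b * (L.map fun s => Pat K b s q).sum := by
          rw [hF]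
          exact if_pos h3
        rw [h6]
        exact mul_le_mul_of_nonneg_left (hb b hb') (mul_nonneg (hK _ _) (hK _ _))
      calc ∑ a ∈ St τ.1, ∑ b ∈ St τ.2, K p a * K a b * K b q
          ≤ ∑ a ∈ St τ.1, ∑ b ∈ St τ.2, (O.map (F a b)).sum :=
            sum_le_sum fun a ha => sum_le_sum fun b hb' => h2 a ha b hb'
        _ = (O.map fun J => ∑ a ∈ St τ.1, ∑ b ∈ St τ.2, F a b J).sum := sum_list_comm O _ _ F
        _ ≤ (O.map fun J => (L.map fun s => Pat K p (J :: s) q).sum).sum := by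
            refine List.sum_le_sum fun J _ => ?_
            rw [sum_pat]
            have h7 : ∑ a ∈ St τ.1, ∑ b ∈ St τ.2, F a b J =
                ∑ a ∈ (St τ.1).filter (fun a => a ∈ J.A), ∑ b ∈ (St τ.2).filter (fun b => b ∈ J.B),
                  K p a * K a b * (L.map fun s => Pat K b s q).sum := by
              rw [sum_filter]
              refine sum_congr rfl fun a _ => ?_
              split_ifs with ha
              · rw [sum_filter]
                refine sum_congr rfl fun b _ => ?_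
                rw [hF]
                by_cases hb' : b ∈ J.B
                · simp [ha, hb']
                · simp [hb']
              · refine sum_eq_zero fun b _ => ?_
                rw [hF]
                simp [ha]
            rw [h7]
            have h8 : ∀ a b, 0 ≤ K p a * K a b * (L.map fun s => Pat K b s q).sum := fun a b =>
              mul_nonneg (mul_nonneg (hK _ _) (hK _ _)) (hnn b)
            refine le_trans (sum_le_sum_of_subset_of_nonneg (fun a ha => (mem_filter.1 ha).2) fun a _ _ =>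
              sum_nonneg fun b _ => h8 a b) (sum_le_sum fun a _ => ?_)
            exact sum_le_sum_of_subset_of_nonneg (fun b hb' => (mem_filter.1 hb').2) fun b _ _ => h8 a b
        _ = (((O :: Os).sections).map fun Js => Pat K p Js q).sum := by
            rw [List.sections, sum_sections]

/-! ### The model -/

variable {μ : Measure ℝ} {s : ℝ}

noncomputable def wt (μ : Measure ℝ) (s : ℝ) (R : Set Pt) (η : Env) (b c : Pt) : ℝ :=
  if b.1 ≤ c.1 then WR μ s R η b (c.1 - b.1).toNat (c.2 - b.2) else 0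

theorem wt_nonneg (R : Set Pt) (η : Env) (b c : Pt) : 0 ≤ wt μ s R η b c := by
  unfold wt
  split_ifs
  · exact WR_nonneg R η b _ _
  · exact le_rfl

theorem wt_le (R : Set Pt) (η : Env) (b c : Pt) :
    wt μ s R η b c ≤ wt μ s Set.univ η b c := by
  unfold wt
  split_ifs
  · exact WR_le_W R η b _ _
  · exact le_rfl

theorem wt_eq (R : Set Pt) (η : Env) {b c : Pt} {n : ℕ} (h : c.1 = b.1 + n) :
    wt μ s R η b c = WR μ s R η b n (c.2 - b.2) := by
  unfold wt
  have h1 : b.1 ≤ c.1 := by omega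
  have h2 : (c.1 - b.1).toNat = n := by omega
  rw [if_pos h1, h2]

theorem WR_out (R : Set Pt) (η : Env) (b : Pt) {n : ℕ} {y : ℤ}
    (h : ¬ (0 ≤ y ∧ y ≤ n)) : WR μ s R η b n y = 0 := by
  unfold WR
  rw [Zr_eq_zero R η b h, mul_zero]

theorem WR_not_mem (R : Set Pt) (η : Env) (b : Pt) {n : ℕ} {y : ℤ} (hn : 1 ≤ n)
    (h : ((b.1 + n, b.2 + y) : Pt) ∉ R) : WR μ s R η b n y = 0 := by
  obtain ⟨m, rfl⟩ : ∃ m, n = m + 1 := ⟨n - 1, by omega⟩
  unfold WR
  have : Zr R η b (m + 1) y = 0 := by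
    rw [Zr, Set.indicator_of_notMem, zero_mul]
    push_cast at h
    exact h
  rw [this, mul_zero]

/-- Chapman-Kolmogorov for a finite set of sites of one time. -/
theorem wt_ck (η : Env) (S : Finset Pt) (τ : ℤ) (hS : ∀ v ∈ S, v.1 = τ) (p u : Pt)
    (hτ : τ ≤ u.1) : ∑ v ∈ S, wt μ s Set.univ η p v * wt μ s Set.univ η v u ≤
      wt μ s Set.univ η p u := by
  classical
  by_cases hp : p.1 ≤ τ
  · obtain ⟨m, hm⟩ : ∃ m : ℕ, τ = p.1 + m := ⟨(τ - p.1).toNat, by omega⟩
    obtain ⟨n, hn⟩ : ∃ n : ℕ, u.1 = τ + n := ⟨(u.1 - τ).toNat, by omega⟩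
    have hu : u.1 = p.1 + (m + n : ℕ) := by push_cast; omega
    rw [wt_eq Set.univ η hu]
    have hadd := WR_add (μ := μ) (s := s) Set.univ η p m n (u.2 - p.2)
    rw [hadd]
    -- the terms of the left sum with `v` reachable from `p`
    have h1 : ∑ v ∈ S, wt μ s Set.univ η p v * wt μ s Set.univ η v u =
        ∑ v ∈ S.filter (fun v => v.2 - p.2 ∈ Finset.Icc (0 : ℤ) m),
          wt μ s Set.univ η p v * wt μ s Set.univ η v u := by
      rw [Finset.sum_filter_of_ne]
      intro v hv hne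
      by_contra hcon
      apply hne
      have hv1 : v.1 = p.1 + m := by rw [hS v hv, hm]
      rw [wt_eq Set.univ η hv1, WR_out, zero_mul]
      intro h
      exact hcon (Finset.mem_Icc.mpr h)
    rw [h1]
    have h2 : ∑ v ∈ S.filter (fun v => v.2 - p.2 ∈ Finset.Icc (0 : ℤ) m),
          wt μ s Set.univ η p v * wt μ s Set.univ η v u =
        ∑ k ∈ (S.filter (fun v => v.2 - p.2 ∈ Finset.Icc (0 : ℤ) m)).image (fun v => v.2 - p.2),
          WR μ s Set.univ η p m k * WR μ s Set.univ η (p.1 + m, p.2 + k) n (u.2 - p.2 - k) := by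
      rw [Finset.sum_image]
      · apply Finset.sum_congr rfl
        intro v hv
        have hvS := (Finset.mem_filter.mp hv).1
        have hv1 : v.1 = p.1 + m := by rw [hS v hvS, hm]
        have hu1 : u.1 = v.1 + n := by rw [hS v hvS, hn]
        have e1 : ((p.1 + m, p.2 + (v.2 - p.2)) : Pt) = v := by
          ext
          · simp [hv1]
          · simp
        rw [wt_eq Set.univ η hv1, wt_eq Set.univ η hu1, e1]
        congr 2
        ring
      · intro v hv v' hv' hvv
        have hvS := (Finset.mem_filter.mp (Finset.mem_coe.mp hv)).1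
        have hvS' := (Finset.mem_filter.mp (Finset.mem_coe.mp hv')).1
        ext
        · rw [hS v hvS, hS v' hvS']
        · simpa using hvv
    rw [h2]
    apply Finset.sum_le_sum_of_subset_of_nonneg
    · intro k hk
      obtain ⟨v, hv, rfl⟩ := Finset.mem_image.mp hk
      exact (Finset.mem_filter.mp hv).2
    · intro k _ _
      exact mul_nonneg (WR_nonneg _ _ _ _ _) (WR_nonneg _ _ _ _ _)
  · have h0 : ∑ v ∈ S, wt μ s Set.univ η p v * wt μ s Set.univ η v u = 0 := by
      apply Finset.sum_eq_zero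
      intro v hv
      have : ¬ p.1 ≤ v.1 := by rw [hS v hv]; exact hp
      unfold wt
      rw [if_neg this, zero_mul]
    rw [h0]
    exact wt_nonneg _ _ _ _

/-- Decomposition of the weight inside `R` at the time `τ`. -/
theorem wt_dec (η : Env) (R : Set Pt) (b c : Pt) (hb : b ∈ R) (τ : ℤ) (h1 : b.1 ≤ τ)
    (h2 : τ ≤ c.1) (S : Finset Pt)
    (hS : ∀ q : ℤ, b.2 ≤ q → q - b.2 ≤ τ - b.1 → ((τ, q) : Pt) ∈ R → ((τ, q) : Pt) ∈ S) :
    wt μ s R η b c ≤ ∑ u ∈ S, wt μ s R η b u * wt μ s R η u c := by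
  classical
  obtain ⟨m, hm⟩ : ∃ m : ℕ, τ = b.1 + m := ⟨(τ - b.1).toNat, by omega⟩
  obtain ⟨n, hn⟩ : ∃ n : ℕ, c.1 = τ + n := ⟨(c.1 - τ).toNat, by omega⟩
  have hc : c.1 = b.1 + (m + n : ℕ) := by push_cast; omega
  rw [wt_eq R η hc, WR_add (μ := μ) (s := s) R η b m n (c.2 - b.2)]
  -- keep only the positions in R
  have hR : ∀ k ∈ Finset.Icc (0 : ℤ) m, ((b.1 + m, b.2 + k) : Pt) ∉ R →
      WR μ s R η b m k * WR μ s R η (b.1 + m, b.2 + k) n (c.2 - b.2 - k) = 0 := by
    intro k hk hkR
    rcases Nat.eq_zero_or_pos m with h0 | h0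
    · exfalso
      apply hkR
      subst h0
      have hk' := Finset.mem_Icc.mp hk
      have : k = 0 := by push_cast at hk'; omega
      subst this
      simpa using hb
    · rw [WR_not_mem R η b h0 hkR, zero_mul]
  have e1 : ∑ k ∈ Finset.Icc (0 : ℤ) m, WR μ s R η b m k *
      WR μ s R η (b.1 + m, b.2 + k) n (c.2 - b.2 - k) =
      ∑ k ∈ (Finset.Icc (0 : ℤ) m).filter (fun k => ((b.1 + m, b.2 + k) : Pt) ∈ R),
        WR μ s R η b m k * WR μ s R η (b.1 + m, b.2 + k) n (c.2 - b.2 - k) := by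
    rw [Finset.sum_filter_of_ne]
    intro k hk hne
    by_contra hcon
    exact hne (hR k hk hcon)
  rw [e1]
  have e2 : ∑ k ∈ (Finset.Icc (0 : ℤ) m).filter (fun k => ((b.1 + m, b.2 + k) : Pt) ∈ R),
        WR μ s R η b m k * WR μ s R η (b.1 + m, b.2 + k) n (c.2 - b.2 - k) =
      ∑ u ∈ ((Finset.Icc (0 : ℤ) m).filter (fun k => ((b.1 + m, b.2 + k) : Pt) ∈ R)).image
        (fun k => ((b.1 + m, b.2 + k) : Pt)), wt μ s R η b u * wt μ s R η u c := by
    rw [Finset.sum_image]
    · apply Finset.sum_congr rfl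
      intro k _
      have h3 : ((b.1 + m, b.2 + k) : Pt).1 = b.1 + m := rfl
      have h4 : c.1 = ((b.1 + m, b.2 + k) : Pt).1 + n := by simp only; omega
      rw [wt_eq R η h3, wt_eq R η h4]
      simp only
      congr 2
      · ring
      · ring
    · intro k _ k' _ hkk
      simpa using hkk
  rw [e2]
  apply Finset.sum_le_sum_of_subset_of_nonneg
  · intro u hu
    obtain ⟨k, hk, rfl⟩ := Finset.mem_image.mp hu
    have hk' := Finset.mem_filter.mp hk
    have hk'' := Finset.mem_Icc.mp hk'.1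
    rw [← hm]
    apply hS
    · omega
    · omega
    · rw [hm]; exact hk'.2
  · intro u _ _
    exact mul_nonneg (wt_nonneg _ _ _ _) (wt_nonneg _ _ _ _)


/-- The swap of two paths in one window. -/
theorem wt_swap (η : Env) (a b x y : Pt) (ha : a.1 = x.1) (hb : b.1 = y.1) (hxy : x.1 ≤ y.1)
    (h : (a.2 ≤ x.2 ∧ y.2 ≤ b.2) ∨ (x.2 ≤ a.2 ∧ b.2 ≤ y.2)) :
    wt μ s Set.univ η a b * wt μ s Set.univ η x y ≤ wt μ s Set.univ η a y * wt μ s Set.univ η x b := by
  obtain ⟨n, hn⟩ : ∃ n : ℕ, y.1 = x.1 + n := ⟨(y.1 - x.1).toNat, by omega⟩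
  rw [wt_eq Set.univ η (show b.1 = a.1 + n by omega), wt_eq Set.univ η hn,
    wt_eq Set.univ η (show y.1 = a.1 + n by omega), wt_eq Set.univ η (show b.1 = x.1 + n by omega)]
  obtain ⟨a1, a2⟩ := a
  obtain ⟨b1, b2⟩ := b
  obtain ⟨x1, x2⟩ := x
  obtain ⟨y1, y2⟩ := y
  simp only at ha hb h hn ⊢
  subst ha
  rcases h with h | h
  · exact W_tp2 (μ := μ) (s := s) η a1 a2 x2 n y2 b2 h.1 h.2
  · have h1 := W_tp2 (μ := μ) (s := s) η a1 x2 a2 n b2 y2 h.1 h.2
    unfold W at h1
    linarith [mul_comm (WR μ s Set.univ η (a1, a2) n (b2 - a2)) (WR μ s Set.univ η (a1, x2) n (y2 - x2)),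
      mul_comm (WR μ s Set.univ η (a1, a2) n (y2 - a2)) (WR μ s Set.univ η (a1, x2) n (b2 - x2))]

/-- The point to point weights have the properties used in the hook lemma. -/
theorem ker_wt (η : Env) : Ker (wt μ s Set.univ η) where
  nn := fun a b => wt_nonneg Set.univ η a b
  ck := fun S τ hS p u hu => wt_ck η S τ hS p u hu
  swap := fun a b x y ha hb hxy h => wt_swap η a b x y ha hb hxy h

/-- The sites of `R` at the time `τ` which can be reached from `p₀`. -/
noncomputable def Sites (R : Set Pt) (p₀ : Pt) (τ : ℤ) : Finset Pt :=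
  open Classical in ((Finset.Icc p₀.2 (p₀.2 + (τ - p₀.1))).image (fun q => ((τ, q) : Pt))).filter (fun p => p ∈ R)

theorem mem_Sites {R : Set Pt} {p₀ : Pt} {τ : ℤ} {v : Pt} :
    v ∈ Sites R p₀ τ ↔ v.1 = τ ∧ p₀.2 ≤ v.2 ∧ v.2 ≤ p₀.2 + (τ - p₀.1) ∧ v ∈ R := by
  classical
  have h0 : v ∈ Sites R p₀ τ ↔ v ∈ (Finset.Icc p₀.2 (p₀.2 + (τ - p₀.1))).image (fun q => ((τ, q) : Pt)) ∧ v ∈ R := by
    unfold Sites
    exact Finset.mem_filter
  rw [h0, Finset.mem_image]
  constructor
  · rintro ⟨⟨q, hq, rfl⟩, hR⟩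
    rw [Finset.mem_Icc] at hq
    exact ⟨rfl, hq.1, hq.2, hR⟩
  · rintro ⟨h1, h2, h3, h4⟩
    exact ⟨⟨v.2, Finset.mem_Icc.2 ⟨h2, h3⟩, Prod.ext h1.symm rfl⟩, h4⟩

/-- The hook lemma in the model. -/
theorem hook_wt (η : Env) (R : Set Pt) (Js : List Junc) (p q : Pt) (hOk : Ok p.1 Js q.1) :
    Pat (wt μ s R η) p Js q * Ref (wt μ s Set.univ η) Js ≤ Hk (wt μ s Set.univ η) p Js q :=
  (mul_le_mul_of_nonneg_right (Pat_mono (wt_nonneg R η) (wt_le R η) Js p q) (Ref_nonneg (wt_nonneg Set.univ η) Js)).trans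
    ((ker_wt η).hook Js p q hOk)

/-- The decomposition according to patterns in the model: `Os k` lists the junctions allowed in the window `τs k`; every pair of
sites of `R` at the two ends of the window is covered. -/
theorem cover_wt (η : Env) (R : Set Pt) (p q : Pt) (hp : p ∈ R) (Os : List (List Junc)) (τs : List (ℤ × ℤ))
    (hcov : List.Forall₂ (fun (O : List Junc) (τ : ℤ × ℤ) =>
      ∀ a ∈ Sites R p τ.1, ∀ b ∈ Sites R p τ.2, ∃ J ∈ O, a ∈ J.A ∧ b ∈ J.B) Os τs)
    (hτ : (p.1 :: τs.flatMap (fun τ => [τ.1, τ.2]) ++ [q.1]).Pairwise (· ≤ ·)) :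
    wt μ s R η p q ≤ (Os.sections.map fun Js => Pat (wt μ s R η) p Js q).sum := by
  refine cover_pat (wt_nonneg R η) q (Sites R p) (fun τ v hv => (mem_Sites.1 hv).1) (fun b τ hb h1 h2 => ?_) Os p τs
    (mem_Sites.2 ⟨rfl, le_rfl, by omega, hp⟩) hcov hτ
  obtain ⟨_, hb2, hb3, hb4⟩ := mem_Sites.1 hb
  refine wt_dec η R b q hb4 τ h1 h2 _ fun y hy1 hy2 hy3 => mem_Sites.2 ⟨rfl, ?_, ?_, hy3⟩
  · simp only
    omega
  · simp only
    omega

/-- The junction inequality: if for every pattern the hooked weight is at most `M` times the weight of the references, then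
the weight of all the paths is at most `M` times the number of patterns. -/
theorem hook_cover (η : Env) (R : Set Pt) (p q : Pt) (hp : p ∈ R) (Os : List (List Junc)) (τs : List (ℤ × ℤ))
    (hcov : List.Forall₂ (fun (O : List Junc) (τ : ℤ × ℤ) =>
      ∀ a ∈ Sites R p τ.1, ∀ b ∈ Sites R p τ.2, ∃ J ∈ O, a ∈ J.A ∧ b ∈ J.B) Os τs)
    (hτ : (p.1 :: τs.flatMap (fun τ => [τ.1, τ.2]) ++ [q.1]).Pairwise (· ≤ ·)) {M : ℝ}
    (hM : ∀ Js ∈ Os.sections, Ok p.1 Js q.1 ∧ 0 < Ref (wt μ s Set.univ η) Js ∧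
      Hk (wt μ s Set.univ η) p Js q ≤ M * Ref (wt μ s Set.univ η) Js) :
    wt μ s R η p q ≤ Os.sections.length * M := by
  refine (cover_wt η R p q hp Os τs hcov hτ).trans ?_
  have h := List.sum_le_card_nsmul (Os.sections.map fun Js => Pat (wt μ s R η) p Js q) M fun x hx => by
    obtain ⟨Js, hJs, rfl⟩ := List.mem_map.1 hx
    obtain ⟨h1, h2, h3⟩ := hM Js hJs
    exact le_of_mul_le_mul_right ((hook_wt η R Js p q h1).trans h3) h2
  rw [List.length_map, nsmul_eq_mul] at h
  exact h

end Pool.Agent.W_7d29a1_g
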