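import Pool.Agent.W_7d29a1_g.Hook
import Pool.Agent.W_7d29a1_h4g.LawLA
import Pool.Agent.W_7d29a1_F.CoreD3

/-!
Track G: the hook lemma in the mean. The logarithms of the weights of `Hook.lean` are integrable (`Poly`), so the
inequality `Pat * Ref ≤ Hk` becomes: the mean costs of the hooked pieces are at most the mean cost of the paths with
the junctions plus the mean costs of the references.
-/

namespace Pool.Agent.W_7d29a1_g

open MeasureTheory ProbabilityTheory
open Pool.Agent.W_7d29a1_F Pool.Agent.W_7d29a1_h4g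

variable {μ : Measure ℝ} {s : ℝ}

/-- `q` can be reached from `p`. -/
def Adm (p q : Pt) : Prop := p.1 ≤ q.1 ∧ 0 ≤ q.2 - p.2 ∧ q.2 - p.2 ≤ q.1 - p.1

/-- The mean cost from `p` to `q`. -/
noncomputable def ee (μ : Measure ℝ) (s : ℝ) (p q : Pt) : ℝ := e μ s (q.1 - p.1).toNat (q.2 - p.2)

theorem wt_univ {p q : Pt} (h : p.1 ≤ q.1) (η : Env) :
    wt μ s Set.univ η p q = W μ s η p (q.1 - p.1).toNat (q.2 - p.2) := by
  unfold wt
  rw [if_pos h]
  rfl

theorem wt_pos {p q : Pt} (h : Adm p q) (η : Env) : 0 < wt μ s Set.univ η p q := by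
  obtain ⟨h1, h2, h3⟩ := h
  rw [wt_univ h1]
  exact W_pos η p h2 (by omega)

theorem adm_of_pos {p q : Pt} {η : Env} (h : 0 < wt μ s Set.univ η p q) : Adm p q := by
  by_cases h1 : p.1 ≤ q.1
  · rw [wt_univ h1] at h
    by_contra hcon
    rw [W_eq_zero η p (n := (q.1 - p.1).toNat) (y := q.2 - p.2)] at h
    · exact lt_irrefl _ h
    · intro h2
      exact hcon ⟨h1, h2.1, by have := h2.2; omega⟩
  · unfold wt at h
    rw [if_neg h1] at h
    exact absurd h (lt_irrefl _)

theorem wt_sub {p q : Pt} (h : Adm p q) : Sub fun η => Real.log (wt μ s Set.univ η p q) := by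
  obtain ⟨h1, h2, h3⟩ := h
  have h4 := (Sub_X (μ := μ) (s := s) p (n := (q.1 - p.1).toNat) (y := q.2 - p.2) h2 (by omega)).neg
  have h5 : (fun η : Env => -X μ s η p (q.1 - p.1).toNat (q.2 - p.2)) =
      fun η => Real.log (wt μ s Set.univ η p q) := by
    funext η
    rw [wt_univ h1]
    unfold X
    rw [neg_neg]
  rw [← h5]
  exact h4

theorem int_wt [IsProbabilityMeasure μ] {p q : Pt} (h : Adm p q) :
    ∫ η, Real.log (wt μ s Set.univ η p q) ∂(law μ) = -ee μ s p q := by
  obtain ⟨h1, _, _⟩ := h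
  have h4 := integral_X (μ := μ) (s := s) p (q.1 - p.1).toNat (q.2 - p.2)
  unfold ee
  rw [← h4, ← integral_neg]
  refine integral_congr_ae (Filter.Eventually.of_forall fun η => ?_)
  show Real.log (wt μ s Set.univ η p q) = -X μ s η p (q.1 - p.1).toNat (q.2 - p.2)
  rw [wt_univ h1]
  unfold X
  rw [neg_neg]

/-- The hooked pieces can be made. -/
def HkAdm : Pt → List Junc → Pt → Prop
  | p, [], q => Adm p q
  | p, J :: Js, q => Adm p J.t ∧ HkAdm J.s Js q

/-- The references can be made. -/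
def RefAdm : List Junc → Prop
  | [] => True
  | J :: Js => Adm J.s J.t ∧ RefAdm Js

/-- The mean cost of the hooked pieces. -/
noncomputable def HkE (μ : Measure ℝ) (s : ℝ) : Pt → List Junc → Pt → ℝ
  | p, [], q => ee μ s p q
  | p, J :: Js, q => ee μ s p J.t + HkE μ s J.s Js q

/-- The mean cost of the references. -/
noncomputable def RefE (μ : Measure ℝ) (s : ℝ) : List Junc → ℝ
  | [] => 0
  | J :: Js => ee μ s J.s J.t + RefE μ s Js

theorem hk_adm_of_pos {η : Env} : ∀ (Js : List Junc) (p q : Pt), 0 < Hk (wt μ s Set.univ η) p Js q →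
    HkAdm p Js q := by
  intro Js
  induction Js with
  | nil =>
    intro p q h
    exact adm_of_pos h
  | cons J Js ih =>
    intro p q h
    have h' : 0 < wt μ s Set.univ η p J.t * Hk (wt μ s Set.univ η) J.s Js q := h
    have n1 := wt_nonneg (μ := μ) (s := s) Set.univ η p J.t
    have h1 : 0 < wt μ s Set.univ η p J.t := by
      rcases n1.lt_or_eq with h2 | h2
      · exact h2
      · rw [← h2, zero_mul] at h'
        exact absurd h' (lt_irrefl _)
    exact ⟨adm_of_pos h1, ih J.s q (pos_of_mul_pos_right h' n1)⟩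

theorem hk_log [IsProbabilityMeasure μ] (hμ : Pool.Agent.W_7d29a1_h47.EM μ) :
    ∀ (Js : List Junc) (p q : Pt), HkAdm p Js q → (∀ η : Env, 0 < Hk (wt μ s Set.univ η) p Js q) ∧
      Sub (fun η => Real.log (Hk (wt μ s Set.univ η) p Js q)) ∧
      ∫ η, Real.log (Hk (wt μ s Set.univ η) p Js q) ∂(law μ) = -HkE μ s p Js q := by
  intro Js
  induction Js with
  | nil =>
    intro p q h
    exact ⟨fun η => wt_pos h η, wt_sub h, int_wt h⟩
  | cons J Js ih =>
    intro p q h
    obtain ⟨h1, h2⟩ := h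
    obtain ⟨i1, i2, i3⟩ := ih J.s q h2
    have e1 : (fun η : Env => Real.log (Hk (wt μ s Set.univ η) p (J :: Js) q)) =
        fun η => Real.log (wt μ s Set.univ η p J.t) + Real.log (Hk (wt μ s Set.univ η) J.s Js q) := by
      funext η
      exact Real.log_mul (wt_pos h1 η).ne' (i1 η).ne'
    refine ⟨fun η => mul_pos (wt_pos h1 η) (i1 η), ?_, ?_⟩
    · rw [e1]
      exact (wt_sub h1).add i2
    · rw [e1, integral_add ((wt_sub h1).integrable hμ) (i2.integrable hμ), i3, int_wt h1]
      show -ee μ s p J.t + -HkE μ s J.s Js q = -(ee μ s p J.t + HkE μ s J.s Js q)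
      ring

theorem ref_log [IsProbabilityMeasure μ] (hμ : Pool.Agent.W_7d29a1_h47.EM μ) :
    ∀ Js : List Junc, RefAdm Js → (∀ η : Env, 0 < Ref (wt μ s Set.univ η) Js) ∧
      Sub (fun η => Real.log (Ref (wt μ s Set.univ η) Js)) ∧
      ∫ η, Real.log (Ref (wt μ s Set.univ η) Js) ∂(law μ) = -RefE μ s Js := by
  intro Js
  induction Js with
  | nil =>
    intro _
    have e1 : (fun η : Env => Real.log (Ref (wt μ s Set.univ η) [])) = fun _ => 0 := by
      funext η
      exact Real.log_one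
    refine ⟨fun η => one_pos, ?_, ?_⟩
    · rw [e1]
      exact Sub.const 0
    · rw [e1]
      simp [RefE]
  | cons J Js ih =>
    intro h
    obtain ⟨h1, h2⟩ := h
    obtain ⟨i1, i2, i3⟩ := ih h2
    have e1 : (fun η : Env => Real.log (Ref (wt μ s Set.univ η) (J :: Js))) =
        fun η => Real.log (wt μ s Set.univ η J.s J.t) + Real.log (Ref (wt μ s Set.univ η) Js) := by
      funext η
      exact Real.log_mul (wt_pos h1 η).ne' (i1 η).ne'
    refine ⟨fun η => mul_pos (wt_pos h1 η) (i1 η), ?_, ?_⟩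
    · rw [e1]
      exact (wt_sub h1).add i2
    · rw [e1, integral_add ((wt_sub h1).integrable hμ) (i2.integrable hμ), i3, int_wt h1]
      show -ee μ s J.s J.t + -RefE μ s Js = -(ee μ s J.s J.t + RefE μ s Js)
      ring

theorem poly_wt (R : Set Pt) (p q : Pt) : Poly (rows p.1 q.1) fun η => wt μ s R η p q := by
  by_cases h : p.1 ≤ q.1
  · have h1 := poly_WR (μ := μ) (s := s) R p (q.1 - p.1).toNat (q.2 - p.2)
    refine Poly.congr (Poly.mono h1 ?_) fun η => ?_
    · rintro x ⟨h2, h3, _, _⟩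
      exact ⟨h2, by omega⟩
    · unfold wt
      rw [if_pos h]
  · refine Poly.congr (Poly.zero _) fun η => ?_
    unfold wt
    rw [if_neg h]

theorem ok_le : ∀ (Js : List Junc) {τ τ' : ℤ}, Ok τ Js τ' → τ ≤ τ' := by
  intro Js
  induction Js with
  | nil => intro τ τ' h; exact h
  | cons J Js ih =>
    intro τ τ' h
    obtain ⟨h1, h2, _, _, _, h6⟩ := h
    exact h1.trans (h2.trans (ih h6))

/-- The weight of the paths with junctions is a sum of path weights. -/
theorem poly_Pat (R : Set Pt) : ∀ (Js : List Junc) (p q : Pt), Ok p.1 Js q.1 →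
    Poly (rows p.1 q.1) fun η => Pat (wt μ s R η) p Js q := by
  intro Js
  induction Js with
  | nil =>
    intro p q _
    exact poly_wt R p q
  | cons J Js ih =>
    intro p q h
    obtain ⟨h1, h2, h3, h4, _, h6⟩ := h
    have h7 := ok_le Js h6
    refine Poly.sum J.A fun a ha => Poly.sum J.B fun b hb => ?_
    have ha1 := h3 a ha
    have hb1 := h4 b hb
    have k1 := poly_wt (μ := μ) (s := s) R p a
    have k2 := poly_wt (μ := μ) (s := s) R a b
    have k3 := ih b q (by rw [hb1]; exact h6)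
    have d1 : Disjoint (rows p.1 a.1) (rows a.1 b.1) := by
      rw [Set.disjoint_left]
      rintro x ⟨_, x2⟩ ⟨x3, _⟩
      omega
    have d2 : Disjoint (rows p.1 a.1 ∪ rows a.1 b.1) (rows b.1 q.1) := by
      rw [Set.disjoint_left]
      rintro x hx ⟨x3, _⟩
      rcases hx with ⟨_, x2⟩ | ⟨_, x2⟩
      · omega
      · omega
    refine ((k1.mul k2 d1).mul k3 d2).mono ?_
    rintro x ((⟨x1, x2⟩ | ⟨x1, x2⟩) | ⟨x1, x2⟩)
    · exact ⟨x1, by omega⟩
    · exact ⟨by omega, by omega⟩
    · exact ⟨by omega, x2⟩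

/-- The hook lemma in the mean. -/
theorem hook_mean [IsProbabilityMeasure μ] (hμ : Pool.Agent.W_7d29a1_h47.EM μ) (R : Set Pt) (Js : List Junc)
    (p q : Pt) (hOk : Ok p.1 Js q.1) (hR : RefAdm Js) (hpos : ∀ η : Env, 0 < Pat (wt μ s R η) p Js q) :
    HkAdm p Js q ∧ HkE μ s p Js q ≤
      (∫ η, -Real.log (Pat (wt μ s R η) p Js q) ∂(law μ)) + RefE μ s Js := by
  obtain ⟨r1, r2, r3⟩ := ref_log (s := s) hμ Js hR
  have hh := fun η : Env => hook_wt (μ := μ) (s := s) η R Js p q hOk
  have hA : HkAdm p Js q :=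
    hk_adm_of_pos (η := (0 : Env)) Js p q ((mul_pos (hpos 0) (r1 0)).trans_le (hh 0))
  obtain ⟨k1, k2, k3⟩ := hk_log (s := s) hμ Js p q hA
  have p2 := (poly_Pat (μ := μ) (s := s) R Js p q hOk).sub_log hpos
  refine ⟨hA, ?_⟩
  have h1 : ∀ η : Env, Real.log (Pat (wt μ s R η) p Js q) + Real.log (Ref (wt μ s Set.univ η) Js) ≤
      Real.log (Hk (wt μ s Set.univ η) p Js q) := by
    intro η
    rw [← Real.log_mul (hpos η).ne' (r1 η).ne']
    exact Real.log_le_log (mul_pos (hpos η) (r1 η)) (hh η)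
  have h2 := integral_mono ((p2.integrable hμ).add (r2.integrable hμ)) (k2.integrable hμ) h1
  have h3 : ∫ η, (Real.log (Pat (wt μ s R η) p Js q) + Real.log (Ref (wt μ s Set.univ η) Js)) ∂(law μ) =
      ∫ η, Real.log (Pat (wt μ s R η) p Js q) ∂(law μ) + ∫ η, Real.log (Ref (wt μ s Set.univ η) Js) ∂(law μ) :=
    integral_add (p2.integrable hμ) (r2.integrable hμ)
  have h4 : ∫ η, (Real.log (Pat (wt μ s R η) p Js q) + Real.log (Ref (wt μ s Set.univ η) Js)) ∂(law μ) ≤
      ∫ η, Real.log (Hk (wt μ s Set.univ η) p Js q) ∂(law μ) := h2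
  rw [h3, r3, k3] at h4
  rw [integral_neg]
  linarith

/-- The region `R` forces the junctions: all its sites at the two ends of a window are in the sets of the junction. -/
def Forces (R : Set Pt) (p : Pt) (Js : List Junc) : Prop :=
  ∀ J ∈ Js, (∀ a ∈ Sites R p J.s.1, a ∈ J.A) ∧ ∀ b ∈ Sites R p J.t.1, b ∈ J.B

/-- If the region forces the junctions, all the paths in the region have them. -/
theorem wt_le_Pat (η : Env) (R : Set Pt) : ∀ (Js : List Junc) (p q : Pt), p ∈ R → Ok p.1 Js q.1 →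
    Forces R p Js → wt μ s R η p q ≤ Pat (wt μ s R η) p Js q := by
  intro Js
  induction Js with
  | nil =>
    intro p q _ _ _
    exact le_rfl
  | cons J Js ih =>
    intro p q hp hOk hF
    obtain ⟨h1, h2, h3, h4, _, h6⟩ := hOk
    have h7 := ok_le Js h6
    have hJ := hF J (List.mem_cons_self)
    have d1 := wt_dec (μ := μ) (s := s) η R p q hp J.s.1 h1 (h2.trans h7) (Sites R p J.s.1)
      (fun x hx1 hx2 hx3 => mem_Sites.2 ⟨rfl, hx1, by simp only; omega, hx3⟩)
    have hnn := wt_nonneg (μ := μ) (s := s) R η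
    calc wt μ s R η p q
        ≤ ∑ a ∈ Sites R p J.s.1, wt μ s R η p a * wt μ s R η a q := d1
      _ ≤ ∑ a ∈ Sites R p J.s.1, ∑ b ∈ Sites R p J.t.1, wt μ s R η p a * wt μ s R η a b *
            Pat (wt μ s R η) b Js q := by
          refine Finset.sum_le_sum fun a ha => ?_
          obtain ⟨a1, a2, a3, a4⟩ := mem_Sites.1 ha
          have d2 := wt_dec (μ := μ) (s := s) η R a q a4 J.t.1 (by omega) h7 (Sites R p J.t.1)
            (fun x hx1 hx2 hx3 => mem_Sites.2 ⟨rfl, by simp only; omega, by simp only; omega, hx3⟩)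
          calc wt μ s R η p a * wt μ s R η a q
              ≤ wt μ s R η p a * ∑ b ∈ Sites R p J.t.1, wt μ s R η a b * wt μ s R η b q :=
                mul_le_mul_of_nonneg_left d2 (hnn _ _)
            _ = ∑ b ∈ Sites R p J.t.1, wt μ s R η p a * wt μ s R η a b * wt μ s R η b q := by
                rw [Finset.mul_sum]
                exact Finset.sum_congr rfl fun b _ => by ring
            _ ≤ _ := by
                refine Finset.sum_le_sum fun b hb => ?_
                obtain ⟨b1, b2, b3, b4⟩ := mem_Sites.1 hb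
                refine mul_le_mul_of_nonneg_left ?_ (mul_nonneg (hnn _ _) (hnn _ _))
                refine ih b q b4 (by rw [b1]; exact h6) fun J' hJ' => ?_
                have hJ2 := hF J' (List.mem_cons_of_mem _ hJ')
                refine ⟨fun x hx => hJ2.1 x ?_, fun x hx => hJ2.2 x ?_⟩
                · obtain ⟨x1, x2, x3, x4⟩ := mem_Sites.1 hx
                  exact mem_Sites.2 ⟨x1, by omega, by omega, x4⟩
                · obtain ⟨x1, x2, x3, x4⟩ := mem_Sites.1 hx
                  exact mem_Sites.2 ⟨x1, by omega, by omega, x4⟩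
      _ ≤ ∑ a ∈ J.A, ∑ b ∈ J.B, wt μ s R η p a * wt μ s R η a b * Pat (wt μ s R η) b Js q := by
          have hnn' : ∀ a b, 0 ≤ wt μ s R η p a * wt μ s R η a b * Pat (wt μ s R η) b Js q := fun a b =>
            mul_nonneg (mul_nonneg (hnn _ _) (hnn _ _)) (Pat_nonneg hnn _ _ _)
          refine (Finset.sum_le_sum_of_subset_of_nonneg (fun a ha => hJ.1 a ha) fun a _ _ =>
            Finset.sum_nonneg fun b _ => hnn' a b).trans (Finset.sum_le_sum fun a _ => ?_)
          exact Finset.sum_le_sum_of_subset_of_nonneg (fun b hb => hJ.2 b hb) fun b _ _ => hnn' a b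

/-- The crossing inequality in the mean for a region which forces the junctions (windows of any lengths, references on
any side). -/
theorem hook_mean_region [IsProbabilityMeasure μ] (hμ : Pool.Agent.W_7d29a1_h47.EM μ) (R : Set Pt)
    (Js : List Junc) (p q : Pt) (hp : p ∈ R) (hOk : Ok p.1 Js q.1) (hR : RefAdm Js) (hF : Forces R p Js)
    (hpos : ∀ η : Env, 0 < wt μ s R η p q) :
    HkAdm p Js q ∧ HkE μ s p Js q ≤ (∫ η, -Real.log (wt μ s R η p q) ∂(law μ)) + RefE μ s Js := by
  have h1 := fun η : Env => wt_le_Pat (μ := μ) (s := s) η R Js p q hp hOk hF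
  obtain ⟨h2, h3⟩ := hook_mean hμ R Js p q hOk hR fun η => (hpos η).trans_le (h1 η)
  refine ⟨h2, h3.trans (add_le_add ?_ le_rfl)⟩
  have p1 := ((poly_Pat (μ := μ) (s := s) R Js p q hOk).sub_log fun η => (hpos η).trans_le (h1 η)).neg
  have p2 := ((poly_wt (μ := μ) (s := s) R p q).sub_log hpos).neg
  refine integral_mono (p1.integrable hμ) (p2.integrable hμ) fun η => ?_
  exact neg_le_neg (Real.log_le_log (hpos η) (h1 η))

end Pool.Agent.W_7d29a1_g
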