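import Pool.Agent.W_7d29a1_g.Hook
import Pool.Agent.W_7d29a1_g.CrossMean

/-!
MP_7d29a1_pr (G+, track G, D4 S3 and S4): the junction inequality with slow references. A path from `P` to `Q` inside a region `R` is cut at
`M - 1` windows of length `n'`; at each window it lies in one of `J` cells of width `w`; the references have displacement `h` or `h - w`. All
pieces have the duration `L`. The cost of the path is at least the sum of the costs of the pieces minus the costs of the references.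
-/

set_option autoImplicit false

open Finset MeasureTheory

namespace Pool.Agent.W_7d29a1_g

open Pool.Agent.W_7d29a1_F

variable {μ : Measure ℝ} {s : ℝ}

/-- Truncation to `[0, b]`. -/
noncomputable def clp (b x : ℝ) : ℝ := max 0 (min x b)

theorem clp_nonneg (b x : ℝ) : 0 ≤ clp b x := le_max_left _ _

theorem clp_mono {b x y : ℝ} (h : x ≤ y) : clp b x ≤ clp b y := max_le_max le_rfl (min_le_min h le_rfl)

theorem clp_add (b x y : ℝ) : clp b (x + y) ≤ clp b x + clp b y := by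
  unfold clp
  rcases le_total 0 x with hx | hx
  · rcases le_total 0 y with hy | hy
    · refine max_le (add_nonneg (le_max_left _ _) (le_max_left _ _)) ?_
      rcases le_total x b with h1 | h1
      · rcases le_total y b with h2 | h2
        · rw [min_eq_left h1, min_eq_left h2]
          exact (min_le_left _ _).trans (add_le_add (le_max_right _ _) (le_max_right _ _))
        · rw [min_eq_right h2]
          exact (min_le_right _ _).trans ((le_max_right 0 b).trans (le_add_of_nonneg_left (le_max_left _ _)))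
      · rw [min_eq_right h1]
        exact (min_le_right _ _).trans ((le_max_right 0 b).trans (le_add_of_nonneg_right (le_max_left _ _)))
    · refine (max_le_max le_rfl (min_le_min (by linarith : x + y ≤ x) le_rfl)).trans ?_
      exact le_add_of_nonneg_right (le_max_left _ _)
  · refine (max_le_max le_rfl (min_le_min (by linarith : x + y ≤ y) le_rfl)).trans ?_
    exact le_add_of_nonneg_left (le_max_left _ _)

/-- The geometry of the junctions: windows `[k L', k L' + n']`, cells `[lo k + j w, lo k + (j + 1) w]`, `j < J`, displacement `h` of the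
references. -/
structure Geo where
  L' : ℕ
  n' : ℕ
  w : ℕ
  J : ℕ
  h : ℤ
  lo : ℕ → ℤ

namespace Geo

variable (G : Geo)

/-- The mesh point `j` of the window `k`. -/
def c (k j : ℕ) : ℤ := G.lo k + j * G.w

/-- The start of the reference of the cell `j`, to the right (`b = true`) or to the left of the cell. -/
def st (k j : ℕ) (b : Bool) : Pt := (((k * G.L' : ℕ) : ℤ), G.c k (if b then j + 1 else j))

/-- The end of the references of the cell `j`. -/
def en (k j : ℕ) : Pt := (((k * G.L' + G.n' : ℕ) : ℤ), G.c k j + G.h)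

/-- The junction of the cell `j`; `b = true`: the path ends to the right of the end of the reference. -/
noncomputable def junc (R : Set Pt) (P : Pt) (k j : ℕ) (b : Bool) : Junc where
  A := (Sites R P (k * G.L' : ℕ)).filter fun a => G.c k j ≤ a.2 ∧ a.2 ≤ G.c k (j + 1)
  B := (Sites R P (k * G.L' + G.n' : ℕ)).filter fun a => if b then G.c k j + G.h ≤ a.2 else a.2 ≤ G.c k j + G.h
  s := G.st k j b
  t := G.en k j

/-- The junctions of the window `k`. -/
noncomputable def opts (R : Set Pt) (P : Pt) (k : ℕ) : List Junc :=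
  (List.range G.J).flatMap fun j => [G.junc R P k j true, G.junc R P k j false]

theorem mem_opts {R : Set Pt} {P : Pt} {k : ℕ} {Jn : Junc} :
    Jn ∈ G.opts R P k ↔ ∃ j < G.J, ∃ b : Bool, Jn = G.junc R P k j b := by
  unfold opts
  rw [List.mem_flatMap]
  constructor
  · rintro ⟨j, hj, hJ⟩
    rw [List.mem_range] at hj
    simp only [List.mem_cons, List.not_mem_nil, or_false] at hJ
    rcases hJ with hJ | hJ
    · exact ⟨j, hj, true, hJ⟩
    · exact ⟨j, hj, false, hJ⟩
  · rintro ⟨j, hj, b, hb⟩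
    refine ⟨j, List.mem_range.2 hj, ?_⟩
    cases b
    · simp [hb]
    · simp [hb]

theorem length_opts (R : Set Pt) (P : Pt) (k : ℕ) : (G.opts R P k).length = 2 * G.J := by
  unfold opts
  induction G.J with
  | zero => simp
  | succ n ih =>
    rw [List.range_succ, List.flatMap_append, List.length_append, ih]
    simp
    ring

/-- The junctions of the windows `k, k + 1, …, k + m - 1`. -/
noncomputable def Os (R : Set Pt) (P : Pt) : ℕ → ℕ → List (List Junc)
  | _, 0 => []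
  | k, m + 1 => G.opts R P k :: Os R P (k + 1) m

theorem length_Os_sections (R : Set Pt) (P : Pt) (m : ℕ) : ∀ k, (G.Os R P k m).sections.length = (2 * G.J) ^ m := by
  induction m with
  | zero => intro k; simp [Os]
  | succ m ih =>
    intro k
    rw [Os, List.sections]
    have h : ∀ L : List (List Junc), (L.flatMap fun s => (G.opts R P k).map fun a => a :: s).length = L.length * (2 * G.J) := by
      intro L
      induction L with
      | nil => simp
      | cons s L ih2 =>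
        rw [List.flatMap_cons, List.length_append, ih2, List.length_map, length_opts, List.length_cons]
        ring
    rw [h, ih, pow_succ]

/-- The windows are ordered and the references are in crossing position. -/
theorem ok_sections {R : Set Pt} {P Q : Pt} (hn : G.n' ≤ G.L') {M : ℕ} (hQ : Q.1 = ((M + 1) * G.L' + G.n' : ℕ)) : ∀ m k : ℕ,
    k + m = M + 1 → ∀ Js ∈ (G.Os R P k m).sections, ∀ τ : ℤ, τ ≤ (k * G.L' : ℕ) → Ok τ Js Q.1 := by
  intro m
  induction m with
  | zero =>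
    intro k hk Js hJs τ hτ
    simp only [Os, List.sections, List.mem_singleton] at hJs
    subst hJs
    show τ ≤ Q.1
    rw [hQ]
    have : k = M + 1 := by omega
    subst this
    push_cast at hτ ⊢
    omega
  | succ m ih =>
    intro k hk Js hJs τ hτ
    rw [Os, List.sections, List.mem_flatMap] at hJs
    obtain ⟨Js', hJs', hJs⟩ := hJs
    rw [List.mem_map] at hJs
    obtain ⟨Jn, hJn, rfl⟩ := hJs
    rw [mem_opts] at hJn
    obtain ⟨j, hj, b, rfl⟩ := hJn
    refine ⟨hτ, ?_, fun a ha => ?_, fun a ha => ?_, ?_, ?_⟩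
    · show ((k * G.L' : ℕ) : ℤ) ≤ ((k * G.L' + G.n' : ℕ) : ℤ)
      push_cast
      omega
    · exact (mem_Sites.1 (mem_filter.1 ha).1).1
    · exact (mem_Sites.1 (mem_filter.1 ha).1).1
    · cases b
      · right
        refine ⟨fun a ha => (mem_filter.1 ha).2.1, fun a ha => ?_⟩
        have := (mem_filter.1 ha).2
        simp only [Bool.false_eq_true, if_false] at this
        exact this
      · left
        refine ⟨fun a ha => (mem_filter.1 ha).2.2, fun a ha => ?_⟩
        have := (mem_filter.1 ha).2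
        simp only [if_true] at this
        exact this
    · refine ih (k + 1) (by omega) Js' hJs' _ ?_
      show ((k * G.L' + G.n' : ℕ) : ℤ) ≤ (((k + 1) * G.L' : ℕ) : ℤ)
      have h1 : (G.n' : ℤ) ≤ G.L' := by exact_mod_cast hn
      push_cast
      nlinarith

/-- The bound of the hooked weights: `m' + σ d` truncated to `[0, β]` is a lower bound of the cost of the displacement `d` in time `L`, `r` is
an upper bound of the cost of the references. -/
theorem hk_le {K : Pt → Pt → ℝ} (hK : ∀ a b, 0 ≤ K a b) {R : Set Pt} {P Q : Pt} {M : ℕ} {m' σ r ζ β : ℝ} (hσ : 0 ≤ σ)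
    (h1 : ∀ k j b j', 1 ≤ k → k < M → j < G.J → j' < G.J →
      K (G.st k j b) (G.en (k + 1) j') ≤ Real.exp (-clp β (m' + σ * ((G.en (k + 1) j').2 - (G.st k j b).2 : ℤ)) + ζ))
    (h2 : ∀ j b, j < G.J → K (G.st M j b) Q ≤ Real.exp (-clp β (m' + σ * (Q.2 - (G.st M j b).2 : ℤ)) + ζ))
    (hr : ∀ k j b, 1 ≤ k → k ≤ M → j < G.J → Real.exp (-r - ζ) ≤ K (G.st k j b) (G.en k j)) : ∀ m k : ℕ, 1 ≤ k → k + m = M + 1 →
    ∀ p : Pt, (∀ j < G.J, k ≤ M → K p (G.en k j) ≤ Real.exp (-clp β (m' + σ * ((G.en k j).2 - p.2 : ℤ)) + ζ)) →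
      (m = 0 → K p Q ≤ Real.exp (-clp β (m' + σ * (Q.2 - p.2 : ℤ)) + ζ)) →
    ∀ Js ∈ (G.Os R P k m).sections, 0 < Ref K Js ∧
      Hk K p Js Q ≤ Real.exp (-clp β ((m + 1) * m' + σ * ((Q.2 - p.2 : ℤ) + m * (G.h - G.w : ℤ))) + (m + 1) * ζ
        + m * (r + ζ)) * Ref K Js := by
  intro m
  induction m with
  | zero =>
    intro k _ hk p _ hp Js hJs
    simp only [Os, List.sections, List.mem_singleton] at hJs
    subst hJs
    refine ⟨zero_lt_one, ?_⟩
    show K p Q ≤ _ * 1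
    rw [mul_one]
    refine (hp rfl).trans (Real.exp_le_exp.2 (le_of_eq ?_))
    have e1 : ((0 : ℕ) + 1 : ℝ) * m' + σ * ((Q.2 - p.2 : ℤ) + (0 : ℕ) * (G.h - G.w : ℤ)) = m' + σ * (Q.2 - p.2 : ℤ) := by
      simp
    rw [e1]
    simp
  | succ m ih =>
    intro k hk1 hk p hp _ Js hJs
    rw [Os, List.sections, List.mem_flatMap] at hJs
    obtain ⟨Js', hJs', hJs⟩ := hJs
    rw [List.mem_map] at hJs
    obtain ⟨Jn, hJn, rfl⟩ := hJs
    rw [mem_opts] at hJn
    obtain ⟨j, hj, b, rfl⟩ := hJn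
    have hkM : k ≤ M := by omega
    obtain ⟨g1, g2⟩ := ih (k + 1) (by omega) (by omega) (G.st k j b) (fun j' hj' hk' => h1 k j b j' hk1 (by omega) hj hj')
      (fun hm => by
        have : k = M := by omega
        subst this
        exact h2 j b hj) Js' hJs'
    have g3 := hr k j b hk1 hkM hj
    have g4 := hp j hj hkM
    refine ⟨mul_pos (lt_of_lt_of_le (Real.exp_pos _) g3) g1, ?_⟩
    show K p (G.en k j) * Hk K (G.st k j b) Js' Q ≤ _ * (K (G.st k j b) (G.en k j) * Ref K Js')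
    have g5 : K p (G.en k j) * Hk K (G.st k j b) Js' Q ≤
        Real.exp (-clp β (m' + σ * ((G.en k j).2 - p.2 : ℤ)) + ζ) *
          (Real.exp (-clp β ((m + 1) * m' + σ * ((Q.2 - (G.st k j b).2 : ℤ) + m * (G.h - G.w : ℤ))) + (m + 1) * ζ
            + m * (r + ζ)) * Ref K Js') := by
      refine mul_le_mul g4 g2 ?_ (Real.exp_pos _).le
      clear g2 g1 g3 g4
      have : ∀ (Js : List Junc) (p : Pt), 0 ≤ Hk K p Js Q := by
        intro Js
        induction Js with
        | nil => intro p; exact hK p Q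
        | cons J Js ih => intro p; exact mul_nonneg (hK _ _) (ih _)
      exact this _ _
    refine g5.trans ?_
    have g6 : Real.exp (-clp β (m' + σ * ((G.en k j).2 - p.2 : ℤ)) + ζ) *
          Real.exp (-clp β ((m + 1) * m' + σ * ((Q.2 - (G.st k j b).2 : ℤ) + m * (G.h - G.w : ℤ))) + (m + 1) * ζ
            + m * (r + ζ)) ≤
        Real.exp (-clp β (((m + 1 : ℕ) + 1) * m' + σ * ((Q.2 - p.2 : ℤ) + (m + 1 : ℕ) * (G.h - G.w : ℤ)))
          + ((m + 1 : ℕ) + 1) * ζ + (m + 1 : ℕ) * (r + ζ)) * Real.exp (-r - ζ) := by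
      rw [← Real.exp_add, ← Real.exp_add, Real.exp_le_exp]
      have g7 : (G.h - G.w : ℤ) ≤ (G.en k j).2 - (G.st k j b).2 := by
        unfold en st c
        cases b
        · simp only [Bool.false_eq_true, if_false]
          have : (0 : ℤ) ≤ G.w := by positivity
          linarith
        · simp only [if_true]
          push_cast
          linarith
      have g8 : ((G.h - G.w : ℤ) : ℝ) ≤ ((G.en k j).2 - (G.st k j b).2 : ℤ) := by exact_mod_cast g7
      have g9 := mul_le_mul_of_nonneg_left g8 hσ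
      have g10 : ((m + 1 : ℕ) + 1) * m' + σ * ((Q.2 - p.2 : ℤ) + (m + 1 : ℕ) * (G.h - G.w : ℤ)) ≤
          (m' + σ * ((G.en k j).2 - p.2 : ℤ)) + ((m + 1) * m' + σ * ((Q.2 - (G.st k j b).2 : ℤ) + m * (G.h - G.w : ℤ))) := by
        push_cast at g9 ⊢
        nlinarith
      have g11 := (clp_mono (b := β) g10).trans (clp_add β _ _)
      push_cast at g11 ⊢
      linarith
    calc Real.exp (-clp β (m' + σ * ((G.en k j).2 - p.2 : ℤ)) + ζ) *
          (Real.exp (-clp β ((m + 1) * m' + σ * ((Q.2 - (G.st k j b).2 : ℤ) + m * (G.h - G.w : ℤ))) + (m + 1) * ζ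
            + m * (r + ζ)) * Ref K Js')
        = (Real.exp (-clp β (m' + σ * ((G.en k j).2 - p.2 : ℤ)) + ζ) *
          Real.exp (-clp β ((m + 1) * m' + σ * ((Q.2 - (G.st k j b).2 : ℤ) + m * (G.h - G.w : ℤ))) + (m + 1) * ζ
            + m * (r + ζ))) * Ref K Js' := by ring
      _ ≤ (Real.exp (-clp β (((m + 1 : ℕ) + 1) * m' + σ * ((Q.2 - p.2 : ℤ) + (m + 1 : ℕ) * (G.h - G.w : ℤ)))
          + ((m + 1 : ℕ) + 1) * ζ + (m + 1 : ℕ) * (r + ζ)) * Real.exp (-r - ζ)) * Ref K Js' :=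
          mul_le_mul_of_nonneg_right g6 g1.le
      _ ≤ (Real.exp (-clp β (((m + 1 : ℕ) + 1) * m' + σ * ((Q.2 - p.2 : ℤ) + (m + 1 : ℕ) * (G.h - G.w : ℤ)))
          + ((m + 1 : ℕ) + 1) * ζ + (m + 1 : ℕ) * (r + ζ)) * K (G.st k j b) (G.en k j)) * Ref K Js' :=
          mul_le_mul_of_nonneg_right (mul_le_mul_of_nonneg_left g3 (Real.exp_pos _).le) g1.le
      _ = _ := by ring

/-- The ordered list of the times of the windows. -/
def times : ℕ → ℕ → List (ℤ × ℤ)
  | _, 0 => []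
  | k, m + 1 => (((k * G.L' : ℕ) : ℤ), ((k * G.L' + G.n' : ℕ) : ℤ)) :: times (k + 1) m

theorem times_le {m : ℕ} : ∀ {k : ℕ}, ∀ τ ∈ G.times k m, ((k * G.L' : ℕ) : ℤ) ≤ τ.1 ∧ τ.1 ≤ τ.2 ∧
    τ.2 ≤ (((k + m) * G.L' + G.n' : ℕ) : ℤ) := by
  induction m with
  | zero =>
    intro k τ hτ
    simp [times] at hτ
  | succ m ih =>
    intro k τ hτ
    rw [times, List.mem_cons] at hτ
    rcases hτ with rfl | hτ
    · refine ⟨le_rfl, ?_, ?_⟩
      · push_cast
        omega
      · show ((k * G.L' + G.n' : ℕ) : ℤ) ≤ (((k + (m + 1)) * G.L' + G.n' : ℕ) : ℤ)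
        have : (0 : ℤ) ≤ (m + 1) * G.L' := by positivity
        push_cast
        nlinarith
    · obtain ⟨h1, h2, h3⟩ := ih τ hτ
      refine ⟨le_trans ?_ h1, h2, h3.trans ?_⟩
      · have : (0 : ℤ) ≤ G.L' := by positivity
        push_cast
        nlinarith
      · rw [show k + 1 + m = k + (m + 1) by ring]

theorem times_pairwise (hn : G.n' ≤ G.L') {q : ℤ} : ∀ m k : ℕ, (((k + m) * G.L' + G.n' : ℕ) : ℤ) ≤ q →
    ((G.times k m).flatMap (fun τ => [τ.1, τ.2]) ++ [q]).Pairwise (· ≤ ·) := by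
  intro m
  induction m with
  | zero =>
    intro k _
    simp [times]
  | succ m ih =>
    intro k hq
    have h0 := ih (k + 1) (by rw [show k + 1 + m = k + (m + 1) by ring]; exact hq)
    have h1 : ∀ t ∈ (G.times (k + 1) m).flatMap (fun τ => [τ.1, τ.2]) ++ [q], ((k * G.L' + G.n' : ℕ) : ℤ) ≤ t := by
      intro t ht
      rw [List.mem_append, List.mem_flatMap, List.mem_singleton] at ht
      rcases ht with ⟨τ, hτ, ht⟩ | rfl
      · obtain ⟨g1, g2, _⟩ := G.times_le τ hτ
        have g3 : ((k * G.L' + G.n' : ℕ) : ℤ) ≤ (((k + 1) * G.L' : ℕ) : ℤ) := by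
          have : (G.n' : ℤ) ≤ G.L' := by exact_mod_cast hn
          push_cast
          nlinarith
        simp only [List.mem_cons, List.not_mem_nil, or_false] at ht
        rcases ht with rfl | rfl
        · exact g3.trans g1
        · exact (g3.trans g1).trans g2
      · refine le_trans ?_ hq
        have : (0 : ℤ) ≤ (m + 1) * G.L' := by positivity
        push_cast
        nlinarith
    rw [times, List.flatMap_cons]
    show (((k * G.L' : ℕ) : ℤ) :: ((k * G.L' + G.n' : ℕ) : ℤ) ::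
      ((G.times (k + 1) m).flatMap (fun τ => [τ.1, τ.2]) ++ [q])).Pairwise (· ≤ ·)
    rw [List.pairwise_cons, List.pairwise_cons]
    refine ⟨?_, h1, h0⟩
    intro t ht
    rw [List.mem_cons] at ht
    have g4 : ((k * G.L' : ℕ) : ℤ) ≤ ((k * G.L' + G.n' : ℕ) : ℤ) := by
      push_cast
      omega
    rcases ht with rfl | ht
    · exact g4
    · exact g4.trans (h1 t ht)

/-- The cells cover the sites of `R`. -/
theorem cover {R : Set Pt} {P : Pt} {M : ℕ}
    (hcov : ∀ k, 1 ≤ k → k ≤ M → ∀ a ∈ Sites R P (k * G.L' : ℕ), G.lo k ≤ a.2 ∧ a.2 ≤ G.lo k + G.J * G.w)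
    (hJ : 1 ≤ G.J) (hw : 1 ≤ G.w) : ∀ m k : ℕ, 1 ≤ k → k + m ≤ M + 1 → List.Forall₂ (fun (O : List Junc) (τ : ℤ × ℤ) =>
      ∀ a ∈ Sites R P τ.1, ∀ b ∈ Sites R P τ.2, ∃ J ∈ O, a ∈ J.A ∧ b ∈ J.B) (G.Os R P k m) (G.times k m) := by
  intro m
  induction m with
  | zero =>
    intro k _ _
    exact List.Forall₂.nil
  | succ m ih =>
    intro k hk hkm
    refine List.Forall₂.cons ?_ (ih (k + 1) (by omega) (by omega))
    intro a ha b hb
    obtain ⟨h1, h2⟩ := hcov k hk (by omega) a ha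
    -- the cell of `a`
    obtain ⟨j, hj, hj1, hj2⟩ : ∃ j < G.J, G.c k j ≤ a.2 ∧ a.2 ≤ G.c k (j + 1) := by
      have hw0 : (0 : ℤ) < G.w := by exact_mod_cast hw
      set i : ℕ := ((a.2 - G.lo k) / G.w).toNat with hi
      have hq0 : 0 ≤ (a.2 - G.lo k) / G.w := Int.ediv_nonneg (by omega) hw0.le
      have hi1 : (i : ℤ) = (a.2 - G.lo k) / G.w := Int.toNat_of_nonneg hq0
      have hdm := Int.mul_ediv_add_emod (a.2 - G.lo k) G.w
      have hm0 := Int.emod_nonneg (a.2 - G.lo k) hw0.ne'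
      have hm1 := Int.emod_lt_of_pos (a.2 - G.lo k) hw0
      rw [← hi1] at hdm
      by_cases hiJ : i < G.J
      · refine ⟨i, hiJ, ?_, ?_⟩
        · unfold c
          nlinarith
        · unfold c
          push_cast
          nlinarith
      · refine ⟨G.J - 1, by omega, ?_, ?_⟩
        · unfold c
          have h3 : ((G.J - 1 : ℕ) : ℤ) ≤ i := by omega
          have := mul_le_mul_of_nonneg_right h3 hw0.le
          nlinarith
        · unfold c
          rw [show G.J - 1 + 1 = G.J by omega]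
          exact h2
    rcases le_total (G.c k j + G.h) b.2 with h3 | h3
    · refine ⟨G.junc R P k j true, G.mem_opts.2 ⟨j, hj, true, rfl⟩, mem_filter.2 ⟨ha, hj1, hj2⟩, mem_filter.2 ⟨hb, ?_⟩⟩
      simpa using h3
    · refine ⟨G.junc R P k j false, G.mem_opts.2 ⟨j, hj, false, rfl⟩, mem_filter.2 ⟨ha, hj1, hj2⟩, mem_filter.2 ⟨hb, ?_⟩⟩
      simpa using h3

/-- The junction inequality for one environment: `M` windows, `M + 1` pieces. -/
theorem inner_point {η : Env} {R : Set Pt} {P Q : Pt} {M : ℕ} (hn : G.n' ≤ G.L') (hP : P ∈ R) (hP1 : P.1 = 0)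
    (hQ : Q.1 = ((M + 1) * G.L' + G.n' : ℕ))
    (hcov : ∀ k, 1 ≤ k → k ≤ M → ∀ a ∈ Sites R P (k * G.L' : ℕ), G.lo k ≤ a.2 ∧ a.2 ≤ G.lo k + G.J * G.w) (hJ : 1 ≤ G.J)
    (hw : 1 ≤ G.w)
    {m' σ r ζ β : ℝ} (hσ : 0 ≤ σ)
    (h0 : ∀ j < G.J, 1 ≤ M → wt μ s Set.univ η P (G.en 1 j) ≤ Real.exp (-clp β (m' + σ * ((G.en 1 j).2 - P.2 : ℤ)) + ζ))
    (h0' : M = 0 → wt μ s Set.univ η P Q ≤ Real.exp (-clp β (m' + σ * (Q.2 - P.2 : ℤ)) + ζ))
    (h1 : ∀ k j b j', 1 ≤ k → k < M → j < G.J → j' < G.J → wt μ s Set.univ η (G.st k j b) (G.en (k + 1) j') ≤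
      Real.exp (-clp β (m' + σ * ((G.en (k + 1) j').2 - (G.st k j b).2 : ℤ)) + ζ))
    (h2 : ∀ j b, j < G.J → wt μ s Set.univ η (G.st M j b) Q ≤ Real.exp (-clp β (m' + σ * (Q.2 - (G.st M j b).2 : ℤ)) + ζ))
    (hr : ∀ k j b, 1 ≤ k → k ≤ M → j < G.J → Real.exp (-r - ζ) ≤ wt μ s Set.univ η (G.st k j b) (G.en k j)) :
    wt μ s R η P Q ≤ (2 * G.J) ^ M *
      Real.exp (-clp β ((M + 1) * m' + σ * ((Q.2 - P.2 : ℤ) + M * (G.h - G.w : ℤ))) + (M + 1) * ζ + M * (r + ζ)) := by
  have hpw : (P.1 :: (G.times 1 M).flatMap (fun τ => [τ.1, τ.2]) ++ [Q.1]).Pairwise (· ≤ ·) := by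
    have h3 : (((1 + M) * G.L' + G.n' : ℕ) : ℤ) ≤ Q.1 := by
      rw [hQ, show 1 + M = M + 1 by ring]
    have h4 := G.times_pairwise hn M 1 h3
    rw [List.cons_append, List.pairwise_cons]
    refine ⟨fun t ht => ?_, h4⟩
    rw [List.mem_append, List.mem_flatMap, List.mem_singleton] at ht
    rw [hP1]
    rcases ht with ⟨τ, hτ, ht⟩ | rfl
    · obtain ⟨g1, g2, _⟩ := G.times_le τ hτ
      have g3 : (0 : ℤ) ≤ ((1 * G.L' : ℕ) : ℤ) := by positivity
      simp only [List.mem_cons, List.not_mem_nil, or_false] at ht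
      rcases ht with rfl | rfl
      · exact g3.trans g1
      · exact (g3.trans g1).trans g2
    · rw [hQ]
      positivity
  have hfin := hook_cover (μ := μ) (s := s) η R P Q hP (G.Os R P 1 M) (G.times 1 M) (G.cover hcov hJ hw M 1 le_rfl (by omega)) hpw
    (M := Real.exp (-clp β ((M + 1) * m' + σ * ((Q.2 - P.2 : ℤ) + M * (G.h - G.w : ℤ))) + (M + 1) * ζ + M * (r + ζ)))
    (fun Js hJs => by
      refine ⟨G.ok_sections hn hQ M 1 (by ring) Js hJs P.1 (by rw [hP1]; positivity), ?_⟩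
      exact G.hk_le (wt_nonneg Set.univ η) (M := M) hσ h1 h2 hr M 1 le_rfl (by ring) P (fun j hj hk => h0 j hj hk) h0' Js hJs)
  rw [G.length_Os_sections, Nat.cast_pow, Nat.cast_mul, Nat.cast_ofNat] at hfin
  exact hfin

/-- `X` is measurable. -/
theorem meas_X (a : Pt) (n : ℕ) (y : ℤ) : Measurable fun η : Env => X μ s η a n y := by
  unfold X
  exact (Real.measurable_log.comp (measurable_W a n y)).neg

/-- The law of `X` does not depend on the start. -/
theorem shift_real [IsProbabilityMeasure μ] (a : Pt) (n : ℕ) (d : ℤ) (S : Set ℝ) (hS : MeasurableSet S) :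
    (law μ).real {η | X μ s η a n d ∈ S} = (law μ).real {η | X μ s η 0 n d ∈ S} := by
  have h1 : MeasurableSet {η : Env | X μ s η 0 n d ∈ S} := (meas_X (μ := μ) (s := s) 0 n d) hS
  have h2 : {η : Env | X μ s η a n d ∈ S} = sh a ⁻¹' {η | X μ s η 0 n d ∈ S} := by
    ext η
    show X μ s η a n d ∈ S ↔ X μ s (sh a η) 0 n d ∈ S
    rw [X_sh, zero_add]
  rw [h2, Measure.real, (mp_sh (μ := μ) a).measure_preimage h1.nullMeasurableSet, Measure.real]

/-- The bad event of a piece. -/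
theorem piece_real [IsProbabilityMeasure μ] {n : ℕ} {d : ℤ} {v p : ℝ} (hp : 0 ≤ p)
    (hlow : 0 ≤ d → d ≤ n → (law μ).real {η | X μ s η 0 n d < v} ≤ p) {a t : Pt} (ht1 : t.1 = a.1 + n) (ht2 : t.2 - a.2 = d) :
    (law μ).real {η | ¬ wt μ s Set.univ η a t ≤ Real.exp (-v)} ≤ p := by
  by_cases hd : 0 ≤ d ∧ d ≤ n
  · have h1 : {η : Env | ¬ wt μ s Set.univ η a t ≤ Real.exp (-v)} = {η | X μ s η a n d ∈ Set.Iio v} := by
      ext η
      show (¬ wt μ s Set.univ η a t ≤ Real.exp (-v)) ↔ X μ s η a n d < v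
      rw [wt_eq Set.univ η ht1, ht2, not_le]
      have hW := W_pos (μ := μ) (s := s) η a hd.1 hd.2
      unfold X
      rw [← Real.log_lt_log_iff (Real.exp_pos _) (show 0 < WR μ s Set.univ η a n d from hW), Real.log_exp]
      unfold W
      constructor
      · intro h
        linarith
      · intro h
        linarith
    rw [h1, shift_real a n d _ measurableSet_Iio]
    exact hlow hd.1 hd.2
  · have h1 : {η : Env | ¬ wt μ s Set.univ η a t ≤ Real.exp (-v)} = ∅ := by
      ext η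
      show (¬ wt μ s Set.univ η a t ≤ Real.exp (-v)) ↔ False
      rw [wt_eq Set.univ η ht1, ht2, WR_out Set.univ η a hd]
      simp [(Real.exp_pos (-v)).le]
    rw [h1]
    simpa using hp

/-- The bad event of a reference. -/
theorem ref_real [IsProbabilityMeasure μ] {n : ℕ} {d : ℤ} {v p : ℝ} (hd0 : 0 ≤ d) (hdn : d ≤ n)
    (hup : (law μ).real {η | v < X μ s η 0 n d} ≤ p) {a t : Pt} (ht1 : t.1 = a.1 + n) (ht2 : t.2 - a.2 = d) :
    (law μ).real {η | ¬ Real.exp (-v) ≤ wt μ s Set.univ η a t} ≤ p := by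
  have h1 : {η : Env | ¬ Real.exp (-v) ≤ wt μ s Set.univ η a t} = {η | X μ s η a n d ∈ Set.Ioi v} := by
    ext η
    show (¬ Real.exp (-v) ≤ wt μ s Set.univ η a t) ↔ v < X μ s η a n d
    rw [wt_eq Set.univ η ht1, ht2, not_le]
    have hW := W_pos (μ := μ) (s := s) η a hd0 hdn
    unfold X
    rw [← Real.log_lt_log_iff (show 0 < WR μ s Set.univ η a n d from hW) (Real.exp_pos _), Real.log_exp]
    unfold W
    constructor
    · intro h
      linarith
    · intro h
      linarith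
  rw [h1, shift_real a n d _ measurableSet_Ioi]
  exact hup

/-- THE JUNCTION INEQUALITY FOR THE MEANS. `M` windows, `M + 1` pieces of duration `L' + n'`. `m' + σ d` truncated to `[0, β]` is (up to
`ζ`, with probability `1 - p`) a lower bound of the cost of a piece of displacement `d`; `r` is (up to `ζ`, with probability `1 - p`) an upper bound of the costs of
the references, which have the displacements `h` and `h - w`; the path from `P` to `Q` inside `R` costs at most `C₃` with probability at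
least `1 - p'`. -/
theorem inner_mean [IsProbabilityMeasure μ] {R : Set Pt} {P Q : Pt} {M : ℕ} (hn : G.n' ≤ G.L') (hP : P ∈ R) (hP1 : P.1 = 0)
    (hQ : Q.1 = ((M + 1) * G.L' + G.n' : ℕ))
    (hcov : ∀ k, 1 ≤ k → k ≤ M → ∀ a ∈ Sites R P (k * G.L' : ℕ), G.lo k ≤ a.2 ∧ a.2 ≤ G.lo k + G.J * G.w) (hJ : 1 ≤ G.J)
    (hw : 1 ≤ G.w)
    {m' σ r ζ β p p' C₃ : ℝ} (hσ : 0 ≤ σ) (hp : 0 ≤ p) (hM : 1 ≤ M)
    (h0 : ∀ j < G.J, ∀ d : ℤ, d = (G.en 1 j).2 - P.2 → 0 ≤ d → d ≤ (G.L' + G.n' : ℕ) →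
      (law μ).real {η | X μ s η 0 (G.L' + G.n') d < clp β (m' + σ * d) - ζ} ≤ p)
    (h1 : ∀ k j b j', 1 ≤ k → k < M → j < G.J → j' < G.J → ∀ d : ℤ, d = (G.en (k + 1) j').2 - (G.st k j b).2 → 0 ≤ d →
      d ≤ (G.L' + G.n' : ℕ) → (law μ).real {η | X μ s η 0 (G.L' + G.n') d < clp β (m' + σ * d) - ζ} ≤ p)
    (h2 : ∀ j b, j < G.J → ∀ d : ℤ, d = Q.2 - (G.st M j b).2 → 0 ≤ d → d ≤ (G.L' + G.n' : ℕ) →
      (law μ).real {η | X μ s η 0 (G.L' + G.n') d < clp β (m' + σ * d) - ζ} ≤ p)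
    (hh : 0 ≤ G.h - G.w) (hh' : G.h ≤ G.n') (hr1 : (law μ).real {η | r + ζ < X μ s η 0 G.n' G.h} ≤ p)
    (hr2 : (law μ).real {η | r + ζ < X μ s η 0 G.n' (G.h - G.w)} ≤ p)
    (hpath : (law μ).real {η | ¬ Real.exp (-C₃) ≤ wt μ s R η P Q} ≤ p') (hcount : 6 * (M + 1) * G.J ^ 2 * p + p' < 1) :
    clp β ((M + 1) * m' + σ * ((Q.2 - P.2 : ℤ) + M * (G.h - G.w : ℤ))) ≤
      C₃ + (M + 1) * ζ + M * (r + ζ) + M * Real.log (2 * G.J) := by
  classical
  -- the bad events
  set B0 : Set Env := {η | ¬ Real.exp (-C₃) ≤ wt μ s R η P Q} with hB0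
  set B1 : ℕ → Set Env := fun j =>
    {η | ¬ wt μ s Set.univ η P (G.en 1 j) ≤ Real.exp (-(clp β (m' + σ * ((G.en 1 j).2 - P.2 : ℤ)) - ζ))} with hB1
  set B2 : ℕ × Bool × ℕ × ℕ → Set Env := fun q => {η | ¬ wt μ s Set.univ η (G.st q.1 q.2.2.1 q.2.1) (G.en (q.1 + 1) q.2.2.2) ≤
    Real.exp (-(clp β (m' + σ * ((G.en (q.1 + 1) q.2.2.2).2 - (G.st q.1 q.2.2.1 q.2.1).2 : ℤ)) - ζ))} with hB2
  set B3 : Bool × ℕ → Set Env := fun q => {η | ¬ wt μ s Set.univ η (G.st M q.2 q.1) Q ≤
    Real.exp (-(clp β (m' + σ * (Q.2 - (G.st M q.2 q.1).2 : ℤ)) - ζ))} with hB3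
  set B4 : ℕ × Bool × ℕ → Set Env := fun q =>
    {η | ¬ Real.exp (-(r + ζ)) ≤ wt μ s Set.univ η (G.st q.1 q.2.2 q.2.1) (G.en q.1 q.2.2)} with hB4
  set I1 : Finset ℕ := range G.J with hI1
  set I2 : Finset (ℕ × Bool × ℕ × ℕ) := (Finset.Ico 1 M) ×ˢ (Finset.univ ×ˢ (range G.J ×ˢ range G.J)) with hI2
  set I3 : Finset (Bool × ℕ) := Finset.univ ×ˢ range G.J with hI3
  set I4 : Finset (ℕ × Bool × ℕ) := (Finset.Ico 1 (M + 1)) ×ˢ (Finset.univ ×ˢ range G.J) with hI4
  have ht : ∀ k j b j', (G.en (k + 1) j').1 = (G.st k j b).1 + (G.L' + G.n' : ℕ) := by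
    intro k j b j'
    show (((k + 1) * G.L' + G.n' : ℕ) : ℤ) = ((k * G.L' : ℕ) : ℤ) + (G.L' + G.n' : ℕ)
    push_cast
    ring
  have m1 : ∀ q ∈ I1, (law μ).real (B1 q) ≤ p := by
    intro q hq
    refine piece_real hp (n := G.L' + G.n') (d := (G.en 1 q).2 - P.2) (fun g1 g2 => h0 q (mem_range.1 hq) _ rfl g1 g2) ?_ rfl
    show ((1 * G.L' + G.n' : ℕ) : ℤ) = P.1 + (G.L' + G.n' : ℕ)
    rw [hP1]
    push_cast
    ring
  have m2 : ∀ q ∈ I2, (law μ).real (B2 q) ≤ p := by
    intro q hq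
    rw [hI2, mem_product, mem_product, mem_product, Finset.mem_Ico, mem_range, mem_range] at hq
    obtain ⟨⟨g1, g2⟩, -, g3, g4⟩ := hq
    exact piece_real hp (n := G.L' + G.n') (d := (G.en (q.1 + 1) q.2.2.2).2 - (G.st q.1 q.2.2.1 q.2.1).2)
      (fun g5 g6 => h1 q.1 q.2.2.1 q.2.1 q.2.2.2 g1 g2 g3 g4 _ rfl g5 g6) (ht _ _ _ _) rfl
  have m3 : ∀ q ∈ I3, (law μ).real (B3 q) ≤ p := by
    intro q hq
    rw [hI3, mem_product, mem_range] at hq
    refine piece_real hp (n := G.L' + G.n') (d := Q.2 - (G.st M q.2 q.1).2) (fun g5 g6 => h2 q.2 q.1 hq.2 _ rfl g5 g6) ?_ rfl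
    rw [hQ]
    show (((M + 1) * G.L' + G.n' : ℕ) : ℤ) = ((M * G.L' : ℕ) : ℤ) + (G.L' + G.n' : ℕ)
    push_cast
    ring
  have m4 : ∀ q ∈ I4, (law μ).real (B4 q) ≤ p := by
    intro q hq
    rw [hI4, mem_product, mem_product, Finset.mem_Ico, mem_range] at hq
    have g1 : (G.en q.1 q.2.2).1 = (G.st q.1 q.2.2 q.2.1).1 + G.n' := by
      show ((q.1 * G.L' + G.n' : ℕ) : ℤ) = ((q.1 * G.L' : ℕ) : ℤ) + G.n'
      push_cast
      ring
    rcases hb : q.2.1 with _ | _
    · have g2 : (G.en q.1 q.2.2).2 - (G.st q.1 q.2.2 q.2.1).2 = G.h := by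
        rw [hb]
        unfold en st c
        simp
      exact ref_real (by omega) hh' hr1 g1 g2
    · have g2 : (G.en q.1 q.2.2).2 - (G.st q.1 q.2.2 q.2.1).2 = G.h - G.w := by
        rw [hb]
        unfold en st c
        simp only [if_true]
        push_cast
        ring
      exact ref_real hh (by omega) hr2 g1 g2
  have hun : ∀ {ι : Type} (I : Finset ι) (B : ι → Set Env), (∀ q ∈ I, (law μ).real (B q) ≤ p) →
      (law μ).real (⋃ q ∈ I, B q) ≤ I.card * p := by
    intro ι I B hB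
    refine (measureReal_biUnion_finset_le I B).trans ?_
    have := sum_le_card_nsmul I (fun q => (law μ).real (B q)) p hB
    rwa [nsmul_eq_mul] at this
  have c1 := hun I1 B1 m1
  have c2 := hun I2 B2 m2
  have c3 := hun I3 B3 m3
  have c4 := hun I4 B4 m4
  have hcard : (I1.card : ℝ) + I2.card + I3.card + I4.card ≤ 6 * (M + 1) * G.J ^ 2 := by
    have k1 : I1.card = G.J := card_range _
    have k2 : I2.card = (M - 1) * (2 * (G.J * G.J)) := by
      rw [hI2, card_product, card_product, card_product, Nat.card_Ico, card_range, Finset.card_univ, Fintype.card_bool]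
    have k3 : I3.card = 2 * G.J := by
      rw [hI3, card_product, card_range, Finset.card_univ, Fintype.card_bool]
    have k4 : I4.card = M * (2 * G.J) := by
      rw [hI4, card_product, card_product, Nat.card_Ico, card_range, Finset.card_univ, Fintype.card_bool]
      simp
    have k5 : G.J + (M - 1) * (2 * (G.J * G.J)) + 2 * G.J + M * (2 * G.J) ≤ 6 * (M + 1) * G.J ^ 2 := by
      obtain ⟨j, hj⟩ : ∃ j, G.J = j + 1 := ⟨G.J - 1, by omega⟩
      obtain ⟨m, hm⟩ : ∃ m, M = m + 1 := ⟨M - 1, by omega⟩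
      rw [hj, hm]
      simp only [Nat.add_sub_cancel]
      nlinarith [Nat.zero_le (m * j), Nat.zero_le (m * j ^ 2), Nat.zero_le (j ^ 2)]
    have k6 : (I1.card : ℝ) + I2.card + I3.card + I4.card = ((G.J + (M - 1) * (2 * (G.J * G.J)) + 2 * G.J + M * (2 * G.J) : ℕ) : ℝ) := by
      rw [k1, k2, k3, k4]
      push_cast
      ring
    rw [k6]
    exact_mod_cast k5
  -- a good environment
  set Bad : Set Env := B0 ∪ ((⋃ q ∈ I1, B1 q) ∪ ((⋃ q ∈ I2, B2 q) ∪ ((⋃ q ∈ I3, B3 q) ∪ ⋃ q ∈ I4, B4 q))) with hBad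
  have hBadlt : (law μ).real Bad < 1 := by
    have e1 := measureReal_union_le (μ := law μ) B0 ((⋃ q ∈ I1, B1 q) ∪ ((⋃ q ∈ I2, B2 q) ∪ ((⋃ q ∈ I3, B3 q) ∪ ⋃ q ∈ I4, B4 q)))
    have e2 := measureReal_union_le (μ := law μ) (⋃ q ∈ I1, B1 q) ((⋃ q ∈ I2, B2 q) ∪ ((⋃ q ∈ I3, B3 q) ∪ ⋃ q ∈ I4, B4 q))
    have e3 := measureReal_union_le (μ := law μ) (⋃ q ∈ I2, B2 q) ((⋃ q ∈ I3, B3 q) ∪ ⋃ q ∈ I4, B4 q)
    have e4 := measureReal_union_le (μ := law μ) (⋃ q ∈ I3, B3 q) (⋃ q ∈ I4, B4 q)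
    have e5 : (law μ).real B0 ≤ p' := hpath
    have e6 := mul_le_mul_of_nonneg_right hcard hp
    have e7 : ((I1.card : ℝ) + I2.card + I3.card + I4.card) * p = I1.card * p + I2.card * p + I3.card * p + I4.card * p := by ring
    rw [hBad]
    linarith
  obtain ⟨η, hη⟩ : ∃ η, η ∉ Bad := by
    by_contra hcon
    push Not at hcon
    have : Bad = Set.univ := Set.eq_univ_of_forall hcon
    rw [this] at hBadlt
    simp at hBadlt
  rw [hBad] at hη
  simp only [Set.mem_union, Set.mem_iUnion, not_or, not_exists] at hη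
  obtain ⟨n0, n1, n2, n3, n4⟩ := hη
  have g0 : Real.exp (-C₃) ≤ wt μ s R η P Q := not_not.1 n0
  have hpt := G.inner_point (μ := μ) (s := s) (η := η) (R := R) (P := P) (Q := Q) (M := M) hn hP hP1 hQ hcov hJ hw
    (m' := m') (σ := σ) (r := r) (ζ := ζ) (β := β) hσ
    (fun j hj _ => by
      have := not_not.1 (n1 j (mem_range.2 hj))
      rwa [show -(clp β (m' + σ * ((G.en 1 j).2 - P.2 : ℤ)) - ζ) = -clp β (m' + σ * ((G.en 1 j).2 - P.2 : ℤ)) + ζ by ring]
        at this)
    (fun hM0 => by omega)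
    (fun k j b j' k1 k2 k3 k4 => by
      have := not_not.1 (n2 (k, b, j, j') (by
        rw [hI2, mem_product, mem_product, mem_product, Finset.mem_Ico, mem_range, mem_range]
        exact ⟨⟨k1, k2⟩, Finset.mem_univ _, k3, k4⟩))
      simp only at this
      rwa [show -(clp β (m' + σ * ((G.en (k + 1) j').2 - (G.st k j b).2 : ℤ)) - ζ) =
        -clp β (m' + σ * ((G.en (k + 1) j').2 - (G.st k j b).2 : ℤ)) + ζ by ring] at this)
    (fun j b k3 => by
      have := not_not.1 (n3 (b, j) (by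
        rw [hI3, mem_product, mem_range]
        exact ⟨Finset.mem_univ _, k3⟩))
      simp only at this
      rwa [show -(clp β (m' + σ * (Q.2 - (G.st M j b).2 : ℤ)) - ζ) = -clp β (m' + σ * (Q.2 - (G.st M j b).2 : ℤ)) + ζ by ring]
        at this)
    (fun k j b k1 k2 k3 => by
      have := not_not.1 (n4 (k, b, j) (by
        rw [hI4, mem_product, mem_product, Finset.mem_Ico, mem_range]
        exact ⟨⟨k1, by omega⟩, Finset.mem_univ _, k3⟩))
      simp only at this
      rwa [show -(r + ζ) = -r - ζ by ring] at this)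
  have hJ0 : (0 : ℝ) < 2 * G.J := by
    have : (1 : ℝ) ≤ G.J := by exact_mod_cast hJ
    linarith
  have hfin := g0.trans hpt
  have hlog := Real.log_le_log (Real.exp_pos _) hfin
  rw [Real.log_exp, Real.log_mul (by positivity) (Real.exp_pos _).ne', Real.log_exp, Real.log_pow] at hlog
  linarith

end Geo

end Pool.Agent.W_7d29a1_g
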