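import Pool.Agent.W_7d29a1_F.CoreD1

/-!
TRACK G: the junction inequality (any temperature). helper67.

A chain of `N` windows `(s k, t k]`. The paths `p → z` which pass the cells `A k` (time `s k`) and `B k`
(time `t k`). At a good junction (`G k`) there is a reference `x k → y k` such that `A k` and `B k` lie on
different sides of it: it is swapped. A bad junction is cut at the time `s k`: the piece before it ends in
`A k` (sum), the piece behind it starts in `A k` (maximum).
-/

namespace Pool.Agent.W_7d29a1_g.K67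

open Pool.Agent.W_7d29a1_F MeasureTheory

section Abs

variable {P : Type*}

/-- The weight of the paths from `p` to `z` through the cells `A k`, `B k` of the next `m` junctions. -/
def ZJ (W : P → P → ℝ) (A B : ℕ → Finset P) (z : P) : ℕ → ℕ → P → ℝ
  | 0, _, p => W p z
  | m + 1, k, p => ∑ u ∈ A k, W p u * ∑ v ∈ B k, W u v * ZJ W A B z m (k + 1) v

/-- The weight from `a` to the right boundary of a piece: the reference end `y k` if junction `k` is good,
the cell `A k` if it is bad, the point `z` behind the last junction. -/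
def Rs (W : P → P → ℝ) (A : ℕ → Finset P) (G : ℕ → Prop) [DecidablePred G] (y : ℕ → P) (z : P) (N k : ℕ)
    (a : P) : ℝ :=
  if k < N then (if G k then W a (y k) else ∑ b ∈ A k, W a b) else W a z

variable {W : P → P → ℝ} {A B : ℕ → Finset P} {z : P}

theorem ZJ_nonneg (hW : ∀ a b, 0 ≤ W a b) : ∀ (m k : ℕ) (p : P), 0 ≤ ZJ W A B z m k p
  | 0, _, p => hW p z
  | m + 1, k, p => Finset.sum_nonneg fun u _ => mul_nonneg (hW _ _) (Finset.sum_nonneg fun v _ =>
      mul_nonneg (hW _ _) (ZJ_nonneg hW m (k + 1) v))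

/-- Starting before the cell `B k`. -/
theorem ZJ_ck (hW : ∀ a b, 0 ≤ W a b) {N : ℕ}
    (hB : ∀ k, k + 1 < N → ∀ p, ∀ u ∈ A (k + 1), ∑ v ∈ B k, W p v * W v u ≤ W p u)
    (hz : ∀ k, k + 1 = N → ∀ p, ∑ v ∈ B k, W p v * W v z ≤ W p z) (m k : ℕ) (hk : k + 1 + m = N)
    (q : P) : ∑ v ∈ B k, W q v * ZJ W A B z m (k + 1) v ≤ ZJ W A B z m (k + 1) q := by
  cases m with
  | zero => exact hz k (by omega) q
  | succ m =>
    have h1 : ∑ v ∈ B k, W q v * ZJ W A B z (m + 1) (k + 1) v =
        ∑ u ∈ A (k + 1), (∑ v ∈ B k, W q v * W v u) *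
          ∑ v ∈ B (k + 1), W u v * ZJ W A B z m (k + 1 + 1) v := by
      simp only [ZJ, Finset.mul_sum, Finset.sum_mul]
      rw [Finset.sum_comm]
      refine Finset.sum_congr rfl fun u _ => ?_
      rw [Finset.sum_comm]
      refine Finset.sum_congr rfl fun v _ => ?_
      refine Finset.sum_congr rfl fun v' _ => ?_
      ring
    rw [h1, ZJ]
    refine Finset.sum_le_sum fun u hu => mul_le_mul_of_nonneg_right (hB k (by omega) q u hu)
      (Finset.sum_nonneg fun v _ => mul_nonneg (hW _ _) (ZJ_nonneg hW _ _ _))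

/-- THE JUNCTION INEQUALITY, abstract form. -/
theorem junction_abs (hW : ∀ a b, 0 ≤ W a b) {N : ℕ} (G : ℕ → Prop) [DecidablePred G] (x y : ℕ → P)
    (c : ℕ → ℝ)
    (hsw : ∀ k < N, G k → ∀ u ∈ A k, ∀ v ∈ B k, W u v * W (x k) (y k) ≤ W u (y k) * W (x k) v)
    (hA : ∀ k < N, G k → ∀ p, ∑ u ∈ A k, W p u * W u (y k) ≤ W p (y k))
    (hB : ∀ k, k + 1 < N → ∀ p, ∀ u ∈ A (k + 1), ∑ v ∈ B k, W p v * W v u ≤ W p u)
    (hz : ∀ k, k + 1 = N → ∀ p, ∑ v ∈ B k, W p v * W v z ≤ W p z)
    (hcg : ∀ k < N, G k → Rs W A G y z N (k + 1) (x k) ≤ c k)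
    (hcb : ∀ k < N, ¬ G k → ∀ u ∈ A k, Rs W A G y z N (k + 1) u ≤ c k)
    (hc0 : ∀ k < N, 0 ≤ c k) (p : P) :
    ZJ W A B z N 0 p * ∏ k ∈ Finset.range N, (if G k then W (x k) (y k) else 1) ≤
      Rs W A G y z N 0 p * ∏ k ∈ Finset.range N, c k := by
  have main : ∀ m ≤ N, ∀ p, ZJ W A B z m (N - m) p *
      ∏ k ∈ Finset.Ico (N - m) N, (if G k then W (x k) (y k) else 1) ≤
      Rs W A G y z N (N - m) p * ∏ k ∈ Finset.Ico (N - m) N, c k := by
    intro m
    induction m with
    | zero =>
      intro _ p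
      simp [ZJ, Rs]
    | succ m ih =>
      intro hm p
      obtain ⟨k, hk⟩ : ∃ k, k = N - (m + 1) := ⟨_, rfl⟩
      have hkN : k < N := by omega
      have hk1 : N - m = k + 1 := by omega
      rw [hk1] at ih
      have ih := ih (by omega)
      rw [← hk, Finset.prod_eq_prod_Ico_succ_bot hkN, Finset.prod_eq_prod_Ico_succ_bot hkN]
      set Q : ℝ := ∏ k ∈ Finset.Ico (k + 1) N, (if G k then W (x k) (y k) else 1) with hQ
      set C : ℝ := ∏ k ∈ Finset.Ico (k + 1) N, c k with hC
      have hQ0 : 0 ≤ Q := Finset.prod_nonneg fun j _ => by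
        split_ifs
        · exact hW _ _
        · exact zero_le_one
      have hC0 : 0 ≤ C := Finset.prod_nonneg fun j hj => hc0 j (Finset.mem_Ico.1 hj).2
      have hck := ZJ_ck (A := A) (B := B) (z := z) hW hB hz m k (by omega)
      by_cases hG : G k
      · have hR : Rs W A G y z N k p = W p (y k) := by simp [Rs, hkN, hG]
        rw [if_pos hG, hR]
        have h1 : ZJ W A B z (m + 1) k p * W (x k) (y k) ≤ W p (y k) * ZJ W A B z m (k + 1) (x k) := by
          have e1 : ZJ W A B z (m + 1) k p * W (x k) (y k) =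
              ∑ u ∈ A k, W p u * ∑ v ∈ B k, (W u v * W (x k) (y k)) * ZJ W A B z m (k + 1) v := by
            rw [ZJ, Finset.sum_mul]
            refine Finset.sum_congr rfl fun u _ => ?_
            rw [mul_assoc, Finset.sum_mul]
            congr 1
            refine Finset.sum_congr rfl fun v _ => ?_
            ring
          rw [e1]
          calc ∑ u ∈ A k, W p u * ∑ v ∈ B k, (W u v * W (x k) (y k)) * ZJ W A B z m (k + 1) v
              ≤ ∑ u ∈ A k, W p u * ∑ v ∈ B k, (W u (y k) * W (x k) v) * ZJ W A B z m (k + 1) v := by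
                refine Finset.sum_le_sum fun u hu => mul_le_mul_of_nonneg_left ?_ (hW _ _)
                refine Finset.sum_le_sum fun v hv => mul_le_mul_of_nonneg_right (hsw k hkN hG u hu v hv)
                  (ZJ_nonneg hW _ _ _)
            _ = (∑ u ∈ A k, W p u * W u (y k)) * ∑ v ∈ B k, W (x k) v * ZJ W A B z m (k + 1) v := by
                rw [Finset.sum_mul]
                refine Finset.sum_congr rfl fun u _ => ?_
                rw [Finset.mul_sum, Finset.mul_sum]
                refine Finset.sum_congr rfl fun v _ => ?_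
                ring
            _ ≤ W p (y k) * ZJ W A B z m (k + 1) (x k) :=
                mul_le_mul (hA k hkN hG p) (hck (x k)) (Finset.sum_nonneg fun v _ =>
                  mul_nonneg (hW _ _) (ZJ_nonneg hW _ _ _)) (hW _ _)
        have h2 := ih (x k)
        have h3 : ZJ W A B z m (k + 1) (x k) * Q ≤ c k * C :=
          h2.trans (mul_le_mul_of_nonneg_right (hcg k hkN hG) hC0)
        calc ZJ W A B z (m + 1) k p * (W (x k) (y k) * Q)
            = (ZJ W A B z (m + 1) k p * W (x k) (y k)) * Q := by ring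
          _ ≤ (W p (y k) * ZJ W A B z m (k + 1) (x k)) * Q := mul_le_mul_of_nonneg_right h1 hQ0
          _ = W p (y k) * (ZJ W A B z m (k + 1) (x k) * Q) := by ring
          _ ≤ W p (y k) * (c k * C) := mul_le_mul_of_nonneg_left h3 (hW _ _)
      · have hR : Rs W A G y z N k p = ∑ b ∈ A k, W p b := by simp [Rs, hkN, hG]
        rw [if_neg hG, hR, one_mul]
        have h1 : ZJ W A B z (m + 1) k p ≤ ∑ u ∈ A k, W p u * ZJ W A B z m (k + 1) u := by
          rw [ZJ]
          exact Finset.sum_le_sum fun u _ => mul_le_mul_of_nonneg_left (hck u) (hW _ _)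
        calc ZJ W A B z (m + 1) k p * Q
            ≤ (∑ u ∈ A k, W p u * ZJ W A B z m (k + 1) u) * Q := mul_le_mul_of_nonneg_right h1 hQ0
          _ = ∑ u ∈ A k, W p u * (ZJ W A B z m (k + 1) u * Q) := by
              rw [Finset.sum_mul]
              exact Finset.sum_congr rfl fun u _ => by ring
          _ ≤ ∑ u ∈ A k, W p u * (c k * C) :=
              Finset.sum_le_sum fun u hu => mul_le_mul_of_nonneg_left
                ((ih u).trans (mul_le_mul_of_nonneg_right (hcb k hkN hG u hu) hC0)) (hW _ _)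
          _ = (∑ b ∈ A k, W p b) * (c k * C) := by rw [Finset.sum_mul]
  have h := main N le_rfl p
  rw [Nat.sub_self, ← Finset.range_eq_Ico] at h
  exact h

end Abs

end Pool.Agent.W_7d29a1_g.K67
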