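import Pool.Agent.W_7d29a1_g.Pattern67

/-!
TRACK G: the junction inequality and the decomposition into patterns in the model. helper67.
-/

namespace Pool.Agent.W_7d29a1_g.K67

open Pool.Agent.W_7d29a1_F MeasureTheory

variable {μ : Measure ℝ} {s : ℝ}

/-- The weight of the paths from the site `b` to the site `c`. -/
noncomputable def wt (μ : Measure ℝ) (s : ℝ) (η : Env) (b c : Pt) : ℝ :=
  if b.1 ≤ c.1 then W μ s η b (c.1 - b.1).toNat (c.2 - b.2) else 0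

theorem wt_nonneg (η : Env) (b c : Pt) : 0 ≤ wt μ s η b c := by
  unfold wt
  split_ifs
  · exact W_nonneg η b _ _
  · exact le_rfl

theorem wt_eq (η : Env) {b c : Pt} {n : ℕ} (h : c.1 = b.1 + n) :
    wt μ s η b c = W μ s η b n (c.2 - b.2) := by
  unfold wt
  have h1 : b.1 ≤ c.1 := by omega
  have h2 : (c.1 - b.1).toNat = n := by omega
  rw [if_pos h1, h2]

theorem wt_lt (η : Env) {b c : Pt} (h : c.1 < b.1) : wt μ s η b c = 0 := by
  unfold wt
  rw [if_neg (not_le.2 h)]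

/-- The weight vanishes outside the light cone. -/
theorem wt_eq_zero (η : Env) {b c : Pt} (h : ¬ (b.2 ≤ c.2 ∧ c.2 - b.2 ≤ c.1 - b.1)) :
    wt μ s η b c = 0 := by
  unfold wt
  split_ifs with h1
  · refine W_eq_zero η b fun h2 => h ⟨by omega, ?_⟩
    have h3 := h2.2
    rw [Int.toNat_of_nonneg (by omega)] at h3
    exact h3
  · rfl

/-- Chapman-Kolmogorov. -/
theorem wt_ck (η : Env) (S : Finset Pt) (τ : ℤ) (hS : ∀ v ∈ S, v.1 = τ) (p u : Pt)
    (hτ : τ ≤ u.1) : ∑ v ∈ S, wt μ s η p v * wt μ s η v u ≤ wt μ s η p u := by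
  classical
  by_cases hp : p.1 ≤ τ
  · obtain ⟨m, hm⟩ : ∃ m : ℕ, τ = p.1 + m := ⟨(τ - p.1).toNat, by omega⟩
    obtain ⟨n, hn⟩ : ∃ n : ℕ, u.1 = τ + n := ⟨(u.1 - τ).toNat, by omega⟩
    have hu : u.1 = p.1 + (m + n : ℕ) := by push_cast; omega
    rw [wt_eq η hu, W_add η p m n (u.2 - p.2)]
    have h1 : ∑ v ∈ S, wt μ s η p v * wt μ s η v u =
        ∑ v ∈ S.filter (fun v => v.2 - p.2 ∈ Finset.Icc (0 : ℤ) m),
          wt μ s η p v * wt μ s η v u := by
      rw [Finset.sum_filter_of_ne]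
      intro v hv hne
      by_contra hcon
      apply hne
      have hv1 : v.1 = p.1 + m := by rw [hS v hv, hm]
      rw [wt_eq η hv1, W_eq_zero, zero_mul]
      intro h
      exact hcon (Finset.mem_Icc.mpr h)
    rw [h1]
    have h2 : ∑ v ∈ S.filter (fun v => v.2 - p.2 ∈ Finset.Icc (0 : ℤ) m),
          wt μ s η p v * wt μ s η v u =
        ∑ k ∈ (S.filter (fun v => v.2 - p.2 ∈ Finset.Icc (0 : ℤ) m)).image (fun v => v.2 - p.2),
          W μ s η p m k * W μ s η (p.1 + m, p.2 + k) n (u.2 - p.2 - k) := by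
      rw [Finset.sum_image]
      · apply Finset.sum_congr rfl
        intro v hv
        have hvS := (Finset.mem_filter.mp hv).1
        have hv1 : v.1 = p.1 + m := by rw [hS v hvS, hm]
        have hu1 : u.1 = v.1 + n := by rw [hS v hvS, hn]
        have e1 : ((p.1 + m, p.2 + (v.2 - p.2)) : Pt) = v := by
          ext
          · simp [hv1]
          · simp
        rw [wt_eq η hv1, wt_eq η hu1, e1]
        congr 2
        ring
      · intro v hv v' hv' hvv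
        have hvS := (Finset.mem_filter.mp (Finset.mem_coe.mp hv)).1
        have hvS' := (Finset.mem_filter.mp (Finset.mem_coe.mp hv')).1
        ext
        · rw [hS v hvS, hS v' hvS']
        · simpa using hvv
    rw [h2]
    apply Finset.sum_le_sum_of_subset_of_nonneg
    · intro k hk
      obtain ⟨v, hv, rfl⟩ := Finset.mem_image.mp hk
      exact (Finset.mem_filter.mp hv).2
    · intro k _ _
      exact mul_nonneg (W_nonneg _ _ _ _) (W_nonneg _ _ _ _)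
  · have h0 : ∑ v ∈ S, wt μ s η p v * wt μ s η v u = 0 := by
      apply Finset.sum_eq_zero
      intro v hv
      rw [wt_lt η (by rw [hS v hv]; omega), zero_mul]
    rw [h0]
    exact wt_nonneg _ _ _

/-- The finite set of the sites of time `τ` which can be reached from `b`. -/
noncomputable def row (b : Pt) (τ : ℤ) : Finset Pt := (Finset.Icc b.2 (b.2 + (τ - b.1))).map
  ⟨fun q => (τ, q), fun _ _ h => (Prod.ext_iff.1 h).2⟩

theorem mem_row {b u : Pt} {τ : ℤ} : u ∈ row b τ ↔ u.1 = τ ∧ b.2 ≤ u.2 ∧ u.2 - b.2 ≤ τ - b.1 := by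
  unfold row
  rw [Finset.mem_map]
  constructor
  · rintro ⟨q, hq, rfl⟩
    have := Finset.mem_Icc.1 hq
    exact ⟨rfl, this.1, by show q - b.2 ≤ _; omega⟩
  · rintro ⟨h1, h2, h3⟩
    exact ⟨u.2, Finset.mem_Icc.2 ⟨h2, by omega⟩, Prod.ext h1.symm rfl⟩

/-- Decomposition at the time `τ`. -/
theorem wt_dec (η : Env) (b c : Pt) {τ : ℤ} (h1 : b.1 ≤ τ) (h2 : τ ≤ c.1) :
    wt μ s η b c ≤ ∑ u ∈ row b τ, wt μ s η b u * wt μ s η u c := by
  obtain ⟨m, hm⟩ : ∃ m : ℕ, τ = b.1 + m := ⟨(τ - b.1).toNat, by omega⟩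
  obtain ⟨n, hn⟩ : ∃ n : ℕ, c.1 = τ + n := ⟨(c.1 - τ).toNat, by omega⟩
  have hc : c.1 = b.1 + (m + n : ℕ) := by push_cast; omega
  rw [wt_eq η hc, W_add η b m n (c.2 - b.2)]
  unfold row
  rw [Finset.sum_map]
  have h3 : Finset.Icc b.2 (b.2 + (τ - b.1)) = (Finset.Icc (0 : ℤ) m).map
      ⟨fun k => b.2 + k, fun _ _ h => add_left_cancel h⟩ := by
    ext q
    rw [Finset.mem_map, Finset.mem_Icc]
    constructor
    · rintro ⟨h4, h5⟩
      exact ⟨q - b.2, Finset.mem_Icc.2 ⟨by omega, by omega⟩, by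
        show b.2 + (q - b.2) = q
        ring⟩
    · rintro ⟨k, hk, rfl⟩
      have := Finset.mem_Icc.1 hk
      show b.2 ≤ b.2 + k ∧ b.2 + k ≤ _
      omega
  rw [h3, Finset.sum_map]
  refine le_of_eq (Finset.sum_congr rfl fun k _ => ?_)
  show _ = wt μ s η b (τ, b.2 + k) * wt μ s η (τ, b.2 + k) c
  rw [wt_eq η (show ((τ, b.2 + k) : Pt).1 = b.1 + m from hm),
    wt_eq η (show c.1 = ((τ, b.2 + k) : Pt).1 + n from hn), hm]
  show _ = W μ s η b m (b.2 + k - b.2) * W μ s η (b.1 + m, b.2 + k) n (c.2 - (b.2 + k))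
  congr 2
  · ring
  · ring

/-- `u` and `v` lie on different sides of the reference `x → y`. -/
def Crs (u v x y : Pt) : Prop := (u.2 ≤ x.2 ∧ y.2 ≤ v.2) ∨ (x.2 ≤ u.2 ∧ v.2 ≤ y.2)

/-- The swap in one slab. -/
theorem wt_tp2 (η : Env) {u v x y : Pt} (h1 : u.1 = x.1) (h2 : v.1 = y.1) (h : Crs u v x y) :
    wt μ s η u v * wt μ s η x y ≤ wt μ s η u y * wt μ s η x v := by
  rcases lt_or_ge v.1 u.1 with h3 | h3
  · rw [wt_lt η h3, zero_mul]
    exact mul_nonneg (wt_nonneg _ _ _) (wt_nonneg _ _ _)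
  · obtain ⟨n, hn⟩ : ∃ n : ℕ, v.1 = u.1 + n := ⟨(v.1 - u.1).toNat, by omega⟩
    rw [wt_eq η hn, wt_eq η (show y.1 = x.1 + n by omega), wt_eq η (show y.1 = u.1 + n by omega),
      wt_eq η (show v.1 = x.1 + n by omega)]
    obtain ⟨ut, up⟩ := u
    obtain ⟨xt, xp⟩ := x
    simp only at h1
    subst h1
    rcases h with ⟨ha, hb⟩ | ⟨ha, hb⟩
    · exact W_tp2 η ut up xp n y.2 v.2 ha hb
    · have := W_tp2 (μ := μ) (s := s) η ut xp up n v.2 y.2 ha hb
      simp only at this ⊢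
      linarith

/-- THE JUNCTION INEQUALITY IN THE MODEL. Windows `(S k, T k]`, `S k ≤ T k ≤ S (k + 1)`. -/
theorem junction (η : Env) {N : ℕ} {S T : ℕ → ℤ} {A B : ℕ → Finset Pt} {z : Pt}
    (hA1 : ∀ k < N, ∀ u ∈ A k, u.1 = S k) (hB1 : ∀ k < N, ∀ v ∈ B k, v.1 = T k)
    (hST : ∀ k < N, S k ≤ T k) (hTS : ∀ k, k + 1 < N → T k ≤ S (k + 1)) (hTz : ∀ k < N, T k ≤ z.1)
    (G : ℕ → Prop) [DecidablePred G] (x y : ℕ → Pt)
    (hx : ∀ k < N, G k → (x k).1 = S k) (hy : ∀ k < N, G k → (y k).1 = T k)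
    (hcr : ∀ k < N, G k → ∀ u ∈ A k, ∀ v ∈ B k, Crs u v (x k) (y k))
    (c : ℕ → ℝ) (hc0 : ∀ k < N, 0 ≤ c k)
    (hcg : ∀ k < N, G k → Rs (wt μ s η) A G y z N (k + 1) (x k) ≤ c k)
    (hcb : ∀ k < N, ¬ G k → ∀ u ∈ A k, Rs (wt μ s η) A G y z N (k + 1) u ≤ c k) (p : Pt) :
    ZJ (wt μ s η) A B z N 0 p * ∏ k ∈ Finset.range N, (if G k then wt μ s η (x k) (y k) else 1) ≤
      Rs (wt μ s η) A G y z N 0 p * ∏ k ∈ Finset.range N, c k := by
  refine junction_abs (fun a b => wt_nonneg η a b) G x y c ?_ ?_ ?_ ?_ hcg hcb hc0 p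
  · intro k hk hG u hu v hv
    exact wt_tp2 η ((hA1 k hk u hu).trans (hx k hk hG).symm) ((hB1 k hk v hv).trans (hy k hk hG).symm)
      (hcr k hk hG u hu v hv)
  · intro k hk hG q
    exact wt_ck η (A k) (S k) (hA1 k hk) q (y k) (by rw [hy k hk hG]; exact hST k hk)
  · intro k hk q u hu
    exact wt_ck η (B k) (T k) (hB1 k (by omega)) q u (by rw [hA1 (k + 1) hk u hu]; exact hTS k hk)
  · intro k hk q
    exact wt_ck η (B k) (T k) (hB1 k (by omega)) q z (hTz k (by omega))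

theorem cover_sum {α β ι : Type*} [DecidableEq α] [DecidableEq β] (I : Finset ι) (SA : Finset α)
    (SB : α → Finset β) (A : ι → Finset α) (B : ι → Finset β) (f : α → β → ℝ)
    (hf : ∀ u v, 0 ≤ f u v)
    (h : ∀ u ∈ SA, ∀ v ∈ SB u, f u v ≠ 0 → ∃ i ∈ I, u ∈ A i ∧ v ∈ B i) :
    ∑ u ∈ SA, ∑ v ∈ SB u, f u v ≤ ∑ i ∈ I, ∑ u ∈ A i, ∑ v ∈ B i, f u v := by
  classical
  have h1 : ∀ u ∈ SA, ∀ v ∈ SB u, f u v ≤ ∑ i ∈ I, if u ∈ A i ∧ v ∈ B i then f u v else 0 := by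
    intro u hu v hv
    by_cases hf0 : f u v = 0
    · rw [hf0]
      exact Finset.sum_nonneg fun i _ => by split_ifs <;> exact le_rfl
    · obtain ⟨i, hi, hAB⟩ := h u hu v hv hf0
      refine le_trans ?_ (Finset.single_le_sum (fun j _ => ?_) hi)
      · rw [if_pos hAB]
      · split_ifs
        · exact hf u v
        · exact le_rfl
  refine (Finset.sum_le_sum fun u hu => Finset.sum_le_sum fun v hv => h1 u hu v hv).trans ?_
  have h2 : ∑ u ∈ SA, ∑ v ∈ SB u, ∑ i ∈ I, (if u ∈ A i ∧ v ∈ B i then f u v else 0) =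
      ∑ i ∈ I, ∑ u ∈ SA, ∑ v ∈ SB u, (if u ∈ A i ∧ v ∈ B i then f u v else 0) := by
    rw [Finset.sum_comm' (s := I) (t := fun _ => SA) (t' := SA) (s' := fun _ => I) (by simp [and_comm])]
    exact Finset.sum_congr rfl fun u _ => Finset.sum_comm
  rw [h2]
  refine Finset.sum_le_sum fun i _ => ?_
  calc ∑ u ∈ SA, ∑ v ∈ SB u, (if u ∈ A i ∧ v ∈ B i then f u v else 0)
      ≤ ∑ u ∈ SA, (if u ∈ A i then ∑ v ∈ B i, f u v else 0) := by
        refine Finset.sum_le_sum fun u _ => ?_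
        split_ifs with hu
        · rw [Finset.sum_congr rfl fun v _ => show (if u ∈ A i ∧ v ∈ B i then f u v else 0) =
            (if v ∈ B i then f u v else 0) by simp [hu], ← Finset.sum_filter]
          exact Finset.sum_le_sum_of_subset_of_nonneg (fun v hv => (Finset.mem_filter.1 hv).2)
            fun v _ _ => hf u v
        · exact (Finset.sum_eq_zero fun v _ => if_neg fun hh => hu hh.1).le
    _ = ∑ u ∈ SA.filter (fun u => u ∈ A i), ∑ v ∈ B i, f u v := (Finset.sum_filter _ _).symm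
    _ ≤ _ := Finset.sum_le_sum_of_subset_of_nonneg (fun u hu => (Finset.mem_filter.1 hu).2)
          fun u _ _ => Finset.sum_nonneg fun v _ => hf u v

/-- DECOMPOSITION IN THE MODEL: the pairs of cells `A k i × B k i`, `i ∈ I k`, cover the pairs of sites
`(S k, T k)` which can be reached from `p`. -/
theorem dec_model (η : Env) {ι : Type*} {N : ℕ} {S T : ℕ → ℤ} (I : ℕ → Finset ι)
    (A B : ℕ → ι → Finset Pt) {p z : Pt} (hpS : ∀ k < N, p.1 ≤ S k)
    (hB1 : ∀ k < N, ∀ i ∈ I k, ∀ v ∈ B k i, v.1 = T k)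
    (hBp : ∀ k < N, ∀ i ∈ I k, ∀ v ∈ B k i, p.2 ≤ v.2 ∧ v.2 - p.2 ≤ v.1 - p.1)
    (hST : ∀ k < N, S k ≤ T k) (hTS : ∀ k, k + 1 < N → T k ≤ S (k + 1)) (hTz : ∀ k < N, T k ≤ z.1)
    (hcov : ∀ k < N, ∀ u v : Pt, u.1 = S k → v.1 = T k → p.2 ≤ u.2 → u.2 - p.2 ≤ u.1 - p.1 →
      u.2 ≤ v.2 → v.2 - u.2 ≤ v.1 - u.1 → ∃ i ∈ I k, u ∈ A k i ∧ v ∈ B k i) (σ : ℕ → ι) :
    wt μ s η p z ≤ TS I N 0 (fun τ => ZJ (wt μ s η) (fun j => A j (τ j)) (fun j => B j (τ j)) z N 0 p)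
      σ := by
  classical
  refine dec_abs (fun a b => wt_nonneg η a b) I A B
    (fun k q => q.1 ≤ S k ∧ p.2 ≤ q.2 ∧ q.2 - p.2 ≤ q.1 - p.1) (N := N) ?_ ?_ N 0 σ p
    (Nat.zero_add N) ?_
  · rintro k hk q ⟨hq1, hq2, hq3⟩
    have h1 : wt μ s η q z ≤ ∑ u ∈ row q (S k), ∑ v ∈ row u (T k),
        wt μ s η q u * (wt μ s η u v * wt μ s η v z) := by
      refine (wt_dec η q z hq1 ((hST k hk).trans (hTz k hk))).trans (Finset.sum_le_sum fun u hu => ?_)
      rw [← Finset.mul_sum]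
      refine mul_le_mul_of_nonneg_left (wt_dec η u z ?_ (hTz k hk)) (wt_nonneg _ _ _)
      rw [(mem_row.1 hu).1]
      exact hST k hk
    refine h1.trans ((cover_sum (I k) _ _ (A k) (B k) (fun u v => wt μ s η q u *
      (wt μ s η u v * wt μ s η v z)) (fun u v => mul_nonneg (wt_nonneg _ _ _)
        (mul_nonneg (wt_nonneg _ _ _) (wt_nonneg _ _ _))) ?_).trans (le_of_eq ?_))
    · intro u hu v hv _
      have hu' := mem_row.1 hu
      have hv' := mem_row.1 hv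
      refine hcov k hk u v hu'.1 hv'.1 (by omega) (by omega) hv'.2.1 (by omega)
    · refine Finset.sum_congr rfl fun i _ => Finset.sum_congr rfl fun u _ => ?_
      rw [Finset.mul_sum]
  · intro k hk i hi v hv
    have h2 := hB1 k (by omega) i hi v hv
    refine ⟨by rw [h2]; exact hTS k hk, hBp k (by omega) i hi v hv⟩
  · intro hN
    exact ⟨hpS 0 hN, le_rfl, by simp⟩

end Pool.Agent.W_7d29a1_g.K67
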