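import Mathlib

/-!
MP_7d29a1_pr (G+): the exact one sided inequality for patterns of cells (helper67's (A*), (1)). `K i x y` is the weight of the paths
from `x` to `y` in the slab `i`; the only assumption is two point total positivity. The path visits the cell `[l i, u i]` at the
level `i`; `σ i` says that the step from the level `i` to the level `i + 1` goes to the right.
For a step to the right `P i` (end of the cell from which the slab is entered) is the right end of the cell `i`, and `Q (i + 1)` is the left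
end of the cell `i + 1`; `A` and `B` are the opposite ends. The weight of the pattern is at most the product of the weights
`K i (P i) (Q (i + 1))` and of the ratios `W (A i) (B i) / (K (i - 1) (A i) (Q i) * K i (P i) (B i))`: the costs of the ends cancel in
every factor.
-/

set_option autoImplicit false

open Finset

namespace Pool.Agent.W_7d29a1_g.Pattern

/-- The weight of the pattern up to the level `i`, with end point `y`. -/
noncomputable def pat (K : ℕ → ℤ → ℤ → ℝ) (l u : ℕ → ℤ) (F : ℤ → ℝ) : ℕ → ℤ → ℝ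
  | 0, y => F y
  | i + 1, y => ∑ x ∈ Icc (l i) (u i), pat K l u F i x * K i x y

/-- Where the path leaves the cell `i`. -/
def P (σ : ℕ → Bool) (l u : ℕ → ℤ) (i : ℕ) : ℤ := if σ i then u i else l i

/-- Opposite of `P`. -/
def B (σ : ℕ → Bool) (l u : ℕ → ℤ) (i : ℕ) : ℤ := if σ i then l i else u i

/-- Where the path enters the cell `i + 1`. -/
def Q (σ : ℕ → Bool) (l u : ℕ → ℤ) (i : ℕ) : ℤ := if σ i then l (i + 1) else u (i + 1)

/-- Opposite of `Q`. -/
def A (σ : ℕ → Bool) (l u : ℕ → ℤ) (i : ℕ) : ℤ := if σ i then u (i + 1) else l (i + 1)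

variable {K : ℕ → ℤ → ℤ → ℝ} {l u : ℕ → ℤ} {σ : ℕ → Bool} {F : ℤ → ℝ}

theorem pat_nonneg (hK : ∀ i x y, 0 ≤ K i x y) (hF : ∀ x, 0 ≤ F x) (i : ℕ) (y : ℤ) : 0 ≤ pat K l u F i y := by
  induction i generalizing y with
  | zero => exact hF y
  | succ i ih => exact sum_nonneg fun x _ => mul_nonneg (ih x) (hK i x y)

/-- One step: the start of the slab is moved to `P i`. -/
theorem step (tp : ∀ i x x' y y', x ≤ x' → y ≤ y' → K i x y' * K i x' y ≤ K i x y * K i x' y') (i : ℕ) {x y : ℤ}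
    (hx : x ∈ Icc (l i) (u i)) (hy : y ∈ Icc (l (i + 1)) (u (i + 1))) :
    K i x y * K i (P σ l u i) (Q σ l u i) ≤ K i x (Q σ l u i) * K i (P σ l u i) y := by
  rw [mem_Icc] at hx hy
  unfold P Q
  cases σ i with
  | true =>
    simp only [if_true]
    exact tp i x (u i) (l (i + 1)) y hx.2 hy.1
  | false =>
    simp only [Bool.false_eq_true, if_false]
    have := tp i (l i) x y (u (i + 1)) hx.1 hy.2
    linarith [mul_comm (K i x y) (K i (l i) (u (i + 1))), mul_comm (K i x (u (i + 1))) (K i (l i) y)]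

/-- The lower half of a bracket. -/
theorem lower (tp : ∀ i x x' y y', x ≤ x' → y ≤ y' → K i x y' * K i x' y ≤ K i x y * K i x' y') (i : ℕ)
    (hσ : if σ i then u i ≤ u (i + 1) else l (i + 1) ≤ l i) {q : ℤ} (hq : q ∈ Icc (l (i + 1)) (u (i + 1))) :
    K i (P σ l u i) q * K i (A σ l u i) (Q σ l u i) ≤ K i (P σ l u i) (Q σ l u i) * K i (A σ l u i) q := by
  rw [mem_Icc] at hq
  unfold P Q A
  cases h : σ i with
  | true =>
    rw [h] at hσ
    simp only [if_true] at hσ ⊢
    exact tp i (u i) (u (i + 1)) (l (i + 1)) q hσ hq.1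
  | false =>
    rw [h] at hσ
    simp only [Bool.false_eq_true, if_false] at hσ ⊢
    have := tp i (l (i + 1)) (l i) q (u (i + 1)) hσ hq.2
    linarith [mul_comm (K i (l i) q) (K i (l (i + 1)) (u (i + 1))), mul_comm (K i (l i) (u (i + 1))) (K i (l (i + 1)) q)]

/-- The upper half of a bracket. -/
theorem upper (tp : ∀ i x x' y y', x ≤ x' → y ≤ y' → K i x y' * K i x' y ≤ K i x y * K i x' y') (i : ℕ)
    (hσ : if σ i then l i ≤ l (i + 1) else u (i + 1) ≤ u i) {q : ℤ} (hq : q ∈ Icc (l i) (u i)) :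
    K i q (Q σ l u i) * K i (P σ l u i) (B σ l u i) ≤ K i (P σ l u i) (Q σ l u i) * K i q (B σ l u i) := by
  rw [mem_Icc] at hq
  unfold P Q B
  cases h : σ i with
  | true =>
    rw [h] at hσ
    simp only [if_true] at hσ ⊢
    have := tp i q (u i) (l i) (l (i + 1)) hq.2 hσ
    linarith [mul_comm (K i q (l i)) (K i (u i) (l (i + 1)))]
  | false =>
    rw [h] at hσ
    simp only [Bool.false_eq_true, if_false] at hσ ⊢
    have := tp i (l i) q (u (i + 1)) (u i) hq.1 hσ
    linarith [mul_comm (K i (l i) (u i)) (K i q (u (i + 1)))]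

/-- **The pattern inequality**, product form: for `y` in the cell `m + 1`,
`pat (m + 1) y ≤ S₀ * ∏_{i < m} ratio i * K m (P m) y`. Here `W i` bounds the two slab weight between the opposite ends of the cell
`i + 1`. -/
theorem pat_le (hK : ∀ i x y, 0 ≤ K i x y) (hF : ∀ x, 0 ≤ F x)
    (tp : ∀ i x x' y y', x ≤ x' → y ≤ y' → K i x y' * K i x' y ≤ K i x y * K i x' y')
    (hσ : ∀ i, if σ i then l i ≤ l (i + 1) ∧ u i ≤ u (i + 1) else l (i + 1) ≤ l i ∧ u (i + 1) ≤ u i)
    {W : ℕ → ℝ} (m : ℕ)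
    (hW : ∀ i < m, ∑ q ∈ Icc (l (i + 1)) (u (i + 1)), K i (A σ l u i) q * K (i + 1) q (B σ l u (i + 1)) ≤ W i)
    (h1 : ∀ i ≤ m, 0 < K i (P σ l u i) (Q σ l u i)) (h2 : ∀ i < m, 0 < K i (A σ l u i) (Q σ l u i))
    (h3 : ∀ i < m, 0 < K (i + 1) (P σ l u (i + 1)) (B σ l u (i + 1))) :
    ∀ y ∈ Icc (l (m + 1)) (u (m + 1)), pat K l u F (m + 1) y ≤
      ((∑ x ∈ Icc (l 0) (u 0), F x * K 0 x (Q σ l u 0)) / K 0 (P σ l u 0) (Q σ l u 0) *
        ∏ i ∈ range m, (K i (P σ l u i) (Q σ l u i) * W i /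
          (K i (A σ l u i) (Q σ l u i) * K (i + 1) (P σ l u (i + 1)) (B σ l u (i + 1))))) * K m (P σ l u m) y := by
  induction m with
  | zero =>
    intro y hy
    have h0 := h1 0 le_rfl
    simp only [range_zero, prod_empty, mul_one]
    rw [div_mul_eq_mul_div, le_div_iff₀ h0]
    show (∑ x ∈ Icc (l 0) (u 0), F x * K 0 x y) * _ ≤ _
    rw [sum_mul, sum_mul]
    apply sum_le_sum
    intro x hx
    have h := step (σ := σ) tp 0 hx hy
    have := mul_le_mul_of_nonneg_left h (hF x)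
    linarith [mul_assoc (F x) (K 0 x y) (K 0 (P σ l u 0) (Q σ l u 0)),
      mul_assoc (F x) (K 0 x (Q σ l u 0)) (K 0 (P σ l u 0) y)]
  | succ m ih =>
    intro y hy
    have ih' := ih (fun i hi => hW i (by omega)) (fun i hi => h1 i (by omega)) (fun i hi => h2 i (by omega))
      (fun i hi => h3 i (by omega))
    set R : ℝ := (∑ x ∈ Icc (l 0) (u 0), F x * K 0 x (Q σ l u 0)) / K 0 (P σ l u 0) (Q σ l u 0) *
        ∏ i ∈ range m, (K i (P σ l u i) (Q σ l u i) * W i /
          (K i (A σ l u i) (Q σ l u i) * K (i + 1) (P σ l u (i + 1)) (B σ l u (i + 1)))) with hR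
    have hW0 : ∀ i < m + 1, 0 ≤ W i := fun i hi =>
      (sum_nonneg fun q _ => mul_nonneg (hK _ _ _) (hK _ _ _)).trans (hW i hi)
    have hR0 : 0 ≤ R := by
      apply mul_nonneg
      · exact div_nonneg (sum_nonneg fun x _ => mul_nonneg (hF x) (hK _ _ _)) (hK _ _ _)
      · apply prod_nonneg
        intro i hi
        rw [mem_range] at hi
        exact div_nonneg (mul_nonneg (hK _ _ _) (hW0 i (by omega))) (mul_nonneg (hK _ _ _) (hK _ _ _))
    have hp1 := h1 (m + 1) le_rfl
    have hp2 := h2 m (by omega)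
    have hp3 := h3 m (by omega)
    -- the end of the step
    have hA : pat K l u F (m + 1 + 1) y * K (m + 1) (P σ l u (m + 1)) (Q σ l u (m + 1)) ≤
        R * (∑ x ∈ Icc (l (m + 1)) (u (m + 1)), K m (P σ l u m) x * K (m + 1) x (Q σ l u (m + 1))) *
          K (m + 1) (P σ l u (m + 1)) y := by
      show (∑ x ∈ Icc (l (m + 1)) (u (m + 1)), pat K l u F (m + 1) x * K (m + 1) x y) * _ ≤ _
      rw [sum_mul, mul_sum, sum_mul]
      apply sum_le_sum
      intro x hx
      have h := step (σ := σ) tp (m + 1) hx hy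
      have h4 := ih' x hx
      have h5 : 0 ≤ pat K l u F (m + 1) x := pat_nonneg hK hF _ _
      calc pat K l u F (m + 1) x * K (m + 1) x y * K (m + 1) (P σ l u (m + 1)) (Q σ l u (m + 1))
          = pat K l u F (m + 1) x * (K (m + 1) x y * K (m + 1) (P σ l u (m + 1)) (Q σ l u (m + 1))) := by ring
        _ ≤ pat K l u F (m + 1) x * (K (m + 1) x (Q σ l u (m + 1)) * K (m + 1) (P σ l u (m + 1)) y) :=
            mul_le_mul_of_nonneg_left h h5
        _ ≤ (R * K m (P σ l u m) x) * (K (m + 1) x (Q σ l u (m + 1)) * K (m + 1) (P σ l u (m + 1)) y) :=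
            mul_le_mul_of_nonneg_right h4 (mul_nonneg (hK _ _ _) (hK _ _ _))
        _ = _ := by ring
    -- the bracket
    have hG : (∑ x ∈ Icc (l (m + 1)) (u (m + 1)), K m (P σ l u m) x * K (m + 1) x (Q σ l u (m + 1))) *
        (K m (A σ l u m) (Q σ l u m) * K (m + 1) (P σ l u (m + 1)) (B σ l u (m + 1))) ≤
        K m (P σ l u m) (Q σ l u m) * K (m + 1) (P σ l u (m + 1)) (Q σ l u (m + 1)) * W m := by
      have h4 : ∀ x ∈ Icc (l (m + 1)) (u (m + 1)), K m (P σ l u m) x * K (m + 1) x (Q σ l u (m + 1)) *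
          (K m (A σ l u m) (Q σ l u m) * K (m + 1) (P σ l u (m + 1)) (B σ l u (m + 1))) ≤
          K m (P σ l u m) (Q σ l u m) * K (m + 1) (P σ l u (m + 1)) (Q σ l u (m + 1)) *
            (K m (A σ l u m) x * K (m + 1) x (B σ l u (m + 1))) := by
        intro x hx
        have h5 := lower (σ := σ) tp m (by
          have := hσ m
          cases h : σ m with
          | true => rw [h] at this; simp only [if_true] at this ⊢; exact this.2
          | false => rw [h] at this; simp only [Bool.false_eq_true, if_false] at this ⊢; exact this.1) hx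
        have h6 := upper (σ := σ) tp (m + 1) (by
          have := hσ (m + 1)
          cases h : σ (m + 1) with
          | true => rw [h] at this; simp only [if_true] at this ⊢; exact this.1
          | false => rw [h] at this; simp only [Bool.false_eq_true, if_false] at this ⊢; exact this.2) hx
        calc K m (P σ l u m) x * K (m + 1) x (Q σ l u (m + 1)) *
              (K m (A σ l u m) (Q σ l u m) * K (m + 1) (P σ l u (m + 1)) (B σ l u (m + 1)))
            = (K m (P σ l u m) x * K m (A σ l u m) (Q σ l u m)) *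
              (K (m + 1) x (Q σ l u (m + 1)) * K (m + 1) (P σ l u (m + 1)) (B σ l u (m + 1))) := by ring
          _ ≤ (K m (P σ l u m) (Q σ l u m) * K m (A σ l u m) x) *
              (K (m + 1) (P σ l u (m + 1)) (Q σ l u (m + 1)) * K (m + 1) x (B σ l u (m + 1))) :=
              mul_le_mul h5 h6 (mul_nonneg (hK _ _ _) (hK _ _ _)) (mul_nonneg (hK _ _ _) (hK _ _ _))
          _ = _ := by ring
      rw [sum_mul]
      refine (sum_le_sum h4).trans ?_
      rw [← mul_sum]
      exact mul_le_mul_of_nonneg_left (hW m (by omega)) (mul_nonneg (hK _ _ _) (hK _ _ _))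
    rw [prod_range_succ, ← mul_assoc, ← hR]
    -- assembly
    have hden : 0 < K m (A σ l u m) (Q σ l u m) * K (m + 1) (P σ l u (m + 1)) (B σ l u (m + 1)) := mul_pos hp2 hp3
    have hG' : (∑ x ∈ Icc (l (m + 1)) (u (m + 1)), K m (P σ l u m) x * K (m + 1) x (Q σ l u (m + 1))) ≤
        K m (P σ l u m) (Q σ l u m) * K (m + 1) (P σ l u (m + 1)) (Q σ l u (m + 1)) * W m /
          (K m (A σ l u m) (Q σ l u m) * K (m + 1) (P σ l u (m + 1)) (B σ l u (m + 1))) := by
      rw [le_div_iff₀ hden]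
      exact hG
    have h6 : pat K l u F (m + 1 + 1) y * K (m + 1) (P σ l u (m + 1)) (Q σ l u (m + 1)) ≤
        R * (K m (P σ l u m) (Q σ l u m) * W m /
          (K m (A σ l u m) (Q σ l u m) * K (m + 1) (P σ l u (m + 1)) (B σ l u (m + 1)))) *
          K (m + 1) (P σ l u (m + 1)) y * K (m + 1) (P σ l u (m + 1)) (Q σ l u (m + 1)) := by
      refine hA.trans ?_
      have h7 := mul_le_mul_of_nonneg_right (mul_le_mul_of_nonneg_left hG' hR0) (hK (m + 1) (P σ l u (m + 1)) y)
      refine h7.trans (le_of_eq ?_)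
      ring
    exact le_of_mul_le_mul_right h6 hp1

/-- **The pattern inequality**, cost form: `Z` is the weight of the pattern with start weights `F` and end weights `H`. The brackets
`log W i - log K i (A i) (Q i) - log K (i + 1) (P (i + 1)) (B (i + 1)) + log K i (P i) (Q i)` have no end costs. -/
theorem log_pat_le (hK : ∀ i x y, 0 ≤ K i x y) (hF : ∀ x, 0 ≤ F x)
    (tp : ∀ i x x' y y', x ≤ x' → y ≤ y' → K i x y' * K i x' y ≤ K i x y * K i x' y')
    (hσ : ∀ i, if σ i then l i ≤ l (i + 1) ∧ u i ≤ u (i + 1) else l (i + 1) ≤ l i ∧ u (i + 1) ≤ u i)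
    {W : ℕ → ℝ} (m : ℕ) (hW0 : ∀ i < m, 0 < W i)
    (hW : ∀ i < m, ∑ q ∈ Icc (l (i + 1)) (u (i + 1)), K i (A σ l u i) q * K (i + 1) q (B σ l u (i + 1)) ≤ W i)
    (h1 : ∀ i ≤ m, 0 < K i (P σ l u i) (Q σ l u i)) (h2 : ∀ i < m, 0 < K i (A σ l u i) (Q σ l u i))
    (h3 : ∀ i < m, 0 < K (i + 1) (P σ l u (i + 1)) (B σ l u (i + 1))) {H : ℤ → ℝ} (hH : ∀ y, 0 ≤ H y)
    (hZ : 0 < ∑ y ∈ Icc (l (m + 1)) (u (m + 1)), pat K l u F (m + 1) y * H y) :
    Real.log (∑ y ∈ Icc (l (m + 1)) (u (m + 1)), pat K l u F (m + 1) y * H y) ≤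
      Real.log (∑ x ∈ Icc (l 0) (u 0), F x * K 0 x (Q σ l u 0)) - Real.log (K 0 (P σ l u 0) (Q σ l u 0)) +
      ∑ i ∈ range m, (Real.log (K i (P σ l u i) (Q σ l u i)) + Real.log (W i) - Real.log (K i (A σ l u i) (Q σ l u i))
        - Real.log (K (i + 1) (P σ l u (i + 1)) (B σ l u (i + 1)))) +
      Real.log (∑ y ∈ Icc (l (m + 1)) (u (m + 1)), K m (P σ l u m) y * H y) := by
  set S₀ := ∑ x ∈ Icc (l 0) (u 0), F x * K 0 x (Q σ l u 0) with hS₀
  set SM := ∑ y ∈ Icc (l (m + 1)) (u (m + 1)), K m (P σ l u m) y * H y with hSM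
  set Pr := ∏ i ∈ range m, (K i (P σ l u i) (Q σ l u i) * W i /
          (K i (A σ l u i) (Q σ l u i) * K (i + 1) (P σ l u (i + 1)) (B σ l u (i + 1)))) with hPr
  have hpos : ∀ i ∈ range m, 0 < K i (P σ l u i) (Q σ l u i) * W i /
          (K i (A σ l u i) (Q σ l u i) * K (i + 1) (P σ l u (i + 1)) (B σ l u (i + 1))) := fun i hi => by
    rw [mem_range] at hi
    exact div_pos (mul_pos (h1 i (by omega)) (hW0 i hi)) (mul_pos (h2 i hi) (h3 i hi))
  have hPr0 : 0 < Pr := prod_pos hpos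
  have hk0 := h1 0 (Nat.zero_le m)
  have hle : ∑ y ∈ Icc (l (m + 1)) (u (m + 1)), pat K l u F (m + 1) y * H y ≤
      S₀ / K 0 (P σ l u 0) (Q σ l u 0) * Pr * SM := by
    rw [hSM, mul_sum]
    apply sum_le_sum
    intro y hy
    have h := pat_le hK hF tp hσ m hW h1 h2 h3 y hy
    have := mul_le_mul_of_nonneg_right h (hH y)
    linarith [mul_assoc (S₀ / K 0 (P σ l u 0) (Q σ l u 0) * Pr) (K m (P σ l u m) y) (H y)]
  have hS0 : 0 ≤ S₀ := sum_nonneg fun x _ => mul_nonneg (hF x) (hK _ _ _)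
  have hSM0 : 0 ≤ SM := sum_nonneg fun y _ => mul_nonneg (hK _ _ _) (hH y)
  have hS1 : 0 < S₀ := by
    rcases hS0.eq_or_lt with h | h
    · rw [← h] at hle
      simp only [zero_div, zero_mul] at hle
      linarith
    · exact h
  have hSM1 : 0 < SM := by
    rcases hSM0.eq_or_lt with h | h
    · rw [← h] at hle
      simp only [mul_zero] at hle
      linarith
    · exact h
  refine (Real.log_le_log hZ hle).trans (le_of_eq ?_)
  rw [Real.log_mul (mul_pos (div_pos hS1 hk0) hPr0).ne' hSM1.ne', Real.log_mul (div_pos hS1 hk0).ne' hPr0.ne',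
    Real.log_div hS1.ne' hk0.ne', hPr, Real.log_prod (fun i hi => (hpos i hi).ne')]
  congr 2
  apply sum_congr rfl
  intro i hi
  rw [mem_range] at hi
  rw [Real.log_div (mul_pos (h1 i (by omega)) (hW0 i hi)).ne' (mul_pos (h2 i hi) (h3 i hi)).ne',
    Real.log_mul (h1 i (by omega)).ne' (hW0 i hi).ne', Real.log_mul (h2 i hi).ne' (h3 i hi).ne']
  ring

end Pool.Agent.W_7d29a1_g.Pattern
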