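import Pool.Agent.W_7d29a1_g.Junction67
import Pool.Agent.W_7d29a1_F.CoreD5

/-!
TRACK G: sums over patterns of cells, and the junction inequality in the model. helper67.
-/

namespace Pool.Agent.W_7d29a1_g.K67

open Pool.Agent.W_7d29a1_F MeasureTheory

/-! ### Nested sums over patterns -/

section Nested

variable {ι : Type*}

/-- The sum of `F τ` over the patterns `τ` which agree with `σ` outside `[k, k + m)` and have `τ j ∈ I j`
for `j` in `[k, k + m)`. -/
def TS (I : ℕ → Finset ι) : ℕ → ℕ → ((ℕ → ι) → ℝ) → (ℕ → ι) → ℝ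
  | 0, _, F, σ => F σ
  | m + 1, k, F, σ => ∑ i ∈ I k, TS I m (k + 1) F (Function.update σ k i)

variable {I : ℕ → Finset ι}

theorem TS_mono_on {F F' : (ℕ → ι) → ℝ} : ∀ (m k : ℕ) (σ : ℕ → ι),
    (∀ τ : ℕ → ι, (∀ j < k, τ j = σ j) → (∀ j, k ≤ j → j < k + m → τ j ∈ I j) →
      (∀ j, k + m ≤ j → τ j = σ j) → F τ ≤ F' τ) →
    TS I m k F σ ≤ TS I m k F' σ
  | 0, k, σ, h => h σ (fun _ _ => rfl) (fun j h1 h2 => absurd h2 (by omega)) (fun _ _ => rfl)
  | m + 1, k, σ, h => by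
    refine Finset.sum_le_sum fun i hi => TS_mono_on m (k + 1) _ fun τ h1 h2 h3 => ?_
    refine h τ ?_ ?_ ?_
    · intro j hj
      rw [h1 j (by omega), Function.update_of_ne (by omega)]
    · intro j h4 h5
      rcases Nat.eq_or_lt_of_le h4 with h6 | h6
      · rw [← h6, h1 k (by omega), Function.update_self]
        exact hi
      · exact h2 j (by omega) (by omega)
    · intro j hj
      rw [h3 j (by omega), Function.update_of_ne (by omega)]

theorem TS_congr_on {F F' : (ℕ → ι) → ℝ} (m k : ℕ) (σ : ℕ → ι)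
    (h : ∀ τ : ℕ → ι, (∀ j < k, τ j = σ j) → (∀ j, k ≤ j → j < k + m → τ j ∈ I j) →
      (∀ j, k + m ≤ j → τ j = σ j) → F τ = F' τ) :
    TS I m k F σ = TS I m k F' σ :=
  le_antisymm (TS_mono_on m k σ fun τ h1 h2 h3 => (h τ h1 h2 h3).le)
    (TS_mono_on m k σ fun τ h1 h2 h3 => (h τ h1 h2 h3).ge)

theorem TS_mono {F F' : (ℕ → ι) → ℝ} (h : ∀ τ, F τ ≤ F' τ) (m k : ℕ) (σ : ℕ → ι) :
    TS I m k F σ ≤ TS I m k F' σ := TS_mono_on m k σ fun τ _ _ _ => h τ

theorem TS_nonneg {F : (ℕ → ι) → ℝ} (h : ∀ τ, 0 ≤ F τ) : ∀ (m k : ℕ) (σ : ℕ → ι), 0 ≤ TS I m k F σ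
  | 0, _, σ => h σ
  | m + 1, k, σ => Finset.sum_nonneg fun i _ => TS_nonneg h m (k + 1) _

theorem TS_mul_left (c : ℝ) (F : (ℕ → ι) → ℝ) : ∀ (m k : ℕ) (σ : ℕ → ι),
    TS I m k (fun τ => c * F τ) σ = c * TS I m k F σ
  | 0, _, _ => rfl
  | m + 1, k, σ => by
    show ∑ i ∈ I k, TS I m (k + 1) (fun τ => c * F τ) (Function.update σ k i) = _
    rw [Finset.sum_congr rfl fun i _ => TS_mul_left c F m (k + 1) (Function.update σ k i),
      ← Finset.mul_sum]
    rfl

theorem TS_sum {κ : Type*} (S : Finset κ) (F : κ → (ℕ → ι) → ℝ) : ∀ (m k : ℕ) (σ : ℕ → ι),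
    TS I m k (fun τ => ∑ j ∈ S, F j τ) σ = ∑ j ∈ S, TS I m k (F j) σ
  | 0, _, _ => rfl
  | m + 1, k, σ => by
    show ∑ i ∈ I k, TS I m (k + 1) (fun τ => ∑ j ∈ S, F j τ) (Function.update σ k i) = _
    rw [Finset.sum_congr rfl fun i _ => TS_sum S F m (k + 1) (Function.update σ k i),
      Finset.sum_comm]
    rfl

theorem rpow_sum_le {κ : Type*} (S : Finset κ) (f : κ → ℝ) (hf : ∀ i ∈ S, 0 ≤ f i) {θ : ℝ}
    (h0 : 0 < θ) (h1 : θ ≤ 1) : (∑ i ∈ S, f i) ^ θ ≤ ∑ i ∈ S, f i ^ θ := by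
  classical
  induction S using Finset.induction_on with
  | empty => simp [Real.zero_rpow h0.ne']
  | insert a S ha ih =>
    rw [Finset.sum_insert ha, Finset.sum_insert ha]
    have h2 := ih fun i hi => hf i (Finset.mem_insert_of_mem hi)
    refine (Real.rpow_add_le_add_rpow (hf a (Finset.mem_insert_self a S))
      (Finset.sum_nonneg fun i hi => hf i (Finset.mem_insert_of_mem hi)) h0.le h1).trans ?_
    linarith

/-- The power `θ ≤ 1` of a nested sum. -/
theorem TS_rpow_le {F : (ℕ → ι) → ℝ} (h : ∀ τ, 0 ≤ F τ) {θ : ℝ} (h0 : 0 < θ) (h1 : θ ≤ 1) :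
    ∀ (m k : ℕ) (σ : ℕ → ι), TS I m k F σ ^ θ ≤ TS I m k (fun τ => F τ ^ θ) σ
  | 0, _, _ => le_rfl
  | m + 1, k, σ => by
    show (∑ i ∈ I k, TS I m (k + 1) F (Function.update σ k i)) ^ θ ≤ _
    exact (rpow_sum_le _ _ (fun i _ => TS_nonneg h m (k + 1) _) h0 h1).trans
      (Finset.sum_le_sum fun i _ => TS_rpow_le h h0 h1 m (k + 1) _)

/-- The expectation of a nested sum. -/
theorem TS_integral {Ω : Type*} [MeasurableSpace Ω] {ν : Measure Ω} {F : (ℕ → ι) → Ω → ℝ}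
    (hF : ∀ τ, Integrable (F τ) ν) : ∀ (m k : ℕ) (σ : ℕ → ι),
    Integrable (fun ω => TS I m k (fun τ => F τ ω) σ) ν ∧
      ∫ ω, TS I m k (fun τ => F τ ω) σ ∂ν = TS I m k (fun τ => ∫ ω, F τ ω ∂ν) σ
  | 0, _, σ => ⟨hF σ, rfl⟩
  | m + 1, k, σ => by
    have h := fun i => TS_integral hF m (k + 1) (Function.update σ k i)
    refine ⟨integrable_finset_sum _ fun i _ => (h i).1, ?_⟩
    show ∫ ω, ∑ i ∈ I k, TS I m (k + 1) (fun τ => F τ ω) (Function.update σ k i) ∂ν = _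
    rw [integral_finset_sum _ fun i _ => (h i).1]
    exact Finset.sum_congr rfl fun i _ => (h i).2

/-- Transfer bound: `f k (τ k) (τ (k + 1))` with all row sums at most `ρ`; the last factor is `g (τ (N - 1))`. -/
theorem TS_transfer {f : ℕ → ι → ι → ℝ} (hf : ∀ k i j, 0 ≤ f k i j) {ρ : ℝ} (hρ : 0 ≤ ρ)
    (hs : ∀ k, ∀ i ∈ I k, ∑ j ∈ I (k + 1), f k i j ≤ ρ) : ∀ (m k : ℕ) (σ : ℕ → ι), σ k ∈ I k →
    TS I m (k + 1) (fun τ => ∏ j ∈ Finset.Ico k (k + m), f j (τ j) (τ (j + 1))) σ ≤ ρ ^ m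
  | 0, k, σ, _ => by simp [TS]
  | m + 1, k, σ, hσ => by
    show ∑ i ∈ I (k + 1), TS I m (k + 1 + 1) (fun τ => ∏ j ∈ Finset.Ico k (k + (m + 1)),
      f j (τ j) (τ (j + 1))) (Function.update σ (k + 1) i) ≤ _
    have h1 : ∀ i ∈ I (k + 1), TS I m (k + 1 + 1) (fun τ => ∏ j ∈ Finset.Ico k (k + (m + 1)),
        f j (τ j) (τ (j + 1))) (Function.update σ (k + 1) i) ≤ f k (σ k) i * ρ ^ m := by
      intro i hi
      have h2 : TS I m (k + 1 + 1) (fun τ => ∏ j ∈ Finset.Ico k (k + (m + 1)),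
          f j (τ j) (τ (j + 1))) (Function.update σ (k + 1) i) =
          TS I m (k + 1 + 1) (fun τ => f k (σ k) i * ∏ j ∈ Finset.Ico (k + 1) (k + 1 + m),
            f j (τ j) (τ (j + 1))) (Function.update σ (k + 1) i) := by
        refine TS_congr_on m (k + 1 + 1) _ fun τ h3 _ _ => ?_
        rw [Finset.prod_eq_prod_Ico_succ_bot (by omega), h3 k (by omega), h3 (k + 1) (by omega),
          Function.update_self, Function.update_of_ne (by omega),
          show k + (m + 1) = k + 1 + m by ring]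
      rw [h2, TS_mul_left]
      refine mul_le_mul_of_nonneg_left ?_ (hf _ _ _)
      exact TS_transfer hf hρ hs m (k + 1) _ (by rw [Function.update_self]; exact hi)
    refine (Finset.sum_le_sum h1).trans ?_
    rw [← Finset.sum_mul, pow_succ, mul_comm (ρ ^ m) ρ]
    exact mul_le_mul_of_nonneg_right (hs k (σ k) hσ) (pow_nonneg hρ m)

end Nested

/-! ### Decomposition of the weights into patterns -/

section Dec

variable {P ι : Type*} {W : P → P → ℝ} {z : P}

theorem ZJ_congr {A A' B B' : ℕ → Finset P} : ∀ (m k : ℕ) (p : P),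
    (∀ j, k ≤ j → A j = A' j ∧ B j = B' j) → ZJ W A B z m k p = ZJ W A' B' z m k p
  | 0, _, _, _ => rfl
  | m + 1, k, p, h => by
    simp only [ZJ, (h k le_rfl).1, (h k le_rfl).2]
    refine Finset.sum_congr rfl fun u _ => ?_
    congr 1
    refine Finset.sum_congr rfl fun v _ => ?_
    rw [ZJ_congr m (k + 1) v fun j hj => h j (by omega)]

/-- DECOMPOSITION: the weight is at most the sum over the patterns of the weights of the patterns. `I k` is
the set of the types of the junction `k` (pairs of cells `A k i`, `B k i`). `D k p`: the site `p` is not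
later than the time `s k`. -/
theorem dec_abs (hW : ∀ a b, 0 ≤ W a b) (I : ℕ → Finset ι) (A B : ℕ → ι → Finset P) (D : ℕ → P → Prop)
    {N : ℕ}
    (hdec : ∀ k < N, ∀ p, D k p → W p z ≤ ∑ i ∈ I k, ∑ u ∈ A k i, W p u * ∑ v ∈ B k i, W u v * W v z)
    (hD : ∀ k, k + 1 < N → ∀ i ∈ I k, ∀ v ∈ B k i, D (k + 1) v) : ∀ (m k : ℕ) (σ : ℕ → ι) (p : P),
    k + m = N → (0 < m → D k p) →
    W p z ≤ TS I m k (fun τ => ZJ W (fun j => A j (τ j)) (fun j => B j (τ j)) z m k p) σ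
  | 0, _, _, _, _, _ => le_rfl
  | m + 1, k, σ, p, hk, hp => by
    refine (hdec k (by omega) p (hp (by omega))).trans (Finset.sum_le_sum fun i hi => ?_)
    have h1 : ∀ u ∈ A k i, ∀ v ∈ B k i, W u v * W v z ≤ W u v * TS I m (k + 1)
        (fun τ => ZJ W (fun j => A j (τ j)) (fun j => B j (τ j)) z m (k + 1) v)
        (Function.update σ k i) := by
      intro u _ v hv
      refine mul_le_mul_of_nonneg_left (dec_abs hW I A B D hdec hD m (k + 1) _ v (by omega)
        fun hm => hD k (by omega) i hi v hv) (hW _ _)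
    refine (Finset.sum_le_sum fun u hu => mul_le_mul_of_nonneg_left
      (Finset.sum_le_sum fun v hv => h1 u hu v hv) (hW _ _)).trans (le_of_eq ?_)
    have h2 : TS I m (k + 1) (fun τ => ZJ W (fun j => A j (τ j)) (fun j => B j (τ j)) z (m + 1) k p)
        (Function.update σ k i) = TS I m (k + 1) (fun τ => ∑ u ∈ A k i, W p u * ∑ v ∈ B k i, W u v *
          ZJ W (fun j => A j (τ j)) (fun j => B j (τ j)) z m (k + 1) v) (Function.update σ k i) := by
      refine TS_congr_on m (k + 1) _ fun τ h3 _ _ => ?_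
      have h4 : τ k = i := by rw [h3 k (by omega), Function.update_self]
      simp only [ZJ, h4]
    rw [h2, TS_sum]
    refine Finset.sum_congr rfl fun u _ => ?_
    rw [TS_mul_left, TS_sum]
    congr 1
    refine Finset.sum_congr rfl fun v _ => ?_
    rw [TS_mul_left]

end Dec

end Pool.Agent.W_7d29a1_g.K67
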