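import Mathlib

/-!
MP_7d29a1_pr (G+, row 614 of the table proofs, section 3): the potential argument. The cost rates `τ w v` of the tubes of width `w`
and slope `v`, their limit `J v`. Irregular scales are harmless.
-/

set_option autoImplicit false

open Filter Topology Finset

namespace Pool.Agent.W_7d29a1_g

/-- The easy properties of the cost rates of tubes. -/
structure TJ (τ : ℕ → ℝ → ℝ) (J : ℝ → ℝ) (v₀ c C₀ : ℝ) : Prop where
  anti : ∀ v, 0 < v → v ≤ v₀ → ∀ w w' : ℕ, 1 ≤ w → w ≤ w' → τ w' v ≤ τ w v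
  lim : ∀ v, 0 < v → v ≤ v₀ → Tendsto (fun w => τ w v) atTop (𝓝 (J v))
  pos : ∀ v, 0 < v → v ≤ v₀ → 0 < J v
  zig : ∀ v v', 0 < v → v ≤ v' → v' ≤ v₀ → ∀ w : ℕ, 1 ≤ w → τ (3 * w) v ≤ τ w v'
  low : ∀ v, 0 < v → v ≤ v₀ → ∀ w : ℕ, 1 ≤ w → c / (w : ℝ) ^ C₀ ≤ τ w v

/-- The width `w` is between the saturation widths of the slopes `v'` and `v`. -/
def Rng (τ : ℕ → ℝ → ℝ) (J : ℝ → ℝ) (A v v' : ℝ) (w : ℕ) : Prop :=
  (∃ w' : ℕ, 1 ≤ w' ∧ 3 * w' ≤ w ∧ τ w' v' ≤ A * J v') ∧ A * J v < τ w v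

/-- Sharp edge: if the slope `(1 + η) v` is much more expensive than the tube of width `w`, slope `v`, then the scale is irregular. -/
def Edge (τ : ℕ → ℝ → ℝ) (J : ℝ → ℝ) (v₀ A : ℝ) (j₀ : ℕ) (C' η M : ℝ) : Prop :=
  ∀ (v : ℝ) (x : ℕ), 0 < v → (1 + η) * v ≤ v₀ → j₀ ≤ x → Rng τ J A v ((1 + η) * v) (2 ^ x) →
    M * τ (2 ^ x) v ≤ J ((1 + η) * v) → C' * τ (2 ^ (x + j₀)) v ≤ τ (2 ^ (x - j₀)) v

/-- No flat stretch: the cost rate decreases by the factor `1 + δ` over `l` octaves. -/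
def Fall (τ : ℕ → ℝ → ℝ) (J : ℝ → ℝ) (v₀ A η : ℝ) (l : ℕ) (δ : ℝ) : Prop :=
  ∀ (v : ℝ) (x : ℕ), 0 < v → (1 + η) * v ≤ v₀ → Rng τ J A v ((1 + η) * v) (2 ^ x) →
    (1 + δ) * τ (2 ^ (x + l)) v ≤ τ (2 ^ x) v

/-- The recursion of the potentials. -/
theorem recur {L T k : ℕ → ℝ} {m C₀ C : ℝ} (hC₀ : 0 ≤ C₀) (hL : ∀ i, L (i + 1) ≤ L i + m + k i)
    (hT : ∀ i, T i + (C₀ + 1) * k i ≤ T (i + 1)) (hF : ∀ i, T i ≤ C₀ * L i + C) :
    ∃ K : ℝ, 0 ≤ K ∧ ∀ i : ℕ, T i ≤ K * (i + 1) := by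
  have h1 : ∀ i : ℕ, L i ≤ L 0 + m * i + ∑ j ∈ range i, k j := by
    intro i
    induction i with
    | zero => simp
    | succ i ih =>
      rw [sum_range_succ]
      have := hL i
      push_cast
      linarith
  have h2 : ∀ i : ℕ, T 0 + (C₀ + 1) * ∑ j ∈ range i, k j ≤ T i := by
    intro i
    induction i with
    | zero => simp
    | succ i ih =>
      rw [sum_range_succ, mul_add]
      have := hT i
      linarith
  refine ⟨|C₀ * (L 0 + (C₀ * L 0 + C - T 0)) + C| + |C₀ * (m + C₀ * m)|, by positivity, fun i => ?_⟩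
  have h3 := h1 i
  have h4 := h2 i
  have h5 := hF i
  set S := ∑ j ∈ range i, k j
  have h6 : C₀ * L i ≤ C₀ * (L 0 + m * i + S) := mul_le_mul_of_nonneg_left h3 hC₀
  have h7 : S ≤ C₀ * L 0 + C₀ * (m * i) + C - T 0 := by nlinarith
  have h8 : C₀ * S ≤ C₀ * (C₀ * L 0 + C₀ * (m * i) + C - T 0) := mul_le_mul_of_nonneg_left h7 hC₀
  have hi : (0 : ℝ) ≤ i := Nat.cast_nonneg i
  have h9 : T i ≤ (C₀ * (L 0 + (C₀ * L 0 + C - T 0)) + C) + (C₀ * (m + C₀ * m)) * i := by nlinarith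
  have h10 := le_abs_self (C₀ * (L 0 + (C₀ * L 0 + C - T 0)) + C)
  have h11 : (C₀ * (m + C₀ * m)) * i ≤ |C₀ * (m + C₀ * m)| * i := mul_le_mul_of_nonneg_right (le_abs_self _) hi
  have h12 : 0 ≤ |C₀ * (L 0 + (C₀ * L 0 + C - T 0)) + C| * i := by positivity
  have h13 := abs_nonneg (C₀ * (m + C₀ * m))
  nlinarith

variable {τ : ℕ → ℝ → ℝ} {J : ℝ → ℝ} {v₀ c C₀ A : ℝ}

theorem TJ.le (h : TJ τ J v₀ c C₀) {v : ℝ} (hv : 0 < v) (hv0 : v ≤ v₀) {w : ℕ} (hw : 1 ≤ w) : J v ≤ τ w v := by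
  refine le_of_tendsto (h.lim v hv hv0) ?_
  filter_upwards [eventually_ge_atTop w] with w' hw'
  exact h.anti v hv hv0 w w' hw hw'

theorem TJ.mono (h : TJ τ J v₀ c C₀) {v v' : ℝ} (hv : 0 < v) (hvv : v ≤ v') (hv0 : v' ≤ v₀) : J v ≤ J v' := by
  refine ge_of_tendsto (h.lim v' (hv.trans_le hvv) hv0) ?_
  filter_upwards [eventually_ge_atTop 1] with w hw
  exact (h.le hv (hvv.trans hv0) (by omega)).trans (h.zig v v' hv hvv hv0 w hw)

theorem TJ.exists_sat (h : TJ τ J v₀ c C₀) (hA : 1 < A) {v : ℝ} (hv : 0 < v) (hv0 : v ≤ v₀) :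
    ∃ x : ℕ, τ (2 ^ x) v ≤ A * J v := by
  have hJ := h.pos v hv hv0
  have h1 : ∀ᶠ w in atTop, τ w v < A * J v :=
    (h.lim v hv hv0).eventually_lt_const (by nlinarith)
  have h2 : Tendsto (fun x : ℕ => 2 ^ x) atTop atTop := tendsto_pow_atTop_atTop_of_one_lt (by norm_num)
  obtain ⟨x, hx⟩ := (h2.eventually h1).exists
  exact ⟨x, hx.le⟩

open Classical in
/-- The saturation octave. -/
noncomputable def xs (τ : ℕ → ℝ → ℝ) (J : ℝ → ℝ) (A v : ℝ) : ℕ :=
  if h : ∃ x : ℕ, τ (2 ^ x) v ≤ A * J v then Nat.find h else 0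

theorem xs_spec (h : ∃ x : ℕ, τ (2 ^ x) v₀ ≤ A * J v₀) : τ (2 ^ xs τ J A v₀) v₀ ≤ A * J v₀ := by
  unfold xs
  rw [dif_pos h]
  exact Nat.find_spec h

theorem xs_min {v : ℝ} {x : ℕ} (hx : x < xs τ J A v) : A * J v < τ (2 ^ x) v := by
  classical
  unfold xs at hx
  split_ifs at hx with h
  · have := Nat.find_min h hx
    exact not_le.1 this
  · omega

/-- One step of the potential argument. -/
theorem step (h : TJ τ J v₀ c C₀) (hA : 1 < A) {j₀ l : ℕ} (hj₀ : 1 ≤ j₀) {C' η M δ : ℝ} (hC' : 1 ≤ C') (hη : 0 < η)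
    (hM : 1 ≤ M) (hδ : 0 < δ) (hE : Edge τ J v₀ A j₀ C' η M) (hF : Fall τ J v₀ A η l δ) :
    ∃ m : ℕ, ∀ v, 0 < v → (1 + η) * v ≤ v₀ → ∃ n : ℕ,
      xs τ J A v ≤ xs τ J A ((1 + η) * v) + m + 2 * j₀ * n ∧ C' ^ n * J v ≤ J ((1 + η) * v) := by
  obtain ⟨j, hj⟩ := pow_unbounded_of_one_lt (A * M) (by linarith : (1 : ℝ) < 1 + δ)
  refine ⟨2 + j * l + j₀, fun v hv hv0 => ?_⟩
  have hvv : v ≤ (1 + η) * v := by nlinarith
  have hv' : 0 < (1 + η) * v := by positivity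
  have hJ' := h.pos _ hv' hv0
  have hJ := h.pos v hv (hvv.trans hv0)
  have hmono := h.mono hv hvv hv0
  set v' := (1 + η) * v with hv'def
  set X := xs τ J A v with hX
  set X' := xs τ J A v' with hX'
  have hs : τ (2 ^ X') v' ≤ A * J v' := xs_spec (h.exists_sat hA hv' hv0)
  -- the start
  have hst : ∀ x : ℕ, X' + 2 ≤ x → (∃ w' : ℕ, 1 ≤ w' ∧ 3 * w' ≤ 2 ^ x ∧ τ w' v' ≤ A * J v') := by
    intro x hx
    refine ⟨2 ^ X', Nat.one_le_two_pow, ?_, hs⟩
    calc 3 * 2 ^ X' ≤ 2 ^ 2 * 2 ^ X' := Nat.mul_le_mul_right _ (by norm_num)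
      _ = 2 ^ (X' + 2) := by rw [← pow_add, add_comm]
      _ ≤ 2 ^ x := Nat.pow_le_pow_right (by norm_num) hx
  have hstart : τ (2 ^ (X' + 2)) v ≤ A * J v' := by
    have h1 : τ (3 * 2 ^ X') v ≤ τ (2 ^ X') v' := h.zig v v' hv hvv hv0 _ Nat.one_le_two_pow
    have h2 : τ (2 ^ (X' + 2)) v ≤ τ (3 * 2 ^ X') v := by
      refine h.anti v hv (hvv.trans hv0) _ _ ?_ ?_
      · have : 1 ≤ 2 ^ X' := Nat.one_le_two_pow
        omega
      · calc 3 * 2 ^ X' ≤ 2 ^ 2 * 2 ^ X' := Nat.mul_le_mul_right _ (by norm_num)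
          _ = 2 ^ (X' + 2) := by rw [← pow_add, add_comm]
    linarith
  -- the first part: fall to `J v' / M`
  have hfall : ∀ i : ℕ, i ≤ j → X' + 2 + j * l < X → (1 + δ) ^ i * τ (2 ^ (X' + 2 + i * l)) v ≤ A * J v' := by
    intro i
    induction i with
    | zero => intro _ _; simpa using hstart
    | succ i ih =>
      intro hi hX1
      have h1 := ih (by omega) hX1
      have hil : i * l ≤ j * l := Nat.mul_le_mul_right _ (by omega)
      have h2 := hF v (X' + 2 + i * l) hv hv0 ⟨hst _ (by omega), xs_min (by omega)⟩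
      have h3 : X' + 2 + (i + 1) * l = X' + 2 + i * l + l := by ring
      rw [h3, pow_succ, mul_assoc]
      refine le_trans (mul_le_mul_of_nonneg_left h2 (by positivity)) h1
  by_cases hc1 : X ≤ X' + (2 + j * l + j₀)
  · exact ⟨0, by omega, by simpa using hmono⟩
  push Not at hc1
  have hY : M * τ (2 ^ (X' + 2 + j * l)) v ≤ J v' := by
    have h1 := hfall j le_rfl (by omega)
    have h2 : 0 ≤ τ (2 ^ (X' + 2 + j * l)) v := hJ.le.trans (h.le hv (hvv.trans hv0) Nat.one_le_two_pow)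
    have h3 : A * M * τ (2 ^ (X' + 2 + j * l)) v ≤ A * J v' := (mul_le_mul_of_nonneg_right hj.le h2).trans h1
    nlinarith
  set Y := X' + 2 + j * l + j₀ with hYdef
  -- the second part
  have hsec : ∀ n : ℕ, (∀ i < n, Y + 2 * j₀ * i < X) → C' ^ n * τ (2 ^ (X' + 2 + j * l + 2 * j₀ * n)) v ≤ J v' := by
    intro n
    induction n with
    | zero =>
      intro _
      have h2 : 0 ≤ τ (2 ^ (X' + 2 + j * l)) v := hJ.le.trans (h.le hv (hvv.trans hv0) Nat.one_le_two_pow)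
      simp only [pow_zero, mul_zero, add_zero, one_mul]
      nlinarith
    | succ n ih =>
      intro hn
      have h1 := ih fun i hi => hn i (by omega)
      have h2 := hn n (by omega)
      have h3 : M * τ (2 ^ (Y + 2 * j₀ * n)) v ≤ J v' := by
        have h4 : τ (2 ^ (Y + 2 * j₀ * n)) v ≤ τ (2 ^ (X' + 2 + j * l)) v :=
          h.anti v hv (hvv.trans hv0) _ _ Nat.one_le_two_pow (Nat.pow_le_pow_right (by norm_num) (by omega))
        nlinarith
      have h5 := hE v (Y + 2 * j₀ * n) hv hv0 (by omega) ⟨hst _ (by omega), xs_min h2⟩ h3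
      have e1 : Y + 2 * j₀ * n + j₀ = X' + 2 + j * l + 2 * j₀ * (n + 1) := by rw [hYdef]; ring
      have e2 : Y + 2 * j₀ * n - j₀ = X' + 2 + j * l + 2 * j₀ * n := by omega
      rw [e1, e2] at h5
      rw [pow_succ, mul_assoc]
      exact (mul_le_mul_of_nonneg_left h5 (by positivity)).trans h1
  obtain ⟨n, hn1, hn2⟩ : ∃ n : ℕ, (∀ i < n, Y + 2 * j₀ * i < X) ∧ X ≤ Y + 2 * j₀ * n := by
    classical
    have hex : ∃ n : ℕ, X ≤ Y + 2 * j₀ * n := ⟨X, by nlinarith⟩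
    refine ⟨Nat.find hex, fun i hi => ?_, Nat.find_spec hex⟩
    exact not_le.1 (Nat.find_min hex hi)
  refine ⟨n, by omega, ?_⟩
  have h1 := hsec n hn1
  have h2 : J v ≤ τ (2 ^ (X' + 2 + j * l + 2 * j₀ * n)) v := h.le hv (hvv.trans hv0) Nat.one_le_two_pow
  exact (mul_le_mul_of_nonneg_left h2 (by positivity)).trans h1

/-- The potential argument: `J` has a polynomial lower bound. `C₀` is the exponent of the trivial bound `c w ^ (-C₀) ≤ τ w v`;
the number `j₀` does not depend on the factor `C'`. -/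
theorem J_pow (h : TJ τ J v₀ c C₀) (hv₀ : 0 < v₀) (hc : 0 < c) (hC₀ : 0 ≤ C₀) (hA : 1 < A)
    (H : ∃ j₀ : ℕ, 1 ≤ j₀ ∧ ∀ C' : ℝ, ∃ η M : ℝ, 0 < η ∧ 1 ≤ M ∧ Edge τ J v₀ A j₀ C' η M ∧
      ∃ (l : ℕ) (δ : ℝ), 0 < δ ∧ Fall τ J v₀ A η l δ) :
    ∃ K c' : ℝ, 0 ≤ K ∧ 0 < c' ∧ ∀ v, 0 < v → v ≤ v₀ → c' * v ^ K ≤ J v := by
  obtain ⟨j₀, hj₀, H⟩ := H
  set C' : ℝ := (2 : ℝ) ^ (2 * (j₀ : ℝ) * (C₀ + 1)) with hC'
  have hC1 : 1 ≤ C' := Real.one_le_rpow (by norm_num) (by positivity)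
  obtain ⟨η, M, hη, hM, hE, l, δ, hδ, hF⟩ := H C'
  obtain ⟨m, hm⟩ := step h hA hj₀ hC1 hη hM hδ hE hF
  have hl2 : 0 < Real.log 2 := Real.log_pos (by norm_num)
  -- the sequence of slopes
  set v : ℕ → ℝ := fun i => v₀ / (1 + η) ^ i with hv
  have hη1 : 0 < 1 + η := by linarith
  have hvpos : ∀ i, 0 < v i := fun i => by simp only [hv]; positivity
  have hvle : ∀ i, v i ≤ v₀ := fun i => by
    simp only [hv]
    exact div_le_self hv₀.le (one_le_pow₀ (by linarith))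
  have hvs : ∀ i, (1 + η) * v (i + 1) = v i := fun i => by
    simp only [hv, pow_succ]
    field_simp
  have hstep : ∀ i, ∃ n : ℕ, xs τ J A (v (i + 1)) ≤ xs τ J A (v i) + m + 2 * j₀ * n ∧ C' ^ n * J (v (i + 1)) ≤ J (v i) := by
    intro i
    have h1 := hm (v (i + 1)) (hvpos _) (by rw [hvs]; exact hvle i)
    rwa [hvs] at h1
  choose n hn1 hn2 using hstep
  have hJ : ∀ i, 0 < J (v i) := fun i => h.pos _ (hvpos i) (hvle i)
  obtain ⟨K, hK0, hK⟩ := recur (L := fun i => (xs τ J A (v i) : ℝ)) (T := fun i => -(Real.log (J (v i)) / Real.log 2))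
    (k := fun i => 2 * (j₀ : ℝ) * n i) (m := m) (C₀ := C₀) (C := (Real.log A - Real.log c) / Real.log 2) hC₀
    (fun i => by
      have := hn1 i
      exact_mod_cast this)
    (fun i => by
      have h1 := Real.log_le_log (by have := hJ (i + 1); positivity) (hn2 i)
      rw [Real.log_mul (by positivity) (hJ _).ne', Real.log_pow, hC', Real.log_rpow (by norm_num)] at h1
      have h2 : -(Real.log (J (v i)) / Real.log 2) + (C₀ + 1) * (2 * (j₀ : ℝ) * n i)
          = (-(Real.log (J (v i))) + (n i : ℝ) * (2 * (j₀ : ℝ) * (C₀ + 1) * Real.log 2)) / Real.log 2 := by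
        field_simp
      rw [h2, ← neg_div]
      exact div_le_div_of_nonneg_right (by linarith) hl2.le)
    (fun i => by
      have h1 : τ (2 ^ xs τ J A (v i)) (v i) ≤ A * J (v i) := xs_spec (h.exists_sat hA (hvpos i) (hvle i))
      have h2 := h.low (v i) (hvpos i) (hvle i) (2 ^ xs τ J A (v i)) Nat.one_le_two_pow
      have h3 : c / ((2 : ℝ) ^ xs τ J A (v i)) ^ C₀ ≤ A * J (v i) := by
        have := h2.trans h1
        push_cast at this
        exact this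
      have h4 := Real.log_le_log (by positivity) h3
      rw [Real.log_div hc.ne' (by positivity), Real.log_rpow (by positivity), Real.log_pow,
        Real.log_mul (by positivity) (hJ _).ne'] at h4
      have h5 : C₀ * (xs τ J A (v i) : ℝ) + (Real.log A - Real.log c) / Real.log 2
          = (C₀ * (xs τ J A (v i) * Real.log 2) + (Real.log A - Real.log c)) / Real.log 2 := by
        field_simp
      rw [h5, ← neg_div]
      exact div_le_div_of_nonneg_right (by linarith) hl2.le)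
  -- the lower bound along the sequence
  have hlow : ∀ i : ℕ, (2 : ℝ) ^ (-(K * (i + 1))) ≤ J (v i) := by
    intro i
    have h1 := hK i
    have h2 : -(K * (i + 1)) * Real.log 2 ≤ Real.log (J (v i)) := by
      have h3 : Real.log (J (v i)) = (Real.log (J (v i)) / Real.log 2) * Real.log 2 := by field_simp
      rw [h3]
      exact mul_le_mul_of_nonneg_right (by linarith) hl2.le
    rw [Real.rpow_def_of_pos (by norm_num), ← Real.exp_log (hJ i)]
    exact Real.exp_le_exp.2 (by linarith)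
  -- all slopes
  have hlη : 0 < Real.log (1 + η) := Real.log_pos (by linarith)
  set q : ℝ := K * Real.log 2 / Real.log (1 + η) with hq
  have hq0 : 0 ≤ q := by positivity
  refine ⟨q, (2 : ℝ) ^ (-(2 * K)) / v₀ ^ q, hq0, by positivity, fun u hu hu0 => ?_⟩
  obtain ⟨i, hi1, hi2⟩ : ∃ i : ℕ, v (i + 1) ≤ u ∧ u ≤ v i := by
    obtain ⟨k, hk⟩ := pow_unbounded_of_one_lt (v₀ / u) (by linarith : 1 < 1 + η)
    have hex : ∃ k : ℕ, v k ≤ u := by
      refine ⟨k, ?_⟩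
      simp only [hv]
      rw [div_le_iff₀ (by positivity)]
      rw [div_lt_iff₀ hu] at hk
      linarith
    classical
    rcases Nat.eq_zero_or_pos (Nat.find hex) with h0 | h0
    · have h1 := Nat.find_spec hex
      rw [h0] at h1
      have h2 : v 0 = v₀ := by simp [hv]
      have h3 : u = v₀ := le_antisymm hu0 (by rw [← h2]; exact h1)
      refine ⟨0, ?_, by rw [h2, h3]⟩
      rw [h3]
      exact hvle 1
    · refine ⟨Nat.find hex - 1, ?_, ?_⟩
      · have h1 := Nat.find_spec hex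
        rwa [Nat.sub_add_cancel h0]
      · exact (not_le.1 (Nat.find_min hex (Nat.sub_lt h0 one_pos))).le
  have h1 : (2 : ℝ) ^ (-(K * ((i + 1 : ℕ) + 1))) ≤ J u :=
    (hlow (i + 1)).trans (h.mono (hvpos _) hi1 hu0)
  refine le_trans ?_ h1
  -- `(u / v₀) ^ q ≤ 2 ^ (- K i)`
  have h2 : (i : ℝ) * Real.log (1 + η) ≤ Real.log v₀ - Real.log u := by
    have h3 := Real.log_le_log hu hi2
    simp only [hv] at h3
    rw [Real.log_div hv₀.ne' (by positivity), Real.log_pow] at h3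
    linarith
  have h3 : K * i * Real.log 2 ≤ q * (Real.log v₀ - Real.log u) := by
    have h4 : K * i * Real.log 2 = q * (i * Real.log (1 + η)) := by
      rw [hq]
      field_simp
    rw [h4]
    exact mul_le_mul_of_nonneg_left h2 hq0
  rw [div_mul_eq_mul_div, div_le_iff₀ (by positivity)]
  rw [Real.rpow_def_of_pos (by norm_num), Real.rpow_def_of_pos hu, Real.rpow_def_of_pos (by norm_num),
    Real.rpow_def_of_pos hv₀, ← Real.exp_add, ← Real.exp_add]
  refine Real.exp_le_exp.2 ?_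
  push_cast
  nlinarith

end Pool.Agent.W_7d29a1_g
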