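import Mathlib

/-!
MP_7d29a1_pr (G+, track G): from the closing of the cone (`f x ≥ c x - C`, conclusion of the chain) to the power law
`J v ≥ c' v ^ K`. `vb n` is the width of the cone at scale `n`: `n J (vb n) ≥ Eb n / 2`, `Eb n ≥ 1`.
-/

set_option autoImplicit false

namespace Pool.Agent.W_7d29a1_g

/-- From the widths of the cones to the rate function. -/
theorem pow_of_width {J : ℝ → ℝ} {Eb vb : ℕ → ℝ} {κ c C : ℝ} (hκ : 0 < κ) (hc : 0 < c)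
    (hJm : MonotoneOn J (Set.Icc 0 1)) (hJ0 : 0 ≤ J 0) (hvb0 : ∀ n, 1 ≤ n → 0 < vb n) (hvb1 : ∀ n, 1 ≤ n → vb n ≤ 1)
    (hE : ∀ n, 1 ≤ n → 1 ≤ Eb n) (hJv : ∀ n : ℕ, 1 ≤ n → κ * Eb n ≤ n * J (vb n))
    (hf : ∀ x : ℕ, c * x - C ≤ - Real.logb 2 (vb (2 ^ x))) :
    ∃ c' K : ℝ, 0 < c' ∧ 0 < K ∧ ∀ v, 0 ≤ v → v ≤ 1 → c' * v ^ K ≤ J v := by
  have hJnn : ∀ v, 0 ≤ v → v ≤ 1 → 0 ≤ J v := fun v h0 h1 =>
    hJ0.trans (hJm ⟨le_rfl, zero_le_one⟩ ⟨h0, h1⟩ h0)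
  have hone : ∀ x : ℕ, 1 ≤ 2 ^ x := fun x => Nat.one_le_two_pow
  -- the widths tend to zero
  have hvb : ∀ x : ℕ, vb (2 ^ x) ≤ (2 : ℝ) ^ (C - c * x) := by
    intro x
    have h1 := hf x
    have h2 : Real.logb 2 (vb (2 ^ x)) ≤ C - c * x := by linarith
    calc vb (2 ^ x) = (2 : ℝ) ^ Real.logb 2 (vb (2 ^ x)) :=
          (Real.rpow_logb (by norm_num) (by norm_num) (hvb0 _ (hone x))).symm
      _ ≤ _ := Real.rpow_le_rpow_of_exponent_le (by norm_num) h2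
  -- the rate at the widths
  have hJw : ∀ x : ℕ, κ * (2 : ℝ) ^ (-(x : ℝ)) ≤ J (vb (2 ^ x)) := by
    intro x
    have h1 := hJv (2 ^ x) (hone x)
    have h2 := hE (2 ^ x) (hone x)
    have h3 : (0 : ℝ) < 2 ^ x := by positivity
    have h4 : (2 : ℝ) ^ (-(x : ℝ)) * 2 ^ x = 1 := by
      rw [← Real.rpow_natCast 2 x, ← Real.rpow_add (by norm_num)]
      simp
    push_cast at h1
    have h5 : κ * 1 ≤ κ * Eb (2 ^ x) := mul_le_mul_of_nonneg_left h2 hκ.le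
    by_contra hlt
    push Not at hlt
    have h6 : J (vb (2 ^ x)) * 2 ^ x < κ * (2 : ℝ) ^ (-(x : ℝ)) * 2 ^ x := mul_lt_mul_of_pos_right hlt h3
    have h7 : κ * (2 : ℝ) ^ (-(x : ℝ)) * 2 ^ x = κ := by rw [mul_assoc, h4, mul_one]
    linarith
  refine ⟨min κ (κ / 2 * (2 : ℝ) ^ (-(C / c))), 1 / c, by positivity, by positivity, fun v hv0 hv1 => ?_⟩
  rcases hv0.eq_or_lt with h0 | h0
  · rw [← h0, Real.zero_rpow (by positivity), mul_zero]
    exact hJ0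
  have hvK : v ^ (1 / c) ≤ 1 := Real.rpow_le_one hv0 hv1 (by positivity)
  have hvK0 : 0 ≤ v ^ (1 / c) := Real.rpow_nonneg hv0 _
  -- the first width below `v`
  have hex : ∃ x : ℕ, vb (2 ^ x) < v := by
    have h1 : Filter.Tendsto (fun x : ℕ => (2 : ℝ) ^ (C - c * x)) Filter.atTop (nhds 0) := by
      have h2 : Filter.Tendsto (fun x : ℕ => C - c * (x : ℝ)) Filter.atTop Filter.atBot := by
        have h3 : Filter.Tendsto (fun x : ℕ => c * (x : ℝ)) Filter.atTop Filter.atTop :=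
          tendsto_natCast_atTop_atTop.const_mul_atTop hc
        simpa [sub_eq_add_neg] using
          Filter.tendsto_atBot_add_const_left Filter.atTop C (Filter.tendsto_neg_atTop_atBot.comp h3)
      exact (tendsto_rpow_atBot_of_base_gt_one (2 : ℝ) (by norm_num)).comp h2
    obtain ⟨x, hx⟩ := (h1.eventually (gt_mem_nhds h0)).exists
    exact ⟨x, (hvb x).trans_lt hx⟩
  classical
  set x := Nat.find hex with hx
  have hx1 : vb (2 ^ x) < v := Nat.find_spec hex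
  have h1 : J (vb (2 ^ x)) ≤ J v :=
    hJm ⟨(hvb0 _ (hone x)).le, hvb1 _ (hone x)⟩ ⟨hv0, hv1⟩ hx1.le
  rcases Nat.eq_zero_or_pos x with h2 | h2
  · have h3 := hJw x
    rw [h2] at h3 h1
    simp only [pow_zero, Nat.cast_zero, neg_zero, Real.rpow_zero, mul_one] at h3 h1
    calc min κ (κ / 2 * (2 : ℝ) ^ (-(C / c))) * v ^ (1 / c) ≤ κ * 1 :=
          mul_le_mul (min_le_left _ _) hvK hvK0 hκ.le
      _ ≤ J v := by linarith
  · obtain ⟨z, hz⟩ : ∃ z, x = z + 1 := ⟨x - 1, by omega⟩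
    have h3 : ¬ vb (2 ^ z) < v := Nat.find_min hex (by omega)
    push Not at h3
    have h4 : v ≤ (2 : ℝ) ^ (C - c * z) := h3.trans (hvb z)
    have h5 : v ^ (1 / c) ≤ (2 : ℝ) ^ (C / c - z) := by
      calc v ^ (1 / c) ≤ ((2 : ℝ) ^ (C - c * z)) ^ (1 / c) := Real.rpow_le_rpow hv0 h4 (by positivity)
        _ = (2 : ℝ) ^ (C / c - z) := by
            rw [← Real.rpow_mul (by norm_num)]
            congr 1
            field_simp
    have h6 := hJw x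
    have h7 : (2 : ℝ) ^ (-(x : ℝ)) = 1 / 2 * (2 : ℝ) ^ (-(C / c)) * (2 : ℝ) ^ (C / c - z) := by
      rw [hz, mul_assoc, ← Real.rpow_add (by norm_num)]
      rw [show (1 / 2 : ℝ) = (2 : ℝ) ^ (-1 : ℝ) by rw [Real.rpow_neg_one]; norm_num, ← Real.rpow_add (by norm_num)]
      congr 1
      push_cast
      ring
    calc min κ (κ / 2 * (2 : ℝ) ^ (-(C / c))) * v ^ (1 / c)
        ≤ (κ / 2 * (2 : ℝ) ^ (-(C / c))) * (2 : ℝ) ^ (C / c - z) :=
          mul_le_mul (min_le_right _ _) h5 hvK0 (by positivity)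
      _ = κ * (1 / 2 * (2 : ℝ) ^ (-(C / c)) * (2 : ℝ) ^ (C / c - z)) := by ring
      _ = κ * (2 : ℝ) ^ (-(x : ℝ)) := by rw [h7]
      _ ≤ J (vb (2 ^ x)) := h6
      _ ≤ J v := h1

end Pool.Agent.W_7d29a1_g
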