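import Pool.Agent.W_7d29a1_g.TubeA17
import Pool.Agent.W_7d29a1_g.TubeR17

/-!
Track G, section 5 of proofs row 619 (soft tube), probabilistic part: the union over the dyadic intervals and over
a grid of starting points.
-/

namespace Pool.Agent.W_7d29a1_g

open MeasureTheory ProbabilityTheory Filter Topology
open Pool.Agent.W_7d29a1_F Pool.Agent.W_7d29a1_f21

noncomputable section

variable {μ : Measure ℝ} {s : ℝ}

/-- The event of (WALL): a passage of time `l` from the left of `g` to the right of `g + L` of cost at most `c`. -/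
def Wl (μ : Measure ℝ) (s : ℝ) (t : ℕ) (l : ℕ) (g L c : ℝ) : Set Env :=
  {η | ∃ x x' : ℤ, (x : ℝ) ≤ g ∧ g + L ≤ x' ∧ Real.exp (-c) ≤ W μ s η ((t : ℤ), x) l (x' - x)}

theorem Wl_meas (t l : ℕ) (g L c : ℝ) : MeasurableSet (Wl μ s t l g L c) := by
  have e : Wl μ s t l g L c = ⋃ x : ℤ, ⋃ x' : ℤ, {η | (x : ℝ) ≤ g ∧ g + L ≤ x' ∧
      Real.exp (-c) ≤ W μ s η ((t : ℤ), x) l (x' - x)} := by
    ext η
    simp only [Wl, Set.mem_ofPred_eq, Set.mem_iUnion]
  rw [e]
  refine MeasurableSet.iUnion fun x => MeasurableSet.iUnion fun x' => ?_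
  by_cases h1 : (x : ℝ) ≤ g
  · by_cases h2 : g + L ≤ x'
    · have e2 : {η : Env | (x : ℝ) ≤ g ∧ g + L ≤ x' ∧ Real.exp (-c) ≤ W μ s η ((t : ℤ), x) l (x' - x)} =
          {η : Env | Real.exp (-c) ≤ W μ s η ((t : ℤ), x) l (x' - x)} := by
        ext η
        simp [h1, h2]
      rw [e2]
      exact measurableSet_le measurable_const (measurable_W _ _ _)
    · have e2 : {η : Env | (x : ℝ) ≤ g ∧ g + L ≤ x' ∧ Real.exp (-c) ≤ W μ s η ((t : ℤ), x) l (x' - x)} = ∅ := by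
        ext η
        simp [h2]
      rw [e2]
      exact MeasurableSet.empty
  · have e2 : {η : Env | (x : ℝ) ≤ g ∧ g + L ≤ x' ∧ Real.exp (-c) ≤ W μ s η ((t : ℤ), x) l (x' - x)} = ∅ := by
      ext η
      simp [h1]
    rw [e2]
    exact MeasurableSet.empty

/-- Translation invariance. -/
theorem Wl_shift [IsProbabilityMeasure μ] (t l : ℕ) (g L c : ℝ) :
    (law μ).real (Wl μ s t l g L c) ≤ (law μ).real (Wl μ s 0 l 0 L c) := by
  have h := real_sh (μ := μ) (((t : ℤ), ⌊g⌋) : Pt) (Wl_meas (μ := μ) (s := s) 0 l 0 L c)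
  rw [← h]
  refine measureReal_mono ?_ (measure_ne_top _ _)
  rintro η ⟨x, x', h1, h2, h3⟩
  refine ⟨x - ⌊g⌋, x' - ⌊g⌋, ?_, ?_, ?_⟩
  · have h4 : x ≤ ⌊g⌋ := Int.le_floor.2 h1
    have h5 : (x : ℝ) ≤ (⌊g⌋ : ℝ) := by exact_mod_cast h4
    push_cast
    linarith
  · have h5 := Int.floor_le g
    push_cast
    linarith
  · rw [W_sh]
    have e1 : ((((0 : ℕ) : ℤ), x - ⌊g⌋) : Pt) + ((t : ℤ), ⌊g⌋) = ((t : ℤ), x) := by
      refine Prod.ext ?_ ?_ <;> simp
    have e2 : x' - ⌊g⌋ - (x - ⌊g⌋) = x' - x := by ring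
    rw [e1, e2]
    exact h3

/-- One dyadic interval: no violated increment, one end of which is in the tube, is cheap. -/
theorem wall_level [IsProbabilityMeasure μ] {t l : ℕ} {σ w wm D L c q : ℝ} (hw : 0 ≤ w) (hD : 0 < D)
    (hL : L + D ≤ σ * l + wm) (hq : (law μ).real (Wl μ s 0 l 0 L c) ≤ q) :
    (law μ).real {η | ∃ x x' : ℤ, Vb σ w wm t (t + l) x x' ∧
      Real.exp (-c) ≤ W μ s η ((t : ℤ), x) l (x' - x)} ≤ 4 * (w / D + 1) * q := by
  obtain ⟨N, hN⟩ : ∃ N : ℕ, N = ⌈2 * w / D⌉₊ := ⟨_, rfl⟩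
  have hsub : {η : Env | ∃ x x' : ℤ, Vb σ w wm t (t + l) x x' ∧
      Real.exp (-c) ≤ W μ s η ((t : ℤ), x) l (x' - x)} ⊆
      (⋃ i ∈ Finset.range (N + 1), Wl μ s t l (σ * t - w + i * D) L c) ∪
      (⋃ i ∈ Finset.range (N + 1), Wl μ s t l (σ * (t + l : ℕ) - w + i * D - L) L c) := by
    rintro η ⟨x, x', ⟨h1, h2⟩, h3⟩
    have h1' : L + D < (x' : ℝ) - x := by
      push_cast at h1
      linarith
    rcases h2 with h2 | h2
    · left
      have h4 := abs_le.1 h2
      have hnn : 0 ≤ ((x : ℝ) - σ * t + w) / D := div_nonneg (by linarith [h4.1]) hD.le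
      simp only [Set.mem_iUnion, Finset.mem_range]
      refine ⟨⌈((x : ℝ) - σ * t + w) / D⌉₊, ?_, x, x', ?_, ?_, h3⟩
      · rw [hN]
        refine Nat.lt_succ_of_le (Nat.ceil_mono ?_)
        exact div_le_div_of_nonneg_right (by linarith [h4.2]) hD.le
      · have h5 := Nat.le_ceil (((x : ℝ) - σ * t + w) / D)
        rw [div_le_iff₀ hD] at h5
        linarith
      · have h5 := Nat.ceil_lt_add_one hnn
        have h6 : (⌈((x : ℝ) - σ * t + w) / D⌉₊ : ℝ) * D < (((x : ℝ) - σ * t + w) / D + 1) * D :=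
          mul_lt_mul_of_pos_right h5 hD
        have h7 : (((x : ℝ) - σ * t + w) / D + 1) * D = ((x : ℝ) - σ * t + w) + D := by
          field_simp
        rw [h7] at h6
        linarith
    · right
      have h4 := abs_le.1 h2
      have hnn : 0 ≤ ((x' : ℝ) - σ * (t + l : ℕ) + w) / D := div_nonneg (by linarith [h4.1]) hD.le
      simp only [Set.mem_iUnion, Finset.mem_range]
      refine ⟨⌊((x' : ℝ) - σ * (t + l : ℕ) + w) / D⌋₊, ?_, x, x', ?_, ?_, h3⟩
      · rw [hN]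
        refine Nat.lt_succ_of_le ((Nat.floor_mono ?_).trans (Nat.floor_le_ceil _))
        exact div_le_div_of_nonneg_right (by linarith [h4.2]) hD.le
      · have h5 := Nat.lt_floor_add_one (((x' : ℝ) - σ * (t + l : ℕ) + w) / D)
        have h6 : ((x' : ℝ) - σ * (t + l : ℕ) + w) / D * D <
            ((⌊((x' : ℝ) - σ * (t + l : ℕ) + w) / D⌋₊ : ℝ) + 1) * D :=
          mul_lt_mul_of_pos_right h5 hD
        rw [div_mul_cancel₀ _ hD.ne'] at h6
        linarith
      · have h5 := Nat.floor_le hnn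
        have h6 : (⌊((x' : ℝ) - σ * (t + l : ℕ) + w) / D⌋₊ : ℝ) * D ≤
            ((x' : ℝ) - σ * (t + l : ℕ) + w) / D * D := mul_le_mul_of_nonneg_right h5 hD.le
        rw [div_mul_cancel₀ _ hD.ne'] at h6
        linarith
  have hq0 : 0 ≤ q := measureReal_nonneg.trans hq
  have hN1 : (N : ℝ) < 2 * w / D + 1 := by
    rw [hN]
    exact Nat.ceil_lt_add_one (by positivity)
  have hU : ∀ f : ℕ → ℝ, (law μ).real (⋃ i ∈ Finset.range (N + 1), Wl μ s t l (f i) L c) ≤
      (N + 1) * q := by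
    intro f
    refine (measureReal_biUnion_finset_le _ _).trans ?_
    refine (Finset.sum_le_sum fun i _ => (Wl_shift (μ := μ) (s := s) t l (f i) L c).trans hq).trans ?_
    rw [Finset.sum_const, Finset.card_range, nsmul_eq_mul]
    push_cast
    exact le_rfl
  refine (measureReal_mono hsub (measure_ne_top _ _)).trans ((measureReal_union_le _ _).trans ?_)
  have h1 := hU fun i => σ * t - w + i * D
  have h2 := hU fun i => σ * (t + l : ℕ) - w + i * D - L
  have h3 : ((N : ℝ) + 1) * q ≤ 2 * (w / D + 1) * q := by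
    refine mul_le_mul_of_nonneg_right ?_ hq0
    have h4 : 2 * w / D = 2 * (w / D) := by ring
    rw [h4] at hN1
    linarith
  linarith

theorem dy_pow {k m : ℕ} (h : m ≤ k) (i : ℕ) : dy (2 ^ k) m i = i * 2 ^ (k - m) := by
  unfold dy
  obtain ⟨d, rfl⟩ := Nat.exists_eq_add_of_le h
  have e : m + d - m = d := by omega
  rw [e, pow_add, show i * (2 ^ m * 2 ^ d) = 2 ^ m * (i * 2 ^ d) by ring]
  exact Nat.mul_div_cancel_left _ (by positivity)

/-- SOFT TUBE: the paths which miss a gate are expensive. -/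
theorem soft_tube [IsProbabilityMeasure μ] {p k δ : ℕ} (hδ : δ ≤ 1) {z : ℤ} {σ w e0 Λ q0 q1 : ℝ}
    {wm D L c q : ℕ → ℝ} (hw : 0 ≤ w) (hwm : ∀ m, 0 ≤ wm m)
    (hz : |(z : ℝ) - σ * ((2 ^ k * p : ℕ) : ℝ)| ≤ e0)
    (hsum : ∑ m ∈ Finset.Icc 1 k, wm m ≤ w - (e0 + 1))
    (hD : ∀ m, 1 ≤ m → m ≤ k → 0 < D m)
    (hL : ∀ m, 1 ≤ m → m ≤ k → L m + D m ≤ σ * ((2 ^ (k - m) * p : ℕ) : ℝ) + (wm m - (e0 + 1)))
    (hq : ∀ m, 1 ≤ m → m ≤ k → (law μ).real (Wl μ s 0 (2 ^ (k - m) * p) 0 (L m) (c m)) ≤ q m)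
    (hV : (law μ).real {η | ∃ t ≤ 2 ^ k * p + δ, Λ < V μ s η 0 t} ≤ q0)
    (hR : (law μ).real {η | ∃ t ≤ 2 ^ k * p + δ, Real.exp Λ < Rv μ s η (2 ^ k * p + δ) z t} ≤ q1) :
    (law μ).real {η | ∑ m ∈ Finset.Icc 1 k, 2 ^ m * Real.exp (2 * Λ - c m) <
      W μ s η 0 (2 ^ k * p + δ) z - WR μ s (Gates p k σ w) η 0 (2 ^ k * p + δ) z} ≤
      q0 + q1 + ∑ m ∈ Finset.Icc 1 k, 2 ^ m * (4 * (w / D m + 1) * q m) := by
  obtain ⟨T, hT⟩ : ∃ T, T = 2 ^ k * p + δ := ⟨_, rfl⟩
  rw [← hT] at hV hR ⊢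
  -- the bad event of one interval
  obtain ⟨B, hB⟩ : ∃ B : ℕ → ℕ → Set Env, B = fun m i => {η : Env | ∃ x x' : ℤ,
      Vb σ w (wm m - (e0 + 1)) (i * 2 ^ (k - m) * p) (i * 2 ^ (k - m) * p + 2 ^ (k - m) * p) x x' ∧
      Real.exp (-c m) ≤ W μ s η (((i * 2 ^ (k - m) * p : ℕ) : ℤ), x) (2 ^ (k - m) * p) (x' - x)} := ⟨_, rfl⟩
  have hBq : ∀ m, 1 ≤ m → m ≤ k → ∀ i, (law μ).real (B m i) ≤ 4 * (w / D m + 1) * q m := by
    intro m hm1 hm2 i
    rw [hB]
    exact wall_level (μ := μ) (s := s) hw (hD m hm1 hm2) (hL m hm1 hm2) (hq m hm1 hm2)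
  have hsub : {η : Env | ∑ m ∈ Finset.Icc 1 k, 2 ^ m * Real.exp (2 * Λ - c m) <
      W μ s η 0 T z - WR μ s (Gates p k σ w) η 0 T z} ⊆
      ({η : Env | ∃ t ≤ T, Λ < V μ s η 0 t} ∪ {η | ∃ t ≤ T, Real.exp Λ < Rv μ s η T z t}) ∪
      ⋃ m ∈ Finset.Icc 1 k, ⋃ i ∈ Finset.range (2 ^ m), B m i := by
    intro η hη
    by_contra hcon
    simp only [Set.mem_union, Set.mem_iUnion, not_or, not_exists, Set.mem_ofPred_eq, not_and, not_lt] at hcon
    obtain ⟨⟨h1, h2⟩, h3⟩ := hcon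
    have hη' : ∑ m ∈ Finset.Icc 1 k, 2 ^ m * Real.exp (2 * Λ - c m) <
      W μ s η 0 T z - WR μ s (Gates p k σ w) η 0 T z := hη
    have h4 := gates_exit (μ := μ) (s := s) (p := p) hδ hwm hz hsum η
    rw [← hT] at h4
    have h5 : ∑ m ∈ Finset.Icc 1 k, ∑ i ∈ Finset.range (2 ^ m),
        Pb μ s η T z σ w (wm m - (e0 + 1)) (dy (2 ^ k) m i * p) (dy (2 ^ k) m (i + 1) * p) ≤
        ∑ m ∈ Finset.Icc 1 k, 2 ^ m * Real.exp (2 * Λ - c m) := by
      refine Finset.sum_le_sum fun m hm => ?_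
      rw [Finset.mem_Icc] at hm
      have h6 : ∀ i ∈ Finset.range (2 ^ m), Pb μ s η T z σ w (wm m - (e0 + 1)) (dy (2 ^ k) m i * p)
          (dy (2 ^ k) m (i + 1) * p) ≤ Real.exp (2 * Λ - c m) := by
        intro i hi
        have hi' := Finset.mem_range.1 hi
        rw [dy_pow hm.2, dy_pow hm.2]
        have e1 : (i + 1) * 2 ^ (k - m) * p = i * 2 ^ (k - m) * p + 2 ^ (k - m) * p := by ring
        have hle : (i + 1) * 2 ^ (k - m) * p ≤ T := by
          have h7 : (i + 1) * 2 ^ (k - m) ≤ 2 ^ m * 2 ^ (k - m) := Nat.mul_le_mul_right _ (by omega)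
          rw [← pow_add, show m + (k - m) = k by omega] at h7
          rw [hT]
          exact (Nat.mul_le_mul_right p h7).trans (Nat.le_add_right _ _)
        have h8 := Pb_le (μ := μ) (s := s) η T z σ w (wm m - (e0 + 1)) (i * 2 ^ (k - m) * p)
          ((i + 1) * 2 ^ (k - m) * p) (B := Real.exp (-c m)) ?_ (Real.exp_pos _).le
        · refine h8.trans ?_
          have h9 : V μ s η 0 (i * 2 ^ (k - m) * p) ≤ Λ := h1 _ (by
            refine le_trans ?_ hle
            rw [e1]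
            exact Nat.le_add_right _ _)
          have h10 : ∑ x' ∈ Finset.Icc (0 : ℤ) ((i + 1) * 2 ^ (k - m) * p : ℕ),
              W μ s η ((((i + 1) * 2 ^ (k - m) * p : ℕ) : ℤ), x') (T - (i + 1) * 2 ^ (k - m) * p) (z - x') ≤
              Real.exp Λ := h2 _ hle
          have e2 : Real.exp (2 * Λ - c m) = Real.exp Λ * Real.exp (-c m) * Real.exp Λ := by
            rw [← Real.exp_add, ← Real.exp_add]
            congr 1
            ring
          rw [e2]
          refine mul_le_mul ?_ h10 (Finset.sum_nonneg fun _ _ => W_nonneg _ _ _ _) (by positivity)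
          exact mul_le_mul_of_nonneg_right (Real.exp_le_exp.2 h9) (Real.exp_pos _).le
        · intro x x' hV'
          by_contra hc
          apply h3 m (Finset.mem_Icc.2 hm) i hi
          rw [hB]
          refine ⟨x, x', ?_, ?_⟩
          · rw [← e1]
            exact hV'
          · have e3 : (i + 1) * 2 ^ (k - m) * p - i * 2 ^ (k - m) * p = 2 ^ (k - m) * p := by
              rw [e1]
              omega
            rw [e3] at hc
            exact (not_le.1 hc).le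
      refine (Finset.sum_le_sum h6).trans ?_
      rw [Finset.sum_const, Finset.card_range, nsmul_eq_mul]
      push_cast
      exact le_rfl
    linarith
  refine (measureReal_mono hsub (measure_ne_top _ _)).trans ((measureReal_union_le _ _).trans ?_)
  refine add_le_add ((measureReal_union_le _ _).trans (add_le_add hV hR)) ?_
  refine (measureReal_biUnion_finset_le _ _).trans (Finset.sum_le_sum fun m hm => ?_)
  rw [Finset.mem_Icc] at hm
  refine (measureReal_biUnion_finset_le _ _).trans ?_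
  refine (Finset.sum_le_sum fun i _ => hBq m hm.1 hm.2 i).trans ?_
  rw [Finset.sum_const, Finset.card_range, nsmul_eq_mul]
  push_cast
  exact le_rfl

end

end Pool.Agent.W_7d29a1_g
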