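import Pool.Agent.W_7d29a1_g.TubeB17

/-!
Track G, section 5 of proofs row 619 (soft tube): the numbers.
-/

namespace Pool.Agent.W_7d29a1_g

open MeasureTheory ProbabilityTheory Filter Topology
open Pool.Agent.W_7d29a1_F Pool.Agent.W_7d29a1_f21

noncomputable section

variable {μ : Measure ℝ} {s : ℝ}

theorem TC_geo {x : ℝ} (h0 : 0 ≤ x) (h1 : x < 1) (k : ℕ) : ∑ m ∈ Finset.Icc 1 k, x ^ m ≤ x / (1 - x) := by
  have h2 : ∀ k : ℕ, (1 - x) * ∑ m ∈ Finset.Icc 1 k, x ^ m = x - x ^ (k + 1) := by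
    intro k
    induction k with
    | zero => simp
    | succ k ih =>
      rw [Finset.sum_Icc_succ_top (by omega), mul_add, ih]
      ring
  rw [le_div_iff₀ (by linarith), mul_comm, h2]
  have := pow_nonneg h0 (k + 1)
  linarith

/-- The eighth root of `2`. -/
structure Root (r : ℝ) : Prop where
  pos : 0 < r
  eq : r ^ 8 = 2

theorem exists_root : ∃ r : ℝ, Root r := by
  refine ⟨(2 : ℝ) ^ (1 / 8 : ℝ), by positivity, ?_⟩
  rw [← Real.rpow_natCast, ← Real.rpow_mul (by norm_num)]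
  norm_num

theorem Root.r4 {r : ℝ} (h : Root r) : 1.41 ≤ r ^ 4 := by
  by_contra hc
  push Not at hc
  have h1 : 0 < r ^ 4 := pow_pos h.pos 4
  have h2 : r ^ 8 = r ^ 4 * r ^ 4 := by ring
  have h3 := h.eq
  nlinarith

theorem Root.r2 {r : ℝ} (h : Root r) : 1.18 ≤ r ^ 2 := by
  by_contra hc
  push Not at hc
  have h1 : 0 < r ^ 2 := pow_pos h.pos 2
  have h2 : r ^ 4 = r ^ 2 * r ^ 2 := by ring
  have h3 := h.r4
  nlinarith

theorem Root.r1 {r : ℝ} (h : Root r) : 1.08 ≤ r := by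
  by_contra hc
  push Not at hc
  have h1 := h.pos
  have h2 : r ^ 2 = r * r := by ring
  have h3 := h.r2
  nlinarith

theorem Root.r3 {r : ℝ} (h : Root r) : 1.27 ≤ r ^ 3 := by
  have h1 := h.r1
  have h2 := h.r2
  have h3 : r ^ 3 = r * r ^ 2 := by ring
  nlinarith

/-- The sum of the costs. -/
theorem TC_costs {r : ℝ} (hr : Root r) {a b : ℝ} (ha : 5 ≤ a) {k : ℕ} {c : ℕ → ℝ}
    (hc : ∀ m, 1 ≤ m → m ≤ k → a * r ^ (4 * m) ≤ c m) :
    ∑ m ∈ Finset.Icc 1 k, 2 ^ m * Real.exp (b - c m) ≤ Real.exp (b - a) := by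
  have h1 : ∀ m ∈ Finset.Icc 1 k, (2 : ℝ) ^ m * Real.exp (b - c m) ≤ Real.exp (b - a) * (1 / 2) ^ m := by
    intro m hm
    rw [Finset.mem_Icc] at hm
    have h2 := hc m hm.1 hm.2
    have h3 : 1 + (m : ℝ) * 0.41 ≤ r ^ (4 * m) := by
      rw [pow_mul]
      have h4 := one_add_mul_le_pow (a := (0.41 : ℝ)) (by norm_num) m
      have h5 : (1 + (0.41 : ℝ)) ^ m ≤ (r ^ 4) ^ m :=
        pow_le_pow_left₀ (by norm_num) (by linarith [hr.r4]) m
      linarith
    have hm0 : (0 : ℝ) ≤ m := Nat.cast_nonneg m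
    have h6 : a + 2 * m ≤ c m := by
      refine le_trans ?_ h2
      nlinarith [mul_le_mul_of_nonneg_left h3 (by linarith : (0 : ℝ) ≤ a), mul_nonneg hm0 (by linarith : 0 ≤ a - 5)]
    have h7 : Real.exp (b - c m) ≤ Real.exp (b - a) * Real.exp (-(2 * m)) := by
      rw [← Real.exp_add]
      exact Real.exp_le_exp.2 (by linarith)
    have h8 : (2 : ℝ) ^ m * Real.exp (-(2 * (m : ℝ))) ≤ (1 / 2) ^ m := by
      have h9 : Real.exp (-(2 * (m : ℝ))) = Real.exp (-2) ^ m := by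
        rw [← Real.exp_nat_mul]
        congr 1
        ring
      rw [h9, ← mul_pow]
      refine pow_le_pow_left₀ (by positivity) ?_ m
      have h10 : Real.exp 1 > 2.7182818283 := Real.exp_one_gt_d9
      have h11 : Real.exp (-2) = (Real.exp 1 * Real.exp 1)⁻¹ := by
        rw [← Real.exp_add, ← Real.exp_neg]
        norm_num
      rw [h11, ← div_eq_mul_inv, div_le_iff₀ (by positivity)]
      nlinarith
    calc (2 : ℝ) ^ m * Real.exp (b - c m) ≤ 2 ^ m * (Real.exp (b - a) * Real.exp (-(2 * m))) :=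
          mul_le_mul_of_nonneg_left h7 (by positivity)
      _ = Real.exp (b - a) * (2 ^ m * Real.exp (-(2 * m))) := by ring
      _ ≤ _ := mul_le_mul_of_nonneg_left h8 (Real.exp_pos _).le
  refine (Finset.sum_le_sum h1).trans ?_
  rw [← Finset.mul_sum]
  have h2 := TC_geo (x := 1 / 2) (by norm_num) (by norm_num) k
  have h3 : (1 / 2 : ℝ) / (1 - 1 / 2) = 1 := by norm_num
  rw [h3] at h2
  calc Real.exp (b - a) * ∑ m ∈ Finset.Icc 1 k, (1 / 2 : ℝ) ^ m ≤ Real.exp (b - a) * 1 :=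
        mul_le_mul_of_nonneg_left h2 (Real.exp_pos _).le
    _ = _ := mul_one _

/-- SECTION 5: the soft tube, for numbers. `v l`, `y l`, `E l`: edge, width and unit at the scale `l`; `d0`: the
direction `0`; `v'`: the slope of the tube; `w = v' p / 4`; `ET`: the unit at the scale `T`. -/
theorem soft_tube_num {r : ℝ} (hr : Root r) {c Cw k1 c2 K ε : ℝ} (hc : 0 < c) (hCw : 0 ≤ Cw) (hk1 : 0 ≤ k1)
    (hc2 : 0 < c2) (hK : 0 ≤ K) (hε : 0 < ε) : ∃ C0 : ℝ, 1 ≤ C0 ∧
    ∀ {μ : Measure ℝ} [IsProbabilityMeasure μ] {s d0 : ℝ} {p k δ : ℕ} {z : ℤ} {v' ET q0 q1 : ℝ}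
      {v y E : ℕ → ℝ}, δ ≤ 1 → 0 < v' → 1 ≤ ET →
      |(z : ℝ) - (d0 + v') * ((2 ^ k * p : ℕ) : ℝ)| ≤ 1 →
      (∀ m ≤ k, v (2 ^ (k - m) * p) ≤ (1 + r ^ m / (C0 * 2 ^ k)) * v' ∧
        y (2 ^ (k - m) * p) * v (2 ^ (k - m) * p) ≤ r ^ m / (C0 * 2 ^ k) * v' ∧
        c2 ≤ y (2 ^ (k - m) * p) * v (2 ^ (k - m) * p) * ((2 ^ (k - m) * p : ℕ) : ℝ) ∧
        ET ≤ 4 * r ^ (2 * m) * E (2 ^ (k - m) * p)) →
      (∀ m, 1 ≤ m → m ≤ k → ∀ A : ℝ, 1 ≤ A →
        (law μ).real (Wl μ s 0 (2 ^ (k - m) * p) 0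
          ((d0 + v (2 ^ (k - m) * p)) * ((2 ^ (k - m) * p : ℕ) : ℝ) +
            A * (y (2 ^ (k - m) * p) * v (2 ^ (k - m) * p) * ((2 ^ (k - m) * p : ℕ) : ℝ)))
          (c * A * E (2 ^ (k - m) * p))) ≤ Cw / A ^ 2) →
      (law μ).real {η | ∃ t ≤ 2 ^ k * p + δ, k1 * ET < V μ s η 0 t} ≤ q0 →
      (law μ).real {η | ∃ t ≤ 2 ^ k * p + δ, Real.exp (k1 * ET) < Rv μ s η (2 ^ k * p + δ) z t} ≤ q1 →
      (law μ).real {η | Real.exp (-(K * ET)) < W μ s η 0 (2 ^ k * p + δ) z -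
        WR μ s (Gates p k (d0 + v') (v' * p / 4)) η 0 (2 ^ k * p + δ) z} ≤ q0 + q1 + ε := by
  have hr1 := hr.r1
  have hr0 := hr.pos
  obtain ⟨a1, ha1⟩ : ∃ a1, a1 = 1024 * (2 * k1 + K + 5) / c := ⟨_, rfl⟩
  obtain ⟨a2, ha2⟩ : ∃ a2, a2 = 256 + 40 / c2 + 1024 / c2 := ⟨_, rfl⟩
  obtain ⟨a3, ha3⟩ : ∃ a3, a3 = 1 + 65536 * 260 * 4 * Cw / ε := ⟨_, rfl⟩
  have ha1' : 0 ≤ a1 := by rw [ha1]; positivity
  have ha2' : 256 ≤ a2 := by
    rw [ha2]
    have h1 : 0 < 40 / c2 := by positivity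
    have h2 : 0 < 1024 / c2 := by positivity
    linarith
  have ha3' : 1 ≤ a3 := by
    rw [ha3]
    have h1 : 0 ≤ 65536 * 260 * 4 * Cw / ε := by positivity
    linarith
  refine ⟨a1 + a2 + a3 + 1024, by linarith, ?_⟩
  obtain ⟨C0, hC0⟩ : ∃ C0, C0 = a1 + a2 + a3 + 1024 := ⟨_, rfl⟩
  rw [← hC0]
  have hC1 : a1 ≤ C0 := by linarith
  have hC2 : a2 ≤ C0 := by linarith
  have hC3 : a3 ≤ C0 := by linarith
  have hC4 : 1024 ≤ C0 := by linarith
  have hCpos : 0 < C0 := by linarith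
  intro μ _ s d0 p k δ z v' ET q0 q1 v y E hδ hv' hET hz h5 hWl hV hR
  obtain ⟨P, hP⟩ : ∃ P : ℝ, P = v' * p := ⟨_, rfl⟩
  have hrk : (1 : ℝ) ≤ r := by linarith
  -- lower bound of `P`
  have hPlow : ∀ m ≤ k, c2 * C0 * r ^ m ≤ P := by
    intro m hm
    obtain ⟨-, h1, h2, -⟩ := h5 k le_rfl
    rw [Nat.sub_self, pow_zero, one_mul] at h1 h2
    have h3 : c2 ≤ r ^ k / (C0 * 2 ^ k) * v' * (p : ℝ) :=
      h2.trans (mul_le_mul_of_nonneg_right h1 (Nat.cast_nonneg p))
    have h4 : r ^ k / (C0 * 2 ^ k) * v' * (p : ℝ) = r ^ k / 2 ^ k * P / C0 := by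
      rw [hP]
      field_simp
    rw [h4, le_div_iff₀ hCpos] at h3
    have h6 : r ^ k / 2 ^ k * r ^ m ≤ 1 := by
      have h7 : r ^ m ≤ r ^ k := pow_le_pow_right₀ hrk hm
      have h8 : r ^ k * r ^ k ≤ 2 ^ k := by
        rw [← mul_pow]
        refine pow_le_pow_left₀ (by positivity) ?_ k
        have h9 : r * r ≤ r ^ 8 := by
          rw [← pow_two]
          exact pow_le_pow_right₀ hrk (by norm_num)
        rwa [hr.eq] at h9
      rw [div_mul_eq_mul_div, div_le_one (by positivity)]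
      exact (mul_le_mul_of_nonneg_left h7 (by positivity)).trans h8
    have hP0 : 0 ≤ P := by
      rw [hP]
      positivity
    calc c2 * C0 * r ^ m ≤ (r ^ k / 2 ^ k * P) * r ^ m := mul_le_mul_of_nonneg_right h3 (by positivity)
      _ = (r ^ k / 2 ^ k * r ^ m) * P := by ring
      _ ≤ 1 * P := mul_le_mul_of_nonneg_right h6 hP0
      _ = P := one_mul P
  have hc2a : 1064 ≤ c2 * C0 := by
    have h1 : c2 * a2 ≤ c2 * C0 := mul_le_mul_of_nonneg_left hC2 hc2.le
    have h2 : c2 * a2 = 256 * c2 + 40 + 1024 := by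
      rw [ha2]
      field_simp
    linarith
  have hPbig : 1064 ≤ P := by
    have := hPlow 0 (Nat.zero_le k)
    rw [pow_zero, mul_one] at this
    linarith
  have hPpos : 0 < P := by linarith
  have hPr : ∀ m ≤ k, 1064 * r ^ m ≤ P := fun m hm =>
    (mul_le_mul_of_nonneg_right hc2a (by positivity)).trans (hPlow m hm)
  -- lengths
  have hl : ∀ m ≤ k, ((2 ^ (k - m) * p : ℕ) : ℝ) * 2 ^ m = 2 ^ k * p := by
    intro m hm
    push_cast
    have h1 : (2 : ℝ) ^ k = 2 ^ (k - m) * 2 ^ m := by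
      rw [← pow_add]
      congr 1
      omega
    rw [h1]
    ring
  -- `kap v' l`
  have hkap : ∀ m ≤ k, r ^ m / (C0 * 2 ^ k) * v' * ((2 ^ (k - m) * p : ℕ) : ℝ) = r ^ m * P / (C0 * 2 ^ m) := by
    intro m hm
    have h1 := hl m hm
    rw [hP, div_mul_eq_mul_div, div_mul_eq_mul_div, div_eq_div_iff (by positivity) (by positivity)]
    linear_combination (r ^ m * v' * C0) * h1
  -- the width of the passages in the scale
  obtain ⟨u, hu⟩ : ∃ u : ℕ → ℝ, u = fun m => y (2 ^ (k - m) * p) * v (2 ^ (k - m) * p) *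
      ((2 ^ (k - m) * p : ℕ) : ℝ) := ⟨_, rfl⟩
  have hu0 : ∀ m ≤ k, 0 < u m := by
    intro m hm
    rw [hu]
    exact hc2.trans_le (h5 m hm).2.2.1
  have hu1 : ∀ m ≤ k, u m ≤ r ^ m * P / (C0 * 2 ^ m) := by
    intro m hm
    rw [hu, ← hkap m hm]
    exact mul_le_mul_of_nonneg_right (h5 m hm).2.1 (Nat.cast_nonneg _)
  obtain ⟨A, hA⟩ : ∃ A : ℕ → ℝ, A = fun m => P / (256 * r ^ m) / u m := ⟨_, rfl⟩
  have h2r : ∀ m : ℕ, (2 : ℝ) ^ m = r ^ (8 * m) := fun m => by rw [pow_mul, hr.eq]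
  have hAge : ∀ m ≤ k, C0 * r ^ (6 * m) / 256 ≤ A m := by
    intro m hm
    rw [hA]
    simp only
    rw [le_div_iff₀ (hu0 m hm)]
    have h1 : C0 * r ^ (6 * m) / 256 * u m ≤ C0 * r ^ (6 * m) / 256 * (r ^ m * P / (C0 * 2 ^ m)) :=
      mul_le_mul_of_nonneg_left (hu1 m hm) (by positivity)
    refine h1.trans (le_of_eq ?_)
    rw [h2r m]
    have e1 : r ^ (8 * m) = r ^ (6 * m) * r ^ m * r ^ m := by
      rw [← pow_add, ← pow_add]
      congr 1
      omega
    rw [e1]
    field_simp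
  have hA1 : ∀ m ≤ k, 1 ≤ A m := by
    intro m hm
    refine le_trans ?_ (hAge m hm)
    have h1 : (1 : ℝ) ≤ r ^ (6 * m) := one_le_pow₀ hrk
    rw [le_div_iff₀ (by norm_num)]
    nlinarith
  have hDm : ∀ m ≤ k, A m * u m = P / (256 * r ^ m) := by
    intro m hm
    rw [hA]
    exact div_mul_cancel₀ _ (hu0 m hm).ne'
  -- the main estimate
  have hmain := soft_tube (μ := μ) (s := s) (p := p) (k := k) (δ := δ) hδ (z := z) (σ := d0 + v')
    (w := v' * p / 4) (e0 := 1) (Λ := k1 * ET) (q0 := q0) (q1 := q1)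
    (wm := fun m => P / (64 * r ^ m)) (D := fun m => P / (256 * r ^ m))
    (L := fun m => (d0 + v (2 ^ (k - m) * p)) * ((2 ^ (k - m) * p : ℕ) : ℝ) + A m * u m)
    (c := fun m => c * A m * E (2 ^ (k - m) * p)) (q := fun m => Cw / A m ^ 2)
    (by positivity) (fun m => by positivity) hz
    (by
      rw [← hP]
      have h1 : ∑ m ∈ Finset.Icc 1 k, P / (64 * r ^ m) = P / 64 * ∑ m ∈ Finset.Icc 1 k, (1 / r) ^ m := by
        rw [Finset.mul_sum]
        refine Finset.sum_congr rfl fun m _ => ?_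
        rw [one_div, inv_pow]
        field_simp
      rw [h1]
      have h2 := TC_geo (x := 1 / r) (by positivity) (by rw [div_lt_one hr0]; linarith) k
      have h3 : 1 / r / (1 - 1 / r) = 1 / (r - 1) := by
        field_simp
      have h4 : 1 / (r - 1) ≤ 12.5 := by
        rw [div_le_iff₀ (by linarith)]
        linarith
      rw [h3] at h2
      have h5 : P / 64 * ∑ m ∈ Finset.Icc 1 k, (1 / r) ^ m ≤ P / 64 * 12.5 :=
        mul_le_mul_of_nonneg_left (h2.trans h4) (by positivity)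
      linarith)
    (fun m _ _ => by positivity)
    (by
      intro m _ hm2
      rw [hDm m hm2]
      have h1 : v (2 ^ (k - m) * p) * ((2 ^ (k - m) * p : ℕ) : ℝ) ≤
          v' * ((2 ^ (k - m) * p : ℕ) : ℝ) + r ^ m * P / (C0 * 2 ^ m) := by
        rw [← hkap m hm2]
        have h2 := mul_le_mul_of_nonneg_right (h5 m hm2).1 (Nat.cast_nonneg (α := ℝ) (2 ^ (k - m) * p))
        linarith
      have h3 : r ^ m * P / (C0 * 2 ^ m) ≤ P / (1024 * r ^ m) := by
        rw [div_le_div_iff₀ (by positivity) (by positivity)]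
        have h4 : r ^ m * r ^ m ≤ 2 ^ m := by
          rw [← mul_pow]
          refine pow_le_pow_left₀ (by positivity) ?_ m
          have h9 : r * r ≤ r ^ 8 := by
            rw [← pow_two]
            exact pow_le_pow_right₀ hrk (by norm_num)
          rwa [hr.eq] at h9
        calc r ^ m * P * (1024 * r ^ m) = 1024 * P * (r ^ m * r ^ m) := by ring
          _ ≤ C0 * P * 2 ^ m := by
            refine mul_le_mul ?_ h4 (by positivity) (by positivity)
            exact mul_le_mul_of_nonneg_right hC4 hPpos.le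
          _ = P * (C0 * 2 ^ m) := by ring
      have h6 : 2 ≤ P / (512 * r ^ m) := by
        rw [le_div_iff₀ (by positivity)]
        have := hPr m hm2
        linarith
      have h7 : P / (64 * r ^ m) = 16 * (P / (1024 * r ^ m)) := by
        field_simp
        norm_num
      have h8 : P / (256 * r ^ m) = 4 * (P / (1024 * r ^ m)) := by
        field_simp
        norm_num
      have h9 : P / (512 * r ^ m) = 2 * (P / (1024 * r ^ m)) := by
        field_simp
        norm_num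
      rw [h7, h8]
      rw [h9] at h6
      have h10 : 0 ≤ P / (1024 * r ^ m) := by positivity
      linarith)
    (by
      intro m hm1 hm2
      have h1 := hWl m hm1 hm2 (A m) (hA1 m hm2)
      rw [hu]
      exact h1)
    hV hR
  refine (measureReal_mono ?_ (measure_ne_top _ _)).trans (hmain.trans (add_le_add le_rfl ?_))
  · -- the costs
    intro η hη
    have hη' : Real.exp (-(K * ET)) < W μ s η 0 (2 ^ k * p + δ) z -
        WR μ s (Gates p k (d0 + v') (v' * p / 4)) η 0 (2 ^ k * p + δ) z := hη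
    refine lt_of_le_of_lt ?_ hη'
    have ha : (2 * k1 + K + 5) * ET ≤ c * C0 * ET / 1024 := by
      have h1 : 1024 * (2 * k1 + K + 5) ≤ c * C0 := by
        have h2 : c * a1 ≤ c * C0 := mul_le_mul_of_nonneg_left hC1 hc.le
        have h3 : c * a1 = 1024 * (2 * k1 + K + 5) := by
          rw [ha1]
          field_simp
        linarith
      rw [le_div_iff₀ (by norm_num)]
      nlinarith
    have ha5 : 5 ≤ c * C0 * ET / 1024 := by
      refine le_trans ?_ ha
      nlinarith [mul_nonneg hk1 (by linarith : (0 : ℝ) ≤ ET), mul_nonneg hK (by linarith : (0 : ℝ) ≤ ET)]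
    refine (TC_costs hr (a := c * C0 * ET / 1024) ha5 (b := 2 * (k1 * ET)) ?_).trans ?_
    · intro m _ hm2
      have h1 := hAge m hm2
      have h2 := (h5 m hm2).2.2.2
      have h3 : 0 ≤ C0 * r ^ (6 * m) / 256 := by positivity
      have h4 : ET / (4 * r ^ (2 * m)) ≤ E (2 ^ (k - m) * p) := by
        rw [div_le_iff₀ (by positivity), mul_comm]
        exact h2
      have h6 : 0 ≤ ET / (4 * r ^ (2 * m)) := by positivity
      calc c * C0 * ET / 1024 * r ^ (4 * m) = c * (C0 * r ^ (6 * m) / 256) * (ET / (4 * r ^ (2 * m))) := by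
            have e1 : r ^ (6 * m) = r ^ (4 * m) * r ^ (2 * m) := by
              rw [← pow_add]
              congr 1
              omega
            rw [e1]
            field_simp
            norm_num
        _ ≤ c * A m * E (2 ^ (k - m) * p) := by
            refine mul_le_mul (mul_le_mul_of_nonneg_left h1 hc.le) h4 h6 ?_
            exact mul_nonneg hc.le (h3.trans h1)
    · exact Real.exp_le_exp.2 (by nlinarith [mul_nonneg hk1 (by linarith : (0 : ℝ) ≤ ET)])
  · -- the probabilities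
    have h1 : ∀ m ∈ Finset.Icc 1 k, (2 : ℝ) ^ m * (4 * (v' * p / 4 / (P / (256 * r ^ m)) + 1) * (Cw / A m ^ 2)) ≤
        260 * 65536 * Cw / C0 ^ 2 * (1 / r ^ 3) ^ m := by
      intro m hm
      rw [Finset.mem_Icc] at hm
      rw [← hP]
      have h2 : P / 4 / (P / (256 * r ^ m)) = 64 * r ^ m := by
        field_simp
        norm_num
      rw [h2]
      have h3 := hAge m hm.2
      have h4 : 0 < C0 * r ^ (6 * m) / 256 := by positivity
      have h5 : Cw / A m ^ 2 ≤ Cw / (C0 * r ^ (6 * m) / 256) ^ 2 :=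
        div_le_div_of_nonneg_left hCw (by positivity) (pow_le_pow_left₀ h4.le h3 2)
      have h6 : 4 * (64 * r ^ m + 1) ≤ 260 * r ^ m := by
        have : (1 : ℝ) ≤ r ^ m := one_le_pow₀ hrk
        linarith
      calc (2 : ℝ) ^ m * (4 * (64 * r ^ m + 1) * (Cw / A m ^ 2)) ≤
          2 ^ m * (260 * r ^ m * (Cw / (C0 * r ^ (6 * m) / 256) ^ 2)) := by
            refine mul_le_mul_of_nonneg_left ?_ (by positivity)
            exact mul_le_mul h6 h5 (by positivity) (by positivity)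
        _ = 260 * 65536 * Cw / C0 ^ 2 * (1 / r ^ 3) ^ m := by
            rw [h2r m]
            have e1 : (1 / r ^ 3) ^ m = 1 / r ^ (3 * m) := by
              rw [div_pow, one_pow, ← pow_mul]
            have e2 : (r ^ (6 * m)) ^ 2 = r ^ (8 * m) * r ^ m * r ^ (3 * m) := by
              rw [← pow_mul, ← pow_add, ← pow_add]
              congr 1
              omega
            rw [e1, div_pow, mul_pow, e2]
            field_simp
            norm_num
    refine (Finset.sum_le_sum h1).trans ?_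
    rw [← Finset.mul_sum]
    have hr3 := hr.r3
    have h2 := TC_geo (x := 1 / r ^ 3) (by positivity) (by rw [div_lt_one (by positivity)]; linarith) k
    have h3 : 1 / r ^ 3 / (1 - 1 / r ^ 3) = 1 / (r ^ 3 - 1) := by
      field_simp
    have h4 : 1 / (r ^ 3 - 1) ≤ 4 := by
      rw [div_le_iff₀ (by linarith)]
      linarith
    rw [h3] at h2
    have h5 : 260 * 65536 * Cw / C0 ^ 2 * ∑ m ∈ Finset.Icc 1 k, (1 / r ^ 3) ^ m ≤
        260 * 65536 * Cw / C0 ^ 2 * 4 := mul_le_mul_of_nonneg_left (h2.trans h4) (by positivity)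
    refine h5.trans ?_
    rw [div_mul_eq_mul_div, div_le_iff₀ (by positivity)]
    have h6 : ε * a3 = ε + 65536 * 260 * 4 * Cw := by
      rw [ha3]
      field_simp
    have h7 : ε * a3 ≤ ε * C0 ^ 2 := by
      refine mul_le_mul_of_nonneg_left ?_ hε.le
      nlinarith
    linarith

end

end Pool.Agent.W_7d29a1_g
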